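import Mathlib

/-! Stepanov's elementary method: a Weil-type bound for sums of the quadratic character of a
polynomial over a prime field. -/

namespace Pool.Agent.Lib.MP_4a1067_nt

open Polynomial

section Op
variable {F : Type*} [Field F]

/-- cofactor of `f ^ (e - k)` in the `k`-th derivative of `f ^ e * r` -/
noncomputable def T (f : F[X]) (e : ℕ) : ℕ → F[X] →ₗ[F] F[X]
  | 0 => LinearMap.id
  | k + 1 => (LinearMap.mulLeft F (((e - k : ℕ) : F[X]) * derivative f)
      + (LinearMap.mulLeft F f) ∘ₗ derivative) ∘ₗ T f e k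

lemma T_zero (f : F[X]) (e : ℕ) (r : F[X]) : T f e 0 r = r := rfl

lemma T_succ (f : F[X]) (e k : ℕ) (r : F[X]) :
    T f e (k + 1) r = ((e - k : ℕ) : F[X]) * derivative f * T f e k r
      + f * derivative (T f e k r) := by
  simp [T, mul_assoc]

lemma iter_deriv (f : F[X]) (e : ℕ) (r : F[X]) :
    ∀ k, k ≤ e → derivative^[k] (f ^ e * r) = f ^ (e - k) * T f e k r := by
  intro k
  induction k with
  | zero => intro _; simp [T_zero]
  | succ k ih =>
    intro hk
    rw [Function.iterate_succ_apply', ih (by omega), T_succ]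
    obtain ⟨n, hn⟩ : ∃ n, e - k = n + 1 := ⟨e - k - 1, by omega⟩
    have hn' : e - (k + 1) = n := by omega
    rw [hn, hn', derivative_mul, derivative_pow_succ]
    simp only [map_add, map_natCast, map_one, Nat.cast_add, Nat.cast_one]
    ring

lemma natDegree_T_le (f : F[X]) (e : ℕ) (r : F[X]) :
    ∀ k, (T f e k r).natDegree ≤ r.natDegree + k * f.natDegree := by
  intro k
  induction k with
  | zero => simp [T_zero]
  | succ k ih =>
    rw [T_succ]
    refine (natDegree_add_le _ _).trans (max_le ?_ ?_)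
    · refine natDegree_mul_le.trans ?_
      have h1 : (((e - k : ℕ) : F[X]) * derivative f).natDegree ≤ f.natDegree := by
        refine natDegree_mul_le.trans ?_
        rw [natDegree_natCast, zero_add]
        exact (natDegree_derivative_le f).trans (Nat.sub_le _ _)
      nlinarith
    · refine natDegree_mul_le.trans ?_
      have h1 := (natDegree_derivative_le (T f e k r)).trans (Nat.sub_le _ _)
      nlinarith

lemma iter_deriv_mul_const (Y : F[X]) (hY : derivative Y = 0) (A : F[X]) (j : ℕ) :
    ∀ k, derivative^[k] (A * Y ^ j) = derivative^[k] A * Y ^ j := by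
  intro k
  induction k with
  | zero => simp
  | succ k ih =>
    rw [Function.iterate_succ_apply', ih, Function.iterate_succ_apply', derivative_mul,
      derivative_pow, hY]
    simp

lemma sum_pow_eq_zero (Y : F[X]) (hY : Y ≠ 0) :
    ∀ (J : ℕ) (A : Fin J → F[X]), ∑ j, A j * Y ^ (j : ℕ) = 0 → (∀ j, Y ∣ A j → A j = 0) →
      ∀ j, A j = 0 := by
  intro J
  induction J with
  | zero => intro A _ _ j; exact j.elim0
  | succ J ih =>
    intro A h hA
    rw [Fin.sum_univ_succ] at h
    have h2 : ∑ j : Fin J, A j.succ * Y ^ ((j.succ : Fin (J + 1)) : ℕ)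
        = Y * ∑ j : Fin J, A j.succ * Y ^ (j : ℕ) := by
      rw [Finset.mul_sum]
      refine Finset.sum_congr rfl fun j _ => ?_
      rw [Fin.val_succ, pow_succ]; ring
    rw [h2] at h
    simp only [Fin.val_zero, pow_zero, mul_one] at h
    have h0 : A 0 = 0 := hA 0 ⟨-∑ j : Fin J, A j.succ * Y ^ (j : ℕ), by linear_combination h⟩
    rw [h0, zero_add, mul_eq_zero] at h
    have h3 := ih (fun j => A j.succ) (h.resolve_left hY) (fun j => hA j.succ)
    intro j
    exact Fin.cases h0 h3 j

lemma mul_card_le_natDegree [DecidableEq F] (R : F[X]) (l : ℕ) (S : Finset F)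
    (h : ∀ x ∈ S, l ≤ R.rootMultiplicity x) : l * S.card ≤ R.natDegree := by
  have h1 : l • S.val ≤ R.roots := by
    rw [Multiset.le_iff_count]
    intro x
    rw [Multiset.count_nsmul, count_roots]
    by_cases hx : x ∈ S
    · rw [Multiset.count_eq_one_of_mem S.nodup hx, mul_one]; exact h x hx
    · rw [Multiset.count_eq_zero_of_notMem hx]; simp
  have h2 := Multiset.card_le_card h1
  rw [Multiset.card_nsmul] at h2
  exact h2.trans (card_roots' R)

/-- `f` is not a constant times the square of a rational function -/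
def NS (f : F[X]) : Prop := ∀ (c : F) (r s : F[X]), r ^ 2 * f = C c * s ^ 2 → r = 0

end Op

section Main
variable {p : ℕ} [hp : Fact p.Prime]

lemma key_dvd (hp2 : p ≠ 2) (f : (ZMod p)[X]) (hns : NS f) (x0 : ZMod p) (hx0 : f.eval x0 ≠ 0)
    (B : ℕ) (hB : 2 * B + f.natDegree ≤ p + 1) (r s : (ZMod p)[X]) (hr : r.degree < B)
    (hs : s.degree < B) (h : X ^ p - C x0 ∣ r + s * f ^ (p / 2)) : r = 0 ∧ s = 0 := by
  have hodd : p = 2 * (p / 2) + 1 := by
    have := hp.out.eq_two_or_odd
    omega
  have h1 : X ^ p - C x0 ∣ f ^ p - C (f.eval x0) := by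
    rw [← ZMod.expand_card f, expand_eq_comp_X_pow]
    have := Polynomial.sub_dvd_eval_sub (X ^ p : (ZMod p)[X]) (C x0) (f.map C)
    rw [eval_map, eval_map] at this
    have e1 : eval₂ C (X ^ p : (ZMod p)[X]) f = f.comp (X ^ p) := rfl
    have e2 : eval₂ C (C x0 : (ZMod p)[X]) f = C (f.eval x0) := by
      rw [eval₂_at_apply]
    rwa [e1, e2] at this
  have h2 : X ^ p - C x0 ∣ r ^ 2 * f - C (f.eval x0) * s ^ 2 := by
    have e : r ^ 2 * f - C (f.eval x0) * s ^ 2
        = (r + s * f ^ (p / 2)) * ((r - s * f ^ (p / 2)) * f)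
          + s ^ 2 * (f ^ p - C (f.eval x0)) := by
      have e3 : f ^ p = (f ^ (p / 2)) ^ 2 * f := by
        rw [← pow_mul, ← pow_succ]
        congr 1
        omega
      rw [e3]; ring
    rw [e]
    exact dvd_add (h.mul_right _) (h1.mul_left _)
  have hdeg : (X ^ p - C x0 : (ZMod p)[X]).natDegree = p := natDegree_X_pow_sub_C
  have hppos : 0 < p := hp.out.pos
  have h3 : r ^ 2 * f - C (f.eval x0) * s ^ 2 = 0 := by
    by_cases hB0 : B = 0
    · subst hB0
      have hr0 : r = 0 := by
        by_contra h0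
        rw [degree_eq_natDegree h0] at hr
        exact absurd hr (by norm_cast)
      have hs0 : s = 0 := by
        by_contra h0
        rw [degree_eq_natDegree h0] at hs
        exact absurd hs (by norm_cast)
      simp [hr0, hs0]
    have hr' : r.natDegree ≤ B - 1 := by
      by_cases h0 : r = 0
      · simp [h0]
      · have := (natDegree_lt_iff_degree_lt h0).mpr hr
        omega
    have hs' : s.natDegree ≤ B - 1 := by
      by_cases h0 : s = 0
      · simp [h0]
      · have := (natDegree_lt_iff_degree_lt h0).mpr hs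
        omega
    refine eq_zero_of_dvd_of_natDegree_lt h2 ?_
    rw [hdeg]
    refine lt_of_le_of_lt (natDegree_sub_le _ _) (max_lt ?_ ?_)
    · refine lt_of_le_of_lt natDegree_mul_le ?_
      have := natDegree_pow_le (p := r) (n := 2)
      omega
    · refine lt_of_le_of_lt (natDegree_C_mul_le _ _) ?_
      have := natDegree_pow_le (p := s) (n := 2)
      omega
  have hr0 : r = 0 := hns _ r s (sub_eq_zero.mp h3)
  refine ⟨hr0, ?_⟩
  rw [hr0] at h3
  simpa [hx0] using h3

lemma stepanov_count (hp2 : p ≠ 2) (f : (ZMod p)[X]) (hns : NS f) (x0 : ZMod p)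
    (hx0 : f.eval x0 ≠ 0) (θ : ZMod p) (l J B : ℕ) (hl : l ≤ p)
    (hB : 2 * B + f.natDegree ≤ p + 1) (hcount : l * (B + l * f.natDegree + J) < J * (2 * B))
    (S : Finset (ZMod p)) (hS : ∀ x ∈ S, f.eval x = 0 ∨ (f.eval x) ^ (p / 2) = θ) :
    l * S.card ≤ l * f.natDegree + (B + (p / 2) * f.natDegree) + (J - 1) * p := by
  classical
  set m := f.natDegree with hm
  set N := B + l * m + J with hN
  set c := p / 2 with hc
  let V := Fin J → degreeLT (ZMod p) B × degreeLT (ZMod p) B
  let σ : ℕ → V →ₗ[ZMod p] (ZMod p)[X] := fun k =>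
    ∑ j : Fin J, (LinearMap.mulRight (ZMod p) ((X - C x0) ^ (j : ℕ))) ∘ₗ
      ((T f l k ∘ₗ (degreeLT (ZMod p) B).subtype ∘ₗ LinearMap.fst _ _ _
        + θ • (T f (l + c) k ∘ₗ (degreeLT (ZMod p) B).subtype ∘ₗ LinearMap.snd _ _ _)) ∘ₗ
        LinearMap.proj j)
  have hσ : ∀ k (v : V), σ k v = ∑ j : Fin J,
      (T f l k (v j).1 + θ • T f (l + c) k (v j).2) * (X - C x0) ^ (j : ℕ) := by
    intro k v
    simp [σ, LinearMap.sum_apply]
    rfl
  let Φ : V →ₗ[ZMod p] (Fin l × Fin N → ZMod p) :=
    LinearMap.pi fun i => lcoeff (ZMod p) (i.2 : ℕ) ∘ₗ σ (i.1 : ℕ)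
  have hfin : Module.finrank (ZMod p) (degreeLT (ZMod p) B) = B := by
    rw [Module.finrank_eq_card_basis (degreeLT.basis (ZMod p) B), Fintype.card_fin]
  have : Module.Finite (ZMod p) (degreeLT (ZMod p) B) :=
    Module.Finite.of_basis (degreeLT.basis (ZMod p) B)
  have hker : LinearMap.ker Φ ≠ ⊥ := by
    apply LinearMap.ker_ne_bot_of_finrank_lt
    rw [Module.finrank_fintype_fun_eq_card, Module.finrank_pi_fintype]
    simp only [Module.finrank_prod, hfin, Finset.sum_const, Finset.card_univ, Fintype.card_fin,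
      Fintype.card_prod, smul_eq_mul]
    rw [← two_mul]
    exact hcount
  obtain ⟨v, hv, hv0⟩ := Submodule.exists_mem_ne_zero_of_ne_bot hker
  have hdegr : ∀ r : degreeLT (ZMod p) B, (r : (ZMod p)[X]).natDegree ≤ B := by
    intro r
    have := mem_degreeLT.mp r.2
    exact natDegree_le_of_degree_le this.le
  have hσ0 : ∀ k < l, σ k v = 0 := by
    intro k hk
    have hdeg : (σ k v).natDegree < N := by
      rw [hσ]
      by_cases hJ : J = 0
      · subst hJ
        simp at hcount
      refine lt_of_le_of_lt (natDegree_sum_le_of_forall_le _ _ (n := B + l * m + (J - 1)) ?_)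
        (by omega)
      intro j _
      refine natDegree_mul_le.trans (add_le_add ?_ ?_)
      · have hkl : k * m ≤ l * m := Nat.mul_le_mul_right _ hk.le
        refine (natDegree_add_le _ _).trans (max_le ?_ ?_)
        · have := natDegree_T_le f l (v j).1 k
          rw [← hm] at this
          have := hdegr (v j).1
          omega
        · refine (natDegree_smul_le _ _).trans ?_
          have := natDegree_T_le f (l + c) (v j).2 k
          rw [← hm] at this
          have := hdegr (v j).2
          omega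
      · refine natDegree_pow_le.trans ?_
        rw [natDegree_X_sub_C]
        have := j.2
        omega
    ext i
    by_cases hi : i < N
    · have := congrFun (LinearMap.mem_ker.mp hv) (⟨k, hk⟩, ⟨i, hi⟩)
      simpa [Φ] using this
    · rw [coeff_eq_zero_of_natDegree_lt (by omega), coeff_zero]
  set Y : (ZMod p)[X] := X ^ p - C x0 with hY
  have hYdeg : Y.natDegree = p := natDegree_X_pow_sub_C
  have hppos : 0 < p := hp.out.pos
  have hY0 : Y ≠ 0 := by
    intro h
    rw [h, natDegree_zero] at hYdeg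
    omega
  have hYd : derivative Y = 0 := by
    rw [hY, derivative_sub, derivative_C, derivative_X_pow]
    simp
  have hf0 : f ≠ 0 := by
    intro h
    apply hx0
    simp [h]
  set A : Fin J → (ZMod p)[X] := fun j => (v j).1 + (v j).2 * f ^ c with hA
  set R : (ZMod p)[X] := f ^ l * ∑ j, A j * Y ^ (j : ℕ) with hR
  have hR0 : R ≠ 0 := by
    intro h
    rw [hR, mul_eq_zero] at h
    have h1 := h.resolve_left (pow_ne_zero _ hf0)
    have hk : ∀ j, Y ∣ A j → ((v j).1 : (ZMod p)[X]) = 0 ∧ ((v j).2 : (ZMod p)[X]) = 0 :=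
      fun j hj => key_dvd hp2 f hns x0 hx0 B hB _ _ (mem_degreeLT.mp (v j).1.2)
        (mem_degreeLT.mp (v j).2.2) hj
    have h2 := sum_pow_eq_zero Y hY0 J A h1 (fun j hj => by
      simp [hA, (hk j hj).1, (hk j hj).2])
    apply hv0
    funext j
    have h3 := hk j (by rw [h2 j]; exact dvd_zero _)
    exact Prod.ext (Subtype.ext h3.1) (Subtype.ext h3.2)
  have hRdeg : R.natDegree ≤ l * m + (B + c * m) + (J - 1) * p := by
    refine natDegree_mul_le.trans ?_
    rw [add_assoc]
    refine add_le_add natDegree_pow_le ?_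
    refine natDegree_sum_le_of_forall_le _ _ ?_
    intro j _
    refine natDegree_mul_le.trans (add_le_add ?_ ?_)
    · refine (natDegree_add_le _ _).trans (max_le ?_ ?_)
      · have := hdegr (v j).1
        omega
      · exact natDegree_mul_le.trans (add_le_add (hdegr _) natDegree_pow_le)
    · refine natDegree_pow_le.trans ?_
      rw [hYdeg]
      have := j.2
      exact Nat.mul_le_mul_right _ (by omega)
  refine le_trans (mul_card_le_natDegree R l S ?_) hRdeg
  intro x hx
  rcases Nat.eq_zero_or_pos l with hl0 | hl0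
  · omega
  have hder : ∀ k < l, derivative^[k] R
      = f ^ (l - k) * ∑ j : Fin J,
        (T f l k (v j).1 + f ^ c * T f (l + c) k (v j).2) * Y ^ (j : ℕ) := by
    intro k hk
    have e1 : R = ∑ j : Fin J, (f ^ l * (v j).1 + f ^ (l + c) * (v j).2) * Y ^ (j : ℕ) := by
      rw [hR, Finset.mul_sum]
      refine Finset.sum_congr rfl fun j _ => ?_
      simp only [hA]
      ring
    rw [e1, iterate_derivative_sum, Finset.mul_sum]
    refine Finset.sum_congr rfl fun j _ => ?_
    rw [iter_deriv_mul_const Y hYd, iterate_map_add, iter_deriv f l _ k hk.le,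
      iter_deriv f (l + c) _ k (by omega)]
    have e2 : l + c - k = (l - k) + c := by omega
    rw [e2]
    ring
  have := lt_rootMultiplicity_of_isRoot_iterate_derivative_of_mem_nonZeroDivisors'
    (p := R) (t := x) (n := l - 1) hR0 (fun k hk => by
      have hk' : k < l := by omega
      rw [IsRoot, hder k hk', eval_mul, eval_pow]
      rcases hS x hx with h | h
      · rw [h, zero_pow (by omega), zero_mul]
      · have h1 := congrArg (eval x) (hσ0 k hk')
        rw [hσ, eval_zero] at h1
        rw [mul_eq_zero]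
        right
        rw [← h1, eval_finsetSum, eval_finsetSum]
        refine Finset.sum_congr rfl fun j _ => ?_
        simp only [eval_mul, eval_add, eval_pow, eval_smul, eval_sub, eval_X, eval_C, hY, h,
          ZMod.pow_card, smul_eq_mul])
    (fun k hk hk0 => by
      rw [mem_nonZeroDivisors_iff_ne_zero, Ne, ZMod.natCast_eq_zero_iff]
      intro hd
      have := Nat.le_of_dvd (by omega) hd
      omega)
  omega

lemma sqrt_bound (hp2 : p ≠ 2) (f : (ZMod p)[X]) (hns : NS f) (θ : ZMod p)
    (x0 : ZMod p) (hx0 : f.eval x0 ≠ 0)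
    (S : Finset (ZMod p)) (hS : ∀ x ∈ S, f.eval x = 0 ∨ (f.eval x) ^ (p / 2) = θ) :
    (S.card : ℝ) ≤ p / 2 + 10 * f.natDegree * Real.sqrt p := by
  set m := f.natDegree with hm
  have hm1 : 1 ≤ m := by
    by_contra h
    have h0 : f.natDegree = 0 := by omega
    have h1 := eq_C_of_natDegree_eq_zero h0
    have := hns (f.coeff 0) 1 1 (by rw [one_pow, one_mul, mul_one]; exact h1)
    exact one_ne_zero this
  have hppos : 0 < p := hp.out.pos
  have hSp : S.card ≤ p := by
    have := S.card_le_univ
    rwa [ZMod.card] at this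
  have hsq : Real.sqrt p * Real.sqrt p = p := Real.mul_self_sqrt (Nat.cast_nonneg _)
  have hs0 : 0 < Real.sqrt p := Real.sqrt_pos.mpr (by exact_mod_cast hppos)
  have hm1' : (1 : ℝ) ≤ m := by exact_mod_cast hm1
  by_cases hbig : Real.sqrt p ≤ 20 * m
  · have : (S.card : ℝ) ≤ p := by exact_mod_cast hSp
    nlinarith
  push Not at hbig
  set l := Nat.sqrt p with hl
  have hl1 : l * l ≤ p := Nat.sqrt_le p
  have hl2 : p < (l + 1) * (l + 1) := Nat.lt_succ_sqrt p
  have hl1' : (l : ℝ) * l ≤ p := by exact_mod_cast hl1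
  have hl2' : (p : ℝ) < (l + 1) * (l + 1) := by exact_mod_cast hl2
  have hls : Real.sqrt p < l + 1 := by
    by_contra h
    push Not at h
    nlinarith [Nat.cast_nonneg (α := ℝ) l]
  have hml : 20 * m ≤ l := by
    have : (20 * m : ℝ) < l + 1 := hbig.trans hls
    have : 20 * m < l + 1 := by exact_mod_cast this
    omega
  have hlp : l ≤ p := Nat.sqrt_le_self p
  set B := (p + 1 - m) / 2 with hB
  set J := l / 2 + 2 * m + 3 with hJ
  have h20 : 20 * l ≤ p := by nlinarith
  have hB1 : 2 * B + m ≤ p + 1 := by omega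
  have hB2 : p ≤ 2 * B + m := by omega
  have hJ1 : l + 4 * m + 5 ≤ 2 * J := by omega
  have hJ2 : 2 * J ≤ l + 4 * m + 6 := by omega
  have hcount : l * (B + l * m + J) < J * (2 * B) := by
    have e1 : l * (l * m) ≤ p * m := by
      rw [← mul_assoc]; exact Nat.mul_le_mul_right _ hl1
    have e2 : (l + 4 * m + 5) * B ≤ J * (2 * B) := by nlinarith
    have e3 : l * J ≤ p := by
      have : J ≤ l := by omega
      nlinarith
    have e4 : 3 * p ≤ 8 * B := by omega
    have e5 : 3 * p * m ≤ 8 * B * m := Nat.mul_le_mul_right _ e4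
    nlinarith
  have h := stepanov_count hp2 f hns x0 hx0 θ l J B hlp hB1 hcount S hS
  rw [← hm] at h
  have h2 : 2 * (l * S.card) ≤ l * p + 2 * (l * m) + (p + 1) + p * m + (4 * m + 4) * p := by
    have e1 : 2 * ((p / 2) * m) ≤ p * m := by
      rw [← mul_assoc]; exact Nat.mul_le_mul_right _ (by omega)
    have e2 : 2 * ((J - 1) * p) ≤ (l + 4 * m + 4) * p := by
      rw [← mul_assoc]; exact Nat.mul_le_mul_right _ (by omega)
    nlinarith
  have h3 : 2 * ((l : ℝ) * S.card) ≤ l * p + 2 * (l * m) + (p + 1) + p * m + (4 * m + 4) * p := by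
    exact_mod_cast h2
  have hl20 : (20 : ℝ) ≤ l := by
    have : 20 ≤ l := by omega
    exact_mod_cast this
  have hlle : (l : ℝ) ≤ Real.sqrt p := by
    by_contra h
    push Not at h
    nlinarith
  have hp1 : (1 : ℝ) ≤ p := by exact_mod_cast hppos
  -- p ≤ (21/20) l √p
  have hpl : (p : ℝ) ≤ 21 / 20 * l * Real.sqrt p := by nlinarith
  have hlpos : (0 : ℝ) < l := by linarith
  have hs1 : (1 : ℝ) ≤ Real.sqrt p := by linarith
  have key : 2 * ((l : ℝ) * S.card) ≤ 2 * (l * (p / 2 + 10 * m * Real.sqrt p)) := by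
    have e1 : (p : ℝ) + 1 + p * m + (4 * m + 4) * p ≤ 11 * (m * p) := by nlinarith
    have e2 : (m : ℝ) * p ≤ m * (21 / 20 * l * Real.sqrt p) :=
      mul_le_mul_of_nonneg_left hpl (by linarith)
    have e3 : (l : ℝ) * m ≤ l * m * Real.sqrt p := by
      have : (0 : ℝ) ≤ l * m := by positivity
      nlinarith
    have e4 : (0 : ℝ) ≤ l * m * Real.sqrt p := by positivity
    nlinarith
  have := le_of_mul_le_mul_left (le_of_mul_le_mul_left key (by norm_num : (0 : ℝ) < 2)) hlpos
  exact this

/-- Weil-type bound for the quadratic character sum of a non-square polynomial. -/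
theorem abs_sum_quadraticChar_le (hp2 : p ≠ 2) (f : (ZMod p)[X]) (hns : NS f) :
    |∑ x : ZMod p, ((quadraticChar (ZMod p) (f.eval x) : ℤ) : ℝ)|
      ≤ 20 * f.natDegree * Real.sqrt p := by
  classical
  by_cases hall : ∀ x, f.eval x = 0
  · simp only [hall, MulChar.map_zero, Int.cast_zero, Finset.sum_const_zero, abs_zero]
    positivity
  push Not at hall
  obtain ⟨x0, hx0⟩ := hall
  have hchar : ringChar (ZMod p) ≠ 2 := by rw [ZMod.ringChar_zmod_n]; exact hp2
  have hpow : ∀ y : ZMod p, ((quadraticChar (ZMod p) y : ℤ) : ZMod p) = y ^ (p / 2) := by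
    intro y
    have := quadraticChar_eq_pow_of_char_ne_two' hchar y
    rwa [ZMod.card] at this
  have main : ∀ ε : ℤ, (ε = 1 ∨ ε = -1) →
      ∑ x : ZMod p, ((ε * quadraticChar (ZMod p) (f.eval x) : ℤ) : ℝ)
        ≤ 20 * f.natDegree * Real.sqrt p := by
    intro ε hε
    set S : Finset (ZMod p) := Finset.univ.filter
      fun x => f.eval x = 0 ∨ (f.eval x) ^ (p / 2) = (ε : ZMod p) with hSdef
    have h1 := sqrt_bound hp2 f hns (ε : ZMod p) x0 hx0 S (fun x hx => (Finset.mem_filter.mp hx).2)
    have h2 : ∑ x : ZMod p, ((ε * quadraticChar (ZMod p) (f.eval x) : ℤ) : ℝ)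
        ≤ ∑ x : ZMod p, (2 * (if x ∈ S then (1 : ℝ) else 0) - 1) := by
      refine Finset.sum_le_sum fun x _ => ?_
      have hq := quadraticChar_isQuadratic (ZMod p) (f.eval x)
      by_cases hx : x ∈ S
      · rw [if_pos hx]
        rcases hε with rfl | rfl <;> rcases hq with h | h | h <;> rw [h] <;> norm_num
      · rw [if_neg hx]
        have hx' : ¬ (f.eval x = 0 ∨ (f.eval x) ^ (p / 2) = (ε : ZMod p)) :=
          fun h => hx (Finset.mem_filter.mpr ⟨Finset.mem_univ _, h⟩)
        push Not at hx'
        have hne : quadraticChar (ZMod p) (f.eval x) ≠ ε := by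
          intro h
          apply hx'.2
          rw [← hpow, h]
        have hne0 : quadraticChar (ZMod p) (f.eval x) ≠ 0 := by
          rw [Ne, quadraticChar_eq_zero_iff]; exact hx'.1
        rcases hε with rfl | rfl <;> rcases hq with h | h | h
        · exact absurd h hne0
        · exact absurd h hne
        · rw [h]; norm_num
        · exact absurd h hne0
        · rw [h]; norm_num
        · exact absurd h hne
    rw [Finset.sum_sub_distrib, ← Finset.mul_sum, Finset.sum_ite_mem] at h2
    simp only [Finset.univ_inter, Finset.sum_const, Finset.card_univ, ZMod.card, nsmul_eq_mul,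
      mul_one] at h2
    linarith
  rw [abs_le]
  constructor
  · have := main (-1) (Or.inr rfl)
    simp only [Int.cast_neg, neg_mul, one_mul,
      Finset.sum_neg_distrib] at this
    linarith
  · have := main 1 (Or.inl rfl)
    simpa using this

end Main

end Pool.Agent.Lib.MP_4a1067_nt
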