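import Mathlib
import Pool.Agent.Lib.MP_4a1067_nt.Stepanov

/-! The critical orbit polynomials of `x ^ 2 + a` and a non-square criterion for products of
`c_j + c_1` and `c_j + c_2`. -/

namespace Pool.Agent.Lib.MP_4a1067_nt

open Polynomial

/-- the critical orbit `c_n (a) = f_a^n (0)` as a polynomial in `a` -/
noncomputable def cp (R : Type*) [CommRing R] : ℕ → R[X]
  | 0 => 0
  | n + 1 => cp R n ^ 2 + X

/-- the critical orbit of `x ^ 2 + a` -/
def orb {R : Type*} [CommRing R] (a : R) : ℕ → R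
  | 0 => 0
  | n + 1 => orb a n ^ 2 + a

lemma cp_succ (R : Type*) [CommRing R] (n : ℕ) : cp R (n + 1) = cp R n ^ 2 + X := rfl

lemma orb_succ {R : Type*} [CommRing R] (a : R) (n : ℕ) : orb a (n + 1) = orb a n ^ 2 + a := rfl

lemma orb_zero {R : Type*} [CommRing R] (a : R) : orb a 0 = 0 := rfl

lemma orb_one {R : Type*} [CommRing R] (a : R) : orb a 1 = a := by simp [orb]

lemma cp_one (R : Type*) [CommRing R] : cp R 1 = X := by simp [cp]

lemma cp_two (R : Type*) [CommRing R] : cp R 2 = X ^ 2 + X := by simp [cp]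

lemma eval_cp {R : Type*} [CommRing R] (a : R) (n : ℕ) : (cp R n).eval a = orb a n := by
  induction n with
  | zero => simp [cp, orb]
  | succ n ih => simp [cp_succ, orb_succ, ih]

lemma map_cp {R S : Type*} [CommRing R] [CommRing S] (φ : R →+* S) (n : ℕ) :
    (cp R n).map φ = cp S n := by
  induction n with
  | zero => simp [cp]
  | succ n ih => simp [cp_succ, ih]

lemma monic_cp (K : Type*) [Field K] (n : ℕ) :
    (cp K (n + 1)).Monic ∧ (cp K (n + 1)).natDegree = 2 ^ n := by
  induction n with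
  | zero => rw [zero_add, cp_one]; exact ⟨monic_X, by simp⟩
  | succ n ih =>
    have h1 : (cp K (n + 1) ^ 2).natDegree = 2 ^ (n + 1) := by
      rw [ih.1.natDegree_pow, ih.2, pow_succ, mul_comm]
    have h2 : (X : K[X]).natDegree < (cp K (n + 1) ^ 2).natDegree := by
      rw [h1, natDegree_X]
      exact Nat.one_lt_two_pow (by omega)
    rw [cp_succ]
    exact ⟨(ih.1.pow 2).add_of_left (degree_lt_degree h2),
      by rw [natDegree_add_eq_left_of_natDegree_lt h2, h1]⟩

lemma orb_shift {R : Type*} [CommRing R] (a : R) {i j : ℕ} (h : orb a i = orb a j) (t : ℕ) :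
    orb a (i + t) = orb a (j + t) := by
  induction t with
  | zero => exact h
  | succ t ih => rw [← add_assoc, ← add_assoc, orb_succ, orb_succ, ih]

lemma orb_neg {R : Type*} [CommRing R] (a : R) {i j : ℕ} (h : orb a i + orb a j = 0) :
    orb a (i + 1) = orb a (j + 1) := by
  rw [orb_succ, orb_succ, eq_neg_of_add_eq_zero_left h]; ring

lemma orb_PQ {R : Type*} [CommRing R] (a : R) {i j : ℕ} (hi : 2 ≤ i) (hj : 2 ≤ j)
    (h1 : orb a j + orb a 1 = 0) (h2 : orb a i + orb a 2 = 0) : orb a 2 + orb a 2 = 0 := by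
  have e1 := orb_shift a (orb_neg a h1) (i - 2)
  have e2 := orb_shift a (orb_neg a h2) (j - 2)
  have e3 := orb_neg a h1
  rw [show j + 1 + (i - 2) = i + j - 1 by omega, show 1 + 1 + (i - 2) = i by omega] at e1
  rw [show i + 1 + (j - 2) = i + j - 1 by omega, show 2 + 1 + (j - 2) = j + 1 by omega] at e2
  rw [← h2, ← e1, e2, e3]

lemma orb_same {R : Type*} [CommRing R] (a : R) {i j k : ℕ} (hij : i < j)
    (h1 : orb a j + orb a k = 0) (h2 : orb a i + orb a k = 0) :
    orb a (j - i + k) + orb a k = 0 := by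
  have e2 := orb_shift a (orb_neg a h2) (j - i - 1)
  rw [show i + 1 + (j - i - 1) = j by omega, show k + 1 + (j - i - 1) = j - i + k by omega] at e2
  rw [← e2, h1]

section Trick
variable {K : Type*} [Field K]

lemma deriv_trick (Z q d h : K[X]) (hZ : Z.Monic) (hq : q.natDegree ≤ 2)
    (hd : d.natDegree + 4 < Z.natDegree) (e0 : derivative q * X - 2 * q ≠ 0)
    (H : (Z ^ 2 + X) ^ 2 + q = d * h ^ 2) :
    (derivative q * (Z ^ 2 + X) - 2 * q * derivative (Z ^ 2 + X)) ^ 2 * (X ^ 2 + q)
      = (derivative q * X - 2 * q) ^ 2 * ((Z ^ 2 + X) ^ 2 + q) := by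
  set W := Z ^ 2 + X with hW
  set n := Z.natDegree with hn
  have hW1 : (X : K[X]).natDegree < (Z ^ 2).natDegree := by
    rw [hZ.natDegree_pow, natDegree_X]; omega
  have hWm : W.Monic := (hZ.pow 2).add_of_left (degree_lt_degree hW1)
  have hWd : W.natDegree = 2 * n := by
    rw [hW, natDegree_add_eq_left_of_natDegree_lt hW1, hZ.natDegree_pow]
  have hW2 : q.natDegree < (W ^ 2).natDegree := by
    rw [hWm.natDegree_pow, hWd]; omega
  have hP : (W ^ 2 + q).Monic := (hWm.pow 2).add_of_left (degree_lt_degree hW2)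
  have hPd : (W ^ 2 + q).natDegree = 2 * (2 * n) := by
    rw [natDegree_add_eq_left_of_natDegree_lt hW2, hWm.natDegree_pow, hWd]
  have hd0 : d ≠ 0 := by
    intro h0; apply hP.ne_zero; rw [H, h0, zero_mul]
  have hh0 : h ≠ 0 := by
    intro h0; apply hP.ne_zero; rw [H, h0]; simp
  have hdh : d.natDegree + 2 * h.natDegree = 2 * (2 * n) := by
    rw [← hPd, H, natDegree_mul hd0 (pow_ne_zero _ hh0), natDegree_pow]
  set E := derivative q * W - 2 * q * derivative W with hE
  set E0 := derivative q * X - 2 * q with hE0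
  have H' := congrArg derivative H
  simp only [derivative_add, derivative_mul, derivative_sq, map_ofNat] at H'
  set e := W * (derivative d * h + 2 * d * derivative h) - 2 * derivative W * d * h with he
  have hEe : E = h * e := by
    rw [hE, he]
    linear_combination W * H' - 2 * derivative W * H
  have h1 : E ^ 2 * d = e ^ 2 * (W ^ 2 + q) := by rw [hEe, H]; ring
  have hWd' : derivative W = 2 * Z * derivative Z + 1 := by
    rw [hW]
    simp only [derivative_add, derivative_sq, derivative_X, map_ofNat]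
  have h2 : Z ∣ E0 ^ 2 * d - e ^ 2 * (X ^ 2 + q) := by
    have a1 : E = E0 + Z * (derivative q * Z - 4 * q * derivative Z) := by
      rw [hE, hE0, hWd', hW]; ring
    refine ⟨-((derivative q * Z - 4 * q * derivative Z)
        * (2 * E0 + Z * (derivative q * Z - 4 * q * derivative Z)) * d)
        + e ^ 2 * (Z * (Z ^ 2 + 2 * X)), ?_⟩
    rw [a1] at h1
    rw [hW] at h1
    linear_combination h1
  have hq' : (derivative q).natDegree ≤ 1 := (natDegree_derivative_le q).trans (by omega)
  have h2q : (2 * q).natDegree ≤ 2 := by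
    refine natDegree_mul_le.trans ?_
    have : (2 : K[X]).natDegree = 0 := natDegree_ofNat 2
    omega
  have hEd : E.natDegree ≤ 2 * n + 1 := by
    refine (natDegree_sub_le _ _).trans (max_le ?_ ?_)
    · refine natDegree_mul_le.trans ?_
      omega
    · refine natDegree_mul_le.trans ?_
      have := natDegree_derivative_le W
      omega
  have hE0d : E0.natDegree ≤ 2 := by
    refine (natDegree_sub_le _ _).trans (max_le ?_ h2q)
    refine natDegree_mul_le.trans ?_
    rw [natDegree_X]; omega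
  have hed : 2 * e.natDegree ≤ 2 + d.natDegree := by
    by_cases he0 : e = 0
    · rw [he0, natDegree_zero]; omega
    · rw [hEe, natDegree_mul hh0 he0] at hEd
      omega
  have hXq : (X ^ 2 + q : K[X]).natDegree ≤ 2 :=
    (natDegree_add_le _ _).trans (max_le (by rw [natDegree_X_pow]) hq)
  have h3 : E0 ^ 2 * d - e ^ 2 * (X ^ 2 + q) = 0 := by
    refine eq_zero_of_dvd_of_natDegree_lt h2 ?_
    refine lt_of_le_of_lt (natDegree_sub_le _ _) (max_lt ?_ ?_)
    · refine lt_of_le_of_lt natDegree_mul_le ?_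
      have := natDegree_pow_le (p := E0) (n := 2)
      omega
    · refine lt_of_le_of_lt natDegree_mul_le ?_
      have := natDegree_pow_le (p := e) (n := 2)
      omega
  have he0 : e ≠ 0 := by
    intro h0
    rw [h0] at h3
    simp [e0, hd0] at h3
  apply mul_left_cancel₀ (pow_ne_zero 2 he0)
  linear_combination E0 ^ 2 * h1 - E ^ 2 * h3

lemma coeff_deriv_top (W : K[X]) (hW : W.Monic) (m : ℕ) (hm : W.natDegree = m + 1) :
    (derivative W).coeff m = (m + 1 : ℕ) := by
  rw [coeff_derivative, ← hm, hW.coeff_natDegree, hm]; simp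

lemma not_sq_P (h2 : (2 : K) ≠ 0) (Z d h : K[X]) (hZ : Z.Monic)
    (hd : d.natDegree + 4 < Z.natDegree) (hm0 : ((2 * Z.natDegree : ℕ) : K) ≠ 0)
    (hm1 : ((2 * Z.natDegree : ℕ) : K) ≠ 1) : (Z ^ 2 + X) ^ 2 + 2 * X ≠ d * h ^ 2 := by
  intro H
  have hder : derivative (2 * X : K[X]) = 2 := by simp
  have h2' : (2 : K[X]) ≠ 0 := by
    intro h0
    have := congrArg (fun f : K[X] => f.coeff 0) h0
    simp [h2] at this
  have key := deriv_trick Z (2 * X) d h hZ (by compute_degree!) hd (by
    rw [hder]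
    have : (2 * X - 2 * (2 * X) : K[X]) = -(2 * X) := by ring
    rw [this]
    exact neg_ne_zero.mpr (mul_ne_zero h2' X_ne_zero)) H
  rw [hder] at key
  set W := Z ^ 2 + X with hW
  have hW1 : (X : K[X]).natDegree < (Z ^ 2).natDegree := by
    rw [hZ.natDegree_pow, natDegree_X]; omega
  have hWm : W.Monic := (hZ.pow 2).add_of_left (degree_lt_degree hW1)
  have hWd : W.natDegree = 2 * Z.natDegree := by
    rw [hW, natDegree_add_eq_left_of_natDegree_lt hW1, hZ.natDegree_pow]
  obtain ⟨m, hm⟩ : ∃ m, 2 * Z.natDegree = m + 1 := ⟨2 * Z.natDegree - 1, by omega⟩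
  rw [hm] at hWd hm0 hm1
  have key2 : (W - 2 * (X * derivative W)) ^ 2 * (X + 2) = X * (W ^ 2 + 2 * X) := by
    apply mul_left_cancel₀ (mul_ne_zero (mul_ne_zero h2' h2') X_ne_zero)
    linear_combination key
  set E := W - 2 * (X * derivative W) with hE
  have hEd : E.natDegree ≤ m + 1 := by
    refine (natDegree_sub_le _ _).trans (max_le hWd.le ?_)
    refine natDegree_mul_le.trans ?_
    have : (2 : K[X]).natDegree = 0 := natDegree_ofNat 2
    have h3 := natDegree_mul_le (p := (X : K[X])) (q := derivative W)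
    have := natDegree_derivative_le W
    rw [natDegree_X] at h3
    omega
  have hWc : W.coeff (m + 1) = 1 := by rw [← hWd]; exact hWm.coeff_natDegree
  have hEc : E.coeff (m + 1) = 1 - 2 * (m + 1 : ℕ) := by
    rw [hE, coeff_sub, hWc, coeff_ofNat_mul, coeff_X_mul, coeff_deriv_top W hWm m hWd]
  have c1 : (E ^ 2 * (X + 2)).coeff (2 * (m + 1) + 1) = (1 - 2 * ((m + 1 : ℕ) : K)) ^ 2 := by
    rw [coeff_mul_add_eq_of_natDegree_le (natDegree_pow_le_of_le 2 hEd)
      (show (X + 2 : K[X]).natDegree ≤ 1 by compute_degree!),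
      coeff_pow_of_natDegree_le hEd, hEc]
    simp [coeff_ofNat_succ]
  have c2 : (X * (W ^ 2 + 2 * X)).coeff (2 * (m + 1) + 1) = 1 := by
    rw [coeff_X_mul, coeff_add, coeff_pow_of_natDegree_le hWd.le, hWc, coeff_ofNat_mul,
      coeff_X_of_ne_one (by omega)]
    simp
  rw [key2, c2] at c1
  have : (2 : K) * 2 * ((m + 1 : ℕ) * ((m + 1 : ℕ) - 1)) = 0 := by linear_combination -c1
  simp only [mul_eq_zero, h2, or_self, false_or, sub_eq_zero] at this
  rcases this with h | h
  · exact hm0 h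
  · exact hm1 h

lemma not_sq_Q (h2 : (2 : K) ≠ 0) (Z d h : K[X]) (hZ : Z.Monic)
    (hd : d.natDegree + 4 < Z.natDegree)
    (hm1 : ((2 * Z.natDegree : ℕ) : K) ≠ 1) : (Z ^ 2 + X) ^ 2 + (X ^ 2 + 2 * X) ≠ d * h ^ 2 := by
  intro H
  have hder : derivative (X ^ 2 + 2 * X : K[X]) = 2 * X + 2 := by
    simp [derivative_sq, map_ofNat]
  have h2' : (2 : K[X]) ≠ 0 := by
    intro h0
    have := congrArg (fun f : K[X] => f.coeff 0) h0
    simp [h2] at this
  have key := deriv_trick Z (X ^ 2 + 2 * X) d h hZ (by compute_degree!) hd (by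
    rw [hder]
    have : ((2 * X + 2) * X - 2 * (X ^ 2 + 2 * X) : K[X]) = -(2 * X) := by ring
    rw [this]
    exact neg_ne_zero.mpr (mul_ne_zero h2' X_ne_zero)) H
  rw [hder] at key
  set W := Z ^ 2 + X with hW
  have hW1 : (X : K[X]).natDegree < (Z ^ 2).natDegree := by
    rw [hZ.natDegree_pow, natDegree_X]; omega
  have hWm : W.Monic := (hZ.pow 2).add_of_left (degree_lt_degree hW1)
  have hWd : W.natDegree = 2 * Z.natDegree := by
    rw [hW, natDegree_add_eq_left_of_natDegree_lt hW1, hZ.natDegree_pow]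
  obtain ⟨m, hm⟩ : ∃ m, 2 * Z.natDegree = m + 1 := ⟨2 * Z.natDegree - 1, by omega⟩
  rw [hm] at hWd hm1
  have key2 : (X * W + W - (X * (X * derivative W) + 2 * (X * derivative W))) ^ 2 * (2 * X + 2)
      = X * (W ^ 2 + (X ^ 2 + 2 * X)) := by
    apply mul_left_cancel₀ (mul_ne_zero (mul_ne_zero h2' h2') X_ne_zero)
    linear_combination key
  set E := X * W + W - (X * (X * derivative W) + 2 * (X * derivative W)) with hE
  have hWd' : (derivative W).natDegree ≤ m := by
    have := natDegree_derivative_le W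
    omega
  have hXW' : (X * derivative W).natDegree ≤ m + 1 := by
    have h3 := natDegree_mul_le (p := (X : K[X])) (q := derivative W)
    rw [natDegree_X] at h3
    omega
  have hEd : E.natDegree ≤ m + 2 := by
    have h3 := natDegree_mul_le (p := (X : K[X])) (q := W)
    have h4 := natDegree_mul_le (p := (X : K[X])) (q := X * derivative W)
    have h5 := natDegree_mul_le (p := (2 : K[X])) (q := X * derivative W)
    have : (2 : K[X]).natDegree = 0 := natDegree_ofNat 2
    rw [natDegree_X] at h3 h4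
    refine (natDegree_sub_le _ _).trans (max_le ?_ ?_)
    · exact (natDegree_add_le _ _).trans (max_le (by omega) (by omega))
    · exact (natDegree_add_le _ _).trans (max_le (by omega) (by omega))
  have hWc : W.coeff (m + 1) = 1 := by rw [← hWd]; exact hWm.coeff_natDegree
  have hEc : E.coeff (m + 2) = 1 - (m + 1 : ℕ) := by
    rw [hE, coeff_sub, coeff_add, coeff_eq_zero_of_natDegree_lt (p := W) (by omega), coeff_add,
      coeff_X_mul, hWc, coeff_X_mul, coeff_X_mul,
      coeff_deriv_top W hWm m hWd, coeff_ofNat_mul,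
      coeff_eq_zero_of_natDegree_lt (p := X * derivative W) (by omega)]
    ring
  have c1 : (E ^ 2 * (2 * X + 2)).coeff (2 * (m + 2) + 1) = (1 - ((m + 1 : ℕ) : K)) ^ 2 * 2 := by
    rw [coeff_mul_add_eq_of_natDegree_le (natDegree_pow_le_of_le 2 hEd)
      (show (2 * X + 2 : K[X]).natDegree ≤ 1 by compute_degree!),
      coeff_pow_of_natDegree_le hEd, hEc]
    simp [coeff_ofNat_succ]
  have c2 : (X * (W ^ 2 + (X ^ 2 + 2 * X))).coeff (2 * (m + 2) + 1) = 0 := by
    rw [coeff_X_mul]
    apply coeff_eq_zero_of_natDegree_lt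
    refine lt_of_le_of_lt (natDegree_add_le _ _) (max_lt ?_ ?_)
    · rw [hWm.natDegree_pow, hWd]; omega
    · have : (X ^ 2 + 2 * X : K[X]).natDegree ≤ 2 := by compute_degree!
      omega
  rw [key2, c2] at c1
  simp only [zero_eq_mul, h2, or_false, pow_eq_zero_iff two_ne_zero, sub_eq_zero] at c1
  exact hm1 c1.symm

lemma exists_small_mul_sq [IsAlgClosed K] [DecidableEq K] (f : K[X]) (hf : f.Monic)
    (Bad : Finset K) (h : ∀ a ∉ Bad, Even (f.rootMultiplicity a)) :
    ∃ d g : K[X], f = d * g ^ 2 ∧ d.natDegree ≤ Bad.card := by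
  have h1 := (IsAlgClosed.splits f).eq_prod_roots_of_monic hf
  rw [Finset.prod_multiset_map_count] at h1
  refine ⟨∏ a ∈ f.roots.toFinset, (X - C a) ^ (f.roots.count a % 2),
    ∏ a ∈ f.roots.toFinset, (X - C a) ^ (f.roots.count a / 2), ?_, ?_⟩
  · conv_lhs => rw [h1]
    rw [← Finset.prod_pow, ← Finset.prod_mul_distrib]
    refine Finset.prod_congr rfl fun a _ => ?_
    rw [← pow_mul, ← pow_add]
    congr 1
    omega
  · refine (natDegree_prod_le _ _).trans ?_
    calc ∑ a ∈ f.roots.toFinset, ((X - C a) ^ (f.roots.count a % 2)).natDegree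
        ≤ ∑ a ∈ f.roots.toFinset, (if a ∈ Bad then 1 else 0) := by
          refine Finset.sum_le_sum fun a _ => ?_
          rw [natDegree_pow, natDegree_X_sub_C, mul_one, count_roots]
          split_ifs with ha
          · omega
          · have := Nat.even_iff.mp (h a ha)
            omega
      _ ≤ Bad.card := by
          rw [Finset.sum_ite_mem, Finset.sum_const, smul_eq_mul, mul_one]
          exact Finset.card_le_card Finset.inter_subset_right

/-- `a` is not a root of `c_i + c_1`, `c_i + c_2` for small `i` -/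
def Gen (j : ℕ) (a : K) : Prop :=
  ∀ i, 2 ≤ i → i ≤ j / 2 + 1 → orb a i + orb a 1 ≠ 0 ∧ orb a i + orb a 2 ≠ 0

lemma natDegree_cp_le (n : ℕ) : (cp K n).natDegree ≤ 2 ^ (n - 1) := by
  cases n with
  | zero => simp [cp]
  | succ n => rw [(monic_cp K n).2]; simp

lemma natDegree_add_cp_le (i k : ℕ) (hk : k ≤ i) : (cp K i + cp K k).natDegree ≤ 2 ^ (i - 1) :=
  (natDegree_add_le _ _).trans (max_le (natDegree_cp_le i)
    ((natDegree_cp_le k).trans (Nat.pow_le_pow_right (by norm_num) (by omega))))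

lemma monic_add_cp (i k : ℕ) (hk : k < i) (hk1 : 1 ≤ k) : (cp K i + cp K k).Monic := by
  obtain ⟨i, rfl⟩ : ∃ i', i = i' + 1 := ⟨i - 1, by omega⟩
  refine (monic_cp K i).1.add_of_left (degree_lt_degree ?_)
  rw [(monic_cp K i).2]
  exact lt_of_le_of_lt (natDegree_cp_le k) (Nat.pow_lt_pow_right (by norm_num) (by omega))

lemma exists_bad (h2 : (2 : K) ≠ 0) (j : ℕ) :
    ∃ Bad : Finset K, Bad.card ≤ 2 ^ (j / 2 + 2) ∧ ∀ a ∉ Bad, Gen j a := by
  classical
  set B : K[X] := ∏ i ∈ Finset.Icc 2 (j / 2 + 1), ((cp K i + cp K 1) * (cp K i + cp K 2)) with hB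
  have hB0 : B ≠ 0 := by
    rw [hB, Finset.prod_ne_zero_iff]
    intro i hi
    have hi2 := (Finset.mem_Icc.mp hi).1
    refine mul_ne_zero (monic_add_cp i 1 (by omega) le_rfl).ne_zero ?_
    rcases hi2.eq_or_lt with rfl | h
    · rw [← two_mul]
      refine mul_ne_zero ?_ (monic_cp K 1).1.ne_zero
      intro h0
      have := congrArg (fun f : K[X] => f.coeff 0) h0
      simp [h2] at this
    · exact (monic_add_cp i 2 h (by omega)).ne_zero
  refine ⟨B.roots.toFinset, ?_, ?_⟩
  · refine (Multiset.toFinset_card_le _).trans ((card_roots' B).trans ?_)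
    refine (natDegree_prod_le _ _).trans ?_
    calc ∑ i ∈ Finset.Icc 2 (j / 2 + 1), ((cp K i + cp K 1) * (cp K i + cp K 2)).natDegree
        ≤ ∑ i ∈ Finset.Icc 2 (j / 2 + 1), 2 ^ i := by
          refine Finset.sum_le_sum fun i hi => ?_
          have hi2 := (Finset.mem_Icc.mp hi).1
          refine natDegree_mul_le.trans ?_
          have h3 := natDegree_add_cp_le (K := K) i 1 (by omega)
          have h4 := natDegree_add_cp_le (K := K) i 2 (by omega)
          have h5 : 2 ^ i = 2 ^ (i - 1) * 2 := by rw [← pow_succ]; congr 1; omega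
          omega
      _ ≤ ∑ i ∈ Finset.range (j / 2 + 2), 2 ^ i := by
          refine Finset.sum_le_sum_of_subset fun i hi => ?_
          have := (Finset.mem_Icc.mp hi).2
          exact Finset.mem_range.mpr (by omega)
      _ ≤ 2 ^ (j / 2 + 2) := by
          exact (Nat.geomSum_lt le_rfl (fun _ h => Finset.mem_range.mp h)).le
  · intro a ha i hi1 hi2
    rw [Multiset.mem_toFinset, mem_roots hB0, IsRoot, hB, eval_prod, Finset.prod_eq_zero_iff] at ha
    push Not at ha
    have := ha i (Finset.mem_Icc.mpr ⟨hi1, hi2⟩)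
    simp only [eval_mul, eval_add, eval_cp] at this
    exact mul_ne_zero_iff.mp this

lemma two_pow_ineq (j : ℕ) (hj : 12 ≤ j) : 2 ^ (j / 2 + 2) + 4 < 2 ^ (j - 3) := by
  have h1 : 2 ^ (j / 2 + 2) ≤ 2 ^ (j - 4) := Nat.pow_le_pow_right (by norm_num) (by omega)
  have h2 : 2 ^ 8 ≤ 2 ^ (j - 4) := Nat.pow_le_pow_right (by norm_num) (by omega)
  have h3 : 2 ^ (j - 3) = 2 ^ (j - 4) * 2 := by rw [← pow_succ]; congr 1; omega
  omega

lemma top_contra [IsAlgClosed K] (h2 : (2 : K) ≠ 0) (j : ℕ) (hj : 12 ≤ j)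
    (hm1 : ((2 ^ (j - 2) : ℕ) : K) ≠ 1) (k : ℕ) (hk : k = 1 ∨ k = 2) (Rest : K[X])
    (hRest0 : Rest ≠ 0)
    (hRest : ∀ a, Gen j a → orb a j + orb a k = 0 → Rest.eval a ≠ 0)
    (heven : ∀ a, Even (((cp K j + cp K k) * Rest).rootMultiplicity a)) : False := by
  classical
  obtain ⟨Bad, hBad, hGen⟩ := exists_bad h2 j
  have hmon : (cp K j + cp K k).Monic := monic_add_cp j k (by omega) (by omega)
  obtain ⟨d, g, hdg, hd⟩ := exists_small_mul_sq (cp K j + cp K k) hmon Bad (by
    intro a ha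
    by_cases h0 : orb a j + orb a k = 0
    · have h1 := heven a
      rw [rootMultiplicity_mul (mul_ne_zero hmon.ne_zero hRest0),
        rootMultiplicity_eq_zero (p := Rest) (hRest a (hGen a ha) h0), add_zero] at h1
      exact h1
    · rw [rootMultiplicity_eq_zero (by simpa [IsRoot, eval_cp] using h0)]
      exact Even.zero)
  obtain ⟨t, rfl⟩ : ∃ t, j = t + 1 + 1 + 1 := ⟨j - 3, by omega⟩
  have hZ := monic_cp K t
  have hineq := two_pow_ineq _ hj
  rw [show t + 1 + 1 + 1 - 3 = t by omega] at hineq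
  have hm : 2 * (cp K (t + 1)).natDegree = 2 ^ (t + 1 + 1 + 1 - 2) := by
    rw [hZ.2, show t + 1 + 1 + 1 - 2 = t + 1 by omega, pow_succ, mul_comm]
  rcases hk with rfl | rfl
  · refine not_sq_P h2 (cp K (t + 1)) d g hZ.1 (by rw [hZ.2]; omega) ?_ (by rw [hm]; exact hm1) ?_
    · rw [hm]; push_cast; exact pow_ne_zero _ h2
    · rw [← hdg, cp_succ K (t + 1 + 1), cp_succ K (t + 1), cp_one]; ring
  · refine not_sq_Q h2 (cp K (t + 1)) d g hZ.1 (by rw [hZ.2]; omega) (by rw [hm]; exact hm1) ?_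
    rw [← hdg, cp_succ K (t + 1 + 1), cp_succ K (t + 1), cp_two]; ring

lemma gen_lower {j i k : ℕ} {a : K} (hG : Gen j a) (hj : 12 ≤ j) (hk : k = 1 ∨ k = 2)
    (h0 : orb a j + orb a k = 0) (hi : 2 ≤ i) (hij : i < j) :
    orb a i + orb a 1 ≠ 0 ∧ orb a i + orb a 2 ≠ 0 := by
  have h22 := (hG 2 le_rfl (by omega)).2
  by_cases hs : i ≤ j / 2 + 1
  · exact hG i hi hs
  rcases hk with rfl | rfl
  · refine ⟨fun h => ?_, fun h => h22 (orb_PQ a hi (by omega) h0 h)⟩
    exact (hG (j - i + 1) (by omega) (by omega)).1 (orb_same a hij h0 h)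
  · refine ⟨fun h => h22 (orb_PQ a (by omega) hi h h0), fun h => ?_⟩
    exact (hG (j - i + 2) (by omega) (by omega)).2 (orb_same a hij h0 h)

end Trick

/-- the four polynomials attached to level `j` -/
noncomputable def G (R : Type*) [CommRing R] (j : ℕ) : Fin 4 → R[X] :=
  ![1, -(cp R j + cp R 1), cp R j + cp R 2, -(cp R j + cp R 1) * (cp R j + cp R 2)]

lemma map_G {R S : Type*} [CommRing R] [CommRing S] (φ : R →+* S) (j : ℕ) (t : Fin 4) :
    (G R j t).map φ = G S j t := by
  fin_cases t <;> simp [G, map_cp]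

lemma G_ne_zero {K : Type*} [Field K] (j : ℕ) (hj : 3 ≤ j) (t : Fin 4) : G K j t ≠ 0 := by
  have h1 := (monic_add_cp (K := K) j 1 (by omega) le_rfl).ne_zero
  have h2 := (monic_add_cp (K := K) j 2 (by omega) (by omega)).ne_zero
  fin_cases t
  · simp [G]
  · exact neg_ne_zero.mpr h1
  · exact h2
  · exact mul_ne_zero (neg_ne_zero.mpr h1) h2

lemma eval_G_ne_zero {K : Type*} [Field K] (j : ℕ) (a : K) (h1 : orb a j + orb a 1 ≠ 0)
    (h2 : orb a j + orb a 2 ≠ 0) (t : Fin 4) : (G K j t).eval a ≠ 0 := by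
  have e1 : (-(cp K j + cp K 1)).eval a ≠ 0 := by
    rw [eval_neg, eval_add, eval_cp, eval_cp]; exact neg_ne_zero.mpr h1
  have e2 : (cp K j + cp K 2).eval a ≠ 0 := by
    rw [eval_add, eval_cp, eval_cp]; exact h2
  fin_cases t
  · simp [G]
  · exact e1
  · exact e2
  · show (-(cp K j + cp K 1) * (cp K j + cp K 2)).eval a ≠ 0
    rw [eval_mul]; exact mul_ne_zero e1 e2

lemma natDegree_G_le {K : Type*} [Field K] (j : ℕ) (hj : 2 ≤ j) (t : Fin 4) :
    (G K j t).natDegree ≤ 2 ^ j := by
  have h3 := natDegree_add_cp_le (K := K) j 1 (by omega)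
  have h4 := natDegree_add_cp_le (K := K) j 2 (by omega)
  have h5 : 2 ^ j = 2 ^ (j - 1) * 2 := by rw [← pow_succ]; congr 1; omega
  fin_cases t
  · simp [G]
  · show (-(cp K j + cp K 1)).natDegree ≤ _
    rw [natDegree_neg]; omega
  · show (cp K j + cp K 2).natDegree ≤ _
    omega
  · show (-(cp K j + cp K 1) * (cp K j + cp K 2)).natDegree ≤ _
    refine natDegree_mul_le.trans ?_
    rw [natDegree_neg]; omega

theorem ns_prod {p : ℕ} [hp : Fact p.Prime] (hp2 : p ≠ 2) (n : ℕ) (hn : 2 ^ (12 + n) ≤ p)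
    (s : Fin n → Fin 4) (hs : s ≠ fun _ => 0) :
    NS (∏ i : Fin n, G (ZMod p) (12 + i) (s i)) := by
  classical
  intro c r w H
  by_contra hr
  let K := AlgebraicClosure (ZMod p)
  let φ : ZMod p →+* K := algebraMap (ZMod p) K
  have hφ : Function.Injective φ := φ.injective
  have hchar : CharP K p := charP_of_injective_algebraMap hφ p
  have h2 : (2 : K) ≠ 0 := by
    intro h
    have : ((2 : ℕ) : K) = 0 := by exact_mod_cast h
    rw [CharP.cast_eq_zero_iff K p] at this
    exact hp2 ((Nat.prime_dvd_prime_iff_eq hp.out Nat.prime_two).mp this)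
  have H' := congrArg (Polynomial.map φ) H
  simp only [Polynomial.map_mul, Polynomial.map_pow, Polynomial.map_prod, map_G, map_C] at H'
  set F : K[X] := ∏ i : Fin n, G K (12 + i) (s i) with hF
  have hF0 : F ≠ 0 := Finset.prod_ne_zero_iff.mpr fun i _ => G_ne_zero _ (by omega) _
  have hr' : r.map φ ≠ 0 := (Polynomial.map_ne_zero_iff hφ).mpr hr
  have hL : r.map φ ^ 2 * F ≠ 0 := mul_ne_zero (pow_ne_zero _ hr') hF0
  have heven : ∀ a, Even (F.rootMultiplicity a) := by
    intro a
    have e := congrArg (rootMultiplicity a) H'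
    have hR : C (φ c) * w.map φ ^ 2 ≠ 0 := H' ▸ hL
    have hw : w.map φ ≠ 0 := by
      intro h; apply hR; rw [h]; simp
    rw [rootMultiplicity_mul hL, rootMultiplicity_mul hR, rootMultiplicity_C, sq, sq,
      rootMultiplicity_mul (mul_ne_zero hr' hr'), rootMultiplicity_mul (mul_ne_zero hw hw)] at e
    rw [Nat.even_iff]
    omega
  have hne : (Finset.univ.filter fun i => s i ≠ 0).Nonempty := by
    by_contra h
    apply hs
    funext i
    by_contra hi
    exact h ⟨i, Finset.mem_filter.mpr ⟨Finset.mem_univ _, hi⟩⟩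
  obtain ⟨i0, hi0, hmax⟩ := Finset.exists_max_image _ id hne
  have hi0' : s i0 ≠ 0 := (Finset.mem_filter.mp hi0).2
  set j := 12 + (i0 : ℕ) with hj
  set Rest : K[X] := ∏ i ∈ Finset.univ.erase i0, G K (12 + i) (s i) with hRest
  have hFR : F = G K j (s i0) * Rest :=
    (Finset.mul_prod_erase _ (fun i : Fin n => G K (12 + i) (s i)) (Finset.mem_univ i0)).symm
  have hRest0 : Rest ≠ 0 := Finset.prod_ne_zero_iff.mpr fun i _ => G_ne_zero _ (by omega) _
  have hRe : ∀ k, (k = 1 ∨ k = 2) → ∀ a, Gen j a → orb a j + orb a k = 0 → Rest.eval a ≠ 0 := by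
    intro k hk a hG h0
    rw [hRest, eval_prod, Finset.prod_ne_zero_iff]
    intro i hi
    by_cases hsi : s i = 0
    · rw [hsi]; simp [G]
    · have h1 : i ≤ i0 := hmax i (Finset.mem_filter.mpr ⟨Finset.mem_univ _, hsi⟩)
      have h3 : i ≠ i0 := (Finset.mem_erase.mp hi).1
      have h4 : (i : ℕ) < i0 := lt_of_le_of_ne h1 (fun h => h3 (Fin.ext h))
      have := gen_lower hG (by omega) hk h0 (i := 12 + i) (by omega) (by omega)
      exact eval_G_ne_zero _ a this.1 this.2 _
  have hm1 : ((2 ^ (j - 2) : ℕ) : K) ≠ 1 := by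
    intro h
    have h3 : 1 < 2 ^ (j - 2) := Nat.one_lt_two_pow (by omega)
    have h4 : 2 ^ (j - 2) ≤ 2 ^ (12 + n) :=
      Nat.pow_le_pow_right (by norm_num) (by have := i0.2; omega)
    have h5 : ((2 ^ (j - 2) - 1 : ℕ) : K) = 0 := by
      rw [Nat.cast_sub h3.le, h]; simp
    rw [CharP.cast_eq_zero_iff K p] at h5
    have := Nat.le_of_dvd (by omega) h5
    omega
  have hcase : s i0 = 1 ∨ s i0 = 2 ∨ s i0 = 3 := by
    revert hi0'
    generalize s i0 = t
    revert t
    decide
  rcases hcase with h | h | h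
  · refine top_contra h2 j (by omega) hm1 1 (Or.inl rfl) (-Rest) (neg_ne_zero.mpr hRest0)
      (fun a hG h0 => by rw [eval_neg]; exact neg_ne_zero.mpr (hRe 1 (Or.inl rfl) a hG h0)) ?_
    intro a
    have := heven a
    rw [hFR, h] at this
    convert this using 2
    show _ = -(cp K j + cp K 1) * Rest
    ring
  · refine top_contra h2 j (by omega) hm1 2 (Or.inr rfl) Rest hRest0 (hRe 2 (Or.inr rfl)) ?_
    intro a
    have := heven a
    rw [hFR, h] at this
    exact this
  · refine top_contra h2 j (by omega) hm1 1 (Or.inl rfl) (-((cp K j + cp K 2) * Rest))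
      (neg_ne_zero.mpr (mul_ne_zero (monic_add_cp j 2 (by omega) (by omega)).ne_zero hRest0))
      (fun a hG h0 => ?_) ?_
    · rw [eval_neg, eval_mul, eval_add, eval_cp, eval_cp]
      refine neg_ne_zero.mpr (mul_ne_zero (fun h1 => ?_) (hRe 1 (Or.inl rfl) a hG h0))
      exact (hG 2 le_rfl (by omega)).2 (orb_PQ a (by omega) (by omega) h0 h1)
    · intro a
      have := heven a
      rw [hFR, h] at this
      convert this using 2
      show _ = -(cp K j + cp K 1) * (cp K j + cp K 2) * Rest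
      ring

end Pool.Agent.Lib.MP_4a1067_nt
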