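import Mathlib
import Pool.Agent.Lib.MP_4a1067_nt.NonSquare

/-! Invariants of the functional graph of `x ^ 2 + a` and the second moment count. -/

namespace Pool.Agent.Lib.MP_4a1067_nt

open Polynomial

lemma expand_bound {ι : Type*} [Fintype ι] [DecidableEq ι] (i0 : ι) (c : ι → ℝ)
    (hc : ∀ i, 0 ≤ c i) (n : ℕ) (A : (Fin n → ι) → ℝ) (E : ℝ) (hE : 0 ≤ E)
    (hA : ∀ t, t ≠ (fun _ => i0) → |A t| ≤ E) :
    |∑ t : Fin n → ι, (∏ j, c (t j)) * A t - c i0 ^ n * A (fun _ => i0)|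
      ≤ (∑ i, c i) ^ n * E := by
  rw [← Finset.add_sum_erase _ _ (Finset.mem_univ (fun _ => i0))]
  simp only [Finset.prod_const, Finset.card_univ, Fintype.card_fin, add_sub_cancel_left]
  have h1 : (∑ i, c i) ^ n = ∑ t : Fin n → ι, ∏ j, c (t j) := by
    have := Finset.prod_univ_sum (fun _ : Fin n => (Finset.univ : Finset ι)) (fun _ i => c i)
    simpa using this
  rw [h1, Finset.sum_mul]
  refine (Finset.abs_sum_le_sum_abs _ _).trans ?_
  refine le_trans (Finset.sum_le_sum (g := fun t => (∏ j, c (t j)) * E) fun t ht => ?_) ?_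
  · have h2 : 0 ≤ ∏ j, c (t j) := Finset.prod_nonneg fun j _ => hc _
    rw [abs_mul, abs_of_nonneg h2]
    exact mul_le_mul_of_nonneg_left (hA t (Finset.mem_erase.mp ht).1) h2
  · refine Finset.sum_le_sum_of_subset_of_nonneg (Finset.erase_subset _ _) fun t _ _ => ?_
    exact mul_nonneg (Finset.prod_nonneg fun j _ => hc _) hE

lemma second_moment {α β : Type*} [Fintype α] [DecidableEq β] (cl : α → β) (w : α → ℝ)
    (K : α → α → ℝ) (hK : ∀ a b, 0 ≤ K a b) (hw : ∀ a b, cl a = cl b → w a * w b ≤ K a b) :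
    (∑ a, w a) ^ 2 ≤ (Finset.univ.image cl).card * ∑ a, ∑ b, K a b := by
  classical
  have h1 : ∑ a, w a = ∑ C ∈ Finset.univ.image cl, ∑ a ∈ Finset.univ.filter (cl · = C), w a :=
    (Finset.sum_fiberwise_of_maps_to (fun a _ => Finset.mem_image_of_mem cl (Finset.mem_univ a))
      w).symm
  rw [h1]
  refine sq_sum_le_card_mul_sum_sq.trans (mul_le_mul_of_nonneg_left ?_ (Nat.cast_nonneg _))
  have h2 : ∑ a, ∑ b, K a b
      = ∑ C ∈ Finset.univ.image cl, ∑ a ∈ Finset.univ.filter (cl · = C), ∑ b, K a b :=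
    (Finset.sum_fiberwise_of_maps_to (fun a _ => Finset.mem_image_of_mem cl (Finset.mem_univ a))
      _).symm
  rw [h2]
  refine Finset.sum_le_sum fun C _ => ?_
  rw [sq, Finset.sum_mul_sum]
  refine Finset.sum_le_sum fun a ha => ?_
  refine le_trans (Finset.sum_le_sum (g := fun b => K a b) fun b hb => ?_) ?_
  · exact hw a b ((Finset.mem_filter.mp ha).2.trans (Finset.mem_filter.mp hb).2.symm)
  · exact Finset.sum_le_sum_of_subset_of_nonneg (Finset.filter_subset _ _) fun b _ _ => hK a b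

section Inv
variable {F : Type*} [Field F] [Fintype F] [DecidableEq F]

omit [Fintype F] [DecidableEq F] in
lemma conj_zero (h2 : (2 : F) ≠ 0) {a b : F} (σ : F ≃ F) (h : ∀ x, σ (x ^ 2 + a) = σ x ^ 2 + b) :
    σ 0 = 0 := by
  obtain ⟨x, hx⟩ := σ.surjective (-σ 0)
  have h1 : σ (x ^ 2 + a) = σ (0 ^ 2 + a) := by rw [h, h, hx]; ring
  have h3 : x = 0 := by
    have := σ.injective h1
    simpa using this
  rw [h3] at hx
  have : 2 * σ 0 = 0 := by linear_combination hx
  exact (mul_eq_zero.mp this).resolve_left h2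

omit [Fintype F] [DecidableEq F] in
lemma conj_neg (h2 : (2 : F) ≠ 0) {a b : F} (σ : F ≃ F) (h : ∀ x, σ (x ^ 2 + a) = σ x ^ 2 + b)
    (x : F) : σ (-x) = -σ x := by
  have h1 : σ (-x) ^ 2 = σ x ^ 2 := by
    have e1 := h (-x)
    rw [neg_sq, h] at e1
    linear_combination -e1
  rcases sq_eq_sq_iff_eq_or_eq_neg.mp h1 with h3 | h3
  · have h4 : -x = x := σ.injective h3
    have h5 : 2 * x = 0 := by linear_combination -h4
    rw [(mul_eq_zero.mp h5).resolve_left h2, neg_zero, conj_zero h2 σ h, neg_zero]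
  · exact h3

omit [Fintype F] [DecidableEq F] in
lemma conj_orb (h2 : (2 : F) ≠ 0) {a b : F} (σ : F ≃ F) (h : ∀ x, σ (x ^ 2 + a) = σ x ^ 2 + b)
    (n : ℕ) : σ (orb a n) = orb b n := by
  induction n with
  | zero => exact conj_zero h2 σ h
  | succ n ih => rw [orb_succ, h, ih, orb_succ]

lemma conj_chi (h2 : (2 : F) ≠ 0) {a b : F} (σ : F ≃ F) (h : ∀ x, σ (x ^ 2 + a) = σ x ^ 2 + b)
    (y : F) : quadraticChar F (y - a) = quadraticChar F (σ y - b) := by
  have hab : σ a = b := by simpa [orb_one] using conj_orb h2 σ h 1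
  have hz : y - a = 0 ↔ σ y - b = 0 := by
    rw [sub_eq_zero, sub_eq_zero, ← hab, σ.injective.eq_iff]
  have hs : IsSquare (y - a) ↔ IsSquare (σ y - b) := by
    constructor
    · rintro ⟨s, hs⟩
      refine ⟨σ s, ?_⟩
      have : y = s ^ 2 + a := by linear_combination hs
      rw [this, h]; ring
    · rintro ⟨s, hs⟩
      obtain ⟨t, rfl⟩ := σ.surjective s
      refine ⟨t, ?_⟩
      have : σ y = σ (t ^ 2 + a) := by rw [h]; linear_combination hs
      rw [σ.injective this]; ring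
  simp only [quadraticChar_apply, quadraticCharFun, hz, hs]

/-- first bit at level `j` -/
def uu (j : ℕ) (a : F) : ℤ := quadraticChar F (-(orb a j + orb a 1))

/-- second bit at level `j` -/
def vv (j : ℕ) (a : F) : ℤ := quadraticChar F (orb a j + orb a 2)

lemma conj_uu (h2 : (2 : F) ≠ 0) {a b : F} (σ : F ≃ F) (h : ∀ x, σ (x ^ 2 + a) = σ x ^ 2 + b)
    (j : ℕ) : uu j a = uu j b := by
  have := conj_chi h2 σ h (-orb a j)
  rw [conj_neg h2 σ h, conj_orb h2 σ h] at this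
  unfold uu
  rw [orb_one, orb_one, neg_add, neg_add, ← sub_eq_add_neg, ← sub_eq_add_neg, this]

lemma conj_vv (h2 : (2 : F) ≠ 0) {a b : F} (σ : F ≃ F) (h : ∀ x, σ (x ^ 2 + a) = σ x ^ 2 + b)
    (j : ℕ) (hu : uu j a = 1) : vv j a = vv j b := by
  have h0 : -(orb a j + orb a 1) ≠ 0 := by
    intro h0
    unfold uu at hu
    rw [h0] at hu
    simp at hu
  obtain ⟨s, hs⟩ := (quadraticChar_one_iff_isSquare h0).mp hu
  rw [orb_one] at hs
  have e1 : -orb a j = s ^ 2 + a := by linear_combination hs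
  have e2 : -orb b j = σ s ^ 2 + b := by
    rw [← h, ← e1, conj_neg h2 σ h, conj_orb h2 σ h]
  have e3 : orb a j + orb a 2 = (s - a) * (-s - a) := by
    rw [orb_succ a 1, orb_one]; linear_combination -e1
  have e4 : orb b j + orb b 2 = (σ s - b) * (-σ s - b) := by
    rw [orb_succ b 1, orb_one]; linear_combination -e2
  unfold vv
  rw [e3, e4, map_mul, map_mul, conj_chi h2 σ h s, conj_chi h2 σ h (-s), conj_neg h2 σ h]

/-- the character value of the polynomial `G j t` at `a` -/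
noncomputable def ee (j : ℕ) (t : Fin 4) (a : F) : ℝ :=
  ((quadraticChar F ((G F j t).eval a) : ℤ) : ℝ)

lemma ee_zero (j : ℕ) (a : F) : ee j 0 a = 1 := by simp [ee, G]

lemma ee_one (j : ℕ) (a : F) : ee j 1 a = uu j a := by
  show ((quadraticChar F ((-(cp F j + cp F 1)).eval a) : ℤ) : ℝ) = _
  rw [eval_neg, eval_add, eval_cp, eval_cp, uu]

lemma ee_two (j : ℕ) (a : F) : ee j 2 a = vv j a := by
  show ((quadraticChar F ((cp F j + cp F 2).eval a) : ℤ) : ℝ) = _
  rw [eval_add, eval_cp, eval_cp, vv]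

lemma ee_three (j : ℕ) (a : F) : ee j 3 a = uu j a * vv j a := by
  show ((quadraticChar F ((-(cp F j + cp F 1) * (cp F j + cp F 2)).eval a) : ℤ) : ℝ) = _
  rw [eval_mul, map_mul, eval_neg, eval_add, eval_add, eval_cp, eval_cp, eval_cp, uu, vv]
  push_cast; ring

lemma uu_cases (j : ℕ) (a : F) : uu j a = 0 ∨ uu j a = 1 ∨ uu j a = -1 :=
  quadraticChar_isQuadratic F _

lemma vv_cases (j : ℕ) (a : F) : vv j a = 0 ∨ vv j a = 1 ∨ vv j a = -1 :=
  quadraticChar_isQuadratic F _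

/-- one-level kernel -/
noncomputable def ker (j : ℕ) (a b : F) : ℝ :=
  (2 + 2 * ((uu j a : ℝ) * uu j b) + (vv j a : ℝ) * vv j b * (1 + uu j a) * (1 + uu j b)) / 4

/-- one-level weight -/
noncomputable def wt (j : ℕ) (a : F) : ℝ :=
  (1 + Real.sqrt 2) / 2 + (Real.sqrt 2 - 1) / 2 * uu j a

lemma ker_nonneg (j : ℕ) (a b : F) : 0 ≤ ker j a b := by
  unfold ker
  rcases uu_cases j a with h1 | h1 | h1 <;> rcases uu_cases j b with h2 | h2 | h2 <;>
    rcases vv_cases j a with h3 | h3 | h3 <;> rcases vv_cases j b with h4 | h4 | h4 <;>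
    rw [h1, h2, h3, h4] <;> norm_num

lemma wt_bounds (j : ℕ) (a : F) : 0 ≤ wt j a ∧ wt j a ≤ Real.sqrt 2 := by
  have h : 1 ≤ Real.sqrt 2 := Real.one_le_sqrt.mpr (by norm_num)
  unfold wt
  rcases uu_cases j a with h1 | h1 | h1 <;> rw [h1] <;> push_cast <;> constructor <;> linarith

lemma wt_mul_le (h2 : (2 : F) ≠ 0) {a b : F} (σ : F ≃ F) (h : ∀ x, σ (x ^ 2 + a) = σ x ^ 2 + b)
    (j : ℕ) (hu : uu j a ≠ 0) (hv : vv j a ≠ 0) : wt j a * wt j b ≤ ker j a b := by
  have hs : Real.sqrt 2 * Real.sqrt 2 = 2 := Real.mul_self_sqrt (by norm_num)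
  have e1 := conj_uu h2 σ h j
  unfold wt ker
  rw [← e1]
  rcases uu_cases j a with h1 | h1 | h1
  · exact absurd h1 hu
  · rw [← conj_vv h2 σ h j h1, h1]
    rcases vv_cases j a with h3 | h3 | h3
    · exact absurd h3 hv
    · rw [h3]; push_cast; nlinarith
    · rw [h3]; push_cast; nlinarith
  · rw [h1]; push_cast; nlinarith

/-- coefficients of the kernel expansion -/
noncomputable def kc : Fin 6 → ℝ := ![1 / 2, 1 / 2, 1 / 4, 1 / 4, 1 / 4, 1 / 4]

/-- left index of the kernel expansion -/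
def kl : Fin 6 → Fin 4 := ![0, 1, 2, 2, 3, 3]

/-- right index of the kernel expansion -/
def kr : Fin 6 → Fin 4 := ![0, 1, 2, 3, 2, 3]

/-- coefficients of the weight expansion -/
noncomputable def wc : Fin 2 → ℝ := ![(1 + Real.sqrt 2) / 2, (Real.sqrt 2 - 1) / 2]

/-- index of the weight expansion -/
def wl : Fin 2 → Fin 4 := ![0, 1]

lemma ker_eq (j : ℕ) (a b : F) : ker j a b = ∑ τ, kc τ * (ee j (kl τ) a * ee j (kr τ) b) := by
  simp [Fin.sum_univ_six, kc, kl, kr, ee_zero, ee_one, ee_two, ee_three, ker]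
  ring

lemma wt_eq (j : ℕ) (a : F) : wt j a = ∑ τ, wc τ * ee j (wl τ) a := by
  simp [Fin.sum_univ_two, wc, wl, ee_zero, ee_one, wt]

end Inv

section Main
variable {p : ℕ} [hp : Fact p.Prime]

/-- complete character sum attached to a choice of polynomials at the levels `12 + i` -/
noncomputable def sg (p : ℕ) [Fact p.Prime] {n : ℕ} (s : Fin n → Fin 4) : ℝ :=
  ∑ a : ZMod p, ∏ i : Fin n, ee (12 + i) (s i) a

lemma natDegree_prod_G_le {K : Type*} [Field K] (n : ℕ) (s : Fin n → Fin 4) :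
    (∏ i : Fin n, G K (12 + i) (s i)).natDegree ≤ 2 ^ (12 + n) := by
  refine (natDegree_prod_le _ _).trans ?_
  calc ∑ i : Fin n, (G K (12 + i) (s i)).natDegree ≤ ∑ i : Fin n, 2 ^ (12 + (i : ℕ)) :=
        Finset.sum_le_sum fun i _ => natDegree_G_le _ (by omega) _
    _ = 2 ^ 12 * ∑ i ∈ Finset.range n, 2 ^ i := by
        rw [Finset.mul_sum, ← Fin.sum_univ_eq_sum_range (fun i => 2 ^ 12 * 2 ^ i)]
        simp only [pow_add]
    _ ≤ 2 ^ (12 + n) := by
        rw [pow_add]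
        exact Nat.mul_le_mul_left _
          (Nat.geomSum_lt le_rfl (fun _ h => Finset.mem_range.mp h)).le

lemma sg_zero (n : ℕ) : sg p (fun _ : Fin n => 0) = p := by
  simp [sg, ee_zero]

lemma abs_sg_le (hp2 : p ≠ 2) (n : ℕ) (hn : 2 ^ (12 + n) ≤ p) (s : Fin n → Fin 4)
    (hs : s ≠ fun _ => 0) : |sg p s| ≤ 20 * 2 ^ (12 + n) * Real.sqrt p := by
  have h := abs_sum_quadraticChar_le hp2 _ (ns_prod hp2 n hn s hs)
  have e : sg p s = ∑ x : ZMod p, ((quadraticChar (ZMod p)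
      ((∏ i : Fin n, G (ZMod p) (12 + i) (s i)).eval x) : ℤ) : ℝ) := by
    refine Finset.sum_congr rfl fun x _ => ?_
    rw [eval_prod, map_prod]
    push_cast
    rfl
  rw [e]
  refine h.trans ?_
  have := natDegree_prod_G_le (K := ZMod p) n s
  have h3 : ((∏ i : Fin n, G (ZMod p) (12 + i) (s i)).natDegree : ℝ) ≤ 2 ^ (12 + n) := by
    exact_mod_cast this
  gcongr

lemma sum_ker_le (hp2 : p ≠ 2) (n : ℕ) (hn : 2 ^ (12 + n) ≤ p) :
    ∑ a : ZMod p, ∑ b : ZMod p, ∏ i : Fin n, ker (12 + i) a b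
      ≤ (1 / 2) ^ n * p ^ 2 + 2 ^ n * (20 * 2 ^ (12 + n) * Real.sqrt p) ^ 2 := by
  set E : ℝ := 20 * 2 ^ (12 + n) * Real.sqrt p with hE
  have hE0 : 0 ≤ E := by positivity
  have e : ∑ a : ZMod p, ∑ b : ZMod p, ∏ i : Fin n, ker (12 + i) a b
      = ∑ t : Fin n → Fin 6, (∏ j, kc (t j)) * (sg p (kl ∘ t) * sg p (kr ∘ t)) := by
    simp only [ker_eq, Finset.prod_univ_sum, Fintype.piFinset_univ, sg,
      Finset.mul_sum, Finset.sum_mul, Finset.prod_mul_distrib, Function.comp]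
    rw [Finset.sum_comm]
    symm
    rw [Finset.sum_comm]
    refine Finset.sum_congr rfl fun a _ => ?_
    rw [Finset.sum_comm]
  have h := expand_bound (0 : Fin 6) kc (by intro i; fin_cases i <;> simp [kc]) n
    (fun t => sg p (kl ∘ t) * sg p (kr ∘ t)) (E ^ 2) (by positivity) (by
      intro t ht
      have hl : ∀ τ, kl τ = 0 → τ = 0 := by decide
      have hr : ∀ τ, kr τ = 0 → τ = 0 := by decide
      have h1 := abs_sg_le hp2 n hn (kl ∘ t) (fun h => ht (funext fun i => hl _ (congrFun h i)))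
      have h2 := abs_sg_le hp2 n hn (kr ∘ t) (fun h => ht (funext fun i => hr _ (congrFun h i)))
      rw [abs_mul, sq]
      exact mul_le_mul h1 h2 (abs_nonneg _) hE0)
  have e1 : (kl ∘ fun _ : Fin n => (0 : Fin 6)) = fun _ => 0 := rfl
  have e2 : (kr ∘ fun _ : Fin n => (0 : Fin 6)) = fun _ => 0 := rfl
  have e3 : ∑ i, kc i = 2 := by simp [Fin.sum_univ_six, kc]; norm_num
  have e4 : kc 0 = 1 / 2 := rfl
  simp only [e1, e2, sg_zero, e3, e4] at h
  rw [e]
  have := (abs_le.mp h).2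
  linarith

lemma le_sum_wt (hp2 : p ≠ 2) (n : ℕ) (hn : 2 ^ (12 + n) ≤ p) :
    ((1 + Real.sqrt 2) / 2) ^ n * p - Real.sqrt 2 ^ n * (20 * 2 ^ (12 + n) * Real.sqrt p)
      ≤ ∑ a : ZMod p, ∏ i : Fin n, wt (12 + i) a := by
  set E : ℝ := 20 * 2 ^ (12 + n) * Real.sqrt p with hE
  have hE0 : 0 ≤ E := by positivity
  have hs : 1 ≤ Real.sqrt 2 := Real.one_le_sqrt.mpr (by norm_num)
  have e : ∑ a : ZMod p, ∏ i : Fin n, wt (12 + i) a
      = ∑ t : Fin n → Fin 2, (∏ j, wc (t j)) * sg p (wl ∘ t) := by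
    simp only [wt_eq, Finset.prod_univ_sum, Fintype.piFinset_univ, sg,
      Finset.mul_sum, Finset.prod_mul_distrib, Function.comp]
    rw [Finset.sum_comm]
  have h := expand_bound (0 : Fin 2) wc (by
      intro i; fin_cases i
      · show 0 ≤ (1 + Real.sqrt 2) / 2
        linarith
      · show 0 ≤ (Real.sqrt 2 - 1) / 2
        linarith) n
    (fun t => sg p (wl ∘ t)) E hE0 (by
      intro t ht
      have hl : ∀ τ, wl τ = 0 → τ = 0 := by decide
      exact abs_sg_le hp2 n hn (wl ∘ t) (fun h => ht (funext fun i => hl _ (congrFun h i))))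
  have e1 : (wl ∘ fun _ : Fin n => (0 : Fin 2)) = fun _ => 0 := rfl
  have e3 : ∑ i, wc i = Real.sqrt 2 := by simp [Fin.sum_univ_two, wc]; ring
  have e4 : wc 0 = (1 + Real.sqrt 2) / 2 := rfl
  simp only [e1, sg_zero, e3, e4] at h
  rw [e]
  have := (abs_le.mp h).1
  linarith

lemma main_bound {β : Type*} [DecidableEq β] (hp2 : p ≠ 2) (cl : ZMod p → β)
    (hcl : ∀ a b, cl a = cl b → ∃ σ : ZMod p ≃ ZMod p, ∀ x, σ (x ^ 2 + a) = σ x ^ 2 + b)
    (n : ℕ) (hn : 6400 * 16 ^ (12 + n) ≤ p) :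
    (3 / 2 + Real.sqrt 2) ^ n / 8 ≤ (Finset.univ.image cl).card := by
  classical
  have h2 : (2 : ZMod p) ≠ 0 := by
    intro h
    have : ((2 : ℕ) : ZMod p) = 0 := by exact_mod_cast h
    rw [ZMod.natCast_eq_zero_iff] at this
    exact hp2 ((Nat.prime_dvd_prime_iff_eq hp.out Nat.prime_two).mp this)
  have hn' : 2 ^ (12 + n) ≤ p := by
    have : 2 ^ (12 + n) ≤ 16 ^ (12 + n) := Nat.pow_le_pow_left (by norm_num) _
    omega
  set D : ℝ := 2 ^ (12 + n) with hD
  have hD4 : 6400 * D ^ 4 ≤ p := by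
    have : ((6400 * 16 ^ (12 + n) : ℕ) : ℝ) ≤ p := by exact_mod_cast hn
    rw [hD, ← pow_mul, mul_comm (12 + n) 4, pow_mul]
    push_cast at this
    norm_num at this ⊢
    exact this
  have hD1 : (1 : ℝ) ≤ D := one_le_pow₀ (by norm_num)
  have hDn : (2 : ℝ) ^ n ≤ D := pow_le_pow_right₀ (by norm_num) (by omega)
  have hs1 : 1 ≤ Real.sqrt 2 := Real.one_le_sqrt.mpr (by norm_num)
  have hs2 : Real.sqrt 2 * Real.sqrt 2 = 2 := Real.mul_self_sqrt (by norm_num)
  have hsn : Real.sqrt 2 ^ n ≤ D :=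
    (pow_le_pow_left₀ (by linarith) (by nlinarith) n).trans hDn
  have hppos : (0 : ℝ) < p := by exact_mod_cast hp.out.pos
  have hq : Real.sqrt p * Real.sqrt p = p := Real.mul_self_sqrt hppos.le
  have hq80 : 80 * D ^ 2 ≤ Real.sqrt p := by
    apply Real.le_sqrt_of_sq_le
    nlinarith
  have hq1 : 1 ≤ Real.sqrt p := by nlinarith
  set E : ℝ := 20 * D * Real.sqrt p with hE
  let good : ZMod p → Prop := fun a => ∀ i : Fin n, uu (12 + i) a ≠ 0 ∧ vv (12 + i) a ≠ 0
  let w : ZMod p → ℝ := fun a => if good a then ∏ i : Fin n, wt (12 + i) a else 0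
  have hsm := second_moment cl w (fun a b => ∏ i : Fin n, ker (12 + i) a b)
    (fun a b => Finset.prod_nonneg fun i _ => ker_nonneg _ _ _) (by
      intro a b hab
      obtain ⟨σ, hσ⟩ := hcl a b hab
      have hk : 0 ≤ ∏ i : Fin n, ker (12 + i) a b :=
        Finset.prod_nonneg fun i _ => ker_nonneg _ _ _
      by_cases ha : good a
      · by_cases hb : good b
        · simp only [w, if_pos ha, if_pos hb]
          rw [← Finset.prod_mul_distrib]
          exact Finset.prod_le_prod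
            (fun i _ => mul_nonneg (wt_bounds _ _).1 (wt_bounds _ _).1)
            (fun i _ => wt_mul_le h2 σ hσ _ (ha i).1 (ha i).2)
        · simpa [w, hb] using hk
      · simpa [w, ha] using hk)
  have hbad : ((Finset.univ.filter fun a => ¬ good a).card : ℝ) ≤ D := by
    have h0 : (∏ i : Fin n, G (ZMod p) (12 + i) 3) ≠ 0 :=
      Finset.prod_ne_zero_iff.mpr fun i _ => G_ne_zero _ (by omega) _
    have h1 : (Finset.univ.filter fun a => ¬ good a).card ≤ 2 ^ (12 + n) := by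
      refine le_trans (card_le_degree_of_subset_roots ?_) (natDegree_prod_G_le n (fun _ => 3))
      intro a ha
      have ha' := (Finset.mem_filter.mp ha).2
      rw [mem_roots h0, IsRoot, eval_prod]
      by_contra hne
      apply ha'
      intro i
      have h3 := Finset.prod_ne_zero_iff.mp hne i (Finset.mem_univ _)
      have h4 : ee (12 + i) 3 a ≠ 0 := by
        unfold ee
        rw [Int.cast_ne_zero, Ne, quadraticChar_eq_zero_iff]
        exact h3
      rw [ee_three] at h4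
      have h5 := mul_ne_zero_iff.mp h4
      exact ⟨Int.cast_ne_zero.mp h5.1, Int.cast_ne_zero.mp h5.2⟩
    rw [hD]
    exact_mod_cast h1
  have hw : ∑ a : ZMod p, ∏ i : Fin n, wt (12 + i) a ≤ ∑ a, w a + D * Real.sqrt 2 ^ n := by
    have h1 : ∑ a : ZMod p, ∏ i : Fin n, wt (12 + i) a
        ≤ ∑ a : ZMod p, (w a + if ¬ good a then Real.sqrt 2 ^ n else 0) := by
      refine Finset.sum_le_sum fun a _ => ?_
      by_cases ha : good a
      · simp [w, ha]
      · simp only [w, ha, if_false, not_false_eq_true, if_true, zero_add]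
        have := Finset.prod_le_prod (s := Finset.univ) (f := fun i : Fin n => wt (12 + i) a)
          (g := fun _ => Real.sqrt 2) (fun i _ => (wt_bounds _ _).1) (fun i _ => (wt_bounds _ _).2)
        simpa using this
    rw [Finset.sum_add_distrib, ← Finset.sum_filter (fun a => ¬ good a), Finset.sum_const,
      nsmul_eq_mul] at h1
    refine h1.trans (add_le_add le_rfl ?_)
    exact mul_le_mul_of_nonneg_right hbad (by positivity)
  have hlow := le_sum_wt hp2 n hn'
  have hup := sum_ker_le hp2 n hn'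
  rw [← hD, ← hE] at hlow hup
  set T : ℝ := ((1 + Real.sqrt 2) / 2) ^ n with hT
  have hT1 : 1 ≤ T := one_le_pow₀ (by linarith)
  have hsn0 : 0 ≤ Real.sqrt 2 ^ n := by positivity
  have hDE : D ≤ E := by rw [hE]; nlinarith
  have hE0 : 0 ≤ E := by linarith
  have hW : T * p / 2 ≤ ∑ a, w a := by
    have a1 : Real.sqrt 2 ^ n * E ≤ D * E := mul_le_mul_of_nonneg_right hsn hE0
    have a2 : D * Real.sqrt 2 ^ n ≤ D * E := mul_le_mul_of_nonneg_left (hsn.trans hDE) (by linarith)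
    have a3 : 4 * (D * E) ≤ p := by
      rw [hE]
      nlinarith
    have a4 : (p : ℝ) ≤ T * p := le_mul_of_one_le_left hppos.le hT1
    linarith
  have hK : ∑ a : ZMod p, ∑ b : ZMod p, ∏ i : Fin n, ker (12 + i) a b
      ≤ 2 * (1 / 2) ^ n * p ^ 2 := by
    have a0 : (0 : ℝ) < 2 ^ n := by positivity
    have a1 : (2 : ℝ) ^ n * E ^ 2 ≤ (1 / 2) ^ n * p ^ 2 := by
      rw [one_div, inv_pow, inv_mul_eq_div, le_div_iff₀ a0]
      have a2 : E ^ 2 = 400 * D ^ 2 * p := by
        rw [hE]; linear_combination 400 * D ^ 2 * hq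
      have a3 : (2 : ℝ) ^ n * 2 ^ n ≤ D ^ 2 := by nlinarith
      have a4 : (2 : ℝ) ^ n * 2 ^ n * (400 * D ^ 2 * p) ≤ D ^ 2 * (400 * D ^ 2 * p) :=
        mul_le_mul_of_nonneg_right a3 (by positivity)
      have a5 : 6400 * D ^ 4 * p ≤ p * p := mul_le_mul_of_nonneg_right hD4 hppos.le
      have a6 : 0 ≤ D ^ 4 * p := by positivity
      rw [a2]
      nlinarith
    linarith
  set I : ℝ := ((Finset.univ.image cl).card : ℝ) with hI
  have hI0 : 0 ≤ I := Nat.cast_nonneg _
  have b1 : (T * p / 2) ^ 2 ≤ I * (2 * (1 / 2) ^ n * p ^ 2) :=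
    (pow_le_pow_left₀ (by positivity) hW 2).trans (hsm.trans (mul_le_mul_of_nonneg_left hK hI0))
  have b2 : (3 / 2 + Real.sqrt 2) ^ n * (1 / 2) ^ n = T ^ 2 := by
    rw [hT, ← mul_pow, ← pow_mul, mul_comm n 2, pow_mul]
    congr 1
    linear_combination (-1 / 4) * hs2
  have b3 : (0 : ℝ) < (1 / 2) ^ n * p ^ 2 := by positivity
  apply le_of_mul_le_mul_right _ b3
  have b4 : (3 / 2 + Real.sqrt 2) ^ n / 8 * ((1 / 2) ^ n * p ^ 2) = (T * p / 2) ^ 2 / 2 := by
    linear_combination (p : ℝ) ^ 2 / 8 * b2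
  rw [b4]
  linarith

end Main

end Pool.Agent.Lib.MP_4a1067_nt
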