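import Mathlib

/-! Addition theorem, injectivity and surjectivity for the Weierstrass function. -/

namespace Pool.Agent.Lib.MP_4a1067_nt

open Filter Topology Set

variable (L : PeriodPair)

lemma ev_notMem (c : ℂ) : ∀ᶠ h in 𝓝[≠] c, h ∉ L.lattice := by
  filter_upwards [self_mem_nhdsWithin, mem_nhdsWithin_of_mem_nhds
    (L.compl_lattice_sdiff_singleton_mem_nhds c)] with w hw hw'
  intro h
  exact hw' ⟨h, hw⟩

lemma ev_add_notMem (a c : ℂ) : ∀ᶠ h in 𝓝[≠] c, a + h ∉ L.lattice := by
  have h1 : Tendsto (fun h => a + h) (𝓝[≠] c) (𝓝[≠] (a + c)) := by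
    refine tendsto_nhdsWithin_iff.mpr ⟨?_, ?_⟩
    · exact ((continuous_const_add a).tendsto c).mono_left nhdsWithin_le_nhds
    · filter_upwards [self_mem_nhdsWithin] with h hh
      simpa using hh
  exact h1.eventually (ev_notMem L (a + c))

lemma ev_sub_notMem (a c : ℂ) : ∀ᶠ h in 𝓝[≠] c, a - h ∉ L.lattice := by
  filter_upwards [ev_add_notMem L (-a) c] with h hh
  intro h'
  apply hh
  have := neg_mem h'
  rwa [neg_sub, sub_eq_neg_add] at this

lemma ev_ev {p : ℂ → Prop} {c : ℂ} (h : ∀ᶠ z in 𝓝[≠] c, p z) :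
    ∀ᶠ z in 𝓝[≠] c, ∀ᶠ y in 𝓝 z, p y := by
  obtain ⟨t, ht, hc, hsub⟩ := mem_nhdsWithin.mp h
  filter_upwards [inter_mem (mem_nhdsWithin_of_mem_nhds (ht.mem_nhds hc)) self_mem_nhdsWithin]
    with z hz
  exact mem_of_superset ((ht.inter isOpen_compl_singleton).mem_nhds hz) hsub

lemma countable_lattice : (L.lattice : Set ℂ).Countable := by
  have : Countable L.lattice := L.latticeEquivProd.toEquiv.countable_iff.mpr inferInstance
  exact this

lemma preconnected_compl {s : Set ℂ} (hs : s.Countable) : IsPreconnected sᶜ :=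
  (hs.isConnected_compl_of_one_lt_rank (by simp)).isPreconnected

lemma anP {z : ℂ} (hz : z ∉ L.lattice) : AnalyticAt ℂ L.weierstrassP z :=
  L.analyticOnNhd_weierstrassP z hz

lemma anP' {z : ℂ} (hz : z ∉ L.lattice) : AnalyticAt ℂ L.derivWeierstrassP z :=
  L.analyticOnNhd_derivWeierstrassP z hz

lemma hasDerivAt_P {z : ℂ} (hz : z ∉ L.lattice) :
    HasDerivAt L.weierstrassP (L.derivWeierstrassP z) z := by
  have := (anP L hz).differentiableAt.hasDerivAt
  rwa [L.deriv_weierstrassP] at this

lemma P_eq (z : ℂ) : L.weierstrassP z = L.weierstrassPExcept 0 z + 1 / z ^ 2 := by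
  have := L.weierstrassPExcept_add 0 z
  simpa using this.symm

lemma P'_eq (z : ℂ) : L.derivWeierstrassP z = L.derivWeierstrassPExcept 0 z - 2 / z ^ 3 := by
  have := L.derivWeierstrassPExcept_sub 0 z
  simpa using this.symm

lemma tendsto_sq_mul_P : Tendsto (fun z => z ^ 2 * L.weierstrassP z) (𝓝[≠] 0) (𝓝 1) := by
  have h1 : ContinuousAt (fun z => z ^ 2 * L.weierstrassPExcept 0 z + 1) 0 := by
    have := (L.analyticAt_weierstrassPExcept 0).continuousAt
    fun_prop
  have h2 := h1.tendsto.mono_left (nhdsWithin_le_nhds (s := {0}ᶜ))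
  simp only [ne_eq, OfNat.ofNat_ne_zero, not_false_eq_true, zero_pow, zero_mul, zero_add] at h2
  refine h2.congr' ?_
  filter_upwards [self_mem_nhdsWithin] with z (hz : z ≠ 0)
  rw [P_eq]; field_simp

lemma tendsto_cube_mul_P' :
    Tendsto (fun z => z ^ 3 * L.derivWeierstrassP z) (𝓝[≠] 0) (𝓝 (-2)) := by
  have h1 : ContinuousAt (fun z => z ^ 3 * L.derivWeierstrassPExcept 0 z - 2) 0 := by
    have := (L.analyticAt_derivWeierstrassPExcept 0).continuousAt
    fun_prop
  have h2 := h1.tendsto.mono_left (nhdsWithin_le_nhds (s := {0}ᶜ))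
  simp only [ne_eq, OfNat.ofNat_ne_zero, not_false_eq_true, zero_pow, zero_mul, zero_sub] at h2
  refine h2.congr' ?_
  filter_upwards [self_mem_nhdsWithin] with z (hz : z ≠ 0)
  rw [P'_eq]; field_simp

/-- near `0` the function `℘` differs from any function continuous at `0` -/
lemma ev_P_ne {g : ℂ → ℂ} (hg : ContinuousAt g 0) : ∀ᶠ z in 𝓝[≠] 0, L.weierstrassP z ≠ g z := by
  have h1 : ContinuousAt (fun z => z ^ 2 * g z) 0 := by fun_prop
  have h2 := h1.tendsto.mono_left (nhdsWithin_le_nhds (s := {0}ᶜ))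
  simp only [ne_eq, OfNat.ofNat_ne_zero, not_false_eq_true, zero_pow, zero_mul] at h2
  have h3 := (tendsto_sq_mul_P L).sub h2
  filter_upwards [h3.eventually_ne (show (1 - 0 : ℂ) ≠ 0 by norm_num)] with z hz h
  apply hz
  rw [h, sub_self]

lemma hasDerivAt_P' {z : ℂ} (hz : z ∉ L.lattice) :
    HasDerivAt L.derivWeierstrassP (6 * L.weierstrassP z ^ 2 - L.g₂ / 2) z := by
  have key := AnalyticOnNhd.eq_zero_or_eq_zero_of_mul_eq_zero (U := (L.lattice : Set ℂ)ᶜ)
    (f := L.derivWeierstrassP)
    (g := fun z => deriv L.derivWeierstrassP z - (6 * L.weierstrassP z ^ 2 - L.g₂ / 2))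
    L.analyticOnNhd_derivWeierstrassP (fun z hz => by
      have h1 := (anP' L hz).deriv
      have h2 := anP L hz
      fun_prop) (fun z hz => by
      have h1 : (fun w => L.derivWeierstrassP w ^ 2) =ᶠ[𝓝 z]
          fun w => 4 * L.weierstrassP w ^ 3 - L.g₂ * L.weierstrassP w - L.g₃ := by
        filter_upwards [L.isClosed_lattice.isOpen_compl.mem_nhds hz] with w hw
        exact L.derivWeierstrassP_sq w hw
      have h2 := ((anP' L hz).differentiableAt.hasDerivAt.pow 2)
      have h3 := ((((hasDerivAt_P L hz).pow 3).const_mul 4).sub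
        ((hasDerivAt_P L hz).const_mul L.g₂)).sub_const L.g₃
      have h4 := h2.unique (h3.congr_of_eventuallyEq h1)
      simp only [Nat.cast_ofNat, Nat.add_one_sub_one, pow_one] at h4
      linear_combination h4 / 2) (preconnected_compl (countable_lattice L))
  rcases key with h | h
  · exfalso
    have h1 := (tendsto_cube_mul_P' L).eventually_ne (show (-2 : ℂ) ≠ 0 by norm_num)
    obtain ⟨w, hw1, hw2⟩ := (h1.and (ev_notMem L 0)).exists
    apply hw1
    rw [h w hw2, mul_zero]
  · have := (anP' L hz).differentiableAt.hasDerivAt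
    rwa [sub_eq_zero.mp (h z hz)] at this

lemma addition_aux (s : ℂ) (hs : s ∉ L.lattice) :
    ∀ᶠ z in 𝓝[≠] 0, (L.derivWeierstrassP z - L.derivWeierstrassP (s - z)) ^ 2
      / (4 * (L.weierstrassP z - L.weierstrassP (s - z)) ^ 2)
      - L.weierstrassP z - L.weierstrassP (s - z) = L.weierstrassP s := by
  set h : ℂ → ℂ := fun z => (L.derivWeierstrassP z - L.derivWeierstrassP (s - z)) ^ 2
      / (4 * (L.weierstrassP z - L.weierstrassP (s - z)) ^ 2)
      - L.weierstrassP z - L.weierstrassP (s - z) with hh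
  have ax : AnalyticAt ℂ (fun z => L.weierstrassP (s - z)) 0 :=
    AnalyticAt.comp_of_eq (anP L hs) (f := fun z => s - z) (by fun_prop) (by simp)
  have ay : AnalyticAt ℂ (fun z => L.derivWeierstrassP (s - z)) 0 :=
    AnalyticAt.comp_of_eq (anP' L hs) (f := fun z => s - z) (by fun_prop) (by simp)
  have hne := ev_P_ne L ax.continuousAt
  have hd : ∀ᶠ z in 𝓝[≠] 0, HasDerivAt h 0 z := by
    filter_upwards [ev_notMem L 0, ev_sub_notMem L s 0, hne] with z h1 h2 h3
    have d1 := hasDerivAt_P L h1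
    have d2 := hasDerivAt_P' L h1
    have d3 := (hasDerivAt_P L h2).comp_const_sub s z
    have d4 := (hasDerivAt_P' L h2).comp_const_sub s z
    have hΔ : L.weierstrassP z - L.weierstrassP (s - z) ≠ 0 := sub_ne_zero.mpr h3
    have d5 := ((((d2.sub d4).pow 2).div (((d1.sub d3).pow 2).const_mul 4)
      (by simpa using hΔ)).sub d1).sub d3
    refine HasDerivAt.congr_deriv d5 ?_
    have e1 := L.derivWeierstrassP_sq z h1
    have e2 := L.derivWeierstrassP_sq (s - z) h2
    simp only [Pi.sub_apply, Pi.pow_apply, Nat.cast_ofNat, Nat.add_one_sub_one, pow_one]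
    field_simp
    linear_combination (-2 * (L.derivWeierstrassP z - L.derivWeierstrassP (s - z))) * (e1 - e2)
  set α : ℂ → ℂ := fun z => L.weierstrassPExcept 0 z - L.weierstrassP (s - z) with hα
  set β : ℂ → ℂ := fun z => L.derivWeierstrassPExcept 0 z - L.derivWeierstrassP (s - z) with hβ
  have aa := L.analyticAt_weierstrassPExcept 0
  have aα : AnalyticAt ℂ α 0 := aa.sub ax
  have aβ : AnalyticAt ℂ β 0 := (L.analyticAt_derivWeierstrassPExcept 0).sub ay
  set H : ℂ → ℂ := fun z => (z ^ 4 * β z ^ 2 - 4 * z * β z - 4 * z ^ 2 * α z ^ 2 - 8 * α z)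
    / (4 * (z ^ 2 * α z + 1) ^ 2) - L.weierstrassPExcept 0 z - L.weierstrassP (s - z) with hH
  have aH : AnalyticAt ℂ H 0 := by
    refine (AnalyticAt.sub (AnalyticAt.div (by fun_prop) (by fun_prop) (by simp)) aa).sub ax
  have hH0 : H 0 = L.weierstrassP s := by
    simp [hH, hα]
    ring
  have hhH : ∀ᶠ z in 𝓝[≠] 0, h z = H z := by
    filter_upwards [self_mem_nhdsWithin, hne] with z (hz : z ≠ 0) h3
    have hΔ : L.weierstrassP z - L.weierstrassP (s - z) ≠ 0 := sub_ne_zero.mpr h3
    have e1 : L.weierstrassP z - L.weierstrassP (s - z) = (z ^ 2 * α z + 1) / z ^ 2 := by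
      rw [P_eq L z, hα]; field_simp; ring
    have e2 : L.derivWeierstrassP z - L.derivWeierstrassP (s - z) = (z ^ 3 * β z - 2) / z ^ 3 := by
      rw [P'_eq L z, hβ]; field_simp; ring
    have e3 : z ^ 2 * α z + 1 ≠ 0 := by
      intro h0
      apply hΔ
      rw [e1, h0, zero_div]
    simp only [hh, hH]
    rw [e1, e2, P_eq L z]
    field_simp
    ring
  have hd' : ∀ᶠ z in 𝓝[≠] 0, deriv H z = 0 := by
    filter_upwards [hd, ev_ev hhH] with z h1 h2
    exact (h1.congr_of_eventuallyEq (EventuallyEq.symm h2)).deriv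
  have hd'' : ∀ᶠ z in 𝓝 0, deriv H z = 0 :=
    aH.deriv.frequently_zero_iff_eventually_zero.mp hd'.frequently
  obtain ⟨r, hr, hball⟩ := Metric.eventually_nhds_iff_ball.mp (hd''.and aH.eventually_analyticAt)
  have hc : ∀ z ∈ Metric.ball (0 : ℂ) r, H z = H 0 := fun z hz =>
    Metric.isOpen_ball.is_const_of_deriv_eq_zero (convex_ball _ _).isPreconnected
      (fun w hw => (hball w hw).2.differentiableAt.differentiableWithinAt)
      (fun w hw => (hball w hw).1) hz (Metric.mem_ball_self hr)
  filter_upwards [hhH, mem_nhdsWithin_of_mem_nhds (Metric.ball_mem_nhds 0 hr)] with z h1 h2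
  exact h1.trans ((hc z h2).trans hH0)

/-- The addition theorem. -/
theorem addition {z w : ℂ} (hz : z ∉ L.lattice) (hw : w ∉ L.lattice) (hs : z + w ∉ L.lattice) :
    4 * (L.weierstrassP z - L.weierstrassP w) ^ 2
        * (L.weierstrassP (z + w) + L.weierstrassP z + L.weierstrassP w)
      = (L.derivWeierstrassP z - L.derivWeierstrassP w) ^ 2 := by
  set s := z + w with hsdef
  set W : ℂ → ℂ := fun z => 4 * (L.weierstrassP z - L.weierstrassP (s - z)) ^ 2
      * (L.weierstrassP s + L.weierstrassP z + L.weierstrassP (s - z))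
      - (L.derivWeierstrassP z - L.derivWeierstrassP (s - z)) ^ 2 with hW
  set T : Set ℂ := (L.lattice : Set ℂ) ∪ (fun l => s - l) '' (L.lattice : Set ℂ) with hT
  have hTc : T.Countable := (countable_lattice L).union ((countable_lattice L).image _)
  have hmem : ∀ y, y ∈ Tᶜ ↔ y ∉ L.lattice ∧ s - y ∉ L.lattice := by
    intro y
    simp only [hT, mem_compl_iff, mem_union, mem_image, not_or, SetLike.mem_coe]
    refine and_congr_right fun _ => not_congr ⟨?_, fun h => ⟨s - y, h, by ring⟩⟩
    rintro ⟨l, hl, rfl⟩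
    simpa using hl
  have aW : AnalyticOnNhd ℂ W Tᶜ := by
    intro y hy
    obtain ⟨h1, h2⟩ := (hmem y).mp hy
    have a1 := anP L h1
    have a2 := anP' L h1
    have ax : AnalyticAt ℂ (fun z => L.weierstrassP (s - z)) y :=
      AnalyticAt.comp_of_eq (anP L h2) (f := fun z => s - z) (by fun_prop) rfl
    have ay : AnalyticAt ℂ (fun z => L.derivWeierstrassP (s - z)) y :=
      AnalyticAt.comp_of_eq (anP' L h2) (f := fun z => s - z) (by fun_prop) rfl
    fun_prop
  have ax : ContinuousAt (fun z => L.weierstrassP (s - z)) 0 :=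
    (AnalyticAt.comp_of_eq (anP L hs) (f := fun z => s - z) (by fun_prop) (by simp)).continuousAt
  have h0 : ∀ᶠ y in 𝓝[≠] 0, W y = 0 := by
    filter_upwards [addition_aux L s hs, ev_P_ne L ax] with y h1 h2
    have hΔ : L.weierstrassP y - L.weierstrassP (s - y) ≠ 0 := sub_ne_zero.mpr h2
    simp only [hW]
    rw [← h1]
    field_simp
    ring
  obtain ⟨y, hy1, hy2, hy3⟩ := ((ev_ev h0).and ((ev_notMem L 0).and (ev_sub_notMem L s 0))).exists
  have := aW.eqOn_zero_of_preconnected_of_eventuallyEq_zero (preconnected_compl hTc)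
    ((hmem y).mpr ⟨hy2, hy3⟩) hy1 ((hmem z).mpr ⟨hz, by simpa [hsdef] using hw⟩)
  simp only [hW, hsdef, add_sub_cancel_left, Pi.zero_apply] at this
  linear_combination this

lemma inj_both {z w : ℂ} (hz : z ∉ L.lattice) (hw : w ∉ L.lattice)
    (h1 : L.weierstrassP z = L.weierstrassP w)
    (h2 : L.derivWeierstrassP z = L.derivWeierstrassP w) : z - w ∈ L.lattice := by
  by_contra hne
  have hne' : w - z ∉ L.lattice := fun h => hne (by simpa using neg_mem h)
  have ax : AnalyticAt ℂ (fun e => L.weierstrassP (w - z + e)) 0 :=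
    AnalyticAt.comp_of_eq (anP L hne') (f := fun e => w - z + e) (by fun_prop) (by simp)
  have hnc : ∀ᶠ e in 𝓝[≠] 0, L.weierstrassP (-z + e) ≠ L.weierstrassP z := by
    have hz' : -z ∉ L.lattice := fun h => hz (by simpa using neg_mem h)
    have a1 : AnalyticAt ℂ (fun e => L.weierstrassP (-z + e)) 0 :=
      AnalyticAt.comp_of_eq (anP L hz') (f := fun e => -z + e) (by fun_prop) (by simp)
    rcases a1.eventually_eq_or_eventually_ne (g := fun _ => L.weierstrassP z) analyticAt_const
      with h | h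
    · exfalso
      have h3 : L.weierstrassP =ᶠ[𝓝 (-z)] fun _ => L.weierstrassP z := by
        have h4 : Tendsto (fun y => z + y) (𝓝 (-z)) (𝓝 0) := by
          have := (continuous_const_add z).tendsto (-z)
          simpa using this
        filter_upwards [h4.eventually h] with y hy
        simpa using hy
      have h5 := L.analyticOnNhd_weierstrassP.eqOn_of_preconnected_of_eventuallyEq
        analyticOnNhd_const (preconnected_compl (countable_lattice L)) hz' h3
      obtain ⟨y, hy1, hy2⟩ := ((ev_P_ne L (g := fun _ => L.weierstrassP z)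
        continuousAt_const).and (ev_notMem L 0)).exists
      exact hy1 (h5 hy2)
    · exact h
  obtain ⟨e, he1, he2, he3, he4, he5⟩ := ((ev_P_ne L ax.continuousAt).and (hnc.and
    ((ev_notMem L 0).and ((ev_add_notMem L (-z) 0).and (ev_add_notMem L (w - z) 0))))).exists
  have a1 := addition L hz he4 (by simpa using he3)
  have a2 := addition L hw he4 (by rwa [← add_assoc, ← sub_eq_add_neg])
  rw [← h1, ← h2, ← a1, ← add_assoc, ← add_assoc, add_neg_cancel, zero_add, ← sub_eq_add_neg] at a2
  have hΔ : 4 * (L.weierstrassP z - L.weierstrassP (-z + e)) ^ 2 ≠ 0 :=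
    mul_ne_zero (by norm_num) (pow_ne_zero _ (sub_ne_zero.mpr he2.symm))
  have := mul_left_cancel₀ hΔ a2
  exact he1 (by linear_combination -this)

lemma inj_P {z w : ℂ} (hz : z ∉ L.lattice) (hw : w ∉ L.lattice)
    (h1 : L.weierstrassP z = L.weierstrassP w) : z - w ∈ L.lattice ∨ z + w ∈ L.lattice := by
  have h2 : L.derivWeierstrassP z ^ 2 = L.derivWeierstrassP w ^ 2 := by
    rw [L.derivWeierstrassP_sq z hz, L.derivWeierstrassP_sq w hw, h1]
  rcases sq_eq_sq_iff_eq_or_eq_neg.mp h2 with h | h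
  · exact Or.inl (inj_both L hz hw h1 h)
  · right
    have hw' : -w ∉ L.lattice := fun h => hw (by simpa using neg_mem h)
    have := inj_both L hz hw' (by simpa using h1) (by simpa using h)
    simpa using this

lemma surj_P (c : ℂ) : ∃ z, z ∉ L.lattice ∧ L.weierstrassP z = c := by
  classical
  by_contra hcon
  push Not at hcon
  set g : ℂ → ℂ := fun z => if z ∈ L.lattice then 0 else (L.weierstrassP z - c)⁻¹ with hg
  have hper : ∀ z, ∀ l ∈ L.lattice, g (z + l) = g z := by
    intro z l hl
    have e : z + l ∈ L.lattice ↔ z ∈ L.lattice :=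
      L.lattice.toAddSubgroup.add_mem_cancel_right hl
    simp only [hg, e, L.weierstrassP_add_coe z ⟨l, hl⟩]
  have a0 : AnalyticAt ℂ g 0 := by
    have aa := L.analyticAt_weierstrassPExcept 0
    have a1 : AnalyticAt ℂ (fun z => z ^ 2 / (z ^ 2 * (L.weierstrassPExcept 0 z - c) + 1)) 0 :=
      AnalyticAt.div (by fun_prop) (by fun_prop) (by simp)
    refine a1.congr ?_
    filter_upwards [L.compl_lattice_sdiff_singleton_mem_nhds 0] with z hz
    by_cases hz0 : z = 0
    · simp [hz0, hg]
    · have hz' : z ∉ L.lattice := fun h => hz ⟨h, hz0⟩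
      simp only [hg, if_neg hz']
      have e1 : L.weierstrassP z - c = (z ^ 2 * (L.weierstrassPExcept 0 z - c) + 1) / z ^ 2 := by
        rw [P_eq L z]; field_simp; ring
      rw [e1, inv_div]
  have hd : Differentiable ℂ g := by
    intro x
    by_cases hx : x ∈ L.lattice
    · have a1 : AnalyticAt ℂ (fun z => g (z - x)) x :=
        AnalyticAt.comp_of_eq a0 (f := fun z => z - x) (by fun_prop) (by simp)
      have e : (fun z => g (z - x)) = g := by
        funext z
        rw [← hper (z - x) x hx, sub_add_cancel]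
      rw [e] at a1
      exact a1.differentiableAt
    · have a1 : AnalyticAt ℂ (fun z => (L.weierstrassP z - c)⁻¹) x :=
        AnalyticAt.inv ((anP L hx).sub analyticAt_const) (sub_ne_zero.mpr (hcon x hx))
      refine (a1.congr ?_).differentiableAt
      filter_upwards [L.isClosed_lattice.isOpen_compl.mem_nhds hx] with z hz
      simp only [hg]
      rw [if_neg (show z ∉ L.lattice from hz)]
  have := hd.apply_eq_apply_of_bounded (IsZLattice.isCompact_range_of_periodic L.lattice _
    hd.continuous hper).isBounded (L.ω₁ / 2) 0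
  simp only [hg, if_neg L.ω₁_div_two_notMem_lattice, zero_mem, if_true, inv_eq_zero] at this
  exact hcon _ L.ω₁_div_two_notMem_lattice (sub_eq_zero.mp this)

end Pool.Agent.Lib.MP_4a1067_nt
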