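import Mathlib
import Pool.Agent.Lib.MP_4a1067_nt.WP

/-! Legendre normalisation of the Weierstrass parametrisation and its addition formulas. -/

namespace Pool.Agent.Lib.MP_4a1067_nt

open Filter Topology Set

/-- Coordinates `(x, y)` on `ℂ / Λ` with `y ^ 2 = x (x - 1) (x - lam)`. -/
structure Leg (L : PeriodPair) (ω₁ ω₂ ω₃ : ℂ) where
  x : ℂ → ℂ
  y : ℂ → ℂ
  lam : ℂ
  a : ℂ
  b : ℂ
  x_def : ∀ z, x z = a * L.weierstrassP z + b
  x_per : ∀ z, ∀ l ∈ L.lattice, x (z + l) = x z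
  y_per : ∀ z, ∀ l ∈ L.lattice, y (z + l) = y z
  x_neg : ∀ z, x (-z) = x z
  y_neg : ∀ z, y (-z) = -y z
  curve : ∀ z ∉ L.lattice, y z ^ 2 = x z * (x z - 1) * (x z - lam)
  add : ∀ z ∉ L.lattice, ∀ w ∉ L.lattice, z + w ∉ L.lattice →
    (x z - x w) ^ 2 * (x (z + w) + x z + x w - (1 + lam)) = (y z - y w) ^ 2
  inj : ∀ z ∉ L.lattice, ∀ w ∉ L.lattice, x z = x w → z - w ∈ L.lattice ∨ z + w ∈ L.lattice
  surj : ∀ c, ∃ z, z ∉ L.lattice ∧ x z = c
  an_x : ∀ z ∉ L.lattice, AnalyticAt ℂ x z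
  an_y : ∀ z ∉ L.lattice, AnalyticAt ℂ y z
  x₁ : x ω₁ = 0
  x₂ : x ω₂ = 1
  x₃ : x ω₃ = lam
  lam0 : lam ≠ 0
  lam1 : lam ≠ 1

/-- three pairwise incongruent half periods -/
structure Half (L : PeriodPair) (ω₁ ω₂ ω₃ : ℂ) : Prop where
  n₁ : ω₁ ∉ L.lattice
  n₂ : ω₂ ∉ L.lattice
  n₃ : ω₃ ∉ L.lattice
  t₁ : ω₁ + ω₁ ∈ L.lattice
  t₂ : ω₂ + ω₂ ∈ L.lattice
  t₃ : ω₃ + ω₃ ∈ L.lattice
  d₁₂ : ω₁ - ω₂ ∉ L.lattice
  d₁₃ : ω₁ - ω₃ ∉ L.lattice
  d₂₃ : ω₂ - ω₃ ∉ L.lattice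

variable {L : PeriodPair} {ω₁ ω₂ ω₃ : ℂ}

lemma P'_half {ω : ℂ} (h : ω + ω ∈ L.lattice) : L.derivWeierstrassP ω = 0 := by
  have h1 := L.derivWeierstrassP_add_coe (-ω) ⟨_, h⟩
  simp only [neg_add_cancel_left, PeriodPair.derivWeierstrassP_neg] at h1
  linear_combination h1 / 2

lemma P_half_ne {ω ω' : ℂ} (n : ω ∉ L.lattice) (n' : ω' ∉ L.lattice) (t' : ω' + ω' ∈ L.lattice)
    (d : ω - ω' ∉ L.lattice) : L.weierstrassP ω ≠ L.weierstrassP ω' := by
  intro h
  rcases inj_P L n n' h with h1 | h1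
  · exact d h1
  · apply d
    have := sub_mem h1 t'
    rwa [show ω + ω' - (ω' + ω') = ω - ω' by ring] at this

lemma exists_leg (H : Half L ω₁ ω₂ ω₃) : ∃ E : Leg L ω₁ ω₂ ω₃,
    E.lam = (L.weierstrassP ω₃ - L.weierstrassP ω₁) / (L.weierstrassP ω₂ - L.weierstrassP ω₁) := by
  set e₁ := L.weierstrassP ω₁ with he₁
  set e₂ := L.weierstrassP ω₂ with he₂
  set e₃ := L.weierstrassP ω₃ with he₃
  have h12 : e₁ ≠ e₂ := P_half_ne H.n₁ H.n₂ H.t₂ H.d₁₂
  have h13 : e₁ ≠ e₃ := P_half_ne H.n₁ H.n₃ H.t₃ H.d₁₃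
  have h23 : e₂ ≠ e₃ := P_half_ne H.n₂ H.n₃ H.t₃ H.d₂₃
  have r1 := L.derivWeierstrassP_sq ω₁ H.n₁
  have r2 := L.derivWeierstrassP_sq ω₂ H.n₂
  have r3 := L.derivWeierstrassP_sq ω₃ H.n₃
  rw [P'_half H.t₁, ← he₁] at r1
  rw [P'_half H.t₂, ← he₂] at r2
  rw [P'_half H.t₃, ← he₃] at r3
  have q12 : L.g₂ = 4 * (e₁ ^ 2 + e₁ * e₂ + e₂ ^ 2) := by
    apply mul_left_cancel₀ (sub_ne_zero.mpr h12)
    linear_combination r1 - r2
  have q13 : L.g₂ = 4 * (e₁ ^ 2 + e₁ * e₃ + e₃ ^ 2) := by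
    apply mul_left_cancel₀ (sub_ne_zero.mpr h13)
    linear_combination r1 - r3
  have hs : e₃ = -e₁ - e₂ := by
    apply mul_left_cancel₀ (sub_ne_zero.mpr h23)
    linear_combination (q13 - q12) / 4
  have hg3 : L.g₃ = 4 * e₁ * e₂ * e₃ := by
    rw [hs]
    linear_combination r1 - e₁ * q12
  obtain ⟨δ, hδ⟩ := IsAlgClosed.exists_pow_nat_eq (e₂ - e₁) (n := 2) (by norm_num)
  have hd : e₂ - e₁ ≠ 0 := sub_ne_zero.mpr h12.symm
  have hδ0 : δ ≠ 0 := by
    rintro rfl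
    apply hd
    rw [← hδ]; simp
  have he2 : e₂ = e₁ + δ ^ 2 := by linear_combination -hδ
  refine ⟨⟨fun z => (e₂ - e₁)⁻¹ * L.weierstrassP z + -e₁ / (e₂ - e₁),
    fun z => L.derivWeierstrassP z / (2 * δ ^ 3), (e₃ - e₁) / (e₂ - e₁), (e₂ - e₁)⁻¹,
    -e₁ / (e₂ - e₁), fun _ => rfl, ?_, ?_, ?_, ?_, ?_, ?_, ?_, ?_, ?_, ?_, ?_, ?_, ?_, ?_, ?_⟩, rfl⟩
  · intro z l hl
    simp only [L.weierstrassP_add_coe z ⟨l, hl⟩]
  · intro z l hl
    simp only [L.derivWeierstrassP_add_coe z ⟨l, hl⟩]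
  · intro z; simp
  · intro z; simp [neg_div]
  · intro z hz
    have := L.derivWeierstrassP_sq z hz
    rw [div_pow, this, q12, hg3, hs, ← hδ, he2]
    field_simp
    ring
  · intro z hz w hw hzw
    have := addition L hz hw hzw
    rw [← sub_div, div_pow, ← this, hs, ← hδ, he2]
    field_simp
    ring
  · intro z hz w hw h
    refine inj_P L hz hw ?_
    have := add_right_cancel h
    exact mul_left_cancel₀ (inv_ne_zero hd) this
  · intro c
    obtain ⟨z, hz, hc⟩ := surj_P L (e₁ + (e₂ - e₁) * c)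
    refine ⟨z, hz, ?_⟩
    rw [hc]; field_simp; ring
  · intro z hz
    have := anP L hz
    fun_prop
  · intro z hz
    have := anP' L hz
    fun_prop
  · rw [← he₁]; field_simp; ring
  · rw [← he₂]; field_simp; ring
  · rw [← he₃]; field_simp; ring
  · exact div_ne_zero (sub_ne_zero.mpr h13.symm) hd
  · intro h
    rw [div_eq_one_iff_eq hd] at h
    exact h23 (by linear_combination -h)

namespace Leg
variable (E : Leg L ω₁ ω₂ ω₃)

lemma x_congr {z w : ℂ} (h : z - w ∈ L.lattice) : E.x z = E.x w := by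
  rw [← E.x_per w _ h, add_sub_cancel]

lemma y_congr {z w : ℂ} (h : z - w ∈ L.lattice) : E.y z = E.y w := by
  rw [← E.y_per w _ h, add_sub_cancel]

lemma x_congr' {z w : ℂ} (h : z + w ∈ L.lattice) : E.x z = E.x w := by
  rw [← E.x_neg w]; exact E.x_congr (by simpa using h)

lemma y_congr' {z w : ℂ} (h : z + w ∈ L.lattice) : E.y z = -E.y w := by
  rw [← E.y_neg w]; exact E.y_congr (by simpa using h)

/-- numerator of the symmetric addition formula -/
def NN (s t : ℂ) : ℂ := s * t ^ 2 + s ^ 2 * t - 2 * (1 + E.lam) * s * t + E.lam * (s + t)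

lemma add_x {z w : ℂ} (hz : z ∉ L.lattice) (hw : w ∉ L.lattice) (h : z + w ∉ L.lattice) :
    E.x (z + w) * (E.x z - E.x w) ^ 2 = E.NN (E.x z) (E.x w) - 2 * E.y z * E.y w := by
  have h1 := E.add z hz w hw h
  have h2 := E.curve z hz
  have h3 := E.curve w hw
  unfold NN
  linear_combination h1 + h2 + h3

lemma sub_x {z w : ℂ} (hz : z ∉ L.lattice) (hw : w ∉ L.lattice) (h : z - w ∉ L.lattice) :
    E.x (z - w) * (E.x z - E.x w) ^ 2 = E.NN (E.x z) (E.x w) + 2 * E.y z * E.y w := by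
  have hw' : -w ∉ L.lattice := fun h => hw (by simpa using neg_mem h)
  have := E.add_x hz hw' (by rwa [← sub_eq_add_neg])
  rw [E.x_neg, E.y_neg, ← sub_eq_add_neg] at this
  linear_combination this

lemma sum_x {z w : ℂ} (hz : z ∉ L.lattice) (hw : w ∉ L.lattice) (h : z + w ∉ L.lattice)
    (h' : z - w ∉ L.lattice) :
    (E.x (z + w) + E.x (z - w)) * (E.x z - E.x w) ^ 2 = 2 * E.NN (E.x z) (E.x w) := by
  linear_combination E.add_x hz hw h + E.sub_x hz hw h'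

lemma x_ne {z w : ℂ} (hz : z ∉ L.lattice) (hw : w ∉ L.lattice) (h : z + w ∉ L.lattice)
    (h' : z - w ∉ L.lattice) : E.x z - E.x w ≠ 0 := by
  intro h0
  rcases E.inj z hz w hw (sub_eq_zero.mp h0) with h1 | h1
  · exact h' h1
  · exact h h1

lemma prod_x {z w : ℂ} (hz : z ∉ L.lattice) (hw : w ∉ L.lattice) (h : z + w ∉ L.lattice)
    (h' : z - w ∉ L.lattice) :
    E.x (z + w) * E.x (z - w) * (E.x z - E.x w) ^ 2 = (E.x z * E.x w - E.lam) ^ 2 := by
  apply mul_right_cancel₀ (pow_ne_zero 2 (E.x_ne hz hw h h'))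
  have h1 := E.add_x hz hw h
  have h2 := E.sub_x hz hw h'
  have h3 := E.curve z hz
  have h4 := E.curve w hw
  have h5 : E.x (z + w) * E.x (z - w) * (E.x z - E.x w) ^ 2 * (E.x z - E.x w) ^ 2
      = E.NN (E.x z) (E.x w) ^ 2 - 4 * E.y z ^ 2 * E.y w ^ 2 := by
    linear_combination (E.x (z - w) * (E.x z - E.x w) ^ 2) * h1
      + (E.NN (E.x z) (E.x w) - 2 * E.y z * E.y w) * h2
  rw [h5, h3, h4]
  unfold NN
  ring

lemma y_half {ω : ℂ} (h : ω + ω ∈ L.lattice) : E.y ω = 0 := by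
  have := E.y_congr' h
  linear_combination this / 2

lemma x_eq_zero_iff (H : Half L ω₁ ω₂ ω₃) {z : ℂ} (hz : z ∉ L.lattice) :
    E.x z = 0 ↔ z + ω₁ ∈ L.lattice := by
  constructor
  · intro h
    rcases E.inj z hz ω₁ H.n₁ (h.trans E.x₁.symm) with h1 | h1
    · have := add_mem h1 H.t₁
      rwa [show z - ω₁ + (ω₁ + ω₁) = z + ω₁ by ring] at this
    · exact h1
  · intro h
    rw [E.x_congr' h, E.x₁]

/-- the coordinate `1 / x`, regular at the lattice points -/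
noncomputable def u (z : ℂ) : ℂ := E.x (z + ω₁) / E.lam

lemma u_mul_x (H : Half L ω₁ ω₂ ω₃) {z : ℂ} (hz : z ∉ L.lattice) (h : z + ω₁ ∉ L.lattice) :
    E.u z * E.x z = 1 := by
  have h1 := E.add_x hz H.n₁ h
  rw [E.x₁, E.y_half H.t₁] at h1
  have h2 : E.x z ≠ 0 := fun h0 => h ((E.x_eq_zero_iff H hz).mp h0)
  unfold u
  unfold NN at h1
  have := E.lam0
  field_simp
  apply mul_right_cancel₀ h2
  linear_combination h1

lemma u_lattice {z : ℂ} (hz : z ∈ L.lattice) : E.u z = 0 := by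
  unfold u
  rw [add_comm, E.x_per _ _ hz, E.x₁, zero_div]

lemma u_congr {z w : ℂ} (h : z - w ∈ L.lattice) : E.u z = E.u w := by
  unfold u
  rw [E.x_congr (z := z + ω₁) (w := w + ω₁) (by simpa using h)]

lemma u_congr' (H : Half L ω₁ ω₂ ω₃) {z w : ℂ} (h : z + w ∈ L.lattice) : E.u z = E.u w := by
  unfold u
  rw [E.x_congr' (z := z + ω₁) (w := w + ω₁) (by
    have := add_mem h H.t₁
    rwa [show z + w + (ω₁ + ω₁) = z + ω₁ + (w + ω₁) by ring] at this)]

lemma cont_u {z : ℂ} (h : z + ω₁ ∉ L.lattice) : ContinuousAt E.u z := by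
  have h1 : ContinuousAt (fun w => E.x (w + ω₁)) z :=
    ContinuousAt.comp_of_eq (E.an_x _ h).continuousAt (f := fun w => w + ω₁) (by fun_prop) rfl
  exact h1.div_const _

/-- symmetric addition formulas in the coordinate `u` -/
def UU (z w : ℂ) : Prop :=
  (E.u (z + w) + E.u (z - w)) * (1 - E.lam * E.u z * E.u w) ^ 2
      = 2 * (E.u z + E.u w - 2 * (1 + E.lam) * E.u z * E.u w
        + E.lam * E.u z * E.u w * (E.u z + E.u w)) ∧
    E.u (z + w) * E.u (z - w) * (1 - E.lam * E.u z * E.u w) ^ 2 = (E.u z - E.u w) ^ 2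

lemma uu_generic (H : Half L ω₁ ω₂ ω₃) {z w : ℂ} (hz : z ∉ L.lattice) (hw : w ∉ L.lattice)
    (h : z + w ∉ L.lattice) (h' : z - w ∉ L.lattice) (k1 : z + ω₁ ∉ L.lattice)
    (k2 : w + ω₁ ∉ L.lattice) (k3 : z + w + ω₁ ∉ L.lattice) (k4 : z - w + ω₁ ∉ L.lattice) :
    E.UU z w := by
  have e1 := eq_inv_of_mul_eq_one_left (E.u_mul_x H hz k1)
  have e2 := eq_inv_of_mul_eq_one_left (E.u_mul_x H hw k2)
  have e3 := eq_inv_of_mul_eq_one_left (E.u_mul_x H h k3)
  have e4 := eq_inv_of_mul_eq_one_left (E.u_mul_x H h' k4)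
  have n1 : E.x z ≠ 0 := fun h0 => k1 ((E.x_eq_zero_iff H hz).mp h0)
  have n2 : E.x w ≠ 0 := fun h0 => k2 ((E.x_eq_zero_iff H hw).mp h0)
  have n3 : E.x (z + w) ≠ 0 := fun h0 => k3 ((E.x_eq_zero_iff H h).mp h0)
  have n4 : E.x (z - w) ≠ 0 := fun h0 => k4 ((E.x_eq_zero_iff H h').mp h0)
  have s1 := E.sum_x hz hw h h'
  have s2 := E.prod_x hz hw h h'
  unfold NN at s1
  unfold UU
  rw [e1, e2, e3, e4]
  constructor
  · field_simp
    linear_combination (E.x (z + w) * E.x (z - w)) * s1 - (E.x (z + w) + E.x (z - w)) * s2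
  · field_simp
    linear_combination -s2

lemma uu_double (H : Half L ω₁ ω₂ ω₃) {z : ℂ} (hz : z ∉ L.lattice) (k1 : z + ω₁ ∉ L.lattice)
    (k3 : z + z + ω₁ ∉ L.lattice) : E.UU z z := by
  have hev : ∀ᶠ w in 𝓝[≠] z, E.UU z w := by
    filter_upwards [ev_notMem L z, ev_add_notMem L z z, ev_sub_notMem L z z,
      ev_add_notMem L ω₁ z, ev_add_notMem L (z + ω₁) z, ev_sub_notMem L (z + ω₁) z]
      with w h1 h2 h3 h4 h5 h6
    exact E.uu_generic H hz h1 h2 h3 k1 (by rwa [add_comm]) (by rwa [add_right_comm])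
      (by rwa [sub_add_eq_add_sub])
  have c1 : ContinuousAt E.u z := E.cont_u k1
  have c2 : ContinuousAt (fun w => E.u (z + w)) z :=
    ContinuousAt.comp_of_eq (E.cont_u k3) (f := fun w => z + w) (by fun_prop) rfl
  have c3 : ContinuousAt (fun w => E.u (z - w)) z :=
    ContinuousAt.comp_of_eq (E.cont_u (z := z - z) (by simpa using H.n₁)) (f := fun w => z - w)
      (by fun_prop) rfl
  constructor
  · refine tendsto_nhds_unique_of_eventuallyEq (l := 𝓝[≠] z)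
      (ContinuousAt.tendsto (f := fun w => (E.u (z + w) + E.u (z - w))
        * (1 - E.lam * E.u z * E.u w) ^ 2) (by fun_prop) |>.mono_left nhdsWithin_le_nhds)
      (ContinuousAt.tendsto (f := fun w => 2 * (E.u z + E.u w - 2 * (1 + E.lam) * E.u z * E.u w
        + E.lam * E.u z * E.u w * (E.u z + E.u w))) (by fun_prop) |>.mono_left nhdsWithin_le_nhds)
      (hev.mono fun w hw => hw.1)
  · refine tendsto_nhds_unique_of_eventuallyEq (l := 𝓝[≠] z)
      (ContinuousAt.tendsto (f := fun w => E.u (z + w) * E.u (z - w)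
        * (1 - E.lam * E.u z * E.u w) ^ 2) (by fun_prop) |>.mono_left nhdsWithin_le_nhds)
      (ContinuousAt.tendsto (f := fun w => (E.u z - E.u w) ^ 2) (by fun_prop)
        |>.mono_left nhdsWithin_le_nhds)
      (hev.mono fun w hw => hw.2)

lemma uu_of (H : Half L ω₁ ω₂ ω₃) {z w : ℂ} (k1 : z + ω₁ ∉ L.lattice) (k2 : w + ω₁ ∉ L.lattice)
    (k3 : z + w + ω₁ ∉ L.lattice) (k4 : z - w + ω₁ ∉ L.lattice) : E.UU z w := by
  by_cases hz : z ∈ L.lattice
  · unfold UU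
    rw [E.u_lattice hz, E.u_congr (z := z + w) (w := w) (by simpa using hz),
      E.u_congr' H (z := z - w) (w := w) (by simpa using hz)]
    constructor <;> ring
  by_cases hw : w ∈ L.lattice
  · unfold UU
    rw [E.u_lattice hw, E.u_congr (z := z + w) (w := z) (by simpa using hw),
      E.u_congr (z := z - w) (w := z) (by simpa using hw)]
    constructor <;> ring
  by_cases h' : z - w ∈ L.lattice
  · have k5 : z + z + ω₁ ∉ L.lattice := by
      intro h0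
      apply k3
      have := sub_mem h0 h'
      rwa [show z + z + ω₁ - (z - w) = z + w + ω₁ by ring] at this
    have := E.uu_double H hz k1 k5
    unfold UU at this ⊢
    rw [← E.u_congr h', E.u_congr (z := z + w) (w := z + z) (by simpa using neg_mem h'),
      E.u_congr (z := z - w) (w := z - z) (by simpa using h')]
    exact this
  by_cases h : z + w ∈ L.lattice
  · have k5 : z + z + ω₁ ∉ L.lattice := by
      intro h0
      apply k4
      have := sub_mem h0 h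
      rwa [show z + z + ω₁ - (z + w) = z - w + ω₁ by ring] at this
    have := E.uu_double H hz k1 k5
    unfold UU at this ⊢
    rw [← E.u_congr' H h, E.u_congr (z := z + w) (w := z - z) (by simpa using h),
      E.u_congr (z := z - w) (w := z + z) (by
        have := neg_mem h
        rwa [show -(z + w) = z - w - (z + z) by ring] at this)]
    constructor
    · linear_combination this.1
    · linear_combination this.2
  exact E.uu_generic H hz hw h h' k1 k2 k3 k4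

lemma not_half_add (H : Half L ω₁ ω₂ ω₃) {z w : ℂ} (k1 : z + ω₁ ∉ L.lattice)
    (k2 : w + ω₁ ∉ L.lattice) (h : 1 - E.lam * E.u z * E.u w ≠ 0) : z + w + ω₁ ∉ L.lattice := by
  intro h0
  have hw : w ∉ L.lattice := by
    intro hw
    apply k1
    have := sub_mem h0 hw
    rwa [show z + w + ω₁ - w = z + ω₁ by ring] at this
  apply h
  have e1 : E.lam * E.u z = E.x w := by
    unfold u
    rw [mul_div_cancel₀ _ E.lam0]
    exact E.x_congr' (by rwa [add_right_comm])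
  rw [e1]
  linear_combination -E.u_mul_x H hw k2

lemma uu_main (H : Half L ω₁ ω₂ ω₃) {z w : ℂ} (k1 : z + ω₁ ∉ L.lattice) (k2 : w + ω₁ ∉ L.lattice)
    (h : 1 - E.lam * E.u z * E.u w ≠ 0) :
    z + w + ω₁ ∉ L.lattice ∧ z - w + ω₁ ∉ L.lattice ∧ E.UU z w := by
  have k3 := E.not_half_add H k1 k2 h
  have k2' : -w + ω₁ ∉ L.lattice := by
    intro h0
    apply k2
    have := sub_mem H.t₁ h0
    rwa [show ω₁ + ω₁ - (-w + ω₁) = w + ω₁ by ring] at this
  have k4 := E.not_half_add H k1 k2' (by rwa [E.u_congr' H (z := -w) (w := w) (by simp)])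
  rw [← sub_eq_add_neg] at k4
  exact ⟨k3, k4, E.uu_of H k1 k2 k3 k4⟩

end Leg

end Pool.Agent.Lib.MP_4a1067_nt
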