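import Mathlib
import Pool.Agent.Lib.MP_4a1067_nt.Leg

/-! Product formulas for an endomorphism `π` of `ℂ / Λ` with cyclic kernel of odd order. -/

namespace Pool.Agent.Lib.MP_4a1067_nt

open Filter Topology Set Polynomial

/-- `π` is an endomorphism of `ℂ / Λ` whose kernel is cyclic of order `p`, generated by `Q` -/
structure Endo (L : PeriodPair) (π Q : ℂ) (p : ℕ) : Prop where
  ne : π ≠ 0
  pos : 0 < p
  mem : ∀ m ∈ L.lattice, π * m ∈ L.lattice
  memQ : π * Q ∈ L.lattice
  ord : ∀ k : ℤ, (k : ℂ) * Q ∈ L.lattice ↔ (p : ℤ) ∣ k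
  gen : ∀ l ∈ L.lattice, ∃ k : ℤ, ∃ m ∈ L.lattice, l = π * (m - k * Q)

variable {L : PeriodPair} {π Q : ℂ} {p : ℕ}

lemma int_mul_mem {l : ℂ} (hl : l ∈ L.lattice) (k : ℤ) : (k : ℂ) * l ∈ L.lattice := by
  have := L.lattice.smul_mem k hl
  rwa [zsmul_eq_mul] at this

lemma nat_mul_mem {l : ℂ} (hl : l ∈ L.lattice) (k : ℕ) : (k : ℂ) * l ∈ L.lattice := by
  have := int_mul_mem hl k
  rwa [Int.cast_natCast] at this

lemma Endo.notMem (h : Endo L π Q p) {z : ℂ} (hz : π * z ∉ L.lattice) (k : ℤ) :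
    z + k * Q ∉ L.lattice := by
  intro h0
  apply hz
  have := sub_mem (h.mem _ h0) (int_mul_mem h.memQ k)
  rwa [show π * (z + k * Q) - k * (π * Q) = π * z by ring] at this

lemma Endo.notMem_nat (h : Endo L π Q p) {z : ℂ} (hz : π * z ∉ L.lattice) (k : ℕ) :
    z + k * Q ∉ L.lattice := by
  have := h.notMem hz k
  rwa [Int.cast_natCast] at this

lemma Endo.notMem_zero (h : Endo L π Q p) {z : ℂ} (hz : π * z ∉ L.lattice) : z ∉ L.lattice :=
  fun h0 => hz (h.mem z h0)

lemma Endo.pQ (h : Endo L π Q p) : (p : ℂ) * Q ∈ L.lattice := by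
  have := (h.ord p).mpr dvd_rfl
  rwa [Int.cast_natCast] at this

lemma velu (h : Endo L π Q p) (z : ℂ) :
    π ^ 2 * L.weierstrassP (π * z)
      = ∑ k ∈ Finset.range p, (L.weierstrassP (z + k * Q) - L.weierstrassP (k * Q)) := by
  let f : Fin p × L.lattice → L.lattice := fun km =>
    ⟨π * (km.2 - (km.1 : ℕ) * Q), by
      have := sub_mem (h.mem _ km.2.2) (nat_mul_mem h.memQ km.1)
      rwa [show π * km.2 - (km.1 : ℕ) * (π * Q) = π * (km.2 - (km.1 : ℕ) * Q) by ring] at this⟩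
  have hf : Function.Bijective f := by
    constructor
    · rintro ⟨k, m⟩ ⟨k', m'⟩ hk
      have e1 : (m : ℂ) - (k : ℕ) * Q = m' - (k' : ℕ) * Q :=
        mul_left_cancel₀ h.ne (congrArg Subtype.val hk)
      have e2 : (((k : ℕ) - (k' : ℕ) : ℤ) : ℂ) * Q ∈ L.lattice := by
        have := sub_mem m.2 m'.2
        rw [show (m : ℂ) - m' = (((k : ℕ) - (k' : ℕ) : ℤ) : ℂ) * Q by
          push_cast; linear_combination e1] at this
        exact this
      have e3 := (h.ord _).mp e2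
      have e4 : ((k : ℕ) - (k' : ℕ) : ℤ) = 0 :=
        Int.eq_zero_of_abs_lt_dvd e3 (by have := k.2; have := k'.2; rw [abs_lt]; omega)
      have e5 : k = k' := Fin.ext (by omega)
      subst e5
      exact Prod.ext rfl (Subtype.ext (by linear_combination e1))
    · rintro ⟨l, hl⟩
      obtain ⟨k, m, hm, rfl⟩ := h.gen l hl
      have hp : (0 : ℤ) < p := by exact_mod_cast h.pos
      have h1 := Int.emod_nonneg k hp.ne'
      have h2 := Int.emod_lt_of_pos k hp
      refine ⟨(⟨(k % p).toNat, by omega⟩, ⟨m - (k / p : ℤ) * (p * Q),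
        sub_mem hm (int_mul_mem h.pQ _)⟩), Subtype.ext ?_⟩
      have h3 : (((k % p).toNat : ℕ) : ℂ) = ((k % p : ℤ) : ℂ) := by
        rw [← Int.cast_natCast, Int.toNat_of_nonneg h1]
      have h4 : (k : ℂ) = p * ((k / p : ℤ) : ℂ) + ((k % p : ℤ) : ℂ) := by
        exact_mod_cast (Int.mul_ediv_add_emod k p).symm
      simp only [f, h3]
      rw [h4]
      ring
  have s1 := ((Equiv.ofBijective f hf).hasSum_iff.mpr (L.hasSum_weierstrassP (π * z))).mul_left
    (π ^ 2)
  have s2 := s1.prod_fiberwise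
    (g := fun k : Fin p => L.weierstrassP (z + (k : ℕ) * Q) - L.weierstrassP ((k : ℕ) * Q))
    (fun k => by
      refine ((L.hasSum_weierstrassP (z + (k : ℕ) * Q)).sub
        (L.hasSum_weierstrassP ((k : ℕ) * Q))).congr_fun (fun m => ?_)
      simp only [Function.comp, Equiv.ofBijective_apply, f]
      have := h.ne
      rw [← mul_sub, mul_pow, mul_pow, mul_sub,
        show z - (m - (k : ℕ) * Q) = z + (k : ℕ) * Q - m by ring,
        show ((m : ℂ) - (k : ℕ) * Q) ^ 2 = ((k : ℕ) * Q - m) ^ 2 by ring]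
      simp only [one_div, mul_inv]
      rw [mul_inv_cancel_left₀ (pow_ne_zero 2 this), mul_inv_cancel_left₀ (pow_ne_zero 2 this)]
      ring)
  rw [s2.unique (hasSum_fintype _), Finset.sum_range]

lemma sum_range_odd (f : ℕ → ℂ) (h : ℕ) : ∑ k ∈ Finset.range (2 * h + 1), f k
    = f 0 + ∑ k ∈ Finset.range h, (f (k + 1) + f (2 * h - k)) := by
  rw [Finset.sum_range_succ', two_mul, Finset.sum_range_add, Finset.sum_add_distrib,
    ← Finset.sum_range_reflect (fun x => f (h + x + 1)) h, add_comm]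
  congr 2
  refine Finset.sum_congr rfl fun k hk => ?_
  have := Finset.mem_range.mp hk
  congr 1
  omega

lemma prod_range_odd (f : ℕ → ℂ) (h : ℕ) : ∏ k ∈ Finset.range (2 * h + 1), f k
    = f 0 * ∏ k ∈ Finset.range h, (f (k + 1) * f (2 * h - k)) := by
  rw [Finset.prod_range_succ', two_mul, Finset.prod_range_add, Finset.prod_mul_distrib,
    ← Finset.prod_range_reflect (fun x => f (h + x + 1)) h, mul_comm]
  congr 2
  refine Finset.prod_congr rfl fun k hk => ?_
  have := Finset.mem_range.mp hk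
  congr 1
  omega

lemma exists_num (N : ℕ → ℂ[X]) (hN : ∀ k, (N k).natDegree ≤ 2) (s : ℕ → ℂ) (h : ℕ) :
    ∃ B : ℂ[X], B.natDegree ≤ 2 * h ∧ ∀ (T : ℂ) (S : ℕ → ℂ),
      (∀ k < h, S k * (T - s k) ^ 2 = (N k).eval T) →
      (∑ k ∈ Finset.range h, S k) * (∏ k ∈ Finset.range h, (T - s k)) ^ 2 = B.eval T := by
  induction h with
  | zero => exact ⟨0, by simp, by simp⟩
  | succ h ih =>
    obtain ⟨B, hB, hB'⟩ := ih
    refine ⟨B * (X - C (s h)) ^ 2 + N h * (∏ k ∈ Finset.range h, (X - C (s k))) ^ 2, ?_, ?_⟩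
    · refine (natDegree_add_le _ _).trans (max_le ?_ ?_)
      · refine natDegree_mul_le.trans ?_
        rw [natDegree_pow, natDegree_X_sub_C]; omega
      · refine natDegree_mul_le.trans ?_
        rw [natDegree_pow, natDegree_finsetProd_X_sub_C_eq_card, Finset.card_range]
        have := hN h
        omega
    · intro T S hS
      have h1 := hB' T S (fun k hk => hS k (by omega))
      have h2 := hS h (by omega)
      rw [Finset.sum_range_succ, Finset.prod_range_succ]
      simp only [eval_add, eval_mul, eval_pow, eval_sub, eval_X, eval_C, eval_prod]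
      rw [← h1, ← h2]
      ring

lemma ev_mul_notMem {a : ℂ} (ha : a ≠ 0) (c : ℂ) : ∀ᶠ w in 𝓝[≠] c, a * w ∉ L.lattice := by
  have h1 : Tendsto (fun h => a * h) (𝓝[≠] c) (𝓝[≠] (a * c)) := by
    refine tendsto_nhdsWithin_iff.mpr ⟨?_, ?_⟩
    · exact ((continuous_const_mul a).tendsto c).mono_left nhdsWithin_le_nhds
    · filter_upwards [self_mem_nhdsWithin] with h hh
      intro h0
      exact hh (mul_left_cancel₀ ha h0)
  exact h1.eventually (ev_notMem L (a * c))

namespace Leg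
variable {ω₁ ω₂ ω₃ : ℂ} (E : Leg L ω₁ ω₂ ω₃) {h : ℕ}

/-- product of `T - x (ω + k Q)` over half of the nonzero points of the kernel -/
noncomputable def FF (Q : ℂ) (h : ℕ) (ω T : ℂ) : ℂ :=
  ∏ k ∈ Finset.range h, (T - E.x (ω + ((k + 1 : ℕ) : ℂ) * Q))

lemma kQ_notMem (hE : Endo L π Q (2 * h + 1)) {k : ℕ} (hk : k < h) :
    ((k + 1 : ℕ) : ℂ) * Q ∉ L.lattice := by
  intro h0
  have := (hE.ord (k + 1 : ℕ)).mp (by rwa [Int.cast_natCast])
  have := Int.le_of_dvd (by omega) this
  omega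

lemma x_refl (hE : Endo L π Q (2 * h + 1)) (z : ℂ) {k : ℕ} (hk : k < h) :
    E.x (z + ((2 * h - k : ℕ) : ℂ) * Q) = E.x (z - ((k + 1 : ℕ) : ℂ) * Q) := by
  apply E.x_congr
  have := hE.pQ
  rw [Nat.cast_sub (by omega)]
  convert this using 1
  push_cast
  ring

lemma exists_poly (hE : Endo L π Q (2 * h + 1)) : ∃ A : ℂ[X], A.Monic ∧ A.natDegree = 2 * h + 1 ∧
    ∀ z, π * z ∉ L.lattice → π ^ 2 * E.x (π * z) * E.FF Q h 0 (E.x z) ^ 2 = A.eval (E.x z) := by
  set s : ℕ → ℂ := fun k => E.x (0 + ((k + 1 : ℕ) : ℂ) * Q) with hs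
  obtain ⟨B, hB, hB'⟩ := exists_num (fun k => C (2 * s k - 0) * X ^ 2
    + C (2 * (s k ^ 2 - 2 * (1 + E.lam) * s k + E.lam)) * X + C (2 * E.lam * s k))
    (fun k => natDegree_quadratic_le) s h
  set c : ℂ := π ^ 2 * E.b - ∑ k ∈ Finset.range (2 * h + 1), E.x (k * Q) with hc
  set D : ℂ[X] := ∏ k ∈ Finset.range h, (X - C (s k)) with hD
  have hDm : D.Monic := monic_prod_X_sub_C _ _
  have hDd : D.natDegree = h := by
    rw [hD, natDegree_finsetProd_X_sub_C_eq_card, Finset.card_range]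
  have hm : ((X + C c) * D ^ 2).Monic := (monic_X_add_C c).mul (hDm.pow 2)
  have hd : ((X + C c) * D ^ 2).natDegree = 2 * h + 1 := by
    rw [(monic_X_add_C c).natDegree_mul (hDm.pow 2), hDm.natDegree_pow, hDd, natDegree_X_add_C,
      add_comm]
  have hlt : B.natDegree < ((X + C c) * D ^ 2).natDegree := by omega
  refine ⟨(X + C c) * D ^ 2 + B, hm.add_of_left (degree_lt_degree hlt),
    by rw [natDegree_add_eq_left_of_natDegree_lt hlt, hd], ?_⟩
  intro z hz
  have v1 : π ^ 2 * E.x (π * z) = ∑ k ∈ Finset.range (2 * h + 1), E.x (z + k * Q) + c := by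
    rw [hc, E.x_def, mul_add, mul_left_comm, velu hE z, Finset.mul_sum, add_sub_left_comm,
      ← Finset.sum_sub_distrib, add_comm]
    congr 1
    refine Finset.sum_congr rfl fun k _ => ?_
    rw [E.x_def, E.x_def]; ring
  have v2 := hB' (E.x z)
    (fun k => E.x (z + ((k + 1 : ℕ) : ℂ) * Q) + E.x (z + ((2 * h - k : ℕ) : ℂ) * Q)) (by
      intro k hk
      have n1 := hE.notMem hz (-(k + 1 : ℕ))
      rw [Int.cast_neg, Int.cast_natCast, neg_mul, ← sub_eq_add_neg] at n1
      have := E.sum_x (hE.notMem_zero hz) (kQ_notMem hE hk) (hE.notMem_nat hz (k + 1)) n1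
      rw [E.x_refl hE z hk]
      simp only [hs, zero_add, eval_add, eval_mul, eval_C, eval_pow, eval_X]
      rw [this]
      unfold NN
      ring)
  rw [v1, sum_range_odd (fun k => E.x (z + k * Q)) h]
  simp only [eval_add, eval_mul, eval_pow, eval_X, eval_C, hD, eval_prod, eval_sub]
  rw [← v2]
  simp only [FF, hs, Nat.cast_zero, zero_mul, add_zero]
  ring

lemma prod_formula (hE : Endo L π Q (2 * h + 1)) {z w : ℂ} (hz : π * z ∉ L.lattice)
    (hw : 2 * π * w ∉ L.lattice) :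
    (E.x (π * z) - E.x (π * w)) * (π * E.FF Q h 0 (E.x z)) ^ 2
      = ∏ k ∈ Finset.range (2 * h + 1), (E.x z - E.x (w + k * Q)) := by
  obtain ⟨A, hA, hAd, hAe⟩ := E.exists_poly hE
  have hw' : π * w ∉ L.lattice := by
    intro h0
    apply hw
    have := add_mem h0 h0
    rwa [show π * w + π * w = 2 * π * w by ring] at this
  set D : ℂ[X] := ∏ k ∈ Finset.range h, (X - C (E.x (0 + ((k + 1 : ℕ) : ℂ) * Q))) with hD
  have hDe : ∀ T, D.eval T = E.FF Q h 0 T := by
    intro T
    simp only [hD, FF, eval_prod, eval_sub, eval_X, eval_C]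
  have hDd : D.natDegree = h := by
    rw [hD, natDegree_finsetProd_X_sub_C_eq_card, Finset.card_range]
  have hlt : (C (π ^ 2 * E.x (π * w)) * D ^ 2).natDegree < A.natDegree := by
    refine lt_of_le_of_lt (natDegree_C_mul_le _ _) (lt_of_le_of_lt natDegree_pow_le ?_)
    omega
  have hM : (A - C (π ^ 2 * E.x (π * w)) * D ^ 2).Monic := hA.sub_of_left (degree_lt_degree hlt)
  have hMd : (A - C (π ^ 2 * E.x (π * w)) * D ^ 2).natDegree = 2 * h + 1 := by
    rw [natDegree_sub_eq_left_of_natDegree_lt hlt, hAd]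
  set R : ℂ[X] := ∏ k ∈ Finset.range (2 * h + 1), (X - C (E.x (w + k * Q))) with hR
  have hRm : R.Monic := monic_prod_X_sub_C _ _
  have hRd : R.natDegree = 2 * h + 1 := by
    rw [hR, natDegree_finsetProd_X_sub_C_eq_card, Finset.card_range]
  have heq : A - C (π ^ 2 * E.x (π * w)) * D ^ 2 = R := by
    refine eq_of_degree_sub_lt_of_eval_index_eq (Finset.range (2 * h + 1))
      (v := fun k : ℕ => E.x (w + k * Q)) ?_ ?_ ?_
    · intro k hk j hj hkj
      have hk' := Finset.mem_range.mp hk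
      have hj' := Finset.mem_range.mp hj
      rcases E.inj _ (hE.notMem_nat hw' k) _ (hE.notMem_nat hw' j) hkj with h1 | h1
      · have e2 : (((k : ℕ) - (j : ℕ) : ℤ) : ℂ) * Q ∈ L.lattice := by
          convert h1 using 1
          push_cast; ring
        have e4 : ((k : ℕ) - (j : ℕ) : ℤ) = 0 :=
          Int.eq_zero_of_abs_lt_dvd ((hE.ord _).mp e2) (by rw [abs_lt]; omega)
        omega
      · exfalso
        refine hE.notMem_nat (z := 2 * w) (by rwa [← mul_assoc, mul_comm π]) (k + j) ?_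
        convert h1 using 1
        push_cast; ring
    · rw [Finset.card_range, ← hMd, ← degree_eq_natDegree hM.ne_zero]
      refine degree_sub_lt_left ?_ hM.ne_zero (by rw [hM.leadingCoeff, hRm.leadingCoeff])
      rw [degree_eq_natDegree hM.ne_zero, degree_eq_natDegree hRm.ne_zero, hMd, hRd]
    · intro k hk
      have n1 : π * (w + k * Q) ∉ L.lattice := by
        intro h0
        apply hw'
        have := sub_mem h0 (nat_mul_mem hE.memQ k)
        rwa [show π * (w + k * Q) - k * (π * Q) = π * w by ring] at this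
      have e1 : E.x (π * (w + k * Q)) = E.x (π * w) := by
        apply E.x_congr
        have := nat_mul_mem hE.memQ k
        rwa [show (k : ℂ) * (π * Q) = π * (w + k * Q) - π * w by ring] at this
      rw [eval_sub, ← hAe _ n1, e1, eval_mul, eval_C, eval_pow, hDe, sub_self, hR, eval_prod]
      exact (Finset.prod_eq_zero hk (by simp)).symm
  have := congrArg (eval (E.x z)) heq
  rw [eval_sub, ← hAe _ hz, eval_mul, eval_C, eval_pow, hDe, hR, eval_prod] at this
  simp only [eval_sub, eval_X, eval_C] at this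
  rw [← this]
  ring

lemma prod_half (hE : Endo L π Q (2 * h + 1)) {z ω : ℂ} (hz : π * z ∉ L.lattice)
    (n : ω ∉ L.lattice) (t : ω + ω ∈ L.lattice) (f : π * ω - ω ∈ L.lattice) :
    (E.x (π * z) - E.x ω) * (π * E.FF Q h 0 (E.x z)) ^ 2
      = (E.x z - E.x ω) * E.FF Q h ω (E.x z) ^ 2 := by
  have n' : π * ω ∉ L.lattice := by
    intro h0
    apply n
    have := sub_mem h0 f
    rwa [sub_sub_cancel] at this
  have c1 : ContinuousAt (fun w => E.x (π * w)) ω :=
    ContinuousAt.comp_of_eq (E.an_x _ n').continuousAt (f := fun w => π * w) (by fun_prop) rfl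
  have c2 : ContinuousAt
      (fun w => ∏ k ∈ Finset.range (2 * h + 1), (E.x z - E.x (w + k * Q))) ω := by
    refine tendsto_finsetProd _ fun k _ => ?_
    have c3 : ContinuousAt (fun w => E.x (w + k * Q)) ω :=
      ContinuousAt.comp_of_eq (E.an_x _ (hE.notMem_nat n' k)).continuousAt
        (f := fun w => w + k * Q) (by fun_prop) rfl
    exact (continuousAt_const.sub c3).tendsto
  have key := tendsto_nhds_unique_of_eventuallyEq (l := 𝓝[≠] ω)
    (ContinuousAt.tendsto (f := fun w => (E.x (π * z) - E.x (π * w))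
      * (π * E.FF Q h 0 (E.x z)) ^ 2) (by fun_prop) |>.mono_left nhdsWithin_le_nhds)
    (c2.tendsto.mono_left nhdsWithin_le_nhds)
    ((ev_mul_notMem (L := L) (mul_ne_zero two_ne_zero hE.ne) ω).mono
      fun w hw => E.prod_formula hE hz hw)
  rw [E.x_congr f] at key
  rw [key, prod_range_odd (fun k => E.x z - E.x (ω + k * Q)) h]
  simp only [Nat.cast_zero, zero_mul, add_zero, FF]
  congr 1
  rw [← Finset.prod_pow]
  refine Finset.prod_congr rfl fun k hk => ?_
  rw [E.x_refl hE ω (Finset.mem_range.mp hk),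
    E.x_congr' (z := ω - ((k + 1 : ℕ) : ℂ) * Q) (w := ω + ((k + 1 : ℕ) : ℂ) * Q)
      (by simpa using t), sq]

lemma an_FF (ω : ℂ) {z : ℂ} (hz : z ∉ L.lattice) :
    AnalyticAt ℂ (fun z => E.FF Q h ω (E.x z)) z := by
  unfold FF
  exact Finset.analyticAt_fun_prod _ fun k _ => (E.an_x z hz).sub analyticAt_const

lemma y_formula (H : Half L ω₁ ω₂ ω₃) (hE : Endo L π Q (2 * h + 1))
    (f₁ : π * ω₁ - ω₁ ∈ L.lattice) (f₂ : π * ω₂ - ω₂ ∈ L.lattice) (f₃ : π * ω₃ - ω₃ ∈ L.lattice) :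
    ∃ ε : ℂ, (ε = 1 ∨ ε = -1) ∧ ∀ z, π * z ∉ L.lattice →
      E.y (π * z) * (π * E.FF Q h 0 (E.x z)) ^ 3
        = ε * (E.y z * (E.FF Q h ω₁ (E.x z) * E.FF Q h ω₂ (E.x z) * E.FF Q h ω₃ (E.x z))) := by
  set T : Set ℂ := (fun z => π * z) ⁻¹' (L.lattice : Set ℂ) with hT
  have hTc : T.Countable := (countable_lattice L).preimage_of_injOn
    (fun a _ b _ hab => mul_left_cancel₀ hE.ne hab)
  set f : ℂ → ℂ := fun z => E.y (π * z) * (π * E.FF Q h 0 (E.x z)) ^ 3 with hf
  set g : ℂ → ℂ := fun z =>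
    E.y z * (E.FF Q h ω₁ (E.x z) * E.FF Q h ω₂ (E.x z) * E.FF Q h ω₃ (E.x z)) with hg
  have af : AnalyticOnNhd ℂ f Tᶜ := by
    intro z hz
    have a1 : AnalyticAt ℂ (fun z => E.y (π * z)) z :=
      AnalyticAt.comp_of_eq (E.an_y _ hz) (f := fun z => π * z) (by fun_prop) rfl
    have a2 := E.an_FF (Q := Q) (h := h) 0 (hE.notMem_zero hz)
    exact a1.mul ((analyticAt_const.mul a2).pow 3)
  have ag : AnalyticOnNhd ℂ g Tᶜ := by
    intro z hz
    have hz' := hE.notMem_zero hz
    exact (E.an_y _ hz').mul (((E.an_FF ω₁ hz').mul (E.an_FF ω₂ hz')).mul (E.an_FF ω₃ hz'))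
  have key := AnalyticOnNhd.eq_zero_or_eq_zero_of_mul_eq_zero (af.sub ag) (af.add ag) (by
    intro z hz
    have p1 := E.prod_half hE hz H.n₁ H.t₁ f₁
    have p2 := E.prod_half hE hz H.n₂ H.t₂ f₂
    have p3 := E.prod_half hE hz H.n₃ H.t₃ f₃
    rw [E.x₁] at p1
    rw [E.x₂] at p2
    rw [E.x₃] at p3
    have c1 := E.curve _ hz
    have c2 := E.curve _ (hE.notMem_zero hz)
    have e : f z ^ 2 = g z ^ 2 := by
      simp only [hf, hg, mul_pow] at p1 p2 p3 ⊢
      rw [c1, c2]
      calc _ = ((E.x (π * z) - 0) * (π ^ 2 * E.FF Q h 0 (E.x z) ^ 2))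
            * ((E.x (π * z) - 1) * (π ^ 2 * E.FF Q h 0 (E.x z) ^ 2))
            * ((E.x (π * z) - E.lam) * (π ^ 2 * E.FF Q h 0 (E.x z) ^ 2)) := by ring
        _ = _ := by rw [p1, p2, p3]; ring
    simp only [Pi.sub_apply, Pi.add_apply]
    linear_combination e) (preconnected_compl hTc)
  rcases key with h1 | h1
  · refine ⟨1, Or.inl rfl, fun z hz => ?_⟩
    have := h1 z hz
    simp only [Pi.sub_apply] at this
    linear_combination this
  · refine ⟨-1, Or.inr rfl, fun z hz => ?_⟩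
    have := h1 z hz
    simp only [Pi.add_apply] at this
    linear_combination this

end Leg

end Pool.Agent.Lib.MP_4a1067_nt
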