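import Mathlib
import Pool.Agent.Lib.MP_4a1067_nt.Velu

/-! Reduction of the Legendre coordinates at a valuation ring of `ℂ`. -/

namespace Pool.Agent.Lib.MP_4a1067_nt

open IsLocalRing

section R
variable (V : ValuationSubring ℂ)

open Classical in
/-- reduction to the residue field, `0` outside `V` -/
noncomputable def rd (a : ℂ) : ResidueField V := if h : a ∈ V then residue V ⟨a, h⟩ else 0

variable {V}

lemma rd_coe (a : V) : rd V a = residue V a := by simp [rd]

lemma rd_add {a b : ℂ} (ha : a ∈ V) (hb : b ∈ V) : rd V (a + b) = rd V a + rd V b := by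
  lift a to V using ha; lift b to V using hb
  rw [← AddMemClass.coe_add, rd_coe, rd_coe, rd_coe, map_add]

lemma rd_mul {a b : ℂ} (ha : a ∈ V) (hb : b ∈ V) : rd V (a * b) = rd V a * rd V b := by
  lift a to V using ha; lift b to V using hb
  rw [← MulMemClass.coe_mul, rd_coe, rd_coe, rd_coe, map_mul]

lemma rd_neg {a : ℂ} (ha : a ∈ V) : rd V (-a) = -rd V a := by
  lift a to V using ha
  rw [← NegMemClass.coe_neg, rd_coe, rd_coe, map_neg]

lemma rd_sub {a b : ℂ} (ha : a ∈ V) (hb : b ∈ V) : rd V (a - b) = rd V a - rd V b := by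
  rw [sub_eq_add_neg, rd_add ha (neg_mem hb), rd_neg hb, sub_eq_add_neg]

lemma rd_one : rd V 1 = 1 := by
  have := rd_coe (V := V) 1
  rwa [map_one] at this

lemma rd_zero : rd V 0 = 0 := by
  have := rd_coe (V := V) 0
  rwa [map_zero] at this

lemma rd_pow {a : ℂ} (ha : a ∈ V) (n : ℕ) : rd V (a ^ n) = rd V a ^ n := by
  induction n with
  | zero => simp [rd_one]
  | succ n ih => rw [pow_succ, rd_mul (pow_mem ha n) ha, ih, pow_succ]

lemma rd_natCast (n : ℕ) : rd V n = n := by
  have := rd_coe (V := V) n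
  rwa [map_natCast] at this

lemma rd_two : rd V 2 = 2 := by simpa using rd_natCast (V := V) 2

lemma rd_three : rd V 3 = 3 := by simpa using rd_natCast (V := V) 3

lemma rd_four : rd V 4 = 4 := by simpa using rd_natCast (V := V) 4

lemma two_mem : (2 : ℂ) ∈ V := by simp

lemma three_mem : (3 : ℂ) ∈ V := by simp

lemma four_mem : (4 : ℂ) ∈ V := by simp

lemma rd_prod (s : Finset ℕ) (f : ℕ → ℂ) (hf : ∀ k ∈ s, f k ∈ V) :
    rd V (∏ k ∈ s, f k) = ∏ k ∈ s, rd V (f k) := by
  induction s using Finset.induction_on with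
  | empty => simp [rd_one]
  | insert a s ha ih =>
    rw [Finset.prod_insert ha, Finset.prod_insert ha,
      rd_mul (hf a (Finset.mem_insert_self _ _))
        (prod_mem fun k hk => hf k (Finset.mem_insert_of_mem hk)),
      ih fun k hk => hf k (Finset.mem_insert_of_mem hk)]

lemma inv_mem_of_rd_ne {b : ℂ} (hb : b ∈ V) (h : rd V b ≠ 0) : b⁻¹ ∈ V := by
  lift b to V using hb
  rw [rd_coe, residue_ne_zero_iff_isUnit] at h
  obtain ⟨c, hc⟩ := h.exists_right_inv
  have : (b : ℂ) * c = 1 := by exact_mod_cast congrArg Subtype.val hc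
  rw [← eq_inv_of_mul_eq_one_right this]
  exact c.2

lemma ne_zero_of_rd_ne {b : ℂ} (h : rd V b ≠ 0) : b ≠ 0 := by
  rintro rfl
  exact h rd_zero

lemma mem_of_mul_mem {a b c : ℂ} (e : a * b = c) (hc : c ∈ V) (hb : b ∈ V) (h : rd V b ≠ 0) :
    a ∈ V := by
  have : a = c * b⁻¹ := by rw [← e, mul_inv_cancel_right₀ (ne_zero_of_rd_ne h)]
  rw [this]
  exact mul_mem hc (inv_mem_of_rd_ne hb h)

lemma inv_mem_of_notMem {a : ℂ} (ha : a ∉ V) : a⁻¹ ∈ V ∧ rd V a⁻¹ = 0 := by
  have h1 := (V.mem_or_inv_mem a).resolve_left ha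
  refine ⟨h1, ?_⟩
  by_contra h
  apply ha
  simpa using inv_mem_of_rd_ne h1 h

lemma mem_of_pow_mem {a : ℂ} {n : ℕ} (hn : n ≠ 0) (h : a ^ n ∈ V) : a ∈ V := by
  by_contra ha
  obtain ⟨h1, h2⟩ := inv_mem_of_notMem ha
  have h0 : a ≠ 0 := by rintro rfl; exact ha (zero_mem _)
  have e : a ^ n * a⁻¹ ^ n = 1 := by rw [← mul_pow, mul_inv_cancel₀ h0, one_pow]
  have := congrArg (rd V) e
  rw [rd_mul h (pow_mem h1 n), rd_pow h1, h2, zero_pow hn, mul_zero, rd_one] at this
  exact zero_ne_one this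

lemma mem_of_add_mul {a b : ℂ} (h1 : a + b ∈ V) (h2 : a * b ∈ V) : a ∈ V := by
  by_contra ha
  obtain ⟨h3, h4⟩ := inv_mem_of_notMem ha
  have h0 : a ≠ 0 := by rintro rfl; exact ha (zero_mem _)
  have e : (a + b) * a⁻¹ - a * b * (a⁻¹ * a⁻¹) = 1 := by field_simp; ring
  have := congrArg (rd V) e
  rw [rd_sub (mul_mem h1 h3) (mul_mem h2 (mul_mem h3 h3)), rd_mul h1 h3,
    rd_mul h2 (mul_mem h3 h3), rd_mul h3 h3, h4, rd_one] at this
  simp at this

end R

namespace Leg
variable {L : PeriodPair} {ω₁ ω₂ ω₃ : ℂ} (E : Leg L ω₁ ω₂ ω₃) {V : ValuationSubring ℂ}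

/-- the kernel of reduction -/
def Kr (V : ValuationSubring ℂ) (z : ℂ) : Prop := z ∈ L.lattice ∨ E.x z ∉ V

lemma not_Kr {z : ℂ} : ¬ E.Kr V z ↔ z ∉ L.lattice ∧ E.x z ∈ V := by
  simp [Kr]

lemma y_mem (hl : E.lam ∈ V) {z : ℂ} (hz : ¬ E.Kr V z) : E.y z ∈ V := by
  obtain ⟨h1, h2⟩ := E.not_Kr.mp hz
  refine mem_of_pow_mem two_ne_zero ?_
  rw [E.curve z h1]
  exact mul_mem (mul_mem h2 (sub_mem h2 (one_mem _))) (sub_mem h2 hl)

lemma add_Kr (hl : E.lam ∈ V) {z q : ℂ} (hz : ¬ E.Kr V z) (hq : E.Kr V q) :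
    ¬ E.Kr V (z + q) ∧ rd V (E.x (z + q)) = rd V (E.x z) := by
  obtain ⟨h1, h2⟩ := E.not_Kr.mp hz
  by_cases hq0 : q ∈ L.lattice
  · rw [E.not_Kr, E.x_per _ _ hq0]
    refine ⟨⟨fun h => h1 ?_, h2⟩, rfl⟩
    simpa using sub_mem h hq0
  have hq1 : E.x q ∉ V := hq.resolve_left hq0
  have hs : z + q ∉ L.lattice := fun h => hq1 (E.x_congr' h ▸ h2)
  obtain ⟨hu, hu0⟩ := inv_mem_of_notMem hq1
  have hx0 : E.x q ≠ 0 := by intro h; rw [h] at hq1; exact hq1 (zero_mem _)
  have hy := E.y_mem hl hz
  set u := (E.x q)⁻¹ with hudef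
  set t := E.y q * u ^ 2 with ht
  have et : t ^ 2 = u * (1 - u) * (1 - E.lam * u) := by
    rw [ht, mul_pow, E.curve q hq0, hudef]
    field_simp
  have h1V : (1 : ℂ) ∈ V := one_mem _
  have h2V : (2 : ℂ) ∈ V := two_mem
  have htV : t ∈ V := by
    refine mem_of_pow_mem two_ne_zero ?_
    rw [et]
    repeat' (first | assumption | with_reducible apply pow_mem | with_reducible apply mul_mem | with_reducible apply add_mem | with_reducible apply sub_mem)
  have ht0 : rd V t = 0 := by
    have := congrArg (rd V) et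
    rw [rd_pow htV, mul_assoc, rd_mul hu (by repeat' (first | assumption | with_reducible apply pow_mem | with_reducible apply mul_mem | with_reducible apply add_mem | with_reducible apply sub_mem)), hu0, zero_mul] at this
    exact pow_eq_zero_iff two_ne_zero |>.mp this
  have e : E.x (z + q) * (1 - E.x z * u) ^ 2 = E.x z
      + u * (E.x z ^ 2 - 2 * (1 + E.lam) * E.x z + E.lam + E.lam * E.x z * u) - 2 * E.y z * t := by
    have := E.add_x h1 hq0 hs
    unfold NN at this
    rw [ht, hudef]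
    field_simp
    linear_combination this
  have hunit : rd V ((1 - E.x z * u) ^ 2) = 1 := by
    simp (disch := repeat' (first | assumption | with_reducible apply pow_mem | with_reducible apply mul_mem | with_reducible apply add_mem | with_reducible apply sub_mem)) only
      [rd_pow, rd_sub, rd_mul, rd_one, hu0]
    simp
  have hx3 : E.x (z + q) ∈ V := mem_of_mul_mem e
    (by repeat' (first | assumption | with_reducible apply pow_mem | with_reducible apply mul_mem | with_reducible apply add_mem | with_reducible apply sub_mem))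
    (by repeat' (first | assumption | with_reducible apply pow_mem | with_reducible apply mul_mem | with_reducible apply add_mem | with_reducible apply sub_mem)) (by rw [hunit]; exact one_ne_zero)
  refine ⟨E.not_Kr.mpr ⟨hs, hx3⟩, ?_⟩
  have := congrArg (rd V) e
  simp (disch := repeat' (first | assumption | with_reducible apply pow_mem | with_reducible apply mul_mem | with_reducible apply add_mem | with_reducible apply sub_mem)) only
    [rd_pow, rd_sub, rd_mul, rd_add, rd_one, hu0, ht0] at this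
  simpa using this

lemma Kr_neg {z : ℂ} (hz : E.Kr V z) : E.Kr V (-z) := by
  rcases hz with h | h
  · exact Or.inl (neg_mem h)
  · exact Or.inr (by rwa [E.x_neg])

lemma Kr_add (hl : E.lam ∈ V) {z w : ℂ} (hz : E.Kr V z) (hw : E.Kr V w) : E.Kr V (z + w) := by
  by_contra h
  have := (E.add_Kr hl h (E.Kr_neg hw)).1
  rw [add_neg_cancel_right] at this
  exact this hz

lemma Kr_nat (hl : E.lam ∈ V) {z : ℂ} (hz : E.Kr V z) (n : ℕ) : E.Kr V (n * z) := by
  induction n with
  | zero => left; simp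
  | succ n ih =>
    have := E.Kr_add hl ih hz
    rwa [show (n : ℂ) * z + z = ((n + 1 : ℕ) : ℂ) * z by push_cast; ring] at this

lemma Kr_int (hl : E.lam ∈ V) {z : ℂ} (hz : E.Kr V z) (n : ℤ) : E.Kr V (n * z) := by
  obtain ⟨m, rfl | rfl⟩ := n.eq_nat_or_neg
  · simpa using E.Kr_nat hl hz m
  · simpa using E.Kr_neg (E.Kr_nat hl hz m)

lemma Kr_iff (H : Half L ω₁ ω₂ ω₃) {z : ℂ} :
    E.Kr V z ↔ z + ω₁ ∉ L.lattice ∧ E.u z ∈ V ∧ rd V (E.u z) = 0 := by
  by_cases hz : z ∈ L.lattice
  · refine iff_of_true (Or.inl hz) ⟨fun h => H.n₁ (by simpa using sub_mem h hz), ?_⟩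
    rw [E.u_lattice hz]
    exact ⟨zero_mem _, rd_zero⟩
  constructor
  · intro h
    have h1 := h.resolve_left hz
    have h2 : z + ω₁ ∉ L.lattice := by
      intro h0
      rw [(E.x_eq_zero_iff H hz).mpr h0] at h1
      exact h1 (zero_mem _)
    rw [eq_inv_of_mul_eq_one_left (E.u_mul_x H hz h2)]
    exact ⟨h2, inv_mem_of_notMem h1⟩
  · rintro ⟨h1, h2, h3⟩
    right
    intro h4
    have := congrArg (rd V) (E.u_mul_x H hz h1)
    rw [rd_mul h2 h4, h3, zero_mul, rd_one] at this
    exact zero_ne_one this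

lemma Kr_torsion (H : Half L ω₁ ω₂ ω₃) (hl : E.lam ∈ V) {q : ℂ} (hq : E.Kr V q) {n : ℕ}
    (hn : (n : ResidueField V) ≠ 0) (hnq : (n : ℂ) * q ∈ L.lattice) : q ∈ L.lattice := by
  by_contra hq0
  obtain ⟨k1, hu1, hu10⟩ := (E.Kr_iff H).mp hq
  have hne : E.u q ≠ 0 := left_ne_zero_of_mul_eq_one (E.u_mul_x H hq0 k1)
  have h1V : (1 : ℂ) ∈ V := one_mem _
  have h2V : (2 : ℂ) ∈ V := two_mem
  have key : ∀ j : ℕ, E.u (j * q) / E.u q ∈ V ∧ rd V (E.u (j * q) / E.u q) = (j : ResidueField V) ^ 2 := by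
    intro j
    induction j using Nat.twoStepInduction with
    | zero => simp [E.u_lattice (zero_mem _), rd_zero]
    | one => simp [hne, rd_one]
    | more j ih1 ih2 =>
      obtain ⟨k2, hu2, hu20⟩ := (E.Kr_iff H).mp (E.Kr_nat hl hq (j + 1))
      have hunit : rd V (1 - E.lam * E.u (((j + 1 : ℕ) : ℂ) * q) * E.u q) = 1 := by
        simp (disch := repeat' (first | assumption | with_reducible apply pow_mem | with_reducible apply mul_mem | with_reducible apply add_mem | with_reducible apply sub_mem)) only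
          [rd_sub, rd_mul, rd_one, hu10]
        simp
      have huu := (E.uu_main H k2 k1 (ne_zero_of_rd_ne (by rw [hunit]; exact one_ne_zero))).2.2.1
      rw [show ((j + 1 : ℕ) : ℂ) * q + q = ((j + 2 : ℕ) : ℂ) * q by push_cast; ring,
        show ((j + 1 : ℕ) : ℂ) * q - q = (j : ℂ) * q by push_cast; ring] at huu
      set a := E.u (((j + 1 : ℕ) : ℂ) * q) with ha
      set r0 := E.u ((j : ℂ) * q) / E.u q with hr0
      set r1 := a / E.u q with hr1
      set r2 := E.u (((j + 2 : ℕ) : ℂ) * q) / E.u q with hr2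
      have e : (r2 + r0) * (1 - E.lam * a * E.u q) ^ 2
          = 2 * (r1 + 1 - 2 * (1 + E.lam) * a + E.lam * a * (a + E.u q)) := by
        apply mul_right_cancel₀ hne
        have f0 : r0 * E.u q = E.u ((j : ℂ) * q) := div_mul_cancel₀ _ hne
        have f1 : r1 * E.u q = a := div_mul_cancel₀ _ hne
        have f2 : r2 * E.u q = E.u (((j + 2 : ℕ) : ℂ) * q) := div_mul_cancel₀ _ hne
        linear_combination huu + (1 - E.lam * a * E.u q) ^ 2 * (f0 + f2) - 2 * f1
      have m0 := ih1.1
      have m1 := ih2.1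
      have hs : r2 + r0 ∈ V := mem_of_mul_mem e
        (by repeat' (first | assumption | with_reducible apply pow_mem | with_reducible apply mul_mem | with_reducible apply add_mem | with_reducible apply sub_mem))
        (by repeat' (first | assumption | with_reducible apply pow_mem | with_reducible apply mul_mem | with_reducible apply add_mem | with_reducible apply sub_mem))
        (by rw [rd_pow (by repeat' (first | assumption | with_reducible apply pow_mem | with_reducible apply mul_mem | with_reducible apply add_mem | with_reducible apply sub_mem)), hunit]; simp)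
      have m2 : r2 ∈ V := by simpa using sub_mem hs m0
      refine ⟨m2, ?_⟩
      have := congrArg (rd V) e
      simp (disch := repeat' (first | assumption | with_reducible apply pow_mem | with_reducible apply mul_mem | with_reducible apply add_mem | with_reducible apply sub_mem)) only
        [rd_pow, rd_sub, rd_mul, rd_add, rd_one, rd_two, hu10, hu20, ih1.2, ih2.2] at this
      push_cast at this ⊢
      linear_combination this
  have := (key n).2
  rw [E.u_lattice hnq, zero_div, rd_zero] at this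
  exact hn (pow_eq_zero_iff two_ne_zero |>.mp this.symm)

lemma Kr_of_rd_eq (hl : E.lam ∈ V) (h2 : (2 : ResidueField V) ≠ 0) (l0 : rd V E.lam ≠ 0)
    (l1 : rd V E.lam ≠ 1) {z w : ℂ} (hz : ¬ E.Kr V z) (hw : ¬ E.Kr V w)
    (h : rd V (E.x z) = rd V (E.x w)) : E.Kr V (z - w) ∨ E.Kr V (z + w) := by
  by_contra hcon
  rw [not_or] at hcon
  obtain ⟨n1, m1⟩ := E.not_Kr.mp hz
  obtain ⟨n2, m2⟩ := E.not_Kr.mp hw
  obtain ⟨n3, m3⟩ := E.not_Kr.mp hcon.1
  obtain ⟨n4, m4⟩ := E.not_Kr.mp hcon.2
  have h1V : (1 : ℂ) ∈ V := one_mem _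
  have h2V : (2 : ℂ) ∈ V := two_mem
  have s1 := congrArg (rd V) (E.sum_x n1 n2 n4 n3)
  have s2 := congrArg (rd V) (E.prod_x n1 n2 n4 n3)
  unfold NN at s1
  simp (disch := repeat' (first | assumption | with_reducible apply pow_mem | with_reducible apply mul_mem | with_reducible apply add_mem | with_reducible apply sub_mem)) only
    [rd_pow, rd_sub, rd_mul, rd_add, rd_one, rd_two, h] at s1 s2
  set a := rd V (E.x w)
  set l := rd V E.lam
  have e2 : a * a - l = 0 := by
    apply pow_eq_zero_iff two_ne_zero |>.mp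
    rw [← s2]; ring
  have e1 : 2 * 2 * (a * ((a - 1) * (a - l))) = 0 := by linear_combination -s1
  simp only [mul_eq_zero, h2, or_self, false_or, sub_eq_zero] at e1
  rcases e1 with h3 | h3 | h3
  · apply l0; rw [h3] at e2; linear_combination -e2
  · apply l1; rw [h3] at e2; linear_combination -e2
  · rw [h3] at e2
    have : l * (l - 1) = 0 := by linear_combination e2
    rcases mul_eq_zero.mp this with h4 | h4
    · exact l0 h4
    · exact l1 (sub_eq_zero.mp h4)

end Leg

end Pool.Agent.Lib.MP_4a1067_nt
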