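import Mathlib
import Pool.Agent.Lib.MP_4a1067_nt.Red

/-! An endomorphism `π` of prime degree `p` lying in the maximal ideal reduces to Frobenius. -/

namespace Pool.Agent.Lib.MP_4a1067_nt

open IsLocalRing

namespace Leg
variable {L : PeriodPair} {ω₁ ω₂ ω₃ : ℂ} (E : Leg L ω₁ ω₂ ω₃) {V : ValuationSubring ℂ}
  {π Q : ℂ} {h : ℕ}

lemma pi_half_notMem {ω : ℂ} (n : ω ∉ L.lattice) (f : π * ω - ω ∈ L.lattice) :
    π * ω ∉ L.lattice := by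
  intro h0
  apply n
  have := sub_mem h0 f
  rwa [sub_sub_cancel] at this

lemma half_terms (H : Half L ω₁ ω₂ ω₃) {q : ℂ} (hq : q ∉ L.lattice) (k1 : ω₁ + q ∉ L.lattice)
    (k3 : ω₃ + q ∉ L.lattice) :
    (1 - E.x (ω₁ + q)) * E.x q = E.x q - E.lam ∧
      (E.x q - E.lam) * (1 - E.x (ω₃ + q)) = (1 - E.lam) * E.x q ∧
      E.x q ≠ 0 ∧ E.x q - E.lam ≠ 0 := by
  have n0 : E.x q ≠ 0 := fun h0 => k1 (by rw [add_comm]; exact (E.x_eq_zero_iff H hq).mp h0)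
  have n3 : E.x q - E.lam ≠ 0 := by
    rw [← E.x₃]
    refine E.x_ne hq H.n₃ (by rwa [add_comm]) (fun h0 => k3 ?_)
    have := add_mem h0 H.t₃
    rwa [show q - ω₃ + (ω₃ + ω₃) = ω₃ + q by ring] at this
  have a1 := E.add_x H.n₁ hq k1
  have a3 := E.add_x H.n₃ hq k3
  rw [E.x₁, E.y_half H.t₁] at a1
  rw [E.x₃, E.y_half H.t₃] at a3
  unfold NN at a1 a3
  refine ⟨?_, ?_, n0, n3⟩
  · apply mul_right_cancel₀ n0
    linear_combination -a1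
  · apply mul_right_cancel₀ n3
    linear_combination -a3

lemma Kr_Q (H : Half L ω₁ ω₂ ω₃) (hE : Endo L π Q (2 * h + 1)) (hp : (2 * h + 1).Prime)
    (f₁ : π * ω₁ - ω₁ ∈ L.lattice) (f₂ : π * ω₂ - ω₂ ∈ L.lattice) (f₃ : π * ω₃ - ω₃ ∈ L.lattice)
    (hl : E.lam ∈ V) (l1 : rd V E.lam ≠ 1) (hπ : π ∈ V) (hπ0 : rd V π = 0) : E.Kr V Q := by
  have m₁ := pi_half_notMem H.n₁ f₁
  have m₂ := pi_half_notMem H.n₂ f₂
  have m₃ := pi_half_notMem H.n₃ f₃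
  have p1 := E.prod_half hE m₂ H.n₁ H.t₁ f₁
  have p3 := E.prod_half hE m₂ H.n₃ H.t₃ f₃
  rw [E.x_congr f₂, E.x₂, E.x₁] at p1
  rw [E.x_congr f₂, E.x₂, E.x₃] at p3
  have hl1 : 1 - E.lam ≠ 0 := sub_ne_zero.mpr E.lam1.symm
  have p3' := mul_left_cancel₀ hl1 p3
  have e : E.FF Q h ω₁ 1 * E.FF Q h ω₃ 1 = (1 - E.lam) ^ h := by
    unfold FF
    rw [← Finset.prod_mul_distrib, ← Finset.card_range h, ← Finset.prod_const, Finset.card_range]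
    refine Finset.prod_congr rfl fun k hk => ?_
    obtain ⟨t1, t2, t3, t4⟩ := E.half_terms H (kQ_notMem hE (Finset.mem_range.mp hk))
      (hE.notMem_nat m₁ (k + 1)) (hE.notMem_nat m₃ (k + 1))
    apply mul_right_cancel₀ t3
    rw [← t2, ← t1]
    ring
  have e4 : (π * E.FF Q h 0 1) ^ 4 = ((1 - E.lam) ^ h) ^ 2 := by
    rw [← e, mul_pow (E.FF Q h ω₁ 1), ← p3']
    linear_combination (π * E.FF Q h 0 1) ^ 2 * p1
  have hex : ∃ k < h, E.Kr V (((k + 1 : ℕ) : ℂ) * Q) := by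
    by_contra hcon
    push Not at hcon
    have hF : E.FF Q h 0 1 ∈ V := prod_mem fun k hk => sub_mem (one_mem _) (by
      rw [zero_add]
      exact (E.not_Kr.mp (hcon k (Finset.mem_range.mp hk))).2)
    have h1V : (1 : ℂ) ∈ V := one_mem _
    have := congrArg (rd V) e4
    simp (disch := repeat' (first | assumption | with_reducible apply pow_mem | with_reducible apply mul_mem | with_reducible apply add_mem | with_reducible apply sub_mem)) only [rd_pow, rd_sub, rd_mul, rd_one, hπ0] at this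
    rw [zero_mul, zero_pow (by norm_num)] at this
    exact pow_ne_zero _ (pow_ne_zero _ (sub_ne_zero.mpr l1.symm)) this.symm
  obtain ⟨k, hk, hK⟩ := hex
  have hcop : IsCoprime ((k + 1 : ℕ) : ℤ) ((2 * h + 1 : ℕ) : ℤ) := by
    rw [Nat.isCoprime_iff_coprime]
    exact (Nat.coprime_of_lt_prime (by omega) (by omega) hp).symm
  obtain ⟨a, b, hab⟩ := hcop
  have := E.Kr_add hl (E.Kr_int hl hK a) (Or.inl (int_mul_mem hE.pQ b))
  have e2 : (a : ℂ) * ((k + 1 : ℕ) : ℂ) + b * ((2 * h + 1 : ℕ) : ℂ) = 1 := by exact_mod_cast hab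
  rwa [show (a : ℂ) * (((k + 1 : ℕ) : ℂ) * Q) + b * (((2 * h + 1 : ℕ) : ℂ) * Q) = Q by
    linear_combination Q * e2] at this

lemma FF_half (hl : E.lam ∈ V) (hQ : E.Kr V Q) {ω T : ℂ} (hω : ¬ E.Kr V ω) (hT : T ∈ V) :
    E.FF Q h ω T ∈ V ∧ rd V (E.FF Q h ω T) = (rd V T - rd V (E.x ω)) ^ h := by
  have key : ∀ k : ℕ, E.x (ω + ((k + 1 : ℕ) : ℂ) * Q) ∈ V ∧
      rd V (E.x (ω + ((k + 1 : ℕ) : ℂ) * Q)) = rd V (E.x ω) := fun k =>
    ⟨(E.not_Kr.mp (E.add_Kr hl hω (E.Kr_nat hl hQ (k + 1))).1).2,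
      (E.add_Kr hl hω (E.Kr_nat hl hQ (k + 1))).2⟩
  refine ⟨prod_mem fun k _ => sub_mem hT (key k).1, ?_⟩
  unfold FF
  rw [rd_prod _ _ fun k _ => sub_mem hT (key k).1, ← Finset.card_range h, ← Finset.prod_const,
    Finset.card_range]
  exact Finset.prod_congr rfl fun k _ => by rw [rd_sub hT (key k).1, (key k).2]

/-- the constant in the reduction of the product formula -/
noncomputable def kap (π Q : ℂ) (h : ℕ) : ℂ :=
  π * ∏ k ∈ Finset.range h, (-E.x (0 + ((k + 1 : ℕ) : ℂ) * Q))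

lemma xk_inv (hE : Endo L π Q (2 * h + 1)) (hl : E.lam ∈ V) (hQ : E.Kr V Q) {k : ℕ} (hk : k < h) :
    E.x (0 + ((k + 1 : ℕ) : ℂ) * Q) ≠ 0 ∧ (E.x (0 + ((k + 1 : ℕ) : ℂ) * Q))⁻¹ ∈ V ∧
      rd V (E.x (0 + ((k + 1 : ℕ) : ℂ) * Q))⁻¹ = 0 := by
  rw [zero_add]
  have h1 := (E.Kr_nat hl hQ (k + 1)).resolve_left (kQ_notMem hE hk)
  exact ⟨fun h0 => h1 (h0 ▸ zero_mem _), inv_mem_of_notMem h1⟩

lemma FF_zero (hE : Endo L π Q (2 * h + 1)) (hl : E.lam ∈ V) (hQ : E.Kr V Q) {T : ℂ}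
    (hT : T ∈ V) : ∃ G ∈ V, rd V G = 1 ∧ π * E.FF Q h 0 T = E.kap π Q h * G := by
  have hm : ∀ k ∈ Finset.range h, 1 - T * (E.x (0 + ((k + 1 : ℕ) : ℂ) * Q))⁻¹ ∈ V := fun k hk =>
    sub_mem (one_mem _) (mul_mem hT (E.xk_inv hE hl hQ (Finset.mem_range.mp hk)).2.1)
  refine ⟨∏ k ∈ Finset.range h, (1 - T * (E.x (0 + ((k + 1 : ℕ) : ℂ) * Q))⁻¹), prod_mem hm, ?_, ?_⟩
  · rw [rd_prod _ _ hm]
    refine Finset.prod_eq_one fun k hk => ?_
    obtain ⟨-, t2, t3⟩ := E.xk_inv hE hl hQ (Finset.mem_range.mp hk)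
    rw [rd_sub (one_mem _) (mul_mem hT t2), rd_mul hT t2, t3, rd_one, mul_zero, sub_zero]
  · unfold kap FF
    rw [mul_assoc, ← Finset.prod_mul_distrib]
    congr 1
    refine Finset.prod_congr rfl fun k hk => ?_
    have := (E.xk_inv hE hl hQ (Finset.mem_range.mp hk)).1
    field_simp
    ring

lemma half_not_Kr (H : Half L ω₁ ω₂ ω₃) (hl : E.lam ∈ V) :
    ¬ E.Kr V ω₁ ∧ ¬ E.Kr V ω₂ ∧ ¬ E.Kr V ω₃ :=
  ⟨E.not_Kr.mpr ⟨H.n₁, by rw [E.x₁]; exact zero_mem _⟩,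
    E.not_Kr.mpr ⟨H.n₂, by rw [E.x₂]; exact one_mem _⟩, E.not_Kr.mpr ⟨H.n₃, by rw [E.x₃]; exact hl⟩⟩

lemma kap_unit (H : Half L ω₁ ω₂ ω₃) (hE : Endo L π Q (2 * h + 1))
    (f₁ : π * ω₁ - ω₁ ∈ L.lattice) (f₂ : π * ω₂ - ω₂ ∈ L.lattice)
    (hl : E.lam ∈ V) (hQ : E.Kr V Q) : E.kap π Q h ∈ V ∧ rd V (E.kap π Q h) ^ 2 = 1 := by
  have p1 := E.prod_half hE (pi_half_notMem H.n₂ f₂) H.n₁ H.t₁ f₁
  rw [E.x_congr f₂, E.x₂, E.x₁, sub_zero, one_mul, one_mul] at p1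
  obtain ⟨G, hG, hG1, e⟩ := E.FF_zero hE hl hQ (one_mem V)
  obtain ⟨m1, r1⟩ := E.FF_half (h := h) hl hQ (E.half_not_Kr H hl).1 (one_mem V)
  rw [E.x₁, rd_one, rd_zero, sub_zero, one_pow] at r1
  rw [e, mul_pow] at p1
  have m2 : E.kap π Q h ∈ V := mem_of_pow_mem two_ne_zero (mem_of_mul_mem p1 (pow_mem m1 2)
    (pow_mem hG 2) (by rw [rd_pow hG, hG1]; simp))
  refine ⟨m2, ?_⟩
  have := congrArg (rd V) p1
  rw [rd_mul (pow_mem m2 2) (pow_mem hG 2), rd_pow m2, rd_pow hG, rd_pow m1, hG1, r1] at this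
  simpa using this

lemma pi_notMem (hE : Endo L π Q (2 * h + 1)) (hl : E.lam ∈ V) (hQ : E.Kr V Q) {z : ℂ}
    (hz : ¬ E.Kr V z) : π * z ∉ L.lattice := by
  intro h0
  obtain ⟨k, m, hm, e⟩ := hE.gen _ h0
  apply hz
  rw [mul_left_cancel₀ hE.ne e, sub_eq_add_neg]
  exact E.Kr_add hl (Or.inl hm) (E.Kr_neg (E.Kr_int hl hQ k))

lemma frob_x (H : Half L ω₁ ω₂ ω₃) (hE : Endo L π Q (2 * h + 1))
    (f₁ : π * ω₁ - ω₁ ∈ L.lattice) (f₂ : π * ω₂ - ω₂ ∈ L.lattice)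
    (hl : E.lam ∈ V) (hQ : E.Kr V Q) {z : ℂ} (hz : ¬ E.Kr V z) :
    ¬ E.Kr V (π * z) ∧ rd V (E.x (π * z)) = rd V (E.x z) ^ (2 * h + 1) := by
  have n := E.pi_notMem hE hl hQ hz
  obtain ⟨-, mz⟩ := E.not_Kr.mp hz
  have p1 := E.prod_half hE n H.n₁ H.t₁ f₁
  rw [E.x₁, sub_zero, sub_zero] at p1
  obtain ⟨G, hG, hG1, e⟩ := E.FF_zero hE hl hQ mz
  obtain ⟨m1, r1⟩ := E.FF_half (h := h) hl hQ (E.half_not_Kr H hl).1 mz
  obtain ⟨mk, rk⟩ := E.kap_unit H hE f₁ f₂ hl hQ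
  rw [E.x₁, rd_zero, sub_zero] at r1
  rw [e] at p1
  have hu : rd V ((E.kap π Q h * G) ^ 2) = 1 := by
    rw [rd_pow (mul_mem mk hG), rd_mul mk hG, mul_pow, rk, hG1]; simp
  have m2 : E.x (π * z) ∈ V := mem_of_mul_mem p1 (mul_mem mz (pow_mem m1 2))
    (pow_mem (mul_mem mk hG) 2) (by rw [hu]; exact one_ne_zero)
  refine ⟨E.not_Kr.mpr ⟨n, m2⟩, ?_⟩
  have := congrArg (rd V) p1
  rw [rd_mul m2 (pow_mem (mul_mem mk hG) 2), hu, mul_one, rd_mul mz (pow_mem m1 2), rd_pow m1,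
    r1] at this
  rw [this]; ring

lemma frob_y (H : Half L ω₁ ω₂ ω₃) (hE : Endo L π Q (2 * h + 1))
    (f₁ : π * ω₁ - ω₁ ∈ L.lattice) (f₂ : π * ω₂ - ω₂ ∈ L.lattice) (f₃ : π * ω₃ - ω₃ ∈ L.lattice)
    (hl : E.lam ∈ V) (hQ : E.Kr V Q) : ∃ c : ResidueField V, (c = 1 ∨ c = -1) ∧
      ∀ z, ¬ E.Kr V z → rd V (E.y (π * z)) = c * rd V (E.y z) ^ (2 * h + 1) := by
  obtain ⟨ε, hε, hy⟩ := E.y_formula H hE f₁ f₂ f₃
  obtain ⟨mk, rk⟩ := E.kap_unit H hE f₁ f₂ hl hQ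
  have mε : ε ∈ V := by
    rcases hε with rfl | rfl
    · exact one_mem _
    · exact neg_mem (one_mem _)
  have rε : rd V ε ^ 2 = 1 := by
    rcases hε with rfl | rfl
    · rw [rd_one]; simp
    · rw [rd_neg (one_mem _), rd_one]; simp
  refine ⟨rd V ε * rd V (E.kap π Q h), ?_, fun z hz => ?_⟩
  · rw [← sq_eq_one_iff, mul_pow, rε, rk, one_mul]
  obtain ⟨nz, mz⟩ := E.not_Kr.mp hz
  have p1 := hy z (E.pi_notMem hE hl hQ hz)
  obtain ⟨G, hG, hG1, e⟩ := E.FF_zero hE hl hQ mz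
  obtain ⟨k1, k2, k3⟩ := E.half_not_Kr H hl
  obtain ⟨m1, r1⟩ := E.FF_half (h := h) hl hQ k1 mz
  obtain ⟨m2, r2⟩ := E.FF_half (h := h) hl hQ k2 mz
  obtain ⟨m3, r3⟩ := E.FF_half (h := h) hl hQ k3 mz
  rw [E.x₁, rd_zero] at r1
  rw [E.x₂, rd_one] at r2
  rw [E.x₃] at r3
  have my := E.y_mem hl hz
  have my' := E.y_mem hl (E.frob_x H hE f₁ f₂ hl hQ hz).1
  rw [e] at p1
  have h1V : (1 : ℂ) ∈ V := one_mem _
  have c1 := congrArg (rd V) (E.curve z nz)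
  have := congrArg (rd V) p1
  simp (disch := repeat' (first | assumption | with_reducible apply pow_mem | with_reducible apply mul_mem | with_reducible apply add_mem | with_reducible apply sub_mem)) only [rd_pow, rd_sub, rd_mul, rd_one, hG1, r1, r2, r3] at this c1
  rw [← mul_pow, ← mul_pow, sub_zero, ← c1, ← pow_mul] at this
  linear_combination rd V (E.kap π Q h) * this
    - rd V (E.y (π * z)) * (rd V (E.kap π Q h) ^ 2 + 1) * rk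

lemma Kr_pi (H : Half L ω₁ ω₂ ω₃) (hE : Endo L π Q (2 * h + 1))
    (f₁ : π * ω₁ - ω₁ ∈ L.lattice) (f₂ : π * ω₂ - ω₂ ∈ L.lattice)
    (hl : E.lam ∈ V) (hQ : E.Kr V Q) {z : ℂ} (hz : E.Kr V z) : E.Kr V (π * z) := by
  by_contra hcon
  obtain ⟨n, m2⟩ := E.not_Kr.mp hcon
  have hx := hz.resolve_left (hE.notMem_zero n)
  obtain ⟨hu, hu0⟩ := inv_mem_of_notMem hx
  have hx0 : E.x z ≠ 0 := fun h0 => hx (h0 ▸ zero_mem _)
  have p1 := E.prod_half hE n H.n₁ H.t₁ f₁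
  rw [E.x₁, sub_zero, sub_zero] at p1
  obtain ⟨mk, -⟩ := E.kap_unit H hE f₁ f₂ hl hQ
  set u := (E.x z)⁻¹ with hudef
  set A := ∏ k ∈ Finset.range h, ((E.x (0 + ((k + 1 : ℕ) : ℂ) * Q))⁻¹ - u) with hA
  set B := ∏ k ∈ Finset.range h, (1 - u * E.x (ω₁ + ((k + 1 : ℕ) : ℂ) * Q)) with hB
  have mA : A ∈ V := prod_mem fun k hk =>
    sub_mem (E.xk_inv hE hl hQ (Finset.mem_range.mp hk)).2.1 hu
  have mB' : ∀ k : ℕ, E.x (ω₁ + ((k + 1 : ℕ) : ℂ) * Q) ∈ V := fun k =>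
    (E.not_Kr.mp (E.add_Kr hl (E.half_not_Kr H hl).1 (E.Kr_nat hl hQ (k + 1))).1).2
  have mB : B ∈ V := prod_mem fun k _ => sub_mem (one_mem _) (mul_mem hu (mB' k))
  have rB : rd V B = 1 := by
    rw [hB, rd_prod _ _ fun k _ => sub_mem (one_mem _) (mul_mem hu (mB' k))]
    refine Finset.prod_eq_one fun k _ => ?_
    rw [rd_sub (one_mem _) (mul_mem hu (mB' k)), rd_mul hu (mB' k), hu0, rd_one]; simp
  have eA : π * E.FF Q h 0 (E.x z) * (-u) ^ h = E.kap π Q h * A := by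
    unfold kap FF
    rw [mul_assoc, mul_assoc, hA, ← Finset.prod_mul_distrib, ← Finset.card_range h,
      ← Finset.prod_const, Finset.card_range, ← Finset.prod_mul_distrib]
    congr 1
    refine Finset.prod_congr rfl fun k hk => ?_
    have := (E.xk_inv hE hl hQ (Finset.mem_range.mp hk)).1
    rw [hudef]
    field_simp
  have eB : E.FF Q h ω₁ (E.x z) * u ^ h = B := by
    unfold FF
    rw [hB, ← Finset.card_range h, ← Finset.prod_const, Finset.card_range,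
      ← Finset.prod_mul_distrib]
    refine Finset.prod_congr rfl fun k _ => ?_
    rw [hudef]
    field_simp
  have e : E.x (π * z) * u * (E.kap π Q h * A) ^ 2 = B ^ 2 := by
    rw [← eA, ← eB, mul_pow, mul_pow (E.FF Q h ω₁ (E.x z)), ← pow_mul, ← pow_mul,
      (show Even (h * 2) from ⟨h, by ring⟩).neg_pow]
    have hxu : E.x z * u = 1 := mul_inv_cancel₀ hx0
    linear_combination u * u ^ (h * 2) * p1 + E.FF Q h ω₁ (E.x z) ^ 2 * u ^ (h * 2) * hxu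
  have := congrArg (rd V) e
  simp (disch := repeat' (first | assumption | with_reducible apply pow_mem | with_reducible apply mul_mem | with_reducible apply add_mem | with_reducible apply sub_mem)) only [rd_pow, rd_mul, hu0, rB] at this
  simp at this

end Leg

end Pool.Agent.Lib.MP_4a1067_nt
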