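import Mathlib
import Pool.Agent.Lib.MP_4a1067_nt.Frob

/-! Complex multiplication forces good reduction; point count of the reduced curve. -/

namespace Pool.Agent.Lib.MP_4a1067_nt

open IsLocalRing

namespace Leg
variable {L : PeriodPair} {ω₁ ω₂ ω₃ : ℂ} (E : Leg L ω₁ ω₂ ω₃) {V : ValuationSubring ℂ}
  {π Q : ℂ} {h : ℕ}

lemma E0_add (H : Half L ω₁ ω₂ ω₃) (hl : E.lam ∈ V) (l0 : rd V E.lam = 0) {z w : ℂ}
    (k1 : z + ω₁ ∉ L.lattice) (m1 : E.u z ∈ V) (k2 : w + ω₁ ∉ L.lattice) (m2 : E.u w ∈ V) :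
    z + w + ω₁ ∉ L.lattice ∧ E.u (z + w) ∈ V ∧ z - w + ω₁ ∉ L.lattice ∧ E.u (z - w) ∈ V ∧
      rd V (E.u (z + w)) + rd V (E.u (z - w))
        = 2 * (rd V (E.u z) + rd V (E.u w) - 2 * rd V (E.u z) * rd V (E.u w)) ∧
      rd V (E.u (z + w)) * rd V (E.u (z - w)) = (rd V (E.u z) - rd V (E.u w)) ^ 2 := by
  have h1V : (1 : ℂ) ∈ V := one_mem _
  have h2V : (2 : ℂ) ∈ V := two_mem
  have hunit : rd V (1 - E.lam * E.u z * E.u w) = 1 := by
    simp (disch := repeat' (first | assumption | with_reducible apply pow_mem | with_reducible apply mul_mem | with_reducible apply add_mem | with_reducible apply sub_mem)) only [rd_sub, rd_mul, rd_one, l0]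
    simp
  obtain ⟨k3, k4, s1, s2⟩ := E.uu_main H k1 k2
    (ne_zero_of_rd_ne (V := V) (by rw [hunit]; exact one_ne_zero))
  have hu2 : rd V ((1 - E.lam * E.u z * E.u w) ^ 2) ≠ 0 := by
    rw [rd_pow (by repeat' (first | assumption | with_reducible apply pow_mem | with_reducible apply mul_mem | with_reducible apply add_mem | with_reducible apply sub_mem)), hunit]; simp
  have a1 : E.u (z + w) + E.u (z - w) ∈ V := mem_of_mul_mem s1 (by repeat' (first | assumption | with_reducible apply pow_mem | with_reducible apply mul_mem | with_reducible apply add_mem | with_reducible apply sub_mem)) (by repeat' (first | assumption | with_reducible apply pow_mem | with_reducible apply mul_mem | with_reducible apply add_mem | with_reducible apply sub_mem)) hu2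
  have a2 : E.u (z + w) * E.u (z - w) ∈ V := mem_of_mul_mem s2 (by repeat' (first | assumption | with_reducible apply pow_mem | with_reducible apply mul_mem | with_reducible apply add_mem | with_reducible apply sub_mem)) (by repeat' (first | assumption | with_reducible apply pow_mem | with_reducible apply mul_mem | with_reducible apply add_mem | with_reducible apply sub_mem)) hu2
  have m3 : E.u (z + w) ∈ V := mem_of_add_mul a1 a2
  have m4 : E.u (z - w) ∈ V := by simpa using sub_mem a1 m3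
  have r1 := congrArg (rd V) s1
  have r2 := congrArg (rd V) s2
  simp (disch := repeat' (first | assumption | with_reducible apply pow_mem | with_reducible apply mul_mem | with_reducible apply add_mem | with_reducible apply sub_mem)) only [rd_pow, rd_sub, rd_mul, rd_add, rd_one, rd_two, l0] at r1 r2
  exact ⟨k3, m3, k4, m4, by linear_combination r1, by linear_combination r2⟩

lemma good_reduction (H : Half L ω₁ ω₂ ω₃) (hE : Endo L π Q (2 * h + 1))
    [CharP (ResidueField V) (2 * h + 1)] (hp : (2 * h + 1).Prime)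
    (f₁ : π * ω₁ - ω₁ ∈ L.lattice) (f₂ : π * ω₂ - ω₂ ∈ L.lattice)
    (hl : E.lam ∈ V) (hQ : E.Kr V Q) (t : ℤ) (hπ : π ^ 2 = t * π - (2 * h + 1 : ℕ))
    (n₁ n₂ : ℕ) (hn₁ : 0 < n₁) (hn₂ : 0 < n₂) (e₁ : (n₁ : ℤ) = (2 * h + 1 : ℕ) + 1 - t)
    (e₂ : (n₂ : ℤ) = (2 * h + 1 : ℕ) + 1 + t) : rd V E.lam ≠ 0 := by
  intro l0
  have : Fact (2 * h + 1).Prime := ⟨hp⟩
  set p := 2 * h + 1 with hpdef
  have h2 : (2 : ResidueField V) ≠ 0 := by
    intro h0
    have h1 : ((2 : ℕ) : ResidueField V) = 0 := by exact_mod_cast h0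
    rw [CharP.cast_eq_zero_iff _ p] at h1
    have := (Nat.prime_dvd_prime_iff_eq hp Nat.prime_two).mp h1
    omega
  have h4 : (4 : ResidueField V) ≠ 0 := by
    rw [show (4 : ResidueField V) = 2 * 2 by norm_num]; exact mul_ne_zero h2 h2
  set M := p * (n₁ * n₂) with hM
  have hM0 : 0 < M := Nat.mul_pos hp.pos (Nat.mul_pos hn₁ hn₂)
  obtain ⟨s, hs⟩ := IsAlgClosed.exists_pow_nat_eq (5 : ℂ) (n := 2) (by norm_num)
  set η : ℂ := (3 + s) / 2 with hη
  have eη : η * (3 - η) = 1 := by rw [hη]; linear_combination (-1 / 4) * hs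
  have mη : η ∈ V := mem_of_add_mul (b := 3 - η) (by simp) (by rw [eη]; exact one_mem _)
  have mη' : 3 - η ∈ V := sub_mem three_mem mη
  obtain ⟨ζ, hζ⟩ := IsAlgClosed.exists_pow_nat_eq η hM0
  have mζ : ζ ∈ V := mem_of_pow_mem hM0.ne' (hζ ▸ mη)
  have mζ' : ζ⁻¹ ∈ V := mem_of_pow_mem hM0.ne' (by
    rw [inv_pow, hζ, ← eq_inv_of_mul_eq_one_right eη]; exact mη')
  have hζ0 : ζ ≠ 0 := by
    rintro rfl
    rw [zero_pow hM0.ne'] at hζ
    rw [← hζ] at eη
    simp at eη
  set a := rd V ζ with ha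
  set b := rd V ζ⁻¹ with hb
  have hab : a * b = 1 := by rw [ha, hb, ← rd_mul mζ mζ', mul_inv_cancel₀ hζ0, rd_one]
  have hM3 : a ^ M + b ^ M = 3 := by
    rw [ha, hb, ← rd_pow mζ, ← rd_pow mζ', inv_pow, hζ, ← eq_inv_of_mul_eq_one_right eη,
      ← rd_add mη mη', add_sub_cancel, rd_three]
  have hab2 : 2 - (a + b) ≠ 0 := by
    intro h0
    have h1 : (a - 1) ^ 2 = 0 := by linear_combination -a * h0 - hab
    have h3 : a = 1 := sub_eq_zero.mp (pow_eq_zero_iff two_ne_zero |>.mp h1)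
    have h5 : b = 1 := by rw [h3, one_mul] at hab; exact hab
    rw [h3, h5, one_pow] at hM3
    exact one_ne_zero (α := ResidueField V) (by linear_combination -hM3)
  have md : 2 - (ζ + ζ⁻¹) ∈ V := sub_mem two_mem (add_mem mζ mζ')
  have rdd : rd V (2 - (ζ + ζ⁻¹)) = 2 - (a + b) := by
    rw [rd_sub two_mem (add_mem mζ mζ'), rd_add mζ mζ', rd_two]
  have hd0 : 2 - (ζ + ζ⁻¹) ≠ 0 := ne_zero_of_rd_ne (V := V) (by rwa [rdd])
  obtain ⟨z, hz, hx⟩ := E.surj (4 / (2 - (ζ + ζ⁻¹)))
  have k1 : z + ω₁ ∉ L.lattice := by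
    rw [← E.x_eq_zero_iff H hz, hx]
    exact div_ne_zero (by norm_num) hd0
  have eu : E.u z * 4 = 2 - (ζ + ζ⁻¹) := by
    have := E.u_mul_x H hz k1
    rw [hx, ← mul_div_assoc, div_eq_one_iff_eq hd0] at this
    exact this
  have mu : E.u z ∈ V := mem_of_mul_mem eu md four_mem (by rwa [rd_four])
  have ru : rd V (E.u z) * 4 = 2 - (a + b) := by rw [← rdd, ← eu, rd_mul mu four_mem, rd_four]
  have key : ∀ j : ℕ, (j : ℂ) * z + ω₁ ∉ L.lattice ∧ E.u (j * z) ∈ V ∧
      2 - 4 * rd V (E.u (j * z)) = a ^ j + b ^ j := by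
    intro j
    induction j using Nat.twoStepInduction with
    | zero =>
      simp only [Nat.cast_zero, zero_mul, zero_add, E.u_lattice (zero_mem _), rd_zero, pow_zero]
      exact ⟨H.n₁, zero_mem _, by ring⟩
    | one =>
      simp only [Nat.cast_one, one_mul, pow_one]
      exact ⟨k1, mu, by linear_combination -ru⟩
    | more j ih1 ih2 =>
      obtain ⟨t1, t2, -, -, t3, -⟩ := E.E0_add H hl l0 ih2.1 ih2.2.1 k1 mu
      rw [show ((j + 1 : ℕ) : ℂ) * z + z = ((j + 2 : ℕ) : ℂ) * z by push_cast; ring] at t1 t2 t3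
      rw [show ((j + 1 : ℕ) : ℂ) * z - z = (j : ℂ) * z by push_cast; ring] at t3
      refine ⟨t1, t2, ?_⟩
      have i1 := ih1.2.2
      have i2 := ih2.2.2
      linear_combination (-4) * t3 - i1 + (2 - 4 * rd V (E.u z)) * i2
        - (a ^ (j + 1) + b ^ (j + 1)) * ru + (a ^ j + b ^ j) * hab
  have ru0 : rd V (E.u z) ≠ 0 := by
    intro h0
    rw [h0, zero_mul] at ru
    exact hab2 ru.symm
  have nK : ¬ E.Kr V z := fun hK => ru0 ((E.Kr_iff H).mp hK).2.2
  obtain ⟨nK', rx⟩ := E.frob_x H hE f₁ f₂ hl hQ nK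
  obtain ⟨n', m'⟩ := E.not_Kr.mp nK'
  have mx := (E.not_Kr.mp nK).2
  have r1 : rd V (E.u z) * rd V (E.x z) = 1 := by
    rw [← rd_mul mu mx, E.u_mul_x H hz k1, rd_one]
  have rx0 : rd V (E.x (π * z)) ≠ 0 := by
    rw [rx]; exact pow_ne_zero _ (right_ne_zero_of_mul_eq_one r1)
  have k2 : π * z + ω₁ ∉ L.lattice := by
    rw [← E.x_eq_zero_iff H n']
    exact ne_zero_of_rd_ne rx0
  have mu' : E.u (π * z) ∈ V := mem_of_mul_mem (E.u_mul_x H n' k2) (one_mem _) m' rx0
  have r2 : rd V (E.u (π * z)) = rd V (E.u z) ^ p := by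
    apply mul_right_cancel₀ rx0
    rw [← rd_mul mu' m', E.u_mul_x H n' k2, rd_one, rx, ← mul_pow, r1, one_pow]
  have r3 : rd V (E.u (p * z)) = rd V (E.u (π * z)) := by
    have i1 := (key p).2.2
    have two_p : (2 : ResidueField V) ^ p = 2 := by
      have := map_natCast (frobenius (ResidueField V) p) 2
      simpa [frobenius_def] using this
    have four_p : (4 : ResidueField V) ^ p = 4 := by
      have := map_natCast (frobenius (ResidueField V) p) 4
      simpa [frobenius_def] using this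
    rw [← add_pow_char, show a + b = 2 - 4 * rd V (E.u z) by linear_combination ru,
      sub_pow_char, mul_pow, two_p, four_p, ← r2] at i1
    apply mul_left_cancel₀ h4
    linear_combination -i1
  obtain ⟨t1, t2, t3, t4, -, t5⟩ := E.E0_add H hl l0 (key p).1 (key p).2.1 k2 mu'
  rw [r3, sub_self, zero_pow two_ne_zero, mul_eq_zero] at t5
  have c₁ : (n₁ : ℂ) = p + 1 - t := by exact_mod_cast e₁
  have c₂ : (n₂ : ℂ) = p + 1 + t := by exact_mod_cast e₂
  have hK : E.Kr V (M * z) := by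
    rcases t5 with t5 | t5
    · have K1 : E.Kr V (p * z + π * z) := (E.Kr_iff H).mpr ⟨t1, t2, t5⟩
      have K2 := E.Kr_nat hl (E.Kr_add hl (E.Kr_int hl K1 (p + t))
        (E.Kr_neg (E.Kr_pi H hE f₁ f₂ hl hQ K1))) n₁
      convert K2 using 1
      rw [hM]
      push_cast
      rw [c₂]
      linear_combination (n₁ : ℂ) * z * hπ
    · have K1 : E.Kr V (p * z - π * z) := (E.Kr_iff H).mpr ⟨t3, t4, t5⟩
      have K2 := E.Kr_nat hl (E.Kr_add hl (E.Kr_int hl K1 (p - t))
        (E.Kr_pi H hE f₁ f₂ hl hQ K1)) n₂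
      convert K2 using 1
      rw [hM]
      push_cast
      rw [c₁]
      linear_combination (n₂ : ℂ) * z * hπ
  have i1 := (key M).2.2
  rw [((E.Kr_iff H).mp hK).2.2, hM3] at i1
  exact one_ne_zero (α := ResidueField V) (by linear_combination -i1)

end Leg

end Pool.Agent.Lib.MP_4a1067_nt
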