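import Mathlib
import Pool.Agent.Lib.MP_4a1067_nt.Good

/-! Existence of Legendre curves over a prime field with prescribed trace up to sign. -/

namespace Pool.Agent.Lib.MP_4a1067_nt

open IsLocalRing

lemma card_le_sum {p : ℕ} [hp : Fact p.Prime] (hp2 : p ≠ 2) {k : Type*} [Field k] [CharP k p]
    (f : ZMod p → ZMod p) (δ : ℤ) (hδ : δ = 1 ∨ δ = -1) {ι : Type*} [Fintype ι]
    (ξ : ι → ZMod p) (η : ι → k)
    (h1 : ∀ i, η i ^ 2 = ZMod.castHom (dvd_refl p) k (f (ξ i))) (h2 : ∀ i, η i ^ p = δ * η i)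
    (hinj : ∀ i j, ξ i = ξ j → η i = η j → i = j) :
    (Fintype.card ι : ℤ) ≤ p + δ * ∑ a : ZMod p, quadraticChar (ZMod p) (f a) := by
  classical
  set φ := ZMod.castHom (dvd_refl p) k with hφ
  have hodd : p = 2 * (p / 2) + 1 := by
    have := hp.out.eq_two_or_odd
    omega
  have h2k : (2 : k) ≠ 0 := by
    intro h0
    have h3 : ((2 : ℕ) : k) = 0 := by exact_mod_cast h0
    rw [CharP.cast_eq_zero_iff k p] at h3
    exact hp2 ((Nat.prime_dvd_prime_iff_eq hp.out Nat.prime_two).mp h3)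
  have hchar : ringChar (ZMod p) ≠ 2 := by rw [ZMod.ringChar_zmod_n]; exact hp2
  have e : Fintype.card ι = ∑ a : ZMod p, (Finset.univ.filter fun i => ξ i = a).card := by
    rw [← Finset.card_univ]
    exact Finset.card_eq_sum_card_fiberwise (fun i _ => Finset.mem_univ (ξ i))
  have e2 : (p : ℤ) + δ * ∑ a : ZMod p, quadraticChar (ZMod p) (f a)
      = ∑ a : ZMod p, (1 + δ * quadraticChar (ZMod p) (f a)) := by
    rw [Finset.sum_add_distrib, Finset.mul_sum]
    simp [ZMod.card]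
  rw [e, e2]
  push_cast
  refine Finset.sum_le_sum fun a _ => ?_
  set S := Finset.univ.filter fun i => ξ i = a with hS
  have hSa : ∀ i ∈ S, ξ i = a := fun i hi => (Finset.mem_filter.mp hi).2
  rcases S.eq_empty_or_nonempty with h0 | ⟨i, hi⟩
  · rw [h0]
    rcases hδ with rfl | rfl <;> rcases quadraticChar_isQuadratic (ZMod p) (f a) with h | h | h <;>
      rw [h] <;> norm_num
  by_cases hf : f a = 0
  · have : S.card ≤ 1 := by
      refine Finset.card_le_one.mpr fun i hi j hj => hinj i j ((hSa i hi).trans (hSa j hj).symm) ?_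
      have a1 := h1 i
      have a2 := h1 j
      rw [hSa i hi, hf, map_zero] at a1
      rw [hSa j hj, hf, map_zero] at a2
      rw [pow_eq_zero_iff two_ne_zero |>.mp a1, pow_eq_zero_iff two_ne_zero |>.mp a2]
    rw [hf, MulChar.map_zero, mul_zero, add_zero]
    exact_mod_cast this
  · have a1 := h1 i
    rw [hSa i hi] at a1
    have hη : η i ≠ 0 := by
      intro h0
      rw [h0, zero_pow two_ne_zero, eq_comm, map_eq_zero] at a1
      exact hf a1
    have a2 : ((quadraticChar (ZMod p) (f a) : ℤ) : k) = δ := by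
      have a3 := congrArg φ (quadraticChar_eq_pow_of_char_ne_two' hchar (f a))
      rw [map_intCast, map_pow, ZMod.card, ← a1, ← pow_mul] at a3
      rw [a3]
      apply mul_right_cancel₀ hη
      rw [← h2 i, ← pow_succ, ← hodd]
    have a4 : δ * quadraticChar (ZMod p) (f a) = 1 := by
      rcases hδ with rfl | rfl <;> rcases quadraticChar_dichotomy hf with h | h <;> rw [h] at a2 ⊢
      · norm_num
      · exact absurd (by push_cast at a2; linear_combination -a2) h2k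
      · exact absurd (by push_cast at a2; linear_combination a2) h2k
      · norm_num
    have : S.card ≤ 2 := by
      refine le_trans (Finset.card_le_card_of_injOn η (t := {η i, -η i}) ?_ ?_) Finset.card_le_two
      · intro j hj
        have a5 := h1 j
        rw [hSa j hj, ← a1] at a5
        simpa using sq_eq_sq_iff_eq_or_eq_neg.mp a5
      · intro j hj j' hj' hh
        exact hinj j j' ((hSa j hj).trans (hSa j' hj').symm) hh
    rw [a4]
    exact_mod_cast this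

lemma exists_cast {p : ℕ} [Fact p.Prime] {k : Type*} [Field k] [CharP k p] {a : k}
    (h : a ^ p = a) : ∃ b : ZMod p, ZMod.castHom (dvd_refl p) k b = a := by
  have := (Subfield.mem_bot_iff_pow_eq_self k p).mpr h
  rw [← ZMod.fieldRange_castHom_eq_bot p] at this
  exact this

namespace Leg
variable {L : PeriodPair} {ω₁ ω₂ ω₃ : ℂ} (E : Leg L ω₁ ω₂ ω₃) {V : ValuationSubring ℂ}
  {π Q : ℂ} {h : ℕ}

lemma count_le (H : Half L ω₁ ω₂ ω₃) (hE : Endo L π Q (2 * h + 1))
    [CharP (ResidueField V) (2 * h + 1)] [Fact (2 * h + 1).Prime]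
    (f₁ : π * ω₁ - ω₁ ∈ L.lattice) (f₂ : π * ω₂ - ω₂ ∈ L.lattice)
    (hl : E.lam ∈ V) (hQ : E.Kr V Q) (l0 : rd V E.lam ≠ 0) (l1 : rd V E.lam ≠ 1)
    (c : ℤ) (hc : c = 1 ∨ c = -1)
    (hy : ∀ z, ¬ E.Kr V z → rd V (E.y (π * z)) = c * rd V (E.y z) ^ (2 * h + 1))
    (l : ZMod (2 * h + 1)) (hlam : ZMod.castHom (dvd_refl _) (ResidueField V) l = rd V E.lam)
    (ε : ℤ) (hε : ε = 1 ∨ ε = -1) {ι : Type*} [Fintype ι] (z : ι → ℂ) (n : ℕ)
    (hn : ((2 * n : ℕ) : ResidueField V) ≠ 0) (z0 : ∀ i, z i ∉ L.lattice)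
    (zn : ∀ i, ((2 * n : ℕ) : ℂ) * z i ∈ L.lattice) (zi : ∀ i j, z i - z j ∈ L.lattice → i = j)
    (zε : ∀ i, π * z i - ε * z i ∈ L.lattice) :
    (Fintype.card ι : ℤ) ≤ (2 * h + 1 : ℕ)
      + ε * c * ∑ a : ZMod (2 * h + 1), quadraticChar (ZMod (2 * h + 1)) (a * (a - 1) * (a - l)) := by
  have h2 : (2 : ResidueField V) ≠ 0 := by
    intro h0
    apply hn
    push_cast
    rw [h0, zero_mul]
  have nK : ∀ w, w ∉ L.lattice → ((2 * n : ℕ) : ℂ) * w ∈ L.lattice → ¬ E.Kr V w :=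
    fun w h1 h3 hK => h1 (E.Kr_torsion H hl hK hn h3)
  have sep : ∀ w w', w ∉ L.lattice → ((2 * n : ℕ) : ℂ) * w ∈ L.lattice → w' ∉ L.lattice →
      ((2 * n : ℕ) : ℂ) * w' ∈ L.lattice → rd V (E.x w) = rd V (E.x w') →
      w - w' ∈ L.lattice ∨ w + w' ∈ L.lattice := by
    intro w w' a1 a2 a3 a4 a5
    rcases E.Kr_of_rd_eq hl h2 l0 l1 (nK w a1 a2) (nK w' a3 a4) a5 with hK | hK
    · exact Or.inl (E.Kr_torsion H hl hK hn (by rw [mul_sub]; exact sub_mem a2 a4))
    · exact Or.inr (E.Kr_torsion H hl hK hn (by rw [mul_add]; exact add_mem a2 a4))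
  have hxπ : ∀ i, E.x (π * z i) = E.x (z i) := by
    intro i
    have := zε i
    rcases hε with rfl | rfl
    · exact E.x_congr (by simpa using this)
    · exact E.x_congr' (by simpa using this)
  have hyπ : ∀ i, rd V (E.y (π * z i)) = ε * rd V (E.y (z i)) := by
    intro i
    have := zε i
    rcases hε with rfl | rfl
    · rw [E.y_congr (z := π * z i) (w := z i) (by simpa using this)]; simp
    · rw [E.y_congr' (z := π * z i) (w := z i) (by simpa using this),
        rd_neg (E.y_mem hl (nK _ (z0 i) (zn i)))]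
      simp
  have hfix : ∀ i, rd V (E.x (z i)) ^ (2 * h + 1) = rd V (E.x (z i)) := fun i => by
    rw [← (E.frob_x H hE f₁ f₂ hl hQ (nK _ (z0 i) (zn i))).2, hxπ]
  choose ξ hξ using fun i => exists_cast (hfix i)
  have hcurve : ∀ i, rd V (E.y (z i)) ^ 2
      = rd V (E.x (z i)) * (rd V (E.x (z i)) - 1) * (rd V (E.x (z i)) - rd V E.lam) := by
    intro i
    have h1V : (1 : ℂ) ∈ V := one_mem _
    have my := E.y_mem hl (nK _ (z0 i) (zn i))
    have mx := (E.not_Kr.mp (nK _ (z0 i) (zn i))).2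
    have c1 := congrArg (rd V) (E.curve _ (z0 i))
    simp (disch := repeat' (first | assumption | with_reducible apply pow_mem | with_reducible apply mul_mem | with_reducible apply add_mem | with_reducible apply sub_mem)) only [rd_pow, rd_sub, rd_mul, rd_one] at c1
    exact c1
  refine card_le_sum (k := ResidueField V) (by omega) (fun a => a * (a - 1) * (a - l)) (ε * c)
    (by rcases hε with rfl | rfl <;> rcases hc with rfl | rfl <;> simp) ξ
    (fun i => rd V (E.y (z i))) (fun i => ?_) (fun i => ?_) (fun i j h1 h3 => ?_)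
  · simp only [map_mul, map_sub, map_one, hξ, hlam]
    exact hcurve i
  · have a1 := hy _ (nK _ (z0 i) (zn i))
    rw [hyπ i] at a1
    have a2 : (c : ResidueField V) * c = 1 := by rcases hc with rfl | rfl <;> simp
    push_cast
    linear_combination -(c : ResidueField V) * a1 - rd V (E.y (z i)) ^ (2 * h + 1) * a2
  · have hx : rd V (E.x (z i)) = rd V (E.x (z j)) := by rw [← hξ, ← hξ, h1]
    rcases sep _ _ (z0 i) (zn i) (z0 j) (zn j) hx with a1 | a1
    · exact zi i j a1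
    · have a2 : rd V (E.y (z i)) = 0 := by
        have a3 := E.y_congr' a1
        have a4 : rd V (E.y (z i)) = -rd V (E.y (z j)) := by
          rw [a3, rd_neg (E.y_mem hl (nK _ (z0 j) (zn j)))]
        apply mul_left_cancel₀ h2
        linear_combination h3 + a4
      have half : ∀ ω, ω ∉ L.lattice → ω + ω ∈ L.lattice → rd V (E.x (z i)) = rd V (E.x ω) →
          i = j := by
        intro ω b1 b2 b3
        have b4 : ((2 * n : ℕ) : ℂ) * ω ∈ L.lattice := by
          have := nat_mul_mem b2 n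
          rwa [show (n : ℂ) * (ω + ω) = ((2 * n : ℕ) : ℂ) * ω by push_cast; ring] at this
        apply zi
        rcases sep _ _ (z0 i) (zn i) b1 b4 b3 with b5 | b5
        · have := sub_mem (add_mem (add_mem b5 b5) b2) a1
          rwa [show z i - ω + (z i - ω) + (ω + ω) - (z i + z j) = z i - z j by ring] at this
        · have := sub_mem (sub_mem (add_mem b5 b5) b2) a1
          rwa [show z i + ω + (z i + ω) - (ω + ω) - (z i + z j) = z i - z j by ring] at this
      have a5 := hcurve i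
      rw [a2, zero_pow two_ne_zero, eq_comm, mul_eq_zero, mul_eq_zero, sub_eq_zero,
        sub_eq_zero] at a5
      rcases a5 with (a5 | a5) | a5
      · exact half ω₁ H.n₁ H.t₁ (by rw [a5, E.x₁, rd_zero])
      · exact half ω₂ H.n₂ H.t₂ (by rw [a5, E.x₂, rd_one])
      · exact half ω₃ H.n₃ H.t₃ (by rw [a5, E.x₃])

end Leg

lemma exists_order {L : PeriodPair} {a b c : ℂ} (H : Half L a b c) (V : ValuationSubring ℂ) :
    ∃ ω₁ ω₂ ω₃, Half L ω₁ ω₂ ω₃ ∧ ∃ E : Leg L ω₁ ω₂ ω₃, E.lam ∈ V ∧ rd V E.lam ≠ 1 ∧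
      (ω₁ = a ∨ rd V E.lam = 0) := by
  have ng : ∀ {x y : ℂ}, x - y ∉ L.lattice → y - x ∉ L.lattice :=
    fun h h0 => h (by simpa using neg_mem h0)
  obtain ⟨E, hE⟩ := exists_leg H
  have hab : L.weierstrassP b - L.weierstrassP a ≠ 0 :=
    sub_ne_zero.mpr (P_half_ne H.n₁ H.n₂ H.t₂ H.d₁₂).symm
  by_cases h1 : E.lam ∈ V
  · by_cases h2 : rd V E.lam = 1
    · have H' : Half L b a c := ⟨H.n₂, H.n₁, H.n₃, H.t₂, H.t₁, H.t₃, ng H.d₁₂, H.d₂₃, H.d₁₃⟩
      obtain ⟨E', hE'⟩ := exists_leg H'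
      have e : E'.lam = 1 - E.lam := by
        have hba : L.weierstrassP a - L.weierstrassP b ≠ 0 :=
          sub_ne_zero.mpr (P_half_ne H.n₁ H.n₂ H.t₂ H.d₁₂)
        rw [hE, hE']; field_simp; ring
      refine ⟨b, a, c, H', E', e ▸ sub_mem (one_mem _) h1, ?_⟩
      rw [e, rd_sub (one_mem _) h1, h2, rd_one, sub_self]
      exact ⟨zero_ne_one, Or.inr rfl⟩
    · exact ⟨a, b, c, H, E, h1, h2, Or.inl rfl⟩
  · have H' : Half L a c b := ⟨H.n₁, H.n₃, H.n₂, H.t₁, H.t₃, H.t₂, H.d₁₃, H.d₁₂, ng H.d₂₃⟩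
    obtain ⟨E', hE'⟩ := exists_leg H'
    have e : E'.lam = E.lam⁻¹ := by rw [hE, hE', inv_div]
    obtain ⟨m, r⟩ := inv_mem_of_notMem h1
    refine ⟨a, c, b, H', E', e ▸ m, ?_⟩
    rw [e, r]
    exact ⟨zero_ne_one, Or.inl rfl⟩

lemma coord_eq {σ : ℂ} (hσ : σ.im ≠ 0) {a b c d : ℤ} (h : (a : ℂ) + b * σ = c + d * σ) :
    a = c ∧ b = d := by
  have h1 := congrArg Complex.im h
  simp only [Complex.add_im, Complex.intCast_im, Complex.mul_im, Complex.intCast_re, zero_mul,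
    add_zero, zero_add] at h1
  have h2 : b = d := by exact_mod_cast mul_right_cancel₀ hσ h1
  subst h2
  exact ⟨by exact_mod_cast add_right_cancel h, rfl⟩

lemma family {L : PeriodPair} {σ : ℂ} (hσ : σ.im ≠ 0) (τ : ℤ) (n : ℕ) (hn : 0 < n)
    (hq : σ ^ 2 = τ * σ - n) (hΛ : ∀ z, z ∈ L.lattice ↔ ∃ m k : ℤ, (m : ℂ) + k * σ = z) :
    ∃ z : {i : Fin (2 * n) × Fin 2 // i ≠ (⟨0, by omega⟩, 0)} → ℂ, (∀ i, z i ∉ L.lattice) ∧
      (∀ i, ((2 * n : ℕ) : ℂ) * z i ∈ L.lattice) ∧ (∀ i j, z i - z j ∈ L.lattice → i = j) ∧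
      ∀ i, 2 * σ * z i ∈ L.lattice := by
  have hσ0 : σ ≠ 0 := by rintro rfl; simp at hσ
  let w : Fin (2 * n) × Fin 2 → ℂ := fun i => ((i.1 : ℕ) + (i.2 : ℕ) * σ) / (2 * σ)
  have hw : ∀ i j, w i - w j ∈ L.lattice → i = j := by
    rintro ⟨a, b⟩ ⟨a', b'⟩ h
    obtain ⟨m, k, hmk⟩ := (hΛ _).mp h
    have e : (((a : ℕ) - (a' : ℕ) : ℤ) : ℂ) + (((b : ℕ) - (b' : ℕ) : ℤ) : ℂ) * σ
        = ((-(2 * n * k) : ℤ) : ℂ) + ((2 * m + 2 * k * τ : ℤ) : ℂ) * σ := by
      simp only [w] at hmk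
      field_simp at hmk
      push_cast
      linear_combination -hmk + 2 * k * hq
    obtain ⟨e1, e2⟩ := coord_eq hσ e
    have e3 : ((a : ℕ) - (a' : ℕ) : ℤ) = 0 :=
      Int.eq_zero_of_abs_lt_dvd (m := 2 * n) ⟨-k, by rw [e1]; ring⟩
        (by have := a.2; have := a'.2; rw [abs_lt]; omega)
    have e4 : ((b : ℕ) - (b' : ℕ) : ℤ) = 0 :=
      Int.eq_zero_of_abs_lt_dvd (m := 2) ⟨m + k * τ, by rw [e2]; ring⟩
        (by have := b.2; have := b'.2; rw [abs_lt]; omega)
    exact Prod.ext (Fin.ext (by simp only; omega)) (Fin.ext (by simp only; omega))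
  refine ⟨fun i => w i.1, fun i h => i.2 (hw _ _ (by simpa [w] using h)), fun i => ?_,
    fun i j h => Subtype.ext (hw _ _ h), fun i => ?_⟩
  · refine (hΛ _).mpr ⟨τ * (i.1.1 : ℕ) + (i.1.2 : ℕ) * n, -(i.1.1 : ℕ), ?_⟩
    simp only [w]
    field_simp
    push_cast
    linear_combination -2 * ((i.1.1 : ℕ) : ℂ) * hq
  · refine (hΛ _).mpr ⟨(i.1.1 : ℕ), (i.1.2 : ℕ), ?_⟩
    simp only [w]
    field_simp
    push_cast
    ring

end Pool.Agent.Lib.MP_4a1067_nt
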