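import Mathlib
import Pool.Agent.Lib.MP_4a1067_nt.Points

/-! Existence of Legendre curves over a prime field with prescribed trace up to sign. -/

namespace Pool.Agent.Lib.MP_4a1067_nt

open IsLocalRing

lemma exists_val (p : ℕ) (hp : p.Prime) : ∃ V : ValuationSubring ℂ, rd V p = 0 := by
  by_contra hcon
  push Not at hcon
  have hI : (Ideal.span {(p : (⊥ : Subring ℂ))}) ≠ ⊤ := by
    rw [Ne, Ideal.span_singleton_eq_top, isUnit_iff_exists_inv]
    rintro ⟨⟨b, hb⟩, h⟩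
    obtain ⟨n, rfl⟩ := Subring.mem_bot.mp hb
    have h1 : (p : ℂ) * n = 1 := by simpa using congrArg Subtype.val h
    have h2 : (p : ℤ) * n = 1 := by exact_mod_cast h1
    have h3 := Int.eq_one_of_mul_eq_one_right (by positivity) h2
    have := hp.one_lt
    omega
  obtain ⟨V, -, hV⟩ := Ideal.image_subset_nonunits_valuationSubring _ hI
  have h1 : (p : ℂ) ∈ V.nonunits := hV ⟨_, Ideal.subset_span rfl, by simp⟩
  have h2 := inv_mem_of_rd_ne (natCast_mem V p) (hcon V)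
  rw [ValuationSubring.mem_nonunits_iff] at h1
  rw [← ValuationSubring.valuation_le_one_iff, map_inv₀] at h2
  have h0 : V.valuation (p : ℂ) ≠ 0 := by
    rw [Ne, map_eq_zero]; exact_mod_cast hp.ne_zero
  exact absurd h2 (not_le.mpr (one_lt_inv_iff₀.mpr ⟨zero_lt_iff.mpr h0, h1⟩))

lemma deuring_aux (h : ℕ) [hp : Fact (2 * h + 1).Prime] (τ : ℤ) (n₁ n₂ : ℕ) (hn₁ : 0 < n₁)
    (hn₂ : 0 < n₂) (hn₁' : n₁ < 2 * h + 1) (hn₂' : n₂ < 2 * h + 1)
    (e₁ : 2 * (n₁ : ℤ) = h - τ) (e₂ : (n₂ : ℤ) = n₁ + τ + 1)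
    (V : ValuationSubring ℂ) (hV : rd V (2 * h + 1 : ℕ) = 0) (ρ : ℂ) (hρ : ρ.im ≠ 0)
    (hq : ρ ^ 2 = τ * ρ - n₁) (hπ : 2 * ρ + 1 ∈ V) (hπ0 : rd V (2 * ρ + 1) = 0) :
    ∃ l : ZMod (2 * h + 1), ¬ IsSquare l ∧
      |∑ a : ZMod (2 * h + 1), quadraticChar (ZMod (2 * h + 1)) (a * (a - 1) * (a - l))|
        = |2 * τ + 2| := by
  have hchar : CharP (ResidueField V) (2 * h + 1) :=
    (CharP.charP_iff_prime_eq_zero hp.out).mpr (by rwa [rd_natCast] at hV)
  let L : PeriodPair := ⟨1, ρ, by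
    rw [LinearIndependent.pair_iff]
    intro s t hst
    have h1 := congrArg Complex.im hst
    simp only [Complex.real_smul, mul_one, Complex.add_im, Complex.ofReal_im, Complex.mul_im,
      Complex.ofReal_re, zero_mul, add_zero, zero_add, Complex.zero_im, mul_eq_zero, hρ,
      or_false] at h1
    subst h1
    simpa using hst⟩
  have hΛ : ∀ z, z ∈ L.lattice ↔ ∃ m k : ℤ, (m : ℂ) + k * ρ = z := by
    intro z
    rw [PeriodPair.mem_lattice]
    simp [L]
  have hΛ' : ∀ z, z ∈ L.lattice ↔ ∃ m k : ℤ, (m : ℂ) + k * (ρ + 1) = z := by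
    intro z
    rw [hΛ]
    constructor
    · rintro ⟨m, k, rfl⟩
      exact ⟨m - k, k, by push_cast; ring⟩
    · rintro ⟨m, k, rfl⟩
      exact ⟨m + k, k, by push_cast; ring⟩
  have hmul : ∀ l ∈ L.lattice, ρ * l ∈ L.lattice := by
    intro l hl
    obtain ⟨m, k, rfl⟩ := (hΛ l).mp hl
    exact (hΛ _).mpr ⟨-(k * n₁), m + k * τ, by push_cast; linear_combination -(k : ℂ) * hq⟩
  set π : ℂ := 2 * ρ + 1 with hπdef
  have c₁ : 2 * (n₁ : ℂ) = h - τ := by exact_mod_cast e₁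
  have c₂ : (n₂ : ℂ) = n₁ + τ + 1 := by exact_mod_cast e₂
  have hππ : π * (2 * τ + 1 - 2 * ρ) = 2 * h + 1 := by
    rw [hπdef]; linear_combination -4 * hq + 2 * c₁
  have hp0 : (2 * h + 1 : ℂ) ≠ 0 := by exact_mod_cast hp.out.ne_zero
  have hπne : π ≠ 0 := by
    intro h0
    rw [h0, zero_mul] at hππ
    exact hp0 hππ.symm
  have hE : Endo L π π⁻¹ (2 * h + 1) := by
    refine ⟨hπne, by omega, fun m hm => ?_, ?_, fun k => ⟨fun hk => ?_, ?_⟩, fun l hl => ?_⟩
    · have := add_mem (add_mem (hmul m hm) (hmul m hm)) hm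
      rwa [show ρ * m + ρ * m + m = π * m by rw [hπdef]; ring] at this
    · rw [mul_inv_cancel₀ hπne]
      exact (hΛ _).mpr ⟨1, 0, by simp⟩
    · obtain ⟨m, j, e⟩ := (hΛ _).mp hk
      have e' : (k : ℂ) = π * (m + j * ρ) := by rw [e]; field_simp
      have e'' : ((k * (2 * τ + 1) : ℤ) : ℂ) + ((-2 * k : ℤ) : ℂ) * ρ
          = (((2 * h + 1) * m : ℤ) : ℂ) + (((2 * h + 1) * j : ℤ) : ℂ) * ρ := by
        push_cast
        linear_combination (2 * τ + 1 - 2 * ρ) * e' + (m + j * ρ) * hππ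
      have e3 := (coord_eq hρ e'').2
      exact ⟨k + h * j, by push_cast; linear_combination h * e3⟩
    · rintro ⟨j, rfl⟩
      refine (hΛ _).mpr ⟨j * (2 * τ + 1), -2 * j, ?_⟩
      push_cast
      field_simp
      linear_combination (j : ℂ) * hππ
    · obtain ⟨m, n, rfl⟩ := (hΛ l).mp hl
      refine ⟨-m + n * (h + 1), n * ((h + 1) - (2 * τ + 1 - 2 * ρ) * ρ), int_mul_mem ?_ n, ?_⟩
      · exact (hΛ _).mpr ⟨h + 1 - 2 * n₁, -1, by push_cast; linear_combination -2 * hq⟩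
      · push_cast
        field_simp
        rw [hπdef] at hππ ⊢
        linear_combination (n : ℂ) * ρ * hππ
  have half : ∀ a b : ℤ, ((a : ℂ) + b * ρ) / 2 ∈ L.lattice → (2 : ℤ) ∣ a ∧ (2 : ℤ) ∣ b := by
    intro a b hab
    obtain ⟨m, k, e⟩ := (hΛ _).mp hab
    have := coord_eq hρ (a := a) (b := b) (c := 2 * m) (d := 2 * k)
      (by push_cast; linear_combination -2 * e)
    exact ⟨⟨m, this.1⟩, ⟨k, this.2⟩⟩
  have H0 : Half L (1 / 2) (ρ / 2) ((1 + ρ) / 2) := by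
    refine ⟨fun h0 => ?_, fun h0 => ?_, fun h0 => ?_, (hΛ _).mpr ⟨1, 0, by push_cast; ring⟩,
      (hΛ _).mpr ⟨0, 1, by push_cast; ring⟩, (hΛ _).mpr ⟨1, 1, by push_cast; ring⟩,
      fun h0 => ?_, fun h0 => ?_, fun h0 => ?_⟩
    · have := (half 1 0 (by convert h0 using 1; push_cast; ring)).1; omega
    · have := (half 0 1 (by convert h0 using 1; push_cast; ring)).2; omega
    · have := (half 1 1 (by convert h0 using 1; push_cast; ring)).1; omega
    · have := (half 1 (-1) (by convert h0 using 1; push_cast; ring)).1; omega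
    · have := (half 0 (-1) (by convert h0 using 1; push_cast; ring)).2; omega
    · have := (half (-1) 0 (by convert h0 using 1; push_cast; ring)).1; omega
  obtain ⟨ω₁, ω₂, ω₃, H, E, hl, l1, hω⟩ := exists_order H0 V
  have hf : ∀ ω, ω + ω ∈ L.lattice → π * ω - ω ∈ L.lattice := by
    intro ω hω
    have := hmul _ hω
    rwa [show ρ * (ω + ω) = π * ω - ω by rw [hπdef]; ring] at this
  have f₁ := hf _ H.t₁
  have f₂ := hf _ H.t₂
  have f₃ := hf _ H.t₃
  have hQ := E.Kr_Q H hE hp.out f₁ f₂ f₃ hl l1 hπ hπ0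
  have l0 := E.good_reduction H hE hp.out f₁ f₂ hl hQ (2 * τ + 2) (by
      push_cast
      rw [hπdef] at hππ ⊢
      linear_combination -hππ) (4 * n₁) (4 * n₂) (by omega) (by omega)
    (by push_cast; omega) (by push_cast; omega)
  obtain ⟨c, hc, hy⟩ := E.frob_y H hE f₁ f₂ f₃ hl hQ
  obtain ⟨c', hc', rfl⟩ : ∃ c' : ℤ, (c' = 1 ∨ c' = -1) ∧ c = c' := by
    rcases hc with rfl | rfl
    · exact ⟨1, Or.inl rfl, by simp⟩
    · exact ⟨-1, Or.inr rfl, by simp⟩
  have hfix : rd V E.lam ^ (2 * h + 1) = rd V E.lam := by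
    have := (E.frob_x H hE f₁ f₂ hl hQ (E.half_not_Kr H hl).2.2).2
    rw [E.x_congr f₃, E.x₃] at this
    exact this.symm
  obtain ⟨l, hlam⟩ := exists_cast hfix
  have hnn : ∀ n : ℕ, 0 < n → n < 2 * h + 1 → ((2 * n : ℕ) : ResidueField V) ≠ 0 := by
    intro n h1 h2 h0
    rw [CharP.cast_eq_zero_iff _ (2 * h + 1)] at h0
    rcases (Nat.Prime.dvd_mul hp.out).mp h0 with h3 | h3
    · have := Nat.le_of_dvd (by norm_num) h3
      omega
    · have := Nat.le_of_dvd h1 h3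
      omega
  obtain ⟨z, z0, zn, zi, zε⟩ := family hρ τ n₁ hn₁ hq hΛ
  obtain ⟨z', z0', zn', zi', zε'⟩ := family (σ := ρ + 1) (by simpa using hρ) (τ + 2) n₂ hn₂
    (by push_cast; linear_combination hq + c₂) hΛ'
  have b1 := E.count_le H hE f₁ f₂ hl hQ l0 l1 c' hc' hy l hlam 1 (Or.inl rfl) z n₁
    (hnn _ hn₁ hn₁') z0 zn zi (fun i => by
      convert zε i using 1
      rw [hπdef]; push_cast; ring)
  have b2 := E.count_le H hE f₁ f₂ hl hQ l0 l1 c' hc' hy l hlam (-1) (Or.inr rfl) z' n₂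
    (hnn _ hn₂ hn₂') z0' zn' zi' (fun i => by
      convert zε' i using 1
      rw [hπdef]; push_cast; ring)
  simp only [ne_eq, Fintype.card_subtype_compl, Fintype.card_prod, Fintype.card_fin,
    Fintype.card_unique] at b1 b2
  rw [Nat.cast_sub (by omega)] at b1 b2
  push_cast at b1 b2
  refine ⟨l, ?_, ?_⟩
  · rintro ⟨m, rfl⟩
    obtain rfl := hω.resolve_right l0
    have h1 : 1 ≤ h := by have := hp.out.one_lt; omega
    have h2 : ((2 * 1 : ℕ) : ResidueField V) ≠ 0 := hnn 1 (by omega) (by omega)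
    have h4 : ((2 * 2 : ℕ) : ResidueField V) ≠ 0 := hnn 2 (by omega) (by omega)
    have one : (1 : ℂ) ∈ L.lattice := (hΛ _).mpr ⟨1, 0, by simp⟩
    have n1 : (1 / 4 : ℂ) ∉ L.lattice := fun h0 => H.n₁ (by
      convert add_mem h0 h0 using 1; ring)
    have n2 : (1 / 4 + 1 / 2 : ℂ) ∉ L.lattice := fun h0 => n1 (by
      convert sub_mem one h0 using 1; ring)
    have nK : ¬ E.Kr V (1 / 4) := fun hK => n1 (E.Kr_torsion H hl hK h4 (by
      convert one using 1; push_cast; ring))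
    have e : E.x (1 / 4) ^ 2 = E.lam := by
      have := E.u_mul_x H n1 n2
      unfold Leg.u at this
      rw [E.x_congr' (z := 1 / 4 + 1 / 2) (w := 1 / 4) (by convert one using 1; ring)] at this
      have := E.lam0
      field_simp at *
      assumption
    have r := congrArg (rd V) e
    rw [rd_pow (E.not_Kr.mp nK).2, ← hlam, map_mul, ← sq] at r
    have hm : ZMod.castHom (dvd_refl _) (ResidueField V) m ^ (2 * h + 1)
        = ZMod.castHom (dvd_refl _) (ResidueField V) m := by rw [← map_pow, ZMod.pow_card]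
    obtain ⟨nK', r2⟩ := E.frob_x H hE f₁ f₂ hl hQ nK
    have r3 : rd V (E.x (π * (1 / 4))) = rd V (E.x (1 / 4)) := by
      rw [r2]
      rcases sq_eq_sq_iff_eq_or_eq_neg.mp r with r | r
      · rw [r, hm]
      · rw [r, (show Odd (2 * h + 1) from ⟨h, rfl⟩).neg_pow, hm]
    have hπΛ := hE.mem _ one
    rcases E.Kr_of_rd_eq hl (by simpa using h2) l0 l1 nK' nK r3 with hK | hK
    · have := E.Kr_torsion H hl hK h4 (by convert sub_mem hπΛ one using 1; push_cast; ring)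
      exact H0.n₂ (by convert this using 1; rw [hπdef]; ring)
    · have := E.Kr_torsion H hl hK h4 (by convert add_mem hπΛ one using 1; push_cast; ring)
      exact H0.n₃ (by convert this using 1; rw [hπdef]; ring)
  · rw [abs_eq_abs]
    rcases hc' with rfl | rfl
    · right; omega
    · left; omega

lemma deuring_abs (p : ℕ) [hp : Fact p.Prime] (hp2 : p ≠ 2) (t : ℤ) (ht : t ^ 2 < 4 * p)
    (h4 : (4 : ℤ) ∣ p + 1 - t) : ∃ l : ZMod p, ¬ IsSquare l ∧
      |∑ a : ZMod p, quadraticChar (ZMod p) (a * (a - 1) * (a - l))| = |t| := by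
  obtain ⟨h, rfl⟩ : ∃ h, p = 2 * h + 1 := ⟨p / 2, by have := hp.out.eq_two_or_odd; omega⟩
  have hh : 1 ≤ h := by have := hp.out.one_lt; omega
  obtain ⟨m, hm⟩ := h4
  push_cast at ht hm
  obtain ⟨τ, rfl⟩ : ∃ τ : ℤ, t = 2 * τ + 2 := ⟨h - 2 * m, by omega⟩
  have hτ1 : τ + 1 < h + 1 := by nlinarith
  have hτ2 : -(h + 1 : ℤ) < τ + 1 := by nlinarith
  obtain ⟨n₁, rfl⟩ := Int.eq_ofNat_of_zero_le (a := m) (by omega)
  obtain ⟨n₂, e₂⟩ := Int.eq_ofNat_of_zero_le (a := n₁ + τ + 1) (by omega)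
  obtain ⟨V, hV⟩ := exists_val _ hp.out
  set D : ℝ := 4 * n₁ - τ ^ 2 with hD
  have hD0 : 0 < D := by
    have : (0 : ℤ) < 4 * n₁ - τ ^ 2 := by nlinarith
    rw [hD]; exact_mod_cast this
  set s : ℂ := Complex.I * (Real.sqrt D : ℝ) with hs
  have hs2 : s ^ 2 = τ ^ 2 - 4 * n₁ := by
    rw [hs, mul_pow, Complex.I_sq, ← Complex.ofReal_pow, Real.sq_sqrt hD0.le, hD]
    push_cast; ring
  have hsim : s.im ≠ 0 := by
    simpa [hs] using (Real.sqrt_pos.mpr hD0).ne'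
  have c₁ : 2 * (n₁ : ℂ) = h - τ := by exact_mod_cast (by omega : 2 * (n₁ : ℤ) = h - τ)
  have e1 : (τ + s + 1) * (τ - s + 1) = ((2 * h + 1 : ℕ) : ℂ) := by
    push_cast; linear_combination -hs2 + 2 * c₁
  have m1 : τ + s + 1 ∈ V := mem_of_add_mul (b := τ - s + 1)
    (by rw [show τ + s + 1 + (τ - s + 1) = ((2 * τ + 2 : ℤ) : ℂ) by push_cast; ring]
        exact intCast_mem V _) (by rw [e1]; exact natCast_mem V _)
  have m2 : τ - s + 1 ∈ V := by
    have := sub_mem (intCast_mem V (2 * τ + 2)) m1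
    rwa [show ((2 * τ + 2 : ℤ) : ℂ) - (τ + s + 1) = τ - s + 1 by push_cast; ring] at this
  have r := congrArg (rd V) e1
  rw [rd_mul m1 m2, hV, mul_eq_zero] at r
  rcases r with r | r
  · exact deuring_aux h τ n₁ n₂ (by omega) (by omega) (by omega) (by omega) (by omega) e₂.symm V hV
      ((τ + s) / 2) (by simpa using hsim) (by linear_combination hs2 / 4)
      (by rwa [mul_div_cancel₀ _ two_ne_zero]) (by rwa [mul_div_cancel₀ _ two_ne_zero])
  · exact deuring_aux h τ n₁ n₂ (by omega) (by omega) (by omega) (by omega) (by omega) e₂.symm V hV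
      ((τ - s) / 2) (by simpa using hsim) (by linear_combination hs2 / 4)
      (by rwa [mul_div_cancel₀ _ two_ne_zero]) (by rwa [mul_div_cancel₀ _ two_ne_zero])

/-- Every `t` with `t ^ 2 < 4 p` and `4 ∣ p + 1 - t` is the character sum of a Legendre cubic
over `ZMod p`. -/
theorem deuring (p : ℕ) [hp : Fact p.Prime] (hp2 : p ≠ 2) (t : ℤ) (ht : t ^ 2 < 4 * p)
    (h4 : (4 : ℤ) ∣ p + 1 - t) : ∃ l : ZMod p, l ≠ 0 ∧ l ≠ 1 ∧
      ∑ a : ZMod p, quadraticChar (ZMod p) (a * (a - 1) * (a - l)) = t := by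
  obtain ⟨l, hl, hS⟩ := deuring_abs p hp2 t ht h4
  have l0 : l ≠ 0 := by rintro rfl; exact hl IsSquare.zero
  have l1 : l ≠ 1 := by rintro rfl; exact hl IsSquare.one
  rcases abs_eq_abs.mp hS with h | h
  · exact ⟨l, l0, l1, h⟩
  · refine ⟨l⁻¹, inv_ne_zero l0, fun h0 => l1 (inv_eq_one.mp h0), ?_⟩
    rw [← Equiv.sum_comp (Equiv.mulLeft₀ l⁻¹ (inv_ne_zero l0)), ← neg_neg t, ← h,
      ← Finset.sum_neg_distrib]
    refine Finset.sum_congr rfl fun a _ => ?_
    have e : l⁻¹ * a * (l⁻¹ * a - 1) * (l⁻¹ * a - l⁻¹)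
        = l * (l⁻¹ ^ 2) ^ 2 * (a * (a - 1) * (a - l)) := by
      field_simp
    rw [Equiv.mulLeft₀_apply, e, map_mul, map_mul, quadraticChar_neg_one_iff_not_isSquare.mpr hl,
      quadraticChar_sq_one' (pow_ne_zero _ (inv_ne_zero l0))]
    ring

end Pool.Agent.Lib.MP_4a1067_nt
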