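import Mathlib
import Pool.Agent.Lib.MP_4a1067_nt.Deuring
import Pool.Agent.Lib.MP_4a1067_nt.Count

/-! A global invariant of the functional graph equal to the trace of a Legendre curve. -/

namespace Pool.Agent.Lib.MP_4a1067_nt

variable {F : Type*} [Field F] [Fintype F] [DecidableEq F]

/-- a global invariant of the functional graph of `x ^ 2 + a` -/
def tr (a : F) : ℤ :=
  ∑ x : F, quadraticChar F (x - a) * quadraticChar F (-x - a) * quadraticChar F (-(x ^ 2 + a) - a)

lemma conj_tr (h2 : (2 : F) ≠ 0) {a b : F} (σ : F ≃ F) (h : ∀ x, σ (x ^ 2 + a) = σ x ^ 2 + b) :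
    tr a = tr b := by
  unfold tr
  refine Fintype.sum_equiv σ _ _ fun x => ?_
  rw [conj_chi h2 σ h x, conj_chi h2 σ h (-x), conj_chi h2 σ h (-(x ^ 2 + a)), conj_neg h2 σ h,
    conj_neg h2 σ h, h]

lemma sum_sq_comp (hF : ringChar F ≠ 2) (g : F → ℤ) :
    ∑ x : F, g (x ^ 2) = ∑ w : F, (quadraticChar F w + 1) * g w := by
  rw [← Finset.sum_fiberwise_of_maps_to (s := Finset.univ) (t := Finset.univ) (g := fun x : F => x ^ 2)
    (fun _ _ => Finset.mem_univ _)]
  refine Finset.sum_congr rfl fun w _ => ?_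
  rw [← quadraticChar_card_sqrts hF w, Finset.sum_congr rfl (g := fun _ => g w)
    (fun x hx => by rw [(Finset.mem_filter.mp hx).2]), Finset.sum_const, nsmul_eq_mul]
  congr 3
  ext x
  simp

lemma sum_conic (hF : ringChar F ≠ 2) {l : F} (hl : l ≠ 1) :
    ∑ s : F, quadraticChar F ((s - 1) * (s - l)) = -1 := by
  have hd : (1 : F) - l ≠ 0 := sub_ne_zero.mpr hl.symm
  have e1 : ∑ s : F, quadraticChar F ((s - 1) * (s - l))
      = ∑ s : F, (quadraticChar F (1 - s⁻¹) - if s = 0 then 1 else 0) := by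
    rw [← Equiv.sum_comp ((Equiv.mulLeft₀ (1 - l) hd).trans (Equiv.addRight l))]
    refine Finset.sum_congr rfl fun s _ => ?_
    simp only [Equiv.trans_apply, Equiv.mulLeft₀_apply, Equiv.coe_addRight]
    split_ifs with h
    · simp [h]
    · have e : ((1 - l) * s + l - 1) * ((1 - l) * s + l - l) = ((1 - l) * s) ^ 2 * (1 - s⁻¹) := by
        field_simp
        ring
      rw [e, map_mul, quadraticChar_sq_one' (mul_ne_zero hd h)]
      ring
  have e2 : ∑ s : F, quadraticChar F (1 - s⁻¹) = ∑ s : F, quadraticChar F s :=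
    Equiv.sum_comp ((Equiv.inv F).trans (Equiv.subLeft 1)) (fun s => quadraticChar F s)
  rw [e1, Finset.sum_sub_distrib, e2, quadraticChar_sum_zero hF]
  simp

lemma tr_eq (hF : ringChar F ≠ 2) (h2 : (2 : F) ≠ 0) {l : F} (l0 : l ≠ 0) (l1 : l ≠ 1) :
    tr (-2 / l) = ∑ s : F, quadraticChar F (s * (s - 1) * (s - l)) - 1 := by
  set a : F := -2 / l with ha
  have ha0 : a ≠ 0 := div_ne_zero (neg_ne_zero.mpr h2) l0
  have hal : l * a = -2 := by rw [ha]; field_simp
  have e1 : tr a = ∑ x : F, quadraticChar F ((x ^ 2 - a ^ 2) * (x ^ 2 + 2 * a)) := by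
    refine Finset.sum_congr rfl fun x _ => ?_
    rw [← map_mul, ← map_mul]
    congr 1
    ring
  rw [e1, sum_sq_comp hF (fun w => quadraticChar F ((w - a ^ 2) * (w + 2 * a))),
    ← Equiv.sum_comp (Equiv.mulLeft₀ (a ^ 2) (pow_ne_zero 2 ha0)), sub_eq_add_neg,
    ← sum_conic hF l1, ← Finset.sum_add_distrib]
  refine Finset.sum_congr rfl fun s _ => ?_
  have e : (a ^ 2 * s - a ^ 2) * (a ^ 2 * s + 2 * a) = (a ^ 2) ^ 2 * ((s - 1) * (s - l)) := by
    linear_combination (a ^ 2 * s - a ^ 2) * a * hal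
  rw [Equiv.mulLeft₀_apply, e, map_mul, map_mul, quadraticChar_sq_one' ha0,
    quadraticChar_sq_one' (pow_ne_zero 2 ha0), mul_assoc s, map_mul (quadraticChar F) s]
  ring

end Pool.Agent.Lib.MP_4a1067_nt
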