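import Mathlib
import Pool.Agent.Lib.MP_4a1067_nt.Trace

/-! Definitions for the isogeny amplifier: algebraic isogeny data, superlattices, places. -/

namespace Pool.Agent.Lib.MP_4a1067_nt.Am

open Polynomial IsLocalRing

/-- numerator of the symmetric addition formula on `y ^ 2 = x (x - 1) (x - b)` -/
def nn {R : Type*} [CommRing R] (b s t : R) : R :=
  s * t ^ 2 + s ^ 2 * t - 2 * (1 + b) * s * t + b * (s + t)

/-- `s k` (`1 ≤ k ≤ h + 1`) is the abscissa of `k Q` for a point `Q` of exact order `2 h + 1` on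
`y ^ 2 = x (x - 1) (x - b)`, the quotient curve has parameter `m`, and `c` is the multiplier. -/
structure Isog {R : Type*} [CommRing R] (h : ℕ) (b m c : R) (s : ℕ → R) : Prop where
  two : IsUnit (2 : R)
  u0 : ∀ k < h, IsUnit (s (k + 1))
  u1 : ∀ k < h, IsUnit (s (k + 1) - 1)
  ub : ∀ k < h, IsUnit (s (k + 1) - b)
  ud : ∀ k, k + 1 < h → IsUnit (s (k + 2) - s 1)
  dbl : s 2 * (4 * (s 1 * (s 1 - 1) * (s 1 - b))) = (s 1 ^ 2 - b) ^ 2
  step : ∀ k, k + 1 < h →
    (s (k + 3) + s (k + 1)) * (s (k + 2) - s 1) ^ 2 = 2 * nn b (s (k + 2)) (s 1)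
  fin : s (h + 1) = s h
  mu : m * ∏ k ∈ Finset.range h, (s (k + 1) - b) ^ 4
    = b ^ (2 * h + 1) * ∏ k ∈ Finset.range h, (s (k + 1) - 1) ^ 4
  ga : c * ∏ k ∈ Finset.range h, (s (k + 1) - b) ^ 2
    = ∏ k ∈ Finset.range h, (s (k + 1) * (s (k + 1) - 1)) ^ 2

section Isog
variable {R R' : Type*} [CommRing R] [CommRing R'] {h : ℕ} {b m c m' c' : R} {s s' : ℕ → R}

lemma Isog.map (I : Isog h b m c s) (φ : R →+* R') :
    Isog h (φ b) (φ m) (φ c) (fun k => φ (s k)) where
  two := by simpa only [map_ofNat] using I.two.map φ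
  u0 k hk := (I.u0 k hk).map φ
  u1 k hk := by simpa only [map_sub, map_one] using (I.u1 k hk).map φ
  ub k hk := by simpa only [map_sub] using (I.ub k hk).map φ
  ud k hk := by simpa only [map_sub] using (I.ud k hk).map φ
  dbl := by simpa only [map_sub, map_mul, map_pow, map_one, map_ofNat] using congrArg φ I.dbl
  step k hk := by
    simpa only [nn, map_sub, map_add, map_mul, map_pow, map_one, map_ofNat]
      using congrArg φ (I.step k hk)
  fin := congrArg φ I.fin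
  mu := by simpa only [map_sub, map_mul, map_pow, map_one, map_prod] using congrArg φ I.mu
  ga := by simpa only [map_sub, map_mul, map_pow, map_one, map_prod] using congrArg φ I.ga

lemma Isog.unit_dbl (I : Isog h b m c s) (hh : 1 ≤ h) :
    IsUnit (4 * (s 1 * (s 1 - 1) * (s 1 - b))) := by
  have h4 : IsUnit (4 : R) := by
    have := I.two.mul I.two
    rwa [show (2 : R) * 2 = 4 by norm_num] at this
  exact h4.mul (((I.u0 0 hh).mul (I.u1 0 hh)).mul (I.ub 0 hh))

/-- the data are determined by `b` and `s 1` -/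
lemma Isog.seq_eq (I : Isog h b m c s) (I' : Isog h b m' c' s') (hh : 1 ≤ h) (h1 : s 1 = s' 1) :
    ∀ k ≤ h, s (k + 1) = s' (k + 1) := by
  intro k
  induction k using Nat.twoStepInduction with
  | zero => exact fun _ => h1
  | one =>
    intro _
    apply (I.unit_dbl hh).mul_right_cancel
    rw [I.dbl, h1, I'.dbl]
  | more k ih1 ih2 =>
    intro hk
    have e1 := I.step k (by omega)
    have e2 := I'.step k (by omega)
    have a1 : s (k + 1) = s' (k + 1) := ih1 (by omega)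
    have a2 : s (k + 2) = s' (k + 2) := ih2 (by omega)
    rw [← a1, ← a2, ← h1, ← e1] at e2
    exact (add_right_cancel (((I.ud k (by omega)).pow 2).mul_right_cancel e2)).symm

lemma Isog.unique (I : Isog h b m c s) (I' : Isog h b m' c' s') (hh : 1 ≤ h) (h1 : s 1 = s' 1) :
    m = m' ∧ c = c' := by
  have e := I.seq_eq I' hh h1
  have hu : ∀ n : ℕ, IsUnit (∏ k ∈ Finset.range h, (s (k + 1) - b) ^ n) := fun n =>
    IsUnit.prod_iff.mpr fun k hk => (I.ub k (Finset.mem_range.mp hk)).pow n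
  have c1 : ∀ f : R → R, ∏ k ∈ Finset.range h, f (s' (k + 1))
      = ∏ k ∈ Finset.range h, f (s (k + 1)) := fun f =>
    Finset.prod_congr rfl fun k hk => by rw [e k (Finset.mem_range.mp hk).le]
  constructor
  · apply (hu 4).mul_right_cancel
    rw [I.mu, ← c1 (fun t => (t - b) ^ 4), I'.mu, c1 (fun t => (t - 1) ^ 4)]
  · apply (hu 2).mul_right_cancel
    rw [I.ga, ← c1 (fun t => (t - b) ^ 2), I'.ga, c1 (fun t => (t * (t - 1)) ^ 2)]

/-- a subring closed under division by units that contains `b` and `s 1` contains `m` -/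
lemma Isog.mem (I : Isog h b m c s) (hh : 1 ≤ h) (S : Subring R)
    (hS : ∀ x u : R, IsUnit u → u ∈ S → x * u ∈ S → x ∈ S) (hb : b ∈ S) (h1 : s 1 ∈ S) :
    m ∈ S := by
  have o := S.one_mem
  have t : (2 : R) ∈ S := by simp
  have f : (4 : R) ∈ S := by simp
  have key : ∀ k ≤ h, s (k + 1) ∈ S := by
    intro k
    induction k using Nat.twoStepInduction with
    | zero => exact fun _ => h1
    | one =>
      intro _
      refine hS _ _ (I.unit_dbl hh)
        (mul_mem f (mul_mem (mul_mem h1 (sub_mem h1 o)) (sub_mem h1 hb))) ?_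
      rw [I.dbl]
      exact pow_mem (sub_mem (pow_mem h1 2) hb) 2
    | more k ih1 ih2 =>
      intro hk
      have a1 : s (k + 1) ∈ S := ih1 (by omega)
      have a2 : s (k + 2) ∈ S := ih2 (by omega)
      have := hS _ _ ((I.ud k (by omega)).pow 2) (pow_mem (sub_mem a2 h1) 2) (by
        rw [I.step k (by omega)]
        unfold nn
        exact mul_mem t (add_mem (sub_mem (add_mem (mul_mem a2 (pow_mem h1 2))
          (mul_mem (pow_mem a2 2) h1)) (mul_mem (mul_mem (mul_mem t (add_mem o hb)) a2) h1))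
          (mul_mem hb (add_mem a2 h1))))
      simpa using sub_mem this a1
  refine hS _ _ (IsUnit.prod_iff.mpr fun k hk => (I.ub k (Finset.mem_range.mp hk)).pow 4)
    (prod_mem fun k hk => pow_mem (sub_mem (key k (Finset.mem_range.mp hk).le) hb) 4) ?_
  rw [I.mu]
  exact mul_mem (pow_mem hb _)
    (prod_mem fun k hk => pow_mem (sub_mem (key k (Finset.mem_range.mp hk).le) o) 4)

end Isog

/-- `Q` has exact order `n` modulo the lattice -/
def Ord (L : PeriodPair) (Q : ℂ) (n : ℕ) : Prop :=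
  ∀ k : ℤ, (k : ℂ) * Q ∈ L.lattice ↔ (n : ℤ) ∣ k

/-- `L' = L + ℤ Q` with `Q` of exact order `n` modulo `L` -/
structure Cyc (L L' : PeriodPair) (Q : ℂ) (n : ℕ) : Prop where
  ord : Ord L Q n
  mem : ∀ z, z ∈ L'.lattice ↔ ∃ k : ℤ, z - k * Q ∈ L.lattice

/-- `L' = c⁻¹ L` -/
def Scl (L L' : PeriodPair) (c : ℂ) : Prop := ∀ z, z ∈ L'.lattice ↔ c * z ∈ L.lattice

/-- `L ≤ L'`, and `0, T i, -T i` is a system of representatives of `L' / L` -/
structure Sup (L L' : PeriodPair) {ι : Type} (T : ι → ℂ) : Prop where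
  le : ∀ z ∈ L.lattice, z ∈ L'.lattice
  mem : ∀ i, T i ∈ L'.lattice
  gen : ∀ z ∈ L'.lattice, z ∈ L.lattice ∨ ∃ i, z - T i ∈ L.lattice ∨ z + T i ∈ L.lattice
  ne : ∀ i, T i ∉ L.lattice
  inj : ∀ i j, T i - T j ∈ L.lattice → i = j
  nadd : ∀ i j, T i + T j ∉ L.lattice

/-- the parameters `-2 / λ` of the cyclic superlattices of index `n` -/
def End (L : PeriodPair) (ω₁ ω₂ ω₃ : ℂ) (n : ℕ) : Set ℂ :=
  {w | ∃ (L' : PeriodPair) (Q : ℂ) (E' : Leg L' ω₁ ω₂ ω₃), Cyc L L' Q n ∧ w = -2 / E'.lam}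

section Places
variable {F : Type*} [Field F]

/-- integrally closed in the ambient field -/
def IC (A : Subring F) : Prop := ∀ z : F, IsIntegral A z → z ∈ A

/-- unit of the subring `A` -/
structure Un (A : Subring F) (z : F) : Prop where
  ne : z ≠ 0
  mem : z ∈ A
  inv : z⁻¹ ∈ A

lemma Un.mul {A : Subring F} {z w : F} (hz : Un A z) (hw : Un A w) : Un A (z * w) :=
  ⟨mul_ne_zero hz.ne hw.ne, mul_mem hz.mem hw.mem, by rw [mul_inv]; exact mul_mem hz.inv hw.inv⟩

lemma Un.inv' {A : Subring F} {z : F} (hz : Un A z) : Un A z⁻¹ :=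
  ⟨inv_ne_zero hz.ne, hz.inv, by rw [inv_inv]; exact hz.mem⟩

lemma Un.div {A : Subring F} {z w : F} (hz : Un A z) (hw : Un A w) : Un A (z / w) := by
  rw [div_eq_mul_inv]; exact hz.mul hw.inv'

lemma Un.neg {A : Subring F} {z : F} (hz : Un A z) : Un A (-z) :=
  ⟨neg_ne_zero.mpr hz.ne, neg_mem hz.mem, by rw [inv_neg]; exact neg_mem hz.inv⟩

lemma Un.one {A : Subring F} : Un A 1 := ⟨one_ne_zero, one_mem _, by rw [inv_one]; exact one_mem _⟩

lemma Un.pow {A : Subring F} {z : F} (hz : Un A z) (n : ℕ) : Un A (z ^ n) :=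
  ⟨pow_ne_zero _ hz.ne, pow_mem hz.mem _, by rw [← inv_pow]; exact pow_mem hz.inv _⟩

lemma Un.prod {A : Subring F} {ι : Type*} (s : Finset ι) (f : ι → F) (h : ∀ i ∈ s, Un A (f i)) :
    Un A (∏ i ∈ s, f i) :=
  Finset.prod_induction f (Un A) (fun _ _ => Un.mul) Un.one h

lemma Un.mono {A B : Subring F} (h : A ≤ B) {z : F} (hz : Un A z) : Un B z :=
  ⟨hz.ne, h hz.mem, h hz.inv⟩

lemma Un.of_mul {A : Subring F} {z w : F} (h : Un A (z * w)) (hz : z ∈ A) (hw : w ∈ A) :
    Un A z := by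
  have h0 := left_ne_zero_of_mul h.ne
  have h1 := right_ne_zero_of_mul h.ne
  refine ⟨h0, hz, ?_⟩
  rw [show z⁻¹ = (z * w)⁻¹ * w by field_simp]
  exact mul_mem h.inv hw

lemma Un.of_eq {A : Subring F} {z u v : F} (e : z * u = v) (hu : Un A u) (hv : Un A v) :
    Un A z := by
  rw [show z = v / u by rw [← e, mul_div_cancel_right₀ _ hu.ne]]
  exact hv.div hu

/-- good reduction data: `2`, `n`, `l`, `1 - l` are units of `A` -/
structure Good (A : Subring F) (n : ℕ) (l : F) : Prop where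
  two : Un A 2
  n : Un A n
  lam : Un A l
  lam1 : Un A (1 - l)

lemma Good.mono {A B : Subring F} (h : A ≤ B) {n : ℕ} {l : F} (G : Good A n l) : Good B n l :=
  ⟨G.two.mono h, G.n.mono h, G.lam.mono h, G.lam1.mono h⟩

lemma Good.of_dvd {A : Subring F} {n d : ℕ} {l : F} (G : Good A n l) (hd : d ∣ n) :
    Good A d l := by
  obtain ⟨e, rfl⟩ := hd
  refine ⟨G.two, ?_, G.lam, G.lam1⟩
  have := G.n
  rw [Nat.cast_mul] at this
  exact this.of_mul (natCast_mem _ _) (natCast_mem _ _)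

/-- the ring `ℤ[a, 1 / (2 n a (a + 2))]` -/
def Bz (n : ℕ) (a : F) : Subring F := Subring.closure {a, (2 * n * a * (a + 2))⁻¹}

lemma self_mem_Bz (n : ℕ) (a : F) : a ∈ Bz n a := Subring.subset_closure (by simp)

lemma inv_mem_Bz (n : ℕ) (a : F) : (2 * n * a * (a + 2))⁻¹ ∈ Bz n a :=
  Subring.subset_closure (by simp)

lemma Bz_le {A : Subring F} {n : ℕ} {a : F} (h1 : a ∈ A) (h2 : (2 * n * a * (a + 2))⁻¹ ∈ A) :
    Bz n a ≤ A := by
  refine Subring.closure_le.mpr ?_
  rintro z (rfl | rfl)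
  exacts [h1, h2]

lemma Good.un_f {A : Subring F} {n : ℕ} {l : F} (G : Good A n l) :
    Un A (-2 / l) ∧ Un A (2 * n * (-2 / l) * (-2 / l + 2)) := by
  have h1 : Un A (-2 / l) := G.two.neg.div G.lam
  refine ⟨h1, ((G.two.mul G.n).mul h1).mul ?_⟩
  have := G.lam.ne
  rw [show -2 / l + 2 = -2 / l * (1 - l) by field_simp; ring]
  exact h1.mul G.lam1

lemma Good.Bz_le {A : Subring F} {n : ℕ} {l : F} (G : Good A n l) : Bz n (-2 / l) ≤ A :=
  Am.Bz_le G.un_f.1.mem G.un_f.2.inv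

lemma good_of_Bz_le {A : Subring F} {n : ℕ} {l : F} (h2 : (2 : F) ≠ 0) (hn : (n : F) ≠ 0)
    (l0 : l ≠ 0) (l1 : l ≠ 1) (h : Bz n (-2 / l) ≤ A) : Good A n l := by
  have ha := h (self_mem_Bz n _)
  have t : (2 : F) ∈ A := by simp
  have hn' : (n : F) ∈ A := natCast_mem _ _
  have l1' : 1 - l ≠ 0 := sub_ne_zero.mpr l1.symm
  have e : -2 / l + 2 = -2 / l * (1 - l) := by field_simp; ring
  have a0 : -2 / l ≠ 0 := div_ne_zero (neg_ne_zero.mpr h2) l0
  have hf : Un A (2 * n * (-2 / l) * (-2 / l + 2)) :=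
    ⟨by rw [e]; exact mul_ne_zero (mul_ne_zero (mul_ne_zero h2 hn) a0) (mul_ne_zero a0 l1'),
      mul_mem (mul_mem (mul_mem t hn') ha) (add_mem ha t), h (inv_mem_Bz n _)⟩
  have u1 := hf.of_mul (mul_mem (mul_mem t hn') ha) (add_mem ha t)
  have u2 := u1.of_mul (mul_mem t hn') ha
  have u3 := u2.of_mul t hn'
  have u4 : Un A (n : F) := Un.of_mul (by rwa [mul_comm] at u2) hn' t
  have u5 : Un A (-2 / l) := Un.of_mul (by rwa [mul_comm] at u1) ha (mul_mem t hn')
  have u6 : Un A (-2 / l + 2) :=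
    Un.of_mul (by rwa [mul_comm] at hf) (add_mem ha t) (mul_mem (mul_mem t hn') ha)
  refine ⟨u3, u4, Un.of_eq (u := -2 / l) (v := -2) (by field_simp) u5 u3.neg,
    Un.of_eq (u := -2 / l) (by rw [mul_comm]; exact e.symm) u5 u6⟩

/-- the integral closure of a subring, as a subring -/
def icl (B : Subring F) : Subring F := (integralClosure B F).toSubring

lemma mem_icl {B : Subring F} {z : F} : z ∈ icl B ↔ IsIntegral B z := Iff.rfl

lemma le_icl (B : Subring F) : B ≤ icl B := fun z hz =>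
  mem_icl.mpr (isIntegral_algebraMap (R := B) (x := ⟨z, hz⟩))

lemma ic_icl (B : Subring F) : IC (icl B) := fun z hz =>
  mem_icl.mpr (isIntegral_trans (A := integralClosure B F) z hz)

lemma isIntegral_mono {A B : Subring F} (h : A ≤ B) {z : F} (hz : IsIntegral A z) :
    IsIntegral B z := by
  obtain ⟨q, hq, e⟩ := hz
  refine ⟨q.map (Subring.inclusion h), hq.map _, ?_⟩
  rw [eval₂_map]
  exact e

lemma IC.icl_le {A B : Subring F} (hA : IC A) (h : B ≤ A) : icl B ≤ A := fun z hz =>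
  hA z (isIntegral_mono h hz)

lemma ic_top : IC (⊤ : Subring F) := fun _ _ => trivial

lemma ic_val (V : ValuationSubring F) : IC V.toSubring := by
  have : IsIntegrallyClosedIn V.toSubring F := inferInstanceAs (IsIntegrallyClosedIn V F)
  exact fun z hz => Subring.isIntegrallyClosedIn_iff.mp this hz

lemma IC.mem_of_forall_val {A : Subring F} (hA : IC A) {z : F}
    (h : ∀ V : ValuationSubring F, A ≤ V.toSubring → z ∈ V) : z ∈ A := by
  by_contra hz
  have : IsIntegrallyClosedIn A F := Subring.isIntegrallyClosedIn_iff.mpr fun {x} hx => hA x hx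
  obtain ⟨V, h1, h2⟩ := Subring.exists_le_valuationSubring_of_isIntegrallyClosedIn hz
  exact h2 (h V h1)

/-- a place: a ring homomorphism from an integrally closed subring of `F` -/
structure Pl (F k : Type*) [Field F] [CommRing k] where
  A : Subring F
  ic : IC A
  f : A →+* k

namespace Pl
variable {k k' : Type*} [CommRing k] [CommRing k'] (P : Pl F k)

open Classical in
/-- the value at a place, `0` outside its ring -/
noncomputable def ev (z : F) : k := if h : z ∈ P.A then P.f ⟨z, h⟩ else 0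

lemma ev_of_mem {z : F} (h : z ∈ P.A) : P.ev z = P.f ⟨z, h⟩ := dif_pos h

lemma ev_coe (z : P.A) : P.ev z = P.f z := P.ev_of_mem z.2

lemma ev_add {a b : F} (ha : a ∈ P.A) (hb : b ∈ P.A) : P.ev (a + b) = P.ev a + P.ev b := by
  rw [P.ev_of_mem ha, P.ev_of_mem hb, P.ev_of_mem (add_mem ha hb), ← map_add]; rfl

lemma ev_mul {a b : F} (ha : a ∈ P.A) (hb : b ∈ P.A) : P.ev (a * b) = P.ev a * P.ev b := by
  rw [P.ev_of_mem ha, P.ev_of_mem hb, P.ev_of_mem (mul_mem ha hb), ← map_mul]; rfl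

lemma ev_neg {a : F} (ha : a ∈ P.A) : P.ev (-a) = -P.ev a := by
  rw [P.ev_of_mem ha, P.ev_of_mem (neg_mem ha), ← map_neg]; rfl

lemma ev_sub {a b : F} (ha : a ∈ P.A) (hb : b ∈ P.A) : P.ev (a - b) = P.ev a - P.ev b := by
  rw [sub_eq_add_neg, P.ev_add ha (neg_mem hb), P.ev_neg hb, sub_eq_add_neg]

lemma ev_one : P.ev 1 = 1 := by
  rw [P.ev_of_mem (one_mem _), ← map_one P.f]; rfl

lemma ev_zero : P.ev 0 = 0 := by
  rw [P.ev_of_mem (zero_mem _), ← map_zero P.f]; rfl

lemma ev_pow {a : F} (ha : a ∈ P.A) (n : ℕ) : P.ev (a ^ n) = P.ev a ^ n := by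
  rw [P.ev_of_mem ha, P.ev_of_mem (pow_mem ha n), ← map_pow]; rfl

lemma ev_natCast (n : ℕ) : P.ev n = n := by
  rw [P.ev_of_mem (natCast_mem _ n), ← map_natCast P.f]; rfl

lemma ev_intCast (n : ℤ) : P.ev n = n := by
  rw [P.ev_of_mem (intCast_mem _ n), ← map_intCast P.f]; rfl

lemma ev_two : P.ev 2 = 2 := by simpa using P.ev_natCast 2

lemma ev_four : P.ev 4 = 4 := by simpa using P.ev_natCast 4

lemma ev_prod {ι : Type*} (s : Finset ι) (g : ι → F) (hg : ∀ i ∈ s, g i ∈ P.A) :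
    P.ev (∏ i ∈ s, g i) = ∏ i ∈ s, P.ev (g i) := by
  classical
  induction s using Finset.induction_on with
  | empty => simp [ev_one]
  | insert a s ha ih =>
    rw [Finset.prod_insert ha, Finset.prod_insert ha,
      P.ev_mul (hg a (Finset.mem_insert_self _ _))
        (prod_mem fun k hk => hg k (Finset.mem_insert_of_mem hk)),
      ih fun k hk => hg k (Finset.mem_insert_of_mem hk)]

lemma ev_mul_inv {z : F} (hz : Un P.A z) : P.ev z * P.ev z⁻¹ = 1 := by
  rw [← P.ev_mul hz.mem hz.inv, mul_inv_cancel₀ hz.ne, P.ev_one]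

lemma isUnit_ev {z : F} (hz : Un P.A z) : IsUnit (P.ev z) :=
  IsUnit.of_mul_eq_one _ (P.ev_mul_inv hz)

lemma ev_coeff_prod (S : Finset F) (hS : ∀ r ∈ S, r ∈ P.A) (i : ℕ) :
    (∏ r ∈ S, (X - C r)).coeff i ∈ P.A ∧
      (∏ r ∈ S, (X - C (P.ev r))).coeff i = P.ev ((∏ r ∈ S, (X - C r)).coeff i) := by
  set q : P.A[X] := ∏ r ∈ S.attach, (X - C ⟨r.1, hS r.1 r.2⟩) with hq
  have e1 : ∏ r ∈ S, (X - C r) = q.map P.A.subtype := by
    rw [hq, Polynomial.map_prod, ← Finset.prod_attach]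
    simp
  have e2 : ∏ r ∈ S, (X - C (P.ev r)) = q.map P.f := by
    rw [hq, Polynomial.map_prod, ← Finset.prod_attach]
    refine Finset.prod_congr rfl fun r _ => ?_
    rw [Polynomial.map_sub, map_X, map_C, P.ev_of_mem (hS r.1 r.2)]
  rw [e1, e2, coeff_map, coeff_map]
  exact ⟨(q.coeff i).2, (P.ev_coe _).symm⟩

/-- compose a place with a ring homomorphism -/
def map (g : k →+* k') : Pl F k' := ⟨P.A, P.ic, g.comp P.f⟩

lemma map_A (g : k →+* k') : (P.map g).A = P.A := rfl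

lemma ev_map (g : k →+* k') (z : F) : (P.map g).ev z = g (P.ev z) := by
  by_cases h : z ∈ P.A
  · rw [P.ev_of_mem h, (P.map g).ev_of_mem h]; rfl
  · have h' : z ∉ (P.map g).A := h
    rw [ev, ev, dif_neg h, dif_neg h', map_zero]

/-- an integrally closed subring as a place with values in itself -/
def self (A : Subring F) (hA : IC A) : Pl F A := ⟨A, hA, RingHom.id A⟩

/-- an integrally closed subring as a place with values in the ambient field -/
def incl (A : Subring F) (hA : IC A) : Pl F F := ⟨A, hA, A.subtype⟩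

lemma ev_incl (A : Subring F) (hA : IC A) {z : F} (hz : z ∈ A) : (incl A hA).ev z = z :=
  (incl A hA).ev_of_mem hz

/-- the place attached to a homomorphism defined on the whole field -/
def top (g : F →+* k) : Pl F k := ⟨⊤, ic_top, g.comp (Subring.subtype ⊤)⟩

lemma mem_top (g : F →+* k) (z : F) : z ∈ (top g).A := trivial

lemma ev_top (g : F →+* k) (z : F) : (top g).ev z = g z := (top g).ev_of_mem trivial

section Fld
variable {Ω : Type*} [Field Ω] (P : Pl F Ω)

lemma ev_ne {z : F} (hz : Un P.A z) : P.ev z ≠ 0 := (P.isUnit_ev hz).ne_zero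

lemma ev_inv {z : F} (hz : Un P.A z) : P.ev z⁻¹ = (P.ev z)⁻¹ :=
  eq_inv_of_mul_eq_one_right (P.ev_mul_inv hz)

lemma ev_div {z w : F} (hz : z ∈ P.A) (hw : Un P.A w) : P.ev (z / w) = P.ev z / P.ev w := by
  rw [div_eq_mul_inv, P.ev_mul hz hw.inv, P.ev_inv hw, div_eq_mul_inv]

lemma ev_par {n : ℕ} {l : F} (G : Good P.A n l) : P.ev (-2 / l) = -2 / P.ev l := by
  rw [P.ev_div (neg_mem G.two.mem) G.lam, P.ev_neg G.two.mem, P.ev_two]

lemma ev_mem_Bz {n : ℕ} {a z : F} (h : Bz n a ≤ P.A) (hf : 2 * n * a * (a + 2) ≠ 0)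
    (hz : z ∈ Bz n a) : P.ev z ∈ Bz n (P.ev a) := by
  have ha := h (self_mem_Bz n a)
  have t : (2 : F) ∈ P.A := by simp
  have hn : (n : F) ∈ P.A := natCast_mem _ _
  induction hz using Subring.closure_induction with
  | mem x hx =>
    rcases hx with rfl | rfl
    · exact self_mem_Bz _ _
    · rw [P.ev_inv ⟨hf, mul_mem (mul_mem (mul_mem t hn) ha) (add_mem ha t), h (inv_mem_Bz n a)⟩,
        P.ev_mul (mul_mem (mul_mem t hn) ha) (add_mem ha t), P.ev_mul (mul_mem t hn) ha,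
        P.ev_mul t hn, P.ev_add ha t, P.ev_two, P.ev_natCast]
      exact inv_mem_Bz _ _
  | zero => rw [P.ev_zero]; exact zero_mem _
  | one => rw [P.ev_one]; exact one_mem _
  | add x y hx hy h1 h2 => rw [P.ev_add (h hx) (h hy)]; exact add_mem h1 h2
  | neg x hx h1 => rw [P.ev_neg (h hx)]; exact neg_mem h1
  | mul x y hx hy h1 h2 => rw [P.ev_mul (h hx) (h hy)]; exact mul_mem h1 h2

/-- restriction of a place to the elements whose value lies in `B` -/
noncomputable def res (B : Subring Ω) (hB : IC B) : Pl F B where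
  A := (B.comap P.f).map P.A.subtype
  ic := by
    intro z hz
    have hle : (B.comap P.f).map P.A.subtype ≤ P.A := by
      rintro _ ⟨x, -, rfl⟩; exact x.2
    have h1 : z ∈ P.A := P.ic z (isIntegral_mono hle hz)
    refine ⟨⟨z, h1⟩, hB _ ?_, rfl⟩
    obtain ⟨q, hq, e⟩ := hz
    let g : ((B.comap P.f).map P.A.subtype) →+* B :=
      (P.f.comp (Subring.inclusion hle)).codRestrict B (by
        rintro ⟨_, x, hx, rfl⟩; exact hx)
    refine ⟨q.map g, hq.map _, ?_⟩
    have e2 : eval₂ (Subring.inclusion hle) (⟨z, h1⟩ : P.A) q = 0 := by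
      apply Subtype.ext
      have := hom_eval₂ q (Subring.inclusion hle) P.A.subtype (⟨z, h1⟩ : P.A)
      exact this.trans e
    have := hom_eval₂ q (Subring.inclusion hle) P.f (⟨z, h1⟩ : P.A)
    rw [e2, map_zero] at this
    rw [eval₂_map]
    exact this.symm
  f := (P.f.comp (Subring.inclusion (by rintro _ ⟨x, -, rfl⟩; exact x.2))).codRestrict B (by
        rintro ⟨_, x, hx, rfl⟩; exact hx)

lemma mem_res {B : Subring Ω} {hB : IC B} {z : F} :
    z ∈ (P.res B hB).A ↔ z ∈ P.A ∧ P.ev z ∈ B := by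
  constructor
  · rintro ⟨x, hx, rfl⟩
    exact ⟨x.2, by rw [Subring.subtype_apply, P.ev_coe]; exact hx⟩
  · rintro ⟨h1, h2⟩
    exact ⟨⟨z, h1⟩, by rw [P.ev_of_mem h1] at h2; exact h2, rfl⟩

lemma ev_res {B : Subring Ω} {hB : IC B} {z : F} (hz : z ∈ (P.res B hB).A) :
    ((P.res B hB).ev z : Ω) = P.ev z := by
  rw [(P.res B hB).ev_of_mem hz, P.ev_of_mem (P.mem_res.mp hz).1]; rfl

lemma un_res {B : Subring Ω} {hB : IC B} {z : F} :
    Un (P.res B hB).A z ↔ Un P.A z ∧ Un B (P.ev z) := by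
  constructor
  · intro h
    have u : Un P.A z := ⟨h.ne, (P.mem_res.mp h.mem).1, (P.mem_res.mp h.inv).1⟩
    exact ⟨u, P.ev_ne u, (P.mem_res.mp h.mem).2, P.ev_inv u ▸ (P.mem_res.mp h.inv).2⟩
  · rintro ⟨u, v⟩
    exact ⟨u.ne, P.mem_res.mpr ⟨u.mem, v.mem⟩, P.mem_res.mpr ⟨u.inv, P.ev_inv u ▸ v.inv⟩⟩

lemma good_res {B : Subring Ω} {hB : IC B} {n : ℕ} {l : F} :
    Good (P.res B hB).A n l ↔ Good P.A n l ∧ Good B n (P.ev l) := by
  constructor
  · intro G
    have a := P.un_res.mp G.two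
    have b := P.un_res.mp G.n
    have c := P.un_res.mp G.lam
    have d := P.un_res.mp G.lam1
    rw [P.ev_two] at a
    rw [P.ev_natCast] at b
    rw [P.ev_sub (one_mem _) c.1.mem, P.ev_one] at d
    exact ⟨⟨a.1, b.1, c.1, d.1⟩, ⟨a.2, b.2, c.2, d.2⟩⟩
  · rintro ⟨G, G'⟩
    refine ⟨P.un_res.mpr ⟨G.two, by rw [P.ev_two]; exact G'.two⟩,
      P.un_res.mpr ⟨G.n, by rw [P.ev_natCast]; exact G'.n⟩, P.un_res.mpr ⟨G.lam, G'.lam⟩,
      P.un_res.mpr ⟨G.lam1, ?_⟩⟩
    rw [P.ev_sub (one_mem _) G.lam.mem, P.ev_one]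
    exact G'.lam1

/-- composition of places -/
noncomputable def comp (P₂ : Pl Ω k) : Pl F k := (P.res P₂.A P₂.ic).map P₂.f

lemma comp_A (P₂ : Pl Ω k) : (P.comp P₂).A = (P.res P₂.A P₂.ic).A := rfl

lemma ev_comp (P₂ : Pl Ω k) {z : F} (hz : z ∈ (P.comp P₂).A) :
    (P.comp P₂).ev z = P₂.ev (P.ev z) := by
  rw [comp, ev_map, ← P.ev_res hz, P₂.ev_coe]

end Fld

/-- the place of a valuation subring of `ℂ` -/
noncomputable def val (V : ValuationSubring ℂ) : Pl ℂ (ResidueField V) :=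
  ⟨V.toSubring, ic_val V, residue V⟩

lemma ev_val (V : ValuationSubring ℂ) (z : ℂ) : (val V).ev z = rd V z := rfl

end Pl

lemma un_val {V : ValuationSubring ℂ} {z : ℂ} : Un V.toSubring z ↔ z ∈ V ∧ rd V z ≠ 0 :=
  ⟨fun h => ⟨h.mem, (Pl.val V).ev_ne h⟩,
    fun h => ⟨ne_zero_of_rd_ne h.2, h.1, inv_mem_of_rd_ne h.1 h.2⟩⟩

lemma rd_eq_zero_iff {V : ValuationSubring ℂ} {z : ℂ} (hz : z ∈ V) :
    rd V z = 0 ↔ V.valuation z < 1 := by
  lift z to V using hz
  rw [rd_coe, residue_eq_zero_iff, ValuationSubring.valuation_lt_one_iff]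

lemma un_val_iff {V : ValuationSubring F} {z : F} : Un V.toSubring z ↔ V.valuation z = 1 := by
  constructor
  · intro h
    have h1 := (V.valuation_le_one_iff z).mpr h.mem
    have h2 := (V.valuation_le_one_iff z⁻¹).mpr h.inv
    rw [map_inv₀, inv_le_one₀ (zero_lt_iff.mpr ((_root_.map_ne_zero _).mpr h.ne))] at h2
    exact le_antisymm h1 h2
  · intro h
    refine ⟨fun h0 => by simp [h0] at h, (V.valuation_le_one_iff z).mp h.le,
      (V.valuation_le_one_iff z⁻¹).mp (by rw [map_inv₀, h, inv_one])⟩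

end Places

/-- the pairs u, w and u, t satisfy the same polynomial relations over `κ` -/
def Cj (κ : Type*) {Ω : Type*} [CommRing κ] [CommRing Ω] [Algebra κ Ω] (u w t : Ω) : Prop :=
  ∀ q : κ[X][X], aevalAeval u w q = 0 ↔ aevalAeval u t q = 0

section ToK
open IntermediateField
variable {κ Ω : Type*} [Field κ] [Field Ω] [Algebra κ Ω]

/-- a polynomial in two variables as a polynomial over `κ(u)` -/
noncomputable def toK (u : Ω) (q : κ[X][X]) : κ⟮u⟯[X] :=
  q.map (aeval (AdjoinSimple.gen κ u) : κ[X] →ₐ[κ] κ⟮u⟯).toRingHom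

lemma algebraMap_aeval_gen (u : Ω) (r : κ[X]) :
    algebraMap κ⟮u⟯ Ω (aeval (AdjoinSimple.gen κ u) r) = aeval u r := by
  rw [← aeval_algebraMap_apply, AdjoinSimple.algebraMap_gen]

lemma aeval_toK (u y : Ω) (q : κ[X][X]) : aeval y (toK u q) = aevalAeval u y q := by
  induction q using Polynomial.induction_on' with
  | add a b ha hb => rw [toK, Polynomial.map_add, map_add, map_add, ← ha, ← hb]; rfl
  | monomial n a =>
    rw [toK, Polynomial.map_monomial, aeval_monomial, ← C_mul_X_pow_eq_monomial, map_mul, map_pow,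
      aevalAeval_C, aevalAeval_Y]
    exact congrArg (· * y ^ n) (algebraMap_aeval_gen u a)

lemma natDegree_toK_le (u : Ω) (q : κ[X][X]) : (toK u q).natDegree ≤ q.natDegree :=
  natDegree_map_le

lemma toK_ne_zero {u : Ω} (hu : Transcendental κ u) {q : κ[X][X]} (hq : q ≠ 0) : toK u q ≠ 0 := by
  refine (Polynomial.map_ne_zero_iff ((injective_iff_map_eq_zero _).mpr fun r hr => ?_)).mpr hq
  refine transcendental_iff.mp hu r ?_
  rw [← algebraMap_aeval_gen]
  exact (congrArg (algebraMap κ⟮u⟯ Ω) hr).trans (map_zero _)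

end ToK

/-- the polynomial `g(X) g(Y)` -/
noncomputable def gxy {κ : Type*} [CommRing κ] (g : κ[X]) : κ[X][X] := C g * g.map C

/-- the polynomial of the bit number `j` -/
noncomputable def gg (R : Type*) [CommRing R] (j : ℕ) : R[X] := -(cp R (12 + j) + cp R 1)

/-- polynomials of degree at most `α` in `X` and at most `β` in `Y` -/
def Bd (κ : Type*) [Field κ] (α β : ℕ) : Submodule κ κ[X][X] where
  carrier := {q | q.natDegree ≤ β ∧ ∀ i, (q.coeff i).natDegree ≤ α}
  add_mem' := fun {a b} ha hb => ⟨(natDegree_add_le _ _).trans (max_le ha.1 hb.1), fun i => by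
    rw [coeff_add]; exact (natDegree_add_le _ _).trans (max_le (ha.2 i) (hb.2 i))⟩
  zero_mem' := ⟨by simp, by simp⟩
  smul_mem' := fun c a ha => ⟨(natDegree_smul_le _ _).trans ha.1, fun i => by
    rw [coeff_smul]; exact (natDegree_smul_le _ _).trans (ha.2 i)⟩

lemma mem_Bd {κ : Type*} [Field κ] {α β : ℕ} {q : κ[X][X]} :
    q ∈ Bd κ α β ↔ q.natDegree ≤ β ∧ ∀ i, (q.coeff i).natDegree ≤ α := Iff.rfl

/-- `b` and `b'` are linked by a cyclic isogeny of degree `n` over the algebraic closure -/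
def Lnk (p : ℕ) [Fact p.Prime] (n : ℕ) (b b' : ZMod p) : Prop :=
  ∃ (c : AlgebraicClosure (ZMod p)) (s : ℕ → AlgebraicClosure (ZMod p)),
    Isog (n / 2) (algebraMap (ZMod p) _ b) (algebraMap (ZMod p) _ b') c s

/-- the Hasse invariant of the Legendre curve -/
noncomputable def Hs {R : Type*} [CommRing R] (h : ℕ) (b : R) : R :=
  (((X - 1) * (X - C b)) ^ h).coeff h

/-- `s ^ 2 - p` is a nonzero square modulo `q` -/
def Spl (p q : ℕ) (s : ℤ) : Prop :=
  (∃ r : ℤ, (q : ℤ) ∣ r ^ 2 - (s ^ 2 - p)) ∧ ¬ (q : ℤ) ∣ s ^ 2 - p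

/-- polynomial data of a lift of the Frobenius map, `x ↦ x N(x) ^ 2 / D(x) ^ 2` -/
structure FD {R : Type*} [CommRing R] [IsLocalRing R] (h : ℕ) (π l : R) (N D Y : R[X]) :
    Prop where
  dN : N.natDegree ≤ h
  dD : D.natDegree ≤ h
  dY : Y.natDegree ≤ 2 * h
  D0 : D.coeff 0 = 1
  rD : D.map (residue R) = 1
  rN : N.map (residue R) = X ^ h
  ode : N * D + 2 * X * (derivative N * D - N * derivative D) = C π * Y
  sq : Y ^ 2 * ((X - 1) * (X - C l)) = (X * N ^ 2 - D ^ 2) * (X * N ^ 2 - C l * D ^ 2)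
  e1 : N.eval 1 ^ 2 = D.eval 1 ^ 2
  el : N.eval l ^ 2 = D.eval l ^ 2

end Pool.Agent.Lib.MP_4a1067_nt.Am
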