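import Mathlib
import Pool.Agent.Lib.MP_4a1067_nt.AmBasic

/-! Power series lemmas. -/

namespace Pool.Agent.Lib.MP_4a1067_nt.Am

open Polynomial
open scoped PowerSeries

variable {κ : Type*} [Field κ]

/-- the iteration with a fixed inverse slope -/
noncomputable def amseriesSeq (q : κ⟦X⟧[X]) (a c : κ) : ℕ → κ⟦X⟧
  | 0 => PowerSeries.C a
  | n + 1 => amseriesSeq q a c n + -(PowerSeries.C c * q.eval (amseriesSeq q a c n))

lemma amseries_seq (q : κ⟦X⟧[X]) (a c : κ) (h0 : (q.map PowerSeries.constantCoeff).eval a = 0)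
    (h1 : c * (q.map PowerSeries.constantCoeff).derivative.eval a = 1) (n : ℕ) :
    PowerSeries.constantCoeff (amseriesSeq q a c n) = a ∧
      (PowerSeries.X : κ⟦X⟧) ^ (n + 1) ∣ q.eval (amseriesSeq q a c n) := by
  induction n with
  | zero =>
    refine ⟨by simp [amseriesSeq], ?_⟩
    rw [zero_add, pow_one, PowerSeries.X_dvd_iff, ← eval_map_apply]
    simpa [amseriesSeq] using h0
  | succ n ih =>
    obtain ⟨ha, w, hw⟩ := ih
    rw [amseriesSeq]
    generalize amseriesSeq q a c n = r at ha hw
    refine ⟨by rw [hw]; simp [ha], ?_⟩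
    obtain ⟨k, hk⟩ := binomExpansion q r (-(PowerSeries.C c * q.eval r))
    have h2 : (PowerSeries.X : κ⟦X⟧) ∣ 1 - PowerSeries.C c * q.derivative.eval r := by
      rw [PowerSeries.X_dvd_iff, map_sub, map_mul, ← eval_map_apply, ha, ← derivative_map,
        PowerSeries.constantCoeff_C, h1, map_one, sub_self]
    obtain ⟨v, hv⟩ := h2
    refine ⟨w * v + k * PowerSeries.C c ^ 2 * w ^ 2 * PowerSeries.X ^ n, ?_⟩
    rw [hk, hw]
    linear_combination PowerSeries.X ^ (n + 1) * w * hv

lemma amseries_cc_aeval (f : κ⟦X⟧) (g : κ[X]) :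
    PowerSeries.constantCoeff (aeval f g) = g.eval (PowerSeries.constantCoeff f) := by
  induction g using Polynomial.induction_on' with
  | add a b ha hb => rw [map_add, map_add, ha, hb, eval_add]
  | monomial n a =>
    rw [aeval_monomial, eval_monomial, map_mul, map_pow]
    rfl

lemma amseries_eval_map (x η : κ⟦X⟧) (F : κ[X][X]) :
    (F.map (aeval x : κ[X] →ₐ[κ] κ⟦X⟧).toRingHom).eval η = aevalAeval x η F := by
  induction F using Polynomial.induction_on' with
  | add a b ha hb => rw [Polynomial.map_add, eval_add, map_add, ha, hb]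
  | monomial n a =>
    rw [Polynomial.map_monomial, eval_monomial, ← C_mul_X_pow_eq_monomial, map_mul, map_pow,
      aevalAeval_C, aevalAeval_Y]
    rfl

lemma amseries_map_map (b : κ) (F : κ[X][X]) :
    (F.map (aeval (PowerSeries.C b + PowerSeries.X) : κ[X] →ₐ[κ] κ⟦X⟧).toRingHom).map
      PowerSeries.constantCoeff = F.map (evalRingHom b) := by
  rw [Polynomial.map_map]
  congr 1
  refine RingHom.ext fun g => ?_
  have := amseries_cc_aeval (PowerSeries.C b + PowerSeries.X) g
  simpa using this

/-- Hensel lifting of a simple root, no monic hypothesis -/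
theorem hensel (q : κ⟦X⟧[X]) (a : κ) (h0 : (q.map PowerSeries.constantCoeff).eval a = 0)
    (h1 : (q.map PowerSeries.constantCoeff).derivative.eval a ≠ 0) :
    ∃ r : κ⟦X⟧, PowerSeries.constantCoeff r = a ∧ q.eval r = 0 := by
  have hs := amseries_seq q a _ h0 (inv_mul_cancel₀ h1)
  generalize ((q.map PowerSeries.constantCoeff).derivative.eval a)⁻¹ = c at hs
  have hd : ∀ m n, (PowerSeries.X : κ⟦X⟧) ^ (m + 1) ∣
      amseriesSeq q a c (m + n) - amseriesSeq q a c m := by
    intro m n
    induction n with
    | zero => simp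
    | succ n ih =>
      have e : amseriesSeq q a c (m + (n + 1)) - amseriesSeq q a c m =
          amseriesSeq q a c (m + n) - amseriesSeq q a c m -
            PowerSeries.C c * q.eval (amseriesSeq q a c (m + n)) := by
        rw [← add_assoc, amseriesSeq]
        ring
      rw [e]
      exact dvd_sub ih (Dvd.dvd.mul_left
        ((pow_dvd_pow _ (by omega)).trans (hs (m + n)).2) _)
  refine ⟨PowerSeries.mk fun n => PowerSeries.coeff n (amseriesSeq q a c n), ?_, ?_⟩
  · rw [← PowerSeries.coeff_zero_eq_constantCoeff_apply, PowerSeries.coeff_mk,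
      PowerSeries.coeff_zero_eq_constantCoeff_apply]
    exact (hs 0).1
  · ext n
    have h2 : (PowerSeries.X : κ⟦X⟧) ^ (n + 1) ∣
        (PowerSeries.mk fun n => PowerSeries.coeff n (amseriesSeq q a c n)) -
          amseriesSeq q a c n := by
      rw [PowerSeries.X_pow_dvd_iff]
      intro m hm
      obtain ⟨d, rfl⟩ : ∃ d, n = m + d := ⟨n - m, by omega⟩
      have := PowerSeries.X_pow_dvd_iff.1 (hd m d) m (by omega)
      rw [map_sub] at this ⊢
      rw [PowerSeries.coeff_mk]
      linear_combination -this
    have h3 := dvd_add (h2.trans (sub_dvd_eval_sub _ _ q)) (hs n).2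
    rw [sub_add_cancel] at h3
    rw [PowerSeries.X_pow_dvd_iff.1 h3 n (by omega), map_zero]

theorem order_aeval (g : κ[X]) (hg : g ≠ 0) (f : κ⟦X⟧) (hf : PowerSeries.coeff 1 f ≠ 0) :
    PowerSeries.order (aeval f g) = g.rootMultiplicity (PowerSeries.constantCoeff f) := by
  obtain ⟨g1, h1, h2⟩ := exists_eq_pow_rootMultiplicity_mul_and_not_dvd g hg
    (PowerSeries.constantCoeff f)
  generalize g.rootMultiplicity (PowerSeries.constantCoeff f) = m at h1
  have o1 : PowerSeries.order (aeval f (X - C (PowerSeries.constantCoeff f))) = (1 : ℕ) := by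
    rw [PowerSeries.order_eq_nat]
    have e : aeval f (X - C (PowerSeries.constantCoeff f)) =
        f - PowerSeries.C (PowerSeries.constantCoeff f) := by
      rw [map_sub, aeval_X, aeval_C]
      rfl
    rw [e]
    refine ⟨by simpa [PowerSeries.coeff_C] using hf, fun i hi => ?_⟩
    obtain rfl : i = 0 := by omega
    simp
  have o2 : PowerSeries.order (aeval f g1) = (0 : ℕ) := by
    rw [PowerSeries.order_eq_nat]
    refine ⟨?_, fun i hi => absurd hi (Nat.not_lt_zero _)⟩
    rw [PowerSeries.coeff_zero_eq_constantCoeff_apply, amseries_cc_aeval]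
    exact fun h => h2 (dvd_iff_isRoot.2 h)
  rw [h1, map_mul, map_pow, PowerSeries.order_mul, PowerSeries.order_pow, o1, o2]
  simp

theorem coeff_one_root (q : κ⟦X⟧[X]) (hq : ∀ i, PowerSeries.coeff 1 (q.coeff i) = 0)
    (r : κ⟦X⟧) (hr : q.eval r = 0)
    (h1 : PowerSeries.constantCoeff (q.derivative.eval r) ≠ 0) : PowerSeries.coeff 1 r = 0 := by
  obtain ⟨d, hd, hd1⟩ : ∃ d : κ⟦X⟧,
      r = PowerSeries.C (PowerSeries.constantCoeff r) + PowerSeries.X * d ∧
      PowerSeries.constantCoeff d = PowerSeries.coeff 1 r :=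
    ⟨PowerSeries.mk fun p => PowerSeries.coeff (p + 1) r,
      (PowerSeries.eq_X_mul_shift_add_const r).trans (add_comm _ _), by
        rw [← PowerSeries.coeff_zero_eq_constantCoeff_apply, PowerSeries.coeff_mk]⟩
  obtain ⟨k, hk⟩ := binomExpansion q (PowerSeries.C (PowerSeries.constantCoeff r))
    (PowerSeries.X * d)
  rw [← hd, hr] at hk
  have e1 : PowerSeries.coeff 1 (q.eval (PowerSeries.C (PowerSeries.constantCoeff r))) = 0 := by
    rw [eval_eq_sum_range, map_sum]
    refine Finset.sum_eq_zero fun i _ => ?_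
    rw [← map_pow, PowerSeries.coeff_mul_C, hq, zero_mul]
  have e2 : PowerSeries.constantCoeff
      (q.derivative.eval (PowerSeries.C (PowerSeries.constantCoeff r))) =
      PowerSeries.constantCoeff (q.derivative.eval r) := by
    rw [← eval_map_apply, ← eval_map_apply, PowerSeries.constantCoeff_C]
  have e3 : (0 : κ⟦X⟧) = q.eval (PowerSeries.C (PowerSeries.constantCoeff r)) + PowerSeries.X *
      (q.derivative.eval (PowerSeries.C (PowerSeries.constantCoeff r)) * d +
        PowerSeries.X * (k * d ^ 2)) := by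
    rw [hk]
    ring
  have e4 := congrArg (PowerSeries.coeff (0 + 1)) e3
  rw [map_zero, map_add, PowerSeries.coeff_succ_X_mul, zero_add, e1, zero_add,
    PowerSeries.coeff_zero_eq_constantCoeff_apply, map_add, map_mul, map_mul,
    PowerSeries.constantCoeff_X, zero_mul, add_zero, e2, hd1] at e4
  exact (mul_eq_zero.1 e4.symm).resolve_left h1

/-- parity of the orders in a relation `a ^ 2 = f g c ^ 2` -/
theorem even_order {a c f g : κ⟦X⟧} {m m' : ℕ} (hc : c ≠ 0) (hf : f.order = m)
    (hg : g.order = m') (h : a ^ 2 = f * g * c ^ 2) : Even (m + m') := by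
  have h1 := congrArg PowerSeries.order h
  rw [PowerSeries.order_mul, PowerSeries.order_mul, PowerSeries.order_pow, PowerSeries.order_pow,
    hf, hg, ← PowerSeries.coe_toNat_order hc] at h1
  generalize c.order.toNat = n at h1
  induction ha : a.order using ENat.recTopCoe with
  | top =>
    rw [ha] at h1
    have h2 : (2 • (⊤ : ℕ∞)) = ⊤ := by simp
    rw [h2, two_nsmul] at h1
    exact absurd h1.symm (by exact_mod_cast ENat.natCast_ne_top (m + m' + (n + n)))
  | coe k =>
    rw [ha, two_nsmul, two_nsmul] at h1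
    have h2 : k + k = m + m' + (n + n) := by exact_mod_cast h1
    exact ⟨k - n, by omega⟩

theorem theta_dvd (p : ℕ) [CharP κ p] (q : κ⟦X⟧) (hq : PowerSeries.constantCoeff q ≠ 0)
    (D : ℕ) (hD : D ≤ p) (f : κ⟦X⟧)
    (h : ∀ m < D, PowerSeries.constantCoeff
      ((fun g : κ⟦X⟧ => q * PowerSeries.derivative κ g)^[m] f) = 0) :
    (PowerSeries.X : κ⟦X⟧) ^ D ∣ f := by
  induction D generalizing f with
  | zero => simp
  | succ D ih =>
    have h1 := ih (by omega) (q * PowerSeries.derivative κ f) fun m hm => by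
      have := h (m + 1) (by omega)
      rwa [Function.iterate_succ_apply] at this
    have hu : IsUnit q := PowerSeries.isUnit_iff_constantCoeff.2 (Ne.isUnit hq)
    rw [hu.dvd_mul_left, PowerSeries.X_pow_dvd_iff] at h1
    rw [PowerSeries.X_pow_dvd_iff]
    intro m hm
    rcases m with _ | m
    · simpa using h 0 (by omega)
    · have h2 := h1 m (by omega)
      rw [PowerSeries.coeff_derivative] at h2
      refine (mul_eq_zero.1 h2).resolve_right fun h3 => ?_
      have h4 : ((m + 1 : ℕ) : κ) = 0 := by exact_mod_cast h3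
      have := Nat.le_of_dvd (by omega) ((CharP.cast_eq_zero_iff κ p _).1 h4)
      omega

/-- functions of order less than `p` stay independent over the series with zero derivative -/
theorem ind (p : ℕ) [Fact p.Prime] [CharP κ p] {ι : Type*} [Fintype ι] (v : ι → κ⟦X⟧)
    (hv : ∀ c : ι → κ, (PowerSeries.X : κ⟦X⟧) ^ p ∣ ∑ i, c i • v i → c = 0) (U : ι → κ⟦X⟧)
    (hU : ∀ i, PowerSeries.derivative κ (U i) = 0) (h : ∑ i, v i * U i = 0) : U = 0 := by
  have hz : ∀ i n, ¬ p ∣ n → PowerSeries.coeff n (U i) = 0 := by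
    intro i n hn
    rcases n with _ | n
    · exact absurd (dvd_zero p) hn
    · have h2 := congrArg (PowerSeries.coeff n) (hU i)
      rw [PowerSeries.coeff_derivative, map_zero] at h2
      refine (mul_eq_zero.1 h2).resolve_right fun h3 => hn ?_
      exact (CharP.cast_eq_zero_iff κ p _).1 (by exact_mod_cast h3)
  have key : ∀ m i, PowerSeries.coeff m (U i) = 0 := by
    intro m
    induction m using Nat.strong_induction_on with
    | _ m ih =>
      by_cases hm : p ∣ m
      · have h1 : ∀ i, ∃ w : κ⟦X⟧, U i = PowerSeries.X ^ m *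
            (PowerSeries.C (PowerSeries.coeff m (U i)) + PowerSeries.X ^ p * w) := by
          intro i
          have h2 : (PowerSeries.X : κ⟦X⟧) ^ (m + p) ∣
              U i - PowerSeries.C (PowerSeries.coeff m (U i)) * PowerSeries.X ^ m := by
            rw [PowerSeries.X_pow_dvd_iff]
            intro j hj
            rw [map_sub, PowerSeries.coeff_C_mul, PowerSeries.coeff_X_pow]
            rcases lt_trichotomy j m with h3 | h3 | h3
            · rw [ih j h3, if_neg h3.ne, mul_zero, sub_zero]
            · rw [h3, if_pos rfl, mul_one, sub_self]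
            · rw [if_neg h3.ne', mul_zero, sub_zero]
              refine hz i j fun h4 => ?_
              have := Nat.le_of_dvd (by omega) (Nat.dvd_sub h4 hm)
              omega
          obtain ⟨w, hw⟩ := h2
          exact ⟨w, by linear_combination hw⟩
        choose w hw using h1
        have h3 : (PowerSeries.X : κ⟦X⟧) ^ m * (∑ i, PowerSeries.coeff m (U i) • v i +
            PowerSeries.X ^ p * ∑ i, v i * w i) = 0 := by
          rw [← h, Finset.mul_sum, ← Finset.sum_add_distrib, Finset.mul_sum]
          refine Finset.sum_congr rfl fun i _ => ?_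
          rw [PowerSeries.smul_eq_C_mul]
          linear_combination (-v i) * hw i
        have h4 := (mul_eq_zero.1 h3).resolve_left (pow_ne_zero _ PowerSeries.X_ne_zero)
        have h5 := hv (fun i => PowerSeries.coeff m (U i))
          ⟨-∑ i, v i * w i, by linear_combination h4⟩
        exact fun i => congrFun h5 i
      · exact fun i => hz i m hm
  funext i
  ext m
  rw [key]
  simp

/-- the branch of a plane curve at a point where the vertical derivative does not vanish -/
theorem exists_branch (F : κ[X][X]) (b b' : κ) (h0 : F.evalEval b b' = 0)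
    (h1 : F.derivative.evalEval b b' ≠ 0) :
    ∃ η : κ⟦X⟧, PowerSeries.constantCoeff η = b' ∧
      aevalAeval (PowerSeries.C b + PowerSeries.X) η F = 0 := by
  obtain ⟨η, h2, h3⟩ := hensel
    (F.map (aeval (PowerSeries.C b + PowerSeries.X) : κ[X] →ₐ[κ] κ⟦X⟧).toRingHom) b'
    (by rw [amseries_map_map, map_evalRingHom_eval, h0])
    (by rw [amseries_map_map, derivative_map, map_evalRingHom_eval]; exact h1)
  exact ⟨η, h2, by rw [← amseries_eval_map, h3]⟩

theorem constantCoeff_aevalAeval (b : κ) (η : κ⟦X⟧) (q : κ[X][X]) :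
    PowerSeries.constantCoeff (aevalAeval (PowerSeries.C b + PowerSeries.X) η q)
      = q.evalEval b (PowerSeries.constantCoeff η) := by
  rw [← amseries_eval_map, ← eval_map_apply, amseries_map_map, map_evalRingHom_eval]

/-- a polynomial whose expansion at `b` is divisible by `X ^ D` -/
theorem le_rootMultiplicity (r : κ[X]) (hr : r ≠ 0) (b : κ) (D : ℕ)
    (h : (PowerSeries.X : κ⟦X⟧) ^ D ∣ aeval (PowerSeries.C b + PowerSeries.X) r) :
    D ≤ r.rootMultiplicity b := by
  have h1 := order_aeval r hr (PowerSeries.C b + PowerSeries.X) (by simp)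
  have h2 := PowerSeries.nat_le_order _ D (PowerSeries.X_pow_dvd_iff.1 h)
  rw [h1] at h2
  simpa using h2

end Pool.Agent.Lib.MP_4a1067_nt.Am
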