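import Mathlib
import Pool.Agent.Lib.MP_4a1067_nt.AmBasic

/-! Spaces of polynomials of bounded bidegree on a plane curve. -/

namespace Pool.Agent.Lib.MP_4a1067_nt.Am

open Polynomial

variable {κ : Type*} [Field κ] {α β α' β' : ℕ} {q q' : κ[X][X]}

lemma Bd_mono (h : q ∈ Bd κ α β) (h1 : α ≤ α') (h2 : β ≤ β') : q ∈ Bd κ α' β' :=
  ⟨h.1.trans h2, fun i => (h.2 i).trans h1⟩

lemma Bd_mul (h : q ∈ Bd κ α β) (h' : q' ∈ Bd κ α' β') : q * q' ∈ Bd κ (α + α') (β + β') := by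
  refine ⟨natDegree_mul_le.trans (add_le_add h.1 h'.1), fun i => ?_⟩
  rw [coeff_mul]
  exact natDegree_sum_le_of_forall_le _ _ fun x _ =>
    natDegree_mul_le.trans (add_le_add (h.2 _) (h'.2 _))

private lemma amstepa_C {r : κ[X]} (h : r.natDegree ≤ α) : (C r : κ[X][X]) ∈ Bd κ α β := by
  refine ⟨by simp, fun i => ?_⟩
  rw [coeff_C]
  split_ifs
  · exact h
  · simp

lemma Bd_one : (1 : κ[X][X]) ∈ Bd κ α β := by
  rw [← C_1]
  exact amstepa_C (by simp)

lemma Bd_pow (h : q ∈ Bd κ α β) (m : ℕ) : q ^ m ∈ Bd κ (m * α) (m * β) := by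
  induction m with
  | zero => rw [pow_zero]; exact Bd_one
  | succ m ih => rw [pow_succ, Nat.succ_mul, Nat.succ_mul]; exact Bd_mul ih h

lemma Bd_prod {ι : Type*} (s : Finset ι) (f : ι → κ[X][X]) (h : ∀ i ∈ s, f i ∈ Bd κ α β) :
    ∏ i ∈ s, f i ∈ Bd κ (s.card * α) (s.card * β) := by
  classical
  induction s using Finset.induction_on with
  | empty => rw [Finset.prod_empty]; exact Bd_one
  | insert a s ha ih =>
    rw [Finset.prod_insert ha, Finset.card_insert_of_notMem ha, Nat.succ_mul, Nat.succ_mul,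
      mul_comm (f a)]
    exact Bd_mul (ih fun i hi => h i (Finset.mem_insert_of_mem hi))
      (h a (Finset.mem_insert_self a s))

lemma Bd_C {r : κ[X]} (h : r.natDegree ≤ α) : (C r : κ[X][X]) ∈ Bd κ α β :=
  amstepa_C h

lemma Bd_monomial {a b : ℕ} (ha : a ≤ α) (hb : b ≤ β) :
    (C (X ^ a) * X ^ b : κ[X][X]) ∈ Bd κ α β := by
  refine ⟨(natDegree_C_mul_X_pow_le _ _).trans hb, fun i => ?_⟩
  rw [coeff_C_mul_X_pow]
  split_ifs
  · rw [natDegree_X_pow]; exact ha
  · simp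

lemma Bd_gxy {g : κ[X]} (h : g.natDegree ≤ α) : gxy g ∈ Bd κ α α := by
  have h1 : g.map (C : κ →+* κ[X]) ∈ Bd κ 0 α :=
    ⟨natDegree_map_le.trans h, fun i => by rw [coeff_map, natDegree_C]⟩
  have h2 := Bd_mul (Bd_C (β := 0) h) h1
  rwa [add_zero, zero_add] at h2

lemma gxy_prod {ι : Type*} (s : Finset ι) (g : ι → κ[X]) :
    gxy (∏ i ∈ s, g i) = ∏ i ∈ s, gxy (g i) := by
  unfold gxy
  rw [Finset.prod_mul_distrib, map_prod, Polynomial.map_prod]

lemma Bd_derivative (h : q ∈ Bd κ α β) : derivative q ∈ Bd κ α β := by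
  refine ⟨(natDegree_derivative_le q).trans ((Nat.sub_le _ _).trans h.1), fun i => ?_⟩
  rw [coeff_derivative]
  refine natDegree_mul_le.trans ?_
  have h1 : ((i : κ[X]) + 1).natDegree = 0 := by
    rw [← Nat.cast_succ, natDegree_natCast]
  rw [h1, add_zero]
  exact h.2 _

/-- derivative in the first variable -/
noncomputable def dX (q : κ[X][X]) : κ[X][X] := q.sum fun i a => monomial i (derivative a)

lemma coeff_dX (q : κ[X][X]) (i : ℕ) : (dX q).coeff i = derivative (q.coeff i) := by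
  unfold dX
  rw [coeff_sum, Polynomial.sum, Finset.sum_eq_single i]
  · rw [coeff_monomial, if_pos rfl]
  · intro j _ hj
    rw [coeff_monomial, if_neg hj]
  · intro hi
    rw [notMem_support_iff.1 hi]
    simp

lemma Bd_dX (h : q ∈ Bd κ α β) : dX q ∈ Bd κ α β := by
  refine ⟨natDegree_le_iff_coeff_eq_zero.2 fun i hi => ?_, fun i => ?_⟩
  · rw [coeff_dX, coeff_eq_zero_of_natDegree_lt (h.1.trans_lt hi), derivative_zero]
  · rw [coeff_dX]
    exact (natDegree_derivative_le _).trans ((Nat.sub_le _ _).trans (h.2 i))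

private lemma amstepa_swap (q : κ[X][X]) (i j : ℕ) :
    ((Bivariate.swap q).coeff j).coeff i = (q.coeff i).coeff j := by
  induction q using Polynomial.induction_on' with
  | add a b ha hb => rw [map_add, coeff_add, coeff_add, coeff_add, coeff_add, ha, hb]
  | monomial n a =>
    induction a using Polynomial.induction_on' with
    | add a b ha hb => rw [map_add, map_add, coeff_add, coeff_add, coeff_add, coeff_add, ha, hb]
    | monomial m r =>
      rw [Bivariate.swap_monomial_monomial]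
      by_cases h1 : n = i <;> by_cases h2 : m = j <;> simp [coeff_monomial, h1, h2]

private lemma amstepa_swap_le (q : κ[X][X]) :
    (Bivariate.swap q).natDegree ≤ α ↔ ∀ i, (q.coeff i).natDegree ≤ α := by
  simp only [natDegree_le_iff_coeff_eq_zero]
  constructor
  · intro h i j hj
    rw [← amstepa_swap, h j hj, coeff_zero]
  · intro h j hj
    ext i
    rw [amstepa_swap, h i j hj, coeff_zero]

/-- a divisor of a nonzero polynomial has bounded degree in the first variable -/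
lemma coeff_natDegree_le_of_dvd (h : q ∣ q') (h0 : q' ≠ 0)
    (hb : ∀ i, (q'.coeff i).natDegree ≤ α) (i : ℕ) : (q.coeff i).natDegree ≤ α := by
  refine (amstepa_swap_le q).1 ?_ i
  refine (natDegree_le_of_dvd (_root_.map_dvd Bivariate.swap h) ?_).trans
    ((amstepa_swap_le q').2 hb)
  exact (map_ne_zero_iff _ Bivariate.swap.injective).2 h0

/-- the coefficients as a linear map -/
private noncomputable def amstepaCo (κ : Type*) [Field κ] (α β : ℕ) :
    Bd κ α β →ₗ[κ] (Fin (α + 1) × Fin (β + 1) → κ) where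
  toFun q x := (q.1.coeff x.2).coeff x.1
  map_add' a b := by
    funext x
    simp
  map_smul' c a := by
    funext x
    simp

private lemma amstepa_bij : Function.Bijective (amstepaCo κ α β) := by
  constructor
  · refine (injective_iff_map_eq_zero _).2 fun q hq => Subtype.ext ?_
    ext j i
    simp only [ZeroMemClass.coe_zero, coeff_zero]
    by_cases hj : j < β + 1
    · by_cases hi : i < α + 1
      · exact congrFun hq (⟨i, hi⟩, ⟨j, hj⟩)
      · exact coeff_eq_zero_of_natDegree_lt ((q.2.2 j).trans_lt (by omega))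
    · rw [coeff_eq_zero_of_natDegree_lt (q.2.1.trans_lt (by omega)), coeff_zero]
  · intro c
    have hm : ∀ x : Fin (α + 1) × Fin (β + 1),
        (C (X ^ (x.1 : ℕ)) * X ^ (x.2 : ℕ) : κ[X][X]) ∈ Bd κ α β := fun x =>
      Bd_monomial (Nat.lt_succ_iff.1 x.1.2) (Nat.lt_succ_iff.1 x.2.2)
    refine ⟨∑ x, c x • ⟨_, hm x⟩, ?_⟩
    rw [map_sum]
    funext y
    rw [Finset.sum_apply, Finset.sum_eq_single y]
    · rw [map_smul, Pi.smul_apply]
      change c y • ((C (X ^ (y.1 : ℕ)) * X ^ (y.2 : ℕ) : κ[X][X]).coeff y.2).coeff y.1 = c y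
      rw [coeff_C_mul_X_pow, if_pos rfl, coeff_X_pow_self, smul_eq_mul, mul_one]
    · intro x _ hx
      rw [map_smul, Pi.smul_apply]
      change c x • ((C (X ^ (x.1 : ℕ)) * X ^ (x.2 : ℕ) : κ[X][X]).coeff y.2).coeff y.1 = 0
      rw [coeff_C_mul_X_pow]
      split_ifs with h2
      · rw [coeff_X_pow, if_neg, smul_zero]
        intro h1
        exact hx (Prod.ext (Fin.ext h1.symm) (Fin.ext h2.symm))
      · rw [coeff_zero, smul_zero]
    · intro hy
      exact absurd (Finset.mem_univ y) hy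

instance Bd_finite : FiniteDimensional κ (Bd κ α β) :=
  Module.Finite.of_injective (amstepaCo κ α β) amstepa_bij.1

lemma finrank_Bd : Module.finrank κ (Bd κ α β) = (α + 1) * (β + 1) := by
  rw [(LinearEquiv.ofBijective _ (amstepa_bij (κ := κ) (α := α) (β := β))).finrank_eq,
    Module.finrank_fintype_fun_eq_card, Fintype.card_prod, Fintype.card_fin, Fintype.card_fin]

private lemma amstepa_rank (V W : Type*) [AddCommGroup V] [Module κ V] [AddCommGroup W]
    [Module κ W] (f : V →ₗ[κ] W) (S T : Submodule κ V) (hS : FiniteDimensional κ S)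
    (g : V →ₗ[κ] V) (hg : Function.Injective g) (h1 : ∀ x ∈ T, g x ∈ S)
    (h2 : ∀ x ∈ T, f (g x) = 0) :
    Module.finrank κ (S.map f) + Module.finrank κ T ≤ Module.finrank κ S := by
  have h3 := LinearMap.finrank_range_add_finrank_ker (f.domRestrict S)
  rw [LinearMap.range_domRestrict] at h3
  let g' : T →ₗ[κ] S := (g.domRestrict T).codRestrict _ fun x => h1 x.1 x.2
  have hg' : Function.Injective g' := fun x y hxy =>
    Subtype.ext (hg (congrArg Subtype.val hxy))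
  have h4 : LinearMap.range g' ≤ LinearMap.ker (f.domRestrict S) := by
    rintro _ ⟨x, rfl⟩
    exact h2 x.1 x.2
  have h5 := Submodule.finrank_mono h4
  rw [LinearMap.finrank_range_of_inj hg'] at h5
  omega

private lemma amstepa_ker (V W : Type*) [AddCommGroup V] [Module κ V] [AddCommGroup W]
    [Module κ W] (f : V →ₗ[κ] W) (S T U : Submodule κ V) (hS : FiniteDimensional κ S)
    (hT : FiniteDimensional κ T) (hU : FiniteDimensional κ U) (g : V →ₗ[κ] V)
    (h1 : ∀ x ∈ S, ∀ y ∈ T, x - g y ∈ U)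
    (h2 : Module.finrank κ (U.map f) < Module.finrank κ S + Module.finrank κ T) :
    ∃ x ∈ S, ∃ y ∈ T, ¬ (x = 0 ∧ y = 0) ∧ f (x - g y) = 0 := by
  let Φ : (S × T) →ₗ[κ] W :=
    f ∘ₗ (S.subtype ∘ₗ LinearMap.fst κ _ _ - g ∘ₗ T.subtype ∘ₗ LinearMap.snd κ _ _)
  have hni : ¬ Function.Injective Φ := by
    intro hi
    have h3 : LinearMap.range Φ ≤ U.map f := by
      rintro _ ⟨x, rfl⟩
      exact ⟨x.1.1 - g x.2.1, h1 _ x.1.2 _ x.2.2, rfl⟩
    have h4 := Submodule.finrank_mono h3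
    rw [LinearMap.finrank_range_of_inj hi, Module.finrank_prod] at h4
    omega
  rw [injective_iff_map_eq_zero] at hni
  push Not at hni
  obtain ⟨x, hx, hx0⟩ := hni
  exact ⟨x.1.1, x.1.2, x.2.1, x.2.2,
    fun h => hx0 (Prod.ext (Subtype.ext h.1) (Subtype.ext h.2)), hx⟩

/-- dimension of the image on the curve -/
theorem finrank_map_le {F : κ[X][X]} {e e' : ℕ} (hF0 : F ≠ 0) (hF : F ∈ Bd κ e' e) (α β : ℕ) :
    Module.finrank κ ((Bd κ α β).map (Ideal.Quotient.mkₐ κ (Ideal.span {F})).toLinearMap)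
      ≤ e' * (β + 1) + e * (α + 1) := by
  have h0 := Submodule.finrank_map_le (Ideal.Quotient.mkₐ κ (Ideal.span {F})).toLinearMap
    (Bd κ α β)
  rw [finrank_Bd] at h0
  by_cases h1 : α < e'
  · exact h0.trans ((Nat.mul_le_mul_right _ h1).trans (Nat.le_add_right _ _))
  by_cases h2 : β < e
  · rw [mul_comm] at h0
    exact h0.trans ((Nat.mul_le_mul_right _ h2).trans (Nat.le_add_left _ _))
  obtain ⟨a, rfl⟩ := Nat.exists_eq_add_of_le (not_lt.1 h1)
  obtain ⟨b, rfl⟩ := Nat.exists_eq_add_of_le (not_lt.1 h2)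
  have h3 : Module.finrank κ ((Bd κ (e' + a) (e + b)).map
      (Ideal.Quotient.mkₐ κ (Ideal.span {F})).toLinearMap) + Module.finrank κ (Bd κ a b) ≤
      Module.finrank κ (Bd κ (e' + a) (e + b)) :=
    amstepa_rank κ[X][X] (κ[X][X] ⧸ Ideal.span {F})
      (Ideal.Quotient.mkₐ κ (Ideal.span {F})).toLinearMap (Bd κ (e' + a) (e + b)) (Bd κ a b)
      Bd_finite (LinearMap.mulLeft κ F) (fun _ _ hxy => mul_left_cancel₀ hF0 hxy)
      (fun _ hx => Bd_mul hF hx)
      (fun x _ => Ideal.Quotient.eq_zero_iff_mem.2 (Ideal.mem_span_singleton.2 ⟨x, rfl⟩))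
  rw [finrank_Bd, finrank_Bd] at h3
  nlinarith [Nat.zero_le (e * e')]

/-- substitute for the resultant -/
theorem exists_res {F : κ[X][X]} {e' : ℕ} (hF : Prime F) (he : 1 ≤ F.natDegree)
    (hF' : F ∈ Bd κ e' F.natDegree) (hq : q ∈ Bd κ α β) (hn : ¬ F ∣ q) :
    ∃ r : κ[X], r ≠ 0 ∧ r.natDegree ≤ α * F.natDegree + (β + F.natDegree) * e' ∧
      ∃ b : κ[X][X], F ∣ C r - b * q := by
  obtain ⟨d, hd⟩ := Nat.exists_eq_add_of_le' he
  obtain ⟨σ, hσ⟩ : ∃ σ, σ = α * d + (β + (d + 1)) * e' := ⟨_, rfl⟩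
  have hρ : α * F.natDegree + (β + F.natDegree) * e' = σ + α := by
    rw [hd, hσ]
    ring
  rw [hρ]
  have h2 : Module.finrank κ ((Bd κ (σ + α) (d + β)).map
      (Ideal.Quotient.mkₐ κ (Ideal.span {F})).toLinearMap) <
      Module.finrank κ (Bd κ (σ + α) 0) + Module.finrank κ (Bd κ σ d) := by
    refine (finrank_map_le hF.ne_zero hF' (σ + α) (d + β)).trans_lt ?_
    rw [finrank_Bd, finrank_Bd, hd]
    nlinarith
  obtain ⟨x, hx, y, hy, h0, hxy⟩ := amstepa_ker κ[X][X] (κ[X][X] ⧸ Ideal.span {F})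
    (Ideal.Quotient.mkₐ κ (Ideal.span {F})).toLinearMap (Bd κ (σ + α) 0) (Bd κ σ d)
    (Bd κ (σ + α) (d + β)) Bd_finite Bd_finite Bd_finite (LinearMap.mulRight κ q)
    (fun _ hx _ hy => Submodule.sub_mem _ (Bd_mono hx le_rfl (Nat.zero_le _)) (Bd_mul hy hq)) h2
  have h3 : F ∣ x - y * q := Ideal.mem_span_singleton.1 (Ideal.Quotient.eq_zero_iff_mem.1 hxy)
  have h1 : x = C (x.coeff 0) := eq_C_of_natDegree_le_zero hx.1
  refine ⟨x.coeff 0, fun h4 => h0 ?_, hx.2 0, y, h1 ▸ h3⟩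
  rw [h4, C_0] at h1
  rw [h1, zero_sub] at h3
  exact ⟨h1, eq_zero_of_dvd_of_natDegree_lt ((hF.dvd_or_dvd (dvd_neg.1 h3)).resolve_right hn)
    (hy.1.trans_lt (by omega))⟩

private lemma amstepa_ex (q : κ[X][X]) : ∃ α, q ∈ Bd κ α q.natDegree :=
  ⟨_, le_rfl, (amstepa_swap_le q).1 le_rfl⟩

/-- a homomorphism that kills the prime `F` and is injective on `κ[X]` has kernel generated by `F` -/
theorem ker_eq {R : Type*} [CommRing R] (φ : κ[X][X] →+* R) {F : κ[X][X]} (hF : Prime F)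
    (he : 1 ≤ F.natDegree) (h0 : φ F = 0) (hinj : ∀ r : κ[X], φ (C r) = 0 → r = 0)
    (q : κ[X][X]) : φ q = 0 ↔ F ∣ q := by
  constructor
  · intro hq
    by_contra hn
    obtain ⟨e', hF'⟩ := amstepa_ex F
    obtain ⟨a, hq'⟩ := amstepa_ex q
    obtain ⟨r, hr, -, b, c, hc⟩ := exists_res hF he hF' hq' hn
    have h1 := congrArg φ hc
    rw [map_sub, map_mul, map_mul, hq, h0, mul_zero, zero_mul, sub_zero] at h1
    exact hr (hinj r h1)
  · rintro ⟨c, rfl⟩
    rw [map_mul, h0, zero_mul]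

/-- the curve attached to a pair of elements of a field -/
theorem exists_curve {Ω : Type*} [Field Ω] [Algebra κ Ω] (u w : Ω) (hu : Transcendental κ u)
    (ψ : ℕ) (q₁ q₂ : κ[X][X]) (h₁ : q₁ ≠ 0) (d₁ : q₁.natDegree ≤ ψ) (z₁ : aevalAeval u w q₁ = 0)
    (h₂ : q₂ ≠ 0) (d₂ : ∀ i, (q₂.coeff i).natDegree ≤ ψ) (z₂ : aevalAeval u w q₂ = 0) :
    ∃ F : κ[X][X], Prime F ∧ 1 ≤ F.natDegree ∧ F.natDegree ≤ ψ ∧ F ∈ Bd κ ψ F.natDegree ∧
      ∀ q, aevalAeval u w q = 0 ↔ F ∣ q := by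
  let φ : κ[X][X] →+* Ω := (aevalAeval u w : κ[X][X] →ₐ[κ] Ω)
  have hinj : ∀ r : κ[X], φ (C r) = 0 → r = 0 := fun r hr =>
    transcendental_iff.1 hu r ((aevalAeval_C u w r).symm.trans hr)
  have hb : RingHom.ker φ ≠ ⊥ := fun h => h₁ (by
    have h1 : q₁ ∈ RingHom.ker φ := z₁
    rwa [h, Ideal.mem_bot] at h1)
  obtain ⟨F, hF0, hF⟩ := (RingHom.ker_isPrime φ).exists_mem_prime_of_ne_bot hb
  have he : 1 ≤ F.natDegree := by
    by_contra h
    have h1 : F = C (F.coeff 0) := eq_C_of_natDegree_le_zero (by omega)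
    have h2 : φ (C (F.coeff 0)) = 0 := h1 ▸ hF0
    rw [hinj _ h2, C_0] at h1
    exact hF.ne_zero h1
  have hk := ker_eq φ hF he hF0 hinj
  exact ⟨F, hF, he, (natDegree_le_of_dvd ((hk q₁).1 z₁) h₁).trans d₁,
    ⟨le_rfl, coeff_natDegree_le_of_dvd ((hk q₂).1 z₂) h₂ d₂⟩, hk⟩

end Pool.Agent.Lib.MP_4a1067_nt.Am
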