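import Mathlib
import Pool.Agent.Lib.MP_4a1067_nt.AmStepA

/-! Independence of square roots and the norm. -/

namespace Pool.Agent.Lib.MP_4a1067_nt.Am

open Polynomial

lemma amStepC_prod {R ι : Type*} [CommMonoid R] [DecidableEq ι] (f : ι → R) (S T : Finset ι) :
    (∏ i ∈ S, f i) * ∏ i ∈ T, f i = (∏ i ∈ symmDiff S T, f i) * ∏ i ∈ S ∩ T, f i ^ 2 := by
  have h1 : S ∪ T = symmDiff S T ∪ S ∩ T := (symmDiff_sup_inf S T).symm
  have h2 : Disjoint (symmDiff S T) (S ∩ T) := disjoint_symmDiff_inf S T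
  rw [← Finset.prod_union_inter, h1, Finset.prod_union h2, Finset.prod_pow, sq, mul_assoc]

lemma amStepC_sign {K M : Type*} [Field K] [Field M] [Algebra K M] {w : M} {a : K}
    (hw : w ^ 2 = algebraMap K M a) (σ : M ≃ₐ[K] M) : σ w = w ∨ σ w = -w := by
  apply sq_eq_sq_iff_eq_or_eq_neg.1
  rw [← map_pow, hw, σ.commutes]

/-- the character attached to a square root -/
noncomputable def amStepC_chr {K M : Type*} [Field K] [Field M] [Algebra K M] {w : M} {a : K}
    (hw : w ^ 2 = algebraMap K M a) (h0 : w ≠ 0) : (M ≃ₐ[K] M) →* M where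
  toFun σ := σ w / w
  map_one' := div_self h0
  map_mul' σ τ := by
    rw [AlgEquiv.mul_apply]
    rcases amStepC_sign hw τ with h | h <;> rw [h]
    · rw [div_self h0, mul_one]
    · rw [map_neg, neg_div, neg_div, div_self h0, mul_neg, mul_one]

lemma amStepC_flip {K M : Type*} [Field K] [Field M] [Algebra K M] [Normal K M] {w : M} {a : K}
    (hw : w ^ 2 = algebraMap K M a) (ha : ¬ IsSquare a) : ∃ σ : M ≃ₐ[K] M, σ w = -w := by
  have hirr : Irreducible (X ^ 2 - C a : K[X]) :=
    X_pow_sub_C_irreducible_of_prime Nat.prime_two fun b hb => ha ⟨b, by rw [← hb, sq]⟩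
  have hm : X ^ 2 - C a = minpoly K (-w) :=
    minpoly.eq_of_irreducible_of_monic hirr (by simp [hw]) (monic_X_pow_sub_C a two_ne_zero)
  exact minpoly.exists_algEquiv_of_root (Algebra.IsAlgebraic.isAlgebraic (-w))
    (by rw [← hm]; simp [hw])

lemma amStepC_normal {K M : Type*} [Field K] [Field M] [Algebra K M] [Normal K M]
    (h2 : (2 : K) ≠ 0) {ι : Type*} [Fintype ι] [DecidableEq ι] (g : ι → K) (z : ι → M)
    (hz : ∀ i, z i ^ 2 = algebraMap K M (g i))
    (hns : ∀ S : Finset ι, S.Nonempty → ¬ IsSquare (∏ i ∈ S, g i)) :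
    LinearIndependent K fun S : Finset ι => ∏ i ∈ S, z i := by
  have hinj := (algebraMap K M).injective
  have hz0 : ∀ i, z i ≠ 0 := fun i h0 => by
    refine hns {i} (Finset.singleton_nonempty i) ⟨0, ?_⟩
    rw [Finset.prod_singleton, mul_zero]
    apply hinj
    rw [← hz, h0, map_zero, sq, mul_zero]
  have hS0 : ∀ S : Finset ι, ∏ i ∈ S, z i ≠ 0 := fun S =>
    Finset.prod_ne_zero_iff.2 fun i _ => hz0 i
  have hS2 : ∀ S : Finset ι, (∏ i ∈ S, z i) ^ 2 = algebraMap K M (∏ i ∈ S, g i) := fun S => by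
    rw [← Finset.prod_pow, map_prod]
    exact Finset.prod_congr rfl fun i _ => hz i
  have h2' : (2 : M) ≠ 0 := fun h => h2 (hinj (by rw [map_ofNat, h, map_zero]))
  let χ : Finset ι → ((M ≃ₐ[K] M) →* M) := fun S => amStepC_chr (hS2 S) (hS0 S)
  have hχ : ∀ S σ, χ S σ = σ (∏ i ∈ S, z i) / ∏ i ∈ S, z i := fun _ _ => rfl
  have hχinj : Function.Injective χ := by
    intro S T hST
    by_contra hne
    have hD : (symmDiff S T).Nonempty :=
      Finset.nonempty_iff_ne_empty.2 fun h => hne (symmDiff_eq_bot.1 h)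
    obtain ⟨σ, hσ⟩ := amStepC_flip (hS2 _) (hns _ hD)
    have e1 : σ ((∏ i ∈ S, z i) * ∏ i ∈ T, z i) = -((∏ i ∈ S, z i) * ∏ i ∈ T, z i) := by
      rw [amStepC_prod, Finset.prod_pow, hS2 (S ∩ T), map_mul, hσ, σ.commutes, neg_mul]
    have e2 : σ (∏ i ∈ S, z i) / ∏ i ∈ S, z i = σ (∏ i ∈ T, z i) / ∏ i ∈ T, z i := by
      rw [← hχ, ← hχ, hST]
    have hs := hS0 S
    have ht := hS0 T
    have hst : (2 : M) * ((∏ i ∈ S, z i) * ∏ i ∈ T, z i) ≠ 0 :=
      mul_ne_zero h2' (mul_ne_zero hs ht)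
    rw [map_mul] at e1
    rw [div_eq_div_iff hs ht] at e2
    rcases amStepC_sign (hS2 S) σ with a | a <;> rcases amStepC_sign (hS2 T) σ with b | b <;>
      rw [a, b] at e1 e2 <;> apply hst
    · linear_combination e1
    · linear_combination e2
    · linear_combination -e2
    · linear_combination e1
  have hli := (linearIndependent_monoidHom (M ≃ₐ[K] M) M).comp χ hχinj
  rw [Fintype.linearIndependent_iff] at hli ⊢
  intro c hc S
  have := hli (fun S => c S • ∏ i ∈ S, z i) (by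
    funext σ
    have h3 := congrArg σ hc
    rw [map_sum, map_zero] at h3
    rw [Finset.sum_apply, Pi.zero_apply, ← h3]
    refine Finset.sum_congr rfl fun T _ => ?_
    rw [Pi.smul_apply, Function.comp_apply, hχ, map_smul, smul_eq_mul, smul_mul_assoc,
      mul_div_cancel₀ _ (hS0 T)]) S
  exact (smul_eq_zero.1 this).resolve_right (hS0 S)

/-- products of square roots are independent when no product of radicands is a square -/
theorem kummer {K M : Type*} [Field K] [Field M] [Algebra K M] (h2 : (2 : K) ≠ 0) {ι : Type*}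
    [Fintype ι] [DecidableEq ι] (g : ι → K) (z : ι → M) (hz : ∀ i, z i ^ 2 = algebraMap K M (g i))
    (hns : ∀ S : Finset ι, S.Nonempty → ¬ IsSquare (∏ i ∈ S, g i)) :
    LinearIndependent K fun S : Finset ι => ∏ i ∈ S, z i := by
  have hmem : ∀ i, z i ∈ algebraicClosure K M := fun i => by
    rw [mem_algebraicClosure_iff']
    refine IsIntegral.of_pow two_pos ?_
    rw [hz]
    exact isIntegral_algebraMap
  let z' : ι → algebraicClosure K M := fun i => ⟨z i, hmem i⟩
  let ψ : algebraicClosure K M →ₐ[K] AlgebraicClosure K := IsAlgClosed.lift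
  have hz' : ∀ i, z' i ^ 2 = algebraMap K _ (g i) := fun i => Subtype.ext (hz i)
  have h1 := amStepC_normal h2 g (fun i => ψ (z' i))
    (fun i => by rw [← map_pow, hz', ψ.commutes]) hns
  have h3 : LinearIndependent K fun S : Finset ι => ∏ i ∈ S, z' i := by
    refine LinearIndependent.of_comp ψ.toLinearMap ?_
    convert h1 using 1
    funext S
    simp [map_prod]
  have h4 := h3.map' (algebraicClosure K M).val.toLinearMap
    (LinearMap.ker_eq_bot.2 Subtype.val_injective)
  have e : (fun S : Finset ι => ∏ i ∈ S, z i) =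
      (algebraicClosure K M).val.toLinearMap ∘ fun S : Finset ι => ∏ i ∈ S, z' i := by
    funext S
    simp [z']
  rw [e]
  exact h4

variable {κ : Type*} [Field κ]

lemma amStepC_row {P R ι : Type*} [CommRing P] [CommRing R] [Fintype ι] [DecidableEq ι]
    (φ : P →+* R) (G : ι → P) (ζ : ι → R) (hζ : ∀ i, ζ i ^ 2 = φ (G i)) (h : Finset ι → P)
    (T : Finset ι) :
    ∑ U, φ (h (symmDiff U T) * ∏ i ∈ symmDiff U T ∩ T, G i) * ∏ i ∈ U, ζ i =
      (∑ S, φ (h S) * ∏ i ∈ S, ζ i) * ∏ i ∈ T, ζ i := by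
  have hinv : Function.Involutive fun U : Finset ι => symmDiff U T := fun U =>
    symmDiff_symmDiff_cancel_right T U
  rw [Finset.sum_mul, ← hinv.bijective.sum_comp fun S => φ (h S) * (∏ i ∈ S, ζ i) * ∏ i ∈ T, ζ i]
  refine Finset.sum_congr rfl fun U _ => ?_
  rw [mul_assoc, amStepC_prod, symmDiff_symmDiff_cancel_right, map_mul, map_prod]
  simp only [hζ]
  ring

/-- a nontrivial combination of the products of square roots divides a polynomial function of
bounded bidegree that does not vanish on the curve -/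
theorem norm_det (h2 : (2 : κ) ≠ 0) {R : Type*} [CommRing R] [IsDomain R] (φ : κ[X][X] →+* R)
    (F : κ[X][X]) (hker : ∀ q, φ q = 0 ↔ F ∣ q) {ι : Type*} [Fintype ι] [DecidableEq ι]
    (G : ι → κ[X][X]) (r : ℕ) (hG : ∀ S : Finset ι, ∏ i ∈ S, G i ∈ Bd κ r r)
    (hns : ∀ S : Finset ι, S.Nonempty → ∀ a c : κ[X][X],
      F ∣ a ^ 2 - (∏ i ∈ S, G i) * c ^ 2 → F ∣ c)
    (ζ : ι → R) (hζ : ∀ i, ζ i ^ 2 = φ (G i)) (α β : ℕ) (h : Finset ι → κ[X][X])
    (hh : ∀ S, h S ∈ Bd κ α β) (hne : ∃ S, ¬ F ∣ h S) :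
    ∃ q ∈ Bd κ (2 ^ Fintype.card ι * (α + r)) (2 ^ Fintype.card ι * (β + r)),
      ¬ F ∣ q ∧ (∑ S, φ (h S) * ∏ i ∈ S, ζ i) ∣ φ q := by
  let N : Matrix (Finset ι) (Finset ι) κ[X][X] :=
    Matrix.of fun T U => h (symmDiff U T) * ∏ i ∈ symmDiff U T ∩ T, G i
  refine ⟨N.det, ?_, ?_, ?_⟩
  · rw [Matrix.det_apply']
    refine Submodule.sum_mem _ fun σ _ => ?_
    rw [← zsmul_eq_mul]
    refine zsmul_mem ?_ _
    have := Bd_prod Finset.univ (fun T => N (σ T) T) fun T _ => Bd_mul (hh _) (hG _)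
    rwa [Finset.card_univ, Fintype.card_finset] at this
  · intro hdvd
    let M := FractionRing R
    let ψ : κ[X][X] →+* M := (algebraMap R M).comp φ
    have hψ : ∀ q, ψ q = 0 ↔ F ∣ q := fun q => by
      rw [← hker]
      exact map_eq_zero_iff _ (IsFractionRing.injective R M)
    let K : Subfield M := Subfield.closure (Set.range ψ)
    let ψK : κ[X][X] →+* K := ψ.codRestrict K fun q => Subfield.subset_closure ⟨q, rfl⟩
    have hψK : ∀ q, algebraMap K M (ψK q) = ψ q := fun _ => rfl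
    have hF1 : ¬ F ∣ 1 := fun h1 => one_ne_zero ((map_one ψ).symm.trans ((hψ 1).2 h1))
    have h2K : (2 : K) ≠ 0 := by
      have e : (2 : K) = ((ψK.comp C).comp C) (2 : κ) := (map_ofNat _ 2).symm
      rw [e]
      exact (_root_.map_ne_zero _).2 h2
    let z : ι → M := fun i => algebraMap R M (ζ i)
    have hz : ∀ i, z i ^ 2 = ψ (G i) := fun i => by
      simp only [z, ← map_pow, hζ]
      rfl
    have hli := kummer h2K (fun i => ψK (G i)) z hz (by
      rintro S hS ⟨x, hx⟩
      rw [← map_prod] at hx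
      have hx' : ψ (∏ i ∈ S, G i) = (x : M) * x := congrArg (algebraMap K M) hx
      obtain ⟨y, hy, w, hw, e⟩ := Subfield.mem_closure_iff.1 x.2
      rw [← RingHom.coe_range, Subring.closure_eq] at hy hw
      obtain ⟨a, rfl⟩ := hy
      obtain ⟨c, rfl⟩ := hw
      by_cases hc : ψ c = 0
      · refine hF1 (hns S hS 0 1 ((hψ _).1 ?_))
        rw [map_sub, map_mul, hx', ← e, hc]
        simp
      · refine hc ((hψ c).2 (hns S hS a c ((hψ _).1 ?_)))
        rw [map_sub, map_mul, hx', ← e, map_pow, map_pow, ← sq, ← mul_pow,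
          div_mul_cancel₀ _ hc, sub_self])
    rw [Fintype.linearIndependent_iff] at hli
    have hdet : (N.map ψK).det = 0 := by
      have e : (N.map ψK).det = ψK N.det := (RingHom.map_det ψK N).symm
      rw [e]
      exact Subtype.ext ((hψ _).2 hdvd)
    obtain ⟨v, hv0, hv⟩ := Matrix.exists_vecMul_eq_zero_iff.2 hdet
    have hf : ∑ S, ψ (h S) * ∏ i ∈ S, z i ≠ 0 := fun h0 => by
      obtain ⟨S, hS⟩ := hne
      have := hli (fun S => ψK (h S)) h0 S
      exact hS ((hψ _).1 (congrArg (algebraMap K M) this))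
    refine hv0 (funext (hli v ?_))
    apply mul_left_cancel₀ hf
    rw [mul_zero, Finset.mul_sum]
    calc ∑ T, (∑ S, ψ (h S) * ∏ i ∈ S, z i) * v T • ∏ i ∈ T, z i
        = ∑ T, ∑ U, (v T * ψK (N T U)) • ∏ i ∈ U, z i := by
          refine Finset.sum_congr rfl fun T _ => ?_
          rw [mul_smul_comm, ← amStepC_row ψ G z hz h T, Finset.smul_sum]
          refine Finset.sum_congr rfl fun U _ => ?_
          rw [mul_smul]
          rfl
      _ = ∑ U, (Matrix.vecMul v (N.map ψK) U) • ∏ i ∈ U, z i := by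
          rw [Finset.sum_comm]
          refine Finset.sum_congr rfl fun U _ => ?_
          rw [← Finset.sum_smul]
          rfl
      _ = 0 := by simp [hv]
  · let Z : Finset ι → R := fun S => ∏ i ∈ S, ζ i
    have e1 : (N.map φ).mulVec Z = (∑ S, φ (h S) * ∏ i ∈ S, ζ i) • Z := by
      funext T
      exact amStepC_row φ G ζ hζ h T
    have e2 := congrArg (fun w => (N.map φ).adjugate.mulVec w ∅) e1
    simp only [Matrix.mulVec_mulVec, Matrix.adjugate_mul, Matrix.smul_mulVec, Matrix.one_mulVec,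
      Matrix.mulVec_smul, Pi.smul_apply, smul_eq_mul, Z, Finset.prod_empty, mul_one] at e2
    exact ⟨_, (RingHom.map_det φ N).trans e2⟩

end Pool.Agent.Lib.MP_4a1067_nt.Am
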