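import Mathlib
import Pool.Agent.Lib.MP_4a1067_nt.AmStepC
import Pool.Agent.Lib.MP_4a1067_nt.AmSeries

/-! The auxiliary function of the Stepanov method: existence and non-vanishing. -/

namespace Pool.Agent.Lib.MP_4a1067_nt.Am

open Polynomial
open scoped PowerSeries

variable {κ : Type*} [Field κ] {ι : Type*} [Fintype ι] [DecidableEq ι]

/-- the derivation of the function field of the curve `F = 0`, cleared of denominators -/
noncomputable def dd (F q : κ[X][X]) : κ[X][X] := derivative F * dX q - dX F * derivative q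

/-- the operator acting on the coefficient of the power (∏ i ∈ S, G i) ^ m -/
noncomputable def opT (F : κ[X][X]) (G : ι → κ[X][X]) (m : ℕ) (S : Finset ι) (q : κ[X][X]) :
    κ[X][X] :=
  (∏ i, G i) * dd F q + (m : κ[X][X]) * (∏ i ∈ Sᶜ, G i) * dd F (∏ i ∈ S, G i) * q

/-- the auxiliary function -/
noncomputable def aux (p : ℕ) (G : ι → κ[X][X]) (J e : ℕ)
    (h : Finset ι → Fin J → Fin e → κ[X][X]) : κ[X][X] :=
  ∑ S, ∑ j, ∑ k, h S j k * (C (X ^ (j : ℕ)) * X ^ (k : ℕ)) ^ p * (∏ i ∈ S, G i) ^ (p / 2)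

lemma aux_mem (p : ℕ) (G : ι → κ[X][X]) (r : ℕ) (hG : ∀ S : Finset ι, ∏ i ∈ S, G i ∈ Bd κ r r)
    (J e α β : ℕ) (h : Finset ι → Fin J → Fin e → κ[X][X]) (hh : ∀ S j k, h S j k ∈ Bd κ α β) :
    aux p G J e h ∈ Bd κ (α + p * J + p * r) (β + p * e + p * r) := by
  refine Submodule.sum_mem _ fun S _ => Submodule.sum_mem _ fun j _ =>
    Submodule.sum_mem _ fun k _ => ?_
  have h1 : p / 2 * r ≤ p * r := Nat.mul_le_mul_right r (Nat.div_le_self p 2)
  exact Bd_mul (Bd_mul (hh S j k) (Bd_pow (Bd_monomial j.2.le k.2.le) p))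
    (Bd_mono (Bd_pow (hG S) (p / 2)) h1 h1)

lemma amstepb_dd_mem {F q : κ[X][X]} {e e' α β : ℕ} (hF : F ∈ Bd κ e' e) (hq : q ∈ Bd κ α β) :
    dd F q ∈ Bd κ (e' + α) (e + β) :=
  Submodule.sub_mem _ (Bd_mul (Bd_derivative hF) (Bd_dX hq)) (Bd_mul (Bd_dX hF) (Bd_derivative hq))

lemma amstepb_opT_mem {F : κ[X][X]} {e e' r α β : ℕ} (hF : F ∈ Bd κ e' e) (G : ι → κ[X][X])
    (hG : ∀ S : Finset ι, ∏ i ∈ S, G i ∈ Bd κ r r) (m : ℕ) (S : Finset ι) {q : κ[X][X]}
    (hq : q ∈ Bd κ α β) : opT F G m S q ∈ Bd κ (α + (e' + 2 * r)) (β + (e + 2 * r)) := by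
  refine Submodule.add_mem _ (Bd_mono (Bd_mul (hG Finset.univ) (amstepb_dd_mem hF hq))
    (by omega) (by omega)) ?_
  rw [mul_assoc, mul_assoc, ← nsmul_eq_mul]
  exact nsmul_mem (Bd_mono (Bd_mul (hG Sᶜ) (Bd_mul (amstepb_dd_mem hF (hG S)) hq))
    (by omega) (by omega)) m

lemma opT_iterate_mem {F : κ[X][X]} {e e' r α β : ℕ} (hF : F ∈ Bd κ e' e) (G : ι → κ[X][X])
    (hG : ∀ S : Finset ι, ∏ i ∈ S, G i ∈ Bd κ r r) (m : ℕ) (S : Finset ι) {q : κ[X][X]}
    (hq : q ∈ Bd κ α β) (n : ℕ) :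
    (opT F G m S)^[n] q ∈ Bd κ (α + n * (e' + 2 * r)) (β + n * (e + 2 * r)) := by
  induction n with
  | zero => simpa using hq
  | succ n ih =>
    rw [Function.iterate_succ_apply', add_one_mul n, add_one_mul n, ← add_assoc α, ← add_assoc β]
    exact amstepb_opT_mem hF G hG m S ih

lemma amstepb_dX_add (q q' : κ[X][X]) : dX (q + q') = dX q + dX q' := by
  refine Polynomial.ext fun i => ?_
  rw [coeff_add, coeff_dX, coeff_dX, coeff_dX, coeff_add, derivative_add]

lemma amstepb_dX_smul (c : κ) (q : κ[X][X]) : dX (c • q) = c • dX q := by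
  refine Polynomial.ext fun i => ?_
  rw [coeff_smul, coeff_dX, coeff_dX, coeff_smul, derivative_smul]

lemma amstepb_dX_monomial (n : ℕ) (a : κ[X]) :
    dX (monomial n a) = monomial n (derivative a) := by
  refine Polynomial.ext fun i => ?_
  rw [coeff_dX, coeff_monomial, coeff_monomial]
  split_ifs <;> simp

omit [DecidableEq ι] in
lemma amstepb_ker {B R : Type*} [AddCommGroup B] [Module κ B] [FiniteDimensional κ B]
    [CommRing R] [Algebra κ R] (W : Submodule κ R) [FiniteDimensional κ W] {D J e : ℕ}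
    (f : Fin D → (Finset ι → Fin J → Fin e → B) →ₗ[κ] R) (hf : ∀ n v, f n v ∈ W) (I : Ideal R)
    (h : D * Module.finrank κ (W.map (Ideal.Quotient.mkₐ κ I).toLinearMap) <
      2 ^ Fintype.card ι * J * e * Module.finrank κ B) :
    ∃ v ≠ 0, ∀ n, f n v ∈ I := by
  let Φ : (Finset ι → Fin J → Fin e → B) →ₗ[κ]
      (Fin D → W.map (Ideal.Quotient.mkₐ κ I).toLinearMap) :=
    LinearMap.pi fun n => LinearMap.codRestrict _ ((Ideal.Quotient.mkₐ κ I).toLinearMap ∘ₗ f n)
      fun v => Submodule.mem_map_of_mem (hf n v)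
  have := Module.Free.of_divisionRing κ (W.map (Ideal.Quotient.mkₐ κ I).toLinearMap)
  have hlt : Module.finrank κ (Fin D → W.map (Ideal.Quotient.mkₐ κ I).toLinearMap) <
      Module.finrank κ (Finset ι → Fin J → Fin e → B) := by
    simp only [Module.finrank_pi_fintype, Finset.sum_const, Finset.card_univ, Fintype.card_fin,
      Fintype.card_finset, smul_eq_mul, ← mul_assoc]
    exact h
  obtain ⟨v, hv, h0⟩ := Submodule.exists_mem_ne_zero_of_ne_bot (Φ.ker_ne_bot_of_finrank_lt hlt)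
  exact ⟨v, h0, fun n => Ideal.Quotient.eq_zero_iff_mem.1
    (congrArg Subtype.val (congrFun (LinearMap.mem_ker.1 hv) n))⟩

/-- the operator `opT` as a linear map -/
noncomputable def amstepbL (F : κ[X][X]) (G : ι → κ[X][X]) (m : ℕ) (S : Finset ι) :
    κ[X][X] →ₗ[κ] κ[X][X] where
  toFun := opT F G m S
  map_add' q q' := by
    simp only [opT, dd, amstepb_dX_add, derivative_add]
    ring
  map_smul' c q := by
    simp only [opT, dd, amstepb_dX_smul, derivative_smul, RingHom.id_apply, mul_smul_comm,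
      smul_add, smul_sub, mul_sub]

lemma amstepb_psi (F : κ[X][X]) (G : ι → κ[X][X]) (m : ℕ) (B : Submodule κ κ[X][X]) (J e : ℕ) :
    ∃ Ψ : ℕ → (Finset ι → Fin J → Fin e → B) →ₗ[κ] κ[X][X], ∀ n h, Ψ n h =
      ∑ S, ∑ j : Fin J, ∑ k : Fin e,
        (opT F G m S)^[n] (h S j k) * (C (X ^ (j : ℕ)) * X ^ (k : ℕ)) := by
  refine ⟨fun n =>
    ∑ S, ∑ j : Fin J, ∑ k : Fin e, LinearMap.mulRight κ (C (X ^ (j : ℕ)) * X ^ (k : ℕ)) ∘ₗ
      (amstepbL F G m S ^ n) ∘ₗ B.subtype ∘ₗ LinearMap.proj k ∘ₗ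
      LinearMap.proj j ∘ₗ LinearMap.proj S, fun n h => ?_⟩
  simp only [LinearMap.sum_apply, LinearMap.comp_apply, LinearMap.mulRight_apply,
    LinearMap.proj_apply, Submodule.subtype_apply, Module.End.pow_apply]
  rfl

/-- linear algebra: coefficients satisfying all vanishing conditions -/
theorem exists_coeffs {F : κ[X][X]} {e e' r : ℕ} (hF0 : F ≠ 0) (hF : F ∈ Bd κ e' e) (he : 1 ≤ e)
    (G : ι → κ[X][X]) (hG : ∀ S : Finset ι, ∏ i ∈ S, G i ∈ Bd κ r r) (m A J D : ℕ)
    (hdim : D * (e' * (2 * e + D * (e + 2 * r)) + e * (A + D * (e' + 2 * r) + J + 1))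
      < 2 ^ Fintype.card ι * J * e * ((A + 1) * e)) :
    ∃ h : Finset ι → Fin J → Fin e → κ[X][X], h ≠ 0 ∧ (∀ S j k, h S j k ∈ Bd κ A (e - 1)) ∧
      ∀ n < D, F ∣ ∑ S, ∑ j, ∑ k,
        (opT F G m S)^[n] (h S j k) * (C (X ^ (j : ℕ)) * X ^ (k : ℕ)) := by
  obtain ⟨Ψ, hΨ⟩ := amstepb_psi F G m (Bd κ A (e - 1)) J e
  have hW : ∀ (n : Fin D) h,
      Ψ n h ∈ Bd κ (A + D * (e' + 2 * r) + J) (2 * e - 1 + D * (e + 2 * r)) := by
    intro n h
    rw [hΨ]
    refine Submodule.sum_mem _ fun S _ => Submodule.sum_mem _ fun j _ =>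
      Submodule.sum_mem _ fun k _ => ?_
    have h1 := Nat.mul_le_mul_right (e' + 2 * r) n.2.le
    have h2 := Nat.mul_le_mul_right (e + 2 * r) n.2.le
    exact Bd_mono (Bd_mul (opT_iterate_mem hF G hG m S (h S j k).2 n)
      (Bd_monomial j.2.le k.2.le)) (by omega) (by omega)
  have h1 := finrank_map_le hF0 hF (A + D * (e' + 2 * r) + J) (2 * e - 1 + D * (e + 2 * r))
  rw [show 2 * e - 1 + D * (e + 2 * r) + 1 = 2 * e + D * (e + 2 * r) by omega] at h1
  have h2 : (A + 1) * e = Module.finrank κ (Bd κ A (e - 1)) := by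
    rw [finrank_Bd, Nat.sub_add_cancel he]
  rw [h2] at hdim
  have h4 := (Nat.mul_le_mul_left D h1).trans_lt hdim
  have h5 := amstepb_ker (κ := κ) (ι := ι) (B := Bd κ A (e - 1)) (R := κ[X][X]) (D := D) (J := J)
    (e := e) (Bd κ (A + D * (e' + 2 * r) + J) (2 * e - 1 + D * (e + 2 * r)))
  obtain ⟨h, h0, hh⟩ := h5 (fun n : Fin D => Ψ n) hW (Ideal.span {F}) h4
  refine ⟨fun S j k => (h S j k).1, fun hz => h0 ?_, fun S j k => (h S j k).2, fun n hn => ?_⟩
  · funext S j k
    have h3 : (h S j k).1 = 0 := congrFun (congrFun (congrFun hz S) j) k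
    exact Subtype.ext h3
  · have h3 : Ψ n h ∈ Ideal.span {F} := hh ⟨n, hn⟩
    rw [hΨ] at h3
    exact Ideal.mem_span_singleton.1 h3

/-- chain rule along the branch -/
lemma amstepb_chain (b : κ) (η : κ⟦X⟧) (q : κ[X][X]) :
    PowerSeries.derivative κ (aevalAeval (PowerSeries.C b + PowerSeries.X) η q) =
      aevalAeval (PowerSeries.C b + PowerSeries.X) η (dX q) +
        aevalAeval (PowerSeries.C b + PowerSeries.X) η (derivative q) *
          PowerSeries.derivative κ η := by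
  induction q using Polynomial.induction_on' with
  | add q q' h h' =>
    rw [map_add, map_add, h, h', amstepb_dX_add, derivative_add, map_add, map_add]
    ring
  | monomial n a =>
    rw [amstepb_dX_monomial, derivative_monomial]
    simp only [← C_mul_X_pow_eq_monomial, map_mul, map_pow, aevalAeval_C, aevalAeval_Y,
      map_natCast, Derivation.leibniz, Derivation.leibniz_pow, Derivation.comp_aeval_eq, map_add,
      PowerSeries.derivative_C, PowerSeries.derivative_X, smul_eq_mul, nsmul_eq_mul]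
    ring

lemma amstepb_dd {F : κ[X][X]} {b : κ} {η : κ⟦X⟧}
    (hη : aevalAeval (PowerSeries.C b + PowerSeries.X) η F = 0) (q : κ[X][X]) :
    aevalAeval (PowerSeries.C b + PowerSeries.X) η (derivative F) *
      PowerSeries.derivative κ (aevalAeval (PowerSeries.C b + PowerSeries.X) η q) =
      aevalAeval (PowerSeries.C b + PowerSeries.X) η (dd F q) := by
  have h0 := amstepb_chain b η F
  rw [hη, map_zero] at h0
  rw [amstepb_chain, dd, map_sub, map_mul, map_mul]
  linear_combination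
    (-aevalAeval (PowerSeries.C b + PowerSeries.X) η (derivative q)) * h0

lemma amstepb_theta {F : κ[X][X]} {b : κ} {η : κ⟦X⟧}
    (hη : aevalAeval (PowerSeries.C b + PowerSeries.X) η F = 0) (G : ι → κ[X][X]) (m : ℕ)
    (S : Finset ι) (q : κ[X][X]) {w : κ⟦X⟧} (hw : PowerSeries.derivative κ w = 0) :
    aevalAeval (PowerSeries.C b + PowerSeries.X) η (derivative F * ∏ i, G i) *
      PowerSeries.derivative κ (aevalAeval (PowerSeries.C b + PowerSeries.X) η q * w *
        aevalAeval (PowerSeries.C b + PowerSeries.X) η (∏ i ∈ S, G i) ^ m) =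
      aevalAeval (PowerSeries.C b + PowerSeries.X) η (opT F G m S q) * w *
        aevalAeval (PowerSeries.C b + PowerSeries.X) η (∏ i ∈ S, G i) ^ m := by
  have h1 := amstepb_dd hη q
  have h2 := amstepb_dd hη (∏ i ∈ S, G i)
  rw [opT, ← Finset.prod_mul_prod_compl S G]
  simp only [map_add, map_mul, map_natCast, Derivation.leibniz, Derivation.leibniz_pow, hw,
    smul_eq_mul, nsmul_eq_mul, ← h1, ← h2]
  cases m with
  | zero => simp only [Nat.cast_zero]; ring
  | succ m => simp only [Nat.add_sub_cancel]; ring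

/-- the auxiliary function vanishes to order `D` on the branch at a counted point -/
theorem aux_dvd (p : ℕ) [Fact p.Prime] [CharP κ p] {F : κ[X][X]} (G : ι → κ[X][X])
    (J e D : ℕ) (hD : D ≤ p) (h : Finset ι → Fin J → Fin e → κ[X][X])
    (hcond : ∀ n < D, F ∣ ∑ S, ∑ j, ∑ k,
        (opT F G (p / 2) S)^[n] (h S j k) * (C (X ^ (j : ℕ)) * X ^ (k : ℕ)))
    (b : κ) (η : κ⟦X⟧) (hη : aevalAeval (PowerSeries.C b + PowerSeries.X) η F = 0)
    (hb : b ^ p = b) (hb' : PowerSeries.constantCoeff η ^ p = PowerSeries.constantCoeff η)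
    (h1 : F.derivative.evalEval b (PowerSeries.constantCoeff η) ≠ 0) (hp2 : p ≠ 2)
    (hG : ∀ i, (G i).evalEval b (PowerSeries.constantCoeff η) ^ (p / 2) = 1) :
    (PowerSeries.X : κ⟦X⟧) ^ D
      ∣ aevalAeval (PowerSeries.C b + PowerSeries.X) η (aux p G J e h) := by
  have hp : p / 2 ≠ 0 := by
    have := (Fact.out : p.Prime).two_le
    omega
  have hGS : ∀ S : Finset ι, PowerSeries.constantCoeff
      (aevalAeval (PowerSeries.C b + PowerSeries.X) η (∏ i ∈ S, G i) ^ (p / 2)) = 1 := by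
    intro S
    simp only [map_pow, map_prod, ← Finset.prod_pow, constantCoeff_aevalAeval, hG,
      Finset.prod_const_one]
  refine theta_dvd p (aevalAeval (PowerSeries.C b + PowerSeries.X) η (derivative F * ∏ i, G i))
    ?_ D hD _ fun n hn => ?_
  · rw [map_mul, map_mul, map_prod, map_prod, constantCoeff_aevalAeval]
    refine mul_ne_zero h1 (Finset.prod_ne_zero_iff.2 fun i _ h0 => ?_)
    rw [constantCoeff_aevalAeval] at h0
    have := hG i
    rw [h0, zero_pow hp] at this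
    exact zero_ne_one this
  have hw : ∀ w : κ⟦X⟧, PowerSeries.derivative κ (w ^ p) = 0 := by
    intro w
    rw [Derivation.leibniz_pow, ← Nat.cast_smul_eq_nsmul κ, CharP.cast_eq_zero, zero_smul]
  have hit : ∀ n : ℕ, (fun g : κ⟦X⟧ =>
      aevalAeval (PowerSeries.C b + PowerSeries.X) η (derivative F * ∏ i, G i) *
        PowerSeries.derivative κ g)^[n]
        (aevalAeval (PowerSeries.C b + PowerSeries.X) η (aux p G J e h)) =
      ∑ S, ∑ j, ∑ k,
        aevalAeval (PowerSeries.C b + PowerSeries.X) η ((opT F G (p / 2) S)^[n] (h S j k)) *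
          aevalAeval (PowerSeries.C b + PowerSeries.X) η
            (C (X ^ (j : ℕ)) * X ^ (k : ℕ) : κ[X][X]) ^ p *
          aevalAeval (PowerSeries.C b + PowerSeries.X) η (∏ i ∈ S, G i) ^ (p / 2) := by
    intro n
    induction n with
    | zero =>
      rw [Function.iterate_zero_apply, aux]
      simp only [map_sum, Function.iterate_zero_apply]
      refine Finset.sum_congr rfl fun S _ => Finset.sum_congr rfl fun j _ =>
        Finset.sum_congr rfl fun k _ => ?_
      rw [map_mul, map_mul, map_pow _ _ p, map_pow _ _ (p / 2)]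
    | succ n ih =>
      rw [Function.iterate_succ_apply', ih]
      simp only [map_sum, Finset.mul_sum]
      refine Finset.sum_congr rfl fun S _ => Finset.sum_congr rfl fun j _ =>
        Finset.sum_congr rfl fun k _ => ?_
      rw [Function.iterate_succ_apply', amstepb_theta hη G _ S _ (hw _)]
  obtain ⟨c, hc⟩ := hcond n hn
  have h2 := congrArg (fun q => PowerSeries.constantCoeff
    (aevalAeval (PowerSeries.C b + PowerSeries.X) η q)) hc
  simp only [map_sum] at h2
  rw [map_mul _ F, hη, zero_mul, map_zero] at h2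
  rw [hit, ← h2]
  simp only [map_sum]
  refine Finset.sum_congr rfl fun S _ => Finset.sum_congr rfl fun j _ =>
    Finset.sum_congr rfl fun k _ => ?_
  have h3 : PowerSeries.constantCoeff (aevalAeval (PowerSeries.C b + PowerSeries.X) η
      (C (X ^ (j : ℕ)) * X ^ (k : ℕ) : κ[X][X])) =
      b ^ (j : ℕ) * PowerSeries.constantCoeff η ^ (k : ℕ) := by
    simp
  rw [map_mul, hGS, mul_one, map_mul, map_pow, map_mul _ ((opT F G (p / 2) S)^[n] (h S j k)),
    map_mul PowerSeries.constantCoeff, h3, mul_pow, ← pow_mul, ← pow_mul, mul_comm _ p,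
    mul_comm _ p, pow_mul, pow_mul, hb, hb']

end Pool.Agent.Lib.MP_4a1067_nt.Am
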