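import Mathlib
import Pool.Agent.Lib.MP_4a1067_nt.AmStepB

/-! The auxiliary function does not vanish on the curve. -/

namespace Pool.Agent.Lib.MP_4a1067_nt.Am

open Polynomial
open scoped PowerSeries

variable {κ : Type*} [Field κ] {ι : Type*} [Fintype ι] [DecidableEq ι]

/-- the polynomial with a given array of coefficients -/
noncomputable def amstepd_mono {m n : ℕ} (d : Fin m → Fin n → κ) : κ[X][X] :=
  ∑ a : Fin m, ∑ i : Fin n, d a i • (C (X ^ (a : ℕ)) * X ^ (i : ℕ))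

lemma amstepd_coeff {m n : ℕ} (d : Fin m → Fin n → κ) (a i : ℕ) :
    ((amstepd_mono d).coeff i).coeff a =
      if h : a < m ∧ i < n then d ⟨a, h.1⟩ ⟨i, h.2⟩ else 0 := by
  have e : ∀ (a' : Fin m) (i' : Fin n),
      ((d a' i' • (C (X ^ (a' : ℕ)) * X ^ (i' : ℕ) : κ[X][X])).coeff i).coeff a =
        if a = a' ∧ i = i' then d a' i' else 0 := by
    intro a' i'
    rw [coeff_smul, coeff_smul, coeff_C_mul_X_pow]
    by_cases h1 : i = i'
    · by_cases h2 : a = a' <;> simp [h1, h2, coeff_X_pow]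
    · simp [h1]
  simp only [amstepd_mono, finsetSum_coeff, e]
  split_ifs with h
  · rw [Finset.sum_eq_single ⟨a, h.1⟩, Finset.sum_eq_single ⟨i, h.2⟩]
    · simp
    · exact fun i' _ hi => if_neg fun hh => hi (Fin.ext hh.2.symm)
    · simp
    · exact fun a' _ ha => Finset.sum_eq_zero fun i' _ => if_neg fun hh => ha (Fin.ext hh.1.symm)
    · simp
  · exact Finset.sum_eq_zero fun a' _ => Finset.sum_eq_zero fun i' _ =>
      if_neg fun (hh : a = a' ∧ i = i') => h ⟨hh.1 ▸ a'.2, hh.2 ▸ i'.2⟩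

lemma amstepd_mem {m n : ℕ} (d : Fin m → Fin n → κ) : amstepd_mono d ∈ Bd κ (m - 1) (n - 1) :=
  Submodule.sum_mem _ fun a _ => Submodule.sum_mem _ fun i _ => Submodule.smul_mem _ _
    (Bd_monomial (Nat.le_sub_one_of_lt a.2) (Nat.le_sub_one_of_lt i.2))

lemma amstepd_expand {A e : ℕ} (he : 1 ≤ e) {q : κ[X][X]} (hq : q ∈ Bd κ A (e - 1)) :
    q = amstepd_mono fun (a : Fin (A + 1)) (i : Fin e) => (q.coeff i).coeff a := by
  ext i a
  rw [amstepd_coeff]
  split_ifs with h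
  · rfl
  · rcases lt_or_ge i e with hi | hi
    · exact coeff_eq_zero_of_natDegree_lt (by have := hq.2 i; omega)
    · rw [coeff_eq_zero_of_natDegree_lt (p := q) (by have := hq.1; omega), coeff_zero]

lemma amstepd_zero {F : κ[X][X]} (he : 1 ≤ F.natDegree) {m : ℕ}
    (d : Fin m → Fin F.natDegree → κ) (h : F ∣ amstepd_mono d) : d = 0 := by
  have h0 : amstepd_mono d = 0 :=
    eq_zero_of_dvd_of_natDegree_lt h (by have := (amstepd_mem d).1; omega)
  funext a i
  have := amstepd_coeff d a i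
  rw [h0, dif_pos ⟨a.2, i.2⟩] at this
  simpa using this.symm

lemma amstepd_eval {m n : ℕ} (d : Fin m → Fin n → κ) (x η : κ⟦X⟧) :
    aevalAeval x η (amstepd_mono d) =
      ∑ a : Fin m, ∑ i : Fin n, d a i • (x ^ (a : ℕ) * η ^ (i : ℕ)) := by
  simp only [amstepd_mono, map_sum, map_smul, map_mul, map_pow, aevalAeval_X, aevalAeval_Y]

lemma amstepd_root_le (r : κ[X]) (hr : r ≠ 0) (b : κ) : r.rootMultiplicity b ≤ r.natDegree := by
  have := natDegree_le_of_dvd (pow_rootMultiplicity_dvd r b) hr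
  rwa [natDegree_pow, natDegree_X_sub_C, mul_one] at this

lemma amstepd_sqrt [IsAlgClosed κ] (h2 : (2 : κ) ≠ 0) (g : κ⟦X⟧)
    (hg : PowerSeries.constantCoeff g ≠ 0) : ∃ z : κ⟦X⟧, z ≠ 0 ∧ z ^ 2 = g := by
  obtain ⟨a, ha⟩ := IsAlgClosed.exists_pow_nat_eq (PowerSeries.constantCoeff g) two_pos
  have ha0 : a ≠ 0 := fun h => hg (by rw [← ha, h]; simp)
  obtain ⟨z, h1, h3⟩ := hensel (X ^ 2 - C g) a (by simp [ha]) 
    (by simpa [one_add_one_eq_two] using ⟨h2, ha0⟩)
  refine ⟨z, fun h => ha0 (by rw [← h1, h, map_zero]), ?_⟩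
  simpa [sub_eq_zero] using h3

theorem aux_not_dvd [IsAlgClosed κ] (p : ℕ) [Fact p.Prime] [CharP κ p] (hp2 : p ≠ 2)
    {F : κ[X][X]} {e' r A J : ℕ} (hF : Prime F) (he : 1 ≤ F.natDegree)
    (hF' : F ∈ Bd κ e' F.natDegree) (G : ι → κ[X][X])
    (hG : ∀ S : Finset ι, ∏ i ∈ S, G i ∈ Bd κ r r)
    (hns : ∀ S : Finset ι, S.Nonempty → ∀ a c : κ[X][X],
      F ∣ a ^ 2 - (∏ i ∈ S, G i) * c ^ 2 → F ∣ c)
    (hord : 2 ^ Fintype.card ι * (A + r) * F.natDegree
      + (2 ^ Fintype.card ι * (F.natDegree + r) + F.natDegree) * e' < p)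
    (b b' : κ) (h0 : F.evalEval b b' = 0) (h1 : F.derivative.evalEval b b' ≠ 0)
    (hG0 : ∀ i, (G i).evalEval b b' ≠ 0)
    (h : Finset ι → Fin J → Fin F.natDegree → κ[X][X]) (hne : h ≠ 0)
    (hh : ∀ S j k, h S j k ∈ Bd κ A (F.natDegree - 1)) :
    ¬ F ∣ aux p G J F.natDegree h := by
  intro hdvd
  have hp : p.Prime := Fact.out
  have h2 : (2 : κ) ≠ 0 := fun h => hp2 ((Nat.prime_dvd_prime_iff_eq hp Nat.prime_two).1
    ((CharP.cast_eq_zero_iff κ p 2).1 (by exact_mod_cast h)))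
  have hodd : p = 2 * (p / 2) + 1 := by
    have := hp.eq_two_or_odd
    omega
  have : CharP κ⟦X⟧ p := charP_of_injective_algebraMap (algebraMap κ κ⟦X⟧).injective p
  obtain ⟨η, hη0, hη⟩ := exists_branch F b b' h0 h1
  set x : κ⟦X⟧ := PowerSeries.C b + PowerSeries.X with hx
  have hker : ∀ q, aevalAeval x η q = 0 ↔ F ∣ q := by
    refine ker_eq (aevalAeval x η : κ[X][X] →ₐ[κ] κ⟦X⟧).toRingHom hF he hη fun r hr => ?_
    by_contra hr0
    have hr' : aeval x r = 0 := by rw [← aevalAeval_C x η]; exact hr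
    have := le_rootMultiplicity r hr0 b (r.rootMultiplicity b + 1) (by rw [hr']; exact dvd_zero _)
    omega
  have hsq : ∀ i, ∃ z : κ⟦X⟧, z ≠ 0 ∧ z ^ 2 = aevalAeval x η (G i) := fun i =>
    amstepd_sqrt h2 _ (by rw [constantCoeff_aevalAeval, hη0]; exact hG0 i)
  choose ζ hζ0 hζ using hsq
  have hS : ∀ S : Finset ι, aevalAeval x η (∏ i ∈ S, G i) ^ (p / 2) * ∏ i, ζ i =
      (∏ i ∈ S, ζ i) ^ p * ∏ i ∈ Sᶜ, ζ i := by
    intro S
    have e : aevalAeval x η (∏ i ∈ S, G i) = (∏ i ∈ S, ζ i) ^ 2 := by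
      rw [map_prod, ← Finset.prod_pow]
      exact Finset.prod_congr rfl fun i _ => (hζ i).symm
    rw [e, ← Finset.prod_mul_prod_compl S ζ, ← pow_mul, ← mul_assoc, ← pow_succ, ← hodd]
  let v : Finset ι × Fin (A + 1) × Fin F.natDegree → κ⟦X⟧ := fun s =>
    x ^ (s.2.1 : ℕ) * η ^ (s.2.2 : ℕ) * ∏ i ∈ s.1ᶜ, ζ i
  let U : Finset ι × Fin (A + 1) × Fin F.natDegree → κ⟦X⟧ := fun s =>
    ∑ j : Fin J, ∑ k : Fin F.natDegree, ((h s.1 j k).coeff s.2.2).coeff s.2.1 •
      (x ^ (j : ℕ) * η ^ (k : ℕ) * ∏ i ∈ s.1, ζ i) ^ p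
  have hv : ∀ c : Finset ι × Fin (A + 1) × Fin F.natDegree → κ,
      (PowerSeries.X : κ⟦X⟧) ^ p ∣ ∑ s, c s • v s → c = 0 := by
    intro c hc
    by_contra hc0
    let H : Finset ι → κ[X][X] := fun T => amstepd_mono fun a i => c (Tᶜ, a, i)
    have hH : ∃ T, ¬ F ∣ H T := by
      by_contra hcon
      refine hc0 (funext fun s => ?_)
      have := amstepd_zero he _ (not_not.1 fun hn => hcon ⟨s.1ᶜ, hn⟩)
      simpa using congrFun (congrFun this s.2.1) s.2.2
    obtain ⟨q, hq, hq0, hq1⟩ := norm_det h2 (aevalAeval x η : κ[X][X] →ₐ[κ] κ⟦X⟧).toRingHom F hker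
      G r hG hns ζ hζ A F.natDegree H
      (fun T => Bd_mono (amstepd_mem _) (by omega) (Nat.sub_le _ _)) hH
    have e : ∑ T, aevalAeval x η (H T) * ∏ i ∈ T, ζ i = ∑ s, c s • v s := by
      rw [Fintype.sum_prod_type, ← compl_bijective.sum_comp]
      refine Finset.sum_congr rfl fun T _ => ?_
      simp only [H, v, amstepd_eval, compl_compl, Fintype.sum_prod_type, Finset.sum_mul,
        smul_mul_assoc]
    obtain ⟨r0, hr0, hdeg, b0, hb0⟩ := exists_res hF he hF' hq hq0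
    have e1 : aeval x r0 = aevalAeval x η b0 * aevalAeval x η q := by
      have := (hker _).2 hb0
      rwa [map_sub, map_mul, aevalAeval_C, sub_eq_zero] at this
    have hq2 : ∑ s, c s • v s ∣ aevalAeval x η q := e ▸ hq1
    have := le_rootMultiplicity r0 hr0 b p (e1 ▸ (hc.trans hq2).mul_left _)
    have := amstepd_root_le r0 hr0 b
    omega
  have hU : ∀ s, PowerSeries.derivative κ (U s) = 0 := by
    intro s
    simp only [U, map_sum, Derivation.map_smul, Derivation.leibniz_pow, nsmul_eq_mul,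
      CharP.cast_eq_zero, zero_mul, smul_zero, Finset.sum_const_zero]
  have hsum : ∑ s, v s * U s = 0 := by
    have e := congrArg (· * ∏ i, ζ i) ((hker _).2 hdvd)
    simp only [aux, map_sum, map_mul, map_pow, aevalAeval_X, aevalAeval_Y, zero_mul,
      Finset.sum_mul, mul_assoc, hS] at e
    rw [← e, Fintype.sum_prod_type]
    refine Finset.sum_congr rfl fun S _ => ?_
    simp only [U, Finset.mul_sum]
    rw [Finset.sum_comm]
    refine Finset.sum_congr rfl fun j _ => ?_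
    rw [Finset.sum_comm]
    refine Finset.sum_congr rfl fun k _ => ?_
    conv_rhs => rw [amstepd_expand he (hh S j k), amstepd_eval]
    simp only [Fintype.sum_prod_type, Finset.sum_mul, v, smul_mul_assoc, mul_smul_comm, mul_pow]
    exact Finset.sum_congr rfl fun a _ => Finset.sum_congr rfl fun i _ => by
      congr 1
      ring
  have hU0 := ind p v hv U hU hsum
  refine hne (funext fun S => funext fun j => funext fun k => ?_)
  have hc : ∀ (a : Fin (A + 1)) (i : Fin F.natDegree), ((h S j k).coeff i).coeff a = 0 := by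
    intro a i
    choose d hd using fun (j : Fin J) (k : Fin F.natDegree) =>
      IsAlgClosed.exists_pow_nat_eq (((h S j k).coeff i).coeff a) hp.pos
    have e : (aevalAeval x η (amstepd_mono d) * ∏ i ∈ S, ζ i) ^ p = 0 := by
      rw [← show U (S, a, i) = 0 from congrFun hU0 _]
      simp only [U, amstepd_eval, Finset.sum_mul, sum_pow_char, smul_mul_assoc,
        _root_.smul_pow, hd]
    have e1 := (mul_eq_zero.1 (pow_eq_zero_iff hp.ne_zero |>.1 e)).resolve_right
      (Finset.prod_ne_zero_iff.2 fun i _ => hζ0 i)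
    rw [← hd, amstepd_zero he d ((hker _).1 e1)]
    simp [hp.ne_zero]
  rw [amstepd_expand he (hh S j k)]
  simp [amstepd_mono, hc]

end Pool.Agent.Lib.MP_4a1067_nt.Am
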