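import Mathlib
import Pool.Agent.Lib.MP_4a1067_nt.AmStepD

/-! The Stepanov bound on a plane curve. -/

namespace Pool.Agent.Lib.MP_4a1067_nt.Am

open Polynomial
open scoped PowerSeries

variable {κ : Type*} [Field κ] {ι : Type*} [Fintype ι] [DecidableEq ι]

/-- counting roots with a lower bound on the multiplicity -/
lemma amstepe_count (r : κ[X]) (S : Finset κ) (D : ℕ)
    (h : ∀ b ∈ S, D ≤ r.rootMultiplicity b) : D * S.card ≤ r.natDegree := by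
  classical
  have h1 : D • S.val ≤ r.roots := by
    rw [Multiset.le_iff_count]
    intro b
    rw [Multiset.count_nsmul, count_roots]
    by_cases hb : b ∈ S
    · rw [Multiset.count_eq_one_of_mem S.nodup hb, mul_one]
      exact h b hb
    · rw [Multiset.count_eq_zero_of_notMem hb, mul_zero]
      exact Nat.zero_le _
  have h2 := Multiset.card_le_card h1
  rw [Multiset.card_nsmul] at h2
  exact h2.trans (card_roots' r)

lemma amstepe_hord {R ψ e p A : ℕ} (hR : 1 ≤ R) (hψ : 2 ≤ ψ) (heψ : e ≤ ψ)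
    (hsz : 40 * R ^ 2 * ψ ^ 4 ≤ p) (hA : A * (2 * R * e) ≤ p) :
    R * (A + ψ) * e + (R * (e + ψ) + e) * ψ < p := by
  have h1 : R * ψ * e ≤ R * ψ ^ 2 := by
    rw [sq, ← mul_assoc]; exact Nat.mul_le_mul_left _ heψ
  have h2 : e * ψ ≤ R * ψ ^ 2 := by
    calc e * ψ ≤ ψ * ψ := Nat.mul_le_mul_right _ heψ
      _ = 1 * ψ ^ 2 := by ring
      _ ≤ R * ψ ^ 2 := Nat.mul_le_mul_right _ hR
  have h3 : 1 ≤ R * ψ ^ 2 := Nat.mul_pos hR (by positivity)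
  have h4 : R * ψ ^ 2 ≤ R ^ 2 * ψ ^ 4 := by
    calc R * ψ ^ 2 = R * ψ ^ 2 * 1 := by ring
      _ ≤ R * ψ ^ 2 * (R * ψ ^ 2) := Nat.mul_le_mul_left _ h3
      _ = R ^ 2 * ψ ^ 4 := by ring
  have h5 : R * (A + ψ) * e + (R * (e + ψ) + e) * ψ
      = A * (R * e) + 2 * (R * ψ * e) + R * ψ ^ 2 + e * ψ := by ring
  have h6 : A * (2 * R * e) = 2 * (A * (R * e)) := by ring
  have h7 : 40 * R ^ 2 * ψ ^ 4 = 40 * (R ^ 2 * ψ ^ 4) := by ring
  omega

lemma amstepe_hdim {R ψ e p A J : ℕ} (hR : 1 ≤ R) (hψ : 2 ≤ ψ) (he : 1 ≤ e) (heψ : e ≤ ψ)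
    (hsz : 40 * R ^ 2 * ψ ^ 4 ≤ p) (hA : p < (A + 1) * (2 * R * e))
    (hJ : 2 * ψ ^ 2 < J * e) (hJ' : J * e ≤ 2 * ψ ^ 2 + e) :
    R * ψ ^ 2 * (ψ * (2 * e + R * ψ ^ 2 * (e + 2 * ψ))
        + e * (A + R * ψ ^ 2 * (ψ + 2 * ψ) + J + 1))
      < R * J * e * ((A + 1) * e) := by
  have h0 : 20 * (R * ψ ^ 4) < (A + 1) * e := by
    have : 2 * R * (20 * (R * ψ ^ 4)) < 2 * R * ((A + 1) * e) := by
      calc 2 * R * (20 * (R * ψ ^ 4)) = 40 * R ^ 2 * ψ ^ 4 := by ring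
        _ ≤ p := hsz
        _ < (A + 1) * (2 * R * e) := hA
        _ = 2 * R * ((A + 1) * e) := by ring
    exact Nat.lt_of_mul_lt_mul_left this
  have h1 : R * ψ ^ 3 * e ≤ R * ψ ^ 4 := by
    calc R * ψ ^ 3 * e ≤ R * ψ ^ 3 * ψ := Nat.mul_le_mul_left _ heψ
      _ = R * ψ ^ 4 := by ring
  have h2 : ψ ^ 2 ≤ R * ψ ^ 4 := by
    calc ψ ^ 2 ≤ ψ ^ 4 := Nat.pow_le_pow_right (by omega) (by norm_num)
      _ = 1 * ψ ^ 4 := by ring
      _ ≤ R * ψ ^ 4 := Nat.mul_le_mul_right _ hR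
  have h3 : ψ * e ≤ ψ ^ 2 := by rw [sq]; exact Nat.mul_le_mul_left _ heψ
  have h4 : e ≤ ψ ^ 2 := by nlinarith
  have h5 : ψ * (2 * e + R * ψ ^ 2 * (e + 2 * ψ)) + e * (A + R * ψ ^ 2 * (ψ + 2 * ψ) + J + 1)
      = 2 * (ψ * e) + 4 * (R * ψ ^ 3 * e) + 2 * (R * ψ ^ 4) + J * e + (A + 1) * e := by ring
  have h6 : ψ * (2 * e + R * ψ ^ 2 * (e + 2 * ψ)) + e * (A + R * ψ ^ 2 * (ψ + 2 * ψ) + J + 1)
      ≤ 2 * ((A + 1) * e) := by omega
  have h7 : 0 < (A + 1) * e := by positivity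
  calc R * ψ ^ 2 * (ψ * (2 * e + R * ψ ^ 2 * (e + 2 * ψ))
        + e * (A + R * ψ ^ 2 * (ψ + 2 * ψ) + J + 1))
      ≤ R * ψ ^ 2 * (2 * ((A + 1) * e)) := Nat.mul_le_mul_left _ h6
    _ = R * ((A + 1) * e) * (2 * ψ ^ 2) := by ring
    _ < R * ((A + 1) * e) * (J * e) := Nat.mul_lt_mul_of_pos_left hJ (Nat.mul_pos hR h7)
    _ = R * J * e * ((A + 1) * e) := by ring

lemma amstepe_deg {R ψ e p A J : ℕ} (hR : 1 ≤ R) (hψ : 2 ≤ ψ) (heψ : e ≤ ψ)
    (hsz : 40 * R ^ 2 * ψ ^ 4 ≤ p) (hA : A * (2 * R * e) ≤ p) (hJ' : J * e ≤ 2 * ψ ^ 2 + e) :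
    (A + p * J + p * ψ) * e + (e - 1 + p * e + p * ψ + e) * ψ ≤ 9 * p * ψ ^ 2 := by
  have h1 : A * e ≤ p := by
    calc A * e = A * (1 * e) := by ring
      _ ≤ A * (2 * R * e) := Nat.mul_le_mul_left _ (Nat.mul_le_mul_right _ (by omega))
      _ ≤ p := hA
  have h2 : 1 ≤ ψ ^ 2 := Nat.one_le_pow _ _ (by omega)
  have h3 : e ≤ ψ ^ 2 := by nlinarith
  have h4 : ψ * e ≤ ψ ^ 2 := by rw [sq]; exact Nat.mul_le_mul_left _ heψ
  have hp : 2 ≤ p := by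
    have : 1 ≤ R ^ 2 * ψ ^ 4 := Nat.mul_pos (by positivity) (by positivity)
    have h7 : 40 * R ^ 2 * ψ ^ 4 = 40 * (R ^ 2 * ψ ^ 4) := by ring
    omega
  have h5 : p * (J * e) ≤ p * (3 * ψ ^ 2) := Nat.mul_le_mul_left _ (by omega)
  have h6 : p * (ψ * e) ≤ p * ψ ^ 2 := Nat.mul_le_mul_left _ h4
  have h7 : p * 1 ≤ p * ψ ^ 2 := Nat.mul_le_mul_left _ h2
  have h8 : 2 * ψ ^ 2 ≤ p * ψ ^ 2 := Nat.mul_le_mul_right _ hp
  have h9 : (e - 1) * ψ ≤ e * ψ := Nat.mul_le_mul_right _ (Nat.sub_le _ _)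
  have h10 : (A + p * J + p * ψ) * e + (e - 1 + p * e + p * ψ + e) * ψ
      = A * e + p * (J * e) + 2 * (p * (ψ * e)) + (e - 1) * ψ + p * ψ ^ 2 + ψ * e := by ring
  have h11 : p * (3 * ψ ^ 2) = 3 * (p * ψ ^ 2) := by ring
  have h12 : 9 * p * ψ ^ 2 = 9 * (p * ψ ^ 2) := by ring
  have h13 : e * ψ = ψ * e := by ring
  omega

theorem step [IsAlgClosed κ] (p : ℕ) [Fact p.Prime] [CharP κ p]
    {F : κ[X][X]} {ψ : ℕ} (hF : Prime F) (he : 1 ≤ F.natDegree) (heψ : F.natDegree ≤ ψ)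
    (hF' : F ∈ Bd κ ψ F.natDegree) (G : ι → κ[X][X])
    (hG : ∀ S : Finset ι, ∏ i ∈ S, G i ∈ Bd κ ψ ψ)
    (hns : ∀ S : Finset ι, S.Nonempty → ∀ a c : κ[X][X],
      F ∣ a ^ 2 - (∏ i ∈ S, G i) * c ^ 2 → F ∣ c)
    (hψ : 2 ≤ ψ) (hsz : 40 * (2 ^ Fintype.card ι) ^ 2 * ψ ^ 4 ≤ p) (P : Finset κ)
    (hP : ∀ b ∈ P, b ^ p = b ∧ ∃ b', b' ^ p = b' ∧ F.evalEval b b' = 0 ∧
      ∀ i, (G i).evalEval b b' ^ (p / 2) = 1) :
    P.card * 2 ^ Fintype.card ι ≤ 12 * p := by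
  classical
  have hR : 1 ≤ 2 ^ Fintype.card ι := Nat.one_le_two_pow
  have hRψ : 1 ≤ 2 ^ Fintype.card ι * ψ ^ 2 := Nat.mul_pos hR (by positivity)
  have hD : 40 * (2 ^ Fintype.card ι * ψ ^ 2) ≤ p := by
    calc 40 * (2 ^ Fintype.card ι * ψ ^ 2) = 40 * (2 ^ Fintype.card ι * ψ ^ 2) * 1 := by ring
      _ ≤ 40 * (2 ^ Fintype.card ι * ψ ^ 2) * (2 ^ Fintype.card ι * ψ ^ 2) :=
        Nat.mul_le_mul_left _ hRψ
      _ = 40 * (2 ^ Fintype.card ι) ^ 2 * ψ ^ 4 := by ring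
      _ ≤ p := hsz
  have hp2 : p ≠ 2 := by omega
  have hψp : ψ < p := by
    have : ψ ≤ 2 ^ Fintype.card ι * ψ ^ 2 := by nlinarith
    omega
  choose! y hy using fun b hb => (hP b hb).2
  -- the vertical derivative
  have hd0 : F.derivative ≠ 0 := by
    intro h0
    have h1 := congrArg (fun q : κ[X][X] => q.coeff (F.natDegree - 1)) h0
    simp only [coeff_derivative, coeff_zero, Nat.sub_add_cancel he, coeff_natDegree] at h1
    rcases mul_eq_zero.mp h1 with h2 | h2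
    · exact hF.ne_zero (leadingCoeff_eq_zero.mp h2)
    · have h3 : ((F.natDegree : ℕ) : κ[X]) = 0 := by
        rw [← h2, ← Nat.cast_succ]; congr 1; omega
      have h4 : p ∣ F.natDegree := (CharP.cast_eq_zero_iff κ[X] p _).mp h3
      have := Nat.le_of_dvd (by omega) h4
      omega
  have hnd : ¬ F ∣ F.derivative := fun h => by
    have h1 := natDegree_le_of_dvd h hd0
    have h2 := natDegree_derivative_lt (p := F) (by omega)
    omega
  obtain ⟨r₁, hr₁, hdeg₁, B₁, hB₁⟩ := exists_res hF he hF' (Bd_derivative hF') hnd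
  set P₁ := P.filter fun b => F.derivative.evalEval b (y b) = 0 with hP₁
  set P₂ := P.filter fun b => ¬ F.derivative.evalEval b (y b) = 0 with hP₂
  have hsplit : P₁.card + P₂.card = P.card := Finset.card_filter_add_card_filter_not _
  have hc₁ : P₁.card ≤ 3 * ψ ^ 2 := by
    have h1 := amstepe_count r₁ P₁ 1 fun b hb => by
      obtain ⟨hb1, hb2⟩ := Finset.mem_filter.mp hb
      have h2 := evalEval_dvd b (y b) hB₁
      rw [(hy b hb1).2.1, zero_dvd_iff, evalEval_sub, evalEval_mul, hb2, mul_zero, sub_zero,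
        evalEval_C] at h2
      exact (rootMultiplicity_pos hr₁).mpr h2
    have h3 : ψ * F.natDegree ≤ ψ ^ 2 := by rw [sq]; exact Nat.mul_le_mul_left _ heψ
    have h4 : ψ * F.natDegree + (F.natDegree + F.natDegree) * ψ = 3 * (ψ * F.natDegree) := by
      ring
    omega
  have hc₁' : P₁.card * 2 ^ Fintype.card ι ≤ p := by
    calc P₁.card * 2 ^ Fintype.card ι ≤ 3 * ψ ^ 2 * 2 ^ Fintype.card ι :=
          Nat.mul_le_mul_right _ hc₁
      _ = 3 * (2 ^ Fintype.card ι * ψ ^ 2) := by ring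
      _ ≤ p := by omega
  have hc₂ : P₂.card * 2 ^ Fintype.card ι ≤ 9 * p := by
    rcases P₂.eq_empty_or_nonempty with h0 | ⟨b₀, hb₀⟩
    · simp [h0]
    obtain ⟨hb₀P, hb₀d⟩ := Finset.mem_filter.mp hb₀
    have hpos : 0 < 2 * 2 ^ Fintype.card ι * F.natDegree := by positivity
    set A := p / (2 * 2 ^ Fintype.card ι * F.natDegree) with hAdef
    set J := 2 * ψ ^ 2 / F.natDegree + 1 with hJdef
    have hA : A * (2 * 2 ^ Fintype.card ι * F.natDegree) ≤ p := Nat.div_mul_le_self _ _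
    have hA' : p < (A + 1) * (2 * 2 ^ Fintype.card ι * F.natDegree) := by
      rw [mul_comm]; exact Nat.lt_mul_div_succ p hpos
    have hJ : 2 * ψ ^ 2 < J * F.natDegree := by
      rw [mul_comm J]; exact Nat.lt_mul_div_succ _ (by omega)
    have hJ' : J * F.natDegree ≤ 2 * ψ ^ 2 + F.natDegree := by
      rw [hJdef, add_mul, one_mul]
      exact Nat.add_le_add_right (Nat.div_mul_le_self _ _) _
    obtain ⟨h, hne, hh, hcond⟩ := exists_coeffs hF.ne_zero hF' he G hG (p / 2) A J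
      (2 ^ Fintype.card ι * ψ ^ 2) (amstepe_hdim hR hψ he heψ hsz hA' hJ hJ')
    have hG0 : ∀ i, (G i).evalEval b₀ (y b₀) ≠ 0 := fun i h0 => by
      have h1 := (hy b₀ hb₀P).2.2 i
      rw [h0, zero_pow (by omega)] at h1
      exact zero_ne_one h1
    have hnot := aux_not_dvd p hp2 hF he hF' G hG hns (amstepe_hord hR hψ heψ hsz hA) b₀ (y b₀)
      (hy b₀ hb₀P).2.1 hb₀d hG0 h hne hh
    obtain ⟨r, hr, hdeg, B, hB⟩ := exists_res hF he hF'
      (aux_mem p G ψ hG J F.natDegree A (F.natDegree - 1) h hh) hnot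
    have h1 := amstepe_count r P₂ (2 ^ Fintype.card ι * ψ ^ 2) fun b hb => by
      obtain ⟨hb1, hb2⟩ := Finset.mem_filter.mp hb
      obtain ⟨η, hη0, hη⟩ := exists_branch F b (y b) (hy b hb1).2.1 hb2
      have h2 := aux_dvd p G J F.natDegree (2 ^ Fintype.card ι * ψ ^ 2) (by omega) h hcond b η hη
        (hP b hb1).1 (by rw [hη0]; exact (hy b hb1).1) (by rw [hη0]; exact hb2) hp2
        (by rw [hη0]; exact (hy b hb1).2.2)
      have h3 := map_dvd (aevalAeval (PowerSeries.C b + PowerSeries.X) η) hB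
      rw [hη, zero_dvd_iff, map_sub, map_mul, sub_eq_zero, aevalAeval_C] at h3
      refine le_rootMultiplicity r hr b _ ?_
      rw [h3]
      exact h2.mul_left _
    have h2 := amstepe_deg hR hψ heψ hsz hA hJ'
    have h3 : ψ ^ 2 * (P₂.card * 2 ^ Fintype.card ι) ≤ ψ ^ 2 * (9 * p) := by
      calc ψ ^ 2 * (P₂.card * 2 ^ Fintype.card ι)
          = 2 ^ Fintype.card ι * ψ ^ 2 * P₂.card := by ring
        _ ≤ 9 * p * ψ ^ 2 := h1.trans (hdeg.trans h2)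
        _ = ψ ^ 2 * (9 * p) := by ring
    exact Nat.le_of_mul_le_mul_left h3 (by positivity)
  rw [← hsplit, add_mul]
  omega

end Pool.Agent.Lib.MP_4a1067_nt.Am
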