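import Mathlib
import Pool.Agent.Lib.MP_4a1067_nt.AmBasic

/-! Polynomial data of the lift of Frobenius. -/

namespace Pool.Agent.Lib.MP_4a1067_nt.Am

open Polynomial IsLocalRing

private lemma amfrob_dvd {K : Type*} [Field K] {N D d : K[X]} {l : K}
    (h2 : X * N ^ 2 - C l * D ^ 2 = (X - C l) * d ^ 2) (hD : D ≠ 0) (hd : IsCoprime d N) :
    d ∣ N * D + 2 * X * (derivative N * D - N * derivative D) := by
  have h3 := congrArg derivative h2
  simp only [derivative_sub, derivative_mul, derivative_X, derivative_C, sq, one_mul, zero_mul,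
    zero_add, sub_zero] at h3
  refine hd.dvd_of_dvd_mul_left
    ⟨(d + 2 * (X - C l) * derivative d) * D - 2 * (X - C l) * d * derivative D, ?_⟩
  apply mul_right_cancel₀ hD
  linear_combination D ^ 2 * h3 - 2 * D * derivative D * h2

/-- the differential equation from the three factorisations -/
lemma ode_of_factor {K : Type*} [Field K] {N D c d : K[X]} {l : K}
    (h1 : X * N ^ 2 - D ^ 2 = (X - 1) * c ^ 2) (h2 : X * N ^ 2 - C l * D ^ 2 = (X - C l) * d ^ 2)
    (hD : D ≠ 0) (hc : IsCoprime c N) (hd : IsCoprime d N) (hcd : IsCoprime c d) :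
    c * d ∣ N * D + 2 * X * (derivative N * D - N * derivative D) :=
  hcd.mul_dvd (amfrob_dvd (l := 1) (by simpa using h1) hD hc) (amfrob_dvd h2 hD hd)

private lemma amfrob_coeff {R : Type*} [CommRing R] (p : R[X]) (n : ℕ) :
    (X * derivative p).coeff n = n * p.coeff n := by
  cases n with
  | zero => simp
  | succ n =>
    rw [coeff_X_mul, coeff_derivative]
    push_cast
    ring

private lemma amfrob_deg {R : Type*} [CommRing R] {p : R[X]} {n : ℕ} (hp : p.natDegree ≤ n) :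
    (X * derivative p).natDegree ≤ n := by
  rw [natDegree_le_iff_coeff_eq_zero] at hp ⊢
  intro m hm
  rw [amfrob_coeff, hp m hm, mul_zero]

private lemma amfrob_M {R : Type*} [CommRing R] {N D : R[X]} {h : ℕ} (hN : N.natDegree ≤ h)
    (hD : D.natDegree ≤ h) :
    (N * D + 2 * X * (derivative N * D - N * derivative D)).natDegree ≤ h + h ∧
      (N * D + 2 * X * (derivative N * D - N * derivative D)).coeff (h + h)
        = N.coeff h * D.coeff h := by
  have e : N * D + 2 * X * (derivative N * D - N * derivative D)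
      = N * D + ((X * derivative N) * D - N * (X * derivative D))
        + ((X * derivative N) * D - N * (X * derivative D)) := by ring
  have d1 : (N * D).natDegree ≤ h + h := natDegree_mul_le_of_le hN hD
  have d2 : ((X * derivative N) * D).natDegree ≤ h + h := natDegree_mul_le_of_le (amfrob_deg hN) hD
  have d3 : (N * (X * derivative D)).natDegree ≤ h + h := natDegree_mul_le_of_le hN (amfrob_deg hD)
  have d4 : ((X * derivative N) * D - N * (X * derivative D)).natDegree ≤ h + h :=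
    (natDegree_sub_le _ _).trans (max_le d2 d3)
  rw [e]
  refine ⟨(natDegree_add_le _ _).trans (max_le ((natDegree_add_le _ _).trans (max_le d1 d4)) d4), ?_⟩
  simp only [coeff_add, coeff_sub]
  rw [coeff_mul_add_eq_of_natDegree_le hN hD, coeff_mul_add_eq_of_natDegree_le (amfrob_deg hN) hD,
    coeff_mul_add_eq_of_natDegree_le hN (amfrob_deg hD), amfrob_coeff, amfrob_coeff]
  ring

private lemma amfrob_D {R : Type*} [CommRing R] (u : ℕ → R) (h : ℕ) :
    (∏ k ∈ Finset.range h, (1 - C (u k) * X)).natDegree ≤ h ∧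
      (∏ k ∈ Finset.range h, (1 - C (u k) * X)).coeff h = ∏ k ∈ Finset.range h, (-u k) := by
  induction h with
  | zero => simp
  | succ h ih =>
    have d1 : (1 - C (u h) * X : R[X]).natDegree ≤ 1 := by compute_degree
    rw [Finset.prod_range_succ, Finset.prod_range_succ]
    refine ⟨natDegree_mul_le_of_le ih.1 d1, ?_⟩
    rw [coeff_mul_add_eq_of_natDegree_le ih.1 d1, ih.2]
    simp [coeff_one]

private lemma amfrob_F {R : Type*} [CommRing R] [Nontrivial R] (k₀ : R) (a : ℕ → R) (h : ℕ) :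
    (C k₀ * ∏ k ∈ Finset.range h, (X - C (a k))).natDegree ≤ h ∧
      (C k₀ * ∏ k ∈ Finset.range h, (X - C (a k))).coeff h = k₀ := by
  have hm : (∏ k ∈ Finset.range h, (X - C (a k))).Monic :=
    monic_prod_of_monic _ _ fun k _ => monic_X_sub_C _
  have hd : (∏ k ∈ Finset.range h, (X - C (a k))).natDegree = h := by
    rw [natDegree_finsetProd_X_sub_C_eq_card, Finset.card_range]
  refine ⟨(natDegree_C_mul_le _ _).trans hd.le, ?_⟩
  have := hm.coeff_natDegree
  rw [hd] at this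
  rw [coeff_C_mul, this, mul_one]

private lemma amfrob_cop {R : Type*} [CommRing R] {k₀ k₁ : R} (h0 : IsUnit k₀) (h1 : IsUnit k₁)
    {a b : ℕ → R} (hab : ∀ i j, IsUnit (a i - b j)) (h : ℕ) :
    IsCoprime (C k₀ * ∏ k ∈ Finset.range h, (X - C (a k)))
      (C k₁ * ∏ k ∈ Finset.range h, (X - C (b k))) := by
  rw [isCoprime_mul_unit_left_left (isUnit_C.mpr h0), isCoprime_mul_unit_left_right (isUnit_C.mpr h1)]
  exact IsCoprime.prod_left fun i _ => IsCoprime.prod_right fun j _ =>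
    isCoprime_X_sub_C_of_isUnit_sub (hab i j)

open Classical in
private noncomputable def amfrobLift (V : ValuationSubring ℂ) (a : ℂ) : V :=
  if h : a ∈ V then ⟨a, h⟩ else 0

private lemma amfrob_coe {V : ValuationSubring ℂ} {a : ℂ} (h : a ∈ V) :
    (amfrobLift V a : ℂ) = a := by
  simp [amfrobLift, h]

private lemma amfrob_res {V : ValuationSubring ℂ} {a : ℂ} (h : a ∈ V) :
    residue V (amfrobLift V a) = rd V a := by
  rw [← rd_coe, amfrob_coe h]

theorem frob {L : PeriodPair} {ω₁ ω₂ ω₃ π Q : ℂ} {h : ℕ} (H : Half L ω₁ ω₂ ω₃)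
    (E : Leg L ω₁ ω₂ ω₃) (hE : Endo L π Q (2 * h + 1)) (f₁ : π * ω₁ - ω₁ ∈ L.lattice)
    (f₂ : π * ω₂ - ω₂ ∈ L.lattice) (f₃ : π * ω₃ - ω₃ ∈ L.lattice) (V : ValuationSubring ℂ)
    (hl : E.lam ∈ V) (l0 : rd V E.lam ≠ 0) (l1 : rd V E.lam ≠ 1) (hπ : π ∈ V)
    (hQ : E.Kr V Q) :
    ∃ N D Y : V[X], FD h (⟨π, hπ⟩ : V) ⟨E.lam, hl⟩ N D Y := by
  obtain ⟨mk, rk⟩ := E.kap_unit H hE f₁ f₂ hl hQ
  have rk0 : rd V (E.kap π Q h) ≠ 0 := by
    intro h0
    rw [h0] at rk
    simp at rk
  have k0 : E.kap π Q h ≠ 0 := ne_zero_of_rd_ne rk0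
  let κ : V := ⟨(E.kap π Q h)⁻¹, inv_mem_of_rd_ne mk rk0⟩
  have hκ : (κ : ℂ) * E.kap π Q h = 1 := inv_mul_cancel₀ k0
  have rκ : residue V κ * rd V (E.kap π Q h) = 1 := by
    rw [← rd_coe, ← rd_mul κ.2 mk, hκ, rd_one]
  have uκ : IsUnit κ := by
    rw [← residue_ne_zero_iff_isUnit]
    exact left_ne_zero_of_mul_eq_one rκ
  obtain ⟨e, he2, he⟩ : ∃ e : V, e ^ 2 = 1 ∧ residue V (e * κ) = 1 := by
    rcases sq_eq_one_iff.mp rk with h1 | h1
    · exact ⟨1, by simp, by rw [h1, mul_one] at rκ; rw [one_mul, rκ]⟩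
    · refine ⟨-1, by simp, ?_⟩
      rw [h1] at rκ
      rw [map_mul, map_neg, map_one]
      linear_combination rκ
  have ue : IsUnit e := IsUnit.of_pow_eq_one he2 two_ne_zero
  -- the roots
  let A : ℂ → ℕ → V := fun ω k => amfrobLift V (E.x (ω + ((k + 1 : ℕ) : ℂ) * Q))
  have hA : ∀ ω, ¬ E.Kr V ω → ∀ k, (A ω k : ℂ) = E.x (ω + ((k + 1 : ℕ) : ℂ) * Q) ∧
      residue V (A ω k) = rd V (E.x ω) := fun ω hω k => by
    obtain ⟨t1, t2⟩ := E.add_Kr hl hω (E.Kr_nat hl hQ (k + 1))
    exact ⟨amfrob_coe (E.not_Kr.mp t1).2, by rw [← t2]; exact amfrob_res (E.not_Kr.mp t1).2⟩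
  obtain ⟨k1, k2, k3⟩ := E.half_not_Kr H hl
  have r1 : ∀ k, residue V (A ω₁ k) = 0 := fun k => by rw [(hA _ k1 k).2, E.x₁, rd_zero]
  have r2 : ∀ k, residue V (A ω₂ k) = 1 := fun k => by rw [(hA _ k2 k).2, E.x₂, rd_one]
  have r3 : ∀ k, residue V (A ω₃ k) = rd V E.lam := fun k => by rw [(hA _ k3 k).2, E.x₃]
  let U : ℕ → V := fun k => amfrobLift V (E.x (0 + ((k + 1 : ℕ) : ℂ) * Q))⁻¹
  have hU : ∀ k < h, (U k : ℂ) * E.x (0 + ((k + 1 : ℕ) : ℂ) * Q) = 1 ∧ residue V (U k) = 0 :=
    fun k hk => by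
      obtain ⟨t1, t2, t3⟩ := E.xk_inv hE hl hQ hk
      exact ⟨by rw [amfrob_coe t2, inv_mul_cancel₀ t1], by rw [amfrob_res t2, t3]⟩
  let F : ℂ → V[X] := fun ω => ∏ k ∈ Finset.range h, (X - C (A ω k))
  let D : V[X] := ∏ k ∈ Finset.range h, (1 - C (U k) * X)
  have eF : ∀ ω, ¬ E.Kr V ω → ∀ T : V, (((F ω).eval T : V) : ℂ) = E.FF Q h ω T := fun ω hω T => by
    simp only [F, eval_prod, eval_sub, eval_X, eval_C, Leg.FF]
    push_cast
    exact Finset.prod_congr rfl fun k _ => by rw [(hA ω hω k).1]; push_cast; rfl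
  have eD : ∀ T : V, π * E.FF Q h 0 T = E.kap π Q h * ((D.eval T : V) : ℂ) := fun T => by
    simp only [D, eval_prod, eval_sub, eval_mul, eval_X, eval_C, eval_one, Leg.FF, Leg.kap]
    rw [mul_assoc, SubmonoidClass.coe_finsetProd, ← Finset.prod_mul_distrib]
    congr 1
    refine Finset.prod_congr rfl fun k hk => ?_
    have := (hU k (Finset.mem_range.mp hk)).1
    simp only [AddSubgroupClass.coe_sub, OneMemClass.coe_one, MulMemClass.coe_mul]
    linear_combination (-(T : ℂ)) * this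
  have key : ∀ ω, ω ∉ L.lattice → ω + ω ∈ L.lattice → π * ω - ω ∈ L.lattice → ¬ E.Kr V ω →
      ∀ l : V, (l : ℂ) = E.x ω →
      X * (C (e * κ) * F ω₁) ^ 2 - C l * D ^ 2 = (X - C l) * (C κ * F ω) ^ 2 := by
    intro ω n t f hω l hlx
    apply Polynomial.funext
    intro T
    obtain ⟨z, hz, hzT⟩ := E.surj T
    have nz := E.pi_notMem hE hl hQ (E.not_Kr.mpr ⟨hz, hzT ▸ T.2⟩)
    have p1 := E.prod_half hE nz H.n₁ H.t₁ f₁
    have p2 := E.prod_half hE nz n t f
    rw [hzT, eD, E.x₁, ← eF _ k1] at p1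
    rw [hzT, eD, ← hlx, ← eF _ hω] at p2
    have he2' : (e : ℂ) ^ 2 = 1 := by exact_mod_cast congrArg Subtype.val he2
    apply Subtype.ext
    simp only [eval_sub, eval_mul, eval_pow, eval_X, eval_C]
    push_cast
    linear_combination (κ : ℂ) ^ 2 * p2 - (κ : ℂ) ^ 2 * p1
      + (T : ℂ) * (κ : ℂ) ^ 2 * (((F ω₁).eval T : V) : ℂ) ^ 2 * he2'
      + (l : ℂ) * ((D.eval T : V) : ℂ) ^ 2 * ((κ : ℂ) * E.kap π Q h + 1) * hκ
  have h1 := key ω₂ H.n₂ H.t₂ f₂ k2 1 (by rw [E.x₂]; rfl)
  have h2 := key ω₃ H.n₃ H.t₃ f₃ k3 ⟨E.lam, hl⟩ (by rw [E.x₃])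
  rw [C_1, one_mul] at h1
  obtain ⟨dN, cN⟩ := amfrob_F (e * κ) (A ω₁) h
  obtain ⟨dc, cc⟩ := amfrob_F κ (A ω₂) h
  obtain ⟨dd, cd⟩ := amfrob_F κ (A ω₃) h
  obtain ⟨dD, cD⟩ := amfrob_D U h
  have rD : D.map (residue V) = 1 := by
    simp only [D, Polynomial.map_prod, Polynomial.map_sub, Polynomial.map_mul, Polynomial.map_one,
      map_C, map_X]
    exact Finset.prod_eq_one fun k hk => by rw [(hU k (Finset.mem_range.mp hk)).2]; simp
  have dcd : ((C κ * F ω₂) * (C κ * F ω₃)).natDegree ≤ h + h := natDegree_mul_le_of_le dc dd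
  have ccd : ((C κ * F ω₂) * (C κ * F ω₃)).coeff (h + h) = κ * κ := by
    rw [coeff_mul_add_eq_of_natDegree_le dc dd, cc, cd]
  have dY : (C e * ((C κ * F ω₂) * (C κ * F ω₃))).natDegree ≤ h + h :=
    (natDegree_C_mul_le _ _).trans dcd
  refine ⟨C (e * κ) * F ω₁, D, C e * ((C κ * F ω₂) * (C κ * F ω₃)), dN, dD, by rwa [two_mul], ?_,
    rD, ?_, ?_, ?_, ?_, ?_⟩
  · rw [coeff_zero_eq_eval_zero]
    simp [D, eval_prod]
  · simp only [F, Polynomial.map_prod, Polynomial.map_sub, Polynomial.map_mul, map_C, map_X, he, r1]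
    simp
  · have inj : Function.Injective V.subtype := Subtype.val_injective
    have un : ∀ a b : V, residue V a ≠ residue V b → IsUnit (a - b) := fun a b hab => by
      rw [← residue_ne_zero_iff_isUnit, map_sub]
      exact sub_ne_zero.mpr hab
    have c1 := (amfrob_cop uκ (ue.mul uκ) (a := A ω₂) (b := A ω₁)
      (fun i j => un _ _ (by rw [r2, r1]; exact one_ne_zero)) h).map (mapRingHom V.subtype)
    have c2 := (amfrob_cop uκ (ue.mul uκ) (a := A ω₃) (b := A ω₁)
      (fun i j => un _ _ (by rw [r3, r1]; exact l0)) h).map (mapRingHom V.subtype)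
    have c3 := (amfrob_cop uκ uκ (a := A ω₂) (b := A ω₃)
      (fun i j => un _ _ (by rw [r2, r3]; exact l1.symm)) h).map (mapRingHom V.subtype)
    have D0 : D ≠ 0 := by
      intro h0
      rw [h0, Polynomial.map_zero] at rD
      exact zero_ne_one rD
    have g1 := congrArg (Polynomial.map V.subtype) h1
    have g2 := congrArg (Polynomial.map V.subtype) h2
    rw [Polynomial.map_sub, Polynomial.map_mul, Polynomial.map_pow, Polynomial.map_pow,
      Polynomial.map_mul (p := X - 1), Polynomial.map_pow, Polynomial.map_sub, map_X,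
      Polynomial.map_one] at g1
    rw [Polynomial.map_sub, Polynomial.map_mul, Polynomial.map_pow, Polynomial.map_mul (p := C _)
      (q := D ^ 2), Polynomial.map_pow, Polynomial.map_mul (p := X - C _), Polynomial.map_pow,
      Polynomial.map_sub, map_X, map_C] at g2
    have hdvd := ode_of_factor g1 g2 ((Polynomial.map_ne_zero_iff inj).mpr D0) c1 c2 c3
    obtain ⟨dM, cM⟩ := amfrob_M dN dD
    set N : V[X] := C (e * κ) * F ω₁ with hN
    set W : V[X] := (C κ * F ω₂) * (C κ * F ω₃) with hW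
    set M : V[X] := N * D + 2 * X * (derivative N * D - N * derivative D) with hM
    have hdvd' : W.map V.subtype ∣ (M - C (⟨π, hπ⟩ : V) * (C e * W)).map V.subtype := by
      rw [Polynomial.map_sub]
      refine dvd_sub ?_ ?_
      · convert hdvd using 1
        · rw [hW, Polynomial.map_mul]
        · simp only [hM, Polynomial.map_add, Polynomial.map_mul, Polynomial.map_sub, map_X,
            Polynomial.map_ofNat, derivative_map]
      · exact Polynomial.map_dvd _ ((dvd_mul_left W _).mul_left _)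
    have hprod : ∏ k ∈ Finset.range h, (-U k) = (⟨π, hπ⟩ : V) * κ := by
      apply Subtype.ext
      apply mul_right_cancel₀ k0
      rw [MulMemClass.coe_mul, mul_assoc, hκ, mul_one, SubmonoidClass.coe_finsetProd, Leg.kap,
        mul_left_comm, ← Finset.prod_mul_distrib, Finset.prod_eq_one, mul_one]
      intro k hk
      rw [NegMemClass.coe_neg, neg_mul_neg]
      exact (hU k (Finset.mem_range.mp hk)).1
    have hlt : (M - C (⟨π, hπ⟩ : V) * (C e * W)).degree < (h + h : ℕ) := by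
      rw [degree_lt_iff_coeff_zero]
      intro m hm
      rcases hm.eq_or_lt with rfl | hm'
      · rw [coeff_sub, cM, cN, cD, hprod, coeff_C_mul, coeff_C_mul, ccd]
        ring
      · exact coeff_eq_zero_of_natDegree_lt (((natDegree_sub_le _ _).trans
          (max_le dM ((natDegree_C_mul_le _ _).trans dY))).trans_lt hm')
    have hW' : ((h + h : ℕ) : WithBot ℕ) ≤ (W.map V.subtype).degree := by
      rw [degree_map_eq_of_injective inj]
      exact le_degree_of_ne_zero (by rw [ccd]; exact (uκ.mul uκ).ne_zero)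
    have hz := eq_zero_of_dvd_of_degree_lt hdvd' ((degree_map_le.trans_lt hlt).trans_le hW')
    exact sub_eq_zero.mp ((Polynomial.map_eq_zero_iff inj).mp hz)
  · have he3 : (C e : V[X]) ^ 2 = 1 := by rw [← C_pow, he2, C_1]
    rw [h1, h2]
    linear_combination ((C κ * F ω₂) * (C κ * F ω₃)) ^ 2 * ((X - 1) * (X - C (⟨E.lam, hl⟩ : V))) * he3
  · have := congrArg (eval 1) h1
    simp only [eval_sub, eval_mul (p := X), eval_mul (p := (X - 1 : V[X])), eval_pow, eval_X, eval_one] at this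
    linear_combination this
  · have := congrArg (eval ⟨E.lam, hl⟩) h2
    simp only [eval_sub, eval_mul (p := X), eval_mul (p := X - C _), eval_mul (q := D ^ 2), eval_pow,
      eval_X, eval_C] at this
    have l0' : (⟨E.lam, hl⟩ : V) ≠ 0 := fun h0 => E.lam0 (congrArg Subtype.val h0)
    apply mul_left_cancel₀ l0'
    linear_combination this

end Pool.Agent.Lib.MP_4a1067_nt.Am
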