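import Mathlib
import Pool.Agent.Lib.MP_4a1067_nt.AmBasic

/-! Hasse invariant and uniqueness of the canonical lift. -/

namespace Pool.Agent.Lib.MP_4a1067_nt.Am

open Polynomial IsLocalRing

variable {R : Type*} [CommRing R] [IsDomain R] [IsLocalRing R] {h : ℕ} {π l l' : R}
  {N D Y N' D' Y' : R[X]}

omit [IsDomain R] in
lemma aminj_sq (F : FD h π l N D Y) (hp : (2 * h + 1).Prime)
    [CharP (ResidueField R) (2 * h + 1)] (hl : residue R l ^ (2 * h + 1) = residue R l) :
    Y.map (residue R) = ((X - 1) * (X - C (residue R l))) ^ h ∨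
      Y.map (residue R) = -((X - 1) * (X - C (residue R l))) ^ h := by
  have := Fact.mk hp
  have e := congrArg (Polynomial.map (residue R)) F.sq
  simp only [Polynomial.map_mul, Polynomial.map_pow, Polynomial.map_sub, map_X, map_C,
    Polynomial.map_one, F.rD, F.rN] at e
  have hQ : ((X - 1) * (X - C (residue R l)) : (ResidueField R)[X]) ≠ 0 :=
    mul_ne_zero (by simpa using X_sub_C_ne_zero (1 : ResidueField R)) (X_sub_C_ne_zero _)
  have e1 : ((X - 1) ^ (2 * h + 1) : (ResidueField R)[X]) = X ^ (2 * h + 1) - 1 := by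
    rw [sub_pow_char, one_pow]
  have e2 : ((X - C (residue R l)) ^ (2 * h + 1) : (ResidueField R)[X]) =
      X ^ (2 * h + 1) - C (residue R l) := by
    rw [sub_pow_char, ← C_pow, hl]
  rw [← sq_eq_sq_iff_eq_or_eq_neg]
  apply mul_right_cancel₀ hQ
  rw [e, ← pow_mul, ← pow_mul, ← pow_succ, mul_comm h 2, mul_pow, e1, e2]
  ring

omit [IsDomain R] [IsLocalRing R] in
lemma aminj_deriv {n d y E : PowerSeries R} (hE : d * E = 1)
    (ode : n * d + 2 * PowerSeries.X * (PowerSeries.derivative R n * d -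
      n * PowerSeries.derivative R d) = PowerSeries.C π * y) :
    PowerSeries.derivative R (PowerSeries.X * n ^ 2 * E ^ 2) =
      PowerSeries.C π * (n * y * E ^ 3) := by
  have h1 := congrArg (PowerSeries.derivative R) hE
  rw [Derivation.leibniz, PowerSeries.derivative_one, smul_eq_mul, smul_eq_mul] at h1
  simp only [sq, Derivation.leibniz, smul_eq_mul, PowerSeries.derivative_X]
  linear_combination n * E ^ 3 * ode + 2 * PowerSeries.X * n ^ 2 * E ^ 2 * h1 -
    (n ^ 2 * E ^ 2 + 2 * PowerSeries.X * n * PowerSeries.derivative R n * E ^ 2 +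
      2 * PowerSeries.X * n ^ 2 * E * PowerSeries.derivative R E) * hE

theorem FD.hasse (F : FD h π l N D Y) (hp : (2 * h + 1).Prime)
    [CharP (ResidueField R) (2 * h + 1)] (t : ℤ) (hπ : π * (t - π) = (2 * h + 1 : ℕ)) (h0 : π ≠ 0)
    (hπ0 : residue R π = 0) (hl : residue R l ^ (2 * h + 1) = residue R l) :
    (t : ResidueField R) = (Y.map (residue R)).coeff h ∧
      (Y.map (residue R) = ((X - 1) * (X - C (residue R l))) ^ h ∨
        Y.map (residue R) = -((X - 1) * (X - C (residue R l))) ^ h) := by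
  refine ⟨?_, aminj_sq F hp hl⟩
  have hu : IsUnit (D : PowerSeries R) := by
    rw [PowerSeries.isUnit_iff_constantCoeff, Polynomial.constantCoeff_coe, F.D0]
    exact isUnit_one
  obtain ⟨E, hE⟩ := hu.exists_right_inv
  have ode := congrArg (Polynomial.coeToPowerSeries.ringHom (R := R)) F.ode
  simp only [map_add, map_mul, map_sub, map_ofNat, Polynomial.coeToPowerSeries.ringHom_apply,
    Polynomial.coe_X, Polynomial.coe_C, ← PowerSeries.derivative_coe] at ode
  have e := congrArg (PowerSeries.coeff (2 * h)) (aminj_deriv hE ode)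
  rw [PowerSeries.coeff_derivative, PowerSeries.coeff_C_mul] at e
  have e1 : (t - π) * PowerSeries.coeff (2 * h + 1)
      (PowerSeries.X * (N : PowerSeries R) ^ 2 * E ^ 2) =
        PowerSeries.coeff (2 * h) ((N : PowerSeries R) * (Y : PowerSeries R) * E ^ 3) := by
    apply mul_left_cancel₀ h0
    rw [← e, ← mul_assoc, hπ]
    push_cast
    ring
  have hE' : PowerSeries.map (residue R) E = 1 := by
    have := congrArg (PowerSeries.map (residue R)) hE
    rwa [map_mul, ← Polynomial.polynomial_map_coe, F.rD, map_one, Polynomial.coe_one,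
      one_mul] at this
  have e2 := congrArg (residue R) e1
  rw [map_mul, ← PowerSeries.coeff_map, ← PowerSeries.coeff_map] at e2
  simp only [map_mul, map_pow, map_sub, hE', hπ0, map_intCast, ← Polynomial.polynomial_map_coe,
    F.rN, PowerSeries.map_X, Polynomial.coe_pow, Polynomial.coe_X, one_pow, mul_one,
    sub_zero] at e2
  rw [← pow_mul, ← pow_succ', mul_comm h 2, PowerSeries.coeff_X_pow_self, mul_one, two_mul,
    PowerSeries.coeff_X_pow_mul, Polynomial.coeff_coe] at e2
  exact e2

omit [IsDomain R] in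
lemma aminj_unit (_hp : (2 * h + 1).Prime) [CharP (ResidueField R) (2 * h + 1)] {j : ℕ}
    (j0 : 0 < j) (j1 : j < 2 * h + 1) : IsUnit (j : R) := by
  rw [← residue_ne_zero_iff_isUnit, map_natCast, Ne, CharP.cast_eq_zero_iff _ (2 * h + 1)]
  exact Nat.not_dvd_of_pos_of_lt j0 j1

omit [IsDomain R] [IsLocalRing R] in
lemma aminj_map_iff {I : Ideal R} {f : R[X]} :
    f ∈ I.map (C : R →+* R[X]) ↔ f.map (Ideal.Quotient.mk I) = 0 := by
  rw [Ideal.mem_map_C_iff, Polynomial.ext_iff]
  simp only [coeff_map, coeff_zero, Ideal.Quotient.eq_zero_iff_mem]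

omit [IsDomain R] in
lemma aminj_res {f : R[X]} (hf : f.map (residue R) = 0) :
    f ∈ (maximalIdeal R).map (C : R →+* R[X]) := aminj_map_iff.2 hf

omit [IsDomain R] [IsLocalRing R] in
lemma aminj_der {I : Ideal R} {f : R[X]} (hf : f ∈ I.map (C : R →+* R[X])) :
    derivative f ∈ I.map (C : R →+* R[X]) := by
  rw [aminj_map_iff] at hf ⊢
  rw [← derivative_map, hf, derivative_zero]

omit [IsDomain R] [IsLocalRing R] in
lemma aminj_eval {I : Ideal R} {f : R[X]} (hf : f ∈ I.map (C : R →+* R[X])) (x : R) :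
    f.eval x ∈ I := by
  rw [eval_eq_sum_range]
  exact I.sum_mem fun i _ => I.mul_mem_right _ (Ideal.mem_map_C_iff.1 hf i)

lemma aminj_monic {S : Type*} [CommRing S] (c : S) : ((X - 1) * (X - C c) : S[X]).Monic := by
  rw [← C_1]
  exact (monic_X_sub_C 1).mul (monic_X_sub_C c)

/-- `Y` and `Y'` agree modulo every ideal modulo which the other data agree -/
lemma aminj_Y (F : FD h π l N D Y) (F' : FD h π l' N' D' Y') (hp : (2 * h + 1).Prime)
    [CharP (ResidueField R) (2 * h + 1)] (t : ℤ) (hπ : π * (t - π) = (2 * h + 1 : ℕ)) (h0 : π ≠ 0)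
    (hπ0 : residue R π = 0) (hl : residue R l ^ (2 * h + 1) = residue R l)
    (ht : (t : ResidueField R) ≠ 0) (e : residue R l = residue R l') {I : Ideal R}
    (hI : l - l' ∈ I) (hn : N - N' ∈ I.map (C : R →+* R[X]))
    (hd : D - D' ∈ I.map (C : R →+* R[X])) : Y - Y' ∈ I.map (C : R →+* R[X]) := by
  have hh : 1 ≤ h := by have := hp.two_le; omega
  have two : (2 : ResidueField R) ≠ 0 := by
    have := (residue_ne_zero_iff_isUnit _).2 (aminj_unit (R := R) hp (j := 2) (by omega) (by omega))
    simpa [map_ofNat] using this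
  obtain ⟨a1, a2⟩ := F.hasse hp t hπ h0 hπ0 hl
  obtain ⟨b1, b2⟩ := F'.hasse hp t hπ h0 hπ0 (e ▸ hl)
  rw [← e] at b2
  have hc : (((X - 1) * (X - C (residue R l))) ^ h).coeff (2 * h) = 1 := by
    have hdeg : (((X - 1) * (X - C (residue R l))) ^ h).natDegree = 2 * h := by
      rw [(aminj_monic _).natDegree_pow, ← C_1, (monic_X_sub_C _).natDegree_mul (monic_X_sub_C _),
        natDegree_X_sub_C, natDegree_X_sub_C, mul_comm]
    rw [← hdeg]
    exact ((aminj_monic _).pow h).coeff_natDegree
  have hu : IsUnit ((Y + Y').coeff (2 * h)) := by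
    rw [← residue_ne_zero_iff_isUnit, ← coeff_map, Polynomial.map_add, coeff_add]
    rcases a2 with a2 | a2 <;> rcases b2 with b2 | b2
    · rw [a2, b2, hc, one_add_one_eq_two]; exact two
    · rw [a2] at a1
      rw [b2, coeff_neg, ← a1] at b1
      exact absurd (by linear_combination b1) (mul_ne_zero two ht)
    · rw [b2] at b1
      rw [a2, coeff_neg, ← b1] at a1
      exact absurd (by linear_combination a1) (mul_ne_zero two ht)
    · rw [a2, b2, coeff_neg, hc, ← neg_add, one_add_one_eq_two]; exact neg_ne_zero.2 two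
  obtain ⟨v, hv⟩ := hu.exists_left_inv
  have hZ : (C v * (Y + Y')).Monic :=
    monic_of_natDegree_le_of_coeff_eq_one (2 * h)
      ((natDegree_C_mul_le _ _).trans ((natDegree_add_le _ _).trans (max_le F.dY F'.dY)))
      (by rw [coeff_C_mul, hv])
  rw [aminj_map_iff, Polynomial.map_sub, sub_eq_zero] at hn hd
  have hI' : Ideal.Quotient.mk I l = Ideal.Quotient.mk I l' := Ideal.Quotient.eq.2 hI
  have s1 := congrArg (Polynomial.map (Ideal.Quotient.mk I)) F.sq
  have s2 := congrArg (Polynomial.map (Ideal.Quotient.mk I)) F'.sq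
  simp only [Polynomial.map_mul, Polynomial.map_pow, Polynomial.map_sub, map_X, map_C,
    Polynomial.map_one] at s1 s2
  rw [← hn, ← hd, ← hI', ← s1] at s2
  have s3 := (aminj_monic _).isRegular.right s2
  rw [aminj_map_iff]
  apply (hZ.map (Ideal.Quotient.mk I)).isRegular.left
  simp only [Polynomial.map_mul, Polynomial.map_add, Polynomial.map_sub, mul_zero]
  linear_combination (-(Polynomial.map (Ideal.Quotient.mk I) (C v))) * s3

theorem FD.inj (F : FD h π l N D Y) (F' : FD h π l' N' D' Y') (hp : (2 * h + 1).Prime)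
    [CharP (ResidueField R) (2 * h + 1)] (t : ℤ) (hπ : π * (t - π) = (2 * h + 1 : ℕ)) (h0 : π ≠ 0)
    (hπ0 : residue R π = 0) (hl : residue R l ^ (2 * h + 1) = residue R l)
    (ht : (t : ResidueField R) ≠ 0) (l0 : residue R l ≠ 0) (e : residue R l = residue R l') :
    l = l' := by
  have hh : 1 ≤ h := by have := hp.two_le; omega
  obtain ⟨g, rfl⟩ : ∃ g, h = g + 1 := ⟨h - 1, by omega⟩
  set I : Ideal R := Ideal.span {l - l'} ⊔ ((N - N').contentIdeal ⊔ (D - D').contentIdeal) with hI
  have hfg : I.FG := (Submodule.fg_span_singleton _).sup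
    (Submodule.FG.sup (contentIdeal_FG _) (contentIdeal_FG _))
  have i1 : l - l' ∈ I := Ideal.mem_sup_left (Ideal.mem_span_singleton_self _)
  have i2 : N - N' ∈ I.map (C : R →+* R[X]) := Ideal.mem_map_C_iff.2 fun i =>
    Ideal.mem_sup_right (Ideal.mem_sup_left (coeff_mem_contentIdeal _ i))
  have i3 : D - D' ∈ I.map (C : R →+* R[X]) := Ideal.mem_map_C_iff.2 fun i =>
    Ideal.mem_sup_right (Ideal.mem_sup_right (coeff_mem_contentIdeal _ i))
  have i4 := aminj_Y F F' hp t hπ h0 hπ0 hl ht e i1 i2 i3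
  have mm : ∀ {a b : R[X]}, a ∈ (maximalIdeal R).map (C : R →+* R[X]) →
      b ∈ I.map (C : R →+* R[X]) → a * b ∈ (maximalIdeal R * I).map (C : R →+* R[X]) :=
    fun ha hb => by rw [Ideal.map_mul]; exact Ideal.mul_mem_mul ha hb
  have m1 : D - 1 ∈ (maximalIdeal R).map (C : R →+* R[X]) :=
    aminj_res (by rw [Polynomial.map_sub, F.rD, Polynomial.map_one, sub_self])
  have m2 : N' - X ^ (g + 1) ∈ (maximalIdeal R).map (C : R →+* R[X]) :=
    aminj_res (by rw [Polynomial.map_sub, F'.rN, Polynomial.map_pow, map_X, sub_self])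
  have m3 : C π ∈ (maximalIdeal R).map (C : R →+* R[X]) := aminj_res (by rw [map_C, hπ0, C_0])
  have m4 : ((2 * (g + 1) + 1 : ℕ) : R[X]) ∈ (maximalIdeal R).map (C : R →+* R[X]) := by
    rw [← map_natCast C, ← hπ, C_mul]
    exact Ideal.mul_mem_right _ _ m3
  set J := maximalIdeal R * I with hJ
  have w : (N - N') + 2 * (X * derivative (N - N')) - 2 * (X ^ (g + 2) * derivative (D - D')) ∈
      J.map (C : R →+* R[X]) := by
    have key : (N - N') + 2 * (X * derivative (N - N')) - 2 * (X ^ (g + 2) * derivative (D - D')) =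
        C π * (Y - Y') - ((D - 1) * (N - N') + (N' - X ^ (g + 1)) * (D - D') +
          2 * X * ((D - 1) * derivative (N - N') + derivative (N' - X ^ (g + 1)) * (D - D') -
            derivative (D - 1) * (N - N') - (N' - X ^ (g + 1)) * derivative (D - D')) +
          X ^ (g + 1) * (((2 * (g + 1) + 1 : ℕ) : R[X]) * (D - D'))) := by
      simp only [derivative_sub, derivative_X_pow_succ, derivative_one, map_add, map_natCast,
        map_one]
      push_cast
      linear_combination F.ode - F'.ode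
    rw [key]
    exact sub_mem (mm m3 i4) (add_mem (add_mem (add_mem (mm m1 i2) (mm m2 i3))
      (Ideal.mul_mem_left _ _ (sub_mem (sub_mem (add_mem (mm m1 (aminj_der i2))
        (mm (aminj_der m2) i3)) (mm (aminj_der m1) i2)) (mm m2 (aminj_der i3)))))
      (Ideal.mul_mem_left _ _ (mm m4 i3)))
  rw [Ideal.mem_map_C_iff] at w
  have dn : (N - N').natDegree ≤ g + 1 := (natDegree_sub_le _ _).trans (max_le F.dN F'.dN)
  have dd : (D - D').natDegree ≤ g + 1 := (natDegree_sub_le _ _).trans (max_le F.dD F'.dD)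
  have cX : ∀ (f : R[X]) (i : ℕ), (X * derivative f).coeff i = i * f.coeff i := by
    intro f i
    rcases i with _ | i
    · simp
    · rw [coeff_X_mul, coeff_derivative]; push_cast; ring
  have c2 : ∀ (f : R[X]) (i : ℕ), (2 * f).coeff i = 2 * f.coeff i := fun f i => by
    rw [two_mul, coeff_add, two_mul]
  have jn : ∀ i < g + 1, (N - N').coeff i ∈ J := by
    intro i hi
    have := w i
    rw [coeff_sub, coeff_add, c2, c2, cX, coeff_X_pow_mul', if_neg (by omega)] at this
    rw [← J.unit_mul_mem_iff_mem (aminj_unit hp (j := 2 * i + 1) (by omega) (by omega))]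
    convert this using 1
    push_cast
    ring
  have jd : D - D' ∈ J.map (C : R →+* R[X]) := by
    refine Ideal.mem_map_C_iff.2 fun j => ?_
    rcases j with _ | j
    · rw [coeff_sub, F.D0, F'.D0, sub_self]; exact J.zero_mem
    by_cases hj : g + 1 < j + 1
    · rw [coeff_eq_zero_of_natDegree_lt (dd.trans_lt hj)]; exact J.zero_mem
    have := w (j + (g + 2))
    rw [coeff_sub, coeff_add, c2, c2, cX, coeff_X_pow_mul, coeff_derivative,
      coeff_eq_zero_of_natDegree_lt (p := N - N') (dn.trans_lt (by omega))] at this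
    rw [← J.unit_mul_mem_iff_mem (aminj_unit hp (j := 2 * (j + 1)) (by omega) (by omega))]
    convert J.neg_mem this using 1
    push_cast
    ring
  have j1 : (N - N').eval 1 ∈ J := by
    have hu : IsUnit (N.eval 1 + N'.eval 1) := by
      have two := (residue_ne_zero_iff_isUnit _).2
        (aminj_unit (R := R) hp (j := 2) (by omega) (by omega))
      rw [← residue_ne_zero_iff_isUnit, map_add, ← eval_one_map, ← eval_one_map, F.rN, F'.rN]
      simpa [one_add_one_eq_two, map_ofNat] using two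
    rw [← J.unit_mul_mem_iff_mem hu]
    convert J.mul_mem_left (D.eval 1 + D'.eval 1) (aminj_eval jd 1) using 1
    rw [eval_sub, eval_sub]
    linear_combination F.e1 - F'.e1
  have jN : N - N' ∈ J.map (C : R →+* R[X]) := by
    refine Ideal.mem_map_C_iff.2 fun i => ?_
    rcases lt_trichotomy i (g + 1) with hi | rfl | hi
    · exact jn i hi
    · rw [eval_eq_sum_range' (n := g + 2) (by omega), Finset.sum_range_succ, one_pow, mul_one] at j1
      exact (J.add_mem_iff_right (J.sum_mem fun i hi =>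
        J.mul_mem_right _ (jn i (Finset.mem_range.1 hi)))).1 j1
    · rw [coeff_eq_zero_of_natDegree_lt (dn.trans_lt hi)]; exact J.zero_mem
  have jl : l - l' ∈ J := by
    obtain ⟨k, hk⟩ := binomExpansion (N' ^ 2 - D' ^ 2) l' (l - l')
    have hu : IsUnit ((derivative (N' ^ 2 - D' ^ 2)).eval l' + k * (l - l')) := by
      have two := (residue_ne_zero_iff_isUnit _).2
        (aminj_unit (R := R) hp (j := 2 * (g + 1)) (by omega) (by omega))
      rw [← residue_ne_zero_iff_isUnit, map_add, map_mul, map_sub (residue R), e, sub_self,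
        mul_zero, add_zero,
        ← eval_map_apply, ← derivative_map, Polynomial.map_sub, Polynomial.map_pow,
        Polynomial.map_pow, F'.rN, F'.rD, ← pow_mul, one_pow, derivative_sub, derivative_one,
        sub_zero, derivative_X_pow, eval_mul, eval_C, eval_pow, eval_X, ← e, mul_comm (g + 1) 2]
      rw [map_natCast] at two
      exact mul_ne_zero two (pow_ne_zero _ l0)
    rw [← J.unit_mul_mem_iff_mem hu]
    convert J.sub_mem (J.mul_mem_left (D.eval l + D'.eval l) (aminj_eval jd l))
      (J.mul_mem_left (N.eval l + N'.eval l) (aminj_eval jN l)) using 1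
    simp only [add_sub_cancel, eval_sub, eval_pow] at hk ⊢
    linear_combination F.el - hk - F'.el
  have hle : I ≤ maximalIdeal R • I := by
    rw [smul_eq_mul, ← hJ]
    refine sup_le (Ideal.span_le.2 (Set.singleton_subset_iff.2 jl)) (sup_le ?_ ?_)
    · refine Ideal.span_le.2 fun c hc => ?_
      obtain ⟨i, -, rfl⟩ := mem_coeffs_iff.1 hc
      exact Ideal.mem_map_C_iff.1 jN i
    · refine Ideal.span_le.2 fun c hc => ?_
      obtain ⟨i, -, rfl⟩ := mem_coeffs_iff.1 hc
      exact Ideal.mem_map_C_iff.1 jd i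
  have hbot := Submodule.eq_bot_of_le_smul_of_le_jacobson_bot _ I hfg hle
    (maximalIdeal_le_jacobson _)
  rw [hbot] at i1
  exact sub_eq_zero.1 i1

lemma aminj_sum_pow (p : ℕ) [Fact p.Prime] {h : ℕ} (hp : p = 2 * h + 1) {i : ℕ}
    (hi : i < 3 * h + 1) : ∑ x : ZMod p, x ^ i = if i = 2 * h then -1 else 0 := by
  have hh : 1 ≤ h := by have := (Fact.out : p.Prime).two_le; omega
  have hc : Fintype.card (ZMod p) - 1 = 2 * h := by rw [ZMod.card]; omega
  rcases lt_trichotomy i (2 * h) with h1 | rfl | h1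
  · rw [if_neg h1.ne]
    exact FiniteField.sum_pow_lt_card_sub_one _ i (by rw [hc]; exact h1)
  · rw [if_pos rfl]
    have e : ∀ x : ZMod p, x ^ (2 * h) = 1 - if x = 0 then 1 else 0 := by
      intro x
      split_ifs with hx
      · rw [hx, zero_pow (by omega), sub_self]
      · rw [← hc, FiniteField.pow_card_sub_one_eq_one x hx, sub_zero]
    simp [e]
  · rw [if_neg h1.ne']
    obtain ⟨j, rfl⟩ := Nat.exists_eq_add_of_lt h1
    have e : ∀ x : ZMod p, x ^ (2 * h + j + 1) = x ^ (j + 1) := by
      intro x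
      rw [show 2 * h + j + 1 = j + p by omega, pow_add, ZMod.pow_card, pow_succ]
    simp only [e]
    exact FiniteField.sum_pow_lt_card_sub_one _ _ (by rw [hc]; omega)

/-- the character sum of the Legendre cubic modulo `p` -/
theorem sum_chi (p : ℕ) [Fact p.Prime] (hp2 : p ≠ 2) (b : ZMod p) :
    ((∑ x : ZMod p, quadraticChar (ZMod p) (x * (x - 1) * (x - b)) : ℤ) : ZMod p)
      = -Hs (p / 2) b := by
  have hchar : ringChar (ZMod p) ≠ 2 := by rwa [ZMod.ringChar_zmod_n]
  have hodd := (Fact.out : p.Prime).eq_two_or_odd.resolve_left hp2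
  obtain ⟨h, hh⟩ : ∃ h, h = p / 2 := ⟨_, rfl⟩
  have hp : p = 2 * h + 1 := by omega
  have hpow : ∀ y : ZMod p, ((quadraticChar (ZMod p) y : ℤ) : ZMod p) = y ^ h := by
    intro y
    have := quadraticChar_eq_pow_of_char_ne_two' hchar y
    rwa [ZMod.card, ← hh] at this
  set f : (ZMod p)[X] := X ^ h * ((X - 1) * (X - C b)) ^ h with hf
  have hdeg : f.natDegree < 3 * h + 1 := by
    have : f.natDegree ≤ h + h * 2 := by
      refine natDegree_mul_le.trans (add_le_add (natDegree_X_pow_le _) ?_)
      refine natDegree_pow_le.trans (Nat.mul_le_mul_left _ ?_)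
      compute_degree
    omega
  have e : ∀ x : ZMod p, (x * (x - 1) * (x - b)) ^ h =
      ∑ i ∈ Finset.range (3 * h + 1), f.coeff i * x ^ i := by
    intro x
    rw [← eval_eq_sum_range' hdeg, hf]
    simp [mul_pow, mul_assoc]
  push_cast
  simp only [hpow, e]
  rw [Finset.sum_comm]
  simp only [← Finset.mul_sum]
  rw [Finset.sum_congr rfl fun i hi => by rw [aminj_sum_pow p hp (Finset.mem_range.1 hi)]]
  simp only [mul_ite, mul_zero, Finset.sum_ite_eq', Finset.mem_range]
  rw [if_pos (by omega), mul_neg, mul_one, hf, two_mul, coeff_X_pow_mul, ← hh]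
  rfl

lemma map_Hs {A B : Type*} [CommRing A] [CommRing B] (φ : A →+* B) (h : ℕ) (b : A) :
    φ (Hs h b) = Hs h (φ b) := by
  simp only [Hs, ← coeff_map, Polynomial.map_pow, Polynomial.map_mul, Polynomial.map_sub, map_X,
    map_C, Polynomial.map_one]

/-- isomorphic graphs have the same Hasse invariant -/
theorem Hs_eq_of_conj (p : ℕ) [Fact p.Prime] (hp2 : p ≠ 2) {b b' : ZMod p} (b0 : b ≠ 0)
    (b1 : b ≠ 1) (b0' : b' ≠ 0) (b1' : b' ≠ 1) (σ : ZMod p ≃ ZMod p)
    (hσ : ∀ x, σ (x ^ 2 + -2 / b) = σ x ^ 2 + -2 / b') : Hs (p / 2) b = Hs (p / 2) b' := by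
  have hchar : ringChar (ZMod p) ≠ 2 := by rwa [ZMod.ringChar_zmod_n]
  have h2 : (2 : ZMod p) ≠ 0 := Ring.two_ne_zero hchar
  have e := conj_tr h2 σ hσ
  rw [tr_eq hchar h2 b0 b1, tr_eq hchar h2 b0' b1', sub_left_inj] at e
  rw [← neg_inj, ← sum_chi p hp2 b, ← sum_chi p hp2 b', e]

end Pool.Agent.Lib.MP_4a1067_nt.Am
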