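import Mathlib
import Pool.Agent.Lib.MP_4a1067_nt.AmBasic

/-! Superlattices of finite index. -/

namespace Pool.Agent.Lib.MP_4a1067_nt.Am

variable {L L' L'' : PeriodPair} {ω₁ ω₂ ω₃ Q T : ℂ} {n ℓ : ℕ}

lemma amlat_mem_of_eq {z w : ℂ} (hz : z ∈ L.lattice) (h : w = z) : w ∈ L.lattice := h ▸ hz

lemma Ord.mem (h : Ord L Q n) : (n : ℂ) * Q ∈ L.lattice := by
  have := (h n).mpr dvd_rfl
  rwa [Int.cast_natCast] at this

lemma Ord.notMem (h : Ord L Q n) {k : ℕ} (h0 : 0 < k) (hk : k < n) : (k : ℂ) * Q ∉ L.lattice := by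
  intro hm
  have h1 := (h k).mp (by rwa [Int.cast_natCast])
  have h2 := Nat.le_of_dvd h0 (Int.natCast_dvd_natCast.mp h1)
  omega

lemma Cyc.le (hc : Cyc L L' Q n) {z : ℂ} (hz : z ∈ L.lattice) : z ∈ L'.lattice :=
  (hc.mem z).mpr ⟨0, amlat_mem_of_eq hz (by simp)⟩

lemma Cyc.self_mem (hc : Cyc L L' Q n) : Q ∈ L'.lattice :=
  (hc.mem Q).mpr ⟨1, amlat_mem_of_eq (zero_mem _) (by simp)⟩

lemma Cyc.mul_mem (hc : Cyc L L' Q n) {z : ℂ} (hz : z ∈ L'.lattice) :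
    (n : ℂ) * z ∈ L.lattice := by
  obtain ⟨k, hk⟩ := (hc.mem z).mp hz
  exact amlat_mem_of_eq (add_mem (nat_mul_mem hk n) (int_mul_mem hc.ord.mem k)) (by ring)

lemma amlat_of_dvd (h1 : (n : ℂ) * Q ∈ L.lattice) {k : ℤ} (hk : (n : ℤ) ∣ k) :
    (k : ℂ) * Q ∈ L.lattice := by
  obtain ⟨m, rfl⟩ := hk
  exact amlat_mem_of_eq (int_mul_mem h1 m) (by push_cast; ring)

lemma ord_of_prime (hℓ : ℓ.Prime) (h1 : (ℓ : ℂ) * Q ∈ L.lattice) (h0 : Q ∉ L.lattice) :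
    Ord L Q ℓ := by
  refine fun k => ⟨fun hk => ?_, amlat_of_dvd h1⟩
  by_contra hd
  obtain ⟨u, v, huv⟩ := (Nat.prime_iff_prime_int.mp hℓ).coprime_iff_not_dvd.mpr hd
  have e : (u : ℂ) * ℓ + v * k = 1 := by exact_mod_cast huv
  exact h0 (amlat_mem_of_eq (add_mem (int_mul_mem h1 u) (int_mul_mem hk v))
    (by linear_combination (-Q) * e))

/-- reduction of a multiple modulo an odd number -/
lemma amlat_fold {h : ℕ} (h1 : ((2 * h + 1 : ℕ) : ℂ) * Q ∈ L.lattice) (j : ℤ)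
    (hj : ¬ ((2 * h + 1 : ℕ) : ℤ) ∣ j) :
    ∃ k < h, (j : ℂ) * Q - ((k + 1 : ℕ) : ℂ) * Q ∈ L.lattice ∨
      (j : ℂ) * Q + ((k + 1 : ℕ) : ℂ) * Q ∈ L.lattice := by
  have hpos : (0 : ℤ) < ((2 * h + 1 : ℕ) : ℤ) := by positivity
  have e := Int.mul_ediv_add_emod j ((2 * h + 1 : ℕ) : ℤ)
  have r0 := Int.emod_nonneg j hpos.ne'
  have r1 := Int.emod_lt_of_pos j hpos
  have r2 : j % ((2 * h + 1 : ℕ) : ℤ) ≠ 0 := fun h0 => hj (Int.dvd_of_emod_eq_zero h0)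
  generalize j / ((2 * h + 1 : ℕ) : ℤ) = q at e
  generalize j % ((2 * h + 1 : ℕ) : ℤ) = r at e r0 r1 r2
  by_cases hr : r ≤ h
  · obtain ⟨k, hk⟩ : ∃ k : ℕ, r = ((k + 1 : ℕ) : ℤ) := ⟨(r - 1).toNat, by omega⟩
    refine ⟨k, by omega, Or.inl (amlat_mem_of_eq (int_mul_mem h1 q) ?_)⟩
    rw [← e, hk]
    push_cast
    ring
  · obtain ⟨k, hk⟩ : ∃ k : ℕ, r = ((2 * h + 1 : ℕ) : ℤ) - ((k + 1 : ℕ) : ℤ) :=
      ⟨(2 * h - r).toNat, by omega⟩
    refine ⟨k, by omega, Or.inr (amlat_mem_of_eq (int_mul_mem h1 (q + 1)) ?_)⟩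
    rw [← e, hk]
    push_cast
    ring

/-- a point killed by the odd number `2 h + 1` whose first `h + 1` multiples are nonzero -/
lemma ord_of_notMem {h : ℕ} (hh : 1 ≤ h) (h1 : ((2 * h + 1 : ℕ) : ℂ) * Q ∈ L.lattice)
    (h0 : ∀ k : ℕ, 1 ≤ k → k ≤ h → (k : ℂ) * Q ∉ L.lattice) : Ord L Q (2 * h + 1) := by
  refine fun j => ⟨fun hj => ?_, amlat_of_dvd h1⟩
  by_contra hd
  obtain ⟨k, hk, h2 | h2⟩ := amlat_fold h1 j hd
  · exact h0 (k + 1) (by omega) (by omega) (amlat_mem_of_eq (sub_mem hj h2) (by ring))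
  · exact h0 (k + 1) (by omega) (by omega) (amlat_mem_of_eq (sub_mem h2 hj) (by ring))

lemma amlat_bez (a b : ℤ) : ∃ g a' b' u v : ℤ, a = g * a' ∧ b = g * b' ∧ u * a' + v * b' = 1 := by
  obtain ⟨a', b', ha, hb, hu⟩ := extract_gcd a b
  obtain ⟨u, v, huv⟩ := (gcd_isUnit_iff a' b').mp hu
  exact ⟨_, a', b', u, v, ha, hb, huv⟩

lemma amlat_indep (L : PeriodPair) {s t : ℝ} (h : (s : ℂ) * L.ω₁ + (t : ℂ) * L.ω₂ = 0) :
    s = 0 ∧ t = 0 :=
  LinearIndependent.pair_iff.mp L.indep s t (by simpa using h)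

lemma amlat_coord (L : PeriodPair) {a b : ℤ} (h : (a : ℂ) * L.ω₁ + (b : ℂ) * L.ω₂ = 0) :
    a = 0 ∧ b = 0 := by
  have := amlat_indep L (s := a) (t := b) (by simpa using h)
  exact ⟨by exact_mod_cast this.1, by exact_mod_cast this.2⟩

lemma amlat_comb (L : PeriodPair) (a b : ℤ) : (a : ℂ) * L.ω₁ + (b : ℂ) * L.ω₂ ∈ L.lattice :=
  PeriodPair.mem_lattice.mpr ⟨a, b, rfl⟩

theorem exists_cyc (hn : 0 < n) (hQ : Ord L Q n) : ∃ L', Cyc L L' Q n := by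
  obtain ⟨a, b, hab⟩ := PeriodPair.mem_lattice.mp hQ.mem
  obtain ⟨g, a', b', u, v, rfl, rfl, huv⟩ := amlat_bez a b
  obtain ⟨d, g', n', x, y, rfl, hn', hxy⟩ := amlat_bez g n
  have hnz : (n : ℤ) ≠ 0 := by exact_mod_cast hn.ne'
  have hd : (d : ℂ) ≠ 0 := by exact_mod_cast left_ne_zero_of_mul (hn' ▸ hnz)
  have hn0 : n' ≠ 0 := right_ne_zero_of_mul (hn' ▸ hnz)
  have hnC : (n' : ℂ) ≠ 0 := by exact_mod_cast hn0
  have hnR : (n' : ℝ) ≠ 0 := by exact_mod_cast hn0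
  have e1 : (u : ℂ) * a' + v * b' = 1 := by exact_mod_cast huv
  have e1R : (u : ℝ) * a' + v * b' = 1 := by exact_mod_cast huv
  have e2 : (x : ℂ) * g' + y * n' = 1 := by exact_mod_cast hxy
  have e3 : (n : ℂ) = d * n' := by exact_mod_cast hn'
  obtain ⟨e, he⟩ : ∃ e : ℂ, n' * e = a' * L.ω₁ + b' * L.ω₂ :=
    ⟨(a' * L.ω₁ + b' * L.ω₂) / n', mul_div_cancel₀ _ hnC⟩
  have hQe : Q = g' * e := by
    apply mul_left_cancel₀ (mul_ne_zero hd hnC)
    rw [e3] at hab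
    push_cast at hab
    linear_combination -hab - (d * g' : ℂ) * he
  have hind : LinearIndependent ℝ ![e, -v * L.ω₁ + u * L.ω₂] := by
    refine LinearIndependent.pair_iff.mpr fun s t hst => ?_
    have h1 : (s : ℂ) * e + (t : ℂ) * (-v * L.ω₁ + u * L.ω₂) = 0 := by
      simpa only [Complex.real_smul] using hst
    obtain ⟨h2, h3⟩ := amlat_indep L (s := s * a' - t * n' * v) (t := s * b' + t * n' * u) (by
      push_cast
      linear_combination (n' : ℂ) * h1 - (s : ℂ) * he)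
    refine ⟨by linear_combination u * h2 + v * h3 - s * e1R, mul_right_cancel₀ hnR ?_⟩
    linear_combination (-b' : ℝ) * h2 + a' * h3 - t * n' * e1R
  refine ⟨⟨e, -v * L.ω₁ + u * L.ω₂, hind⟩, hQ, fun z => ?_⟩
  rw [PeriodPair.mem_lattice]
  constructor
  · rintro ⟨m, k, rfl⟩
    refine ⟨m * x, amlat_mem_of_eq (amlat_comb L (m * y * a' - k * v) (m * y * b' + k * u)) ?_⟩
    rw [hQe]
    push_cast
    linear_combination (-(m : ℂ) * e) * e2 + (m * y : ℂ) * he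
  · rintro ⟨k, hk⟩
    obtain ⟨i, j, hij⟩ := PeriodPair.mem_lattice.mp hk
    refine ⟨(i * u + j * v) * n' + k * g', -i * b' + j * a', ?_⟩
    rw [hQe] at hij
    push_cast
    linear_combination hij + ((i : ℂ) * u + j * v) * he + ((i : ℂ) * L.ω₁ + j * L.ω₂) * e1

theorem exists_scl (L : PeriodPair) {c : ℂ} (hc : c ≠ 0) : ∃ L', Scl L L' c := by
  have hind : LinearIndependent ℝ ![L.ω₁ / c, L.ω₂ / c] := by
    refine LinearIndependent.pair_iff.mpr fun s t hst => amlat_indep L ?_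
    have h1 : (s : ℂ) * (L.ω₁ / c) + (t : ℂ) * (L.ω₂ / c) = 0 := by simpa using hst
    field_simp at h1
    linear_combination h1
  refine ⟨⟨L.ω₁ / c, L.ω₂ / c, hind⟩, fun z => ?_⟩
  rw [PeriodPair.mem_lattice, PeriodPair.mem_lattice]
  refine exists_congr fun i => exists_congr fun j => ?_
  show (i : ℂ) * (L.ω₁ / c) + j * (L.ω₂ / c) = z ↔ _
  rw [← mul_div_assoc, ← mul_div_assoc, ← add_div, div_eq_iff hc, mul_comm z c]

/-- division points in coordinates -/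
lemma amlat_div_mem (L : PeriodPair) (hn : n ≠ 0) (i j : ℤ) :
    ((i : ℂ) * L.ω₁ + j * L.ω₂) / n ∈ L.lattice ↔ (n : ℤ) ∣ i ∧ (n : ℤ) ∣ j := by
  have hC : (n : ℂ) ≠ 0 := by exact_mod_cast hn
  rw [PeriodPair.mem_lattice]
  constructor
  · rintro ⟨a, b, h⟩
    rw [eq_div_iff hC] at h
    obtain ⟨h1, h2⟩ := amlat_coord L (a := i - n * a) (b := j - n * b) (by
      push_cast
      linear_combination -h)
    exact ⟨⟨a, by omega⟩, ⟨b, by omega⟩⟩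
  · rintro ⟨⟨a, rfl⟩, ⟨b, rfl⟩⟩
    refine ⟨a, b, ?_⟩
    rw [eq_div_iff hC]
    push_cast
    ring

lemma exists_half (L : PeriodPair) : ∃ a b c, Half L a b c := by
  have key : ∀ (i j : ℤ) (z : ℂ), ¬ ((2 : ℤ) ∣ i ∧ (2 : ℤ) ∣ j) →
      z = ((i : ℂ) * L.ω₁ + j * L.ω₂) / 2 → z ∉ L.lattice := by
    intro i j z h hz hm
    rw [hz] at hm
    exact h ((amlat_div_mem L two_ne_zero i j).mp (by exact_mod_cast hm))
  exact ⟨L.ω₁ / 2, L.ω₂ / 2, (L.ω₁ + L.ω₂) / 2,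
    key 1 0 _ (by omega) (by push_cast; ring), key 0 1 _ (by omega) (by push_cast; ring),
    key 1 1 _ (by omega) (by push_cast; ring),
    amlat_mem_of_eq L.ω₁_mem_lattice (by ring), amlat_mem_of_eq L.ω₂_mem_lattice (by ring),
    amlat_mem_of_eq (add_mem L.ω₁_mem_lattice L.ω₂_mem_lattice) (by ring),
    key 1 (-1) _ (by omega) (by push_cast; ring), key 0 (-1) _ (by omega) (by push_cast; ring),
    key (-1) 0 _ (by omega) (by push_cast; ring)⟩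

lemma odd_mul_half (hn : Odd n) {ω : ℂ} (t : ω + ω ∈ L.lattice) :
    (n : ℂ) * ω - ω ∈ L.lattice := by
  obtain ⟨k, rfl⟩ := hn
  exact amlat_mem_of_eq (nat_mul_mem t k) (by push_cast; ring)

lemma amlat_half (hle : ∀ z ∈ L.lattice, z ∈ L'.lattice)
    (hmul : ∀ z ∈ L'.lattice, (n : ℂ) * z ∈ L.lattice) (hn : Odd n) (H : Half L ω₁ ω₂ ω₃) :
    Half L' ω₁ ω₂ ω₃ := by
  have key : ∀ ω : ℂ, ω + ω ∈ L.lattice → ω ∉ L.lattice → ω ∉ L'.lattice := fun ω t h0 hm =>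
    h0 (amlat_mem_of_eq (sub_mem (hmul ω hm) (odd_mul_half hn t)) (by ring))
  exact ⟨key _ H.t₁ H.n₁, key _ H.t₂ H.n₂, key _ H.t₃ H.n₃, hle _ H.t₁, hle _ H.t₂, hle _ H.t₃,
    key _ (amlat_mem_of_eq (sub_mem H.t₁ H.t₂) (by ring)) H.d₁₂,
    key _ (amlat_mem_of_eq (sub_mem H.t₁ H.t₃) (by ring)) H.d₁₃,
    key _ (amlat_mem_of_eq (sub_mem H.t₂ H.t₃) (by ring)) H.d₂₃⟩

lemma Cyc.half (hc : Cyc L L' Q n) (hn : Odd n) (H : Half L ω₁ ω₂ ω₃) : Half L' ω₁ ω₂ ω₃ :=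
  amlat_half (fun _ hz => hc.le hz) (fun _ hz => hc.mul_mem hz) hn H

lemma Scl.half (hs : Scl L L' n) (hn : Odd n) (H : Half L ω₁ ω₂ ω₃) : Half L' ω₁ ω₂ ω₃ :=
  amlat_half (fun z hz => (hs z).mpr (nat_mul_mem hz n)) (fun z hz => (hs z).mp hz) hn H

/-- every integer multiple of `Q` outside the lattice is congruent to `± k Q`, `1 ≤ k ≤ h` -/
lemma Ord.fold {h : ℕ} (hQ : Ord L Q (2 * h + 1)) (j : ℤ) (hj : (j : ℂ) * Q ∉ L.lattice) :
    ∃ k < h, (j : ℂ) * Q - ((k + 1 : ℕ) : ℂ) * Q ∈ L.lattice ∨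
      (j : ℂ) * Q + ((k + 1 : ℕ) : ℂ) * Q ∈ L.lattice :=
  amlat_fold hQ.mem j fun hd => hj ((hQ j).mpr hd)

lemma Cyc.sup {h : ℕ} (hc : Cyc L L' Q (2 * h + 1)) :
    Sup L L' (fun k : Fin h => (((k : ℕ) + 1 : ℕ) : ℂ) * Q) where
  le _ hz := hc.le hz
  mem k := nat_mul_mem hc.self_mem _
  gen z hz := by
    obtain ⟨j, hj⟩ := (hc.mem z).mp hz
    by_cases h0 : (j : ℂ) * Q ∈ L.lattice
    · exact Or.inl (amlat_mem_of_eq (add_mem hj h0) (by ring))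
    · obtain ⟨k, hk, h1 | h1⟩ := hc.ord.fold j h0
      · exact Or.inr ⟨⟨k, hk⟩, Or.inl (amlat_mem_of_eq (add_mem hj h1) (by ring))⟩
      · exact Or.inr ⟨⟨k, hk⟩, Or.inr (amlat_mem_of_eq (add_mem hj h1) (by ring))⟩
  ne k := hc.ord.notMem (by omega) (by omega)
  inj i j hij := by
    have h1 := (hc.ord ((i : ℕ) - (j : ℕ))).mp (amlat_mem_of_eq hij (by push_cast; ring))
    have h2 := Int.eq_zero_of_abs_lt_dvd h1 (by
      have := i.2
      have := j.2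
      rw [abs_lt]
      omega)
    exact Fin.ext (by omega)
  nadd i j hij :=
    hc.ord.notMem (k := (i : ℕ) + 1 + ((j : ℕ) + 1)) (by omega) (by omega)
      (amlat_mem_of_eq hij (by push_cast; ring))

/-- half systems for the full `n`-torsion -/
theorem exists_sup (hs : Scl L L' n) (hn : Odd n) :
    ∃ (ι : Type) (_ : Fintype ι) (T : ι → ℂ), Sup L L' T := by
  classical
  have hn0 : n ≠ 0 := hn.pos.ne'
  have hC : (n : ℂ) ≠ 0 := by exact_mod_cast hn0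
  have : NeZero n := ⟨hn0⟩
  have key : ∀ (i j : ℤ) (z : ℂ), z = ((i : ℂ) * L.ω₁ + j * L.ω₂) / n →
      (z ∈ L.lattice ↔ (i : ZMod n) = 0 ∧ (j : ZMod n) = 0) := by
    intro i j z hz
    rw [hz, amlat_div_mem L hn0, ZMod.intCast_zmod_eq_zero_iff_dvd,
      ZMod.intCast_zmod_eq_zero_iff_dvd]
  let φ : ZMod n × ZMod n → ℂ := fun x => ((x.1.val : ℂ) * L.ω₁ + (x.2.val : ℂ) * L.ω₂) / n
  have hsub : ∀ x y, φ x - φ y ∈ L.lattice ↔ x = y := by
    intro x y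
    rw [key ((x.1.val : ℤ) - y.1.val) ((x.2.val : ℤ) - y.2.val) _ (by
      simp only [φ]; push_cast; ring), Prod.ext_iff]
    simp only [Int.cast_sub, Int.cast_natCast, ZMod.natCast_zmod_val, sub_eq_zero]
  have hadd : ∀ x y, φ x + φ y ∈ L.lattice ↔ x = -y := by
    intro x y
    rw [key ((x.1.val : ℤ) + y.1.val) ((x.2.val : ℤ) + y.2.val) _ (by
      simp only [φ]; push_cast; ring), Prod.ext_iff]
    simp only [Int.cast_add, Int.cast_natCast, ZMod.natCast_zmod_val, add_eq_zero_iff_eq_neg,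
      Prod.fst_neg, Prod.snd_neg]
  have hzero : φ 0 = 0 := by simp [φ]
  have hodd : ∀ y : ZMod n, y = -y → y = 0 := by
    intro y hy
    obtain ⟨k, hk⟩ := hn
    have h1 : ((2 * k + 1 : ℕ) : ZMod n) = 0 :=
      (congrArg (Nat.cast : ℕ → ZMod n) hk.symm).trans (ZMod.natCast_self n)
    push_cast at h1
    linear_combination y * h1 - (k : ZMod n) * hy
  let idx := Fintype.equivFin (ZMod n × ZMod n)
  refine ⟨{x : ZMod n × ZMod n // idx x < idx (-x)}, inferInstance, fun x => φ x.1,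
    fun z hz => (hs z).mpr (nat_mul_mem hz n), fun x => (hs _).mpr ?_, fun z hz => ?_,
    fun x hx => ?_, fun x y hxy => Subtype.ext ((hsub _ _).mp hxy), fun x y hxy => ?_⟩
  · refine amlat_mem_of_eq (amlat_comb L x.1.1.val x.1.2.val) ?_
    simp only [φ]
    rw [mul_div_cancel₀ _ hC]
    push_cast
    ring
  · obtain ⟨i, j, hij⟩ := PeriodPair.mem_lattice.mp ((hs z).mp hz)
    have h1 : z - φ ((i : ZMod n), (j : ZMod n)) ∈ L.lattice := by
      rw [key (i - ((i : ZMod n).val : ℤ)) (j - ((j : ZMod n).val : ℤ)) _ (by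
        simp only [φ]
        rw [eq_div_iff hC, sub_mul, div_mul_cancel₀ _ hC]
        push_cast
        linear_combination -hij)]
      simp only [Int.cast_sub, Int.cast_natCast, ZMod.natCast_zmod_val, sub_self, and_self]
    generalize ((i : ZMod n), (j : ZMod n)) = x at h1
    rcases lt_trichotomy (idx x) (idx (-x)) with h | h | h
    · exact Or.inr ⟨⟨x, h⟩, Or.inl h1⟩
    · have h2 := idx.injective h
      have h3 : x = 0 := Prod.ext (hodd _ (congrArg Prod.fst h2)) (hodd _ (congrArg Prod.snd h2))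
      rw [h3, hzero, sub_zero] at h1
      exact Or.inl h1
    · refine Or.inr ⟨⟨-x, by rwa [neg_neg]⟩, Or.inr ?_⟩
      exact amlat_mem_of_eq (add_mem h1 ((hadd x (-x)).mpr (neg_neg x).symm)) (by ring)
  · have h1 : x.1 = 0 := (hsub _ 0).mp (by rwa [hzero, sub_zero])
    have h2 := x.2
    rw [h1, neg_zero] at h2
    exact lt_irrefl _ h2
  · have h1 := (hadd _ _).mp hxy
    have h2 := x.2
    rw [h1, neg_neg] at h2
    exact lt_asymm h2 y.2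

theorem Cyc.split {a b : ℕ} (hc : Cyc L L' Q (a * b)) (ha : 0 < a) (hb : 0 < b) :
    ∃ L₁, Cyc L L₁ (b * Q) a ∧ Cyc L₁ L' Q b := by
  have hb0 : (b : ℤ) ≠ 0 := by exact_mod_cast hb.ne'
  have h1 : Ord L (b * Q) a := fun k => by
    have h2 := hc.ord (k * b)
    rw [show ((k * b : ℤ) : ℂ) * Q = k * (b * Q) by push_cast; ring, Nat.cast_mul,
      mul_dvd_mul_iff_right hb0] at h2
    exact h2
  obtain ⟨L₁, h₁⟩ := exists_cyc ha h1
  refine ⟨L₁, h₁, fun k => ?_, fun z => ?_⟩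
  · rw [h₁.mem]
    constructor
    · rintro ⟨j, hj⟩
      obtain ⟨m, hm⟩ := (hc.ord (k - j * b)).mp (amlat_mem_of_eq hj (by push_cast; ring))
      refine ⟨j + a * m, ?_⟩
      push_cast at hm
      linear_combination hm
    · rintro ⟨m, rfl⟩
      exact ⟨m, amlat_mem_of_eq (zero_mem _) (by push_cast; ring)⟩
  · rw [hc.mem]
    constructor
    · rintro ⟨k, hk⟩
      exact ⟨k, h₁.le hk⟩
    · rintro ⟨k, hk⟩
      obtain ⟨j, hj⟩ := (h₁.mem _).mp hk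
      exact ⟨k + j * b, amlat_mem_of_eq hj (by push_cast; ring)⟩

end Pool.Agent.Lib.MP_4a1067_nt.Am
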