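import Mathlib
import Pool.Agent.Lib.MP_4a1067_nt.AmLat

/-! Duality and counting for superlattices. -/

namespace Pool.Agent.Lib.MP_4a1067_nt.Am

variable {L L' L'' : PeriodPair} {Q T : ℂ} {n ℓ : ℕ}

/-- a basis of the lattice -/
structure Amlat2Bas (L : PeriodPair) (e₁ e₂ : ℂ) : Prop where
  mem : ∀ z, z ∈ L.lattice ↔ ∃ a b : ℤ, z = a * e₁ + b * e₂
  ind : ∀ a b : ℤ, (a : ℂ) * e₁ + b * e₂ = 0 → a = 0 ∧ b = 0

lemma amlat2_std (L : PeriodPair) : Amlat2Bas L L.ω₁ L.ω₂ where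
  mem z := by
    rw [PeriodPair.mem_lattice]
    exact ⟨fun ⟨a, b, h⟩ => ⟨a, b, h.symm⟩, fun ⟨a, b, h⟩ => ⟨a, b, h.symm⟩⟩
  ind a b h := by
    have := LinearIndependent.pair_iff.mp L.indep (a : ℝ) (b : ℝ) (by simpa using h)
    exact ⟨by exact_mod_cast this.1, by exact_mod_cast this.2⟩

lemma amlat2_cop (x y : ℤ) : ∃ d x' y' u v : ℤ, x = d * x' ∧ y = d * y' ∧ u * x' + v * y' = 1 := by
  obtain ⟨x', y', h1, h2, h3⟩ := extract_gcd x y
  obtain ⟨u, v, h⟩ := (gcd_isUnit_iff_isRelPrime.1 h3).isCoprime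
  exact ⟨_, x', y', u, v, h1, h2, h⟩

lemma amlat2_inv (hℓ : ℓ.Prime) {b : ℤ} (hb : ¬ (ℓ : ℤ) ∣ b) : ∃ u v : ℤ, u * b + v * ℓ = 1 := by
  obtain ⟨u, v, h⟩ := (Nat.prime_iff_prime_int.1 hℓ).irreducible.coprime_iff_not_dvd.2 hb
  exact ⟨v, u, by rw [← h]; ring⟩

lemma amlat2_eq {e₁ e₂ : ℂ} (B : Amlat2Bas L e₁ e₂) {a b c d : ℤ}
    (h : (a : ℂ) * e₁ + b * e₂ = c * e₁ + d * e₂) : a = c ∧ b = d := by
  have := B.ind (a - c) (b - d) (by push_cast; linear_combination h)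
  omega

/-- normal form of a cyclic superlattice -/
lemma amlat2_nf (hc : Cyc L L' Q n) (hn : 0 < n) : ∃ e₁ e₂ : ℂ, Amlat2Bas L e₁ e₂ ∧
    ∀ z, z ∈ L'.lattice ↔ ∃ a b : ℤ, (n : ℂ) * z = a * e₁ + n * b * e₂ := by
  have hn' : (n : ℂ) ≠ 0 := by exact_mod_cast hn.ne'
  obtain ⟨a, b, hab⟩ := ((amlat2_std L).mem _).1 hc.ord.mem
  obtain ⟨g, a', b', u, v, rfl, rfl, huv⟩ := amlat2_cop a b
  have huv' : (u : ℂ) * a' + v * b' = 1 := by exact_mod_cast huv
  have B : Amlat2Bas L (a' * L.ω₁ + b' * L.ω₂) (-v * L.ω₁ + u * L.ω₂) := by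
    constructor
    · intro z
      rw [(amlat2_std L).mem]
      constructor
      · rintro ⟨c, d, rfl⟩
        refine ⟨c * u + d * v, -c * b' + d * a', ?_⟩
        push_cast
        linear_combination (-(c : ℂ) * L.ω₁ - d * L.ω₂) * huv'
      · rintro ⟨c, d, rfl⟩
        refine ⟨c * a' - d * v, c * b' + d * u, ?_⟩
        push_cast
        ring
    · intro c d h
      obtain ⟨h1, h2⟩ := (amlat2_std L).ind (c * a' - d * v) (c * b' + d * u)
        (by push_cast; linear_combination h)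
      constructor
      · linear_combination u * h1 + v * h2 - c * huv
      · linear_combination -b' * h1 + a' * h2 - d * huv
  generalize (-v * L.ω₁ + u * L.ω₂ : ℂ) = e₂ at B
  have hQ : (n : ℂ) * Q = g * (a' * L.ω₁ + b' * L.ω₂) := by
    rw [hab]
    push_cast
    ring
  generalize (a' * L.ω₁ + b' * L.ω₂ : ℂ) = e₁ at B hQ
  obtain ⟨d, g', n', s, t, hg, hn2, hst⟩ := amlat2_cop g n
  have hn3 : (n : ℂ) = d * n' := by exact_mod_cast hn2
  have hd : (d : ℂ) ≠ 0 := fun h => hn' (by rw [hn3, h, zero_mul])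
  have h1 : (n' : ℂ) * Q ∈ L.lattice := by
    refine (B.mem _).2 ⟨g', 0, mul_left_cancel₀ hd ?_⟩
    rw [hg, hn3] at hQ
    push_cast at hQ ⊢
    linear_combination hQ
  obtain ⟨k, hk⟩ := (hc.ord n').1 h1
  have hn0 : n' ≠ 0 := by
    rintro rfl
    omega
  have hdk : d * k = 1 := by
    apply mul_left_cancel₀ hn0
    rw [hn2] at hk
    linear_combination -hk
  have hco : ((s * k : ℤ) : ℂ) * g + ((t * k : ℤ) : ℂ) * n = 1 := by
    have : s * k * g + t * k * (n : ℤ) = 1 := by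
      rw [hg, hn2]
      linear_combination (s * g' + t * n') * hdk + hst
    exact_mod_cast this
  refine ⟨e₁, e₂, B, fun z => ?_⟩
  rw [hc.mem]
  constructor
  · rintro ⟨m, hm⟩
    obtain ⟨c, c', h⟩ := (B.mem _).1 hm
    refine ⟨m * g + n * c, c', ?_⟩
    push_cast
    linear_combination (n : ℂ) * h + m * hQ
  · rintro ⟨c, c', h⟩
    refine ⟨c * (s * k), (B.mem _).2 ⟨c * (t * k), c', mul_left_cancel₀ hn' ?_⟩⟩
    push_cast at hco ⊢
    linear_combination h - (c : ℂ) * (s * k) * hQ - (c : ℂ) * e₁ * hco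

/-- the dual of a cyclic isogeny is cyclic -/
theorem Cyc.dual (hc : Cyc L L' Q n) (hn : 0 < n) (hs : Scl L L'' n) : ∃ T, Cyc L' L'' T n := by
  have hn' : (n : ℂ) ≠ 0 := by exact_mod_cast hn.ne'
  obtain ⟨e₁, e₂, B, h⟩ := amlat2_nf hc hn
  have he : (n : ℂ) * (e₂ / n) = e₂ := by field_simp
  refine ⟨e₂ / n, fun k => ?_, fun z => ?_⟩
  · rw [h]
    constructor
    · rintro ⟨a, b, hab⟩
      have := amlat2_eq B (a := 0) (b := k) (c := a) (d := n * b)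
        (by push_cast; linear_combination hab - (k : ℂ) * he)
      exact ⟨b, this.2⟩
    · rintro ⟨b, rfl⟩
      refine ⟨0, b, ?_⟩
      push_cast
      linear_combination (n : ℂ) * b * he
  · rw [hs, B.mem]
    constructor
    · rintro ⟨a, b, hab⟩
      refine ⟨b, (h _).2 ⟨a, 0, ?_⟩⟩
      push_cast
      linear_combination hab - (b : ℂ) * he
    · rintro ⟨k, hk⟩
      obtain ⟨a, b, hab⟩ := (h _).1 hk
      refine ⟨a, k + n * b, ?_⟩
      push_cast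
      linear_combination hab + (k : ℂ) * he

lemma amlat2_key (hℓ : ℓ.Prime) (hc : Cyc L L' Q ℓ) (h1 : (ℓ : ℂ) * T ∈ L.lattice)
    (h0 : T ∉ L'.lattice) {z : ℂ} (hz : (ℓ : ℂ) * z ∈ L.lattice) :
    ∃ j : ℤ, z - j * T ∈ L'.lattice := by
  obtain ⟨e₁, e₂, B, h⟩ := amlat2_nf hc hℓ.pos
  obtain ⟨a, b, hab⟩ := (B.mem _).1 h1
  obtain ⟨c, d, hcd⟩ := (B.mem _).1 hz
  have hb : ¬ (ℓ : ℤ) ∣ b := by
    rintro ⟨b', rfl⟩
    exact h0 ((h _).2 ⟨a, b', by rw [hab]; push_cast; ring⟩)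
  obtain ⟨u, v, huv⟩ := amlat2_inv hℓ hb
  have huv' : (u : ℂ) * b + v * ℓ = 1 := by exact_mod_cast huv
  refine ⟨d * u, (h _).2 ⟨c - d * u * a, d * v, ?_⟩⟩
  push_cast
  linear_combination hcd - (d : ℂ) * u * hab - (d : ℂ) * e₂ * huv'

/-- for prime index every torsion point outside `L'` generates the dual kernel -/
theorem Cyc.dual_prime (hℓ : ℓ.Prime) (hc : Cyc L L' Q ℓ) (hs : Scl L L'' ℓ)
    (h1 : (ℓ : ℂ) * T ∈ L.lattice) (h0 : T ∉ L'.lattice) : Cyc L' L'' T ℓ := by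
  refine ⟨ord_of_prime hℓ (hc.le h1) h0, fun z => ?_⟩
  rw [hs]
  refine ⟨fun hz => amlat2_key hℓ hc h1 h0 hz, ?_⟩
  rintro ⟨k, hk⟩
  have := L.lattice.add_mem (hc.mul_mem hk) (int_mul_mem h1 k)
  convert this using 1
  ring

theorem two_gen (hℓ : ℓ.Prime) (hc : Cyc L L' Q ℓ) (h1 : (ℓ : ℂ) * T ∈ L.lattice)
    (h0 : T ∉ L'.lattice) {z : ℂ} (hz : (ℓ : ℂ) * z ∈ L.lattice) :
    ∃ i j : ℤ, z - i * Q - j * T ∈ L.lattice := by
  obtain ⟨j, hj⟩ := amlat2_key hℓ hc h1 h0 hz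
  obtain ⟨i, hi⟩ := (hc.mem _).1 hj
  refine ⟨i, j, ?_⟩
  convert hi using 1
  ring

/-- two superlattices of the same prime index, one containing the generator of the other -/
theorem Cyc.eq_of_mem (hℓ : ℓ.Prime) (hc : Cyc L L' Q ℓ) (hc' : Cyc L L'' T ℓ)
    (h : T ∈ L'.lattice) : L'.lattice = L''.lattice := by
  obtain ⟨k, hk⟩ := (hc.mem _).1 h
  have hd : ¬ (ℓ : ℤ) ∣ k := by
    intro hd
    have h1 : ((1 : ℤ) : ℂ) * T ∈ L.lattice := by
      have := L.lattice.add_mem hk ((hc.ord k).2 hd)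
      convert this using 1
      push_cast
      ring
    have h2 := Int.le_of_dvd one_pos ((hc'.ord 1).1 h1)
    have := hℓ.two_le
    omega
  obtain ⟨u, v, huv⟩ := amlat2_inv hℓ hd
  have huv' : (u : ℂ) * k + v * ℓ = 1 := by exact_mod_cast huv
  ext z
  rw [hc.mem, hc'.mem]
  constructor
  · rintro ⟨m, hm⟩
    refine ⟨m * u, ?_⟩
    have := L.lattice.add_mem (L.lattice.sub_mem hm (int_mul_mem hk (m * u)))
      (int_mul_mem hc.ord.mem (m * v))
    convert this using 1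
    push_cast
    linear_combination (-(m : ℂ) * Q) * huv'
  · rintro ⟨m, hm⟩
    refine ⟨m * k, ?_⟩
    have := L.lattice.add_mem hm (int_mul_mem hk m)
    convert this using 1
    push_cast
    ring

theorem count_prime (L : PeriodPair) (hℓ : ℓ.Prime) :
    ∃ S : Finset (Submodule ℤ ℂ), S.card ≤ ℓ + 1 ∧
      ∀ (L' : PeriodPair) (Q : ℂ), Cyc L L' Q ℓ → L'.lattice ∈ S := by
  classical
  have hn' : (ℓ : ℂ) ≠ 0 := by exact_mod_cast hℓ.pos.ne'
  have h2 := hℓ.two_le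
  have B := amlat2_std L
  have hord : ∀ a b : ℤ, a = 1 ∨ b = 1 → Ord L ((a * L.ω₁ + b * L.ω₂) / ℓ) ℓ := by
    intro a b hab
    have he : (ℓ : ℂ) * ((a * L.ω₁ + b * L.ω₂) / ℓ) = a * L.ω₁ + b * L.ω₂ := by field_simp
    refine ord_of_prime hℓ ((B.mem _).2 ⟨a, b, he⟩) fun h => ?_
    obtain ⟨c, d, hcd⟩ := (B.mem _).1 h
    obtain ⟨e1, e2⟩ := amlat2_eq B (a := a) (b := b) (c := ℓ * c) (d := ℓ * d)
      (by push_cast; linear_combination (ℓ : ℂ) * hcd - he)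
    rcases hab with h1 | h1
    · have := Int.le_of_dvd one_pos (⟨c, h1 ▸ e1⟩ : (ℓ : ℤ) ∣ 1)
      omega
    · have := Int.le_of_dvd one_pos (⟨d, h1 ▸ e2⟩ : (ℓ : ℤ) ∣ 1)
      omega
  obtain ⟨M₀, hM₀⟩ := exists_cyc hℓ.pos (hord 1 0 (Or.inl rfl))
  choose M hM using fun j : ℕ => exists_cyc hℓ.pos (hord j 1 (Or.inr rfl))
  refine ⟨insert M₀.lattice ((Finset.range ℓ).image fun j => (M j).lattice), ?_, ?_⟩
  · refine (Finset.card_insert_le _ _).trans ?_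
    have := Finset.card_image_le (s := Finset.range ℓ) (f := fun j => (M j).lattice)
    rw [Finset.card_range] at this
    omega
  · intro L' Q hc
    obtain ⟨a, b, hab⟩ := (B.mem _).1 hc.ord.mem
    by_cases hb : (ℓ : ℤ) ∣ b
    · obtain ⟨b', rfl⟩ := hb
      rw [← hM₀.eq_of_mem hℓ hc ((hM₀.mem _).2 ⟨a, (B.mem _).2 ⟨0, b', ?_⟩⟩)]
      · exact Finset.mem_insert_self _ _
      · apply mul_left_cancel₀ hn'
        push_cast at hab ⊢
        field_simp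
        linear_combination hab
    · obtain ⟨u, v, huv⟩ := amlat2_inv hℓ hb
      have hl0 : (ℓ : ℤ) ≠ 0 := by omega
      obtain ⟨j, hj⟩ := Int.eq_ofNat_of_zero_le (Int.emod_nonneg (a * u) hl0)
      have hj2 : j < ℓ := by
        have := Int.emod_lt_of_pos (a * u) (show (0 : ℤ) < ℓ by omega)
        omega
      have hj3 : (j : ℤ) + ℓ * (a * u / ℓ) = a * u := by
        rw [← hj]
        exact Int.emod_add_mul_ediv _ _
      generalize a * u / ℓ = w at hj3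
      have huv' : (u : ℂ) * b + v * ℓ = 1 := by exact_mod_cast huv
      have hj4 : (j : ℂ) + ℓ * w = a * u := by exact_mod_cast hj3
      rw [← (hM j).eq_of_mem hℓ hc (((hM j).mem _).2 ⟨b, (B.mem _).2 ⟨a * v + b * w, 0, ?_⟩⟩)]
      · exact Finset.mem_insert_of_mem (Finset.mem_image_of_mem _ (Finset.mem_range.2 hj2))
      · apply mul_left_cancel₀ hn'
        push_cast at hab ⊢
        field_simp
        linear_combination hab - (b : ℂ) * L.ω₁ * hj4 - (a : ℂ) * L.ω₁ * huv'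

/-- `Cyc` depends only on the lattices -/
lemma Cyc.congr {M M' : PeriodPair} (hc : Cyc L L' Q n) (h : M.lattice = L.lattice)
    (h' : M'.lattice = L'.lattice) : Cyc M M' Q n := by
  refine ⟨fun k => ?_, fun z => ?_⟩
  · rw [h]
    exact hc.ord k
  · rw [h, h']
    exact hc.mem z

/-- two superlattices of distinct prime indices are linked by a cyclic isogeny -/
theorem cyc_pair {ℓ' : ℕ} {L₁ L₂ M : PeriodPair} {Q₁ Q₂ : ℂ} (hℓ : ℓ.Prime) (hℓ' : ℓ'.Prime)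
    (hne : ℓ ≠ ℓ') (h₁ : Cyc L L₁ Q₁ ℓ) (h₂ : Cyc L L₂ Q₂ ℓ') (hs : Scl L₂ M ℓ) :
    ∃ T, Cyc L₁ M T (ℓ * ℓ') := by
  have hn' : (ℓ : ℂ) ≠ 0 := by exact_mod_cast hℓ.pos.ne'
  obtain ⟨L₀, h₀⟩ := exists_scl L hn'
  obtain ⟨T₀, hT⟩ := h₁.dual hℓ.pos h₀
  have a1 : (ℓ : ℂ) * T₀ ∈ L.lattice := (h₀ _).1 hT.self_mem
  have a2 : (ℓ' : ℂ) * Q₂ ∈ L.lattice := h₂.ord.mem
  have hco : IsCoprime (ℓ : ℤ) (ℓ' : ℤ) :=
    Nat.isCoprime_iff_coprime.2 ((Nat.coprime_primes hℓ hℓ').2 hne)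
  obtain ⟨u, v, huv⟩ := id hco
  have huv' : (u : ℂ) * ℓ + v * ℓ' = 1 := by exact_mod_cast huv
  refine ⟨T₀ + Q₂, fun k => ⟨fun hk => ?_, ?_⟩, fun z => ?_⟩
  · have b1 : ((ℓ' * k : ℤ) : ℂ) * T₀ ∈ L₁.lattice := by
      have := L₁.lattice.sub_mem (nat_mul_mem hk ℓ') (h₁.le (int_mul_mem a2 k))
      convert this using 1
      push_cast
      ring
    have b2 : ((ℓ * k : ℤ) : ℂ) * Q₂ ∈ L.lattice := by
      have := L.lattice.sub_mem (h₁.mul_mem hk) (int_mul_mem a1 k)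
      convert this using 1
      push_cast
      ring
    rw [Nat.cast_mul]
    exact hco.mul_dvd (hco.dvd_of_dvd_mul_left ((hT.ord _).1 b1))
      (hco.symm.dvd_of_dvd_mul_left ((h₂.ord _).1 b2))
  · rintro ⟨m, rfl⟩
    have := L.lattice.add_mem (int_mul_mem a1 (ℓ' * m)) (int_mul_mem a2 (ℓ * m))
    refine h₁.le ?_
    convert this using 1
    push_cast
    ring
  · rw [hs, h₂.mem]
    constructor
    · rintro ⟨m, hm⟩
      have b1 : z - ((m * u : ℤ) : ℂ) * Q₂ ∈ L₀.lattice := by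
        rw [h₀]
        have := L.lattice.add_mem hm (int_mul_mem a2 (m * v))
        convert this using 1
        push_cast
        linear_combination (-(m : ℂ) * Q₂) * huv'
      obtain ⟨i, hi⟩ := (hT.mem _).1 b1
      refine ⟨i * v * ℓ' + m * u * u * ℓ, ?_⟩
      have := L₁.lattice.sub_mem hi (h₁.le (L.lattice.add_mem (int_mul_mem a1 ((m * u - i) * u))
        (int_mul_mem a2 ((i - m * u) * v))))
      convert this using 1
      push_cast
      linear_combination (-(i : ℂ) * T₀ - m * u * Q₂) * huv'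
    · rintro ⟨k, hk⟩
      refine ⟨ℓ * k, ?_⟩
      have := L.lattice.add_mem (h₁.mul_mem hk) (int_mul_mem a1 k)
      convert this using 1
      push_cast
      ring

end Pool.Agent.Lib.MP_4a1067_nt.Am
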