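import Mathlib
import Pool.Agent.Lib.MP_4a1067_nt.AmLat2

/-! Lattices with complex multiplication. -/

namespace Pool.Agent.Lib.MP_4a1067_nt.Am

variable {L L' : PeriodPair} {ρ : ℂ} {τ n₁ : ℤ}

/-- an endomorphism with nonzero imaginary part has integral trace -/
lemma trace_of_endo {β : ℂ} (hβ : β.im ≠ 0) (h : ∀ z ∈ L.lattice, β * z ∈ L.lattice) :
    ∃ t : ℤ, 2 * β.re = t := by
  obtain ⟨a, b, e₁⟩ := PeriodPair.mem_lattice.mp (h _ L.ω₁_mem_lattice)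
  obtain ⟨c, d, e₂⟩ := PeriodPair.mem_lattice.mp (h _ L.ω₂_mem_lattice)
  have h0 : L.ω₁ ≠ 0 := by
    intro h0
    apply L.ω₁_div_two_notMem_lattice
    rw [h0, zero_div]
    exact zero_mem _
  have e : β ^ 2 - ((a + d : ℤ) : ℂ) * β + ((a * d - b * c : ℤ) : ℂ) = 0 := by
    apply mul_right_cancel₀ h0
    push_cast
    linear_combination (-(β - d)) * e₁ - (b : ℂ) * e₂
  have e' := congrArg Complex.im e
  simp only [pow_two, Complex.add_im, Complex.sub_im, Complex.mul_im, Complex.intCast_im,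
    Complex.intCast_re, Complex.zero_im] at e'
  refine ⟨a + d, mul_right_cancel₀ hβ ?_⟩
  linear_combination e'

lemma amnu_re (hρ : ρ.im ≠ 0) (hq : ρ ^ 2 = τ * ρ - n₁) : 2 * ρ.re = τ := by
  have e' := congrArg Complex.im hq
  simp only [pow_two, Complex.sub_im, Complex.mul_im, Complex.intCast_im,
    Complex.intCast_re] at e'
  refine mul_right_cancel₀ hρ ?_
  linear_combination e'

lemma amnu_exists {β : ℂ} (L : PeriodPair) (hβ : β.im ≠ 0) {t : ℤ} (ht : 2 * β.re = t) {ℓ : ℕ}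
    (hℓ : ℓ ≠ 0) (hnd : ¬ (ℓ : ℤ) ∣ t) : ∃ w ∈ L.lattice, β / ℓ * w ∉ L.lattice := by
  by_contra hcon
  push Not at hcon
  have h0 : (ℓ : ℝ) ≠ 0 := by exact_mod_cast hℓ
  obtain ⟨s, hs⟩ := trace_of_endo (β := β / ℓ) (by
    rw [Complex.div_natCast_im]; exact div_ne_zero hβ h0) hcon
  rw [Complex.div_natCast_re] at hs
  refine hnd ⟨s, ?_⟩
  have : (t : ℝ) = ℓ * s := by rw [← ht, ← hs]; field_simp
  exact_mod_cast this

/-- the superlattice attached to a split prime and a root of the characteristic polynomial -/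
theorem nu (hL : ∀ z ∈ L.lattice, ρ * z ∈ L.lattice) (hρ : ρ.im ≠ 0) (hq : ρ ^ 2 = τ * ρ - n₁)
    {ℓ : ℕ} (hℓ : ℓ.Prime) (r : ℤ) (hr : (ℓ : ℤ) ∣ r ^ 2 - τ * r + n₁)
    (hD : ¬ (ℓ : ℤ) ∣ τ ^ 2 - 4 * n₁) :
    ∃ (L' : PeriodPair) (Q : ℂ), Cyc L L' Q ℓ ∧ (ρ - r) * Q ∈ L.lattice ∧
      (∀ z ∈ L'.lattice, ρ * z ∈ L'.lattice) ∧
      ∀ z, z ∈ L.lattice ↔ ∃ x ∈ L'.lattice, ∃ y ∈ L'.lattice, z = ℓ * x + (ρ - r) * y := by
  obtain ⟨m, hm⟩ := hr
  have hm' : (r : ℂ) ^ 2 - τ * r + n₁ = ℓ * m := by exact_mod_cast hm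
  have h0 : (ℓ : ℂ) ≠ 0 := by exact_mod_cast hℓ.ne_zero
  have hre := amnu_re hρ hq
  have hnd : ¬ (ℓ : ℤ) ∣ τ - 2 * r := by
    rintro ⟨k, hk⟩
    exact hD ⟨k * (τ - 2 * r) - 4 * m, by linear_combination (τ - 2 * r) * hk - 4 * hm⟩
  have hsub : ∀ (s : ℤ) {M : PeriodPair}, (∀ z ∈ M.lattice, ρ * z ∈ M.lattice) →
      ∀ z ∈ M.lattice, (ρ - s) * z ∈ M.lattice := by
    intro s M hM z hz
    rw [sub_mul]
    exact sub_mem (hM z hz) (int_mul_mem hz s)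
  obtain ⟨w, hw, hQ0⟩ := amnu_exists (β := ρ - ((τ - r : ℤ) : ℂ)) L
    (by rwa [Complex.sub_im, Complex.intCast_im, sub_zero]) (t := -(τ - 2 * r))
    (by rw [Complex.sub_re, Complex.intCast_re]; push_cast; linear_combination hre)
    hℓ.ne_zero (by rwa [dvd_neg])
  set Q : ℂ := (ρ - ((τ - r : ℤ) : ℂ)) / ℓ * w with hQdef
  have hQ1 : (ℓ : ℂ) * Q ∈ L.lattice := by
    have := hsub (τ - r) hL w hw
    rwa [show (ρ - ((τ - r : ℤ) : ℂ)) * w = ℓ * Q by rw [hQdef]; field_simp] at this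
  obtain ⟨L', hc⟩ := exists_cyc hℓ.pos (ord_of_prime hℓ hQ1 hQ0)
  have hrQ : (ρ - r) * Q ∈ L.lattice := by
    have := int_mul_mem hw (-m)
    rwa [show ((-m : ℤ) : ℂ) * w = (ρ - r) * Q by
      rw [hQdef]
      push_cast
      field_simp
      linear_combination (-w) * hq + w * hm'] at this
  have hdown : ∀ y ∈ L'.lattice, (ρ - r) * y ∈ L.lattice := by
    intro y hy
    obtain ⟨k, hk⟩ := (hc.mem y).mp hy
    have := add_mem (hsub r hL _ hk) (int_mul_mem hrQ k)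
    rwa [show (ρ - r) * (y - k * Q) + k * ((ρ - r) * Q) = (ρ - r) * y by ring] at this
  have hL' : ∀ z ∈ L'.lattice, ρ * z ∈ L'.lattice := by
    intro z hz
    have := add_mem (hc.le (hdown z hz)) (int_mul_mem hz r)
    rwa [show (ρ - r) * z + r * z = ρ * z by ring] at this
  refine ⟨L', Q, hc, hrQ, hL', fun z => ⟨fun hz => ?_, ?_⟩⟩
  · obtain ⟨w', hw', hT0⟩ := amnu_exists (β := ρ - (r : ℂ)) L'
      (by rwa [Complex.sub_im, Complex.intCast_im, sub_zero]) (t := τ - 2 * r)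
      (by rw [Complex.sub_re, Complex.intCast_re]; push_cast; linear_combination hre)
      hℓ.ne_zero hnd
    have hT1 : (ℓ : ℂ) * ((ρ - r) / ℓ * w') ∈ L.lattice := by
      have := hdown w' hw'
      rwa [show (ρ - r) * w' = (ℓ : ℂ) * ((ρ - r) / ℓ * w') by field_simp] at this
    obtain ⟨i, j, hij⟩ := two_gen hℓ hc hT1 hT0 (z := z / ℓ) (by rwa [mul_div_cancel₀ _ h0])
    refine ⟨z / ℓ - j * ((ρ - r) / ℓ * w'), (hc.mem _).mpr ⟨i, ?_⟩, j * w', int_mul_mem hw' j, ?_⟩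
    · rwa [sub_right_comm]
    · field_simp
      ring
  · rintro ⟨x, hx, y, hy, rfl⟩
    exact add_mem (hc.mul_mem hx) (hdown y hy)

theorem exists_endo {h : ℕ} (hL : ∀ z ∈ L.lattice, ρ * z ∈ L.lattice) (hρ : ρ.im ≠ 0)
    (hq : ρ ^ 2 = τ * ρ - n₁) (hp : (2 * h + 1).Prime) (e₁ : 2 * n₁ = h - τ)
    (hD : ¬ ((2 * h + 1 : ℕ) : ℤ) ∣ τ ^ 2 - 4 * n₁) (ht : ¬ ((2 * h + 1 : ℕ) : ℤ) ∣ 2 * τ + 2) :
    ∃ Q, Endo L (2 * ρ + 1) Q (2 * h + 1) := by
  obtain ⟨L', Q, hc, hQ, -, -⟩ := nu hL hρ hq hp (h : ℤ)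
    ⟨n₁, by push_cast; linear_combination (-(h : ℤ)) * e₁⟩ hD
  have c₁ : 2 * (n₁ : ℂ) = h - τ := by exact_mod_cast e₁
  have h0 : ((2 * h + 1 : ℕ) : ℂ) ≠ 0 := by exact_mod_cast hp.ne_zero
  have hππ : (2 * ρ + 1) * (2 * τ + 1 - 2 * ρ) = ((2 * h + 1 : ℕ) : ℂ) := by
    push_cast; linear_combination -4 * hq + 2 * c₁
  have hπ0 : 2 * ρ + 1 ≠ 0 := by
    intro e
    rw [e, zero_mul] at hππ
    exact h0 hππ.symm
  have hmem : ∀ m ∈ L.lattice, (2 * ρ + 1) * m ∈ L.lattice := by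
    intro m hm
    have := add_mem (add_mem (hL m hm) (hL m hm)) hm
    rwa [show ρ * m + ρ * m + m = (2 * ρ + 1) * m by ring] at this
  have hπQ : (2 * ρ + 1) * Q ∈ L.lattice := by
    have := add_mem (add_mem hQ hQ) hc.ord.mem
    rwa [show (ρ - ((h : ℤ) : ℂ)) * Q + (ρ - ((h : ℤ) : ℂ)) * Q + ((2 * h + 1 : ℕ) : ℂ) * Q
      = (2 * ρ + 1) * Q by push_cast; ring] at this
  refine ⟨Q, hπ0, hp.pos, hmem, hπQ, hc.ord, fun l hl => ?_⟩
  have hT : l / (2 * ρ + 1) ∈ L'.lattice := by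
    by_contra hT0
    have hT1 : ((2 * h + 1 : ℕ) : ℂ) * (l / (2 * ρ + 1)) ∈ L.lattice := by
      have := sub_mem (int_mul_mem hl (2 * τ + 1)) (add_mem (hL l hl) (hL l hl))
      rwa [show ((2 * τ + 1 : ℤ) : ℂ) * l - (ρ * l + ρ * l)
        = ((2 * h + 1 : ℕ) : ℂ) * (l / (2 * ρ + 1)) by
          rw [← hππ]; push_cast; field_simp; ring] at this
    obtain ⟨w, hw, hw0⟩ := amnu_exists (β := 2 * ρ + 1) L
      (by simpa using hρ) (t := 2 * τ + 2)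
      (by have := amnu_re hρ hq; simp; linear_combination 2 * this) hp.ne_zero ht
    obtain ⟨i, j, hij⟩ := two_gen hp hc hT1 hT0 (z := w / ((2 * h + 1 : ℕ) : ℂ))
      (by rwa [mul_div_cancel₀ _ h0])
    have := add_mem (add_mem (hmem _ hij) (int_mul_mem hπQ i)) (int_mul_mem hl j)
    refine hw0 ?_
    rwa [show (2 * ρ + 1) * (w / ((2 * h + 1 : ℕ) : ℂ) - i * Q - j * (l / (2 * ρ + 1)))
      + i * ((2 * ρ + 1) * Q) + j * l = (2 * ρ + 1) / ((2 * h + 1 : ℕ) : ℂ) * w by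
        field_simp; ring] at this
  obtain ⟨k, hk⟩ := (hc.mem _).mp hT
  refine ⟨-k, _, hk, ?_⟩
  push_cast
  field_simp
  ring

lemma amnu_root (ℓ : ℕ) (hℓ : Odd ℓ) (r : ℤ) (hr : (ℓ : ℤ) ∣ r ^ 2 - (τ ^ 2 - 4 * n₁)) :
    ∃ r' : ℤ, (ℓ : ℤ) ∣ r' ^ 2 - τ * r' + n₁ := by
  obtain ⟨m, rfl⟩ := hℓ
  obtain ⟨k, hk⟩ := hr
  refine ⟨(τ + r) * (m + 1), (k + 2 * r * (τ + r) + (2 * m + 1) * (τ + r) ^ 2) * (m + 1) ^ 2
    - (2 * m + 3) * (((τ + r) * (m + 1)) ^ 2 - τ * ((τ + r) * (m + 1)) + n₁), ?_⟩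
  push_cast at hk ⊢
  linear_combination ((m : ℤ) + 1) ^ 2 * hk

/-- the lattice of a form with odd first coefficient `A` -/
theorem exists_form (hρ : ρ.im ≠ 0) (hq : ρ ^ 2 = τ * ρ - n₁) (A : ℕ) (hA : Odd A) (r : ℤ)
    (hr : (A : ℤ) ∣ r ^ 2 - (τ ^ 2 - 4 * n₁)) :
    ∃ (L : PeriodPair) (θ : ℂ), (∀ z, z ∈ L.lattice ↔ ∃ m k : ℤ, (m : ℂ) + k * θ = z) ∧
      A * θ.im = ρ.im ∧ ∀ z ∈ L.lattice, ρ * z ∈ L.lattice := by
  obtain ⟨u, C, hC⟩ := amnu_root A hA r hr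
  have hC' : (u : ℂ) ^ 2 - τ * u + n₁ = A * C := by exact_mod_cast hC
  have hA0 : A ≠ 0 := hA.pos.ne'
  have h0 : (A : ℂ) ≠ 0 := by exact_mod_cast hA0
  have h0' : (A : ℝ) ≠ 0 := by exact_mod_cast hA0
  obtain ⟨θ, hθ⟩ : ∃ θ : ℂ, θ = (ρ - u) / A := ⟨_, rfl⟩
  have him : A * θ.im = ρ.im := by
    rw [hθ, Complex.div_natCast_im, Complex.sub_im, Complex.intCast_im, sub_zero,
      mul_div_cancel₀ _ h0']
  have hθ0 : θ.im ≠ 0 := by
    intro e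
    rw [e, mul_zero] at him
    exact hρ him.symm
  have e1 : ρ = u + A * θ := by rw [hθ]; field_simp; ring
  have e2 : ρ * θ = -C + (τ - u) * θ := by
    apply mul_left_cancel₀ h0
    linear_combination hq - hC' - (ρ - τ + u) * e1
  let L : PeriodPair := ⟨1, θ, by
    rw [LinearIndependent.pair_iff]
    intro s t hst
    have h1 := congrArg Complex.im hst
    simp only [Complex.real_smul, mul_one, Complex.add_im, Complex.ofReal_im, Complex.mul_im,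
      Complex.ofReal_re, zero_mul, add_zero, zero_add, Complex.zero_im, mul_eq_zero, hθ0,
      or_false] at h1
    subst h1
    simpa using hst⟩
  have hΛ : ∀ z, z ∈ L.lattice ↔ ∃ m k : ℤ, (m : ℂ) + k * θ = z := by
    intro z
    rw [PeriodPair.mem_lattice]
    simp [L]
  refine ⟨L, θ, hΛ, him, fun z hz => ?_⟩
  obtain ⟨m, k, rfl⟩ := (hΛ z).mp hz
  exact (hΛ _).mpr ⟨m * u - k * C, m * A + k * (τ - u), by
    push_cast; linear_combination -(m : ℂ) * e1 - (k : ℂ) * e2⟩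

lemma amnu_norm {θ z : ℂ} (hθ : 1 < θ.im ^ 2) {m k : ℤ} (e : (m : ℂ) + k * θ = z) (hz : z ≠ 0) :
    1 ≤ Complex.normSq z ∧ (Complex.normSq z ≤ 1 → k = 0) := by
  have him : z.im = k * θ.im := by rw [← e]; simp
  by_cases hk : k = 0
  · refine ⟨?_, fun _ => hk⟩
    subst hk
    have e' : z = m := by rw [← e]; simp
    have hm : m ≠ 0 := by rintro rfl; exact hz (by simpa using e')
    rw [e', Complex.normSq_intCast]
    have : (1 : ℤ) ≤ m * m := by have := mul_self_pos.mpr hm; omega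
    exact_mod_cast this
  · have h1 : (1 : ℝ) ≤ (k : ℝ) * k := by
      have : (1 : ℤ) ≤ k * k := by have := mul_self_pos.mpr hk; omega
      exact_mod_cast this
    have h2 : 1 < Complex.normSq z := by
      rw [Complex.normSq_apply, him]
      nlinarith [mul_self_nonneg z.re]
    exact ⟨h2.le, fun h => absurd h (not_le.mpr h2)⟩

lemma amnu_im {A : ℕ} (hA : A.Prime) {t y : ℝ} (e : A * t = y) (s : (A : ℝ) ^ 2 < y ^ 2) :
    1 < t ^ 2 := by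
  have h0 : (0 : ℝ) < (A : ℝ) ^ 2 := pow_pos (by exact_mod_cast hA.pos) 2
  rw [← e, mul_pow] at s
  exact (lt_mul_iff_one_lt_right h0).mp s

/-- homothetic lattices of small prime first coefficients coincide -/
theorem form_inj {θ θ' c : ℂ} (hL : ∀ z, z ∈ L.lattice ↔ ∃ m k : ℤ, (m : ℂ) + k * θ = z)
    (hL' : ∀ z, z ∈ L'.lattice ↔ ∃ m k : ℤ, (m : ℂ) + k * θ' = z) {A A' : ℕ} (hA : A.Prime)
    (hA' : A'.Prime) {y : ℝ} (e : A * θ.im = y) (e' : A' * θ'.im = y) (s : (A : ℝ) ^ 2 < y ^ 2)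
    (s' : (A' : ℝ) ^ 2 < y ^ 2) (hc : c ≠ 0) (hs : Scl L L' c) : A = A' := by
  have t := amnu_im hA e s
  have t' := amnu_im hA' e' s'
  have n0 : θ.im ≠ 0 := by rintro h; rw [h] at t; norm_num at t
  have n0' : θ'.im ≠ 0 := by rintro h; rw [h] at t'; norm_num at t'
  have c1 : c ∈ L.lattice := by
    simpa using (hs 1).mp ((hL' 1).mpr ⟨1, 0, by simp⟩)
  have c2 : c⁻¹ ∈ L'.lattice :=
    (hs _).mpr (by rw [mul_inv_cancel₀ hc]; exact (hL 1).mpr ⟨1, 0, by simp⟩)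
  obtain ⟨m, k, em⟩ := (hL _).mp c1
  obtain ⟨m', k', em'⟩ := (hL' _).mp c2
  obtain ⟨a1, a2⟩ := amnu_norm t em hc
  obtain ⟨b1, b2⟩ := amnu_norm t' em' (inv_ne_zero hc)
  have hp : Complex.normSq c * Complex.normSq c⁻¹ = 1 := by
    rw [← map_mul, mul_inv_cancel₀ hc, map_one]
  have k0 : k = 0 := a2 (by nlinarith)
  have k0' : k' = 0 := b2 (by nlinarith)
  subst k0 k0'
  have f : c = m := by rw [← em]; simp
  have f' : c⁻¹ = m' := by rw [← em']; simp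
  have mm : m * m' = 1 := by
    have : (m : ℂ) * m' = 1 := by rw [← f, ← f', mul_inv_cancel₀ hc]
    exact_mod_cast this
  obtain ⟨a, b, g⟩ := (hL _).mp ((hs θ').mp ((hL' θ').mpr ⟨0, 1, by simp⟩))
  obtain ⟨a', b', g'⟩ := (hL' _).mp ((hs (c⁻¹ * θ)).mpr (by
    rw [mul_inv_cancel_left₀ hc]; exact (hL θ).mpr ⟨0, 1, by simp⟩))
  rw [f] at g
  rw [f'] at g'
  have i1 : (b : ℝ) * θ.im = m * θ'.im := by simpa using congrArg Complex.im g
  have i2 : (b' : ℝ) * θ'.im = m' * θ.im := by simpa using congrArg Complex.im g'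
  have mm' : (m : ℝ) * m' = 1 := by exact_mod_cast mm
  have bb : b * b' = 1 := by
    have : (b : ℝ) * b' = 1 := by
      apply mul_right_cancel₀ n0
      linear_combination (b' : ℝ) * i1 + (m : ℝ) * i2 + θ.im * mm'
    exact_mod_cast this
  have fin : m * (A : ℤ) = b * A' := by
    have : (m : ℝ) * A = b * A' := by
      apply mul_right_cancel₀ n0
      linear_combination (m : ℝ) * e - (m : ℝ) * e' - (A' : ℝ) * i1
    exact_mod_cast this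
  have p1 := hA.pos
  have p2 := hA'.pos
  rcases Int.eq_one_or_neg_one_of_mul_eq_one mm with rfl | rfl <;>
    rcases Int.eq_one_or_neg_one_of_mul_eq_one bb with rfl | rfl <;> omega

/-- a root of the characteristic polynomial modulo an odd number from a root of the
discriminant -/
lemma exists_root (ℓ : ℕ) (hℓ : Odd ℓ) (r : ℤ) (hr : (ℓ : ℤ) ∣ r ^ 2 - (τ ^ 2 - 4 * n₁)) :
    ∃ r' : ℤ, (ℓ : ℤ) ∣ r' ^ 2 - τ * r' + n₁ :=
  amnu_root ℓ hℓ r hr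

end Pool.Agent.Lib.MP_4a1067_nt.Am
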