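import Mathlib
import Pool.Agent.Lib.MP_4a1067_nt.AmBasic

/-! Existence of places. -/

namespace Pool.Agent.Lib.MP_4a1067_nt.Am

open Polynomial IsLocalRing IntermediateField

lemma amext_lift {R S k : Type*} [CommRing R] [CommRing S] [IsDomain S] [Algebra R S]
    [Algebra.IsIntegral R S] [Field k] [IsAlgClosed k]
    (hj : Function.Injective (algebraMap R S)) (g : R →+* k) :
    ∃ G : S →+* k, ∀ r, G (algebraMap R S r) = g r := by
  have : (RingHom.ker g).IsPrime := RingHom.ker_isPrime g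
  obtain ⟨Q, hQ, e⟩ := Ideal.exists_ideal_over_prime_of_isIntegral_of_isDomain (S := S)
    (RingHom.ker g) (by rw [(RingHom.injective_iff_ker_eq_bot _).1 hj]; exact bot_le)
  let g' : R ⧸ Q.comap (algebraMap R S) →+* k :=
    Ideal.Quotient.lift _ g (fun a ha => by rwa [e] at ha)
  have hg' : Function.Injective g' := by
    refine (injective_iff_map_eq_zero _).2 fun x hx => ?_
    obtain ⟨x, rfl⟩ := Ideal.Quotient.mk_surjective x
    refine Ideal.Quotient.eq_zero_iff_mem.2 ?_
    rw [e]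
    exact hx
  let _ := g'.toAlgebra
  have : FaithfulSMul (R ⧸ Q.comap (algebraMap R S)) k :=
    (faithfulSMul_iff_algebraMap_injective _ _).2 hg'
  have : FaithfulSMul (R ⧸ Q.comap (algebraMap R S)) (S ⧸ Q) :=
    (faithfulSMul_iff_algebraMap_injective _ _).2 Ideal.quotientMap_injective
  let φ : (S ⧸ Q) →ₐ[R ⧸ Q.comap (algebraMap R S)] k := IsAlgClosed.lift
  exact ⟨φ.toRingHom.comp (Ideal.Quotient.mk Q), fun r => φ.commutes (Ideal.Quotient.mk _ r)⟩

/-- a homomorphism to an algebraically closed field extends to the integral closure -/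
theorem exists_pl {R F k : Type*} [CommRing R] [Field F] [Field k] [IsAlgClosed k]
    (j : R →+* F) (hj : Function.Injective j) (g : R →+* k) :
    ∃ P : Pl F k, (∀ r, j r ∈ P.A ∧ P.ev (j r) = g r) ∧ ∀ z ∈ P.A, j.IsIntegralElem z := by
  let _ := j.toAlgebra
  have hinj : Function.Injective (algebraMap R (integralClosure R F)) := fun a b h =>
    hj (congrArg Subtype.val h)
  obtain ⟨G, hG⟩ := amext_lift hinj g
  refine ⟨⟨(integralClosure R F).toSubring,
    fun z hz => isIntegral_trans (A := integralClosure R F) z hz, G⟩, fun r => ?_,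
    fun z hz => hz⟩
  have hm : j r ∈ (integralClosure R F).toSubring := (algebraMap R (integralClosure R F) r).2
  refine ⟨hm, ?_⟩
  rw [Pl.ev_of_mem _ hm]
  exact hG r

/-- the same after inverting one element -/
theorem place {R F k : Type*} [CommRing R] [Field F] [Field k] [IsAlgClosed k]
    (j : R →+* F) (hj : Function.Injective j) (g : R →+* k) (f : R) (hf : g f ≠ 0) :
    ∃ P : Pl F k, (∀ r, j r ∈ P.A ∧ P.ev (j r) = g r) ∧ Un P.A (j f) := by
  have hf0 : j f ≠ 0 := by
    intro h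
    have : f = 0 := hj (h.trans (map_zero j).symm)
    exact hf (by rw [this, map_zero])
  let j' : Localization.Away f →+* F := IsLocalization.Away.lift f (g := j) hf0.isUnit
  let g' : Localization.Away f →+* k := IsLocalization.Away.lift f (g := g) hf.isUnit
  have e1 : ∀ r, j' (algebraMap R _ r) = j r := fun r => IsLocalization.Away.lift_eq f _ r
  have e2 : ∀ r, g' (algebraMap R _ r) = g r := fun r => IsLocalization.Away.lift_eq f _ r
  have hj' : Function.Injective j' := by
    refine (injective_iff_map_eq_zero _).2 fun x hx => ?_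
    obtain ⟨n, a, ha⟩ := IsLocalization.Away.surj f x
    have h1 := congrArg j' ha
    rw [map_mul, hx, zero_mul, e1] at h1
    have h2 : a = 0 := hj (h1.symm.trans (map_zero j).symm)
    rw [h2, map_zero] at ha
    exact ((IsLocalization.Away.algebraMap_isUnit f).pow n).mul_left_eq_zero.1 ha
  obtain ⟨P, hP, -⟩ := exists_pl j' hj' g'
  have h1 : ∀ r, j r ∈ P.A ∧ P.ev (j r) = g r := fun r => by
    have := hP (algebraMap R _ r)
    rwa [e1, e2] at this
  refine ⟨P, h1, hf0, (h1 f).1, ?_⟩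
  have h2 := congrArg j' (IsLocalization.Away.mul_invSelf (S := Localization.Away f) f)
  rw [map_mul, e1, map_one] at h2
  rw [← eq_inv_of_mul_eq_one_right h2]
  exact (hP _).1

/-- a valuation subring dominating a place -/
theorem Pl.exists_val {F k : Type*} [Field F] [Field k] (P : Pl F k) :
    ∃ W : ValuationSubring F, P.A ≤ W.toSubring ∧
      ∀ z ∈ P.A, (P.ev z = 0 ↔ W.valuation z < 1) := by
  have : (RingHom.ker P.f).IsPrime := RingHom.ker_isPrime P.f
  obtain ⟨V, hV1, hV2⟩ := (LocalSubring.ofPrime P.A (RingHom.ker P.f)).exists_le_valuationSubring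
  have hle : P.A ≤ V.toSubring := (LocalSubring.le_ofPrime _ _).trans hV1
  refine ⟨V, hle, fun z hz => ?_⟩
  have h1 := IsLocalization.AtPrime.isUnit_to_map_iff
    (LocalSubring.ofPrime P.A (RingHom.ker P.f)).toSubring (RingHom.ker P.f) ⟨z, hz⟩
  have h2 := isUnit_map_iff (Subring.inclusion hV1)
    (algebraMap P.A (LocalSubring.ofPrime P.A (RingHom.ker P.f)).toSubring ⟨z, hz⟩)
  have h3 := V.valuation_lt_one_iff ⟨z, hle hz⟩
  rw [P.ev_of_mem hz, ← h3, mem_maximalIdeal, mem_nonunits_iff]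
  have h4 : IsUnit (⟨z, hle hz⟩ : V) ↔ ¬ P.f ⟨z, hz⟩ = 0 := h2.trans h1
  rw [h4, not_not]

/-- lifting a valuation subring of the target of a place -/
theorem Pl.exists_val₂ {F Ω : Type*} [Field F] [Field Ω] (P : Pl F Ω) (U : ValuationSubring Ω) :
    ∃ W : ValuationSubring F,
      (∀ z ∈ P.A, U.valuation (P.ev z) < 1 → W.valuation z < 1) ∧
      (∀ z ∈ P.A, U.valuation (P.ev z) = 1 → Un P.A z → W.valuation z = 1) ∧
      ∀ z w, Un P.A z → Un P.A w → W.valuation z = W.valuation w →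
        U.valuation (P.ev z) = U.valuation (P.ev w) := by
  let ρ : U.toSubring →+* ResidueField U := residue U
  obtain ⟨W, hW1, hW2⟩ := ((P.res U.toSubring (ic_val U)).map ρ).exists_val
  have c1 : ∀ z ∈ P.A, U.valuation (P.ev z) < 1 → W.valuation z < 1 := by
    intro z hz h
    have hm : z ∈ (P.res U.toSubring (ic_val U)).A :=
      P.mem_res.2 ⟨hz, (U.valuation_le_one_iff _).1 h.le⟩
    refine (hW2 z hm).1 ?_
    rw [Pl.ev_map]
    refine (residue_eq_zero_iff (R := U) _).2 ((U.valuation_lt_one_iff _).2 ?_)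
    rw [← P.ev_res hm] at h
    exact h
  refine ⟨W, c1, fun z _ h hu => ?_, fun z w hz hw h => ?_⟩
  · exact un_val_iff.1 (((P.un_res (hB := ic_val U)).2 ⟨hu, un_val_iff.2 h⟩).mono hW1)
  · have key : ∀ z w, Un P.A z → Un P.A w → W.valuation z = W.valuation w →
        ¬ U.valuation (P.ev z) < U.valuation (P.ev w) := by
      intro z w hz hw h hlt
      have p1 : 0 < U.valuation (P.ev w) :=
        zero_lt_iff.mpr ((_root_.map_ne_zero _).mpr (P.ev_ne hw))
      have h1 := c1 (z / w) (hz.div hw).mem (by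
        rw [P.ev_div hz.mem hw, map_div₀]
        exact (div_lt_one₀ p1).2 hlt)
      rw [map_div₀, h, div_self ((_root_.map_ne_zero _).mpr hw.ne)] at h1
      exact lt_irrefl _ h1
    exact le_antisymm (not_lt.1 (key w z hw hz h.symm)) (not_lt.1 (key z w hz hw h))

lemma amext_root {F k : Type*} [Field F] [IsAlgClosed F] [Field k] (P : Pl F k) (c : k) (n : ℕ) :
    ∀ q : P.A[X], q.Monic → q.natDegree = n → q.eval₂ P.f c = 0 → ∃ z : P.A, P.f z = c := by
  induction n with
  | zero =>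
    intro q hq hn h
    rw [hq.natDegree_eq_zero.1 hn, eval₂_one] at h
    exact (one_ne_zero h).elim
  | succ n ih =>
    intro q hq hn h
    have hd : (q.map P.A.subtype).degree ≠ 0 := by
      rw [hq.degree_map, degree_eq_natDegree hq.ne_zero, hn]
      exact_mod_cast Nat.succ_ne_zero n
    obtain ⟨z, hz⟩ := IsAlgClosed.exists_root _ hd
    rw [IsRoot.def, eval_map] at hz
    have hm : z ∈ P.A := P.ic z ⟨q, hq, hz⟩
    have hr : q.IsRoot ⟨z, hm⟩ := by
      apply Subtype.ext
      have := hom_eval₂ q (RingHom.id _) P.A.subtype (⟨z, hm⟩ : P.A)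
      rw [eval₂_id] at this
      exact this.trans hz
    have e := mul_divByMonic_eq_iff_isRoot.2 hr
    have hq' : (q /ₘ (X - C ⟨z, hm⟩)).Monic :=
      (monic_X_sub_C _).of_mul_monic_left (by rw [e]; exact hq)
    have hn' : (q /ₘ (X - C ⟨z, hm⟩)).natDegree = n := by
      rw [natDegree_divByMonic _ (monic_X_sub_C _), hn, natDegree_X_sub_C]
      rfl
    rw [← e, eval₂_mul, eval₂_sub, eval₂_X, eval₂_C] at h
    rcases mul_eq_zero.1 h with h | h
    · exact ⟨⟨z, hm⟩, (sub_eq_zero.1 h).symm⟩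
    · exact ih _ hq' hn' h

/-- a place of an algebraically closed field with values in an algebraic extension of the prime
field is onto -/
theorem Pl.surj {F k : Type*} [Field F] [IsAlgClosed F] [Field k] (p : ℕ) [Fact p.Prime]
    [Algebra (ZMod p) k] [Algebra.IsAlgebraic (ZMod p) k] (P : Pl F k) (c : k) :
    ∃ z ∈ P.A, P.ev z = c := by
  obtain ⟨m, hm, hc⟩ : IsIntegral (ZMod p) c := Algebra.IsIntegral.isIntegral c
  obtain ⟨q, hq, -, hq'⟩ := lifts_and_natDegree_eq_and_monic (f := Int.castRingHom (ZMod p))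
    ((mem_lifts m).2 (map_surjective _ (ZMod.ringHom_surjective _) m)) hm
  obtain ⟨z, hz⟩ := amext_root P c _ (q.map (Int.castRingHom P.A)) (hq'.map _) rfl (by
    rw [← hq, eval₂_map] at hc
    rw [eval₂_map, RingHom.ext_int (P.f.comp _) ((algebraMap (ZMod p) k).comp (Int.castRingHom _))]
    exact hc)
  exact ⟨z, z.2, (P.ev_coe z).trans hz⟩

theorem exists_emb {κ Ω Ω' : Type*} [Field κ] [Field Ω] [Field Ω'] [IsAlgClosed Ω']
    [Algebra κ Ω] [Algebra κ Ω'] (u : Ω) (hu : Transcendental κ u)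
    (halg : Algebra.IsAlgebraic κ⟮u⟯ Ω) (r : Ω') (hr : Transcendental κ r) :
    ∃ ι : Ω →ₐ[κ] Ω', ι u = r := by
  let e : κ⟮u⟯ →ₐ[κ] Ω' := (κ⟮r⟯.val).comp
    ((RatFunc.algEquivOfTranscendental r hr).toAlgHom.comp
      (RatFunc.algEquivOfTranscendental u hu).symm.toAlgHom)
  obtain ⟨ι, hι⟩ := IsAlgClosed.surjective_domRestrict_of_isAlgebraic (K := κ) (L := κ⟮u⟯)
    (M := Ω') (E := Ω) e
  refine ⟨ι, ?_⟩
  have h1 : ι u = e (AdjoinSimple.gen κ u) := by
    rw [← hι]
    rfl
  rw [h1]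
  change ((RatFunc.algEquivOfTranscendental r hr
    ((RatFunc.algEquivOfTranscendental u hu).symm (AdjoinSimple.gen κ u)) : κ⟮r⟯) : Ω') = r
  rw [RatFunc.algEquivOfTranscendental_symm_gen, RatFunc.algEquivOfTranscendental_X]

lemma amext_aeval {κ Ω : Type*} [Field κ] [Field Ω] [Algebra κ Ω] (P : Pl Ω κ)
    (hc : ∀ c : κ, algebraMap κ Ω c ∈ P.A ∧ P.ev (algebraMap κ Ω c) = c) {u : Ω}
    (hu : u ∈ P.A) (a : κ[X]) : aeval u a ∈ P.A ∧ P.ev (aeval u a) = a.eval (P.ev u) := by
  induction a using Polynomial.induction_on' with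
  | add a b ha hb =>
    rw [map_add, eval_add, P.ev_add ha.1 hb.1, ha.2, hb.2]
    exact ⟨add_mem ha.1 hb.1, rfl⟩
  | monomial n a =>
    rw [aeval_monomial, eval_monomial, P.ev_mul (hc a).1 (pow_mem hu n), (hc a).2, P.ev_pow hu]
    exact ⟨mul_mem (hc a).1 (pow_mem hu n), rfl⟩

/-- a place over `κ` specialises polynomial relations -/
theorem Pl.ev_aevalAeval {κ Ω : Type*} [Field κ] [Field Ω] [Algebra κ Ω] (P : Pl Ω κ)
    (hc : ∀ c : κ, algebraMap κ Ω c ∈ P.A ∧ P.ev (algebraMap κ Ω c) = c) {u w : Ω}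
    (hu : u ∈ P.A) (hw : w ∈ P.A) (q : κ[X][X]) :
    aevalAeval u w q ∈ P.A ∧ P.ev (aevalAeval u w q) = q.evalEval (P.ev u) (P.ev w) := by
  induction q using Polynomial.induction_on' with
  | add a b ha hb =>
    rw [map_add, evalEval_add, P.ev_add ha.1 hb.1, ha.2, hb.2]
    exact ⟨add_mem ha.1 hb.1, rfl⟩
  | monomial n a =>
    have h := amext_aeval P hc hu a
    rw [← C_mul_X_pow_eq_monomial, map_mul, map_pow, aevalAeval_C, aevalAeval_Y, evalEval_mul,
      evalEval_pow, evalEval_C, evalEval_X, P.ev_mul h.1 (pow_mem hw n), h.2, P.ev_pow hw]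
    exact ⟨mul_mem h.1 (pow_mem hw n), rfl⟩

end Pool.Agent.Lib.MP_4a1067_nt.Am
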