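import Mathlib
import Pool.Agent.Lib.MP_4a1067_nt.AmLat

/-! Homothetic lattices. -/

namespace Pool.Agent.Lib.MP_4a1067_nt.Am

open Filter Topology Set

variable {L L' : PeriodPair} {ω₁ ω₂ ω₃ η₁ η₂ η₃ c : ℂ}

/-- multiplication by `c` as a bijection of the lattices -/
noncomputable def amscale_equiv (hs : Scl L L' c) (hc : c ≠ 0) : L'.lattice ≃ L.lattice where
  toFun l := ⟨c * l, (hs l).1 l.2⟩
  invFun l := ⟨c⁻¹ * l, (hs _).2 (by rw [mul_inv_cancel_left₀ hc]; exact l.2)⟩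
  left_inv l := Subtype.ext (inv_mul_cancel_left₀ hc _)
  right_inv l := Subtype.ext (mul_inv_cancel_left₀ hc _)

lemma amscale_equiv_apply (hs : Scl L L' c) (hc : c ≠ 0) (l : L'.lattice) :
    (amscale_equiv hs hc l : ℂ) = c * l := rfl

lemma Scl.P (hs : Scl L L' c) (hc : c ≠ 0) (z : ℂ) :
    L'.weierstrassP z = c ^ 2 * L.weierstrassP (c * z) := by
  unfold PeriodPair.weierstrassP
  rw [← (amscale_equiv hs hc).tsum_eq, ← tsum_mul_left]
  refine tsum_congr fun l => ?_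
  rw [amscale_equiv_apply, ← mul_sub, mul_pow, mul_pow, mul_sub]
  simp only [one_div, mul_inv]
  rw [mul_inv_cancel_left₀ (pow_ne_zero 2 hc), mul_inv_cancel_left₀ (pow_ne_zero 2 hc)]

lemma amscale_G (hs : Scl L L' c) (hc : c ≠ 0) (n : ℕ) : L'.G n = c ^ n * L.G n := by
  unfold PeriodPair.G
  rw [← (amscale_equiv hs hc).tsum_eq, ← tsum_mul_left]
  refine tsum_congr fun l => ?_
  rw [amscale_equiv_apply, mul_pow, mul_inv, mul_inv_cancel_left₀ (pow_ne_zero n hc)]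

lemma leg_a_ne (E : Leg L ω₁ ω₂ ω₃) : E.a ≠ 0 := by
  intro h
  have h1 := E.x₁
  have h2 := E.x₂
  rw [E.x_def, h, zero_mul, zero_add] at h1 h2
  exact zero_ne_one (h1.symm.trans h2)

lemma amscale_P_congr {z w : ℂ} (h : z - w ∈ L.lattice) :
    L.weierstrassP z = L.weierstrassP w := by
  rw [← L.weierstrassP_add_coe w ⟨_, h⟩, add_sub_cancel]

theorem leg_scl (hs : Scl L L' c) (hc : c ≠ 0) (E : Leg L ω₁ ω₂ ω₃) (E' : Leg L' η₁ η₂ η₃)
    (h₁ : c * η₁ - ω₁ ∈ L.lattice) (h₂ : c * η₂ - ω₂ ∈ L.lattice)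
    (h₃ : c * η₃ - ω₃ ∈ L.lattice) :
    (∀ z, E'.x z = E.x (c * z)) ∧ E'.lam = E.lam ∧ E'.a * c ^ 2 = E.a := by
  have a1 := E.x₁
  have a2 := E.x₂
  have b1 := E'.x₁
  have b2 := E'.x₂
  rw [E.x_def] at a1 a2
  rw [E'.x_def, hs.P hc] at b1 b2
  rw [amscale_P_congr h₁] at b1
  rw [amscale_P_congr h₂] at b2
  have ha : E'.a * c ^ 2 = E.a := by
    linear_combination E.a * (b2 - b1) - E'.a * c ^ 2 * (a2 - a1)
  have hb : E'.b = E.b := by
    linear_combination b1 - a1 - L.weierstrassP ω₁ * ha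
  have hx : ∀ z, E'.x z = E.x (c * z) := fun z => by
    rw [E'.x_def, E.x_def, hs.P hc, hb, ← ha, mul_assoc]
  refine ⟨hx, ?_, ha⟩
  rw [← E'.x₃, hx, E.x_congr h₃, E.x₃]

theorem leg_congr (h : L'.lattice = L.lattice) (E : Leg L ω₁ ω₂ ω₃) (E' : Leg L' ω₁ ω₂ ω₃) :
    (∀ z, E'.x z = E.x z) ∧ E'.lam = E.lam ∧ E'.a = E.a := by
  have hs : Scl L L' 1 := fun z => by rw [h, one_mul]
  have := leg_scl hs one_ne_zero E E' (by simp) (by simp) (by simp)
  simpa using this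

lemma amscale_near (h2 : L.g₂ = L'.g₂) (h3 : L.g₃ = L'.g₃) :
    ∀ᶠ z in 𝓝[≠] (0 : ℂ), L.weierstrassP z = L'.weierstrassP z := by
  have aw : AnalyticAt ℂ (fun z => L.weierstrassPExcept 0 z - L'.weierstrassPExcept 0 z) 0 :=
    (L.analyticAt_weierstrassPExcept 0).sub (L'.analyticAt_weierstrassPExcept 0)
  have hw : ∀ z, L.weierstrassP z - L'.weierstrassP z =
      L.weierstrassPExcept 0 z - L'.weierstrassPExcept 0 z := fun z => by
    rw [P_eq L z, P_eq L' z]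
    ring
  by_cases h0 : ∀ᶠ z in 𝓝 (0 : ℂ), L.weierstrassPExcept 0 z - L'.weierstrassPExcept 0 z = 0
  · filter_upwards [mem_nhdsWithin_of_mem_nhds h0] with z hz
    exact sub_eq_zero.1 ((hw z).trans hz)
  exfalso
  obtain ⟨k, u, au, u0, hu⟩ := aw.exists_eventuallyEq_pow_smul_nonzero_iff.2 h0
  have hu' : ∀ᶠ z in 𝓝 (0 : ℂ), L.weierstrassP z - L'.weierstrassP z = z ^ k * u z := by
    filter_upwards [hu] with z hz
    rw [hw, hz, sub_zero, smul_eq_mul]
  have key : ∀ᶠ z in 𝓝[≠] (0 : ℂ),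
      (k * u z + z * deriv u z) *
          (z ^ 3 * L.derivWeierstrassP z + z ^ 3 * L'.derivWeierstrassP z) =
        u z * (4 * ((z ^ 2 * L.weierstrassP z) ^ 2
          + z ^ 2 * L.weierstrassP z * (z ^ 2 * L'.weierstrassP z)
          + (z ^ 2 * L'.weierstrassP z) ^ 2) - L.g₂ * z ^ 4) := by
    filter_upwards [self_mem_nhdsWithin, ev_notMem L 0, ev_notMem L' 0,
      mem_nhdsWithin_of_mem_nhds hu'.eventually_nhds,
      mem_nhdsWithin_of_mem_nhds au.eventually_analyticAt] with z (hz : z ≠ 0) n1 n2 e1 e2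
    have d1 := (hasDerivAt_P L n1).sub (hasDerivAt_P L' n2)
    have d2 := (hasDerivAt_pow k z).mul e2.differentiableAt.hasDerivAt
    have d3 := d1.unique (d2.congr_of_eventuallyEq e1)
    have e3 : L.weierstrassP z - L'.weierstrassP z = z ^ k * u z := e1.self_of_nhds
    have e4 : z * (L.derivWeierstrassP z - L'.derivWeierstrassP z) =
        z ^ k * (k * u z + z * deriv u z) := by
      rw [d3]
      cases k with
      | zero => simp
      | succ m =>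
        simp only [Nat.add_sub_cancel]
        ring
    have r1 := L.derivWeierstrassP_sq z n1
    have r2 := L'.derivWeierstrassP_sq z n2
    rw [← h2, ← h3] at r2
    apply mul_left_cancel₀ (pow_ne_zero k hz)
    linear_combination (-(z ^ 3 * (L.derivWeierstrassP z + L'.derivWeierstrassP z))) * e4
      + z ^ 4 * (r1 - r2) + z ^ 4 * (4 * (L.weierstrassP z ^ 2
        + L.weierstrassP z * L'.weierstrassP z + L'.weierstrassP z ^ 2) - L.g₂) * e3
  have tu : Tendsto u (𝓝[≠] 0) (𝓝 (u 0)) := au.continuousAt.tendsto.mono_left nhdsWithin_le_nhds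
  have td : Tendsto (deriv u) (𝓝[≠] 0) (𝓝 (deriv u 0)) :=
    au.deriv.continuousAt.tendsto.mono_left nhdsWithin_le_nhds
  have tz : Tendsto (fun z : ℂ => z) (𝓝[≠] 0) (𝓝 0) := tendsto_id.mono_left nhdsWithin_le_nhds
  have t1 := ((tu.const_mul (k : ℂ)).add (tz.mul td)).mul
    ((tendsto_cube_mul_P' L).add (tendsto_cube_mul_P' L'))
  have t2 := tu.mul ((((((tendsto_sq_mul_P L).pow 2).add
    ((tendsto_sq_mul_P L).mul (tendsto_sq_mul_P L'))).add
      ((tendsto_sq_mul_P L').pow 2)).const_mul 4).sub ((tz.pow 4).const_mul L.g₂))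
  have e := tendsto_nhds_unique_of_eventuallyEq t1 t2 key
  have hk : ((k + 3 : ℕ) : ℂ) ≠ 0 := Nat.cast_ne_zero.2 (by omega)
  apply mul_ne_zero hk u0
  push_cast
  linear_combination -e / 4

lemma amscale_le (h2 : L.g₂ = L'.g₂) (h3 : L.g₃ = L'.g₃) : L.lattice ≤ L'.lattice := by
  have hTc : ((L.lattice : Set ℂ) ∪ (L'.lattice : Set ℂ)).Countable :=
    (countable_lattice L).union (countable_lattice L')
  have hmem : ∀ y, y ∈ ((L.lattice : Set ℂ) ∪ (L'.lattice : Set ℂ))ᶜ ↔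
      y ∉ L.lattice ∧ y ∉ L'.lattice := fun y => by
    simp only [mem_compl_iff, mem_union, not_or, SetLike.mem_coe]
  obtain ⟨y, hy1, hy2, hy3⟩ :=
    ((ev_ev (amscale_near h2 h3)).and ((ev_notMem L 0).and (ev_notMem L' 0))).exists
  have hEq := AnalyticOnNhd.eqOn_of_preconnected_of_eventuallyEq
    (f := L.weierstrassP) (g := L'.weierstrassP) (fun y hy => anP L ((hmem y).1 hy).1)
    (fun y hy => anP L' ((hmem y).1 hy).2) (preconnected_compl hTc) ((hmem y).2 ⟨hy2, hy3⟩) hy1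
  intro l hl
  by_contra hl'
  have ax : ContinuousAt (fun z => L'.weierstrassP (l + z)) 0 :=
    (AnalyticAt.comp_of_eq (anP L' hl') (f := fun z => l + z) (by fun_prop)
      (by simp)).continuousAt
  obtain ⟨z, k1, k2, k3⟩ :=
    ((ev_P_ne L ax).and ((ev_add_notMem L l 0).and (ev_add_notMem L' l 0))).exists
  apply k1
  rw [← hEq ((hmem _).2 ⟨k2, k3⟩)]
  exact (amscale_P_congr (by simpa using hl)).symm

/-- the invariants `g₂`, `g₃` determine the lattice -/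
theorem lattice_eq_of_g (h2 : L.g₂ = L'.g₂) (h3 : L.g₃ = L'.g₃) : L.lattice = L'.lattice :=
  le_antisymm (amscale_le h2 h3) (amscale_le h2.symm h3.symm)

/-- the invariants in terms of the Legendre data -/
theorem g_eq (H : Half L ω₁ ω₂ ω₃) (E : Leg L ω₁ ω₂ ω₃) :
    3 * E.a ^ 2 * L.g₂ = 4 * (E.lam ^ 2 - E.lam + 1) ∧
      27 * E.a ^ 3 * L.g₃ = 4 * ((E.lam + 1) * (E.lam - 2) * (2 * E.lam - 1)) := by
  have a1 := E.x₁
  have a2 := E.x₂
  have a3 := E.x₃
  rw [E.x_def] at a1 a2 a3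
  have h12 := P_half_ne H.n₁ H.n₂ H.t₂ H.d₁₂
  have h13 := P_half_ne H.n₁ H.n₃ H.t₃ H.d₁₃
  have h23 := P_half_ne H.n₂ H.n₃ H.t₃ H.d₂₃
  have r1 := L.derivWeierstrassP_sq ω₁ H.n₁
  have r2 := L.derivWeierstrassP_sq ω₂ H.n₂
  have r3 := L.derivWeierstrassP_sq ω₃ H.n₃
  rw [P'_half H.t₁] at r1
  rw [P'_half H.t₂] at r2
  rw [P'_half H.t₃] at r3
  generalize L.weierstrassP ω₁ = e₁ at *
  generalize L.weierstrassP ω₂ = e₂ at *
  generalize L.weierstrassP ω₃ = e₃ at *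
  have q12 : L.g₂ = 4 * (e₁ ^ 2 + e₁ * e₂ + e₂ ^ 2) := by
    apply mul_left_cancel₀ (sub_ne_zero.mpr h12)
    linear_combination r1 - r2
  have q13 : L.g₂ = 4 * (e₁ ^ 2 + e₁ * e₃ + e₃ ^ 2) := by
    apply mul_left_cancel₀ (sub_ne_zero.mpr h13)
    linear_combination r1 - r3
  have hs : e₃ = -e₁ - e₂ := by
    apply mul_left_cancel₀ (sub_ne_zero.mpr h23)
    linear_combination (q13 - q12) / 4
  have hg3 : L.g₃ = 4 * e₁ * e₂ * e₃ := by
    rw [hs]
    linear_combination r1 - e₁ * q12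
  have hl : E.lam = 3 * E.b - 1 := by
    rw [hs] at a3
    linear_combination -a1 - a2 - a3
  have f1 : E.a * e₁ = -E.b := by linear_combination a1
  have f2 : E.a * e₂ = 1 - E.b := by linear_combination a2
  have f3 : E.a * e₃ = 2 * E.b - 1 := by linear_combination a3 + hl
  constructor
  · calc 3 * E.a ^ 2 * L.g₂
        = 12 * ((E.a * e₁) ^ 2 + E.a * e₁ * (E.a * e₂) + (E.a * e₂) ^ 2) := by rw [q12]; ring
      _ = _ := by rw [f1, f2, hl]; ring
  · calc 27 * E.a ^ 3 * L.g₃ = 108 * (E.a * e₁ * (E.a * e₂) * (E.a * e₃)) := by rw [hg3]; ring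
      _ = _ := by rw [f1, f2, f3, hl]; ring

/-- equal Legendre parameters force homothetic lattices -/
theorem hom (H : Half L ω₁ ω₂ ω₃) (H' : Half L' η₁ η₂ η₃) (E : Leg L ω₁ ω₂ ω₃)
    (E' : Leg L' η₁ η₂ η₃) (h : E.lam = E'.lam) :
    ∃ c : ℂ, c ≠ 0 ∧ Scl L L' c ∧ E'.a * c ^ 2 = E.a := by
  have ha := leg_a_ne E
  have ha' := leg_a_ne E'
  obtain ⟨c, hc⟩ := IsAlgClosed.exists_pow_nat_eq (E.a / E'.a) (n := 2) (by norm_num)
  have hca : E'.a * c ^ 2 = E.a := by rw [hc, mul_div_cancel₀ _ ha']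
  have hc0 : c ≠ 0 := by
    rintro rfl
    apply ha
    rw [← hca]
    simp
  obtain ⟨L'', hs⟩ := exists_scl L hc0
  obtain ⟨g2, g3⟩ := g_eq H E
  obtain ⟨g2', g3'⟩ := g_eq H' E'
  rw [h, ← g2', ← hca] at g2
  rw [h, ← g3', ← hca] at g3
  have k2 : L''.g₂ = L'.g₂ := by
    apply mul_left_cancel₀ (mul_ne_zero (three_ne_zero (α := ℂ)) (pow_ne_zero 2 ha'))
    rw [← g2]
    unfold PeriodPair.g₂
    rw [amscale_G hs hc0]
    ring
  have k3 : L''.g₃ = L'.g₃ := by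
    apply mul_left_cancel₀ (mul_ne_zero (show (27 : ℂ) ≠ 0 by norm_num) (pow_ne_zero 3 ha'))
    rw [← g3]
    unfold PeriodPair.g₃
    rw [amscale_G hs hc0]
    ring
  refine ⟨c, hc0, fun z => ?_, hca⟩
  rw [← lattice_eq_of_g k2 k3]
  exact hs z

end Pool.Agent.Lib.MP_4a1067_nt.Am
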