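import Mathlib
import Pool.Agent.Lib.MP_4a1067_nt.AmScale

/-! Product formulas for an isogeny of odd degree. -/

namespace Pool.Agent.Lib.MP_4a1067_nt.Am

open Filter Topology Polynomial

variable {L L' : PeriodPair} {ω₁ ω₂ ω₃ η₁ η₂ η₃ : ℂ} {ι : Type} [Fintype ι] {T : ι → ℂ}

/-- the duplication formula -/
lemma dbl_x (H : Half L ω₁ ω₂ ω₃) (E : Leg L ω₁ ω₂ ω₃) {z : ℂ} (h2 : z + z ∉ L.lattice) :
    E.x (z + z) * (4 * (E.x z * (E.x z - 1) * (E.x z - E.lam))) = (E.x z ^ 2 - E.lam) ^ 2 := by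
  have _ := H.n₁
  have hz : z ∉ L.lattice := fun h => h2 (add_mem h h)
  have hev : ∀ᶠ w in 𝓝[≠] z, E.x (z + w) * (E.x z * E.x w ^ 2 + E.x z ^ 2 * E.x w
      - 2 * (1 + E.lam) * E.x z * E.x w + E.lam * (E.x z + E.x w) + 2 * E.y z * E.y w)
      = (E.x z * E.x w - E.lam) ^ 2 := by
    filter_upwards [ev_notMem L z, ev_add_notMem L z z, ev_sub_notMem L z z] with w h1 h3 h4
    have a := E.prod_x hz h1 h3 h4
    have b := E.sub_x hz h1 h4
    unfold Leg.NN at b
    rw [← a, ← b]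
    ring
  have c1 : ContinuousAt E.x z := (E.an_x z hz).continuousAt
  have c2 : ContinuousAt E.y z := (E.an_y z hz).continuousAt
  have c3 : ContinuousAt (fun w => E.x (z + w)) z :=
    ContinuousAt.comp_of_eq (E.an_x _ h2).continuousAt (f := fun w => z + w) (by fun_prop) rfl
  have key := tendsto_nhds_unique_of_eventuallyEq (l := 𝓝[≠] z)
    (ContinuousAt.tendsto (f := fun w => E.x (z + w) * (E.x z * E.x w ^ 2 + E.x z ^ 2 * E.x w
      - 2 * (1 + E.lam) * E.x z * E.x w + E.lam * (E.x z + E.x w) + 2 * E.y z * E.y w))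
      (by fun_prop) |>.mono_left nhdsWithin_le_nhds)
    (ContinuousAt.tendsto (f := fun w => (E.x z * E.x w - E.lam) ^ 2) (by fun_prop)
      |>.mono_left nhdsWithin_le_nhds) hev
  linear_combination key - 2 * E.x (z + z) * E.curve z hz

/-- the representatives `0`, `T i`, `-T i` -/
def amveluRep (T : ι → ℂ) : Option (ι ⊕ ι) → ℂ
  | none => 0
  | some (Sum.inl i) => T i
  | some (Sum.inr i) => -T i

omit [Fintype ι] in
lemma amvelu_mem (hS : Sup L L' T) : ∀ k, amveluRep T k ∈ L'.lattice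
  | none => zero_mem _
  | some (Sum.inl i) => hS.mem i
  | some (Sum.inr i) => neg_mem (hS.mem i)

omit [Fintype ι] in
lemma amvelu_inj (hS : Sup L L' T) : ∀ k j, amveluRep T k - amveluRep T j ∈ L.lattice → k = j
  | none, none, _ => rfl
  | none, some (Sum.inl j), h => absurd (by simpa [amveluRep] using h) (hS.ne j)
  | none, some (Sum.inr j), h => absurd (by simpa [amveluRep] using h) (hS.ne j)
  | some (Sum.inl i), none, h => absurd (by simpa [amveluRep] using h) (hS.ne i)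
  | some (Sum.inr i), none, h => absurd (by simpa [amveluRep] using h) (hS.ne i)
  | some (Sum.inl i), some (Sum.inl j), h => by rw [hS.inj i j h]
  | some (Sum.inl i), some (Sum.inr j), h =>
    absurd (by simpa [amveluRep] using h) (hS.nadd i j)
  | some (Sum.inr i), some (Sum.inl j), h =>
    absurd (by simpa [amveluRep, add_comm] using neg_mem h) (hS.nadd i j)
  | some (Sum.inr i), some (Sum.inr j), h => by
    rw [hS.inj j i (by simpa [amveluRep, sub_eq_add_neg, add_comm] using h)]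

omit [Fintype ι] in
lemma amvelu_gen (hS : Sup L L' T) {z : ℂ} (hz : z ∈ L'.lattice) :
    ∃ k, z + amveluRep T k ∈ L.lattice := by
  rcases hS.gen z hz with h | ⟨i, h | h⟩
  · exact ⟨none, by simpa [amveluRep] using h⟩
  · exact ⟨some (Sum.inr i), by simpa [amveluRep, sub_eq_add_neg] using h⟩
  · exact ⟨some (Sum.inl i), h⟩

omit [Fintype ι] in
lemma amvelu_notMem (hS : Sup L L' T) {z t : ℂ} (hz : z ∉ L'.lattice) (ht : t ∈ L'.lattice) :
    z + t ∉ L.lattice := fun h => hz (by simpa using sub_mem (hS.le _ h) ht)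

lemma sup_velu (hS : Sup L L' T) (z : ℂ) :
    L'.weierstrassP z = L.weierstrassP z + ∑ i, (L.weierstrassP (z + T i)
      + L.weierstrassP (z - T i) - 2 * L.weierstrassP (T i)) := by
  let f : Option (ι ⊕ ι) × L.lattice → L'.lattice := fun km =>
    ⟨km.2 - amveluRep T km.1, sub_mem (hS.le _ km.2.2) (amvelu_mem hS _)⟩
  have hf : Function.Bijective f := by
    constructor
    · rintro ⟨k, m⟩ ⟨k', m'⟩ hk
      have e1 : (m : ℂ) - amveluRep T k = m' - amveluRep T k' := congrArg Subtype.val hk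
      have e2 : k = k' := amvelu_inj hS k k' (by
        rw [show amveluRep T k - amveluRep T k' = m - m' by linear_combination -e1]
        exact sub_mem m.2 m'.2)
      subst e2
      exact Prod.ext rfl (Subtype.ext (by linear_combination e1))
    · rintro ⟨l, hl⟩
      obtain ⟨k, hk⟩ := amvelu_gen hS hl
      exact ⟨(k, ⟨_, hk⟩), Subtype.ext (add_sub_cancel_right _ _)⟩
  have s1 := (Equiv.ofBijective f hf).hasSum_iff.mpr (L'.hasSum_weierstrassP z)
  have s2 := s1.prod_fiberwise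
    (g := fun k => L.weierstrassP (z + amveluRep T k) - L.weierstrassP (amveluRep T k))
    (fun k => by
      refine ((L.hasSum_weierstrassP (z + amveluRep T k)).sub
        (L.hasSum_weierstrassP (amveluRep T k))).congr_fun (fun m => ?_)
      simp only [Function.comp, Equiv.ofBijective_apply, f]
      rw [show z - (m - amveluRep T k) = z + amveluRep T k - m by ring,
        show ((m : ℂ) - amveluRep T k) ^ 2 = (amveluRep T k - m) ^ 2 by ring]
      ring)
  have h0 : L.weierstrassP 0 = 0 := (L.hasSum_weierstrassP 0).unique (by simp)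
  rw [s2.unique (hasSum_fintype _), Fintype.sum_option, Fintype.sum_sum_type,
    ← Finset.sum_add_distrib]
  simp only [amveluRep, add_zero, h0, sub_zero, PeriodPair.weierstrassP_neg, ← sub_eq_add_neg]
  congr 1
  exact Finset.sum_congr rfl fun i _ => by ring

omit [Fintype ι] in
lemma amvelu_num (N : ι → ℂ[X]) (hN : ∀ k, (N k).natDegree ≤ 2) (s : ι → ℂ) (I : Finset ι) :
    ∃ B : ℂ[X], B.natDegree ≤ 2 * I.card ∧ ∀ (t : ℂ) (S : ι → ℂ),
      (∀ k, S k * (t - s k) ^ 2 = (N k).eval t) →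
      (∑ k ∈ I, S k) * (∏ k ∈ I, (t - s k)) ^ 2 = B.eval t := by
  classical
  induction I using Finset.induction_on with
  | empty => exact ⟨0, by simp, by simp⟩
  | insert a I ha ih =>
    obtain ⟨B, hB, hB'⟩ := ih
    rw [Finset.card_insert_of_notMem ha]
    refine ⟨B * (X - C (s a)) ^ 2 + N a * (∏ k ∈ I, (X - C (s k))) ^ 2, ?_, ?_⟩
    · refine (natDegree_add_le _ _).trans (max_le ?_ ?_)
      · refine natDegree_mul_le.trans ?_
        rw [natDegree_pow, natDegree_X_sub_C]; omega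
      · refine natDegree_mul_le.trans ?_
        rw [natDegree_pow, natDegree_finsetProd_X_sub_C_eq_card]
        have := hN a
        omega
    · intro t S h
      rw [Finset.sum_insert ha, Finset.prod_insert ha]
      simp only [eval_add, eval_mul, eval_pow, eval_sub, eval_X, eval_C, eval_prod]
      rw [← hB' t S h, ← h a]
      ring

lemma amvelu_poly (hS : Sup L L' T) (E : Leg L ω₁ ω₂ ω₃) (E' : Leg L' η₁ η₂ η₃) :
    ∃ A : ℂ[X], A.Monic ∧ A.natDegree = 2 * Fintype.card ι + 1 ∧ ∀ z ∉ L'.lattice,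
      E.a / E'.a * E'.x z * (∏ i, (E.x z - E.x (T i))) ^ 2 = A.eval (E.x z) := by
  set s : ι → ℂ := fun k => E.x (T k) with hs
  obtain ⟨B, hB, hB'⟩ := amvelu_num (fun k => C (2 * s k - 0) * X ^ 2
    + C (2 * (s k ^ 2 - 2 * (1 + E.lam) * s k + E.lam)) * X + C (2 * E.lam * s k))
    (fun k => natDegree_quadratic_le) s Finset.univ
  rw [Finset.card_univ] at hB
  set c : ℂ := E.a / E'.a * E'.b - E.b - ∑ k, 2 * s k with hc
  set D : ℂ[X] := ∏ k, (X - C (s k)) with hD
  have hDm : D.Monic := monic_prod_X_sub_C _ _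
  have hDd : D.natDegree = Fintype.card ι := by
    rw [hD, natDegree_finsetProd_X_sub_C_eq_card, Finset.card_univ]
  have hm : ((X + C c) * D ^ 2).Monic := (monic_X_add_C c).mul (hDm.pow 2)
  have hd : ((X + C c) * D ^ 2).natDegree = 2 * Fintype.card ι + 1 := by
    rw [(monic_X_add_C c).natDegree_mul (hDm.pow 2), hDm.natDegree_pow, hDd, natDegree_X_add_C,
      add_comm]
  have hlt : B.natDegree < ((X + C c) * D ^ 2).natDegree := by omega
  refine ⟨(X + C c) * D ^ 2 + B, hm.add_of_left (degree_lt_degree hlt),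
    by rw [natDegree_add_eq_left_of_natDegree_lt hlt, hd], fun z hz => ?_⟩
  have v0 : E.a * ∑ i, (L.weierstrassP (z + T i) + L.weierstrassP (z - T i)
      - 2 * L.weierstrassP (T i)) = ∑ i, (E.x (z + T i) + E.x (z - T i)) - ∑ k, 2 * s k := by
    rw [Finset.mul_sum, ← Finset.sum_sub_distrib]
    refine Finset.sum_congr rfl fun i _ => ?_
    simp only [hs, E.x_def]
    ring
  have v1 : E.a / E'.a * E'.x z = E.x z + c + ∑ i, (E.x (z + T i) + E.x (z - T i)) := by
    rw [hc, E'.x_def, mul_add, ← mul_assoc, div_mul_cancel₀ _ (leg_a_ne E'), sup_velu hS, mul_add,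
      v0, E.x_def z]
    ring
  have v2 := hB' (E.x z) (fun k => E.x (z + T k) + E.x (z - T k)) (fun k => by
    have := E.sum_x (fun h => hz (hS.le _ h)) (hS.ne k) (amvelu_notMem hS hz (hS.mem k))
      (sub_eq_add_neg z (T k) ▸ amvelu_notMem hS hz (neg_mem (hS.mem k)))
    simp only [hs, eval_add, eval_mul, eval_C, eval_pow, eval_X]
    rw [this]
    unfold Leg.NN
    ring)
  rw [v1]
  simp only [eval_add, eval_mul, eval_pow, eval_X, eval_C, hD, eval_prod, eval_sub]
  rw [← v2]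
  ring

lemma amvelu_prod (hS : Sup L L' T) (E : Leg L ω₁ ω₂ ω₃) (E' : Leg L' η₁ η₂ η₃) {z w : ℂ}
    (hz : z ∉ L'.lattice) (hw : 2 * w ∉ L'.lattice) :
    E.a / E'.a * (E'.x z - E'.x w) * (∏ i, (E.x z - E.x (T i))) ^ 2
      = ∏ k, (E.x z - E.x (w + amveluRep T k)) := by
  classical
  obtain ⟨A, hA, hAd, hAe⟩ := amvelu_poly hS E E'
  have hw' : w ∉ L'.lattice := fun h0 => hw (two_mul w ▸ add_mem h0 h0)
  have hc : Fintype.card (Option (ι ⊕ ι)) = 2 * Fintype.card ι + 1 := by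
    rw [Fintype.card_option, Fintype.card_sum, two_mul]
  set D : ℂ[X] := ∏ k, (X - C (E.x (T k))) with hD
  have hDe : ∀ t, D.eval t = ∏ i, (t - E.x (T i)) := fun t => by
    simp only [hD, eval_prod, eval_sub, eval_X, eval_C]
  have hDd : D.natDegree = Fintype.card ι := by
    rw [hD, natDegree_finsetProd_X_sub_C_eq_card, Finset.card_univ]
  have hlt : (C (E.a / E'.a * E'.x w) * D ^ 2).natDegree < A.natDegree := by
    refine lt_of_le_of_lt (natDegree_C_mul_le _ _) (lt_of_le_of_lt natDegree_pow_le ?_)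
    omega
  have hM : (A - C (E.a / E'.a * E'.x w) * D ^ 2).Monic := hA.sub_of_left (degree_lt_degree hlt)
  have hMd : (A - C (E.a / E'.a * E'.x w) * D ^ 2).natDegree = 2 * Fintype.card ι + 1 := by
    rw [natDegree_sub_eq_left_of_natDegree_lt hlt, hAd]
  set R : ℂ[X] := ∏ k, (X - C (E.x (w + amveluRep T k))) with hR
  have hRm : R.Monic := monic_prod_X_sub_C _ _
  have hRd : R.natDegree = 2 * Fintype.card ι + 1 := by
    rw [hR, natDegree_finsetProd_X_sub_C_eq_card, Finset.card_univ, hc]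
  have heq : A - C (E.a / E'.a * E'.x w) * D ^ 2 = R := by
    refine eq_of_degree_sub_lt_of_eval_index_eq Finset.univ
      (v := fun k => E.x (w + amveluRep T k)) ?_ ?_ ?_
    · intro k _ j _ hkj
      rcases E.inj _ (amvelu_notMem hS hw' (amvelu_mem hS k)) _
        (amvelu_notMem hS hw' (amvelu_mem hS j)) hkj with h1 | h1
      · exact amvelu_inj hS k j (by simpa using h1)
      · refine absurd ?_ (amvelu_notMem hS hw (add_mem (amvelu_mem hS k) (amvelu_mem hS j)))
        convert h1 using 1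
        ring
    · rw [Finset.card_univ, hc, ← hMd, ← degree_eq_natDegree hM.ne_zero]
      refine degree_sub_lt_left ?_ hM.ne_zero (by rw [hM.leadingCoeff, hRm.leadingCoeff])
      rw [degree_eq_natDegree hM.ne_zero, degree_eq_natDegree hRm.ne_zero, hMd, hRd]
    · intro k hk
      have n1 : w + amveluRep T k ∉ L'.lattice := fun h0 =>
        hw' (by simpa using sub_mem h0 (amvelu_mem hS k))
      rw [eval_sub, ← hAe _ n1, E'.x_per _ _ (amvelu_mem hS k), eval_mul, eval_C, eval_pow, hDe,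
        sub_self, hR, eval_prod]
      exact (Finset.prod_eq_zero hk (by simp)).symm
  have := congrArg (eval (E.x z)) heq
  rw [eval_sub, ← hAe _ hz, eval_mul, eval_C, eval_pow, hDe, hR, eval_prod] at this
  simp only [eval_sub, eval_X, eval_C] at this
  rw [← this]
  ring

theorem sup_half (hS : Sup L L' T) (E : Leg L ω₁ ω₂ ω₃) (E' : Leg L' η₁ η₂ η₃) {z ω : ℂ}
    (hz : z ∉ L'.lattice) (n : ω ∉ L'.lattice) (t : ω + ω ∈ L.lattice) :
    (E'.x z - E'.x ω) * (∏ i, (E.x z - E.x (T i))) ^ 2 * E.a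
      = E'.a * ((E.x z - E.x ω) * (∏ i, (E.x z - E.x (ω + T i))) ^ 2) := by
  have c1 : ContinuousAt E'.x ω := (E'.an_x _ n).continuousAt
  have c2 : ContinuousAt (fun w => ∏ k, (E.x z - E.x (w + amveluRep T k))) ω := by
    refine tendsto_finsetProd _ fun k _ => ?_
    have c3 : ContinuousAt (fun w => E.x (w + amveluRep T k)) ω :=
      ContinuousAt.comp_of_eq (E.an_x _ (amvelu_notMem hS n (amvelu_mem hS k))).continuousAt
        (f := fun w => w + amveluRep T k) (by fun_prop) rfl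
    exact (continuousAt_const.sub c3).tendsto
  have key := tendsto_nhds_unique_of_eventuallyEq (l := 𝓝[≠] ω)
    (ContinuousAt.tendsto (f := fun w => E.a / E'.a * (E'.x z - E'.x w)
      * (∏ i, (E.x z - E.x (T i))) ^ 2) (by fun_prop) |>.mono_left nhdsWithin_le_nhds)
    (c2.tendsto.mono_left nhdsWithin_le_nhds)
    ((ev_mul_notMem (L := L') two_ne_zero ω).mono fun w hw => amvelu_prod hS E E' hz hw)
  have e : ∀ i, E.x (ω + -T i) = E.x (ω + T i) := fun i => E.x_congr' (by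
    convert t using 1
    ring)
  rw [Fintype.prod_option, Fintype.prod_sum_type] at key
  simp only [amveluRep, add_zero, e] at key
  rw [sq (∏ i, (E.x z - E.x (ω + T i))), ← key]
  have := leg_a_ne E'
  field_simp

lemma amvelu_sq (f : ι → ℂ) (u : ℂ) : (∏ i, (u - f i)) ^ 2 = (∏ i, (f i - u)) ^ 2 := by
  rw [← Finset.prod_pow, ← Finset.prod_pow]
  exact Finset.prod_congr rfl fun i _ => by ring

theorem sup_formulas (hS : Sup L L' T) (H : Half L ω₁ ω₂ ω₃) (H' : Half L' ω₁ ω₂ ω₃)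
    (E : Leg L ω₁ ω₂ ω₃) (E' : Leg L' ω₁ ω₂ ω₃) :
    (∀ i, E.x (T i) ≠ 0 ∧ E.x (T i) ≠ 1 ∧ E.x (T i) ≠ E.lam) ∧
    E'.a * ∏ i, (E.x (T i) - E.lam) ^ 2 = E.a * ∏ i, (E.x (T i) * (E.x (T i) - 1)) ^ 2 ∧
    E'.lam * ∏ i, (E.x (T i) - E.lam) ^ 4
      = E.lam ^ (2 * Fintype.card ι + 1) * ∏ i, (E.x (T i) - 1) ^ 4 ∧
    (1 - E'.lam) * ∏ i, (E.x (T i) - E.lam) ^ 4
      = (1 - E.lam) ^ (2 * Fintype.card ι + 1) * ∏ i, E.x (T i) ^ 4 ∧
    ∀ z ∉ L'.lattice, E'.x z * ∏ i, ((E.x z - E.x (T i)) * (E.x (T i) - E.lam)) ^ 2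
      = E.x z * ∏ i, ((E.x z * E.x (T i) - E.lam) * (E.x (T i) - 1)) ^ 2 := by
  have ne : ∀ {ω : ℂ}, ω ∉ L'.lattice → ∀ i, E.x ω - E.x (T i) ≠ 0 := fun {ω} n i =>
    E.x_ne (fun h => n (hS.le _ h)) (hS.ne i) (amvelu_notMem hS n (hS.mem i))
      (sub_eq_add_neg ω (T i) ▸ amvelu_notMem hS n (neg_mem (hS.mem i)))
  have n0 : ∀ i, E.x (T i) ≠ 0 := fun i h => ne H'.n₁ i (by rw [E.x₁, h, sub_self])
  have n1 : ∀ i, E.x (T i) ≠ 1 := fun i h => ne H'.n₂ i (by rw [E.x₂, h, sub_self])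
  have nl : ∀ i, E.x (T i) ≠ E.lam := fun i h => ne H'.n₃ i (by rw [E.x₃, h, sub_self])
  have a1 : ∀ i, E.x (ω₁ + T i) * E.x (T i) = E.lam := fun i => by
    have a := E.add_x H.n₁ (hS.ne i) (amvelu_notMem hS H'.n₁ (hS.mem i))
    rw [E.x₁, E.y_half H.t₁] at a
    unfold Leg.NN at a
    apply mul_right_cancel₀ (n0 i)
    linear_combination a
  have a2 : ∀ i, E.x (ω₂ + T i) * (E.x (T i) - 1) = E.x (T i) - E.lam := fun i => by
    have a := E.add_x H.n₂ (hS.ne i) (amvelu_notMem hS H'.n₂ (hS.mem i))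
    rw [E.x₂, E.y_half H.t₂] at a
    unfold Leg.NN at a
    apply mul_right_cancel₀ (sub_ne_zero.mpr (n1 i))
    linear_combination a
  have r1 : ∀ u : ℂ, (∏ i, (u - E.x (ω₁ + T i))) * ∏ i, E.x (T i)
      = ∏ i, (u * E.x (T i) - E.lam) := fun u => by
    rw [← Finset.prod_mul_distrib]
    exact Finset.prod_congr rfl fun i _ => by linear_combination -a1 i
  have r2 : (∏ i, (E.lam - E.x (ω₂ + T i))) * ∏ i, (E.x (T i) - 1)
      = (E.lam - 1) ^ Fintype.card ι * ∏ i, E.x (T i) := by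
    rw [← Finset.prod_mul_distrib, ← Finset.card_univ, ← Finset.prod_const,
      ← Finset.prod_mul_distrib]
    exact Finset.prod_congr rfl fun i _ => by linear_combination -a2 i
  have r3 : ∏ i, (E.lam * E.x (T i) - E.lam) = E.lam ^ Fintype.card ι * ∏ i, (E.x (T i) - 1) := by
    rw [← Finset.card_univ, ← Finset.prod_const, ← Finset.prod_mul_distrib]
    exact Finset.prod_congr rfl fun i _ => by ring
  have p0 : ∏ i, E.x (T i) ≠ 0 := Finset.prod_ne_zero_iff.mpr fun i _ => n0 i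
  have p1 : ∏ i, (E.x (T i) - 1) ≠ 0 :=
    Finset.prod_ne_zero_iff.mpr fun i _ => sub_ne_zero.mpr (n1 i)
  have ha := leg_a_ne E
  have f1 := sup_half hS E E' H'.n₂ H'.n₁ H.t₁
  have f3 := sup_half hS E E' H'.n₃ H'.n₂ H.t₂
  have r0 := r1 1
  rw [E.x₁, E.x₂, E'.x₁, E'.x₂, amvelu_sq] at f1
  rw [E.x₂, E.x₃, E'.x₂, E'.x₃, amvelu_sq] at f3
  simp only [one_mul] at r0
  have g1 : E'.a * (∏ i, (E.x (T i) - E.lam)) ^ 2
      = E.a * ((∏ i, E.x (T i)) * ∏ i, (E.x (T i) - 1)) ^ 2 := by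
    rw [← r0]
    linear_combination -(∏ i, E.x (T i)) ^ 2 * f1
  have g4 : ∀ z ∉ L'.lattice,
      E'.x z * ((∏ i, (E.x z - E.x (T i))) * ∏ i, (E.x (T i) - E.lam)) ^ 2
      = E.x z * ((∏ i, (E.x z * E.x (T i) - E.lam)) * ∏ i, (E.x (T i) - 1)) ^ 2 := fun z hz => by
    have f := sup_half hS E E' hz H'.n₁ H.t₁
    rw [E.x₁, E'.x₁] at f
    rw [← r1]
    apply mul_left_cancel₀ ha
    linear_combination (∏ i, (E.x (T i) - E.lam)) ^ 2 * f
      + E.x z * (∏ i, (E.x z - E.x (ω₁ + T i))) ^ 2 * g1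
  simp only [Finset.prod_pow, Finset.prod_mul_distrib]
  refine ⟨fun i => ⟨n0 i, n1 i, nl i⟩, g1, ?_, ?_, g4⟩
  · have g := g4 ω₃ H'.n₃
    rw [E.x₃, E'.x₃, r3, mul_pow, amvelu_sq] at g
    linear_combination g
  · have e : (1 - E.lam) ^ (2 * Fintype.card ι + 1)
        = (1 - E.lam) * ((E.lam - 1) ^ Fintype.card ι) ^ 2 := by
      rw [← pow_mul, mul_comm _ 2, pow_succ, pow_mul, pow_mul, mul_comm]
      congr 2
      ring
    have r := congrArg (· ^ 2) r2
    rw [e]
    apply mul_left_cancel₀ ha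
    linear_combination -(∏ i, (E.x (T i) - E.lam)) ^ 2 * f3
      + (1 - E.lam) * (∏ i, (E.lam - E.x (ω₂ + T i))) ^ 2 * g1
      + E.a * (1 - E.lam) * (∏ i, E.x (T i)) ^ 2 * r

end Pool.Agent.Lib.MP_4a1067_nt.Am
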