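import Mathlib
import Pool.Agent.Lib.MP_4a1067_nt.AmExt
import Pool.Agent.Lib.MP_4a1067_nt.AmLat
import Pool.Agent.Lib.MP_4a1067_nt.AmVelu

/-! Torsion points at a place of good reduction. -/

namespace Pool.Agent.Lib.MP_4a1067_nt.Am

open IsLocalRing

variable {L L' : PeriodPair} {ω₁ ω₂ ω₃ Q Q' : ℂ} {n h : ℕ}

lemma amtor_facts {V : ValuationSubring ℂ} {l : ℂ} (G : Good V.toSubring n l) :
    l ∈ V ∧ (2 : ResidueField V) ≠ 0 ∧ (n : ResidueField V) ≠ 0 ∧ rd V l ≠ 0 ∧ rd V l ≠ 1 := by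
  have a := un_val.mp G.two
  have b := un_val.mp G.n
  have c := un_val.mp G.lam
  have d := un_val.mp G.lam1
  rw [rd_two] at a
  rw [rd_natCast] at b
  rw [rd_sub (one_mem _) c.1, rd_one] at d
  exact ⟨c.1, a.2, b.2, c.2, fun e => d.2 (by rw [e, sub_self])⟩

lemma amtor_notKr (H : Half L ω₁ ω₂ ω₃) (E : Leg L ω₁ ω₂ ω₃) {V : ValuationSubring ℂ}
    (G : Good V.toSubring n E.lam) (h1 : ((2 * n : ℕ) : ℂ) * Q ∈ L.lattice)
    (h0 : Q ∉ L.lattice) : ¬ E.Kr V Q := by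
  obtain ⟨hl, h2, hn, -, -⟩ := amtor_facts G
  intro hq
  refine h0 (E.Kr_torsion H hl hq (n := 2 * n) ?_ h1)
  push_cast
  exact mul_ne_zero h2 hn

theorem tor_mem (H : Half L ω₁ ω₂ ω₃) (E : Leg L ω₁ ω₂ ω₃) {A : Subring ℂ} (hA : IC A)
    (G : Good A n E.lam) (h1 : ((2 * n : ℕ) : ℂ) * Q ∈ L.lattice) (h0 : Q ∉ L.lattice) :
    E.x Q ∈ A :=
  hA.mem_of_forall_val fun _ hV => (E.not_Kr.mp (amtor_notKr H E (G.mono hV) h1 h0)).2

theorem tor_un (H : Half L ω₁ ω₂ ω₃) (E : Leg L ω₁ ω₂ ω₃) {A : Subring ℂ} (hA : IC A)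
    (G : Good A n E.lam) (h1 : ((2 * n : ℕ) : ℂ) * Q ∈ L.lattice) (h0 : Q ∉ L.lattice)
    (h1' : ((2 * n : ℕ) : ℂ) * Q' ∈ L.lattice) (h0' : Q' ∉ L.lattice)
    (hs : Q - Q' ∉ L.lattice) (ha : Q + Q' ∉ L.lattice) : Un A (E.x Q - E.x Q') := by
  refine ⟨E.x_ne h0 h0' ha hs, sub_mem (tor_mem H E hA G h1 h0) (tor_mem H E hA G h1' h0'),
    hA.mem_of_forall_val fun V hV => ?_⟩
  have G' := G.mono hV
  obtain ⟨hl, h2, -, l0, l1⟩ := amtor_facts G'
  have k := amtor_notKr H E G' h1 h0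
  have k' := amtor_notKr H E G' h1' h0'
  have m := (E.not_Kr.mp k).2
  have m' := (E.not_Kr.mp k').2
  refine inv_mem_of_rd_ne (sub_mem m m') ?_
  rw [rd_sub m m', sub_ne_zero]
  intro e
  rcases E.Kr_of_rd_eq hl h2 l0 l1 k k' e with q | q
  · exact amtor_notKr H E G' (by rw [mul_sub]; exact sub_mem h1 h1') hs q
  · exact amtor_notKr H E G' (by rw [mul_add]; exact add_mem h1 h1') ha q

lemma amtor_half {N : ℕ} (hN : Odd N) {T ω : ℂ} (hT : (N : ℂ) * T ∈ L.lattice)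
    (n0 : ω ∉ L.lattice) (t : ω + ω ∈ L.lattice) : T - ω ∉ L.lattice ∧ T + ω ∉ L.lattice := by
  have o := odd_mul_half hN t
  constructor
  · intro q
    apply n0
    have := sub_mem (sub_mem hT (nat_mul_mem q N)) o
    rwa [show (N : ℂ) * T - N * (T - ω) - (N * ω - ω) = ω by ring] at this
  · intro q
    apply n0
    have := sub_mem (sub_mem (nat_mul_mem q N) hT) o
    rwa [show (N : ℂ) * (T + ω) - N * T - (N * ω - ω) = ω by ring] at this

lemma amtor_two_mul {N : ℕ} (hd : N ∣ n) {T : ℂ} (hT : (N : ℂ) * T ∈ L.lattice) :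
    ((2 * n : ℕ) : ℂ) * T ∈ L.lattice := by
  obtain ⟨e, rfl⟩ := hd
  have := nat_mul_mem hT (2 * e)
  rwa [show ((2 * e : ℕ) : ℂ) * (N * T) = ((2 * (N * e) : ℕ) : ℂ) * T by push_cast; ring] at this

lemma amtor_un_half (H : Half L ω₁ ω₂ ω₃) (E : Leg L ω₁ ω₂ ω₃) {A : Subring ℂ} (hA : IC A)
    (G : Good A n E.lam) {N : ℕ} (hN : Odd N) (hd : N ∣ n) {T ω : ℂ}
    (hT : (N : ℂ) * T ∈ L.lattice) (h0 : T ∉ L.lattice) (n0 : ω ∉ L.lattice)
    (t : ω + ω ∈ L.lattice) : Un A (E.x T - E.x ω) := by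
  have o := amtor_half hN hT n0 t
  refine tor_un H E hA G (amtor_two_mul hd hT) h0 ?_ n0 o.1 o.2
  have := nat_mul_mem t n
  rwa [show (n : ℂ) * (ω + ω) = ((2 * n : ℕ) : ℂ) * ω by push_cast; ring] at this

lemma amtor_un3 (H : Half L ω₁ ω₂ ω₃) (E : Leg L ω₁ ω₂ ω₃) {A : Subring ℂ} (hA : IC A)
    (G : Good A n E.lam) {N : ℕ} (hN : Odd N) (hd : N ∣ n) {T : ℂ}
    (hT : (N : ℂ) * T ∈ L.lattice) (h0 : T ∉ L.lattice) :
    Un A (E.x T) ∧ Un A (E.x T - 1) ∧ Un A (E.x T - E.lam) := by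
  have a := amtor_un_half H E hA G hN hd hT h0 H.n₁ H.t₁
  have b := amtor_un_half H E hA G hN hd hT h0 H.n₂ H.t₂
  have c := amtor_un_half H E hA G hN hd hT h0 H.n₃ H.t₃
  rw [E.x₁, sub_zero] at a
  rw [E.x₂] at b
  rw [E.x₃] at c
  exact ⟨a, b, c⟩

/-- a cyclic superlattice gives algebraic isogeny data at every good place -/
theorem lat (H : Half L ω₁ ω₂ ω₃) (E : Leg L ω₁ ω₂ ω₃) (E' : Leg L' ω₁ ω₂ ω₃)
    (hc : Cyc L L' Q (2 * h + 1)) (hh : 1 ≤ h) {k : Type*} [CommRing k] (P : Pl ℂ k)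
    (hd : 2 * h + 1 ∣ n) (G : Good P.A n E.lam) :
    Good P.A n E'.lam ∧ Un P.A (E'.a / E.a) ∧
      Isog h (P.ev E.lam) (P.ev E'.lam) (P.ev (E'.a / E.a)) (fun j => P.ev (E.x (j * Q))) := by
  have hN : Odd (2 * h + 1) := odd_two_mul_add_one h
  have tj : ∀ j : ℕ, ((2 * h + 1 : ℕ) : ℂ) * ((j : ℂ) * Q) ∈ L.lattice := fun j => by
    rw [mul_left_comm]; exact nat_mul_mem hc.ord.mem j
  have nj : ∀ j : ℕ, 0 < j → j < 2 * h + 1 → (j : ℂ) * Q ∉ L.lattice := fun j h0 h1 =>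
    hc.ord.notMem h0 h1
  have un : ∀ j : ℕ, 0 < j → j < 2 * h + 1 → Un P.A (E.x ((j : ℂ) * Q)) ∧
      Un P.A (E.x ((j : ℂ) * Q) - 1) ∧ Un P.A (E.x ((j : ℂ) * Q) - E.lam) := fun j h0 h1 =>
    amtor_un3 H E P.ic G hN hd (tj j) (nj j h0 h1)
  have ur : ∀ j ∈ Finset.range h, Un P.A (E.x (((j + 1 : ℕ) : ℂ) * Q)) ∧
      Un P.A (E.x (((j + 1 : ℕ) : ℂ) * Q) - 1) ∧
      Un P.A (E.x (((j + 1 : ℕ) : ℂ) * Q) - E.lam) := fun j hj =>
    un (j + 1) (by omega) (by have := Finset.mem_range.mp hj; omega)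
  obtain ⟨-, f2, f3, f4, -⟩ := sup_formulas hc.sup H (hc.half hN H) E E'
  rw [Fin.prod_univ_eq_prod_range (fun j => (E.x (((j + 1 : ℕ) : ℂ) * Q) - E.lam) ^ 2) h,
    Fin.prod_univ_eq_prod_range
      (fun j => (E.x (((j + 1 : ℕ) : ℂ) * Q) * (E.x (((j + 1 : ℕ) : ℂ) * Q) - 1)) ^ 2) h] at f2
  rw [Fin.prod_univ_eq_prod_range (fun j => (E.x (((j + 1 : ℕ) : ℂ) * Q) - E.lam) ^ 4) h,
    Fin.prod_univ_eq_prod_range (fun j => (E.x (((j + 1 : ℕ) : ℂ) * Q) - 1) ^ 4) h,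
    Fintype.card_fin] at f3
  rw [Fin.prod_univ_eq_prod_range (fun j => (E.x (((j + 1 : ℕ) : ℂ) * Q) - E.lam) ^ 4) h,
    Fin.prod_univ_eq_prod_range (fun j => E.x (((j + 1 : ℕ) : ℂ) * Q) ^ 4) h,
    Fintype.card_fin] at f4
  have g2 : E'.a / E.a * ∏ j ∈ Finset.range h, (E.x (((j + 1 : ℕ) : ℂ) * Q) - E.lam) ^ 2
      = ∏ j ∈ Finset.range h,
        (E.x (((j + 1 : ℕ) : ℂ) * Q) * (E.x (((j + 1 : ℕ) : ℂ) * Q) - 1)) ^ 2 := by
    rw [div_mul_eq_mul_div, f2, mul_div_cancel_left₀ _ (leg_a_ne E)]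
  have pb : ∀ e : ℕ, Un P.A (∏ j ∈ Finset.range h, (E.x (((j + 1 : ℕ) : ℂ) * Q) - E.lam) ^ e) :=
    fun e => Un.prod _ _ fun j hj => (ur j hj).2.2.pow e
  have p1 : Un P.A (∏ j ∈ Finset.range h, (E.x (((j + 1 : ℕ) : ℂ) * Q) - 1) ^ 4) :=
    Un.prod _ _ fun j hj => (ur j hj).2.1.pow 4
  have p0 : Un P.A (∏ j ∈ Finset.range h, E.x (((j + 1 : ℕ) : ℂ) * Q) ^ 4) :=
    Un.prod _ _ fun j hj => (ur j hj).1.pow 4
  have p2 : Un P.A (∏ j ∈ Finset.range h,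
      (E.x (((j + 1 : ℕ) : ℂ) * Q) * (E.x (((j + 1 : ℕ) : ℂ) * Q) - 1)) ^ 2) :=
    Un.prod _ _ fun j hj => ((ur j hj).1.mul (ur j hj).2.1).pow 2
  have ul : Un P.A E'.lam := Un.of_eq f3 (pb 4) ((G.lam.pow _).mul p1)
  have ul1 : Un P.A (1 - E'.lam) := Un.of_eq f4 (pb 4) ((G.lam1.pow _).mul p0)
  have ua : Un P.A (E'.a / E.a) := Un.of_eq g2 (pb 2) p2
  have hl := G.lam.mem
  have o1 : (1 : ℂ) ∈ P.A := one_mem _
  have o2 : (2 : ℂ) ∈ P.A := G.two.mem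
  have o4 : (4 : ℂ) ∈ P.A := by simp
  have eb : ∀ e : ℕ, P.ev (∏ j ∈ Finset.range h, (E.x (((j + 1 : ℕ) : ℂ) * Q) - E.lam) ^ e)
      = ∏ j ∈ Finset.range h, (P.ev (E.x (((j + 1 : ℕ) : ℂ) * Q)) - P.ev E.lam) ^ e := fun e => by
    rw [P.ev_prod _ _ fun j hj => ((ur j hj).2.2.pow e).mem]
    refine Finset.prod_congr rfl fun j hj => ?_
    rw [P.ev_pow (ur j hj).2.2.mem, P.ev_sub (ur j hj).1.mem hl]
  refine ⟨⟨G.two, G.n, ul, ul1⟩, ua, ?_, ?_, ?_, ?_, ?_, ?_, ?_, ?_, ?_, ?_⟩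
  · rw [← P.ev_two]; exact P.isUnit_ev G.two
  · exact fun j hj => P.isUnit_ev (ur j (Finset.mem_range.mpr hj)).1
  · intro j hj
    have u := ur j (Finset.mem_range.mpr hj)
    have := P.isUnit_ev u.2.1
    rwa [P.ev_sub u.1.mem o1, P.ev_one] at this
  · intro j hj
    have u := ur j (Finset.mem_range.mpr hj)
    have := P.isUnit_ev u.2.2
    rwa [P.ev_sub u.1.mem hl] at this
  · intro j hj
    have u : Un P.A (E.x (((j + 2 : ℕ) : ℂ) * Q) - E.x (((1 : ℕ) : ℂ) * Q)) := by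
      refine tor_un H E P.ic G (amtor_two_mul hd (tj _)) (nj _ (by omega) (by omega))
        (amtor_two_mul hd (tj _)) (nj _ (by omega) (by omega)) ?_ ?_
      · rw [show ((j + 2 : ℕ) : ℂ) * Q - ((1 : ℕ) : ℂ) * Q = ((j + 1 : ℕ) : ℂ) * Q by
          push_cast; ring]
        exact nj _ (by omega) (by omega)
      · rw [show ((j + 2 : ℕ) : ℂ) * Q + ((1 : ℕ) : ℂ) * Q = ((j + 3 : ℕ) : ℂ) * Q by
          push_cast; ring]
        exact nj _ (by omega) (by omega)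
    have := P.isUnit_ev u
    rwa [P.ev_sub (un _ (by omega) (by omega)).1.mem (un _ (by omega) (by omega)).1.mem] at this
  · have e2 : ((1 : ℕ) : ℂ) * Q + ((1 : ℕ) : ℂ) * Q = ((2 : ℕ) : ℂ) * Q := by push_cast; ring
    have e := dbl_x H E (z := ((1 : ℕ) : ℂ) * Q) (by rw [e2]; exact nj _ (by omega) (by omega))
    rw [e2] at e
    have m1 := (un 1 (by omega) (by omega)).1.mem
    have m2 := (un 2 (by omega) (by omega)).1.mem
    have := congrArg P.ev e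
    simp (disch := repeat' (first | assumption | with_reducible apply pow_mem | with_reducible apply mul_mem | with_reducible apply add_mem | with_reducible apply sub_mem)) only
      [P.ev_pow, P.ev_sub, P.ev_mul, P.ev_one, P.ev_four] at this
    exact this
  · intro j hj
    have e1 : ((j + 2 : ℕ) : ℂ) * Q - ((1 : ℕ) : ℂ) * Q = ((j + 1 : ℕ) : ℂ) * Q := by
      push_cast; ring
    have e3 : ((j + 2 : ℕ) : ℂ) * Q + ((1 : ℕ) : ℂ) * Q = ((j + 3 : ℕ) : ℂ) * Q := by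
      push_cast; ring
    have e := E.sum_x (z := ((j + 2 : ℕ) : ℂ) * Q) (w := ((1 : ℕ) : ℂ) * Q)
      (nj _ (by omega) (by omega)) (nj _ (by omega) (by omega))
      (by rw [e3]; exact nj _ (by omega) (by omega))
      (by rw [e1]; exact nj _ (by omega) (by omega))
    rw [e1, e3] at e
    unfold Leg.NN at e
    have m0 := (un 1 (by omega) (by omega)).1.mem
    have m1 := (un (j + 1) (by omega) (by omega)).1.mem
    have m2 := (un (j + 2) (by omega) (by omega)).1.mem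
    have m3 := (un (j + 3) (by omega) (by omega)).1.mem
    have := congrArg P.ev e
    simp (disch := repeat' (first | assumption | with_reducible apply pow_mem | with_reducible apply mul_mem | with_reducible apply add_mem | with_reducible apply sub_mem)) only
      [P.ev_pow, P.ev_sub, P.ev_mul, P.ev_add, P.ev_one, P.ev_two] at this
    exact this
  · refine congrArg P.ev (E.x_congr' ?_)
    have := hc.ord.mem
    rwa [show ((2 * h + 1 : ℕ) : ℂ) * Q = ((h + 1 : ℕ) : ℂ) * Q + (h : ℂ) * Q by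
      push_cast; ring] at this
  · have := congrArg P.ev f3
    rw [P.ev_mul ul.mem (pb 4).mem, P.ev_mul (pow_mem hl _) p1.mem, eb, P.ev_pow hl,
      P.ev_prod _ _ fun j hj => ((ur j hj).2.1.pow 4).mem] at this
    refine this.trans (congrArg _ (Finset.prod_congr rfl fun j hj => ?_))
    rw [P.ev_pow (ur j hj).2.1.mem, P.ev_sub (ur j hj).1.mem o1, P.ev_one]
  · have := congrArg P.ev g2
    rw [P.ev_mul ua.mem (pb 2).mem, eb,
      P.ev_prod _ _ fun j hj => (((ur j hj).1.mul (ur j hj).2.1).pow 2).mem] at this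
    refine this.trans (Finset.prod_congr rfl fun j hj => ?_)
    rw [P.ev_pow ((ur j hj).1.mul (ur j hj).2.1).mem, P.ev_mul (ur j hj).1.mem (ur j hj).2.1.mem,
      P.ev_sub (ur j hj).1.mem o1, P.ev_one]

lemma amtor_A (H : Half L ω₁ ω₂ ω₃) (E : Leg L ω₁ ω₂ ω₃) {V : ValuationSubring ℂ}
    (hl : E.lam ∈ V) (hh : 1 ≤ h) {m c : ResidueField V} {s : ℕ → ResidueField V}
    (I : Isog h (rd V E.lam) m c s) {z : ℂ} (hz : ¬ E.Kr V z) (h1 : rd V (E.x z) = s 1) :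
    ∀ k ≤ h, ¬ E.Kr V (((k + 1 : ℕ) : ℂ) * z) ∧
      rd V (E.x (((k + 1 : ℕ) : ℂ) * z)) = s (k + 1) := by
  obtain ⟨n0, m0⟩ := E.not_Kr.mp hz
  have o1 : (1 : ℂ) ∈ V := one_mem _
  have o2 : (2 : ℂ) ∈ V := two_mem
  have o4 : (4 : ℂ) ∈ V := four_mem
  intro k
  induction k using Nat.twoStepInduction with
  | zero =>
    intro _
    rw [show ((0 + 1 : ℕ) : ℂ) * z = z by simp]
    exact ⟨hz, h1⟩
  | one =>
    intro _
    have u := I.unit_dbl hh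
    have r : rd V (4 * (E.x z * (E.x z - 1) * (E.x z - E.lam)))
        = 4 * (s 1 * (s 1 - 1) * (s 1 - rd V E.lam)) := by
      simp (disch := repeat' (first | assumption | with_reducible apply pow_mem | with_reducible apply mul_mem | with_reducible apply add_mem | with_reducible apply sub_mem)) only
        [rd_sub, rd_mul, rd_one, rd_four, h1]
    have h2 : z + z ∉ L.lattice := by
      intro q
      have e := E.curve z n0
      rw [E.y_half q] at e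
      rw [← e, zero_pow two_ne_zero, mul_zero, rd_zero] at r
      exact u.ne_zero r.symm
    have e := dbl_x H E h2
    rw [show ((1 + 1 : ℕ) : ℂ) * z = z + z by push_cast; ring]
    have mb : 4 * (E.x z * (E.x z - 1) * (E.x z - E.lam)) ∈ V := by
      repeat' (first | assumption | with_reducible apply pow_mem | with_reducible apply mul_mem | with_reducible apply add_mem | with_reducible apply sub_mem)
    have m2 : E.x (z + z) ∈ V := mem_of_mul_mem e (pow_mem (sub_mem (pow_mem m0 2) hl) 2) mb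
      (by rw [r]; exact u.ne_zero)
    refine ⟨E.not_Kr.mpr ⟨h2, m2⟩, u.mul_right_cancel ?_⟩
    have := congrArg (rd V) e
    rw [rd_mul m2 mb, r, rd_pow (sub_mem (pow_mem m0 2) hl), rd_sub (pow_mem m0 2) hl,
      rd_pow m0, h1] at this
    rw [this]
    exact I.dbl.symm
  | more k ih1 ih2 =>
    intro hk
    obtain ⟨k1, r1⟩ := ih1 (by omega)
    obtain ⟨k2, r2⟩ := ih2 (by omega)
    obtain ⟨n1, m1⟩ := E.not_Kr.mp k1
    obtain ⟨n2, m2⟩ := E.not_Kr.mp k2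
    have u := (I.ud k (by omega)).pow 2
    have e1 : ((k + 1 + 1 : ℕ) : ℂ) * z - z = ((k + 1 : ℕ) : ℂ) * z := by push_cast; ring
    have e3 : ((k + 1 + 1 : ℕ) : ℂ) * z + z = ((k + 2 + 1 : ℕ) : ℂ) * z := by push_cast; ring
    have r : rd V ((E.x (((k + 1 + 1 : ℕ) : ℂ) * z) - E.x z) ^ 2) = (s (k + 2) - s 1) ^ 2 := by
      rw [rd_pow (sub_mem m2 m0), rd_sub m2 m0, r2, h1]
    have n3 : ((k + 1 + 1 : ℕ) : ℂ) * z + z ∉ L.lattice := by
      intro q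
      rw [E.x_congr' q, sub_self, zero_pow two_ne_zero, rd_zero] at r
      exact u.ne_zero r.symm
    have e := E.sum_x n2 n0 n3 (by rw [e1]; exact n1)
    rw [e1, e3] at e
    rw [e3] at n3
    unfold Leg.NN at e
    have ms := mem_of_mul_mem e (by repeat' (first | assumption | with_reducible apply pow_mem | with_reducible apply mul_mem | with_reducible apply add_mem | with_reducible apply sub_mem))
      (pow_mem (sub_mem m2 m0) 2) (by rw [r]; exact u.ne_zero)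
    have m3 : E.x (((k + 2 + 1 : ℕ) : ℂ) * z) ∈ V := by simpa using sub_mem ms m1
    refine ⟨E.not_Kr.mpr ⟨n3, m3⟩, ?_⟩
    have := congrArg (rd V) e
    rw [rd_mul ms (pow_mem (sub_mem m2 m0) 2), r, rd_add m3 m1, r1] at this
    simp (disch := repeat' (first | assumption | with_reducible apply pow_mem | with_reducible apply mul_mem | with_reducible apply add_mem | with_reducible apply sub_mem)) only
      [rd_pow, rd_sub, rd_mul, rd_add, rd_one, rd_two, r2, h1] at this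
    exact add_right_cancel (u.mul_right_cancel (this.trans (I.step k (by omega)).symm))

lemma amtor_B (H : Half L ω₁ ω₂ ω₃) (E : Leg L ω₁ ω₂ ω₃) {V : ValuationSubring ℂ}
    (hl : E.lam ∈ V) (hh : 1 ≤ h) {m c : ResidueField V} {s : ℕ → ResidueField V}
    (I : Isog h (rd V E.lam) m c s) {z : ℂ} (hz : ¬ E.Kr V z) (h1 : rd V (E.x z) = s 1)
    (hN : ((2 * h + 1 : ℕ) : ℂ) * z ∈ L.lattice) : Ord L z (2 * h + 1) := by
  refine ord_of_notMem hh hN fun k hk1 hk => ?_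
  obtain ⟨j, rfl⟩ : ∃ j, k = j + 1 := ⟨k - 1, by omega⟩
  exact (E.not_Kr.mp (amtor_A H E hl hh I hz h1 j (by omega)).1).1

/-- algebraic isogeny data in the residue field come from a torsion point -/
theorem out_val (H : Half L ω₁ ω₂ ω₃) (E : Leg L ω₁ ω₂ ω₃) (V : ValuationSubring ℂ)
    (G : Good V.toSubring (2 * h + 1) E.lam) (hh : 1 ≤ h) {m c : ResidueField V}
    {s : ℕ → ResidueField V} (I : Isog h (rd V E.lam) m c s) :
    ∃ Q, Ord L Q (2 * h + 1) ∧ rd V (E.x Q) = s 1 := by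
  obtain ⟨hl, h2, -, l0, l1⟩ := amtor_facts G
  have hN : Odd (2 * h + 1) := odd_two_mul_add_one h
  obtain ⟨t, ht⟩ := residue_surjective (s 1)
  obtain ⟨z, n0, e0⟩ := E.surj t
  have m0 : E.x z ∈ V := e0 ▸ t.2
  have hz : ¬ E.Kr V z := E.not_Kr.mpr ⟨n0, m0⟩
  have h1 : rd V (E.x z) = s 1 := by rw [e0, rd_coe, ht]
  by_cases hNz : ((2 * h + 1 : ℕ) : ℂ) * z ∈ L.lattice
  · exact ⟨z, amtor_B H E hl hh I hz h1 hNz, h1⟩
  have hK : E.x (((2 * h + 1 : ℕ) : ℂ) * z) ∉ V := by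
    obtain ⟨j, rfl⟩ : ∃ j, h = j + 1 := ⟨h - 1, by omega⟩
    obtain ⟨k1, r1⟩ := amtor_A H E hl hh I hz h1 j (by omega)
    obtain ⟨k2, r2⟩ := amtor_A H E hl hh I hz h1 (j + 1) le_rfl
    rcases E.Kr_of_rd_eq hl h2 l0 l1 k2 k1 (by rw [r1, r2, I.fin]) with q | q
    · rw [show ((j + 1 + 1 : ℕ) : ℂ) * z - ((j + 1 : ℕ) : ℂ) * z = z by push_cast; ring] at q
      exact absurd q hz
    · rw [show ((j + 1 + 1 : ℕ) : ℂ) * z + ((j + 1 : ℕ) : ℂ) * z
        = ((2 * (j + 1) + 1 : ℕ) : ℂ) * z by push_cast; ring] at q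
      exact q.resolve_left hNz
  have c0 : ((2 * h + 1 : ℕ) : ℂ) ≠ 0 := Nat.cast_ne_zero.mpr (by omega)
  obtain ⟨L₁, hs⟩ := exists_scl L c0
  obtain ⟨ι, _, T, hS⟩ := exists_sup hs hN
  have H₁ := hs.half hN H
  obtain ⟨E₁, -⟩ := exists_leg H₁
  have hx := (leg_scl hs c0 E E₁ (odd_mul_half hN H.t₁) (odd_mul_half hN H.t₂)
    (odd_mul_half hN H.t₃)).1 z
  have f := (sup_formulas hS H H₁ E E₁).2.2.2.2 z fun q => hNz ((hs z).mp q)
  have hT : ∀ i, ((2 * h + 1 : ℕ) : ℂ) * T i ∈ L.lattice := fun i => (hs _).mp (hS.mem i)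
  have u := fun i => amtor_un3 H E (ic_val V) G hN dvd_rfl (hT i) (hS.ne i)
  have mT : ∀ i, E.x (T i) ∈ V := fun i => (u i).1.mem
  by_contra hcon
  apply hK
  have up : Un V.toSubring (∏ i, ((E.x z - E.x (T i)) * (E.x (T i) - E.lam)) ^ 2) := by
    refine Un.prod _ _ fun i _ => (Un.mul (un_val.mpr ⟨sub_mem m0 (mT i), ?_⟩) (u i).2.2).pow 2
    rw [rd_sub m0 (mT i), sub_ne_zero, h1]
    intro q
    exact hcon ⟨T i, amtor_B H E hl hh I (E.not_Kr.mpr ⟨hS.ne i, mT i⟩) q.symm (hT i), q.symm⟩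
  rw [← hx]
  refine mem_of_mul_mem f (mul_mem m0 (prod_mem fun i _ => ?_)) up.mem (un_val.mp up).2
  exact pow_mem (mul_mem (sub_mem (mul_mem m0 (mT i)) hl) (sub_mem (mT i) (one_mem _))) 2

/-- algebraic isogeny data at a surjective good place come from a cyclic superlattice -/
theorem out (H : Half L ω₁ ω₂ ω₃) (E : Leg L ω₁ ω₂ ω₃) {k : Type*} [Field k] (P : Pl ℂ k)
    (hsurj : ∀ c : k, ∃ z ∈ P.A, P.ev z = c) (G : Good P.A (2 * h + 1) E.lam) (hh : 1 ≤ h)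
    {m c : k} {s : ℕ → k} (I : Isog h (P.ev E.lam) m c s) :
    ∃ (L' : PeriodPair) (Q : ℂ) (E' : Leg L' ω₁ ω₂ ω₃), Cyc L L' Q (2 * h + 1) ∧
      P.ev E'.lam = m ∧ P.ev (E'.a / E.a) = c ∧
      ∀ j ≤ h, P.ev (E.x (((j + 1 : ℕ) : ℂ) * Q)) = s (j + 1) := by
  obtain ⟨W, hW, hv⟩ := P.exists_val
  have hN : Odd (2 * h + 1) := odd_two_mul_add_one h
  let φ : P.A →+* ResidueField W := (Pl.val W).f.comp (Subring.inclusion hW)
  have hφ : ∀ z : P.A, φ z = rd W z := fun z => ((Pl.val W).ev_of_mem (hW z.2)).symm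
  have hf : Function.Surjective P.f := fun c => by
    obtain ⟨z, hz, e⟩ := hsurj c
    exact ⟨⟨z, hz⟩, by rw [← e, P.ev_of_mem hz]⟩
  have hker : RingHom.ker P.f ≤ RingHom.ker φ := fun z hz => by
    rw [RingHom.mem_ker] at hz ⊢
    rw [hφ, rd_eq_zero_iff (hW z.2), ← hv z z.2, P.ev_coe, hz]
  let ι : k →+* ResidueField W := RingHom.liftOfSurjective P.f hf ⟨φ, hker⟩
  have hι : ∀ z ∈ P.A, ι (P.ev z) = rd W z := fun z hz => by
    rw [P.ev_of_mem hz, ← hφ ⟨z, hz⟩]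
    exact RingHom.liftOfRightInverse_comp_apply _ _ _ _ _
  have I₁ := I.map ι
  rw [hι _ G.lam.mem] at I₁
  obtain ⟨Q, hQ, e⟩ := out_val H E W (G.mono hW) hh I₁
  have n1 : Q ∉ L.lattice := by simpa using hQ.notMem (k := 1) one_pos (by omega)
  have m1 : E.x Q ∈ P.A := tor_mem H E P.ic G (amtor_two_mul dvd_rfl hQ.mem) n1
  have e1 : P.ev (E.x (((1 : ℕ) : ℂ) * Q)) = s 1 := by
    rw [Nat.cast_one, one_mul]
    exact ι.injective ((hι _ m1).trans e)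
  obtain ⟨L₁, hc⟩ := exists_cyc (by omega) hQ
  obtain ⟨E₁, -⟩ := exists_leg (hc.half hN H)
  have I₂ := (lat H E E₁ hc hh P dvd_rfl G).2.2
  have q := I₂.unique I hh e1
  exact ⟨L₁, Q, E₁, hc, q.1, q.2, I₂.seq_eq I hh e1⟩

/-- the case of the identity place -/
theorem out_id (H : Half L ω₁ ω₂ ω₃) (E : Leg L ω₁ ω₂ ω₃) (hh : 1 ≤ h) {m c : ℂ} {s : ℕ → ℂ}
    (I : Isog h E.lam m c s) :
    ∃ (L' : PeriodPair) (Q : ℂ) (E' : Leg L' ω₁ ω₂ ω₃), Cyc L L' Q (2 * h + 1) ∧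
      E'.lam = m ∧ E'.a / E.a = c ∧ ∀ j ≤ h, E.x (((j + 1 : ℕ) : ℂ) * Q) = s (j + 1) := by
  have ev : ∀ z, (Pl.top (RingHom.id ℂ)).ev z = z := fun z => Pl.ev_top _ z
  have G : Good (Pl.top (RingHom.id ℂ)).A (2 * h + 1) E.lam :=
    ⟨⟨two_ne_zero, trivial, trivial⟩, ⟨Nat.cast_ne_zero.mpr (by omega), trivial, trivial⟩,
      ⟨E.lam0, trivial, trivial⟩, ⟨sub_ne_zero.mpr E.lam1.symm, trivial, trivial⟩⟩
  have := out H E (Pl.top (RingHom.id ℂ)) (fun c => ⟨c, trivial, ev c⟩) G hh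
    (m := m) (c := c) (s := s) (by rw [ev]; exact I)
  simpa only [ev] using this

end Pool.Agent.Lib.MP_4a1067_nt.Am
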