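import Mathlib
import Pool.Agent.Lib.MP_4a1067_nt.AmNu
import Pool.Agent.Lib.MP_4a1067_nt.AmFrob
import Pool.Agent.Lib.MP_4a1067_nt.AmInj
import Pool.Agent.Lib.MP_4a1067_nt.AmTor

/-! Reductions of lattices with complex multiplication. -/

namespace Pool.Agent.Lib.MP_4a1067_nt.Am

open Polynomial IsLocalRing

/-- data attached to `s`: a valuation ring and a quadratic integer `ρ` with `2 ρ + 1` of norm
`p = 2 h + 1` and trace `2 s` in the maximal ideal -/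
structure CMD (h : ℕ) (s : ℤ) (V : ValuationSubring ℂ) (ρ : ℂ) (n₁ : ℤ) : Prop where
  prime : (2 * h + 1).Prime
  pos : 0 < s
  lt : 4 * s ^ 2 < 2 * h + 1
  e₁ : 2 * n₁ = h - (s - 1)
  im : ρ.im ≠ 0
  im_sq : 4 * ρ.im ^ 2 = 2 * h + 1 - s ^ 2
  quad : ρ ^ 2 = ((s - 1 : ℤ) : ℂ) * ρ - n₁
  hV : rd V (2 * h + 1 : ℕ) = 0
  mem : 2 * ρ + 1 ∈ V
  zero : rd V (2 * ρ + 1) = 0

theorem exists_cmd (h : ℕ) (hp : (2 * h + 1).Prime) (s : ℤ) (h0 : 0 < s)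
    (h1 : 4 * s ^ 2 < 2 * h + 1) (h2 : (2 : ℤ) ∣ h + 1 - s) :
    ∃ V ρ n₁, CMD h s V ρ n₁ := by
  obtain ⟨n₁, hn⟩ := h2
  obtain ⟨V, hV⟩ := exists_val _ hp
  set D : ℝ := 2 * h + 1 - s ^ 2 with hD
  have hD0 : 0 < D := by
    have : (0 : ℤ) < 2 * h + 1 - s ^ 2 := by nlinarith [sq_nonneg s]
    rw [hD]; exact_mod_cast this
  set w : ℂ := Complex.I * (Real.sqrt D : ℝ) with hw
  have hw2 : w ^ 2 = s ^ 2 - (2 * h + 1) := by
    rw [hw, mul_pow, Complex.I_sq, ← Complex.ofReal_pow, Real.sq_sqrt hD0.le, hD]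
    push_cast; ring
  have hwim : w.im = Real.sqrt D := by simp [hw]
  have hs0 : Real.sqrt D ≠ 0 := (Real.sqrt_pos.mpr hD0).ne'
  have hs2 : Real.sqrt D ^ 2 = D := Real.sq_sqrt hD0.le
  have c₁ : (h : ℂ) + 1 - s = 2 * n₁ := by exact_mod_cast hn
  have e1 : (s + w) * (s - w) = ((2 * h + 1 : ℕ) : ℂ) := by
    push_cast; linear_combination -hw2
  have m1 : s + w ∈ V := mem_of_add_mul (b := s - w)
    (by rw [show s + w + (s - w) = ((2 * s : ℤ) : ℂ) by push_cast; ring]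
        exact intCast_mem V _) (by rw [e1]; exact natCast_mem V _)
  have m2 : s - w ∈ V := by
    have := sub_mem (intCast_mem V (2 * s)) m1
    rwa [show ((2 * s : ℤ) : ℂ) - (s + w) = s - w by push_cast; ring] at this
  have r := congrArg (rd V) e1
  rw [rd_mul m1 m2, hV, mul_eq_zero] at r
  rcases r with r | r
  · have im : ((s - 1 + w) / 2 : ℂ).im = Real.sqrt D / 2 := by simp [hwim]
    have e : 2 * ((s - 1 + w) / 2) + 1 = s + w := by ring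
    refine ⟨V, (s - 1 + w) / 2, n₁, hp, h0, h1, by omega, ?_, ?_, ?_, hV, by rwa [e], by rwa [e]⟩
    · rw [im]; exact div_ne_zero hs0 two_ne_zero
    · rw [im]; linear_combination hs2 + hD
    · push_cast; linear_combination hw2 / 4 - c₁ / 2
  · have im : ((s - 1 - w) / 2 : ℂ).im = -Real.sqrt D / 2 := by simp [hwim]
    have e : 2 * ((s - 1 - w) / 2) + 1 = s - w := by ring
    refine ⟨V, (s - 1 - w) / 2, n₁, hp, h0, h1, by omega, ?_, ?_, ?_, hV, by rwa [e], by rwa [e]⟩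
    · rw [im]; exact div_ne_zero (neg_ne_zero.mpr hs0) two_ne_zero
    · rw [im]; linear_combination hs2 + hD
    · push_cast; linear_combination hw2 / 4 - c₁ / 2

variable {h : ℕ} {s n₁ : ℤ} {V : ValuationSubring ℂ} {ρ : ℂ} {L L' : PeriodPair}
  {ω₁ ω₂ ω₃ η₁ η₂ η₃ : ℂ}

lemma amcm_norm (C₀ : CMD h s V ρ n₁) :
    (2 * ρ + 1) * (((2 * s : ℤ) : ℂ) - (2 * ρ + 1)) = ((2 * h + 1 : ℕ) : ℂ) := by
  have c₁ : 2 * (n₁ : ℂ) = h - (s - 1) := by exact_mod_cast C₀.e₁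
  have q := C₀.quad
  push_cast at q ⊢
  linear_combination -4 * q + 2 * c₁

lemma amcm_norm' (C₀ : CMD h s V ρ n₁) :
    (⟨2 * ρ + 1, C₀.mem⟩ : V) * (((2 * s : ℤ) : V) - ⟨2 * ρ + 1, C₀.mem⟩)
      = ((2 * h + 1 : ℕ) : V) := by
  apply Subtype.ext
  have := amcm_norm C₀
  push_cast at this ⊢
  exact this

lemma amcm_ne (C₀ : CMD h s V ρ n₁) : (⟨2 * ρ + 1, C₀.mem⟩ : V) ≠ 0 := by
  intro h0
  have h1 : 2 * ρ + 1 = 0 := congrArg Subtype.val h0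
  have h2 := amcm_norm C₀
  rw [h1, zero_mul] at h2
  exact C₀.prime.ne_zero (by exact_mod_cast h2.symm)

lemma amcm_res (C₀ : CMD h s V ρ n₁) : residue V (⟨2 * ρ + 1, C₀.mem⟩ : V) = 0 :=
  (rd_coe (⟨2 * ρ + 1, C₀.mem⟩ : V)).symm.trans C₀.zero

lemma amcm_ndvd (C₀ : CMD h s V ρ n₁) : ¬ ((2 * h + 1 : ℕ) : ℤ) ∣ 2 * s := by
  intro hd
  have h0 := C₀.pos
  have h1 := C₀.lt
  have := Int.le_of_dvd (by omega) hd
  push_cast at this
  nlinarith

/-- a stable lattice has good rational reduction and carries a lift of the Frobenius map -/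
lemma amcm_core (C₀ : CMD h s V ρ n₁) [CharP (ResidueField V) (2 * h + 1)]
    (hL : ∀ z ∈ L.lattice, ρ * z ∈ L.lattice) (H : Half L ω₁ ω₂ ω₃) (E : Leg L ω₁ ω₂ ω₃)
    (hl : E.lam ∈ V) (l1 : rd V E.lam ≠ 1) :
    rd V E.lam ≠ 0 ∧ rd V E.lam ^ (2 * h + 1) = rd V E.lam ∧
      ∃ N D Y : V[X], FD h (⟨2 * ρ + 1, C₀.mem⟩ : V) ⟨E.lam, hl⟩ N D Y := by
  have h0 := C₀.pos
  have h1 := C₀.lt
  have e₁ := C₀.e₁
  have h2 : 2 * s < 2 * h + 1 := by nlinarith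
  obtain ⟨Q, hE⟩ := exists_endo (τ := s - 1) hL C₀.im C₀.quad C₀.prime e₁ (by
      intro hd
      rw [show (s - 1) ^ 2 - 4 * n₁ = s ^ 2 - ((2 * h + 1 : ℕ) : ℤ) by
        push_cast; linear_combination -2 * e₁] at hd
      have h3 := Int.le_of_dvd (by positivity) ((dvd_sub_left (dvd_refl _)).mp hd)
      push_cast at h3
      nlinarith [sq_nonneg s])
    (by rw [show 2 * (s - 1) + 2 = 2 * s by ring]; exact amcm_ndvd C₀)
  have hf : ∀ ω, ω + ω ∈ L.lattice → (2 * ρ + 1) * ω - ω ∈ L.lattice := by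
    intro ω hω
    have := hL _ hω
    rwa [show ρ * (ω + ω) = (2 * ρ + 1) * ω - ω by ring] at this
  have f₁ := hf _ H.t₁
  have f₂ := hf _ H.t₂
  have f₃ := hf _ H.t₃
  have hQ := E.Kr_Q H hE C₀.prime f₁ f₂ f₃ hl l1 C₀.mem C₀.zero
  obtain ⟨a₁, ha₁⟩ := Int.eq_ofNat_of_zero_le (a := 2 * h + 2 - 2 * s) (by omega)
  obtain ⟨a₂, ha₂⟩ := Int.eq_ofNat_of_zero_le (a := 2 * h + 2 + 2 * s) (by omega)
  have l0 := E.good_reduction H hE C₀.prime f₁ f₂ hl hQ (2 * s)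
    (by linear_combination -amcm_norm C₀) a₁ a₂ (by omega) (by omega)
    (by push_cast; omega) (by push_cast; omega)
  refine ⟨l0, ?_, frob H E hE f₁ f₂ f₃ V hl l0 l1 C₀.mem hQ⟩
  have := (E.frob_x H hE f₁ f₂ hl hQ (E.half_not_Kr H hl).2.2).2
  rw [E.x_congr f₃, E.x₃] at this
  exact this.symm

/-- the reduction of a stable lattice is a rational point with the right Hasse invariant -/
theorem CMD.red [Fact (2 * h + 1).Prime] (C₀ : CMD h s V ρ n₁)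
    [CharP (ResidueField V) (2 * h + 1)] (hL : ∀ z ∈ L.lattice, ρ * z ∈ L.lattice)
    (H : Half L ω₁ ω₂ ω₃) (E : Leg L ω₁ ω₂ ω₃) (hl : E.lam ∈ V) (l1 : rd V E.lam ≠ 1) :
    ∃ b : ZMod (2 * h + 1), b ≠ 0 ∧ b ≠ 1 ∧
      ZMod.castHom (dvd_refl _) (ResidueField V) b = rd V E.lam ∧
      Hs h b ^ 2 = ((2 * s : ℤ) : ZMod (2 * h + 1)) ^ 2 := by
  obtain ⟨l0, hfix, N, D, Y, F⟩ := amcm_core C₀ hL H E hl l1
  obtain ⟨b, hb⟩ := exists_cast hfix
  have rl : residue V (⟨E.lam, hl⟩ : V) = rd V E.lam := (rd_coe (⟨E.lam, hl⟩ : V)).symm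
  obtain ⟨t1, t2⟩ := F.hasse C₀.prime (2 * s) (amcm_norm' C₀) (amcm_ne C₀) (amcm_res C₀)
    (by rw [rl]; exact hfix)
  refine ⟨b, ?_, ?_, hb, ?_⟩
  · rintro rfl
    exact l0 (by rw [← hb, map_zero])
  · rintro rfl
    exact l1 (by rw [← hb, map_one])
  · apply (ZMod.castHom (dvd_refl (2 * h + 1)) (ResidueField V)).injective
    rw [map_pow, map_pow, map_Hs, map_intCast, hb, t1, ← rl]
    rcases t2 with t2 | t2
    · rw [t2, Hs]
    · rw [t2, coeff_neg, neg_sq, Hs]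

/-- stable lattices with the same reduction are homothetic -/
theorem CMD.inj (C₀ : CMD h s V ρ n₁) (hL : ∀ z ∈ L.lattice, ρ * z ∈ L.lattice)
    (hL' : ∀ z ∈ L'.lattice, ρ * z ∈ L'.lattice) (H : Half L ω₁ ω₂ ω₃) (H' : Half L' η₁ η₂ η₃)
    (E : Leg L ω₁ ω₂ ω₃) (E' : Leg L' η₁ η₂ η₃) (hl : E.lam ∈ V) (hl' : E'.lam ∈ V)
    (l1 : rd V E.lam ≠ 1) (e : rd V E.lam = rd V E'.lam) : ∃ c : ℂ, c ≠ 0 ∧ Scl L L' c := by
  have : CharP (ResidueField V) (2 * h + 1) :=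
    (CharP.charP_iff_prime_eq_zero C₀.prime).mpr (by have := C₀.hV; rwa [rd_natCast] at this)
  obtain ⟨l0, hfix, N, D, Y, F⟩ := amcm_core C₀ hL H E hl l1
  obtain ⟨-, -, N', D', Y', F'⟩ := amcm_core C₀ hL' H' E' hl' (e ▸ l1)
  have rl : residue V (⟨E.lam, hl⟩ : V) = rd V E.lam := (rd_coe (⟨E.lam, hl⟩ : V)).symm
  have rl' : residue V (⟨E'.lam, hl'⟩ : V) = rd V E'.lam := (rd_coe (⟨E'.lam, hl'⟩ : V)).symm
  have key := F.inj F' C₀.prime (2 * s) (amcm_norm' C₀) (amcm_ne C₀) (amcm_res C₀)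
    (by rw [rl]; exact hfix)
    (fun h0 => amcm_ndvd C₀ ((CharP.intCast_eq_zero_iff _ (2 * h + 1) _).mp h0))
    (by rw [rl]; exact l0) (by rw [rl, rl']; exact e)
  obtain ⟨c, hc, hs, -⟩ := hom H H' E E' (congrArg Subtype.val key)
  exact ⟨c, hc, hs⟩

/-- a place with values in the algebraic closure of the prime field that agrees with the
reduction on the elements with rational residue -/
lemma amcm_place (V : ValuationSubring ℂ) (p : ℕ) [Fact p.Prime] [CharP (ResidueField V) p] :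
    ∃ P : Pl ℂ (AlgebraicClosure (ZMod p)), ∀ z ∈ V, ∀ c : ZMod p,
      ZMod.castHom (dvd_refl _) (ResidueField V) c = rd V z →
        z ∈ P.A ∧ P.ev z = algebraMap (ZMod p) _ c := by
  set φ := ZMod.castHom (dvd_refl p) (ResidueField V) with hφ
  let R : Subring V := φ.range.comap (residue V)
  let ψ : ZMod p ≃+* φ.range := RingEquiv.ofBijective φ.rangeRestrict
    ⟨φ.rangeRestrict.injective, φ.rangeRestrict_surjective⟩
  let g₀ : R →+* φ.range := ((residue V).comp R.subtype).codRestrict φ.range (fun x => x.2)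
  let j : R →+* ℂ := V.subtype.comp R.subtype
  have hj : Function.Injective j := V.subtype_injective.comp R.subtype_injective
  obtain ⟨P, hP, -⟩ := exists_pl j hj
    ((algebraMap (ZMod p) (AlgebraicClosure (ZMod p))).comp (ψ.symm.toRingHom.comp g₀))
  refine ⟨P, fun z hz c hc => ?_⟩
  have rz : residue V (⟨z, hz⟩ : V) = rd V z := (rd_coe (⟨z, hz⟩ : V)).symm
  have hm : (⟨z, hz⟩ : V) ∈ R := ⟨c, hc.trans rz.symm⟩
  obtain ⟨a1, a2⟩ := hP ⟨⟨z, hz⟩, hm⟩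
  refine ⟨a1, a2.trans ?_⟩
  have e : g₀ ⟨⟨z, hz⟩, hm⟩ = ψ c := Subtype.ext (hc.trans rz.symm).symm
  change algebraMap (ZMod p) _ (ψ.symm (g₀ ⟨⟨z, hz⟩, hm⟩)) = _
  rw [e, ψ.symm_apply_apply]

/-- a cyclic isogeny between lattices with rational reductions links the reductions -/
theorem lnk_of_cyc (p : ℕ) [Fact p.Prime] [CharP (ResidueField V) p] (hp2 : p ≠ 2) {n : ℕ}
    (hn : Odd n) (hn1 : 1 < n) (hpn : ¬ p ∣ n) (H : Half L ω₁ ω₂ ω₃) (E : Leg L ω₁ ω₂ ω₃)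
    (E' : Leg L' ω₁ ω₂ ω₃) {Q : ℂ} (hc : Cyc L L' Q n) (hl : E.lam ∈ V) (hl' : E'.lam ∈ V)
    (b b' : ZMod p) (b0 : b ≠ 0) (b1 : b ≠ 1)
    (hb : ZMod.castHom (dvd_refl _) (ResidueField V) b = rd V E.lam)
    (hb' : ZMod.castHom (dvd_refl _) (ResidueField V) b' = rd V E'.lam) : Lnk p n b b' := by
  obtain ⟨h, rfl⟩ := hn
  obtain ⟨P, hP⟩ := amcm_place V p
  have un : ∀ z ∈ V, ∀ c : ZMod p, c ≠ 0 →
      ZMod.castHom (dvd_refl _) (ResidueField V) c = rd V z → Un P.A z := by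
    intro z hz c hc0 hcz
    have r0 : rd V z ≠ 0 := by
      rw [← hcz]
      exact (_root_.map_ne_zero _).mpr hc0
    have z0 := ne_zero_of_rd_ne r0
    have hi := inv_mem_of_rd_ne hz r0
    refine ⟨z0, (hP z hz c hcz).1, (hP _ hi c⁻¹ ?_).1⟩
    rw [map_inv₀, hcz]
    apply inv_eq_of_mul_eq_one_right
    rw [← rd_mul hz hi, mul_inv_cancel₀ z0, rd_one]
  have G : Good P.A (2 * h + 1) E.lam := by
    refine ⟨un 2 two_mem ((2 : ℕ) : ZMod p) ?_ ?_, un _ (natCast_mem V _) ((2 * h + 1 : ℕ) : ZMod p)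
      ?_ ?_, un _ hl b b0 hb, un _ (sub_mem (one_mem _) hl) (1 - b) (sub_ne_zero.mpr b1.symm) ?_⟩
    · rw [Ne, ZMod.natCast_eq_zero_iff]
      exact fun hd => hp2 ((Nat.prime_dvd_prime_iff_eq Fact.out Nat.prime_two).mp hd)
    · rw [map_natCast, rd_two, Nat.cast_ofNat]
    · rw [Ne, ZMod.natCast_eq_zero_iff]
      exact hpn
    · rw [map_natCast, rd_natCast]
    · rw [map_sub, map_one, hb, rd_sub (one_mem _) hl, rd_one]
  obtain ⟨-, -, I⟩ := lat H E E' hc (by omega) P dvd_rfl G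
  rw [(hP _ hl b hb).2, (hP _ hl' b' hb').2] at I
  unfold Lnk
  rw [show (2 * h + 1) / 2 = h by omega]
  exact ⟨_, _, I⟩

end Pool.Agent.Lib.MP_4a1067_nt.Am
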