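import Mathlib
import Pool.Agent.Lib.MP_4a1067_nt.AmCM

/-! The family of rational points used by the amplifier. -/

namespace Pool.Agent.Lib.MP_4a1067_nt.Am

open IsLocalRing

section Aux
variable {h : ℕ} {s n₁ : ℤ} {V : ValuationSubring ℂ} {ρ : ℂ} {L : PeriodPair} {ω₁ ω₂ ω₃ : ℂ}

lemma amFam_disc (C₀ : CMD h s V ρ n₁) :
    (s - 1) ^ 2 - 4 * n₁ = s ^ 2 - ((2 * h + 1 : ℕ) : ℤ) := by
  have := C₀.e₁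
  push_cast
  linear_combination -2 * this

lemma amFam_un [CharP (ResidueField V) (2 * h + 1)] {n : ℕ} (hn : ¬ 2 * h + 1 ∣ n) :
    Un V.toSubring (n : ℂ) := by
  refine un_val.mpr ⟨natCast_mem V n, ?_⟩
  rw [rd_natCast, Ne, CharP.cast_eq_zero_iff _ (2 * h + 1)]
  exact hn

/-- the lattice of a form with first coefficient `A`, with an ordering of its half periods -/
lemma amFam_base (C₀ : CMD h s V ρ n₁) {A : ℕ} (hA : Odd A) (hS : Spl (2 * h + 1) A s) :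
    ∃ (L : PeriodPair) (θ ω₁ ω₂ ω₃ : ℂ),
      (∀ z, z ∈ L.lattice ↔ ∃ m k : ℤ, (m : ℂ) + k * θ = z) ∧ A * θ.im = ρ.im ∧
      (∀ z ∈ L.lattice, ρ * z ∈ L.lattice) ∧ Half L ω₁ ω₂ ω₃ ∧
      ∃ E : Leg L ω₁ ω₂ ω₃, E.lam ∈ V ∧ rd V E.lam ≠ 1 := by
  obtain ⟨⟨r, hr⟩, -⟩ := hS
  obtain ⟨L, θ, h1, h2, h3⟩ := exists_form C₀.im C₀.quad A hA r (by rwa [amFam_disc C₀])
  obtain ⟨a, b, c, H0⟩ := exists_half L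
  obtain ⟨ω₁, ω₂, ω₃, H, E, hl, l1, -⟩ := exists_order H0 V
  exact ⟨L, θ, ω₁, ω₂, ω₃, h1, h2, h3, H, E, hl, l1⟩

/-- the neighbour of a stable lattice at a split prime and its reduction -/
lemma amFam_step [Fact (2 * h + 1).Prime] [CharP (ResidueField V) (2 * h + 1)]
    (C₀ : CMD h s V ρ n₁) (hL : ∀ z ∈ L.lattice, ρ * z ∈ L.lattice) (H : Half L ω₁ ω₂ ω₃)
    (hE : ∃ E : Leg L ω₁ ω₂ ω₃, E.lam ∈ V ∧ rd V E.lam ≠ 1) {ℓ : ℕ} (hℓ : ℓ.Prime) (h2 : ℓ ≠ 2)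
    (hp : ℓ ≠ 2 * h + 1) (hS : Spl (2 * h + 1) ℓ s) (r : ℤ)
    (hr : (ℓ : ℤ) ∣ r ^ 2 - (s - 1) * r + n₁) :
    ∃ b : ZMod (2 * h + 1), b ≠ 0 ∧ b ≠ 1 ∧
      Hs h b ^ 2 = ((2 * s : ℤ) : ZMod (2 * h + 1)) ^ 2 ∧
      ∃ (L' : PeriodPair) (Q : ℂ) (E' : Leg L' ω₁ ω₂ ω₃), Cyc L L' Q ℓ ∧ Half L' ω₁ ω₂ ω₃ ∧
        (∀ z ∈ L'.lattice, ρ * z ∈ L'.lattice) ∧
        (∀ z, z ∈ L.lattice ↔
          ∃ x ∈ L'.lattice, ∃ y ∈ L'.lattice, z = ℓ * x + (ρ - r) * y) ∧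
        E'.lam ∈ V ∧ rd V E'.lam ≠ 1 ∧
        ZMod.castHom (dvd_refl _) (ResidueField V) b = rd V E'.lam := by
  obtain ⟨E, hl, l1⟩ := hE
  have hodd : Odd ℓ := hℓ.odd_of_ne_two h2
  obtain ⟨L', Q, hc, -, hst, hgen⟩ := nu hL C₀.im C₀.quad hℓ r hr
    (by rw [amFam_disc C₀]; exact hS.2)
  have H' : Half L' ω₁ ω₂ ω₃ := hc.half hodd H
  obtain ⟨E', -⟩ := exists_leg H'
  obtain ⟨b₀, b0, -, hb, -⟩ := C₀.red hL H E hl l1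
  have l0 : rd V E.lam ≠ 0 := by
    rw [← hb]
    exact (map_ne_zero _).mpr b0
  have hV1 : (1 : ℂ) ∈ V := one_mem _
  have G : Good V.toSubring ℓ E.lam := by
    refine ⟨?_, amFam_un (h := h) ?_, un_val.mpr ⟨hl, l0⟩, un_val.mpr ⟨sub_mem hV1 hl, ?_⟩⟩
    · have := amFam_un (h := h) (V := V) (n := 2) (fun h0 => by
        have h3 := Nat.le_of_dvd (by norm_num) h0
        have h4 := C₀.prime.one_lt
        omega)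
      simpa using this
    · intro h0
      exact hp ((Nat.prime_dvd_prime_iff_eq C₀.prime hℓ).mp h0).symm
    · rw [rd_sub hV1 hl, rd_one]
      exact sub_ne_zero.mpr l1.symm
  obtain ⟨k, rfl⟩ := hodd
  have hk : 1 ≤ k := by
    have := hℓ.one_lt
    omega
  have G' := (lat H E E' hc hk (Pl.val V) (dvd_refl _) G).1
  have hl' : E'.lam ∈ V := G'.lam.mem
  have l1' : rd V E'.lam ≠ 1 := by
    have := (un_val.mp G'.lam1).2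
    rw [rd_sub hV1 hl', rd_one] at this
    exact (sub_ne_zero.mp this).symm
  obtain ⟨b, c0, c1, hb', hH⟩ := C₀.red hst H' E' hl' l1'
  exact ⟨b, c0, c1, hH, L', Q, E', hc, H', hst, hgen, hl', l1', hb'⟩

/-- a homothety between the neighbours descends -/
lemma amFam_scl {L₁ L₂ M₁ M₂ : PeriodPair} {u v c : ℂ} (hc : c ≠ 0)
    (h₁ : ∀ z, z ∈ L₁.lattice ↔ ∃ x ∈ M₁.lattice, ∃ y ∈ M₁.lattice, z = u * x + v * y)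
    (h₂ : ∀ z, z ∈ L₂.lattice ↔ ∃ x ∈ M₂.lattice, ∃ y ∈ M₂.lattice, z = u * x + v * y)
    (hs : Scl M₁ M₂ c) : Scl L₁ L₂ c := by
  intro z
  rw [h₁, h₂]
  constructor
  · rintro ⟨x, hx, y, hy, rfl⟩
    exact ⟨c * x, (hs x).mp hx, c * y, (hs y).mp hy, by ring⟩
  · rintro ⟨x, hx, y, hy, e⟩
    refine ⟨x / c, (hs _).mpr (by rwa [mul_div_cancel₀ _ hc]), y / c,
      (hs _).mpr (by rwa [mul_div_cancel₀ _ hc]), ?_⟩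
    field_simp
    linear_combination e

lemma amFam_small (C₀ : CMD h s V ρ n₁) {A : ℕ} (hA : 16 * A ^ 2 < 3 * (2 * h + 1)) :
    (A : ℝ) ^ 2 < ρ.im ^ 2 := by
  have h1 : (16 : ℝ) * A ^ 2 < 3 * (2 * h + 1) := by exact_mod_cast hA
  have h2 : (4 : ℝ) * s ^ 2 < 2 * h + 1 := by exact_mod_cast C₀.lt
  have h3 := C₀.im_sq
  linarith

end Aux

theorem cm_family (p : ℕ) [Fact p.Prime] (s : ℤ) (h0 : 0 < s) (h1 : 4 * s ^ 2 < p)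
    (h2 : (4 : ℤ) ∣ p + 1 - 2 * s) :
    ∃ b : ℕ → ℕ → ZMod p, ∀ A ℓ : ℕ, A.Prime → A ≠ 2 → 16 * A ^ 2 < 3 * p → Spl p A s →
      ℓ.Prime → ℓ ≠ 2 → ℓ ≠ p → Spl p ℓ s →
        b A ℓ ≠ 0 ∧ b A ℓ ≠ 1 ∧ Hs (p / 2) (b A ℓ) ^ 2 = ((2 * s : ℤ) : ZMod p) ^ 2 ∧
        (∀ A' : ℕ, A'.Prime → A' ≠ 2 → 16 * A' ^ 2 < 3 * p → Spl p A' s →
          b A ℓ = b A' ℓ → A = A') ∧
        ∀ ℓ' : ℕ, ℓ'.Prime → ℓ' ≠ 2 → ℓ' ≠ p → Spl p ℓ' s → ℓ ≠ ℓ' →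
          Lnk p (ℓ * ℓ') (b A ℓ) (b A ℓ') := by
  classical
  have hp : p.Prime := Fact.out
  obtain ⟨h, rfl⟩ : ∃ h, p = 2 * h + 1 := ⟨p / 2, by omega⟩
  obtain ⟨V, ρ, n₁, C₀⟩ := exists_cmd h hp s h0 (by exact_mod_cast h1) (by push_cast at h2; omega)
  have hchar : CharP (ResidueField V) (2 * h + 1) :=
    (CharP.charP_iff_prime_eq_zero hp).mpr (by have := C₀.hV; rwa [rd_natCast] at this)
  have hp2 : 2 * h + 1 ≠ 2 := by omega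
  have hh : (2 * h + 1) / 2 = h := by omega
  rw [hh]
  let PA : ℕ → Prop := fun A => Odd A ∧ Spl (2 * h + 1) A s
  let PL : ℕ → Prop := fun ℓ => ℓ.Prime ∧ ℓ ≠ 2 ∧ ℓ ≠ 2 * h + 1 ∧ Spl (2 * h + 1) ℓ s
  choose L θ ω₁ ω₂ ω₃ hL hθ hst H hE using fun (A : ℕ) (hA : PA A) => amFam_base C₀ hA.1 hA.2
  have hroot : ∀ ℓ : ℕ, PL ℓ → ∃ r : ℤ, (ℓ : ℤ) ∣ r ^ 2 - (s - 1) * r + n₁ := by
    rintro ℓ ⟨a1, a2, -, ⟨r, hr⟩, -⟩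
    exact exists_root ℓ (a1.odd_of_ne_two a2) r (by rwa [amFam_disc C₀])
  choose r hr using hroot
  choose b b0 b1 hH hb using fun (A : ℕ) (hA : PA A) (ℓ : ℕ) (hℓ : PL ℓ) =>
    amFam_step C₀ (hst A hA) (H A hA) (hE A hA) hℓ.1 hℓ.2.1 hℓ.2.2.1 hℓ.2.2.2 (r ℓ hℓ) (hr ℓ hℓ)
  refine ⟨fun A ℓ => if hA : PA A then if hℓ : PL ℓ then b A hA ℓ hℓ else 0 else 0, ?_⟩
  intro A ℓ a1 a2 a3 a4 c1 c2 c3 c4
  have hA : PA A := ⟨a1.odd_of_ne_two a2, a4⟩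
  have hℓ : PL ℓ := ⟨c1, c2, c3, c4⟩
  simp only [dif_pos hA, dif_pos hℓ]
  obtain ⟨L₁, Q₁, E₁, hc₁, H₁, st₁, gen₁, m₁, n₁', e₁⟩ := hb A hA ℓ hℓ
  refine ⟨b0 A hA ℓ hℓ, b1 A hA ℓ hℓ, hH A hA ℓ hℓ, ?_, ?_⟩
  · intro A' a1' a2' a3' a4' e
    have hA' : PA A' := ⟨a1'.odd_of_ne_two a2', a4'⟩
    rw [dif_pos hA'] at e
    obtain ⟨L₂, Q₂, E₂, -, H₂, st₂, gen₂, m₂, -, e₂⟩ := hb A' hA' ℓ hℓ
    obtain ⟨c, hc, hs⟩ := C₀.inj st₁ st₂ H₁ H₂ E₁ E₂ m₁ m₂ n₁' (by rw [← e₁, ← e₂, e])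
    exact form_inj (hL A hA) (hL A' hA') a1 a1' (hθ A hA) (hθ A' hA') (amFam_small C₀ a3)
      (amFam_small C₀ a3') hc (amFam_scl hc gen₁ gen₂ hs)
  · intro ℓ' d1 d2 d3 d4 hne
    have hℓ' : PL ℓ' := ⟨d1, d2, d3, d4⟩
    rw [dif_pos hℓ']
    obtain ⟨L₂, Q₂, E₂, hc₂, H₂, -, -, m₂, -, e₂⟩ := hb A hA ℓ' hℓ'
    have hodd : Odd ℓ := c1.odd_of_ne_two c2
    have hℓ0 : (ℓ : ℂ) ≠ 0 := by exact_mod_cast c1.ne_zero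
    obtain ⟨M, hs⟩ := exists_scl L₂ hℓ0
    obtain ⟨T, hT⟩ := cyc_pair c1 d1 hne hc₁ hc₂ hs
    obtain ⟨EM, -⟩ := exists_leg (hs.half hodd H₂)
    have eM : EM.lam = E₂.lam := (leg_scl hs hℓ0 E₂ EM (odd_mul_half hodd H₂.t₁)
      (odd_mul_half hodd H₂.t₂) (odd_mul_half hodd H₂.t₃)).2.1
    refine lnk_of_cyc (2 * h + 1) hp2 (hodd.mul (d1.odd_of_ne_two d2))
      (Nat.one_lt_mul_iff.mpr ⟨c1.pos, d1.pos, Or.inl c1.one_lt⟩) ?_ H₁ E₁ EM hT m₁ (eM ▸ m₂) _ _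
      (b0 A hA ℓ hℓ) (b1 A hA ℓ hℓ) e₁ (eM ▸ e₂)
    intro hd
    rcases (Nat.Prime.dvd_mul hp).mp hd with hd | hd
    · exact c3 ((Nat.prime_dvd_prime_iff_eq hp c1).mp hd).symm
    · exact d3 ((Nat.prime_dvd_prime_iff_eq hp d1).mp hd).symm

end Pool.Agent.Lib.MP_4a1067_nt.Am
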