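import Mathlib
import Pool.Agent.Lib.MP_4a1067_nt.AmLat2
import Pool.Agent.Lib.MP_4a1067_nt.AmVelu

/-! Isogenies at a place of multiplicative reduction. -/

namespace Pool.Agent.Lib.MP_4a1067_nt.Am

open IsLocalRing

section One
variable {W : ValuationSubring ℂ}

/-- congruent to `1` modulo the maximal ideal -/
def One (W : ValuationSubring ℂ) (a : ℂ) : Prop := W.valuation (a - 1) < 1

lemma One.val {a : ℂ} (h : One W a) : W.valuation a = 1 := by
  have := W.valuation.map_one_add_of_lt h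
  rwa [add_sub_cancel] at this

lemma One.mul {a b : ℂ} (ha : One W a) (hb : One W b) : One W (a * b) := by
  unfold One
  rw [show a * b - 1 = a * (b - 1) + (a - 1) by ring]
  refine W.valuation.map_add_lt ?_ ha
  rw [map_mul, ha.val, one_mul]
  exact hb

lemma one_one : One W 1 := by simp [One]

lemma One.pow {a : ℂ} (ha : One W a) (n : ℕ) : One W (a ^ n) := by
  induction n with
  | zero => simpa using one_one
  | succ n ih => rw [pow_succ]; exact ih.mul ha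

lemma one_prod {ι : Type*} (s : Finset ι) (f : ι → ℂ) (h : ∀ i ∈ s, One W (f i)) :
    One W (∏ i ∈ s, f i) :=
  Finset.prod_induction f (One W) (fun _ _ => One.mul) one_one h

lemma one_sub {a : ℂ} (h : W.valuation a < 1) : One W (1 - a) := by
  unfold One
  rwa [sub_sub_cancel_left, Valuation.map_neg]

lemma One.of_mul {a b c : ℂ} (e : a * b = c) (hb : One W b) (hc : One W c) : One W a := by
  have h1 : W.valuation ((a - 1) * b) < 1 := by
    rw [show (a - 1) * b = (c - 1) - (b - 1) by rw [← e]; ring]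
    exact W.valuation.map_sub_lt hc hb
  rwa [map_mul, hb.val, mul_one] at h1

end One

variable {L L' : PeriodPair} {ω₁ ω₂ ω₃ : ℂ} {ℓ : ℕ} {W : ValuationSubring ℂ}

/-- points with nonsingular reduction -/
def E0 (E : Leg L ω₁ ω₂ ω₃) (W : ValuationSubring ℂ) (z : ℂ) : Prop :=
  z + ω₁ ∉ L.lattice ∧ E.u z ∈ W

/-- the standing hypotheses at the cusp -/
structure Cu (E : Leg L ω₁ ω₂ ω₃) (W : ValuationSubring ℂ) (ℓ : ℕ) : Prop where
  H : Half L ω₁ ω₂ ω₃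
  hl : W.valuation E.lam < 1
  prime : ℓ.Prime
  odd : Odd ℓ
  h0 : (ℓ : ResidueField W) ≠ 0

namespace Cu
variable {E : Leg L ω₁ ω₂ ω₃} (K : Cu E W ℓ)
include K

lemma mem : E.lam ∈ W := (W.valuation_le_one_iff _).mp K.hl.le

lemma add {z w : ℂ} (hz : E0 E W z) (hw : E0 E W w) : E0 E W (z + w) ∧ E0 E W (z - w) := by
  obtain ⟨a, b, c, d, -⟩ := E.E0_add K.H K.mem ((rd_eq_zero_iff K.mem).mpr K.hl)
    hz.1 hz.2 hw.1 hw.2
  exact ⟨⟨a, b⟩, ⟨c, d⟩⟩

lemma lattice {z : ℂ} (hz : z ∈ L.lattice) : E0 E W z :=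
  ⟨fun h => K.H.n₁ (by simpa using sub_mem h hz), by rw [E.u_lattice hz]; exact zero_mem _⟩

lemma congr {z w : ℂ} (hz : E0 E W z) (h : w - z ∈ L.lattice) : E0 E W w := by
  have := (K.add hz (K.lattice h)).1
  rwa [add_sub_cancel] at this

lemma int {z : ℂ} (hz : E0 E W z) (k : ℤ) : E0 E W (k * z) := by
  induction k using Int.induction_on with
  | zero => simpa using K.lattice (zero_mem _)
  | succ k ih =>
    have := (K.add ih hz).1
    rwa [show ((k : ℤ) : ℂ) * z + z = (((k : ℤ) + 1 : ℤ) : ℂ) * z by push_cast; ring] at this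
  | pred k ih =>
    have := (K.add ih hz).2
    rwa [show ((-(k : ℤ) : ℤ) : ℂ) * z - z = ((-(k : ℤ) - 1 : ℤ) : ℂ) * z by push_cast; ring]
      at this

lemma iff {z : ℂ} (hz : z ∉ L.lattice) : E0 E W z ↔ 1 ≤ W.valuation (E.x z) := by
  by_cases h : z + ω₁ ∈ L.lattice
  · rw [(E.x_eq_zero_iff K.H hz).mpr h]
    simp [E0, h]
  · have h1 := E.u_mul_x K.H hz h
    have h2 : W.valuation (E.x z) ≠ 0 := (map_ne_zero _).mpr (right_ne_zero_of_mul_eq_one h1)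
    rw [E0, eq_inv_of_mul_eq_one_left h1, ← W.valuation_le_one_iff, map_inv₀,
      inv_le_one₀ (zero_lt_iff.mpr h2)]
    simp [h]

lemma of_mul {T : ℂ} (h1 : (ℓ : ℂ) * T ∈ L.lattice) {k : ℤ} (hk : (k : ℂ) * T ∉ L.lattice)
    (h : E0 E W (k * T)) : E0 E W T := by
  have hd : ¬ (ℓ : ℤ) ∣ k := by
    rintro ⟨j, rfl⟩
    apply hk
    have := int_mul_mem h1 j
    rwa [show (j : ℂ) * (ℓ * T) = ((ℓ * j : ℤ) : ℂ) * T by push_cast; ring] at this
  obtain ⟨a, b, hab⟩ := ((Nat.prime_iff_prime_int.mp K.prime).coprime_iff_not_dvd).mpr hd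
  have e : (a : ℂ) * ℓ + b * k = 1 := by exact_mod_cast hab
  refine K.congr (K.int h b) ?_
  have := int_mul_mem h1 a
  rwa [show (a : ℂ) * (ℓ * T) = T - b * (k * T) by linear_combination T * e] at this

lemma two_notMem {T : ℂ} (h1 : (ℓ : ℂ) * T ∈ L.lattice) (h0 : T ∉ L.lattice) :
    T + T ∉ L.lattice := fun h => h0 (by simpa using sub_mem h1 (odd_mul_half K.odd h))

lemma tor_le {T : ℂ} (h1 : (ℓ : ℂ) * T ∈ L.lattice) (h0 : T ∉ L.lattice) :
    W.valuation (E.x T) ≤ 1 := by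
  rw [W.valuation_le_one_iff]
  by_contra h
  exact h0 (E.Kr_torsion K.H K.mem (Or.inr h) K.h0 h1)

lemma tor_in {T : ℂ} (h1 : (ℓ : ℂ) * T ∈ L.lattice) (h0 : T ∉ L.lattice) (h : E0 E W T) :
    W.valuation (E.x T) = 1 ∧ W.valuation (E.x T - 1) = 1 ∧ W.valuation (E.x T - E.lam) = 1 := by
  have a1 : W.valuation (E.x T) = 1 := le_antisymm (K.tor_le h1 h0) ((K.iff h0).mp h)
  have a3 : W.valuation (E.x T - E.lam) = 1 := by
    rw [W.valuation.map_sub_eq_of_lt_left (a1 ▸ K.hl), a1]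
  refine ⟨a1, ?_, a3⟩
  have h2 := K.two_notMem h1 h0
  have d := congrArg W.valuation (dbl_x K.H E h2)
  have b1 : W.valuation (E.x T ^ 2 - E.lam) = 1 := by
    have : W.valuation (E.x T ^ 2) = 1 := by rw [map_pow, a1, one_pow]
    rw [W.valuation.map_sub_eq_of_lt_left (this ▸ K.hl), this]
  have b2 : W.valuation (E.x (T + T)) ≤ 1 :=
    K.tor_le (by rw [mul_add]; exact add_mem h1 h1) h2
  have b3 : W.valuation 4 ≤ 1 := (W.valuation_le_one_iff _).mpr four_mem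
  rw [map_mul, map_mul, map_mul, map_mul, map_pow, a1, a3, b1, one_pow, one_mul, mul_one] at d
  refine le_antisymm (W.valuation.map_sub_le a1.le (by simp)) ?_
  rw [← d]
  calc _ ≤ 1 * (1 * W.valuation (E.x T - 1)) := by gcongr
    _ = _ := by rw [one_mul, one_mul]

lemma tor_out {T : ℂ} (h1 : (ℓ : ℂ) * T ∈ L.lattice) (h0 : T ∉ L.lattice) (h : ¬ E0 E W T) :
    E.x T ≠ 0 ∧ W.valuation (E.x T) < 1 ∧ W.valuation (E.lam / E.x T) < 1 := by
  have n1 : T + ω₁ ∉ L.lattice := fun h2 => K.two_notMem h1 h0 (by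
    have := sub_mem (add_mem h2 h2) K.H.t₁
    rwa [show T + ω₁ + (T + ω₁) - (ω₁ + ω₁) = T + T by ring] at this)
  have u1 := E.u_mul_x K.H h0 n1
  have x0 := right_ne_zero_of_mul_eq_one u1
  refine ⟨x0, not_le.mp fun h2 => h ((K.iff h0).mpr h2), not_le.mp fun h2 => h ?_⟩
  have e : E.x (T + ω₁) = E.lam / E.x T := by
    have := E.lam0
    unfold Leg.u at u1
    field_simp at u1 ⊢
    exact u1
  have h3 : E0 E W (T + ω₁) := (K.iff n1).mpr (e ▸ h2)
  refine K.of_mul h1 (k := 2) (by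
    rw [show ((2 : ℤ) : ℂ) * T = T + T by push_cast; ring]; exact K.two_notMem h1 h0) ?_
  refine K.congr (K.add h3 h3).1 ?_
  have := neg_mem K.H.t₁
  rwa [show -(ω₁ + ω₁) = ((2 : ℤ) : ℂ) * T - (T + ω₁ + (T + ω₁)) by push_cast; ring] at this

lemma sup_up {ι : Type} [Fintype ι] {T : ι → ℂ} (hS : Sup L L' T) (H' : Half L' ω₁ ω₂ ω₃)
    (E' : Leg L' ω₁ ω₂ ω₃) (h1 : ∀ i, (ℓ : ℂ) * T i ∈ L.lattice) (h : ∀ i, E0 E W (T i)) :
    W.valuation E'.lam = W.valuation E.lam ^ (2 * Fintype.card ι + 1) := by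
  have e := congrArg W.valuation (sup_formulas hS K.H H' E E').2.2.1
  have t := fun i => K.tor_in (h1 i) (hS.ne i) (h i)
  simpa only [map_mul, map_pow, map_prod, (t _).2.1, (t _).2.2, one_pow, Finset.prod_const_one,
    mul_one] using e

lemma sup_down {ι : Type} [Fintype ι] {T : ι → ℂ} (hS : Sup L L' T) (H' : Half L' ω₁ ω₂ ω₃)
    (E' : Leg L' ω₁ ω₂ ω₃) (h1 : ∀ i, (ℓ : ℂ) * T i ∈ L.lattice) (h : ∀ i, ¬ E0 E W (T i)) :
    One W (E'.a / E.a) ∧ W.valuation E'.lam < 1 ∧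
      ∀ z ∉ L'.lattice, W.valuation (E.x z) = 1 → W.valuation (E'.x z) = 1 := by
  obtain ⟨-, f1, -, f3, f4⟩ := sup_formulas hS K.H H' E E'
  have t := fun i => K.tor_out (h1 i) (hS.ne i) (h i)
  have e : ∀ i, E.x (T i) - E.lam = E.x (T i) * (1 - E.lam / E.x (T i)) := fun i => by
    have := (t i).1
    field_simp
  have p0 : ∀ n : ℕ, ∏ i, E.x (T i) ^ n ≠ 0 := fun n =>
    Finset.prod_ne_zero_iff.mpr fun i _ => pow_ne_zero _ (t i).1
  have o1 : ∀ n : ℕ, One W (∏ i, (1 - E.lam / E.x (T i)) ^ n) := fun n =>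
    one_prod _ _ fun i _ => (one_sub (t i).2.2).pow n
  refine ⟨?_, ?_, fun z hz hx => ?_⟩
  · refine One.of_mul (c := ∏ i, (1 - E.x (T i)) ^ 2) ?_ (o1 2)
      (one_prod _ _ fun i _ => (one_sub (t i).2.1).pow 2)
    simp only [e, mul_pow, Finset.prod_mul_distrib] at f1
    have a0 := leg_a_ne E
    rw [Finset.prod_congr rfl fun i _ => show (1 - E.x (T i)) ^ 2 = (E.x (T i) - 1) ^ 2 by ring]
    apply mul_left_cancel₀ (mul_ne_zero a0 (p0 2))
    field_simp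
    linear_combination f1
  · have : One W (1 - E'.lam) := by
      refine One.of_mul (c := (1 - E.lam) ^ (2 * Fintype.card ι + 1)) ?_ (o1 4)
        ((one_sub K.hl).pow _)
      simp only [e, mul_pow, Finset.prod_mul_distrib] at f3
      apply mul_left_cancel₀ (p0 4)
      linear_combination f3
    unfold One at this
    rwa [sub_sub_cancel_left, Valuation.map_neg] at this
  · have g := congrArg W.valuation (f4 z hz)
    have b1 : ∀ i, W.valuation (E.x z - E.x (T i)) = 1 := fun i => by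
      rw [W.valuation.map_sub_eq_of_lt_left (hx ▸ (t i).2.1), hx]
    have b2 : ∀ i, W.valuation (E.x (T i) - E.lam) = W.valuation (E.x (T i)) := fun i => by
      rw [e, map_mul, (one_sub (t i).2.2).val, mul_one]
    have b3 : ∀ i, W.valuation (E.x z * E.x (T i) - E.lam) = W.valuation (E.x (T i)) := fun i => by
      have := (t i).1
      rw [show E.x z * E.x (T i) - E.lam = E.x (T i) * (E.x z - E.lam / E.x (T i)) by field_simp,
        map_mul, W.valuation.map_sub_eq_of_lt_left (hx ▸ (t i).2.2), hx, mul_one]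
    have b4 : ∀ i, W.valuation (E.x (T i) - 1) = 1 := fun i => by
      rw [← Valuation.map_neg, neg_sub, (one_sub (t i).2.1).val]
    simp only [map_mul, map_pow, map_prod, b1, b2, b3, b4, hx, one_mul, mul_one] at g
    have n0 : ∏ i, W.valuation (E.x (T i)) ^ 2 ≠ 0 :=
      Finset.prod_ne_zero_iff.mpr fun i _ => pow_ne_zero _ ((map_ne_zero _).mpr (t i).1)
    exact mul_right_cancel₀ n0 (by rw [g, one_mul])

lemma ne_zero : (ℓ : ℂ) ≠ 0 := by exact_mod_cast K.prime.ne_zero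

lemma scl {L'' : PeriodPair} (hs : Scl L L'' ℓ) (E'' : Leg L'' ω₁ ω₂ ω₃) :
    E''.lam = E.lam ∧ E''.a * ℓ ^ 2 = E.a :=
  (leg_scl hs K.ne_zero E E'' (odd_mul_half K.odd K.H.t₁) (odd_mul_half K.odd K.H.t₂)
    (odd_mul_half K.odd K.H.t₃)).2

lemma exists_in (h1 : (ℓ : ResidueField W) ^ 2 ≠ 1) :
    ∃ T, (ℓ : ℂ) * T ∈ L.lattice ∧ T ∉ L.lattice ∧ E0 E W T := by
  by_contra hcon
  push Not at hcon
  obtain ⟨L'', hs⟩ := exists_scl L K.ne_zero
  obtain ⟨ι, _, T, hS⟩ := exists_sup hs K.odd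
  have H'' := hs.half K.odd K.H
  obtain ⟨E'', -⟩ := exists_leg H''
  have t : ∀ i, (ℓ : ℂ) * T i ∈ L.lattice := fun i => (hs _).mp (hS.mem i)
  have o := (K.sup_down hS H'' E'' t fun i => hcon _ (t i) (hS.ne i)).1
  have m : (ℓ : ℂ) ^ 2 ∈ W := pow_mem (natCast_mem W ℓ) 2
  have v : W.valuation ((ℓ : ℂ) ^ 2 - 1) < 1 := by
    have a0 := leg_a_ne E
    rw [show (ℓ : ℂ) ^ 2 - 1 = -(ℓ ^ 2 * (E''.a / E.a - 1)) by
      field_simp; linear_combination (K.scl hs E'').2, Valuation.map_neg, map_mul]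
    exact mul_lt_one_of_nonneg_of_lt_one_right ((W.valuation_le_one_iff _).mpr m) zero_le o
  have := (rd_eq_zero_iff (sub_mem m (one_mem _))).mpr v
  rw [rd_sub m (one_mem _), rd_pow (natCast_mem W ℓ), rd_natCast, rd_one, sub_eq_zero] at this
  exact h1 this

lemma exists_out {T₀ : ℂ} (t1 : (ℓ : ℂ) * T₀ ∈ L.lattice) (t0 : T₀ ∉ L.lattice) :
    ∃ T, (ℓ : ℂ) * T ∈ L.lattice ∧ ¬ E0 E W T := by
  by_contra hcon
  push Not at hcon
  obtain ⟨L'', hs⟩ := exists_scl L K.ne_zero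
  obtain ⟨ι, _, T, hS⟩ := exists_sup hs K.odd
  have H'' := hs.half K.odd K.H
  obtain ⟨E'', -⟩ := exists_leg H''
  have t : ∀ i, (ℓ : ℂ) * T i ∈ L.lattice := fun i => (hs _).mp (hS.mem i)
  have o := K.sup_up hS H'' E'' t fun i => hcon _ (t i)
  obtain ⟨i, -⟩ := (hS.gen T₀ ((hs _).mpr t1)).resolve_left t0
  have c : 0 < Fintype.card ι := Fintype.card_pos_iff.mpr ⟨i⟩
  have v0 : W.valuation E.lam ≠ 0 := (map_ne_zero _).mpr E.lam0
  rw [(K.scl hs E'').1, pow_succ'] at o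
  have := mul_left_cancel₀ v0 ((mul_one _).trans o)
  exact (pow_lt_one₀ zero_le K.hl (by omega)).ne this.symm

lemma cyc_up {Q : ℂ} (hc : Cyc L L' Q ℓ) (E' : Leg L' ω₁ ω₂ ω₃) (h : E0 E W Q) :
    W.valuation E'.lam = W.valuation E.lam ^ ℓ := by
  obtain ⟨m, hm⟩ := K.odd
  have H' := hc.half K.odd K.H
  have hc' : Cyc L L' Q (2 * m + 1) := hm ▸ hc
  have := K.sup_up hc'.sup H' E' (fun i => by
    rw [mul_left_comm]; exact nat_mul_mem hc.ord.mem _) (fun i => by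
    have := K.int h ((i : ℕ) + 1 : ℕ)
    rwa [Int.cast_natCast] at this)
  rwa [Fintype.card_fin, ← hm] at this

lemma cyc_down {Q T₀ : ℂ} (hc : Cyc L L' Q ℓ) (E' : Leg L' ω₁ ω₂ ω₃) (h : ¬ E0 E W Q)
    (t1 : (ℓ : ℂ) * T₀ ∈ L.lattice) (t0 : T₀ ∉ L.lattice) (t2 : E0 E W T₀) :
    T₀ ∉ L'.lattice ∧ W.valuation E'.lam ^ ℓ = W.valuation E.lam := by
  obtain ⟨m, hm⟩ := K.odd
  have H' := hc.half K.odd K.H
  have hc' : Cyc L L' Q (2 * m + 1) := hm ▸ hc
  have n0 : T₀ ∉ L'.lattice := by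
    intro h0
    obtain ⟨k, hk⟩ := (hc.mem _).mp h0
    refine h (K.of_mul hc.ord.mem (k := k) (fun h1 => t0 (by simpa using add_mem hk h1)) ?_)
    exact K.congr t2 (by simpa using neg_mem hk)
  obtain ⟨-, d2, d3⟩ := K.sup_down hc'.sup H' E' (fun i => by
    rw [mul_left_comm]; exact nat_mul_mem hc.ord.mem _) (fun i h1 => h (by
      refine K.of_mul hc.ord.mem (k := ((i : ℕ) + 1 : ℕ)) ?_ ?_
      · rw [Int.cast_natCast]; exact hc'.sup.ne i
      · rwa [Int.cast_natCast]))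
  have K' : Cu E' W ℓ := ⟨H', d2, K.prime, K.odd, K.h0⟩
  obtain ⟨L'', hs⟩ := exists_scl L K.ne_zero
  obtain ⟨E'', -⟩ := exists_leg (hs.half K.odd K.H)
  have := K'.cyc_up (hc.dual_prime K.prime hs t1 n0) E''
    ((K'.iff n0).mpr (d3 T₀ n0 (K.tor_in t1 t0 t2).1).ge)
  rw [(K.scl hs E'').1] at this
  exact ⟨n0, this.symm⟩

end Cu

theorem cusp_prime (H : Half L ω₁ ω₂ ω₃) (E : Leg L ω₁ ω₂ ω₃) (W : ValuationSubring ℂ)
    (hl : W.valuation E.lam < 1) (hℓ : ℓ.Prime) (hℓ2 : ℓ ≠ 2) (_h2 : (2 : ResidueField W) ≠ 0)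
    (h0 : (ℓ : ResidueField W) ≠ 0) (h1 : (ℓ : ResidueField W) ^ 2 ≠ 1) :
    ∃ U D : Finset (Submodule ℤ ℂ), U.card ≤ 1 ∧ D.card ≤ ℓ ∧
      ∀ (L' : PeriodPair) (Q : ℂ) (E' : Leg L' ω₁ ω₂ ω₃), Cyc L L' Q ℓ →
        (L'.lattice ∈ U ∧ W.valuation E'.lam = W.valuation E.lam ^ ℓ) ∨
        (L'.lattice ∈ D ∧ W.valuation E'.lam ^ ℓ = W.valuation E.lam) := by
  classical
  have K : Cu E W ℓ := ⟨H, hl, hℓ, hℓ.odd_of_ne_two hℓ2, h0⟩
  obtain ⟨T₀, t1, t0, t2⟩ := K.exists_in h1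
  obtain ⟨T₁, s1, s2⟩ := K.exists_out t1 t0
  obtain ⟨L₀, c₀⟩ := exists_cyc hℓ.pos (ord_of_prime hℓ t1 t0)
  obtain ⟨S, hS, hS'⟩ := count_prime L hℓ
  refine ⟨{L₀.lattice}, S.erase L₀.lattice, by simp, ?_, fun L' Q E' hc => ?_⟩
  · rw [Finset.card_erase_of_mem (hS' _ _ c₀)]
    omega
  by_cases h : E0 E W Q
  · refine Or.inl ⟨Finset.mem_singleton.mpr (c₀.eq_of_mem hℓ hc ?_).symm, K.cyc_up hc E' h⟩
    by_contra hQ
    obtain ⟨i, j, hij⟩ := two_gen hℓ c₀ hc.ord.mem hQ s1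
    exact s2 (K.congr (K.add (K.int t2 i) (K.int h j)).1 (by rwa [← sub_sub]))
  · obtain ⟨n0, e⟩ := K.cyc_down hc E' h t1 t0 t2
    exact Or.inr ⟨Finset.mem_erase.mpr ⟨fun h1 => n0 (h1 ▸ c₀.self_mem), hS' _ _ hc⟩, e⟩

end Pool.Agent.Lib.MP_4a1067_nt.Am
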