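import Mathlib
import Pool.Agent.Lib.MP_4a1067_nt.AmCusp

/-! The four slopes of the correspondence at the cusp. -/

namespace Pool.Agent.Lib.MP_4a1067_nt.Am

open IsLocalRing

variable {L : PeriodPair} {ω₁ ω₂ ω₃ : ℂ} {ℓ ℓ' : ℕ}

/-- denominators of the four slopes -/
def dn (ℓ ℓ' : ℕ) : Fin 4 → ℕ := ![1, ℓ', ℓ, ℓ * ℓ']

/-- numerators of the four slopes -/
def nm (ℓ ℓ' : ℕ) : Fin 4 → ℕ := ![ℓ * ℓ', ℓ, ℓ', 1]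

lemma dn_pos (hℓ : ℓ.Prime) (hℓ' : ℓ'.Prime) (c : Fin 4) : 0 < dn ℓ ℓ' c := by
  have h := hℓ.pos
  have h' := hℓ'.pos
  fin_cases c <;> simp [dn, h, h']

lemma coprime_dn_nm (hℓ : ℓ.Prime) (hℓ' : ℓ'.Prime) (hne : ℓ ≠ ℓ') (c : Fin 4) :
    (dn ℓ ℓ' c).Coprime (nm ℓ ℓ' c) := by
  have h := (Nat.coprime_primes hℓ hℓ').mpr hne
  fin_cases c
  · exact Nat.coprime_one_left _
  · exact h.symm
  · exact h
  · exact Nat.coprime_one_right _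

lemma slope_inj (hℓ : ℓ.Prime) (hℓ' : ℓ'.Prime) (hne : ℓ ≠ ℓ') {c d : Fin 4}
    (h : nm ℓ ℓ' c * dn ℓ ℓ' d = nm ℓ ℓ' d * dn ℓ ℓ' c) : c = d := by
  have a := coprime_dn_nm hℓ hℓ' hne c
  have b := coprime_dn_nm hℓ hℓ' hne d
  have e : dn ℓ ℓ' c = dn ℓ ℓ' d := by
    apply Nat.dvd_antisymm
    · exact a.dvd_of_dvd_mul_left (by rw [h]; exact dvd_mul_left _ _)
    · exact b.dvd_of_dvd_mul_left (by rw [← h]; exact dvd_mul_left _ _)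
  have h2 := hℓ.two_le
  have h2' := hℓ'.two_le
  have m1 : ℓ < ℓ * ℓ' := by nlinarith
  have m2 : ℓ' < ℓ * ℓ' := by nlinarith
  fin_cases c <;> fin_cases d <;> simp only [dn] at e <;> first
    | rfl
    | (exfalso; simp at e; omega)

/-- the parameter depends only on the lattice -/
lemma amcusp2_val (ω₁ ω₂ ω₃ : ℂ) : ∃ f : Submodule ℤ ℂ → ℂ,
    ∀ (L' : PeriodPair) (E' : Leg L' ω₁ ω₂ ω₃), f L'.lattice = -2 / E'.lam := by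
  have key : ∀ M : Submodule ℤ ℂ, ∃ w : ℂ, ∀ (L' : PeriodPair) (E' : Leg L' ω₁ ω₂ ω₃),
      L'.lattice = M → w = -2 / E'.lam := by
    intro M
    by_cases h : ∃ (L₁ : PeriodPair) (_ : Leg L₁ ω₁ ω₂ ω₃), L₁.lattice = M
    · obtain ⟨L₁, E₁, h₁⟩ := h
      refine ⟨-2 / E₁.lam, fun L' E' h' => ?_⟩
      rw [(leg_congr (h'.trans h₁.symm) E₁ E').2.1]
    · exact ⟨0, fun L' E' h' => (h ⟨L', E', h'⟩).elim⟩
  choose f hf using key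
  exact ⟨f, fun L' E' => hf _ L' E' rfl⟩

/-- the second step, uniformly in the intermediate lattice -/
lemma amcusp2_step (ω₁ ω₂ ω₃ : ℂ) (W : ValuationSubring ℂ) (hℓ : ℓ.Prime) (hℓ2 : ℓ ≠ 2)
    (h2 : (2 : ResidueField W) ≠ 0) (h0 : (ℓ : ResidueField W) ≠ 0)
    (h1 : (ℓ : ResidueField W) ^ 2 ≠ 1) (M : Submodule ℤ ℂ) :
    ∃ U D : Finset (Submodule ℤ ℂ), U.card ≤ 1 ∧ D.card ≤ ℓ ∧
      ∀ (L₁ : PeriodPair) (E₁ : Leg L₁ ω₁ ω₂ ω₃), L₁.lattice = M → Half L₁ ω₁ ω₂ ω₃ →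
        W.valuation E₁.lam < 1 →
        ∀ (L' : PeriodPair) (Q : ℂ) (E' : Leg L' ω₁ ω₂ ω₃), Cyc L₁ L' Q ℓ →
          (L'.lattice ∈ U ∧ W.valuation E'.lam = W.valuation E₁.lam ^ ℓ) ∨
          (L'.lattice ∈ D ∧ W.valuation E'.lam ^ ℓ = W.valuation E₁.lam) := by
  by_cases h : ∃ (L₀ : PeriodPair) (E₀ : Leg L₀ ω₁ ω₂ ω₃), L₀.lattice = M ∧ Half L₀ ω₁ ω₂ ω₃ ∧
      W.valuation E₀.lam < 1
  · obtain ⟨L₀, E₀, hM, H₀, hv⟩ := h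
    obtain ⟨U, D, hU, hD, hc⟩ := cusp_prime H₀ E₀ W hv hℓ hℓ2 h2 h0 h1
    refine ⟨U, D, hU, hD, fun L₁ E₁ h₁ _ _ L' Q E' hQ => ?_⟩
    rw [(leg_congr (h₁.trans hM.symm) E₀ E₁).2.1]
    exact hc L' Q E' (hQ.congr (hM.trans h₁.symm) rfl)
  · exact ⟨∅, ∅, by simp, by simp, fun L₁ E₁ h₁ H₁ hv => (h ⟨L₁, E₁, h₁, H₁, hv⟩).elim⟩

theorem cusp (H : Half L ω₁ ω₂ ω₃) (E : Leg L ω₁ ω₂ ω₃) (W : ValuationSubring ℂ)
    (hl : W.valuation E.lam < 1) (hℓ : ℓ.Prime) (hℓ2 : ℓ ≠ 2) (hℓ' : ℓ'.Prime) (hℓ2' : ℓ' ≠ 2)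
    (h2 : (2 : ResidueField W) ≠ 0)
    (h0 : (ℓ : ResidueField W) ≠ 0) (h1 : (ℓ : ResidueField W) ^ 2 ≠ 1)
    (h0' : (ℓ' : ResidueField W) ≠ 0) (h1' : (ℓ' : ResidueField W) ^ 2 ≠ 1) :
    ∃ S : Fin 4 → Finset ℂ, (∀ c, (S c).card ≤ dn ℓ ℓ' c) ∧
      ∀ (L' : PeriodPair) (Q : ℂ) (E' : Leg L' ω₁ ω₂ ω₃), Cyc L L' Q (ℓ * ℓ') →
        ∃ c, -2 / E'.lam ∈ S c ∧
          W.valuation E'.lam ^ dn ℓ ℓ' c = W.valuation E.lam ^ nm ℓ ℓ' c := by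
  classical
  obtain ⟨f, hf⟩ := amcusp2_val ω₁ ω₂ ω₃
  obtain ⟨U, D, hU, hD, hc⟩ := cusp_prime H E W hl hℓ hℓ2 h2 h0 h1
  choose U₂ D₂ hU₂ hD₂ hc₂ using amcusp2_step ω₁ ω₂ ω₃ W hℓ' hℓ2' h2 h0' h1'
  have card : ∀ (A : Finset (Submodule ℤ ℂ)) (B : Submodule ℤ ℂ → Finset (Submodule ℤ ℂ))
      (a b : ℕ), A.card ≤ a → (∀ M, (B M).card ≤ b) → ((A.biUnion B).image f).card ≤ a * b :=
    fun A B a b hA hB => Finset.card_image_le.trans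
      ((Finset.card_biUnion_le_card_mul A B b fun M _ => hB M).trans (Nat.mul_le_mul_right b hA))
  have mem : ∀ (A : Finset (Submodule ℤ ℂ)) (B : Submodule ℤ ℂ → Finset (Submodule ℤ ℂ))
      (M : Submodule ℤ ℂ) (L' : PeriodPair) (E' : Leg L' ω₁ ω₂ ω₃), M ∈ A → L'.lattice ∈ B M →
      -2 / E'.lam ∈ (A.biUnion B).image f := fun A B M L' E' hA hB =>
    Finset.mem_image.mpr ⟨L'.lattice, Finset.mem_biUnion.mpr ⟨M, hA, hB⟩, hf L' E'⟩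
  refine ⟨![(U.biUnion U₂).image f, (U.biUnion D₂).image f, (D.biUnion U₂).image f,
    (D.biUnion D₂).image f], fun c => ?_, fun L' Q E' hQ => ?_⟩
  · fin_cases c
    · exact card U U₂ 1 1 hU hU₂
    · exact (card U D₂ 1 ℓ' hU hD₂).trans (one_mul _).le
    · exact (card D U₂ ℓ 1 hD hU₂).trans (mul_one _).le
    · exact card D D₂ ℓ ℓ' hD hD₂
  · obtain ⟨L₁, c₁, c₂⟩ := hQ.split hℓ.pos hℓ'.pos
    have H₁ := c₁.half (hℓ.odd_of_ne_two hℓ2) H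
    obtain ⟨E₁, -⟩ := exists_leg H₁
    rcases hc L₁ _ E₁ c₁ with ⟨m₁, v₁⟩ | ⟨m₁, v₁⟩
    · have hv : W.valuation E₁.lam < 1 := by
        rw [v₁]
        exact pow_lt_one₀ zero_le hl hℓ.ne_zero
      rcases hc₂ _ L₁ E₁ rfl H₁ hv L' Q E' c₂ with ⟨m₂, v₂⟩ | ⟨m₂, v₂⟩
      · refine ⟨0, mem U U₂ _ L' E' m₁ m₂, ?_⟩
        show W.valuation E'.lam ^ 1 = W.valuation E.lam ^ (ℓ * ℓ')
        rw [pow_one, v₂, v₁, pow_mul]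
      · refine ⟨1, mem U D₂ _ L' E' m₁ m₂, ?_⟩
        show W.valuation E'.lam ^ ℓ' = W.valuation E.lam ^ ℓ
        rw [v₂, v₁]
    · have hv : W.valuation E₁.lam < 1 := by
        by_contra hge
        exact absurd (v₁ ▸ one_le_pow₀ (not_lt.mp hge)) (not_le.mpr hl)
      rcases hc₂ _ L₁ E₁ rfl H₁ hv L' Q E' c₂ with ⟨m₂, v₂⟩ | ⟨m₂, v₂⟩
      · refine ⟨2, mem D U₂ _ L' E' m₁ m₂, ?_⟩
        show W.valuation E'.lam ^ ℓ = W.valuation E.lam ^ ℓ'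
        rw [v₂, ← v₁, ← pow_mul, ← pow_mul, mul_comm]
      · refine ⟨3, mem D D₂ _ L' E' m₁ m₂, ?_⟩
        show W.valuation E'.lam ^ (ℓ * ℓ') = W.valuation E.lam ^ 1
        rw [pow_one, mul_comm, pow_mul, v₂, v₁]

end Pool.Agent.Lib.MP_4a1067_nt.Am
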