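import Mathlib
import Pool.Agent.Lib.MP_4a1067_nt.AmBasic

/-! Newton polygon lemma and valuations at infinity. -/

namespace Pool.Agent.Lib.MP_4a1067_nt.Am

open Polynomial IntermediateField

section Aux
variable {Ω : Type*} [Field Ω]

lemma amnewton_res (U : ValuationSubring Ω) (t : U) :
    IsLocalRing.residue U t = 0 ↔ U.valuation (t : Ω) < 1 := by
  rw [IsLocalRing.residue_eq_zero_iff, ValuationSubring.valuation_lt_one_iff]

open Classical in
lemma amnewton_one (U : ValuationSubring Ω) (c : Ω) (hc : c ≠ 0) (r : Ω) :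
    ∃ (Q : Polynomial U) (d : Ω), d ≠ 0 ∧ Q.map U.subtype = C d * (X - C r).comp (C c * X) ∧
      Q.map (IsLocalRing.residue U) ≠ 0 ∧
      (Q.map (IsLocalRing.residue U)).natDegree =
        (Q.map (IsLocalRing.residue U)).natTrailingDegree +
          if U.valuation r = U.valuation c then 1 else 0 := by
  have hvc : 0 < U.valuation c := (Valuation.pos_iff _).2 hc
  rcases le_or_gt (U.valuation r) (U.valuation c) with h | h
  · have hm : r / c ∈ U := by
      rw [← ValuationSubring.valuation_le_one_iff, map_div₀]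
      exact div_le_one_of_le₀ h hvc.le
    have e : (X - C (⟨r / c, hm⟩ : U)).map (IsLocalRing.residue U) =
        X - C (IsLocalRing.residue U ⟨r / c, hm⟩) := by
      rw [Polynomial.map_sub, map_X, map_C]
    refine ⟨X - C ⟨r / c, hm⟩, c⁻¹, inv_ne_zero hc, ?_, ?_, ?_⟩
    · rw [Polynomial.map_sub, map_X, map_C, sub_comp, X_comp, C_comp, mul_sub, ← mul_assoc,
        ← C_mul, ← C_mul, inv_mul_cancel₀ hc, C_1, one_mul]
      congr 2
      exact div_eq_inv_mul r c
    · rw [e]
      exact X_sub_C_ne_zero _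
    · rw [e, natDegree_X_sub_C]
      have hr := amnewton_res U ⟨r / c, hm⟩
      rw [map_div₀, div_lt_one₀ hvc] at hr
      split_ifs with h1
      · have h2 : IsLocalRing.residue U ⟨r / c, hm⟩ ≠ 0 := fun h3 => (hr.1 h3).ne h1
        rw [natTrailingDegree_eq_zero.2 (Or.inr (by simpa using h2))]
      · rw [hr.2 (lt_of_le_of_ne h h1), C_0, sub_zero, natTrailingDegree_X]
  · have hvr : 0 < U.valuation r := hvc.trans h
    have hr0 : r ≠ 0 := (Valuation.pos_iff _).1 hvr
    have hlt : U.valuation (c / r) < 1 := by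
      rw [map_div₀, div_lt_one₀ hvr]
      exact h
    have hm : c / r ∈ U := (ValuationSubring.valuation_le_one_iff _ _).1 hlt.le
    have e : (1 - C (⟨c / r, hm⟩ : U) * X).map (IsLocalRing.residue U) = 1 := by
      rw [Polynomial.map_sub, Polynomial.map_mul, map_C, (amnewton_res U ⟨c / r, hm⟩).2 hlt]
      simp
    refine ⟨1 - C ⟨c / r, hm⟩ * X, -r⁻¹, neg_ne_zero.2 (inv_ne_zero hr0), ?_, ?_, ?_⟩
    · rw [Polynomial.map_sub, Polynomial.map_mul, map_X, map_C, Polynomial.map_one, sub_comp,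
        X_comp, C_comp, mul_sub, ← mul_assoc, ← C_mul, ← C_mul, neg_mul, neg_mul,
        inv_mul_cancel₀ hr0, C_neg, C_neg, C_1]
      have : U.subtype ⟨c / r, hm⟩ = r⁻¹ * c := div_eq_inv_mul c r
      rw [this]
      ring
    · rw [e]
      exact one_ne_zero
    · rw [e, if_neg h.ne', natDegree_one, natTrailingDegree_one]

open Classical in
lemma amnewton_ind (U : ValuationSubring Ω) (c : Ω) (hc : c ≠ 0) (s : Multiset Ω) :
    ∃ (Q : Polynomial U) (d : Ω), d ≠ 0 ∧
      Q.map U.subtype = C d * (s.map fun r => X - C r).prod.comp (C c * X) ∧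
      Q.map (IsLocalRing.residue U) ≠ 0 ∧
      (Q.map (IsLocalRing.residue U)).natDegree =
        (Q.map (IsLocalRing.residue U)).natTrailingDegree +
          s.countP fun r => U.valuation r = U.valuation c := by
  induction s using Multiset.induction_on with
  | empty => exact ⟨1, 1, one_ne_zero, by simp, by simp, by simp⟩
  | cons r s ih =>
    obtain ⟨Q, d, hd, e, h0, hn⟩ := ih
    obtain ⟨Q', d', hd', e', h0', hn'⟩ := amnewton_one U c hc r
    refine ⟨Q' * Q, d' * d, mul_ne_zero hd' hd, ?_, ?_, ?_⟩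
    · rw [Polynomial.map_mul, e, e', Multiset.map_cons, Multiset.prod_cons, mul_comp, C_mul]
      ring
    · rw [Polynomial.map_mul]
      exact mul_ne_zero h0' h0
    · rw [Polynomial.map_mul, natDegree_mul h0' h0, natTrailingDegree_mul h0' h0, hn, hn',
        Multiset.countP_cons]
      ring

end Aux

open Classical in
theorem newton {K Ω : Type*} [Field K] [Field Ω] [Algebra K Ω] (U : ValuationSubring Ω)
    (q : K[X]) (s : Multiset Ω)
    (hs : q.map (algebraMap K Ω) = (s.map fun r => X - C r).prod) (c : Ω) (hc : c ≠ 0) :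
    ∃ k : K, k ≠ 0 ∧ U.valuation (algebraMap K Ω k)
      = U.valuation c ^ (s.countP fun r => U.valuation r = U.valuation c) := by
  obtain ⟨Q, d, hd, e, h0, hn⟩ := amnewton_ind U c hc s
  rw [← hs] at e
  have key : ∀ j, (Q.map (IsLocalRing.residue U)).coeff j ≠ 0 →
      U.valuation d * (U.valuation (algebraMap K Ω (q.coeff j)) * U.valuation c ^ j) = 1 := by
    intro j hj
    rw [coeff_map, Ne, amnewton_res, not_lt] at hj
    have h1 : ((Q.coeff j : U) : Ω) = d * (algebraMap K Ω (q.coeff j) * c ^ j) := by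
      have := congrArg (fun p => p.coeff j) e
      simp only [coeff_map, coeff_C_mul, comp_C_mul_X_coeff] at this
      exact this
    have h2 := le_antisymm (U.valuation_le_one (Q.coeff j)) hj
    rwa [h1, map_mul, map_mul, map_pow] at h2
  have h1 := key _ (trailingCoeff_nonzero_iff_nonzero.2 h0)
  have h2 := key _ (leadingCoeff_ne_zero.2 h0)
  rw [hn] at h2
  set i := (Q.map (IsLocalRing.residue U)).natTrailingDegree
  set m := s.countP fun r => U.valuation r = U.valuation c
  have n1 : U.valuation (algebraMap K Ω (q.coeff i)) ≠ 0 := fun h => by simp [h] at h1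
  have n2 : U.valuation (algebraMap K Ω (q.coeff (i + m))) ≠ 0 := fun h => by simp [h] at h2
  have nc : U.valuation c ≠ 0 := (Valuation.ne_zero_iff _).2 hc
  have nd : U.valuation d ≠ 0 := (Valuation.ne_zero_iff _).2 hd
  refine ⟨q.coeff i / q.coeff (i + m), div_ne_zero (fun h => n1 (by simp [h]))
    (fun h => n2 (by simp [h])), ?_⟩
  rw [map_div₀, map_div₀, div_eq_iff n2]
  have h3 := mul_left_cancel₀ nd (h1.trans h2.symm)
  refine mul_right_cancel₀ (pow_ne_zero i nc) (h3.trans ?_)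
  rw [pow_add]
  ac_rfl

variable {κ Ω : Type*} [Field κ] [Field Ω] [Algebra κ Ω]

theorem exists_cusp_val (u : Ω) (hu : Transcendental κ u) :
    ∃ U : ValuationSubring Ω, (∀ c : κ, algebraMap κ Ω c ∈ U) ∧ 1 < U.valuation u := by
  have hu' : Transcendental κ u⁻¹ := fun h => hu (IsAlgebraic.inv_iff.1 h)
  have h0 : u ≠ 0 := fun h => hu (h ▸ isAlgebraic_zero)
  let B := Algebra.adjoin κ {u⁻¹}
  let t : B.toSubring := ⟨u⁻¹, Algebra.self_mem_adjoin_singleton κ u⁻¹⟩
  have hI : Ideal.span {t} ≠ ⊤ := by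
    intro h
    obtain ⟨a, ha⟩ := Ideal.mem_span_singleton'.1 (h ▸ Submodule.mem_top : (1 : B.toSubring) ∈ _)
    have ha' : (a : Ω) * u⁻¹ = 1 := congrArg Subtype.val ha
    have hm : (a : Ω) ∈ (aeval u⁻¹ : κ[X] →ₐ[κ] Ω).range := by
      rw [← Algebra.adjoin_singleton_eq_range_aeval]
      exact a.2
    obtain ⟨p, hp⟩ := hm
    have hp' : aeval u⁻¹ p = a := hp
    have h1 : aeval u⁻¹ (p * X - 1) = 0 := by
      rw [map_sub, map_mul, aeval_X, hp', ha', map_one, sub_self]
    have h2 := congrArg (fun p => p.coeff 0) (transcendental_iff.1 hu' _ h1)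
    simp at h2
  obtain ⟨U, hU, hn⟩ := Ideal.image_subset_nonunits_valuationSubring _ hI
  refine ⟨U, fun c => hU (B.algebraMap_mem c), ?_⟩
  have h1 : u⁻¹ ∈ U.nonunits := hn ⟨t, Ideal.subset_span rfl, rfl⟩
  rw [ValuationSubring.mem_nonunits_iff, map_inv₀] at h1
  exact (inv_lt_one₀ ((Valuation.pos_iff _).2 h0)).1 h1

lemma amnewton_const (U : ValuationSubring Ω) (hκ : ∀ c : κ, algebraMap κ Ω c ∈ U) {c : κ}
    (hc : c ≠ 0) : U.valuation (algebraMap κ Ω c) = 1 := by
  refine le_antisymm ((ValuationSubring.valuation_le_one_iff _ _).2 (hκ c)) ?_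
  have h := (ValuationSubring.valuation_le_one_iff _ _).2 (hκ c⁻¹)
  rw [map_inv₀, map_inv₀] at h
  exact (inv_le_one₀ ((Valuation.pos_iff _).2 (by simpa using hc))).1 h

theorem val_aeval (u : Ω) (U : ValuationSubring Ω) (hκ : ∀ c : κ, algebraMap κ Ω c ∈ U)
    (hu : 1 < U.valuation u) (q : κ[X]) (hq : q ≠ 0) :
    U.valuation (aeval u q) = U.valuation u ^ q.natDegree := by
  have h0 : U.valuation u ≠ 0 := (zero_lt_one.trans hu).ne'
  have ht : U.valuation (q.coeff q.natDegree • u ^ q.natDegree) = U.valuation u ^ q.natDegree := by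
    rw [Algebra.smul_def, map_mul, map_pow,
      amnewton_const U hκ (c := q.coeff q.natDegree) (leadingCoeff_ne_zero.2 hq), one_mul]
  rw [aeval_eq_sum_range, Finset.sum_range_succ, Valuation.map_add_eq_of_lt_right, ht]
  rw [ht]
  refine Valuation.map_sum_lt _ (pow_ne_zero _ h0) fun i hi => ?_
  rw [Algebra.smul_def, map_mul, map_pow]
  refine lt_of_le_of_lt ?_ (pow_lt_pow_right₀ hu (Finset.mem_range.1 hi))
  exact mul_le_of_le_one_left' ((ValuationSubring.valuation_le_one_iff _ _).2 (hκ _))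

theorem val_adjoin (u : Ω) (U : ValuationSubring Ω) (hκ : ∀ c : κ, algebraMap κ Ω c ∈ U)
    (hu : 1 < U.valuation u) (z : Ω) (hz : z ∈ κ⟮u⟯) (h0 : z ≠ 0) :
    ∃ i j : ℕ, U.valuation z * U.valuation u ^ i = U.valuation u ^ j := by
  obtain ⟨r, s, rfl⟩ := (mem_adjoin_simple_iff κ z).1 hz
  have hr : r ≠ 0 := fun h => h0 (by simp [h])
  have hs : s ≠ 0 := fun h => h0 (by simp [h])
  have hs' : aeval u s ≠ 0 := fun h => h0 (by simp [h])
  refine ⟨s.natDegree, r.natDegree, ?_⟩
  rw [← val_aeval u U hκ hu s hs, ← val_aeval u U hκ hu r hr, ← map_mul,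
    div_mul_cancel₀ _ hs']

lemma amnewton_coprime (u m : Ω) (hm : m ∈ κ⟮u⟯) (h0 : m ≠ 0) :
    ∃ r s : κ[X], r ≠ 0 ∧ s ≠ 0 ∧ IsCoprime r s ∧ m * aeval u s = aeval u r := by
  classical
  obtain ⟨r, s, rfl⟩ := (mem_adjoin_simple_iff κ m).1 hm
  have hr : r ≠ 0 := fun h => h0 (by simp [h])
  have hs : s ≠ 0 := fun h => h0 (by simp [h])
  have hs' : aeval u s ≠ 0 := fun h => h0 (by simp [h])
  have hg : gcd r s ≠ 0 := gcd_ne_zero_of_right hs
  have er : gcd r s * (r / gcd r s) = r := EuclideanDomain.mul_div_cancel' hg (gcd_dvd_left r s)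
  have es : gcd r s * (s / gcd r s) = s := EuclideanDomain.mul_div_cancel' hg (gcd_dvd_right r s)
  refine ⟨r / gcd r s, s / gcd r s, fun h => hr (by rw [← er, h, mul_zero]),
    fun h => hs (by rw [← es, h, mul_zero]), isCoprime_div_gcd_div_gcd hs, ?_⟩
  have hg' : aeval u (gcd r s) ≠ 0 := fun h => hs' (by rw [← es, map_mul, h, zero_mul])
  refine mul_left_cancel₀ hg' ?_
  rw [← map_mul, er, mul_left_comm, ← map_mul, es, div_mul_cancel₀ _ hs']

lemma amnewton_pow [IsAlgClosed κ] (p : κ[X]) (a : κ) (h : ∀ r, p.eval r = 0 → r = a) :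
    p = C p.leadingCoeff * (X - C a) ^ p.natDegree := by
  have h1 : p.roots = Multiset.replicate p.natDegree a :=
    Multiset.eq_replicate.2 ⟨IsAlgClosed.card_roots_eq_natDegree, fun r hr =>
      h r (isRoot_of_mem_roots hr)⟩
  have h2 := (IsAlgClosed.splits p).eq_prod_roots
  rwa [h1, Multiset.map_replicate, Multiset.prod_replicate] at h2

/-- no rational function `m` with `m`, `1 - m` units away from `0, -2, ∞` vanishes at infinity to
order `n ≥ 2` prime to the characteristic -/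
theorem sunit [IsAlgClosed κ] (u : Ω) (U : ValuationSubring Ω)
    (hκ : ∀ c : κ, algebraMap κ Ω c ∈ U) (hu : 1 < U.valuation u) (m : Ω) (hm : m ∈ κ⟮u⟯)
    (n : ℕ) (hn : 2 ≤ n) (hn' : ((2 * n : ℕ) : κ) ≠ 0)
    (hv : U.valuation m * U.valuation u ^ n = 1)
    (hpl : ∀ r : κ, r ≠ 0 → r ≠ -2 → ∃ P : Pl Ω κ,
      (∀ q : κ[X], aeval u q ∈ P.A ∧ P.ev (aeval u q) = q.eval r) ∧ Un P.A m ∧ Un P.A (1 - m)) :
    False := by
  have h0 : m ≠ 0 := fun h => by simp [h] at hv
  obtain ⟨P1, P3, h1, h3, hc, e⟩ := amnewton_coprime u m hm h0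
  have hnc : ∀ r, P1.eval r = 0 → P3.eval r = 0 → False := by
    intro r a b
    obtain ⟨x, y, hxy⟩ := hc
    have := congrArg (eval r) hxy
    simp [a, b] at this
  have hroot : ∀ r, P1.eval r = 0 ∨ (P3 - P1).eval r = 0 ∨ P3.eval r = 0 → r = 0 ∨ r = -2 := by
    intro r hr
    by_contra hh
    obtain ⟨P, hP, u1, u2⟩ := hpl r (fun h => hh (Or.inl h)) (fun h => hh (Or.inr h))
    have a1 : P.ev m * P3.eval r = P1.eval r := by
      rw [← (hP P3).2, ← (hP P1).2, ← P.ev_mul u1.mem (hP P3).1, e]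
    have a2 : P.ev (1 - m) * P3.eval r = (P3 - P1).eval r := by
      rw [← (hP P3).2, ← (hP (P3 - P1)).2, ← P.ev_mul u2.mem (hP P3).1, map_sub, ← e, sub_mul,
        one_mul]
    have a3 : P3.eval r ≠ 0 := fun h => hnc r (by rw [← a1, h, mul_zero]) h
    rcases hr with h | h | h
    · exact mul_ne_zero (P.ev_ne u1) a3 (a1.trans h)
    · exact mul_ne_zero (P.ev_ne u2) a3 (a2.trans h)
    · exact a3 h
  have hd : P3.natDegree = P1.natDegree + n := by
    have a := congrArg U.valuation e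
    rw [map_mul, val_aeval u U hκ hu P3 h3, val_aeval u U hκ hu P1 h1] at a
    refine (pow_right_strictMono₀ hu).injective ?_
    show U.valuation u ^ P3.natDegree = U.valuation u ^ (P1.natDegree + n)
    rw [pow_add, ← a, mul_right_comm, hv, one_mul]
  have hlt : P1.natDegree < P3.natDegree := by omega
  have hd2 : (P3 - P1).natDegree = P3.natDegree := natDegree_sub_eq_left_of_natDegree_lt hlt
  have hl2 : (P3 - P1).leadingCoeff = P3.leadingCoeff :=
    leadingCoeff_sub_of_degree_lt (degree_lt_degree hlt)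
  obtain ⟨a, ha⟩ := IsAlgClosed.exists_root P3
    (natDegree_pos_iff_degree_pos.1 (by omega)).ne'
  obtain ⟨b, hb⟩ := IsAlgClosed.exists_root (P3 - P1)
    (natDegree_pos_iff_degree_pos.1 (by omega)).ne'
  replace ha : P3.eval a = 0 := ha
  replace hb : (P3 - P1).eval b = 0 := hb
  have h23 : ∀ r, (P3 - P1).eval r = 0 → P3.eval r = 0 → False := fun r x y =>
    hnc r (by rwa [eval_sub, y, zero_sub, neg_eq_zero] at x) y
  have h12 : ∀ r, P1.eval r = 0 → (P3 - P1).eval r = 0 → False := fun r x y =>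
    hnc r x (by rwa [eval_sub, x, sub_zero] at y)
  have hab : a ≠ b := fun h => h23 a (h ▸ hb) ha
  have hcov : ∀ r : κ, r = 0 ∨ r = -2 → r = a ∨ r = b := by
    intro r hr
    have ha' := hroot a (Or.inr (Or.inr ha))
    have hb' := hroot b (Or.inr (Or.inl hb))
    grind
  have hP1 : P1.natDegree = 0 := by
    by_contra hh
    obtain ⟨r, hr⟩ := IsAlgClosed.exists_root P1
      (natDegree_pos_iff_degree_pos.1 (Nat.pos_of_ne_zero hh)).ne'
    rcases hcov r (hroot r (Or.inl hr)) with h | h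
    · exact hnc r hr (h ▸ ha)
    · exact h12 r hr (h ▸ hb)
  have e3 := amnewton_pow P3 a fun r hr =>
    (hcov r (hroot r (Or.inr (Or.inr hr)))).resolve_right fun h => h23 r (h ▸ hb) hr
  have e2 := amnewton_pow (P3 - P1) b fun r hr =>
    (hcov r (hroot r (Or.inr (Or.inl hr)))).resolve_left fun h => h23 r hr (h ▸ ha)
  rw [hl2, hd2] at e2
  rw [hP1, zero_add] at hd
  rw [hd] at e2 e3
  have hl : P3.leadingCoeff ≠ 0 := leadingCoeff_ne_zero.2 h3
  generalize P3.leadingCoeff = l at e2 e3 hl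
  have e4 : derivative (C l * (X - C b) ^ n) = derivative (C l * (X - C a) ^ n) := by
    rw [← e2, ← e3, derivative_sub, derivative_of_natDegree_zero hP1, sub_zero]
  have e5 := congrArg (eval a) e4
  have hn0 : (n : κ) ≠ 0 := fun h => hn' (by rw [Nat.cast_mul, h, mul_zero])
  have hn1 : n - 1 ≠ 0 := by omega
  simp [derivative_X_sub_C_pow, hl, hn0, hn1, sub_eq_zero, hab] at e5

end Pool.Agent.Lib.MP_4a1067_nt.Am
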