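import Mathlib
import Pool.Agent.Lib.MP_4a1067_nt.AmExt

/-! Conjugates over the generic base ring. -/

namespace Pool.Agent.Lib.MP_4a1067_nt.Am

open Polynomial

lemma amconj_surj {κ Ω : Type*} [CommRing κ] [Field Ω] [Algebra κ Ω] (n : ℕ) (u : Ω)
    (hf : 2 * n * u * (u + 2) ≠ 0) {z : Ω} (hz : z ∈ Bz n u) :
    ∃ (N : ℕ) (r : κ[X]), z * (2 * n * u * (u + 2)) ^ N = aeval u r := by
  set g : κ[X] := 2 * (n : κ[X]) * X * (X + 2) with hg
  have e : aeval u g = 2 * n * u * (u + 2) := by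
    simp only [hg, map_mul, map_add, map_ofNat, map_natCast, aeval_X]
  induction hz using Subring.closure_induction with
  | mem x hx =>
    rcases hx with rfl | rfl
    · exact ⟨0, X, by simp⟩
    · exact ⟨1, 1, by rw [pow_one, inv_mul_cancel₀ hf, map_one]⟩
  | zero => exact ⟨0, 0, by simp⟩
  | one => exact ⟨0, 1, by simp⟩
  | add x y hx hy h1 h2 =>
    obtain ⟨N, r, h1⟩ := h1
    obtain ⟨M, s, h2⟩ := h2
    refine ⟨N + M, r * g ^ M + s * g ^ N, ?_⟩
    rw [map_add, map_mul, map_mul, map_pow, map_pow, e, ← h1, ← h2]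
    ring
  | neg x hx h1 =>
    obtain ⟨N, r, h1⟩ := h1
    exact ⟨N, -r, by rw [map_neg, ← h1, neg_mul]⟩
  | mul x y hx hy h1 h2 =>
    obtain ⟨N, r, h1⟩ := h1
    obtain ⟨M, s, h2⟩ := h2
    refine ⟨N + M, r * s, ?_⟩
    rw [map_mul, ← h1, ← h2]
    ring

lemma amconj_aeval_mem {Ω : Type*} [Field Ω] (n : ℕ) (u : Ω) (r : ℤ[X]) : aeval u r ∈ Bz n u := by
  induction r using Polynomial.induction_on' with
  | add a b ha hb => rw [map_add]; exact add_mem ha hb
  | monomial i c =>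
    rw [aeval_monomial]
    exact mul_mem (intCast_mem _ c) (pow_mem (self_mem_Bz n u) i)

lemma amconj_f_ne (n : ℕ) (hn : n ≠ 0) (a : ℂ) (ha : Transcendental ℤ a) :
    2 * n * a * (a + 2) ≠ 0 := by
  refine mul_ne_zero (mul_ne_zero (mul_ne_zero two_ne_zero (Nat.cast_ne_zero.mpr hn)) ?_) ?_
  · rintro rfl
    exact ha isAlgebraic_zero
  · intro h
    rw [eq_neg_of_add_eq_zero_left h] at ha
    exact ha (by simpa using isAlgebraic_intCast (R := ℤ) (A := ℂ) (-2))

lemma amconj_loc (n : ℕ) (hn : n ≠ 0) (a : ℂ) (ha : Transcendental ℤ a) :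
    ∃ φ : ℤ[X] →+* Bz n a, (∀ r, (φ r : ℂ) = aeval a r) ∧
      @IsLocalization.Away _ _ (2 * (n : ℤ[X]) * X * (X + 2)) _ _ φ.toAlgebra := by
  have hf := amconj_f_ne n hn a ha
  let φ : ℤ[X] →+* Bz n a := (aeval a : ℤ[X] →ₐ[ℤ] ℂ).toRingHom.codRestrict _
    (amconj_aeval_mem n a)
  let _ := φ.toAlgebra
  refine ⟨φ, fun _ => rfl, ?_⟩
  set g : ℤ[X] := 2 * (n : ℤ[X]) * X * (X + 2) with hg
  have e : aeval a g = 2 * n * a * (a + 2) := by
    simp only [hg, map_mul, map_add, map_ofNat, map_natCast, aeval_X]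
  have hinj : Function.Injective (aeval a : ℤ[X] →ₐ[ℤ] ℂ) := transcendental_iff_injective.mp ha
  refine IsLocalization.Away.mk g ?_ (fun z => ?_) fun x y h => ⟨0, ?_⟩
  · refine IsUnit.of_mul_eq_one ⟨_, inv_mem_Bz n a⟩ (Subtype.ext ?_)
    change aeval a g * _ = 1
    rw [e, mul_inv_cancel₀ hf]
  · obtain ⟨N, r, h⟩ := amconj_surj (κ := ℤ) n a hf z.2
    refine ⟨N, r, Subtype.ext ?_⟩
    change (z : ℂ) * (aeval a g) ^ N = aeval a r
    rw [e, h]
  · rw [hinj (congrArg Subtype.val h)]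

lemma amconj_ic (n : ℕ) (hn : n ≠ 0) (a : ℂ) (ha : Transcendental ℤ a) :
    IsIntegrallyClosed (Bz n a) := by
  obtain ⟨φ, -, hφ⟩ := amconj_loc n hn a ha
  let _ := φ.toAlgebra
  refine isIntegrallyClosed_of_isLocalization (Bz n a)
    (Submonoid.powers (2 * (n : ℤ[X]) * X * (X + 2))) ?_
  refine powers_le_nonZeroDivisors_of_noZeroDivisors fun h => amconj_f_ne n hn a ha ?_
  simpa only [map_mul, map_add, map_ofNat, map_natCast, aeval_X, map_zero]
    using congrArg (aeval a) h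

/-- the conjugates of an element integral over `ℤ[a, 1 / (2 n a (a + 2))]`, `a` transcendental -/
theorem conj (n : ℕ) (hn : n ≠ 0) (a : ℂ) (ha : Transcendental ℤ a) (z : ℂ)
    (hz : IsIntegral (Bz n a) z) :
    ∃ S : Finset ℂ, z ∈ S ∧ (∀ i, (∏ r ∈ S, (X - C r)).coeff i ∈ Bz n a) ∧
      ∀ r ∈ S, ∃ P : Pl ℂ ℂ, Bz n a ≤ P.A ∧ P.ev a = a ∧ P.ev z = r := by
  classical
  have := amconj_ic n hn a ha
  let _ : Algebra (FractionRing (Bz n a)) ℂ := FractionRing.liftAlgebra _ _
  have := FractionRing.isScalarTower_liftAlgebra (Bz n a) ℂ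
  have hm := (minpoly.monic hz).map (algebraMap (Bz n a) ℂ)
  have hsep : ((minpoly (Bz n a) z).map (algebraMap (Bz n a) ℂ)).Separable := by
    have : CharZero (FractionRing (Bz n a)) :=
      (algebraMap (FractionRing (Bz n a)) ℂ).charZero
    have h1 := (minpoly.irreducible (hz.tower_top (A := FractionRing (Bz n a)))).separable
    rw [minpoly.isIntegrallyClosed_eq_field_fractions' _ hz] at h1
    have h2 := h1.map (f := algebraMap (FractionRing (Bz n a)) ℂ)
    rwa [Polynomial.map_map, ← IsScalarTower.algebraMap_eq] at h2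
  set s := ((minpoly (Bz n a) z).map (algebraMap (Bz n a) ℂ)).roots with hs
  have hmem : ∀ r, r ∈ s ↔ aeval r (minpoly (Bz n a) z) = 0 := fun r => by
    rw [hs, mem_roots hm.ne_zero, IsRoot.def, eval_map_algebraMap]
  refine ⟨s.toFinset, Multiset.mem_toFinset.mpr ((hmem z).mpr (minpoly.aeval _ _)), fun i => ?_,
    fun r hr => ?_⟩
  · rw [Finset.prod_eq_multiset_prod, Multiset.toFinset_val, (nodup_roots hsep).dedup,
      ← (IsAlgClosed.splits _).eq_prod_roots_of_monic hm, coeff_map]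
    exact ((minpoly (Bz n a) z).coeff i).2
  · have hr' := (hmem r).mp (Multiset.mem_toFinset.mp hr)
    let j : AdjoinRoot (minpoly (Bz n a) z) →+* ℂ :=
      AdjoinRoot.lift (algebraMap (Bz n a) ℂ) z (minpoly.aeval _ _)
    let g : AdjoinRoot (minpoly (Bz n a) z) →+* ℂ := AdjoinRoot.lift (algebraMap (Bz n a) ℂ) r hr'
    have hj : Function.Injective j := by
      rw [injective_iff_map_eq_zero]
      intro x hx
      obtain ⟨q, rfl⟩ := AdjoinRoot.mk_surjective x
      rw [AdjoinRoot.lift_mk] at hx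
      exact AdjoinRoot.mk_eq_zero.mpr (minpoly.isIntegrallyClosed_dvd hz hx)
    obtain ⟨P, hP, -⟩ := exists_pl j hj g
    refine ⟨P, fun b hb => ?_, ?_, ?_⟩
    · have := (hP (AdjoinRoot.of _ ⟨b, hb⟩)).1
      rwa [AdjoinRoot.lift_of] at this
    · have := (hP (AdjoinRoot.of _ ⟨a, self_mem_Bz n a⟩)).2
      rwa [AdjoinRoot.lift_of, AdjoinRoot.lift_of] at this
    · have := (hP (AdjoinRoot.root _)).2
      rwa [AdjoinRoot.lift_root, AdjoinRoot.lift_root] at this

/-- clearing denominators -/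
theorem clr {κ Ω : Type*} [CommRing κ] [Field Ω] [Algebra κ Ω] (n : ℕ) (u : Ω)
    (hf : 2 * n * u * (u + 2) ≠ 0) (q : Polynomial Ω) (hq : ∀ i, q.coeff i ∈ Bz n u) :
    ∃ (N : ℕ) (q' : κ[X][X]), q'.natDegree ≤ q.natDegree ∧
      q'.map (aeval u : κ[X] →ₐ[κ] Ω).toRingHom = C ((2 * n * u * (u + 2)) ^ N) * q ∧
      ∀ w : Ω, aevalAeval u w q' = (2 * n * u * (u + 2)) ^ N * q.eval w := by
  choose M r hr using fun i => amconj_surj (κ := κ) n u hf (hq i)
  set g : κ[X] := 2 * (n : κ[X]) * X * (X + 2) with hg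
  have e : aeval u g = 2 * n * u * (u + 2) := by
    simp only [hg, map_mul, map_add, map_ofNat, map_natCast, aeval_X]
  set N := (Finset.range (q.natDegree + 1)).sup M with hN
  have key : (∑ i ∈ Finset.range (q.natDegree + 1), monomial i (r i * g ^ (N - M i))).map
      (aeval u : κ[X] →ₐ[κ] Ω).toRingHom = C ((2 * n * u * (u + 2)) ^ N) * q := by
    conv_rhs => rw [q.as_sum_range, Finset.mul_sum]
    rw [Polynomial.map_sum]
    refine Finset.sum_congr rfl fun i hi => ?_
    rw [Polynomial.map_monomial, C_mul_monomial]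
    congr 1
    change aeval u (r i * g ^ (N - M i)) = _
    rw [map_mul, map_pow, e, ← hr, mul_assoc, ← pow_add,
      Nat.add_sub_cancel' (Finset.le_sup (f := M) hi), mul_comm]
  refine ⟨N, _, ?_, key, fun w => ?_⟩
  · refine natDegree_sum_le_of_forall_le _ _ fun i hi => (natDegree_monomial_le _).trans ?_
    exact Nat.lt_succ_iff.mp (Finset.mem_range.mp hi)
  · have : ∀ q' : κ[X][X], aevalAeval u w q'
        = (q'.map (aeval u : κ[X] →ₐ[κ] Ω).toRingHom).eval w := by
      intro q'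
      induction q' using Polynomial.induction_on' with
      | add a b ha hb => rw [map_add, Polynomial.map_add, eval_add, ha, hb]
      | monomial i c =>
        rw [Polynomial.map_monomial, eval_monomial, ← C_mul_X_pow_eq_monomial, map_mul, map_pow,
          aevalAeval_C, aevalAeval_Y]
        rfl
    rw [this, key, eval_mul, eval_C]

/-- an element over whose base ring a transcendental element is integral is transcendental -/
theorem transcendental_of_integral (n : ℕ) {a w : ℂ} (ha : Transcendental ℤ a)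
    (h : IsIntegral (Bz n w) a) : Transcendental ℤ w := by
  intro hw
  apply ha
  rw [IsFractionRing.isAlgebraic_iff ℤ ℚ ℂ] at hw ⊢
  have hw' : w ∈ algebraicClosure ℚ ℂ := mem_algebraicClosure_iff.mpr hw
  have hle : Bz n w ≤ (algebraicClosure ℚ ℂ).toSubfield.toSubring :=
    Bz_le hw' (inv_mem (mul_mem (mul_mem (mul_mem (by simp) (natCast_mem _ _)) hw')
      (add_mem hw' (by simp))) : _ ∈ algebraicClosure ℚ ℂ)
  have h2 : IsIntegral (algebraicClosure ℚ ℂ) a := isIntegral_mono hle h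
  have : Algebra.IsIntegral ℚ (algebraicClosure ℚ ℂ) :=
    ⟨fun x => (IntermediateField.isIntegral_iff.mpr (mem_algebraicClosure_iff'.mp x.2))⟩
  exact (isIntegral_trans a h2).isAlgebraic

end Pool.Agent.Lib.MP_4a1067_nt.Am
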