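import Mathlib
import Pool.Agent.Lib.MP_4a1067_nt.AmConj
import Pool.Agent.Lib.MP_4a1067_nt.AmTor
import Pool.Agent.Lib.MP_4a1067_nt.AmLat2

/-! Minimal polynomials over the generic base ring. -/

namespace Pool.Agent.Lib.MP_4a1067_nt.Am

open Polynomial

variable {L L' : PeriodPair} {ω₁ ω₂ ω₃ Q : ℂ} {n h ℓ ℓ' : ℕ}

theorem end_finite (H : Half L ω₁ ω₂ ω₃) (hℓ : ℓ.Prime) (hℓ' : ℓ'.Prime) :
    ∃ S : Finset ℂ, S.card ≤ (ℓ + 1) * (ℓ' + 1) ∧ End L ω₁ ω₂ ω₃ (ℓ * ℓ') ⊆ S := by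
  classical
  have _ := H
  have h1 : ∀ M : Submodule ℤ ℂ, ∃ v : ℂ, ∀ (L' : PeriodPair) (E' : Leg L' ω₁ ω₂ ω₃),
      L'.lattice = M → -2 / E'.lam = v := by
    intro M
    by_cases hM : ∃ (L' : PeriodPair) (_ : Leg L' ω₁ ω₂ ω₃), L'.lattice = M
    · obtain ⟨L₀, E₀, h₀⟩ := hM
      exact ⟨-2 / E₀.lam, fun L' E' h' => by rw [(leg_congr (h'.trans h₀.symm) E₀ E').2.1]⟩
    · exact ⟨0, fun L' E' h' => absurd ⟨L', E', h'⟩ hM⟩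
  have h2 : ∀ M : Submodule ℤ ℂ, ∃ T : Finset (Submodule ℤ ℂ), T.card ≤ ℓ' + 1 ∧
      ∀ (L₁ L' : PeriodPair) (Q : ℂ), L₁.lattice = M → Cyc L₁ L' Q ℓ' → L'.lattice ∈ T := by
    intro M
    by_cases hM : ∃ L₁ : PeriodPair, L₁.lattice = M
    · obtain ⟨L₀, h₀⟩ := hM
      obtain ⟨T, hT, hT'⟩ := count_prime L₀ hℓ'
      exact ⟨T, hT, fun L₁ L' Q h' hc => hT' L' Q (hc.congr (h₀.trans h'.symm) rfl)⟩
    · exact ⟨∅, by simp, fun L₁ L' Q h' _ => absurd ⟨L₁, h'⟩ hM⟩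
  choose v hv using h1
  choose T hT hT' using h2
  obtain ⟨S₀, hS, hS'⟩ := count_prime L hℓ
  refine ⟨(S₀.biUnion T).image v, Finset.card_image_le.trans
    ((Finset.card_biUnion_le_card_mul S₀ T (ℓ' + 1) fun M _ => hT M).trans
      (Nat.mul_le_mul_right _ hS)), ?_⟩
  rintro w ⟨L', Q, E', hc, rfl⟩
  obtain ⟨L₁, c1, c2⟩ := hc.split hℓ.pos hℓ'.pos
  exact Finset.mem_coe.2 (Finset.mem_image.2 ⟨L'.lattice,
    Finset.mem_biUnion.2 ⟨L₁.lattice, hS' L₁ _ c1, hT' _ L₁ L' Q rfl c2⟩, (hv _ L' E' rfl).symm⟩)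

/-- endpoints lie in every good ring, together with the inverse of the base denominator -/
theorem end_Bz (H : Half L ω₁ ω₂ ω₃) (E : Leg L ω₁ ω₂ ω₃) (hn : Odd n) (hn1 : 1 < n)
    {A : Subring ℂ} (hA : IC A) (G : Good A n E.lam) {w : ℂ} (hw : w ∈ End L ω₁ ω₂ ω₃ n) :
    Un A w ∧ Un A (2 * n * w * (w + 2)) := by
  obtain ⟨h, rfl⟩ := hn
  obtain ⟨L', Q, E', hc, rfl⟩ := hw
  exact (lat H E E' hc (by omega) (Pl.self A hA) dvd_rfl G).1.un_f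

theorem dual_end (H : Half L ω₁ ω₂ ω₃) (E : Leg L ω₁ ω₂ ω₃) (hc : Cyc L L' Q n) (hn : Odd n) :
    -2 / E.lam ∈ End L' ω₁ ω₂ ω₃ n := by
  have hn0 : (n : ℂ) ≠ 0 := Nat.cast_ne_zero.2 hn.pos.ne'
  obtain ⟨L'', hs⟩ := exists_scl L hn0
  obtain ⟨T, hT⟩ := hc.dual hn.pos hs
  obtain ⟨E'', -⟩ := exists_leg (hs.half hn H)
  exact ⟨L'', T, E'', hT, by
    rw [(leg_scl hs hn0 E E'' (odd_mul_half hn H.t₁) (odd_mul_half hn H.t₂)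
      (odd_mul_half hn H.t₃)).2.1]⟩

lemma ampoly_good (E : Leg L ω₁ ω₂ ω₃) (hn : Odd n) {A : Subring ℂ}
    (hA : Bz n (-2 / E.lam) ≤ A) : Good A n E.lam :=
  good_of_Bz_le two_ne_zero (Nat.cast_ne_zero.2 hn.pos.ne') E.lam0 E.lam1 hA

theorem transc_end (H : Half L ω₁ ω₂ ω₃) (E : Leg L ω₁ ω₂ ω₃)
    (ha : Transcendental ℤ (-2 / E.lam)) (hn : Odd n) (hn1 : 1 < n) {w : ℂ}
    (hw : w ∈ End L ω₁ ω₂ ω₃ n) : Transcendental ℤ w := by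
  obtain ⟨L', Q, E', hc, rfl⟩ := hw
  exact transcendental_of_integral n ha (mem_icl.1 (end_Bz (hc.half hn H) E' hn hn1 (ic_icl _)
    (ampoly_good E' hn (le_icl _)) (dual_end H E hc hn)).1.mem)

/-- a place that fixes the parameter permutes the cyclic superlattices -/
lemma ampoly_conj (H : Half L ω₁ ω₂ ω₃) (E : Leg L ω₁ ω₂ ω₃) (E' : Leg L' ω₁ ω₂ ω₃)
    (hn : Odd n) (hn1 : 1 < n) (hc : Cyc L L' Q n) (P : Pl ℂ ℂ)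
    (hB : Bz n (-2 / E.lam) ≤ P.A) (hP : P.ev (-2 / E.lam) = -2 / E.lam) :
    ∃ (L'' : PeriodPair) (Q' : ℂ) (E'' : Leg L'' ω₁ ω₂ ω₃), Cyc L L'' Q' n ∧
      P.ev (-2 / E'.lam) = -2 / E''.lam ∧ P.ev (E.x Q) = E.x Q' := by
  have G : Good P.A n E.lam := ampoly_good E hn hB
  obtain ⟨h, rfl⟩ := hn
  have hh : 1 ≤ h := by omega
  have e : P.ev E.lam = E.lam := by
    rw [P.ev_par G, div_eq_div_iff (P.ev_ne G.lam) E.lam0] at hP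
    exact (mul_left_cancel₀ (by norm_num) hP).symm
  obtain ⟨G', -, I⟩ := lat H E E' hc hh P dvd_rfl G
  rw [e] at I
  obtain ⟨L'', Q', E'', hc', h1, -, h2⟩ := out_id H E hh I
  refine ⟨L'', Q', E'', hc', by rw [P.ev_par G', h1], ?_⟩
  simpa using (h2 0 (Nat.zero_le _)).symm

/-- the conjugates of the abscissa of a torsion point are abscissas of torsion points -/
theorem min_poly (H : Half L ω₁ ω₂ ω₃) (E : Leg L ω₁ ω₂ ω₃) (ha : Transcendental ℤ (-2 / E.lam))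
    (hn : Odd n) (hn1 : 1 < n) (hQ : Ord L Q n) :
    ∃ S : Finset ℂ, E.x Q ∈ S ∧ (∀ i, (∏ r ∈ S, (X - C r)).coeff i ∈ Bz n (-2 / E.lam)) ∧
      ∀ r ∈ S, ∃ Q', Ord L Q' n ∧ r = E.x Q' := by
  have h1 : ((2 * n : ℕ) : ℂ) * Q ∈ L.lattice := by
    have := (hQ ((2 * n : ℕ) : ℤ)).2 (by push_cast; exact dvd_mul_left _ _)
    rwa [Int.cast_natCast] at this
  have h0 : Q ∉ L.lattice := by simpa using hQ.notMem one_pos hn1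
  obtain ⟨S, s1, s2, s3⟩ := conj n hn.pos.ne' _ ha (E.x Q)
    (mem_icl.1 (tor_mem H E (ic_icl _) (ampoly_good E hn (le_icl _)) h1 h0))
  refine ⟨S, s1, s2, fun r hr => ?_⟩
  obtain ⟨P, p1, p2, rfl⟩ := s3 r hr
  obtain ⟨L', hc⟩ := exists_cyc hn.pos hQ
  obtain ⟨E', -⟩ := exists_leg (hc.half hn H)
  obtain ⟨L'', Q', E'', hc', -, e⟩ := ampoly_conj H E E' hn hn1 hc P p1 p2
  exact ⟨Q', hc'.ord, e⟩

/-- the conjugates of an endpoint are endpoints -/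
theorem deg_poly (H : Half L ω₁ ω₂ ω₃) (E : Leg L ω₁ ω₂ ω₃) (ha : Transcendental ℤ (-2 / E.lam))
    (hn : Odd n) (hn1 : 1 < n) {w : ℂ} (hw : w ∈ End L ω₁ ω₂ ω₃ n) :
    ∃ S : Finset ℂ, w ∈ S ∧ (∀ i, (∏ r ∈ S, (X - C r)).coeff i ∈ Bz n (-2 / E.lam)) ∧
      (S : Set ℂ) ⊆ End L ω₁ ω₂ ω₃ n := by
  obtain ⟨S, s1, s2, s3⟩ := conj n hn.pos.ne' _ ha w
    (mem_icl.1 (end_Bz H E hn hn1 (ic_icl _) (ampoly_good E hn (le_icl _)) hw).1.mem)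
  refine ⟨S, s1, s2, fun r hr => ?_⟩
  obtain ⟨P, p1, p2, rfl⟩ := s3 r hr
  obtain ⟨L', Q, E', hc, rfl⟩ := hw
  obtain ⟨L'', Q', E'', hc', e, -⟩ := ampoly_conj H E E' hn hn1 hc P p1 p2
  exact ⟨L'', Q', E'', hc', e⟩

lemma ampoly_odd (hℓ : ℓ.Prime) (hℓ' : ℓ'.Prime) (h2 : ℓ ≠ 2) (h2' : ℓ' ≠ 2) :
    Odd (ℓ * ℓ') ∧ 1 < ℓ * ℓ' :=
  ⟨(hℓ.odd_of_ne_two h2).mul (hℓ'.odd_of_ne_two h2'), one_lt_mul'' hℓ.one_lt hℓ'.one_lt⟩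

lemma ampoly_swap {κ : Type*} [CommRing κ] (q : κ[X][X]) (i j : ℕ) :
    ((Bivariate.swap q).coeff i).coeff j = (q.coeff j).coeff i := by
  induction q using Polynomial.induction_on' with
  | add a b ha hb => simp only [map_add, coeff_add, ha, hb]
  | monomial m f =>
    rw [Bivariate.swap_monomial, coeff_mul_C, coeff_map, coeff_C_mul, coeff_X_pow, coeff_monomial]
    by_cases hj : j = m
    · rw [if_pos hj, if_pos hj.symm, mul_one]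
    · rw [if_neg hj, if_neg (Ne.symm hj), mul_zero, coeff_zero]

/-- a relation of degree at most (ℓ + 1) (ℓ' + 1) in the second variable, all of whose roots
are values of endpoints -/
theorem rel_poly (H : Half L ω₁ ω₂ ω₃) (E : Leg L ω₁ ω₂ ω₃) (ha : Transcendental ℤ (-2 / E.lam))
    (hℓ : ℓ.Prime) (hℓ' : ℓ'.Prime) (h2 : ℓ ≠ 2) (h2' : ℓ' ≠ 2) {κ Ω : Type*} [CommRing κ]
    [Field Ω] [Algebra κ Ω] (P : Pl ℂ Ω) (G : Good P.A (ℓ * ℓ') E.lam) {w : ℂ}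
    (hw : w ∈ End L ω₁ ω₂ ω₃ (ℓ * ℓ')) :
    ∃ q : κ[X][X], q ≠ 0 ∧ q.natDegree ≤ (ℓ + 1) * (ℓ' + 1) ∧
      aevalAeval (P.ev (-2 / E.lam)) (P.ev w) q = 0 ∧
      ∀ y : Ω, aevalAeval (P.ev (-2 / E.lam)) y q = 0 →
        ∃ t ∈ End L ω₁ ω₂ ω₃ (ℓ * ℓ'), y = P.ev t := by
  obtain ⟨hn, hn1⟩ := ampoly_odd hℓ hℓ' h2 h2'
  obtain ⟨S, s1, s2, s3⟩ := deg_poly H E ha hn hn1 hw
  obtain ⟨S', c1, c2⟩ := end_finite H hℓ hℓ'
  have hS : ∀ r ∈ S, r ∈ P.A := fun r hr => (end_Bz H E hn hn1 P.ic G (s3 hr)).1.mem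
  have hcard : S.card ≤ (ℓ + 1) * (ℓ' + 1) :=
    (Finset.card_le_card (Finset.coe_subset.1 (s3.trans c2))).trans c1
  have hf : 2 * ((ℓ * ℓ' : ℕ) : Ω) * P.ev (-2 / E.lam) * (P.ev (-2 / E.lam) + 2) ≠ 0 := by
    have h0 := P.ev_ne G.un_f.2
    have a := G.un_f.1.mem
    rwa [P.ev_mul (mul_mem (mul_mem G.two.mem G.n.mem) a) (add_mem a G.two.mem),
      P.ev_mul (mul_mem G.two.mem G.n.mem) a, P.ev_mul G.two.mem G.n.mem, P.ev_add a G.two.mem,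
      P.ev_two, P.ev_natCast] at h0
  obtain ⟨N, q, q1, q2, q3⟩ := clr (κ := κ) (ℓ * ℓ') _ hf (∏ r ∈ S, (X - C (P.ev r))) fun i => by
    rw [(P.ev_coeff_prod S hS i).2]
    exact P.ev_mem_Bz G.Bz_le G.un_f.2.ne (s2 i)
  refine ⟨q, ?_, q1.trans ?_, ?_, fun y hy => ?_⟩
  · rintro rfl
    rw [Polynomial.map_zero] at q2
    exact mul_ne_zero (C_ne_zero.2 (pow_ne_zero N hf))
      (monic_prod_of_monic _ _ fun r _ => monic_X_sub_C (P.ev r)).ne_zero q2.symm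
  · rw [natDegree_prod_of_monic _ _ fun r _ => monic_X_sub_C (P.ev r)]
    simpa using hcard
  · rw [q3, eval_prod, Finset.prod_eq_zero s1 (by simp), mul_zero]
  · rw [q3, eval_prod, mul_eq_zero, Finset.prod_eq_zero_iff] at hy
    obtain ⟨t, ht, e⟩ := hy.resolve_left (pow_ne_zero N hf)
    rw [eval_sub, eval_X, eval_C, sub_eq_zero] at e
    exact ⟨t, s3 ht, e⟩

/-- a relation of degree at most (ℓ + 1) (ℓ' + 1) in the first variable -/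
theorem rel_poly' (H : Half L ω₁ ω₂ ω₃) (E : Leg L ω₁ ω₂ ω₃)
    (ha : Transcendental ℤ (-2 / E.lam))
    (hℓ : ℓ.Prime) (hℓ' : ℓ'.Prime) (h2 : ℓ ≠ 2) (h2' : ℓ' ≠ 2) {κ Ω : Type*} [CommRing κ]
    [Field Ω] [Algebra κ Ω] (P : Pl ℂ Ω) (G : Good P.A (ℓ * ℓ') E.lam) {w : ℂ}
    (hw : w ∈ End L ω₁ ω₂ ω₃ (ℓ * ℓ')) :
    ∃ q : κ[X][X], q ≠ 0 ∧ (∀ i, (q.coeff i).natDegree ≤ (ℓ + 1) * (ℓ' + 1)) ∧
      aevalAeval (P.ev (-2 / E.lam)) (P.ev w) q = 0 := by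
  obtain ⟨hn, hn1⟩ := ampoly_odd hℓ hℓ' h2 h2'
  have ha' := transc_end H E ha hn hn1 hw
  obtain ⟨L', Q, E', hc, rfl⟩ := hw
  have G' : Good P.A (ℓ * ℓ') E'.lam := by
    obtain ⟨h, e⟩ := hn
    exact (lat H E E' (e ▸ hc) (by omega) P (e ▸ dvd_rfl) G).1
  obtain ⟨q, q0, q1, q2, -⟩ := rel_poly (κ := κ) (hc.half hn H) E' ha' hℓ hℓ' h2 h2' P G'
    (dual_end H E hc hn)
  refine ⟨Bivariate.swap q, (map_ne_zero_iff _ Bivariate.swap.injective).2 q0, fun i => ?_,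
    by rw [Bivariate.aevalAeval_swap, q2]⟩
  refine natDegree_le_iff_coeff_eq_zero.2 fun j hj => ?_
  rw [ampoly_swap, coeff_eq_zero_of_natDegree_lt (q1.trans_lt hj), coeff_zero]

end Pool.Agent.Lib.MP_4a1067_nt.Am
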