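import Mathlib
import Pool.Agent.Lib.MP_4a1067_nt.AmPoly
import Pool.Agent.Lib.MP_4a1067_nt.AmCusp2
import Pool.Agent.Lib.MP_4a1067_nt.AmNewton

/-! The generic point in characteristic p. -/

namespace Pool.Agent.Lib.MP_4a1067_nt.Am

open Polynomial IntermediateField

variable {L : PeriodPair} {ω₁ ω₂ ω₃ : ℂ} {ℓ ℓ' : ℕ}

lemma amgen_val_nat {κ Ω : Type*} [Field κ] [Field Ω] [Algebra κ Ω] (U : ValuationSubring Ω)
    (hκ : ∀ c : κ, algebraMap κ Ω c ∈ U) (m : ℕ) (hm : (m : Ω) ≠ 0) : U.valuation m = 1 := by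
  refine un_val_iff.mp ⟨hm, natCast_mem _ _, ?_⟩
  have := hκ (m : κ)⁻¹
  rwa [map_inv₀, map_natCast] at this

lemma amgen_sep {K Ω : Type*} [Field K] [Field Ω] [Algebra K Ω] (p : ℕ) [CharP Ω p] {y : Ω}
    (hy : IsIntegral K y) (hd : (minpoly K y).natDegree < p) : (minpoly K y).Separable := by
  rw [separable_iff_derivative_ne_zero (minpoly.irreducible hy)]
  intro h0
  have hpos := minpoly.natDegree_pos hy
  have e := coeff_derivative (minpoly K y) ((minpoly K y).natDegree - 1)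
  rw [h0, coeff_zero, Nat.sub_add_cancel hpos, (minpoly.monic hy).coeff_natDegree, one_mul] at e
  have e2 := congrArg (algebraMap K Ω) e
  rw [map_zero, map_add, map_natCast, map_one, ← Nat.cast_succ, Nat.succ_eq_add_one,
    Nat.sub_add_cancel hpos, eq_comm, CharP.cast_eq_zero_iff Ω p] at e2
  exact absurd (Nat.le_of_dvd hpos e2) (by omega)

/-- a root whose valuation has slope with denominator `d` has at least `d` conjugates of the same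
valuation -/
lemma amgen_count {κ Ω : Type*} [Field κ] [Field Ω] [IsAlgClosed Ω] [Algebra κ Ω] (u : Ω)
    (U : ValuationSubring Ω) (hκ : ∀ c : κ, algebraMap κ Ω c ∈ U) (hu : 1 < U.valuation u)
    {y : Ω} (y0 : y ≠ 0) (hy : IsIntegral κ⟮u⟯ y) (hs : (minpoly κ⟮u⟯ y).Separable) {d m : ℕ}
    (hdm : d.Coprime m) (hv : U.valuation y ^ d = U.valuation u ^ m) :
    ∃ R : Finset Ω, d ≤ R.card ∧
      ∀ r ∈ R, aeval r (minpoly κ⟮u⟯ y) = 0 ∧ U.valuation r = U.valuation y := by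
  classical
  have hm := (minpoly.monic hy).map (algebraMap κ⟮u⟯ Ω)
  set s := ((minpoly κ⟮u⟯ y).map (algebraMap κ⟮u⟯ Ω)).roots with hsd
  have hnd : s.Nodup := nodup_roots hs.map
  have hmem : ∀ r, r ∈ s ↔ aeval r (minpoly κ⟮u⟯ y) = 0 := fun r => by
    rw [hsd, mem_roots hm.ne_zero, IsRoot.def, eval_map_algebraMap]
  obtain ⟨k, k0, hk⟩ := newton U (minpoly κ⟮u⟯ y) s
    ((IsAlgClosed.splits _).eq_prod_roots_of_monic hm) y y0
  obtain ⟨i, j, hij⟩ := val_adjoin u U hκ hu (algebraMap κ⟮u⟯ Ω k) k.2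
    ((_root_.map_ne_zero _).mpr k0)
  rw [hk] at hij
  set N := s.countP fun r => U.valuation r = U.valuation y with hN
  have e : U.valuation u ^ (m * N + i * d) = U.valuation u ^ (j * d) := by
    rw [pow_add, pow_mul, pow_mul, pow_mul, ← hv, ← hij, mul_pow, ← pow_mul, ← pow_mul,
      ← pow_mul, mul_comm d N]
  have e2 := (pow_right_strictMono₀ hu).injective e
  have hdN : d ∣ N := hdm.dvd_of_dvd_mul_left
    ((Nat.dvd_add_left (dvd_mul_left d i)).mp (e2 ▸ dvd_mul_left d j))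
  have hN0 : 0 < N := Multiset.countP_pos.mpr ⟨y, (hmem y).mpr (minpoly.aeval _ _), rfl⟩
  refine ⟨(s.filter fun r => U.valuation r = U.valuation y).toFinset, ?_, fun r hr => ?_⟩
  · rw [Multiset.toFinset_card_of_nodup (hnd.filter _), ← Multiset.countP_eq_card_filter]
    exact Nat.le_of_dvd hN0 hdN
  · rw [Multiset.mem_toFinset, Multiset.mem_filter, hmem] at hr
    exact hr

/-- the endpoints fall into four classes; inside a class the values are distinct and conjugate -/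
theorem gen_core (H : Half L ω₁ ω₂ ω₃) (E : Leg L ω₁ ω₂ ω₃) (ha : Transcendental ℤ (-2 / E.lam))
    (hℓ : ℓ.Prime) (hℓ' : ℓ'.Prime) (h2 : ℓ ≠ 2) (h2' : ℓ' ≠ 2) (hne : ℓ ≠ ℓ') (p : ℕ)
    (hp : p.Prime) (hsz : 24 * (ℓ * ℓ') ^ 3 < p) {κ Ω : Type*} [Field κ] [Field Ω]
    [IsAlgClosed Ω] [Algebra κ Ω] [CharP Ω p] (P : Pl ℂ Ω) (G : Good P.A (ℓ * ℓ') E.lam)
    (hu : Transcendental κ (P.ev (-2 / E.lam))) :
    ∃ (U : ValuationSubring Ω) (S : Fin 4 → Finset ℂ),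
      (∀ c : κ, algebraMap κ Ω c ∈ U) ∧ 1 < U.valuation (P.ev (-2 / E.lam)) ∧
      (∀ c, (S c : Set ℂ) ⊆ End L ω₁ ω₂ ω₃ (ℓ * ℓ')) ∧
      (∀ w ∈ End L ω₁ ω₂ ω₃ (ℓ * ℓ'), ∃ c, w ∈ S c) ∧
      (∀ c, (S c).card ≤ dn ℓ ℓ' c) ∧
      (∀ c, ∀ w ∈ S c, U.valuation (P.ev w) ^ dn ℓ ℓ' c
        = U.valuation (P.ev (-2 / E.lam)) ^ nm ℓ ℓ' c) ∧
      (∀ c, ∀ w ∈ S c, dn ℓ ℓ' c ≤ (S c).card ∧ Set.InjOn P.ev (S c) ∧
        ∀ t ∈ S c, minpoly κ⟮P.ev (-2 / E.lam)⟯ (P.ev t) = minpoly κ⟮P.ev (-2 / E.lam)⟯ (P.ev w)) ∧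
      ∀ w ∈ End L ω₁ ω₂ ω₃ (ℓ * ℓ'), IsIntegral κ⟮P.ev (-2 / E.lam)⟯ (P.ev w) ∧
        (minpoly κ⟮P.ev (-2 / E.lam)⟯ (P.ev w)).Separable ∧
        ∀ y : Ω, aeval y (minpoly κ⟮P.ev (-2 / E.lam)⟯ (P.ev w)) = 0 →
          ∃ t ∈ End L ω₁ ω₂ ω₃ (ℓ * ℓ'), y = P.ev t := by
  classical
  have hodd : Odd (ℓ * ℓ') := (hℓ.odd_of_ne_two h2).mul (hℓ'.odd_of_ne_two h2')
  have a2 := hℓ.two_le
  have b2 := hℓ'.two_le
  have hn1 : 1 < ℓ * ℓ' := by nlinarith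
  have hsq : (ℓ * ℓ') ^ 2 < p := by
    have : (ℓ * ℓ') ^ 2 ≤ (ℓ * ℓ') ^ 3 := Nat.pow_le_pow_right (by omega) (by norm_num)
    omega
  have hp2 : 2 < p := by nlinarith
  have sq1 : ℓ ^ 2 < p := lt_of_le_of_lt (Nat.pow_le_pow_left (by nlinarith) 2) hsq
  have sq2 : ℓ' ^ 2 < p := lt_of_le_of_lt (Nat.pow_le_pow_left (by nlinarith) 2) hsq
  have hψ : (ℓ + 1) * (ℓ' + 1) < p := by nlinarith
  obtain ⟨h, hh⟩ := id hodd
  have hh1 : 1 ≤ h := by omega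
  set u := P.ev (-2 / E.lam) with hud
  obtain ⟨U, hκ, hU⟩ := exists_cusp_val u hu
  obtain ⟨W, w1, -, w3⟩ := P.exists_val₂ U
  have v2 : U.valuation (2 : Ω) = 1 := by
    have := amgen_val_nat U hκ 2 (by
      have := P.ev_ne G.two
      rwa [P.ev_two] at this)
    simpa using this
  have par : ∀ {l : ℂ}, Good P.A (ℓ * ℓ') l →
      U.valuation (P.ev (-2 / l)) = (U.valuation (P.ev l))⁻¹ := fun G' => by
    rw [P.ev_par G', map_div₀, Valuation.map_neg, v2, one_div]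
  have hl : W.valuation E.lam < 1 := by
    refine w1 _ G.lam.mem ?_
    rw [hud, par G] at hU
    exact (one_lt_inv₀ (zero_lt_iff.mpr ((_root_.map_ne_zero _).mpr (P.ev_ne G.lam)))).mp hU
  have cW : CharP (IsLocalRing.ResidueField W) p := by
    rw [CharP.charP_iff_prime_eq_zero hp, ← rd_natCast, rd_eq_zero_iff (natCast_mem _ _)]
    refine w1 _ (natCast_mem _ _) ?_
    rw [P.ev_natCast, CharP.cast_eq_zero, map_zero]
    exact zero_lt_one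
  have nz : ∀ m : ℕ, 0 < m → m < p → (m : IsLocalRing.ResidueField W) ≠ 0 := fun m h0 h1 h' =>
    absurd (Nat.le_of_dvd h0 ((CharP.cast_eq_zero_iff _ p m).mp h')) (by omega)
  have nz2 : ∀ m : ℕ, 2 ≤ m → m ^ 2 < p → (m : IsLocalRing.ResidueField W) ^ 2 ≠ 1 := by
    intro m h0 h1 h'
    have h3 : 1 < m ^ 2 := by nlinarith
    refine nz (m ^ 2 - 1) (by omega) (by omega) ?_
    rw [Nat.cast_sub h3.le, Nat.cast_pow, h', Nat.cast_one, sub_self]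
  obtain ⟨S₀, cd, hS₀⟩ := cusp H E W hl hℓ h2 hℓ' h2' (by simpa using nz 2 two_pos hp2)
    (nz ℓ (by omega) (by nlinarith)) (nz2 ℓ a2 sq1) (nz ℓ' (by omega) (by nlinarith))
    (nz2 ℓ' b2 sq2)
  set S : Fin 4 → Finset ℂ := fun c => (S₀ c).filter fun w => w ∈ End L ω₁ ω₂ ω₃ (ℓ * ℓ') ∧
    U.valuation (P.ev w) ^ dn ℓ ℓ' c = U.valuation u ^ nm ℓ ℓ' c with hS
  have c1 : ∀ c, ∀ w ∈ S c, w ∈ End L ω₁ ω₂ ω₃ (ℓ * ℓ') := fun c w hw =>
    (Finset.mem_filter.mp hw).2.1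
  have c2 : ∀ w ∈ End L ω₁ ω₂ ω₃ (ℓ * ℓ'), ∃ c, w ∈ S c := by
    intro w hw
    obtain ⟨L', Q, E', hc, rfl⟩ := id hw
    obtain ⟨c, m1, m2⟩ := hS₀ L' Q E' hc
    have G' : Good P.A (ℓ * ℓ') E'.lam := (lat H E E' (hh ▸ hc) hh1 P (hh ▸ dvd_rfl) G).1
    refine ⟨c, Finset.mem_filter.mpr ⟨m1, hw, ?_⟩⟩
    have := w3 _ _ (G'.lam.pow (dn ℓ ℓ' c)) (G.lam.pow (nm ℓ ℓ' c)) (by rwa [map_pow, map_pow])
    rw [P.ev_pow G'.lam.mem, P.ev_pow G.lam.mem, map_pow, map_pow] at this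
    rw [hud, par G, par G', inv_pow, inv_pow, this]
  have c3 : ∀ c, (S c).card ≤ dn ℓ ℓ' c := fun c => (Finset.card_filter_le _ _).trans (cd c)
  have c4 : ∀ c, ∀ w ∈ S c, U.valuation (P.ev w) ^ dn ℓ ℓ' c = U.valuation u ^ nm ℓ ℓ' c :=
    fun c w hw => (Finset.mem_filter.mp hw).2.2
  have c6 : ∀ w ∈ End L ω₁ ω₂ ω₃ (ℓ * ℓ'), IsIntegral κ⟮u⟯ (P.ev w) ∧
      (minpoly κ⟮u⟯ (P.ev w)).Separable ∧ ∀ y : Ω, aeval y (minpoly κ⟮u⟯ (P.ev w)) = 0 →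
        ∃ t ∈ End L ω₁ ω₂ ω₃ (ℓ * ℓ'), y = P.ev t := by
    intro w hw
    obtain ⟨q, q0, qd, qw, qr⟩ := rel_poly (κ := κ) H E ha hℓ hℓ' h2 h2' P G hw
    have k0 := toK_ne_zero hu q0
    rw [← aeval_toK] at qw
    have hi : IsIntegral κ⟮u⟯ (P.ev w) := IsAlgebraic.isIntegral ⟨_, k0, qw⟩
    have hd := minpoly.dvd _ _ qw
    refine ⟨hi, amgen_sep p hi (lt_of_le_of_lt ((natDegree_le_of_dvd hd k0).trans
      ((natDegree_toK_le _ _).trans qd)) hψ), fun y hy => qr y ?_⟩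
    rw [← aeval_toK]
    exact aeval_eq_zero_of_dvd_aeval_eq_zero hd hy
  refine ⟨U, S, hκ, hU, c1, c2, c3, c4, fun c w hw => ?_, c6⟩
  obtain ⟨hi, hs, hr⟩ := c6 w (c1 c w hw)
  obtain ⟨R, r1, r2⟩ := amgen_count u U hκ hU
    (P.ev_ne (end_Bz H E hodd hn1 P.ic G (c1 c w hw)).1) hi hs (coprime_dn_nm hℓ hℓ' hne c)
    (c4 c w hw)
  have sub : R ⊆ (S c).image P.ev := by
    intro r hr'
    obtain ⟨t, ht, rfl⟩ := hr r (r2 r hr').1
    obtain ⟨d, hd⟩ := c2 t ht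
    have e1 := c4 d t hd
    rw [(r2 _ hr').2] at e1
    have e : U.valuation u ^ (nm ℓ ℓ' c * dn ℓ ℓ' d) = U.valuation u ^ (nm ℓ ℓ' d * dn ℓ ℓ' c) := by
      rw [pow_mul, pow_mul, ← e1, ← c4 c w hw, ← pow_mul, ← pow_mul, mul_comm]
    obtain rfl := slope_inj hℓ hℓ' hne ((pow_right_strictMono₀ hU).injective e)
    exact Finset.mem_image_of_mem _ hd
  have k1 := Finset.card_le_card sub
  have k2 := Finset.card_image_le (s := S c) (f := P.ev)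
  have k3 := c3 c
  refine ⟨by omega, Finset.card_image_iff.mp (by omega), fun t ht => ?_⟩
  have e := Finset.eq_of_subset_of_card_le sub (by omega)
  exact (minpoly.eq_of_irreducible_of_monic (minpoly.irreducible hi)
    (r2 _ (e ▸ Finset.mem_image_of_mem _ ht)).1 (minpoly.monic hi)).symm

end Pool.Agent.Lib.MP_4a1067_nt.Am
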