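import Mathlib
import Pool.Agent.Lib.MP_4a1067_nt.AmGen

/-! Distinctness and orbits of the generic endpoints. -/

namespace Pool.Agent.Lib.MP_4a1067_nt.Am

open Polynomial IntermediateField

variable {L : PeriodPair} {ω₁ ω₂ ω₃ : ℂ} {ℓ ℓ' : ℕ}

theorem gen_inj (H : Half L ω₁ ω₂ ω₃) (E : Leg L ω₁ ω₂ ω₃) (ha : Transcendental ℤ (-2 / E.lam))
    (hℓ : ℓ.Prime) (hℓ' : ℓ'.Prime) (h2 : ℓ ≠ 2) (h2' : ℓ' ≠ 2) (hne : ℓ ≠ ℓ') (p : ℕ)
    (hp : p.Prime) (hsz : 24 * (ℓ * ℓ') ^ 3 < p) {κ Ω : Type*} [Field κ] [Field Ω]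
    [IsAlgClosed Ω] [Algebra κ Ω] [CharP Ω p] (P : Pl ℂ Ω) (G : Good P.A (ℓ * ℓ') E.lam)
    (hu : Transcendental κ (P.ev (-2 / E.lam))) :
    Set.InjOn P.ev (End L ω₁ ω₂ ω₃ (ℓ * ℓ')) := by
  obtain ⟨U, S, -, hU, -, hcov, -, hsl, hcl, -⟩ :=
    gen_core H E ha hℓ hℓ' h2 h2' hne p hp hsz P G hu
  intro w hw t ht e
  obtain ⟨c, hc⟩ := hcov w hw
  obtain ⟨d, hd⟩ := hcov t ht
  have h1 := hsl c w hc
  have h3 := hsl d t hd
  rw [← e] at h3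
  have h4 : U.valuation (P.ev (-2 / E.lam)) ^ (nm ℓ ℓ' c * dn ℓ ℓ' d) =
      U.valuation (P.ev (-2 / E.lam)) ^ (nm ℓ ℓ' d * dn ℓ ℓ' c) := by
    rw [pow_mul, pow_mul, ← h1, ← h3, ← pow_mul, ← pow_mul, mul_comm]
  obtain rfl := slope_inj hℓ hℓ' hne ((pow_right_strictMono₀ hU).injective h4)
  exact (hcl c w hc).2.1 hc hd e

lemma cj_of_minpoly_eq {κ Ω : Type*} [Field κ] [Field Ω] [Algebra κ Ω] {u w t : Ω}
    (h : minpoly κ⟮u⟯ w = minpoly κ⟮u⟯ t) (hw : IsIntegral κ⟮u⟯ w) : Cj κ u w t := by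
  intro q
  have _ := hw
  rw [← aeval_toK, ← aeval_toK, ← minpoly.dvd_iff, ← minpoly.dvd_iff, h]

lemma amgen2_min_le (c : Fin 4) (hc : c ≠ 0) (hℓ' : ℓ'.Prime) : min ℓ ℓ' ≤ dn ℓ ℓ' c := by
  fin_cases c
  · exact absurd rfl hc
  · exact min_le_right _ _
  · exact min_le_left _ _
  · exact (min_le_left _ _).trans (Nat.le_mul_of_pos_right _ hℓ'.pos)

lemma amgen2_val_one {κ Ω : Type*} [Field κ] [Field Ω] [Algebra κ Ω] (U : ValuationSubring Ω)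
    (hκ : ∀ c : κ, algebraMap κ Ω c ∈ U) {c : κ} (hc : c ≠ 0) :
    U.valuation (algebraMap κ Ω c) = 1 :=
  un_val_iff.mp ⟨(_root_.map_ne_zero _).mpr hc, hκ c, by rw [← map_inv₀]; exact hκ _⟩

/-- an element with a separable minimal polynomial with a single root is rational -/
lemma amgen2_mem {K Ω : Type*} [Field K] [Field Ω] [IsAlgClosed Ω] [Algebra K Ω] {x : Ω}
    (hx : IsIntegral K x) (hs : (minpoly K x).Separable)
    (h : ∀ y : Ω, aeval y (minpoly K x) = 0 → y = x) : x ∈ (algebraMap K Ω).range := by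
  have h1 := card_rootSet_eq_natDegree hs (IsAlgClosed.splits ((minpoly K x).map (algebraMap K Ω)))
  have h2 : Fintype.card ((minpoly K x).rootSet Ω) ≤ 1 :=
    Fintype.card_le_one_iff.mpr fun a b => Subtype.ext
      ((h a (aeval_eq_zero_of_mem_rootSet a.2)).trans (h b (aeval_eq_zero_of_mem_rootSet b.2)).symm)
  have h3 := minpoly.natDegree_pos hx
  exact minpoly.natDegree_eq_one_iff.mp (by omega)

/-- the endpoint of slope `n` is not rational -/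
lemma amgen2_not_mem (H : Half L ω₁ ω₂ ω₃) (E : Leg L ω₁ ω₂ ω₃) {n : ℕ} (hn : Odd n) (hn1 : 1 < n)
    {κ Ω : Type*} [Field κ] [IsAlgClosed κ] [Field Ω] [Algebra κ Ω] (P : Pl ℂ Ω)
    (G : Good P.A n E.lam) (hu : Transcendental κ (P.ev (-2 / E.lam)))
    (U : ValuationSubring Ω) (hκ : ∀ c : κ, algebraMap κ Ω c ∈ U)
    (hU : 1 < U.valuation (P.ev (-2 / E.lam))) {r : ℂ} (hr : r ∈ End L ω₁ ω₂ ω₃ n)
    (hv : U.valuation (P.ev r) = U.valuation (P.ev (-2 / E.lam)) ^ n)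
    (hm : P.ev r ∈ κ⟮P.ev (-2 / E.lam)⟯) : False := by
  obtain ⟨L', Q, E', hc, rfl⟩ := hr
  obtain ⟨h, rfl⟩ := hn
  have hh : 1 ≤ h := by omega
  have G' := (lat H E E' hc hh P dvd_rfl G).1
  have t0 : (2 : Ω) ≠ 0 := P.ev_two ▸ P.ev_ne G.two
  have n0 : ((2 * h + 1 : ℕ) : Ω) ≠ 0 := P.ev_natCast (2 * h + 1) ▸ P.ev_ne G.n
  have t1 : (2 : κ) ≠ 0 := fun e => t0 (by rw [← map_ofNat (algebraMap κ Ω) 2, e, map_zero])
  have n1 : ((2 * h + 1 : ℕ) : κ) ≠ 0 := fun e =>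
    n0 (by rw [← map_natCast (algebraMap κ Ω), e, map_zero])
  have m0 := P.ev_ne G'.lam
  have l0 := P.ev_ne G.lam
  have l1 : P.ev E.lam ≠ 1 := by
    have := P.ev_ne G.lam1
    rw [P.ev_sub (one_mem _) G.lam.mem, P.ev_one] at this
    exact (sub_ne_zero.mp this).symm
  rw [P.ev_par G'] at hv hm
  refine sunit (P.ev (-2 / E.lam)) U hκ hU (P.ev E'.lam) ?_ (2 * h + 1) (by omega) ?_ ?_ ?_
  · have : P.ev E'.lam = -2 / (-2 / P.ev E'.lam) := by field_simp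
    rw [this]
    exact div_mem (neg_mem (by simp)) hm
  · rw [Nat.cast_mul, Nat.cast_ofNat]
    exact mul_ne_zero t1 n1
  · rw [← hv, ← map_mul, mul_div_cancel₀ _ m0, Valuation.map_neg,
      ← map_ofNat (algebraMap κ Ω) 2]
    exact amgen2_val_one U hκ t1
  · intro r r0 r2
    obtain ⟨P₂, h1, h2⟩ := place (aeval (P.ev (-2 / E.lam)) : κ[X] →ₐ[κ] Ω).toRingHom
      (transcendental_iff_injective.mp hu) (evalRingHom r)
      (2 * ((2 * h + 1 : ℕ) : κ[X]) * X * (X + 2)) (by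
        simp only [coe_evalRingHom, eval_mul, eval_add, eval_X, eval_natCast, eval_ofNat]
        exact mul_ne_zero (mul_ne_zero (mul_ne_zero t1 n1) r0)
          fun e => r2 (eq_neg_of_add_eq_zero_left e))
    have hB : Bz (2 * h + 1) (P.ev (-2 / E.lam)) ≤ P₂.A := by
      refine Bz_le ?_ ?_
      · simpa using (h1 X).1
      · have := h2.inv
        simpa only [AlgHom.toRingHom_eq_coe, RingHom.coe_coe, map_mul, map_add, aeval_X,
          map_natCast, map_ofNat] using this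
    rw [P.ev_par G] at hB
    have G₂ := good_of_Bz_le t0 n0 l0 l1 hB
    have G₃ := (lat H E E' hc hh (P.res P₂.A P₂.ic) dvd_rfl (P.good_res.mpr ⟨G, G₂⟩)).1
    have G₄ := (P.good_res.mp G₃).2
    exact ⟨P₂, h1, G₄.lam, G₄.lam1⟩

theorem gen_orb (H : Half L ω₁ ω₂ ω₃) (E : Leg L ω₁ ω₂ ω₃) (ha : Transcendental ℤ (-2 / E.lam))
    (hℓ : ℓ.Prime) (hℓ' : ℓ'.Prime) (h2 : ℓ ≠ 2) (h2' : ℓ' ≠ 2) (hne : ℓ ≠ ℓ') (p : ℕ)
    (hp : p.Prime) (hsz : 24 * (ℓ * ℓ') ^ 3 < p) {κ Ω : Type*} [Field κ] [IsAlgClosed κ] [Field Ω]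
    [IsAlgClosed Ω] [Algebra κ Ω] [CharP Ω p] (P : Pl ℂ Ω) (G : Good P.A (ℓ * ℓ') E.lam)
    (hu : Transcendental κ (P.ev (-2 / E.lam))) :
    ∃ R : Finset ℂ, R.card ≤ 4 ∧ (R : Set ℂ) ⊆ End L ω₁ ω₂ ω₃ (ℓ * ℓ') ∧
      (∀ w ∈ End L ω₁ ω₂ ω₃ (ℓ * ℓ'), ∃ r ∈ R, Cj κ (P.ev (-2 / E.lam)) (P.ev r) (P.ev w)) ∧
      ∀ r ∈ R, ∃ T : Finset ℂ, (T : Set ℂ) ⊆ End L ω₁ ω₂ ω₃ (ℓ * ℓ') ∧ min ℓ ℓ' ≤ T.card ∧
        ∀ t ∈ T, Cj κ (P.ev (-2 / E.lam)) (P.ev r) (P.ev t) := by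
  classical
  obtain ⟨U, S, hκ, hU, hsub, hcov, hcard, hsl, hcl, hmin⟩ :=
    gen_core H E ha hℓ hℓ' h2 h2' hne p hp hsz P G hu
  let ρ : Fin 4 → ℂ := fun c => if h : (S c).Nonempty then h.choose else 0
  have hρ : ∀ c, (S c).Nonempty → ρ c ∈ S c := fun c h => by
    simp only [ρ, dif_pos h]
    exact h.choose_spec
  refine ⟨(Finset.univ.filter fun c => (S c).Nonempty).image ρ, ?_, ?_, ?_, ?_⟩
  · exact Finset.card_image_le.trans ((Finset.card_filter_le _ _).trans (by simp))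
  · intro r hr
    obtain ⟨c, hc, rfl⟩ := Finset.mem_image.mp (Finset.mem_coe.mp hr)
    exact hsub c (hρ c (Finset.mem_filter.mp hc).2)
  · intro w hw
    obtain ⟨c, hc⟩ := hcov w hw
    have h1 := hρ c ⟨w, hc⟩
    exact ⟨ρ c, Finset.mem_image_of_mem _ (Finset.mem_filter.mpr ⟨Finset.mem_univ _, w, hc⟩),
      cj_of_minpoly_eq ((hcl c w hc).2.2 _ h1) (hmin _ (hsub c h1)).1⟩
  · intro r hr
    obtain ⟨c, hc, rfl⟩ := Finset.mem_image.mp hr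
    have h1 := hρ c (Finset.mem_filter.mp hc).2
    obtain ⟨hi, hs, hroot⟩ := hmin _ (hsub c h1)
    by_cases hex : ∃ d, d ≠ 0 ∧ ∃ t ∈ S d,
        aeval (P.ev t) (minpoly κ⟮P.ev (-2 / E.lam)⟯ (P.ev (ρ c))) = 0
    · obtain ⟨d, hd, t, ht, e⟩ := hex
      refine ⟨S d, hsub d, (amgen2_min_le d hd hℓ').trans (hcl d t ht).1, fun s hs' => ?_⟩
      refine cj_of_minpoly_eq ?_ hi
      rw [(hcl d t ht).2.2 s hs']
      exact minpoly.eq_of_irreducible_of_monic (minpoly.irreducible hi) e (minpoly.monic hi)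
    · exfalso
      push Not at hex
      have hc0 : c = 0 := by
        by_contra h0
        exact hex c h0 _ h1 (minpoly.aeval _ _)
      subst hc0
      have hm := amgen2_mem hi hs fun y hy => by
        obtain ⟨t, ht, rfl⟩ := hroot y hy
        obtain ⟨d, hd⟩ := hcov t ht
        have hd0 : d = 0 := by
          by_contra h0
          exact hex d h0 t hd hy
        subst hd0
        rw [Finset.card_le_one.mp (hcard 0) t hd _ h1]
      obtain ⟨z, hz⟩ := hm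
      refine amgen2_not_mem H E ((hℓ.odd_of_ne_two h2).mul (hℓ'.odd_of_ne_two h2'))
        (one_lt_mul'' hℓ.one_lt hℓ'.one_lt) P G hu U hκ hU (hsub 0 h1) ?_ ?_
      · simpa only [dn, nm, Matrix.cons_val_zero, pow_one] using hsl 0 _ h1
      · rw [← hz]
        exact z.2

end Pool.Agent.Lib.MP_4a1067_nt.Am
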