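import Mathlib
import Pool.Agent.Lib.MP_4a1067_nt.AmPoly
import Pool.Agent.Lib.MP_4a1067_nt.AmSeries

/-! Formal branches of the correspondence at a noncuspidal point. -/

namespace Pool.Agent.Lib.MP_4a1067_nt.Am

open Polynomial IntermediateField
open scoped PowerSeries

variable {L : PeriodPair} {ω₁ ω₂ ω₃ : ℂ} {n : ℕ}

lemma ambranch_map {κ A B : Type*} [CommRing κ] [CommRing A] [CommRing B] [Algebra κ A]
    [Algebra κ B] (φ : A →ₐ[κ] B) (x y : A) (q : κ[X][X]) :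
    φ (aevalAeval x y q) = aevalAeval (φ x) (φ y) q := by
  induction q using Polynomial.induction_on' with
  | add a b ha hb => rw [map_add, map_add, map_add, ha, hb]
  | monomial n a =>
    rw [← C_mul_X_pow_eq_monomial]
    simp only [map_mul, map_pow, aevalAeval_C, aevalAeval_Y, aeval_algHom_apply]

/-- the series with vanishing linear term -/
def ambranch_T (κ : Type*) [Field κ] : Subring κ⟦X⟧ where
  carrier := {f | PowerSeries.coeff 1 f = 0}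
  mul_mem' := fun {a b} ha hb => by
    simp only [Set.mem_ofPred_eq] at ha hb ⊢
    rw [PowerSeries.coeff_one_mul, ha, hb, zero_mul, zero_mul, add_zero]
  one_mem' := by simp [PowerSeries.coeff_one]
  add_mem' := fun {a b} ha hb => by
    simp only [Set.mem_ofPred_eq] at ha hb ⊢
    rw [map_add, ha, hb, add_zero]
  zero_mem' := by simp
  neg_mem' := fun {a} ha => by
    simp only [Set.mem_ofPred_eq] at ha ⊢
    rw [map_neg, ha, neg_zero]

section Step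
variable {κ Ω : Type*} [Field κ] [Field Ω] (j : κ⟦X⟧ →+* Ω) (P₃ : Pl Ω κ)
  (h3 : ∀ f, j f ∈ P₃.A ∧ P₃.ev (j f) = PowerSeries.constantCoeff f) (T : Subring κ⟦X⟧)
  (T1 : ∀ x u : κ⟦X⟧, PowerSeries.constantCoeff u ≠ 0 → u ∈ T → x * u ∈ T → x ∈ T)
include h3 T1

lemma ambranch_div {x u : Ω} (hu : P₃.ev u ≠ 0) (h1 : u ∈ T.map j) (h2 : x * u ∈ T.map j) :
    x ∈ T.map j := by
  obtain ⟨f, hf, rfl⟩ := h1
  obtain ⟨g, hg, e⟩ := h2
  rw [(h3 f).2] at hu
  obtain ⟨v, hv⟩ := (PowerSeries.isUnit_iff_constantCoeff.mpr hu.isUnit).exists_right_inv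
  refine ⟨g * v, T1 _ f hu hf ?_, ?_⟩
  · rw [mul_assoc, mul_comm v, hv, mul_one]
    exact hg
  · rw [map_mul, e, mul_assoc, ← map_mul, hv, map_one, mul_one]

lemma ambranch_tor
    (T2 : ∀ (q : κ⟦X⟧[X]) (ρ : κ⟦X⟧), (∀ i, q.coeff i ∈ T) → q.eval ρ = 0 →
      PowerSeries.constantCoeff (q.derivative.eval ρ) ≠ 0 → ρ ∈ T)
    (H : Half L ω₁ ω₂ ω₃) (E : Leg L ω₁ ω₂ ω₃) (ha : Transcendental ℤ (-2 / E.lam))
    (hn : Odd n) (hn1 : 1 < n) (P : Pl ℂ Ω) (G : Good (P.comp P₃).A n E.lam)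
    (hb : P.ev (-2 / E.lam) ∈ T.map j) {Q : ℂ} (hQ : Ord L Q n) : P.ev (E.x Q) ∈ T.map j := by
  classical
  obtain ⟨G₁, G₃⟩ := (P.good_res (hB := P₃.ic)).mp G
  obtain ⟨S, hQS, hco, hS⟩ := min_poly H E ha hn hn1 hQ
  have t2 : ∀ {R : ℂ}, Ord L R n → ((2 * n : ℕ) : ℂ) * R ∈ L.lattice ∧ R ∉ L.lattice := by
    intro R hR
    refine ⟨?_, by simpa using hR.notMem one_pos hn1⟩
    have := nat_mul_mem hR.mem 2
    convert this using 1
    push_cast; ring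
  have hm : ∀ r ∈ S, r ∈ (P.comp P₃).A := fun r hr => by
    obtain ⟨R, hR, rfl⟩ := hS r hr
    exact tor_mem H E (P.comp P₃).ic G (t2 hR).1 (t2 hR).2
  have hinj : ∀ r ∈ S, ∀ r' ∈ S, (P.comp P₃).ev r = (P.comp P₃).ev r' → r = r' := by
    intro r hr r' hr' e
    obtain ⟨R, hR, rfl⟩ := hS r hr
    obtain ⟨R', hR', rfl⟩ := hS r' hr'
    by_contra hne
    have u := (P.comp P₃).ev_ne (tor_un H E (P.comp P₃).ic G (t2 hR).1 (t2 hR).2 (t2 hR').1
      (t2 hR').2 (fun h => hne (E.x_congr h)) (fun h => hne (E.x_congr' h)))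
    rw [(P.comp P₃).ev_sub (hm _ hr) (hm _ hr'), e, sub_self] at u
    exact u rfl
  have hm1 : ∀ r ∈ S, r ∈ P.A := fun r hr => ((P.mem_res (hB := P₃.ic)).mp (hm r hr)).1
  have uf := G₃.un_f
  rw [← P.ev_par G₁] at uf
  have hBz : Bz n (P.ev (-2 / E.lam)) ≤ T.map j := by
    refine Bz_le hb (ambranch_div j P₃ h3 T T1 (P₃.ev_ne uf.2) ?_ ?_)
    · exact mul_mem (mul_mem (mul_mem (by simp) (natCast_mem _ _)) hb) (add_mem hb (by simp))
    · rw [inv_mul_cancel₀ uf.2.ne]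
      exact one_mem _
  have hl : ∏ r ∈ S, (X - C (P.ev r)) ∈ lifts (j.comp T.subtype) := by
    rw [lifts_iff_coeff_lifts]
    intro i
    rw [(P.ev_coeff_prod S hm1 i).2]
    obtain ⟨f, hf, e⟩ := hBz (P.ev_mem_Bz G₁.Bz_le G₁.un_f.2.ne (hco i))
    exact ⟨⟨f, hf⟩, e⟩
  obtain ⟨q₀, hq₀⟩ := (mem_lifts _).mp hl
  rw [← Polynomial.map_map] at hq₀
  set q := q₀.map T.subtype with hq
  have hbar : q.map PowerSeries.constantCoeff = ∏ r ∈ S, (X - C ((P.comp P₃).ev r)) := by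
    ext i
    have e := (P.comp P₃).ev_coeff_prod S hm i
    rw [coeff_map, e.2, P.ev_comp P₃ e.1, ← (P.ev_coeff_prod S hm1 i).2, ← hq₀, coeff_map j,
      (h3 _).2]
  have r0 : (q.map PowerSeries.constantCoeff).eval ((P.comp P₃).ev (E.x Q)) = 0 := by
    rw [hbar, eval_prod]
    exact Finset.prod_eq_zero hQS (by simp)
  have r1 : (q.map PowerSeries.constantCoeff).derivative.eval ((P.comp P₃).ev (E.x Q)) ≠ 0 := by
    have := (separable_prod_X_sub_C_iff'.mpr hinj).aeval_derivative_ne_zero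
      (x := (P.comp P₃).ev (E.x Q)) (by rw [← hbar, coe_aeval_eq_eval]; exact r0)
    rwa [← hbar, coe_aeval_eq_eval] at this
  obtain ⟨ρ, hρ, hρ0⟩ := hensel q _ r0 r1
  have e1 : (q.map j).eval (j ρ) = 0 := by rw [eval_map, eval₂_hom, hρ0, map_zero]
  rw [hq₀, eval_prod, Finset.prod_eq_zero_iff] at e1
  obtain ⟨r, hr, e1⟩ := e1
  rw [eval_sub, eval_X, eval_C, sub_eq_zero] at e1
  have e2 : E.x Q = r := hinj _ hQS _ hr (by
    rw [← hρ, P.ev_comp P₃ (hm r hr), ← e1, (h3 _).2])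
  refine ⟨ρ, T2 q ρ (fun i => ?_) hρ0 ?_, by rw [e1, e2]⟩
  · rw [hq, coeff_map]
    exact (q₀.coeff i).2
  · rwa [← hρ, derivative_map, eval_map, eval₂_hom] at r1

lemma ambranch_step
    (T2 : ∀ (q : κ⟦X⟧[X]) (ρ : κ⟦X⟧), (∀ i, q.coeff i ∈ T) → q.eval ρ = 0 →
      PowerSeries.constantCoeff (q.derivative.eval ρ) ≠ 0 → ρ ∈ T)
    (H : Half L ω₁ ω₂ ω₃) (E : Leg L ω₁ ω₂ ω₃) (ha : Transcendental ℤ (-2 / E.lam))
    (hn : Odd n) (hn1 : 1 < n) (P : Pl ℂ Ω) (G : Good (P.comp P₃).A n E.lam)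
    (hb : P.ev (-2 / E.lam) ∈ T.map j) {w : ℂ} (hw : w ∈ End L ω₁ ω₂ ω₃ n) :
    P.ev w ∈ T.map j := by
  obtain ⟨L', Q, E', hc, rfl⟩ := hw
  have hx := ambranch_tor j P₃ h3 T T1 T2 H E ha hn hn1 P G hb hc.ord
  obtain ⟨h, rfl⟩ := hn
  obtain ⟨G', -, I⟩ := lat H E E' hc (by omega) (P.res P₃.A P₃.ic) dvd_rfl G
  obtain ⟨G₁, G₃⟩ := (P.good_res (hB := P₃.ic)).mp G
  obtain ⟨G₁', G₃'⟩ := P.good_res.mp G'
  have t : (-2 : Ω) ∈ T.map j := neg_mem (by simp)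
  have hQ : E.x Q ∈ (P.res P₃.A P₃.ic).A := by
    refine tor_mem H E (P.res P₃.A P₃.ic).ic G ?_
      (by simpa using hc.ord.notMem one_pos hn1)
    have := nat_mul_mem hc.ord.mem 2
    convert this using 1
    push_cast; ring
  have hm := I.mem (by omega) ((T.map j).comap P₃.A.subtype) (fun x u hu h1 h2 =>
    ambranch_div j P₃ h3 T T1 (u := u) (by rw [P₃.ev_coe]; exact (hu.map P₃.f).ne_zero) h1 h2)
    (by
      change ((P.res P₃.A P₃.ic).ev E.lam : Ω) ∈ T.map j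
      rw [P.ev_res G.lam.mem]
      have uf := G₃.un_f.1
      rw [← P.ev_par G₁] at uf
      refine ambranch_div j P₃ h3 T T1 (P₃.ev_ne uf) hb ?_
      rw [P.ev_par G₁, mul_div_cancel₀ _ G₃.lam.ne]
      exact t)
    (by
      change ((P.res P₃.A P₃.ic).ev (E.x ((1 : ℕ) * Q)) : Ω) ∈ T.map j
      rw [Nat.cast_one, one_mul, P.ev_res hQ]
      exact hx)
  change ((P.res P₃.A P₃.ic).ev E'.lam : Ω) ∈ T.map j at hm
  rw [P.ev_res G'.lam.mem] at hm
  refine ambranch_div j P₃ h3 T T1 (P₃.ev_ne G₃'.lam) hm ?_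
  rw [P.ev_par G₁', div_mul_cancel₀ _ G₃'.lam.ne]
  exact t

end Step

theorem branch (H : Half L ω₁ ω₂ ω₃) (E : Leg L ω₁ ω₂ ω₃) (ha : Transcendental ℤ (-2 / E.lam))
    (hn : Odd n) (hn1 : 1 < n) {κ Ω : Type} [Field κ] [IsAlgClosed κ] [Field Ω] [Algebra κ Ω]
    (P : Pl ℂ Ω) (G : Good P.A n E.lam) (hu : Transcendental κ (P.ev (-2 / E.lam)))
    (halg : Algebra.IsAlgebraic κ⟮P.ev (-2 / E.lam)⟯ Ω) (r : κ) (r0 : r ≠ 0) (r2 : r ≠ -2) :
    ∃ C₀ : Pl ℂ κ, Good C₀.A n E.lam ∧ ∀ w ∈ End L ω₁ ω₂ ω₃ n, ∃ η : κ⟦X⟧,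
      PowerSeries.constantCoeff η = C₀.ev w ∧ PowerSeries.coeff 1 η ≠ 0 ∧
      ∀ q : κ[X][X], aevalAeval (P.ev (-2 / E.lam)) (P.ev w) q = 0 ↔
        aevalAeval (PowerSeries.C r + PowerSeries.X) η q = 0 := by
  let j : κ⟦X⟧ →ₐ[κ] AlgebraicClosure (FractionRing κ⟦X⟧) := IsScalarTower.toAlgHom κ _ _
  have hj : Function.Injective j :=
    (algebraMap (FractionRing κ⟦X⟧) (AlgebraicClosure (FractionRing κ⟦X⟧))).injective.comp
      (IsFractionRing.injective κ⟦X⟧ (FractionRing κ⟦X⟧))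
  have c1 : PowerSeries.coeff 1 (PowerSeries.C r + PowerSeries.X : κ⟦X⟧) = 1 := by
    simp
  have ht : Transcendental κ (j (PowerSeries.C r + PowerSeries.X)) := by
    rw [transcendental_iff]
    intro q hq
    by_contra q0
    rw [aeval_algHom_apply, map_eq_zero_iff _ hj] at hq
    have := order_aeval q q0 _ (c1 ▸ one_ne_zero)
    rw [hq, PowerSeries.order_zero] at this
    exact ENat.top_ne_natCast _ this
  obtain ⟨ι, hι⟩ := exists_emb _ hu halg _ ht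
  obtain ⟨P₃, h3, -⟩ := exists_pl j.toRingHom hj PowerSeries.constantCoeff
  set P₁ := P.map ι.toRingHom with hP₁
  have ev1 : ∀ z, P₁.ev z = ι (P.ev z) := fun z => P.ev_map _ z
  have G₁ : Good P₁.A n E.lam := G
  have hb : P₁.ev (-2 / E.lam) = j (PowerSeries.C r + PowerSeries.X) := by rw [ev1, hι]
  have n2 : (2 : κ) ≠ 0 := fun h => P.ev_ne G.two (by
    rw [P.ev_two, ← map_ofNat (algebraMap κ Ω) 2, h, map_zero])
  have nn : (n : κ) ≠ 0 := fun h => P.ev_ne G.n (by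
    rw [P.ev_natCast, ← map_natCast (algebraMap κ Ω) n, h, map_zero])
  have G₃ : Good P₃.A n (P₁.ev E.lam) := by
    refine good_of_Bz_le (P₁.ev_two ▸ P₁.ev_ne G₁.two) (P₁.ev_natCast n ▸ P₁.ev_ne G₁.n)
      (P₁.ev_ne G₁.lam) ?_ ?_
    · have := P₁.ev_ne G₁.lam1
      rw [P₁.ev_sub (one_mem _) G₁.lam.mem, P₁.ev_one] at this
      exact (sub_ne_zero.mp this).symm
    · rw [← P₁.ev_par G₁, hb]
      refine Bz_le (h3 _).1 ?_
      have hu' : IsUnit (2 * (n : κ⟦X⟧) * (PowerSeries.C r + PowerSeries.X)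
          * (PowerSeries.C r + PowerSeries.X + 2) : κ⟦X⟧) := by
        rw [PowerSeries.isUnit_iff_constantCoeff]
        simp only [map_mul, map_add, map_ofNat, map_natCast, PowerSeries.constantCoeff_C,
          PowerSeries.constantCoeff_X, add_zero]
        exact (mul_ne_zero (mul_ne_zero (mul_ne_zero n2 nn) r0)
          fun h => r2 (eq_neg_of_add_eq_zero_left h)).isUnit
      obtain ⟨v, hv⟩ := hu'.exists_right_inv
      have := congrArg j hv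
      simp only [map_mul, map_add j _ 2, map_ofNat, map_natCast, map_one] at this
      rw [← eq_inv_of_mul_eq_one_right this]
      exact (h3 v).1
  have G₀ : Good (P₁.comp P₃).A n E.lam := (P₁.good_res (hB := P₃.ic)).mpr ⟨G₁, G₃⟩
  refine ⟨P₁.comp P₃, G₀, fun w hw => ?_⟩
  obtain ⟨η, -, hη⟩ := ambranch_step j.toRingHom P₃ h3 ⊤ (fun _ _ _ _ _ => trivial)
    (fun _ _ _ _ _ => trivial) H E ha hn hn1 P₁ G₀ ⟨_, trivial, hb.symm⟩ hw
  refine ⟨η, ?_, fun h1 => ?_, fun q => ?_⟩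
  · rw [P₁.ev_comp P₃ (end_Bz H E hn hn1 (P₁.comp P₃).ic G₀ hw).1.mem, ← hη, (h3 _).2]
  · have tw := transc_end H E ha hn hn1 hw
    obtain ⟨L', Q, E', hc, rfl⟩ := hw
    have G' : Good (P₁.comp P₃).A n E'.lam := by
      obtain ⟨h, rfl⟩ := hn
      exact (lat H E E' hc (by omega) (P₁.comp P₃) dvd_rfl G₀).1
    obtain ⟨g, hg, e⟩ := ambranch_step j.toRingHom P₃ h3 (ambranch_T κ)
      (fun x u h0 hu' hx => by
        change PowerSeries.coeff 1 u = 0 at hu'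
        change PowerSeries.coeff 1 (x * u) = 0 at hx
        rw [PowerSeries.coeff_one_mul, hu', zero_mul, add_zero] at hx
        exact (mul_eq_zero.mp hx).resolve_right h0)
      (fun q ρ hq h0 h1 => coeff_one_root q hq ρ h0 h1) (hc.half hn H) E' tw hn hn1 P₁ G'
      ⟨η, h1, hη⟩ (dual_end H E hc hn)
    rw [hb] at e
    obtain rfl := hj e
    change PowerSeries.coeff 1 _ = 0 at hg
    rw [c1] at hg
    exact one_ne_zero hg
  · rw [← map_eq_zero_iff ι ι.injective, ambranch_map, hι, ← ev1, ← hη, ← map_eq_zero_iff j hj,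
      ambranch_map]
    rfl

end Pool.Agent.Lib.MP_4a1067_nt.Am
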