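import Mathlib
import Pool.Agent.Lib.MP_4a1067_nt.AmExt

/-! Lifting a coincidence from characteristic p to characteristic zero. -/

namespace Pool.Agent.Lib.MP_4a1067_nt.Am

open Polynomial

/-- the principal ideal theorem and going down over a localisation of `ℤ[X]` -/
theorem amkrull_core {B A : Type*} [CommRing B] [CommRing A] [IsDomain A] [IsNoetherianRing A]
    [Algebra ℤ[X] B] [Algebra B A] [FaithfulSMul B A] [Algebra.IsIntegral B A] [CharZero A]
    (f : ℤ[X]) (hf : f ≠ 0) [IsLocalization.Away f B] (p : ℕ) (hp : p.Prime) (m : Ideal A)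
    [m.IsPrime] (δ : A) (hδ : δ ∈ m) (hδ0 : δ ≠ 0) :
    ∃ q : Ideal A, q.IsPrime ∧ δ ∈ q ∧ q ≤ m ∧
      (((p : A) ∈ q ∧ ∀ r : ℤ[X], algebraMap B A (algebraMap ℤ[X] B r) ∈ q → C (p : ℤ) ∣ r) ∨
        ((p : A) ∉ q ∧ ∃ r : ℤ[X], r ≠ 0 ∧ algebraMap B A (algebraMap ℤ[X] B r) ∈ q)) := by
  have hinj := FaithfulSMul.algebraMap_injective B A
  have : IsDomain B := hinj.isDomain
  have : IsIntegrallyClosed B := isIntegrallyClosed_of_isLocalization B (Submonoid.powers f)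
    (powers_le_nonZeroDivisors_of_noZeroDivisors hf)
  obtain ⟨q, hq, hqm⟩ := Ideal.exists_minimalPrimes_le (I := Ideal.span {δ}) (J := m)
    ((Ideal.span_singleton_le_iff_mem _).2 hδ)
  have hqp : q.IsPrime := hq.isPrime
  have hδq : δ ∈ q := (Ideal.span_singleton_le_iff_mem _).1 hq.le
  have hht := Ideal.height_le_one_of_isPrincipal_of_mem_minimalPrimes _ q hq
  have hu : IsUnit (algebraMap ℤ[X] B f) := IsLocalization.Away.algebraMap_isUnit f
  refine ⟨q, hqp, hδq, hqm, ?_⟩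
  by_cases hpq : (p : A) ∈ q
  · refine Or.inl ⟨hpq, fun r hr => ?_⟩
    have hpr : Prime (C (p : ℤ)) := prime_C_iff.2 (Nat.prime_iff_prime_int.1 hp)
    have hI : (Ideal.span {C (p : ℤ)} : Ideal ℤ[X]).IsPrime :=
      (Ideal.span_singleton_prime hpr.ne_zero).2 hpr
    have hCp : algebraMap B A (algebraMap ℤ[X] B (C (p : ℤ))) = p := by
      rw [eq_intCast C, map_intCast, map_intCast, Int.cast_natCast]
    have hle : (Ideal.span {C (p : ℤ)}).map (algebraMap ℤ[X] B) ≤ q.under B := by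
      rw [Ideal.map_le_iff_le_comap, Ideal.span_singleton_le_iff_mem, Ideal.mem_comap,
        Ideal.mem_comap, hCp]
      exact hpq
    have hd : Disjoint (Submonoid.powers f : Set ℤ[X]) (Ideal.span {C (p : ℤ)} : Ideal ℤ[X]) := by
      rw [Set.disjoint_left]
      rintro _ ⟨N, rfl⟩ hN
      have h1 : algebraMap ℤ[X] B (f ^ N) ∈ q.under B := hle (Ideal.mem_map_of_mem _ hN)
      rw [map_pow] at h1
      exact (inferInstance : (q.under B).IsPrime).ne_top
        (Ideal.eq_top_of_isUnit_mem _ h1 (hu.pow N))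
    have hp0 : ((Ideal.span {C (p : ℤ)}).map (algebraMap ℤ[X] B)).IsPrime :=
      IsLocalization.isPrime_of_isPrime_disjoint (Submonoid.powers f) B _ hI hd
    have heq : (Ideal.span {C (p : ℤ)}).map (algebraMap ℤ[X] B) = q.under B := by
      refine eq_of_le_of_not_lt hle fun hlt => ?_
      obtain ⟨Q, hQ, hQp, hQl⟩ := Ideal.exists_ideal_lt_liesOver_of_lt (S := A) q hlt
      have h1 : (p : A) ∈ Q := by
        have h2 : algebraMap ℤ[X] B (C (p : ℤ)) ∈ Q.under B := by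
          rw [← hQl.over]
          exact Ideal.mem_map_of_mem _ (Ideal.mem_span_singleton_self _)
        rw [Ideal.mem_comap, hCp] at h2
        exact h2
      have h2 : (⊥ : Ideal A) < Q := bot_lt_iff_ne_bot.2 fun h => by
        rw [h, Ideal.mem_bot] at h1
        exact hp.ne_zero (Nat.cast_eq_zero.1 h1)
      have h3 := Ideal.height_add_one_le_of_lt_of_isPrime h2
      have h4 := Ideal.height_add_one_le_of_lt_of_isPrime hQ
      rw [Ideal.height_bot, zero_add] at h3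
      have h5 : (1 : ℕ∞) + 1 ≤ 1 := (add_le_add_left h3 1).trans (h4.trans hht)
      exact absurd h5 (by decide)
    have h6 : algebraMap ℤ[X] B r ∈ (Ideal.span {C (p : ℤ)}).map (algebraMap ℤ[X] B) := by
      rw [heq]
      exact hr
    have h7 := IsLocalization.under_map_of_isPrime_disjoint (Submonoid.powers f) B hI hd
    rw [← Ideal.mem_span_singleton, ← h7]
    exact h6
  · refine Or.inr ⟨hpq, ?_⟩
    obtain ⟨b, hb, hb0⟩ := (Submodule.ne_bot_iff _).1
      (Ideal.comap_ne_bot_of_integral_mem (R := B) hδ0 hδq (Algebra.IsIntegral.isIntegral δ))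
    obtain ⟨N, r, hr⟩ := IsLocalization.Away.surj f b
    refine ⟨r, fun h => ?_, ?_⟩
    · rw [h, map_zero] at hr
      exact mul_ne_zero hb0 (hu.pow N).ne_zero hr
    · rw [← hr, map_mul]
      exact q.mul_mem_right _ hb

theorem amkrull_f_ne {n : ℕ} (hn : n ≠ 0) : (2 * (n : ℤ[X]) * X * (X + 2) : ℤ[X]) ≠ 0 := by
  refine mul_ne_zero (mul_ne_zero (mul_ne_zero two_ne_zero (Nat.cast_ne_zero.2 hn)) X_ne_zero) ?_
  exact (monic_X_add_C (2 : ℤ)).ne_zero

theorem amkrull_aeval {R : Type*} [CommRing R] (n : ℕ) (x : R) :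
    aeval x (2 * (n : ℤ[X]) * X * (X + 2) : ℤ[X]) = 2 * n * x * (x + 2) := by
  simp only [map_mul, map_add, aeval_X, map_natCast, map_ofNat]

theorem amkrull_coe_aeval {n : ℕ} {a : ℂ} (r : ℤ[X]) :
    ((aeval (⟨a, self_mem_Bz n a⟩ : Bz n a) r : Bz n a) : ℂ) = aeval a r :=
  (aeval_algHom_apply (Bz n a).subtype.toIntAlgHom (⟨a, self_mem_Bz n a⟩ : Bz n a) r).symm

/-- the base ring is a localisation of `ℤ[X]` -/
theorem amkrull_away {n : ℕ} (hn : n ≠ 0) {a : ℂ} (ha : Transcendental ℤ a) :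
    @IsLocalization.Away ℤ[X] _ (2 * (n : ℤ[X]) * X * (X + 2)) (Bz n a) _
      (aeval (⟨a, self_mem_Bz n a⟩ : Bz n a) : ℤ[X] →ₐ[ℤ] Bz n a).toRingHom.toAlgebra := by
  let _ : Algebra ℤ[X] (Bz n a) :=
    (aeval (⟨a, self_mem_Bz n a⟩ : Bz n a) : ℤ[X] →ₐ[ℤ] Bz n a).toRingHom.toAlgebra
  have hco : ∀ r : ℤ[X], ((algebraMap ℤ[X] (Bz n a) r : Bz n a) : ℂ) = aeval a r :=
    fun r => amkrull_coe_aeval r
  have hF : (2 * n * a * (a + 2) : ℂ) ≠ 0 := by
    rw [← amkrull_aeval]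
    exact fun h => amkrull_f_ne hn (transcendental_iff.1 ha _ h)
  refine IsLocalization.Away.mk _ ?_ ?_ ?_
  · refine IsUnit.of_mul_eq_one ⟨_, inv_mem_Bz n a⟩ (Subtype.ext ?_)
    rw [Subring.coe_mul, hco, amkrull_aeval]
    exact mul_inv_cancel₀ hF
  · rintro ⟨s, hs⟩
    suffices h : ∃ (N : ℕ) (r : ℤ[X]), s * (2 * n * a * (a + 2)) ^ N = aeval a r by
      obtain ⟨N, r, h⟩ := h
      refine ⟨N, r, Subtype.ext ?_⟩
      rw [Subring.coe_mul, Subring.coe_pow, hco, hco, amkrull_aeval]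
      exact h
    induction hs using Subring.closure_induction with
    | mem x hx =>
      rcases hx with rfl | rfl
      · exact ⟨0, X, by simp⟩
      · exact ⟨1, 1, by rw [pow_one, map_one, inv_mul_cancel₀ hF]⟩
    | zero => exact ⟨0, 0, by simp⟩
    | one => exact ⟨0, 1, by simp⟩
    | add x y _ _ hx hy =>
      obtain ⟨N, r, h⟩ := hx
      obtain ⟨N', r', h'⟩ := hy
      refine ⟨N + N', r * (2 * (n : ℤ[X]) * X * (X + 2)) ^ N' + r' * (2 * (n : ℤ[X]) * X * (X + 2)) ^ N, ?_⟩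
      rw [map_add, map_mul, map_mul, map_pow, map_pow, amkrull_aeval, ← h, ← h']
      ring
    | neg x _ hx =>
      obtain ⟨N, r, h⟩ := hx
      exact ⟨N, -r, by rw [map_neg, ← h, neg_mul]⟩
    | mul x y _ _ hx hy =>
      obtain ⟨N, r, h⟩ := hx
      obtain ⟨N', r', h'⟩ := hy
      refine ⟨N + N', r * r', ?_⟩
      rw [map_mul, ← h, ← h']
      ring
  · intro r r' h
    have h1 : aeval a r = aeval a r' := by rw [← hco, ← hco, h]
    exact ⟨0, by rw [transcendental_iff_injective.1 ha h1]⟩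

theorem amkrull_field {A : Type} [CommRing A] (q : Ideal A) [q.IsPrime] :
    ∃ (Ω : Type) (_ : Field Ω) (_ : IsAlgClosed Ω) (g : A →+* Ω), ∀ z, g z = 0 ↔ z ∈ q := by
  refine ⟨AlgebraicClosure (FractionRing (A ⧸ q)), inferInstance, inferInstance,
    (algebraMap (FractionRing (A ⧸ q)) _).comp
      ((algebraMap (A ⧸ q) (FractionRing (A ⧸ q))).comp (Ideal.Quotient.mk q)), fun z => ?_⟩
  rw [← Ideal.Quotient.eq_zero_iff_mem]
  exact (map_eq_zero_iff _ (algebraMap (FractionRing (A ⧸ q)) _).injective).trans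
    (map_eq_zero_iff _ (IsFractionRing.injective (A ⧸ q) (FractionRing (A ⧸ q))))

theorem amkrull_hom {S : Type*} [CommRing S] (φ : ℤ[X] →+* S) (r : ℤ[X]) :
    φ r = aeval (φ X) r := by
  induction r using Polynomial.induction_on' with
  | add s t hs ht => rw [map_add, map_add, hs, ht]
  | monomial i c =>
    rw [← C_mul_X_pow_eq_monomial, map_mul, map_mul, map_pow, map_pow, aeval_X, eq_intCast C,
      map_intCast, map_intCast]

/-- a homomorphism with algebraic image can be moved to `ℂ` -/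
theorem amkrull_emb {B A Ω : Type*} [CommRing B] [CommRing A] [Algebra ℤ[X] B] [Algebra B A]
    [Algebra.IsIntegral B A] (f : ℤ[X]) [IsLocalization.Away f B] [Field Ω] [CharZero Ω]
    (g : A →+* Ω) {r : ℤ[X]} (hr0 : r ≠ 0) (hr : g (algebraMap B A (algebraMap ℤ[X] B r)) = 0) :
    ∃ g' : A →+* ℂ, ∀ z, g' z = 0 ↔ g z = 0 := by
  set φ : ℤ[X] →+* Ω := g.comp ((algebraMap B A).comp (algebraMap ℤ[X] B)) with hφ
  have hφ' : ∀ t, g (algebraMap B A (algebraMap ℤ[X] B t)) = φ t := fun _ => rfl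
  set T : IntermediateField ℚ Ω := algebraicClosure ℚ Ω with hT
  have haT : φ X ∈ T := by
    refine mem_algebraicClosure_iff.2 ?_
    have h1 : IsAlgebraic ℤ (φ X) := ⟨r, hr0, (amkrull_hom φ r).symm.trans hr⟩
    exact h1.extendScalars (RingHom.injective_int _)
  have hae : ∀ t : ℤ[X], φ t ∈ T := fun t => by
    induction t using Polynomial.induction_on' with
    | add s t hs ht => rw [map_add]; exact add_mem hs ht
    | monomial i c =>
      rw [← C_mul_X_pow_eq_monomial, map_mul, map_pow, eq_intCast C, map_intCast]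
      exact mul_mem (intCast_mem T c) (pow_mem haT i)
  have hBT : ∀ z : B, g.comp (algebraMap B A) z ∈ T := fun z => by
    obtain ⟨N, s, hs⟩ := IsLocalization.Away.surj f z
    have h1 := congrArg (fun y => g (algebraMap B A y)) hs
    simp only [map_mul, map_pow, hφ'] at h1
    have h2 : IsUnit (φ f) :=
      ((IsLocalization.Away.algebraMap_isUnit (S := B) f).map (algebraMap B A)).map g
    rw [RingHom.comp_apply, eq_div_of_mul_eq (h2.pow N).ne_zero h1]
    exact div_mem (hae s) (pow_mem (hae f) N)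
  have hal : Algebra.IsAlgebraic ℚ T := ⟨fun x =>
    (isAlgebraic_algHom_iff T.subtype.toRatAlgHom Subtype.val_injective).1
      (mem_algebraicClosure_iff.1 x.2)⟩
  have hAT : ∀ z : A, g z ∈ T := fun z => by
    have h1 : IsIntegral T (g z) :=
      (Algebra.IsIntegral.isIntegral (R := B) z).map_of_comp_eq
        ((g.comp (algebraMap B A)).codRestrict T hBT) g (RingHom.ext fun _ => rfl)
    exact mem_algebraicClosure_iff'.2 (isIntegral_trans (R := ℚ) (A := T) _ h1)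
  let ι : T →ₐ[ℚ] ℂ := IsAlgClosed.lift
  refine ⟨ι.toRingHom.comp (g.codRestrict T hAT), fun z => ?_⟩
  exact (map_eq_zero_iff _ ι.toRingHom.injective).trans Subtype.ext_iff

/-- the case of characteristic `p` -/
theorem amkrull_transc {Ω : Type*} [Field Ω] (p : ℕ) [Fact p.Prime] [Algebra (ZMod p) Ω] {x : Ω}
    (h : ∀ r : ℤ[X], aeval x r = 0 → C (p : ℤ) ∣ r) : Transcendental (ZMod p) x := by
  rw [transcendental_iff]
  intro s hs
  obtain ⟨r, rfl⟩ := map_surjective (Int.castRingHom (ZMod p)) (ZMod.ringHom_surjective _) s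
  have h3 : aeval x r = 0 := by
    rw [← hs, aeval_def, aeval_def, eval₂_map]
    congr 1
    exact RingHom.ext_int _ _
  obtain ⟨t, rfl⟩ := h r h3
  rw [Polynomial.map_mul, map_C]
  simp

theorem amkrull_charZero {A Ω k : Type*} [CommRing A] [Field Ω] [Field k] {p : ℕ} (hp : p.Prime)
    [CharP k p] (g : A →+* Ω) (e : A →+* k) (h : ∀ z, g z = 0 → e z = 0) (hpg : g p ≠ 0) :
    CharZero Ω := by
  have := ringChar.charP Ω
  rcases CharP.char_is_prime_or_zero Ω (ringChar Ω) with h0 | h0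
  · exfalso
    have h1 : g (ringChar Ω : ℕ) = 0 := by
      rw [map_natCast]
      exact ringChar.Nat.cast_ringChar
    have h2 : ((ringChar Ω : ℕ) : k) = 0 := by
      rw [← map_natCast e]
      exact h _ h1
    have h3 := (Nat.prime_dvd_prime_iff_eq hp h0).1 ((CharP.cast_eq_zero_iff k p _).1 h2)
    rw [← h3] at h1
    exact hpg h1
  · rw [h0] at this
    exact CharP.charP_to_charZero Ω

theorem amkrull_main {a : ℂ} {B A : Subring ℂ} [Algebra ℤ[X] B]
    (hX : ((algebraMap ℤ[X] B X : B) : ℂ) = a) (f : ℤ[X]) (hf : f ≠ 0) [IsLocalization.Away f B]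
    [IsNoetherianRing A] (hBA : B ≤ A) (hAi : A ≤ icl B) (p : ℕ) [Fact p.Prime]
    {k : Type*} [Field k] [CharP k p] (P : Pl ℂ k) (hB : B ≤ P.A) (δ : ℂ) (hδA : δ ∈ A)
    (hδ0 : δ ≠ 0) (hδ : P.ev δ = 0)
    (hgen : ∀ (Ω : Type) [Field Ω] [IsAlgClosed Ω] [Algebra (ZMod p) Ω] (P' : Pl ℂ Ω),
      B ≤ P'.A → Transcendental (ZMod p) (P'.ev a) → P'.ev δ ≠ 0) :
    ∃ P₀ : Pl ℂ ℂ, B ≤ P₀.A ∧ P₀.ev δ = 0 ∧ ∀ z ∈ A, P₀.ev z = 0 → P.ev z = 0 := by
  have hp : p.Prime := Fact.out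
  have hAP : A ≤ P.A := hAi.trans (P.ic.icl_le hB)
  let _ : Algebra B A := (Subring.inclusion hBA).toAlgebra
  have : IsScalarTower B A ℂ := IsScalarTower.of_algebraMap_eq fun _ => rfl
  have : FaithfulSMul B A :=
    (faithfulSMul_iff_algebraMap_injective _ _).2 (Subring.inclusion_injective hBA)
  have : Algebra.IsIntegral B A :=
    ⟨fun z => (isIntegral_algebraMap_iff (B := ℂ) Subtype.val_injective).1 (mem_icl.1 (hAi z.2))⟩
  have hinc : ∀ b : B, ((algebraMap B A b : A) : ℂ) = b := fun _ => rfl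
  obtain ⟨e, he⟩ : ∃ e : A →+* k, ∀ z : A, e z = P.ev z :=
    ⟨P.f.comp (Subring.inclusion hAP), fun z => (P.ev_of_mem (hAP z.2)).symm⟩
  have : (RingHom.ker e).IsPrime := RingHom.ker_isPrime e
  obtain ⟨q, hqp, hδq, hqm, hq⟩ := amkrull_core (B := B) (A := A) f hf p hp
    (RingHom.ker e) ⟨δ, hδA⟩ (by rw [RingHom.mem_ker, he]; exact hδ)
    (fun h => hδ0 (congrArg Subtype.val h))
  obtain ⟨Ω, _, _, g, hg⟩ := amkrull_field q
  rcases hq with ⟨hpq, hq⟩ | ⟨hpq, r, hr0, hr⟩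
  · exfalso
    have : CharP Ω p := (CharP.charP_iff_prime_eq_zero hp).2 (by
      rw [← map_natCast g]
      exact (hg _).2 hpq)
    let _ : Algebra (ZMod p) Ω := ZMod.algebra Ω p
    obtain ⟨P', h1, -⟩ := exists_pl A.subtype Subtype.val_injective g
    refine hgen Ω P' (fun z hz => (h1 ⟨z, hBA hz⟩).1) ?_
      ((h1 ⟨δ, hδA⟩).2.trans ((hg _).2 hδq))
    have h2 : P'.ev a = g (algebraMap B A (algebraMap ℤ[X] B X)) := by
      rw [← hX, ← hinc]
      exact (h1 (algebraMap B A (algebraMap ℤ[X] B X))).2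
    rw [h2]
    refine amkrull_transc p fun r hr => hq r ((hg _).1 ?_)
    have h4 := amkrull_hom (g.comp ((algebraMap B A).comp (algebraMap ℤ[X] B))) r
    simp only [RingHom.comp_apply] at h4
    rw [h4]
    exact hr
  · have : CharZero Ω := amkrull_charZero hp g e (fun z hz => hqm ((hg z).1 hz))
      (fun h => hpq ((hg _).1 h))
    obtain ⟨g', hg'⟩ := amkrull_emb (B := B) f g hr0 ((hg _).2 hr)
    obtain ⟨P₀, h1, -⟩ := exists_pl A.subtype Subtype.val_injective g'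
    have h2 : ∀ z : A, P₀.ev z = 0 ↔ z ∈ q := fun z => by
      rw [← hg, ← hg', show P₀.ev z = g' z from (h1 z).2]
    refine ⟨P₀, fun z hz => (h1 ⟨z, hBA hz⟩).1, (h2 ⟨δ, hδA⟩).2 hδq, fun z hz h => ?_⟩
    exact (he ⟨z, hz⟩).symm.trans (hqm ((h2 ⟨z, hz⟩).1 h))

theorem krull (n : ℕ) (hn : n ≠ 0) (a : ℂ) (ha : Transcendental ℤ a) (p : ℕ) [Fact p.Prime]
    {k : Type*} [Field k] [CharP k p] (P : Pl ℂ k) (hB : Bz n a ≤ P.A) (Z : Finset ℂ)
    (hZ : ∀ z ∈ Z, IsIntegral (Bz n a) z) (δ : ℂ) (hδZ : δ ∈ Z) (hδ0 : δ ≠ 0)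
    (hδ : P.ev δ = 0)
    (hgen : ∀ (Ω : Type) [Field Ω] [IsAlgClosed Ω] [Algebra (ZMod p) Ω] (P' : Pl ℂ Ω),
      Bz n a ≤ P'.A → Transcendental (ZMod p) (P'.ev a) → P'.ev δ ≠ 0) :
    ∃ P₀ : Pl ℂ ℂ, Bz n a ≤ P₀.A ∧ P₀.ev δ = 0 ∧
      ∀ z ∈ Subring.closure ((Bz n a : Set ℂ) ∪ Z), P₀.ev z = 0 → P.ev z = 0 := by
  have : IsNoetherianRing (Subring.closure ((Bz n a : Set ℂ) ∪ Z)) := by
    have e : Subring.closure ((Bz n a : Set ℂ) ∪ Z) =
        Subring.closure (({a, (2 * n * a * (a + 2))⁻¹} : Set ℂ) ∪ Z) := by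
      rw [Subring.closure_union, Subring.closure_union, Subring.closure_eq, Bz]
    rw [e]
    exact is_noetherian_subring_closure _ ((Set.toFinite _).union Z.finite_toSet)
  let _ : Algebra ℤ[X] (Bz n a) :=
    (aeval (⟨a, self_mem_Bz n a⟩ : Bz n a) : ℤ[X] →ₐ[ℤ] Bz n a).toRingHom.toAlgebra
  have : IsLocalization.Away (2 * (n : ℤ[X]) * X * (X + 2)) (Bz n a) := amkrull_away hn ha
  have hco : ∀ r : ℤ[X], ((algebraMap ℤ[X] (Bz n a) r : Bz n a) : ℂ) = aeval a r :=
    fun r => amkrull_coe_aeval r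
  refine amkrull_main (A := Subring.closure ((Bz n a : Set ℂ) ∪ Z))
    (by rw [hco, aeval_X]) _ (amkrull_f_ne hn)
    (fun z hz => Subring.subset_closure (Or.inl hz)) (Subring.closure_le.2 ?_) p P hB δ
    (Subring.subset_closure (Or.inr hδZ)) hδ0 hδ hgen
  rintro z (hz | hz)
  exacts [le_icl _ hz, hZ z hz]

end Pool.Agent.Lib.MP_4a1067_nt.Am
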