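import Mathlib
import Pool.Agent.Lib.MP_4a1067_nt.AmBasic

/-! A bound for the number of parallel isogenies from their multipliers. -/

namespace Pool.Agent.Lib.MP_4a1067_nt.Am

lemma amramsey_r33 {ι : Type*} (U : Finset ι) (hU : 6 ≤ U.card) (C : ι → ι → Prop) :
    ∃ a ∈ U, ∃ b ∈ U, ∃ c ∈ U, a ≠ b ∧ b ≠ c ∧ a ≠ c ∧
      ((C a b ∧ C b c ∧ C a c) ∨ (¬ C a b ∧ ¬ C b c ∧ ¬ C a c)) := by
  classical
  have key : ∀ D : ι → ι → Prop, ∀ v ∈ U, 2 < ((U.erase v).filter (D v)).card →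
      ∃ a ∈ U, ∃ b ∈ U, ∃ c ∈ U, a ≠ b ∧ b ≠ c ∧ a ≠ c ∧
        ((D a b ∧ D b c ∧ D a c) ∨ (¬ D a b ∧ ¬ D b c ∧ ¬ D a c)) := by
    intro D v hv h
    obtain ⟨a, b, c, ha, hb, hc, n1, n2, n3⟩ := Finset.two_lt_card_iff.1 h
    simp only [Finset.mem_filter, Finset.mem_erase] at ha hb hc
    by_cases h1 : D a b
    · exact ⟨v, hv, a, ha.1.2, b, hb.1.2, ha.1.1.symm, n1, hb.1.1.symm, Or.inl ⟨ha.2, h1, hb.2⟩⟩
    by_cases h2 : D b c
    · exact ⟨v, hv, b, hb.1.2, c, hc.1.2, hb.1.1.symm, n3, hc.1.1.symm, Or.inl ⟨hb.2, h2, hc.2⟩⟩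
    by_cases h3 : D a c
    · exact ⟨v, hv, a, ha.1.2, c, hc.1.2, ha.1.1.symm, n2, hc.1.1.symm, Or.inl ⟨ha.2, h3, hc.2⟩⟩
    exact ⟨a, ha.1.2, b, hb.1.2, c, hc.1.2, n1, n3, n2, Or.inr ⟨h1, h2, h3⟩⟩
  obtain ⟨v, hv⟩ := Finset.card_pos.1 (by omega : 0 < U.card)
  have h1 := Finset.card_filter_add_card_filter_not (s := U.erase v) (C v)
  rw [Finset.card_erase_of_mem hv] at h1
  by_cases h2 : 2 < ((U.erase v).filter (C v)).card
  · exact key C v hv h2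
  · obtain ⟨a, ha, b, hb, c, hc, n1, n2, n3, h⟩ := key (fun x y => ¬ C x y) v hv (by
      convert (show 2 < ((U.erase v).filter fun x => ¬ C v x).card by omega))
    exact ⟨a, ha, b, hb, c, hc, n1, n2, n3, by simpa only [not_not] using h.symm⟩

lemma amramsey_zero {k : Type*} [Field k] (p : ℕ) [CharP k p] {z : ℤ} (h : (z : k) = 0)
    (h1 : |z| < p) : z = 0 :=
  Int.eq_zero_of_abs_lt_dvd ((CharP.intCast_eq_zero_iff k p z).1 h) h1

lemma amramsey_gram {k : Type*} [Field k] (p : ℕ) [CharP k p] {n x y z : ℤ} (hn : 0 < n)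
    (hp : 24 * n ^ 3 < p) {a b c : k} (ha : a ≠ 0) (hb : b ≠ 0) (hc : c ≠ 0) (hx : |x| < 2 * n)
    (hy : |y| < 2 * n) (hz : |z| < 2 * n) (e1 : (n : k) * (a ^ 2 + b ^ 2) = x * (a * b))
    (e2 : (n : k) * (b ^ 2 + c ^ 2) = y * (b * c)) (e3 : (n : k) * (a ^ 2 + c ^ 2) = z * (a * c)) :
    n ∣ x * y * z := by
  have f1 : (x : k) = n * (a ^ 2 + b ^ 2) / (a * b) := by rw [e1]; field_simp
  have f2 : (y : k) = n * (b ^ 2 + c ^ 2) / (b * c) := by rw [e2]; field_simp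
  have f3 : (z : k) = n * (a ^ 2 + c ^ 2) / (a * c) := by rw [e3]; field_simp
  have h1 : ((n * (x ^ 2 + y ^ 2 + z ^ 2) - x * y * z - 4 * n ^ 3 : ℤ) : k) = 0 := by
    push_cast
    rw [f1, f2, f3]
    field_simp
    ring
  have b1 : x ^ 2 ≤ (2 * n) ^ 2 := sq_le_sq' (abs_lt.1 hx).1.le (abs_lt.1 hx).2.le
  have b2 : y ^ 2 ≤ (2 * n) ^ 2 := sq_le_sq' (abs_lt.1 hy).1.le (abs_lt.1 hy).2.le
  have b3 : z ^ 2 ≤ (2 * n) ^ 2 := sq_le_sq' (abs_lt.1 hz).1.le (abs_lt.1 hz).2.le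
  have b4 : |x * y * z| ≤ 2 * n * (2 * n) * (2 * n) := by
    rw [abs_mul, abs_mul]
    gcongr
  have b5 : n * (x ^ 2 + y ^ 2 + z ^ 2) ≤ n * (3 * (2 * n) ^ 2) := by
    apply mul_le_mul_of_nonneg_left _ hn.le
    linarith
  have b6 : 0 ≤ n * (x ^ 2 + y ^ 2 + z ^ 2) := by positivity
  have b7 : 0 < n ^ 3 := by positivity
  have h2 := amramsey_zero p h1 (by
    rw [abs_lt]
    have := abs_le.1 b4
    constructor <;> nlinarith [this.1, this.2])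
  exact ⟨x ^ 2 + y ^ 2 + z ^ 2 - 4 * n ^ 2, by linarith⟩

theorem ramsey {k : Type*} [Field k] (p : ℕ) [CharP k p] (ℓ ℓ' : ℕ) (hℓ : ℓ.Prime)
    (hℓ' : ℓ'.Prime) (hne : ℓ ≠ ℓ') (hp : 24 * (ℓ * ℓ') ^ 3 < p) {ι : Type*} (T : Finset ι)
    (g : ι → k) (h0 : ∀ i ∈ T, g i ≠ 0)
    (h : ∀ i ∈ T, ∀ j ∈ T, i ≠ j → ∃ t : ℤ, |t| < 2 * (ℓ * ℓ' : ℕ) ∧
      ((ℓ * ℓ' : ℕ) : k) ^ 2 * (g i + g j) ^ 2 = (t : k) ^ 2 * (g i * g j)) :
    T.card ≤ 60 := by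
  classical
  obtain ⟨n, hn⟩ : ∃ n : ℤ, n = ((ℓ * ℓ' : ℕ) : ℤ) := ⟨_, rfl⟩
  have n0 : 0 < n := by
    rw [hn]; exact_mod_cast Nat.mul_pos hℓ.pos hℓ'.pos
  have hp' : 24 * n ^ 3 < p := by rw [hn]; exact_mod_cast hp
  have n3 : n ≤ n ^ 3 := le_self_pow₀ n0 (by norm_num)
  have hk : ((ℓ * ℓ' : ℕ) : k) = (n : k) := by rw [hn, Int.cast_natCast]
  rw [← hn, hk] at h
  have nk : (n : k) ≠ 0 := fun e => n0.ne' (amramsey_zero p e (by rw [abs_of_pos n0]; linarith))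
  have inj : ∀ i ∈ T, ∀ j ∈ T, g i = g j → i = j := by
    intro i hi j hj e
    by_contra hij
    obtain ⟨t, t1, t2⟩ := h i hi j hj hij
    have t3 := abs_lt.1 t1
    rw [← e] at t2
    have t4 : ((2 * n - t : ℤ) : k) * ((2 * n + t : ℤ) : k) * (g i * g i) = 0 := by
      push_cast
      linear_combination t2
    rcases mul_eq_zero.1 ((mul_eq_zero.1 t4).resolve_right (mul_ne_zero (h0 i hi) (h0 i hi)))
      with t5 | t5
    · have := amramsey_zero p t5 (by rw [abs_lt]; constructor <;> linarith)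
      linarith
    · have := amramsey_zero p t5 (by rw [abs_lt]; constructor <;> linarith)
      linarith
  by_contra hT
  have c1 : T.card ≤ 6 * (T.image fun i => g i ^ 6).card := by
    refine Finset.card_le_mul_card_image T 6 fun a _ => ?_
    refine le_trans ?_ (Polynomial.card_nthRoots 6 a)
    refine le_trans (Finset.card_le_card_of_injOn g (t := (Polynomial.nthRoots 6 a).toFinset)
      (fun i hi => ?_) fun i hi j hj e => ?_) (Multiset.toFinset_card_le _)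
    · simp only [Finset.coe_filter, Set.mem_ofPred_eq] at hi
      simp [Polynomial.mem_nthRoots, hi.2]
    · exact inj i (Finset.mem_filter.1 hi).1 j (Finset.mem_filter.1 hj).1 e
  obtain ⟨U, u1, u2, u3⟩ := Finset.exists_subset_injOn_image_eq_of_surjOn (f := fun i => g i ^ 6)
    (T : Set ι) (T.image fun i => g i ^ 6) (by rw [Finset.coe_image]; exact Set.surjOn_image _ _)
  have c2 : 6 ≤ U.card := by
    have := Finset.card_image_of_injOn u2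
    rw [u3] at this
    omega
  let φ := algebraMap k (AlgebraicClosure k)
  have : CharP (AlgebraicClosure k) p := inferInstance
  choose c hc using fun i => IsAlgClosed.exists_pow_nat_eq (φ (g i)) (by norm_num : 0 < 2)
  have c0 : ∀ i ∈ U, c i ≠ 0 := fun i hi e =>
    h0 i (u1 hi) (φ.injective (by rw [← hc, e]; simp))
  have rel : ∀ i ∈ U, ∀ j ∈ U, i ≠ j → ∃ t : ℤ, |t| < 2 * n ∧
      (n : AlgebraicClosure k) * (c i ^ 2 + c j ^ 2) = t * (c i * c j) := by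
    intro i hi j hj hij
    obtain ⟨t, t1, t2⟩ := h i (u1 hi) j (u1 hj) hij
    have t3 := congrArg φ t2
    simp only [map_mul, map_pow, map_add, map_intCast, ← hc] at t3
    have t4 : ((n : AlgebraicClosure k) * (c i ^ 2 + c j ^ 2)) ^ 2 = (t * (c i * c j)) ^ 2 := by
      linear_combination t3
    rcases sq_eq_sq_iff_eq_or_eq_neg.1 t4 with t5 | t5
    · exact ⟨t, t1, t5⟩
    · exact ⟨-t, by rwa [abs_neg], by rw [t5]; push_cast; ring⟩
  have nd : ∀ i ∈ U, ∀ j ∈ U, i ≠ j → ∀ t : ℤ, |t| < 2 * n →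
      (n : AlgebraicClosure k) * (c i ^ 2 + c j ^ 2) = t * (c i * c j) → (ℓ : ℤ) ∣ t →
      ¬ (ℓ' : ℤ) ∣ t := by
    intro i hi j hj hij t t1 t2 d1 d2
    have d3 : n ∣ t := by
      rw [hn, Nat.cast_mul]
      exact IsCoprime.mul_dvd (Nat.isCoprime_iff_coprime.2 ((Nat.coprime_primes hℓ hℓ').2 hne))
        d1 d2
    obtain ⟨e, rfl⟩ := d3
    have nK : (n : AlgebraicClosure k) ≠ 0 := by
      rw [← map_intCast φ]; exact (map_ne_zero φ).2 nk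
    have t3 : c i ^ 2 + c j ^ 2 = e * (c i * c j) := by
      apply mul_left_cancel₀ nK
      rw [t2]; push_cast; ring
    have t4 := abs_lt.1 t1
    have e1 : e < 2 := by nlinarith
    have e2 : -2 < e := by nlinarith
    refine hij (u2 hi hj (φ.injective ?_))
    simp only [map_pow, ← hc]
    interval_cases e
    · push_cast at t3
      linear_combination (c i ^ 2 - c j ^ 2) * (c i ^ 2 + c j ^ 2 - c i * c j) *
        (c i ^ 6 + c j ^ 6) * t3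
    · push_cast at t3
      linear_combination (c i ^ 2 - c j ^ 2) * (c i ^ 8 + c i ^ 4 * c j ^ 4 + c j ^ 8) * t3
    · push_cast at t3
      linear_combination (c i ^ 2 - c j ^ 2) * (c i ^ 2 + c j ^ 2 + c i * c j) *
        (c i ^ 6 + c j ^ 6) * t3
  obtain ⟨a, ha, b, hb, d, hd, n1, n2, n4, hC⟩ := amramsey_r33 U c2 fun i j => ∃ t : ℤ,
    |t| < 2 * n ∧ (n : AlgebraicClosure k) * (c i ^ 2 + c j ^ 2) = t * (c i * c j) ∧ (ℓ : ℤ) ∣ t
  rcases hC with ⟨⟨x, x1, x2, x3⟩, ⟨y, y1, y2, y3⟩, ⟨z, z1, z2, z3⟩⟩ | ⟨k1, k2, k3⟩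
  · have h1 := amramsey_gram p n0 hp' (c0 a ha) (c0 b hb) (c0 d hd) x1 y1 z1 x2 y2 z2
    have h2 : (ℓ' : ℤ) ∣ x * y * z := (Dvd.intro_left (ℓ : ℤ) (by rw [hn, Nat.cast_mul])).trans h1
    have pr := Nat.prime_iff_prime_int.1 hℓ'
    rcases pr.dvd_or_dvd h2 with h3 | h3
    · rcases pr.dvd_or_dvd h3 with h4 | h4
      exacts [nd a ha b hb n1 x x1 x2 x3 h4, nd b hb d hd n2 y y1 y2 y3 h4]
    · exact nd a ha d hd n4 z z1 z2 z3 h3
  · obtain ⟨x, x1, x2⟩ := rel a ha b hb n1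
    obtain ⟨y, y1, y2⟩ := rel b hb d hd n2
    obtain ⟨z, z1, z2⟩ := rel a ha d hd n4
    have h1 := amramsey_gram p n0 hp' (c0 a ha) (c0 b hb) (c0 d hd) x1 y1 z1 x2 y2 z2
    have h2 : (ℓ : ℤ) ∣ x * y * z := (Dvd.intro (ℓ' : ℤ) (by rw [hn, Nat.cast_mul])).trans h1
    have pr := Nat.prime_iff_prime_int.1 hℓ
    rcases pr.dvd_or_dvd h2 with h3 | h3
    · rcases pr.dvd_or_dvd h3 with h4 | h4
      exacts [k1 ⟨x, x1, x2, h4⟩, k2 ⟨y, y1, y2, h4⟩]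
    · exact k3 ⟨z, z1, z2, h3⟩

end Pool.Agent.Lib.MP_4a1067_nt.Am
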