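import Mathlib
import Pool.Agent.Lib.MP_4a1067_nt.AmScale
import Pool.Agent.Lib.MP_4a1067_nt.AmLat

/-! Every Legendre parameter comes from a lattice. -/

namespace Pool.Agent.Lib.MP_4a1067_nt.Am

section modular

open UpperHalfPlane Filter Topology ModularForm EisensteinSeries
open scoped MatrixGroups

lemma amsurj_tendsto {k : ℤ} (f : ModularForm 𝒮ℒ k) :
    Tendsto f atImInfty (𝓝 ((qExpansion 1 f).coeff 0)) := by
  have hanal := ModularFormClass.analyticAt_cuspFunction_zero f one_pos one_mem_strictPeriods_SL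
  have hper := SlashInvariantFormClass.periodic_comp_ofComplex f one_mem_strictPeriods_SL
  rw [qExpansion_coeff_zero one_pos hanal hper, ← cuspFunction_apply_zero one_pos hanal hper]
  exact (hanal.continuousAt.tendsto.comp (qParam_tendsto_atImInfty one_pos)).congr
    (fun τ => SlashInvariantFormClass.eq_cuspFunction f τ one_mem_strictPeriods_SL one_ne_zero)

lemma amsurj_E {k : ℕ} (hk : 3 ≤ k) (hk2 : Even k) : Tendsto (E hk) atImInfty (𝓝 1) := by
  have := amsurj_tendsto (E hk)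
  rwa [E_qExpansion_coeff_zero hk hk2] at this

/-- a form of positive weight that does not vanish at the cusp has a zero -/
lemma amsurj_zero {k : ℤ} (hk : 0 < k) (f : ModularForm 𝒮ℒ k) {c : ℂ} (hc : c ≠ 0)
    (hf : Tendsto f atImInfty (𝓝 c)) : ∃ z, f z = 0 := by
  by_contra hne
  have hne' : ∀ z, f z ≠ 0 := fun z hz => hne ⟨z, hz⟩
  have hs : ∀ γ : SL(2, ℤ), (fun z => (ModularForm.const 1 : ModularForm 𝒮ℒ 0) z / f z) ∣[0 - k] γ =
      fun z => (ModularForm.const 1 : ModularForm 𝒮ℒ 0) z / f z := by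
    intro γ
    have hγ : (γ : GL (Fin 2) ℝ) ∈ 𝒮ℒ := ⟨γ, rfl⟩
    change (⇑(ModularForm.const 1 : ModularForm 𝒮ℒ 0) / ⇑f) ∣[0 - k] γ =
      ⇑(ModularForm.const 1 : ModularForm 𝒮ℒ 0) / ⇑f
    simp_rw [div_slash_SL2, SL_slash, SlashInvariantFormClass.slash_action_eq _ _ hγ]
  let g : ModularForm 𝒮ℒ (0 - k) :=
    { toFun := fun z => (ModularForm.const 1 : ModularForm 𝒮ℒ 0) z / f z
      slash_action_eq' := fun _ ⟨γ, hγ⟩ => hγ ▸ hs γ
      holo' := (ModularForm.const 1 : ModularForm 𝒮ℒ 0).holo'.div f.holo' hne'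
      bdd_at_cusps' := fun {c'} hc' => by
        rw [Subgroup.IsArithmetic.isCusp_iff_isCusp_SL2Z] at hc'
        rw [OnePoint.isBoundedAt_iff_forall_SL2Z hc']
        intro γ _
        rw [hs γ, IsBoundedAtImInfty, BoundedAtFilter]
        exact ((tendsto_const_nhds (x := (1 : ℂ))).div hf hc).isBigO_one ℝ }
  have h0 := congrFun (ModularFormClass.levelOne_neg_weight_eq_zero (k := 0 - k) (by omega) g) I
  exact div_ne_zero one_ne_zero (hne' I) h0

lemma amsurj_comb (a b : ℂ) (h : a + b ≠ 0) : ∃ z : ℍ, a * E₄ z ^ 3 + b * E₆ z ^ 2 = 0 := by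
  let f : ModularForm 𝒮ℒ 12 := a • ModularForm.mcast (by decide) (E₄.pow 3) +
    b • ModularForm.mcast (by decide) (E₆.pow 2)
  have hf : ∀ z, f z = a * E₄ z ^ 3 + b * E₆ z ^ 2 := fun z => by
    simp only [f, coe_mcast, coe_pow, add_apply, smul_apply, Pi.pow_apply, smul_eq_mul]
  have h4 := amsurj_E (k := 4) (by norm_num) ⟨2, rfl⟩
  have h6 := amsurj_E (k := 6) (by norm_num) ⟨3, rfl⟩
  have ht : Tendsto f atImInfty (𝓝 (a + b)) := by
    have := ((h4.pow 3).const_mul a).add ((h6.pow 2).const_mul b)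
    simp only [one_pow, mul_one] at this
    exact this.congr fun z => (hf z).symm
  obtain ⟨z, hz⟩ := amsurj_zero (by norm_num) f h ht
  exact ⟨z, (hf z).symm.trans hz⟩

/-- the lattice spanned by `τ` and `1` -/
noncomputable def amsurjL (τ : ℍ) : PeriodPair where
  ω₁ := τ
  ω₂ := 1
  indep := by
    refine LinearIndependent.pair_iff.mpr fun s t h => ?_
    have h1 := congrArg Complex.im h
    have h2 := congrArg Complex.re h
    simp at h1 h2
    have hs : s = 0 := h1.resolve_right τ.im_ne_zero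
    rw [hs] at h2
    exact ⟨hs, by simpa using h2⟩

lemma amsurj_G {k : ℕ} (hk : 3 ≤ k) (τ : ℍ) : (amsurjL τ).G k = 2 * riemannZeta k * E hk τ := by
  have h1 : E hk τ = (1 / 2 : ℂ) * eisensteinSeries (N := 1) 0 k τ := rfl
  have h2 := tsum_eisSummand_eq_riemannZeta_mul_eisensteinSeries hk τ
  have h3 : (amsurjL τ).G k = ∑' v : Fin 2 → ℤ, eisSummand k v τ := by
    rw [PeriodPair.G,
      ← ((finTwoArrowEquiv ℤ).trans (amsurjL τ).latticeEquivProd.symm.toEquiv).tsum_eq]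
    refine tsum_congr fun v => ?_
    have := (amsurjL τ).latticeEquiv_symm_apply (v 0, v 1)
    change (((amsurjL τ).latticeEquivProd.symm (v 0, v 1)).1 ^ k)⁻¹ = _
    rw [this, eisSummand, zpow_neg, zpow_natCast]
    simp [amsurjL]
  rw [h3, h2, h1]
  ring

lemma amsurj_zeta_six : riemannZeta 6 = (Real.pi : ℂ) ^ 6 / 945 := by
  have h := riemannZeta_two_mul_nat (k := 3) (by norm_num)
  have hb : bernoulli 6 = 1 / 42 := by decide +kernel
  norm_num [hb, Nat.factorial] at h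
  rw [h]
  ring

end modular

/-- every value of the modular invariant is attained -/
theorem exists_g (J : ℂ) : ∃ L : PeriodPair, L.g₂ ^ 3 = J * (L.g₂ ^ 3 - 27 * L.g₃ ^ 2) := by
  obtain ⟨z, hz⟩ := amsurj_comb (1 - J) J (by simp)
  refine ⟨amsurjL z, ?_⟩
  have h4 := amsurj_G (k := 4) (by norm_num) z
  have h6 := amsurj_G (k := 6) (by norm_num) z
  rw [Nat.cast_ofNat] at h4 h6
  rw [PeriodPair.g₂, PeriodPair.g₃, h4, h6, riemannZeta_four, amsurj_zeta_six]
  linear_combination (64 / 27 * (Real.pi : ℂ) ^ 12) * hz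

/-- `l` is a cross ratio of the values at the half periods -/
def amsurjR (L : PeriodPair) (l : ℂ) : Prop :=
  ∃ a b c, Half L a b c ∧
    l = (L.weierstrassP c - L.weierstrassP a) / (L.weierstrassP b - L.weierstrassP a)

lemma amsurj_ng {L : PeriodPair} {x y : ℂ} (h : x - y ∉ L.lattice) : y - x ∉ L.lattice :=
  fun h0 => h (by simpa using neg_mem h0)

lemma amsurjR.sub {L : PeriodPair} {l : ℂ} (h : amsurjR L l) : amsurjR L (1 - l) := by
  obtain ⟨a, b, c, H, rfl⟩ := h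
  refine ⟨b, a, c, ⟨H.n₂, H.n₁, H.n₃, H.t₂, H.t₁, H.t₃, amsurj_ng H.d₁₂, H.d₂₃, H.d₁₃⟩, ?_⟩
  have hab : L.weierstrassP b - L.weierstrassP a ≠ 0 :=
    sub_ne_zero.mpr (P_half_ne H.n₁ H.n₂ H.t₂ H.d₁₂).symm
  have hba : L.weierstrassP a - L.weierstrassP b ≠ 0 :=
    sub_ne_zero.mpr (P_half_ne H.n₁ H.n₂ H.t₂ H.d₁₂)
  field_simp
  ring

lemma amsurjR.inv {L : PeriodPair} {l : ℂ} (h : amsurjR L l) : amsurjR L l⁻¹ := by
  obtain ⟨a, b, c, H, rfl⟩ := h
  exact ⟨a, c, b, ⟨H.n₁, H.n₃, H.n₂, H.t₁, H.t₃, H.t₂, H.d₁₃, H.d₁₂, amsurj_ng H.d₂₃⟩,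
    inv_div _ _⟩

theorem surj (l : ℂ) (h0 : l ≠ 0) (h1 : l ≠ 1) :
    ∃ (L : PeriodPair) (ω₁ ω₂ ω₃ : ℂ), Half L ω₁ ω₂ ω₃ ∧ ∃ E : Leg L ω₁ ω₂ ω₃, E.lam = l := by
  have h1' : l - 1 ≠ 0 := sub_ne_zero.mpr h1
  obtain ⟨L, hL⟩ := exists_g (4 * (l ^ 2 - l + 1) ^ 3 / (27 * l ^ 2 * (l - 1) ^ 2))
  obtain ⟨a, b, c, H⟩ := exists_half L
  obtain ⟨E, hE⟩ := exists_leg H
  have hR : amsurjR L E.lam := ⟨a, b, c, H, hE⟩
  obtain ⟨g2, g3⟩ := g_eq H E
  have hL' : 27 * l ^ 2 * (l - 1) ^ 2 * L.g₂ ^ 3 =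
      4 * (l ^ 2 - l + 1) ^ 3 * (L.g₂ ^ 3 - 27 * L.g₃ ^ 2) := by
    nth_rewrite 1 [hL]
    field_simp
  set m := E.lam with hm
  have k2 : 27 * E.a ^ 6 * L.g₂ ^ 3 = 64 * (m ^ 2 - m + 1) ^ 3 := by
    calc 27 * E.a ^ 6 * L.g₂ ^ 3 = (3 * E.a ^ 2 * L.g₂) ^ 3 := by ring
      _ = _ := by rw [g2]; ring
  have k3 : 729 * E.a ^ 6 * L.g₃ ^ 2 = 16 * ((m + 1) * (m - 2) * (2 * m - 1)) ^ 2 := by
    calc 729 * E.a ^ 6 * L.g₃ ^ 2 = (27 * E.a ^ 3 * L.g₃) ^ 2 := by ring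
      _ = _ := by rw [g3]; ring
  have key : (m - l) * ((m - (1 - l)) * ((m * l - 1) * ((m * (1 - l) - 1) *
      ((m * (l - 1) - l) * (m * l - (l - 1)))))) = 0 := by
    have e : l ^ 2 * (l - 1) ^ 2 * (m ^ 2 - m + 1) ^ 3 =
        (l ^ 2 - l + 1) ^ 3 * (m ^ 2 * (m - 1) ^ 2) := by
      linear_combination (E.a ^ 6 / 64) * hL' - (l ^ 2 * (l - 1) ^ 2 / 64) * k2 +
        ((l ^ 2 - l + 1) ^ 3 / 432) * k2 - ((l ^ 2 - l + 1) ^ 3 / 432) * k3
    linear_combination (-1 : ℂ) * e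
  have hm0 : m ≠ 0 := E.lam0
  have hRl : amsurjR L l := by
    rcases mul_eq_zero.mp key with h | key
    · rwa [← sub_eq_zero.mp h]
    rcases mul_eq_zero.mp key with h | key
    · have : l = 1 - m := by linear_combination h
      exact this ▸ hR.sub
    rcases mul_eq_zero.mp key with h | key
    · have : l = m⁻¹ := eq_inv_of_mul_eq_one_right (by linear_combination h)
      exact this ▸ hR.inv
    rcases mul_eq_zero.mp key with h | key
    · have : l = 1 - m⁻¹ := by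
        field_simp
        linear_combination (-1 : ℂ) * h
      exact this ▸ hR.inv.sub
    rcases mul_eq_zero.mp key with h | h
    · have : l = (1 - m⁻¹)⁻¹ := by
        refine eq_inv_of_mul_eq_one_right ?_
        field_simp
        linear_combination h
      exact this ▸ hR.inv.sub.inv
    · have : l = (1 - m)⁻¹ := eq_inv_of_mul_eq_one_right (by linear_combination (-1 : ℂ) * h)
      exact this ▸ hR.sub.inv
  obtain ⟨a', b', c', H', hl⟩ := hRl
  obtain ⟨E', hE'⟩ := exists_leg H'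
  exact ⟨L, a', b', c', H', E', hE'.trans hl.symm⟩

end Pool.Agent.Lib.MP_4a1067_nt.Am
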