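import Mathlib
import Pool.Agent.Lib.MP_4a1067_nt.AmLat

/-! The trace of an endomorphism built from two parallel isogenies. -/

namespace Pool.Agent.Lib.MP_4a1067_nt.Am

/-- the area form -/
def amtrace_sg (u v : ℂ) : ℝ := u.re * v.im - u.im * v.re

/-- the signed area of a period pair -/
def amtrace_ar (L : PeriodPair) : ℝ := amtrace_sg L.ω₁ L.ω₂

lemma amtrace_ar_ne (L : PeriodPair) : amtrace_ar L ≠ 0 := by
  intro h
  have hi := LinearIndependent.pair_iff.1 L.indep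
  unfold amtrace_ar amtrace_sg at h
  have h1 := hi L.ω₂.re (-L.ω₁.re) (by
    apply Complex.ext
    · simp; ring
    · simp; linarith)
  have h2 := hi L.ω₂.im (-L.ω₁.im) (by
    apply Complex.ext
    · simp; linarith
    · simp; ring)
  have h3 : L.ω₁ = 0 := Complex.ext (by simpa using h1.2) (by simpa using h2.2)
  have h4 := hi 1 0 (by simp [h3])
  exact one_ne_zero h4.1

lemma amtrace_sg_comb (L : PeriodPair) (a b c d : ℤ) :
    amtrace_sg (a * L.ω₁ + b * L.ω₂) (c * L.ω₁ + d * L.ω₂) =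
      ((a * d - b * c : ℤ) : ℝ) * amtrace_ar L := by
  unfold amtrace_ar amtrace_sg
  simp
  ring

lemma amtrace_sg_mem (L : PeriodPair) {u v : ℂ} (hu : u ∈ L.lattice) (hv : v ∈ L.lattice) :
    ∃ m : ℤ, amtrace_sg u v = m * amtrace_ar L := by
  obtain ⟨a, b, rfl⟩ := PeriodPair.mem_lattice.1 hu
  obtain ⟨c, d, rfl⟩ := PeriodPair.mem_lattice.1 hv
  exact ⟨_, amtrace_sg_comb L a b c d⟩

lemma amtrace_sg_mul (c u v : ℂ) :
    amtrace_sg (c * u) (c * v) = Complex.normSq c * amtrace_sg u v := by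
  unfold amtrace_sg
  simp [Complex.normSq_apply]
  ring

lemma amtrace_cyc {L L' : PeriodPair} {Q : ℂ} {n : ℕ} (h : Cyc L L' Q n) :
    |amtrace_ar L| = n * |amtrace_ar L'| := by
  obtain ⟨a, b, e1⟩ := PeriodPair.mem_lattice.1 (h.le L.ω₁_mem_lattice)
  obtain ⟨c, d, e2⟩ := PeriodPair.mem_lattice.1 (h.le L.ω₂_mem_lattice)
  have hA : amtrace_ar L = ((a * d - b * c : ℤ) : ℝ) * amtrace_ar L' := by
    rw [← amtrace_sg_comb, e1, e2]
    rfl
  obtain ⟨x, y, e3⟩ := PeriodPair.mem_lattice.1 h.self_mem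
  have hd1 : (n : ℤ) ∣ a * d - b * c := by
    refine (h.ord _).1 (PeriodPair.mem_lattice.2 ⟨x * d - y * c, y * a - x * b, ?_⟩)
    rw [← e1, ← e2, ← e3]
    push_cast
    ring
  obtain ⟨k, hk⟩ := (h.mem _).1 L'.ω₁_mem_lattice
  obtain ⟨k', hk'⟩ := (h.mem _).1 L'.ω₂_mem_lattice
  obtain ⟨m₁, h1⟩ := amtrace_sg_mem L h.ord.mem hk'
  obtain ⟨m₂, h2⟩ := amtrace_sg_mem L hk h.ord.mem
  obtain ⟨m₃, h3⟩ := amtrace_sg_mem L hk hk'
  have key : (n : ℝ) * amtrace_ar L' = (k * m₁ + k' * m₂ + n * m₃ : ℤ) * amtrace_ar L := by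
    have e : (n : ℝ) * amtrace_ar L' = k * amtrace_sg (n * Q) (L'.ω₂ - k' * Q) +
        k' * amtrace_sg (L'.ω₁ - k * Q) (n * Q) +
        n * amtrace_sg (L'.ω₁ - k * Q) (L'.ω₂ - k' * Q) := by
      unfold amtrace_ar amtrace_sg
      simp
      ring
    rw [e, h1, h2, h3]
    push_cast
    ring
  have hd2 : a * d - b * c ∣ (n : ℤ) := by
    rw [hA, ← mul_assoc] at key
    have h4 := mul_right_cancel₀ (amtrace_ar_ne L') key
    refine ⟨k * m₁ + k' * m₂ + n * m₃, ?_⟩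
    rw [mul_comm]
    exact_mod_cast h4
  have h5 : |a * d - b * c| = (n : ℤ) := by
    have h6 := Int.dvd_antisymm (abs_nonneg _) (Int.natCast_nonneg n) ((abs_dvd _ _).2 hd2)
      ((dvd_abs _ _).2 hd1)
    exact h6
  rw [hA, abs_mul, ← Int.cast_abs, h5, Int.cast_natCast]

lemma amtrace_scl {L₁ L₂ : PeriodPair} {c : ℂ} (hc : c ≠ 0) (hs : Scl L₁ L₂ c) :
    Complex.normSq c * |amtrace_ar L₂| = |amtrace_ar L₁| := by
  obtain ⟨m, h1⟩ := amtrace_sg_mem L₁ ((hs _).1 L₂.ω₁_mem_lattice) ((hs _).1 L₂.ω₂_mem_lattice)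
  have hm : ∀ z ∈ L₁.lattice, c⁻¹ * z ∈ L₂.lattice := fun z hz =>
    (hs _).2 (by rwa [← mul_assoc, mul_inv_cancel₀ hc, one_mul])
  obtain ⟨m', h2⟩ := amtrace_sg_mem L₂ (hm _ L₁.ω₁_mem_lattice) (hm _ L₁.ω₂_mem_lattice)
  rw [amtrace_sg_mul] at h1 h2
  change _ * amtrace_ar L₂ = _ at h1
  change _ * amtrace_ar L₁ = _ at h2
  have hN : 0 < Complex.normSq c := Complex.normSq_pos.2 hc
  rw [map_inv₀] at h2
  have h3 : amtrace_ar L₁ = m' * (Complex.normSq c * amtrace_ar L₂) := by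
    have : amtrace_ar L₁ = Complex.normSq c * ((Complex.normSq c)⁻¹ * amtrace_ar L₁) := by
      field_simp
    rw [this, h2]
    ring
  have h4 : (1 : ℝ) = m' * m := by
    rw [h1, ← mul_assoc] at h3
    exact mul_right_cancel₀ (amtrace_ar_ne L₁) (by rw [one_mul]; exact h3)
  have h5 : m' * m = 1 := by exact_mod_cast h4.symm
  have h6 : |(m : ℝ)| = 1 := by
    rcases Int.eq_one_or_neg_one_of_mul_eq_one' h5 with h | h <;> simp [h.2]
  rw [← abs_of_pos hN, ← abs_mul, h1, abs_mul, h6, one_mul]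

theorem trace_int {L L₁ L₂ : PeriodPair} {Q₁ Q₂ c : ℂ} {n : ℕ} (hn : 0 < n)
    (h₁ : Cyc L L₁ Q₁ n) (h₂ : Cyc L L₂ Q₂ n) (hc : c ≠ 0) (hs : Scl L₁ L₂ c)
    (hne : L₁.lattice ≠ L₂.lattice) :
    ∃ t : ℤ, |t| < 2 * n ∧ (n : ℂ) * (c ^ 2 + 1) = t * c := by
  have hn' : (0 : ℝ) < n := by exact_mod_cast hn
  have a1 : |amtrace_ar L₁| = |amtrace_ar L₂| :=
    mul_left_cancel₀ hn'.ne' ((amtrace_cyc h₁).symm.trans (amtrace_cyc h₂))
  have hN : Complex.normSq c = 1 := by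
    have h := amtrace_scl hc hs
    rw [a1] at h
    exact mul_right_cancel₀ (abs_ne_zero.2 (amtrace_ar_ne L₂)) (by rw [one_mul]; exact h)
  rw [Complex.normSq_apply] at hN
  have hβ : ∀ z ∈ L₁.lattice, c * (n * z) ∈ L₁.lattice := fun z hz =>
    (hs _).1 (h₂.le (h₁.mul_mem hz))
  obtain ⟨a, b, e1⟩ := PeriodPair.mem_lattice.1 (hβ _ L₁.ω₁_mem_lattice)
  obtain ⟨b', d, e2⟩ := PeriodPair.mem_lattice.1 (hβ _ L₁.ω₂_mem_lattice)
  have ht : ((a + d : ℤ) : ℝ) = 2 * n * c.re := by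
    have f1 : amtrace_sg (c * (n * L₁.ω₁)) L₁.ω₂ + amtrace_sg L₁.ω₁ (c * (n * L₁.ω₂)) =
        2 * n * c.re * amtrace_ar L₁ := by
      unfold amtrace_ar amtrace_sg
      simp
      ring
    have f2 : amtrace_sg (a * L₁.ω₁ + b * L₁.ω₂) L₁.ω₂ +
        amtrace_sg L₁.ω₁ (b' * L₁.ω₁ + d * L₁.ω₂) = ((a + d : ℤ) : ℝ) * amtrace_ar L₁ := by
      unfold amtrace_ar amtrace_sg
      simp
      ring
    rw [e1, e2, f1] at f2
    exact (mul_right_cancel₀ (amtrace_ar_ne L₁) f2).symm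
  have hre : |c.re| < 1 := by
    by_contra hge
    have h1 : 1 ≤ c.re ^ 2 := by
      have := not_lt.1 hge
      nlinarith [sq_abs c.re, abs_nonneg c.re]
    have him : c.im = 0 := by nlinarith [mul_self_nonneg c.im]
    have hsq : c.re * c.re = 1 := by rw [him] at hN; linarith
    refine hne (Submodule.ext fun z => ?_)
    rw [hs z]
    rcases mul_self_eq_one_iff.1 hsq with h | h
    · have : c = 1 := Complex.ext (by simpa using h) (by simpa using him)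
      rw [this, one_mul]
    · have : c = -1 := Complex.ext (by simpa using h) (by simpa using him)
      rw [this, neg_one_mul, neg_mem_iff]
  refine ⟨a + d, ?_, ?_⟩
  · have : |((a + d : ℤ) : ℝ)| < 2 * n := by
      rw [ht, abs_mul, abs_of_pos (by positivity : (0 : ℝ) < 2 * n)]
      nlinarith
    exact_mod_cast this
  · have e : ((a + d : ℤ) : ℂ) = ((2 * n * c.re : ℝ) : ℂ) := by
      rw [← ht, Complex.ofReal_intCast]
    rw [e]
    apply Complex.ext
    · simp [pow_two]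
      linear_combination (-(n : ℝ)) * hN
    · simp [pow_two]
      ring

end Pool.Agent.Lib.MP_4a1067_nt.Am
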