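import Mathlib
import Pool.Agent.Lib.MP_4a1067_nt.AmGen2
import Pool.Agent.Lib.MP_4a1067_nt.AmKrull
import Pool.Agent.Lib.MP_4a1067_nt.AmSurj
import Pool.Agent.Lib.MP_4a1067_nt.AmTrace
import Pool.Agent.Lib.MP_4a1067_nt.AmRamsey

/-! At most sixty parallel isogenies at any good place. -/

namespace Pool.Agent.Lib.MP_4a1067_nt.Am

variable {L : PeriodPair} {ω₁ ω₂ ω₃ : ℂ} {ℓ ℓ' : ℕ}

lemma ampar_le {L₁ L₂ : PeriodPair} {Q₁ Q₂ : ℂ} {n : ℕ} (h₂ : Cyc L L₂ Q₂ n)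
    (h₁ : Cyc L L₁ Q₁ n) (h : Q₂ ∈ L₁.lattice) : L₂.lattice ≤ L₁.lattice := by
  intro z hz
  obtain ⟨k, hk⟩ := (h₂.mem z).mp hz
  have := add_mem (h₁.le hk) (int_mul_mem h k)
  simpa using this

lemma ampar_back (H : Half L ω₁ ω₂ ω₃) (E : Leg L ω₁ ω₂ ω₃) {h : ℕ} (hh : 1 ≤ h)
    (P₀ : Pl ℂ ℂ) (G : Good P₀.A (2 * h + 1) E.lam) {L₁ L₂ : PeriodPair} {Q₁ Q₂ : ℂ}
    (h₁ : Cyc L L₁ Q₁ (2 * h + 1)) (h₂ : Cyc L L₂ Q₂ (2 * h + 1))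
    {M M₁ M₂ : PeriodPair} {η₁ η₂ η₃ R₁ R₂ : ℂ} (F : Leg M η₁ η₂ η₃)
    (g₁ : Cyc M M₁ R₁ (2 * h + 1)) (g₂ : Cyc M M₂ R₂ (2 * h + 1))
    (x₁ : ∀ j ≤ h, F.x (((j + 1 : ℕ) : ℂ) * R₁) = P₀.ev (E.x (((j + 1 : ℕ) : ℂ) * Q₁)))
    (x₂ : ∀ j ≤ h, F.x (((j + 1 : ℕ) : ℂ) * R₂) = P₀.ev (E.x (((j + 1 : ℕ) : ℂ) * Q₂)))
    (hm : R₂ ∈ M₁.lattice) : Q₂ ∈ L₁.lattice := by
  obtain ⟨j, hj⟩ := (g₁.mem R₂).mp hm
  have n2 : R₂ ∉ M.lattice := by simpa using g₂.ord.notMem one_pos (by omega)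
  have nj : (j : ℂ) * R₁ ∉ M.lattice := fun h' => n2 (by simpa using add_mem hj h')
  obtain ⟨k, hk, hjk⟩ := g₁.ord.fold j nj
  have e1 : F.x R₂ = F.x (((k + 1 : ℕ) : ℂ) * R₁) := by
    rw [F.x_congr hj]
    rcases hjk with h' | h'
    exacts [F.x_congr h', F.x_congr' h']
  have e2 := x₂ 0 (Nat.zero_le _)
  simp only [zero_add, Nat.cast_one, one_mul] at e2
  rw [e2, x₁ k hk.le] at e1
  have m2 : Q₂ ∉ L.lattice := by simpa using h₂.ord.notMem one_pos (by omega)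
  have m1 : ((k + 1 : ℕ) : ℂ) * Q₁ ∉ L.lattice := h₁.ord.notMem (by omega) (by omega)
  have t2 : ((2 * (2 * h + 1) : ℕ) : ℂ) * Q₂ ∈ L.lattice := by
    have := nat_mul_mem h₂.ord.mem 2
    convert this using 1
    push_cast; ring
  have t1 : ((2 * (2 * h + 1) : ℕ) : ℂ) * (((k + 1 : ℕ) : ℂ) * Q₁) ∈ L.lattice := by
    have := nat_mul_mem h₁.ord.mem (2 * (k + 1))
    convert this using 1
    push_cast; ring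
  have hq : ((k + 1 : ℕ) : ℂ) * Q₁ ∈ L₁.lattice := nat_mul_mem h₁.self_mem _
  by_contra hc
  have hs : Q₂ - ((k + 1 : ℕ) : ℂ) * Q₁ ∉ L.lattice := fun h' =>
    hc (by simpa using add_mem (h₁.le h') hq)
  have ha : Q₂ + ((k + 1 : ℕ) : ℂ) * Q₁ ∉ L.lattice := fun h' =>
    hc (by simpa using sub_mem (h₁.le h') hq)
  have u := P₀.ev_ne (tor_un H E P₀.ic G t2 m2 t1 m1 hs ha)
  rw [P₀.ev_sub (tor_mem H E P₀.ic G t2 m2) (tor_mem H E P₀.ic G t1 m1), e1, sub_self] at u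
  exact u rfl

lemma ampar_ev {k : Type*} [CommRing k] (P : Pl ℂ k) (n : ℕ) (t : ℤ) {a b : ℂ} (ha : a ∈ P.A)
    (hb : b ∈ P.A) : P.ev ((n : ℂ) ^ 2 * (a + b) ^ 2 - (t : ℂ) ^ 2 * (a * b))
      = (n : k) ^ 2 * (P.ev a + P.ev b) ^ 2 - (t : k) ^ 2 * (P.ev a * P.ev b) := by
  have hn : (n : ℂ) ∈ P.A := natCast_mem _ _
  have ht : (t : ℂ) ∈ P.A := intCast_mem _ _
  rw [P.ev_sub (mul_mem (pow_mem hn 2) (pow_mem (add_mem ha hb) 2))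
      (mul_mem (pow_mem ht 2) (mul_mem ha hb)),
    P.ev_mul (pow_mem hn 2) (pow_mem (add_mem ha hb) 2), P.ev_mul (pow_mem ht 2) (mul_mem ha hb),
    P.ev_pow hn, P.ev_pow ht, P.ev_pow (add_mem ha hb), P.ev_add ha hb, P.ev_mul ha hb,
    P.ev_natCast, P.ev_intCast]

/-- two isogenies with the same target at a complex place -/
theorem pair_complex (H : Half L ω₁ ω₂ ω₃) (E : Leg L ω₁ ω₂ ω₃) {n : ℕ} (hn : Odd n) (hn1 : 1 < n)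
    (P₀ : Pl ℂ ℂ) (G : Good P₀.A n E.lam) {L₁ L₂ : PeriodPair} {Q₁ Q₂ : ℂ}
    (E₁ : Leg L₁ ω₁ ω₂ ω₃) (E₂ : Leg L₂ ω₁ ω₂ ω₃) (h₁ : Cyc L L₁ Q₁ n) (h₂ : Cyc L L₂ Q₂ n)
    (hne : E₁.lam ≠ E₂.lam) (he : P₀.ev E₁.lam = P₀.ev E₂.lam) :
    ∃ t : ℤ, |t| < 2 * n ∧ P₀.ev ((n : ℂ) ^ 2 * (E₁.a / E.a + E₂.a / E.a) ^ 2
      - (t : ℂ) ^ 2 * (E₁.a / E.a * (E₂.a / E.a))) = 0 := by
  obtain ⟨h, rfl⟩ := hn
  have hh : 1 ≤ h := by omega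
  have l0 := P₀.ev_ne G.lam
  have l1 : P₀.ev E.lam ≠ 1 := by
    have := P₀.ev_ne G.lam1
    rw [P₀.ev_sub (one_mem _) G.lam.mem, P₀.ev_one] at this
    exact (sub_ne_zero.mp this).symm
  obtain ⟨M, η₁, η₂, η₃, H', F, hF⟩ := surj _ l0 l1
  obtain ⟨-, U₁, I₁⟩ := lat H E E₁ h₁ hh P₀ dvd_rfl G
  obtain ⟨-, U₂, I₂⟩ := lat H E E₂ h₂ hh P₀ dvd_rfl G
  rw [← hF] at I₁ I₂
  obtain ⟨M₁, R₁, F₁, g₁, a₁, b₁, x₁⟩ := out_id H' F hh I₁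
  obtain ⟨M₂, R₂, F₂, g₂, a₂, b₂, x₂⟩ := out_id H' F hh I₂
  obtain ⟨c, c0, hs, hc⟩ := hom (g₁.half ⟨h, rfl⟩ H') (g₂.half ⟨h, rfl⟩ H') F₁ F₂
    (by rw [a₁, a₂, he])
  have hl : M₁.lattice ≠ M₂.lattice := by
    intro e
    have k1 := ampar_back H E hh P₀ G h₁ h₂ F g₁ g₂ x₁ x₂ (e ▸ g₂.self_mem)
    have k2 := ampar_back H E hh P₀ G h₂ h₁ F g₂ g₁ x₂ x₁ (e ▸ g₁.self_mem)
    exact hne (leg_congr (le_antisymm (ampar_le h₁ h₂ k2) (ampar_le h₂ h₁ k1)) E₂ E₁).2.1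
  obtain ⟨t, ht, e⟩ := trace_int (by omega) g₁ g₂ c0 hs hl
  refine ⟨t, ht, ?_⟩
  rw [ampar_ev P₀ _ t U₁.mem U₂.mem, ← b₁, ← b₂, ← hc]
  have : (((2 * h + 1 : ℕ) : ℂ) * (c ^ 2 + 1)) ^ 2 = (t * c) ^ 2 := by rw [e]
  linear_combination (F₂.a / F.a) ^ 2 * this

theorem par (H : Half L ω₁ ω₂ ω₃) (E : Leg L ω₁ ω₂ ω₃) (ha : Transcendental ℤ (-2 / E.lam))
    (hℓ : ℓ.Prime) (hℓ' : ℓ'.Prime) (h2 : ℓ ≠ 2) (h2' : ℓ' ≠ 2) (hne : ℓ ≠ ℓ') (p : ℕ)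
    (hp : p.Prime) (hsz : 24 * (ℓ * ℓ') ^ 3 < p) {k : Type*} [Field k] [CharP k p] (P : Pl ℂ k)
    (G : Good P.A (ℓ * ℓ') E.lam) (T : Finset ℂ) (hT : (T : Set ℂ) ⊆ End L ω₁ ω₂ ω₃ (ℓ * ℓ'))
    (y : k) (hy : ∀ w ∈ T, P.ev w = y) : T.card ≤ 60 := by
  classical
  have : Fact p.Prime := ⟨hp⟩
  have hodd : Odd (ℓ * ℓ') := (hℓ.odd_of_ne_two h2).mul (hℓ'.odd_of_ne_two h2')
  have hn1 : 1 < ℓ * ℓ' := by nlinarith [hℓ.two_le, hℓ'.two_le]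
  have hn0 : ((ℓ * ℓ' : ℕ) : ℂ) ≠ 0 := Nat.cast_ne_zero.mpr (by omega)
  obtain ⟨h, hh⟩ := hodd
  have hh1 : 1 ≤ h := by omega
  have gd : ∀ {A : Subring ℂ}, Bz (ℓ * ℓ') (-2 / E.lam) ≤ A → Good A (ℓ * ℓ') E.lam :=
    fun hA => good_of_Bz_le two_ne_zero hn0 E.lam0 E.lam1 hA
  have la : ∀ {A : Subring ℂ} (_ : IC A) (_ : Good A (ℓ * ℓ') E.lam)
      {L' : PeriodPair} {Q : ℂ} (E' : Leg L' ω₁ ω₂ ω₃) (_ : Cyc L L' Q (ℓ * ℓ')),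
      Good A (ℓ * ℓ') E'.lam ∧ Un A (E'.a / E.a) := by
    intro A hA G' L' Q E' hc
    have := lat H E E' (hh ▸ hc) hh1 (Pl.self A hA) (hh ▸ dvd_rfl) G'
    exact ⟨this.1, this.2.1⟩
  have hT' : ∀ w : T, ∃ (L' : PeriodPair) (Q : ℂ) (E' : Leg L' ω₁ ω₂ ω₃),
      Cyc L L' Q (ℓ * ℓ') ∧ (w : ℂ) = -2 / E'.lam := fun w => hT w.2
  choose LL QQ EE hc hw using hT'
  have GI : Good (icl (Bz (ℓ * ℓ') (-2 / E.lam))) (ℓ * ℓ') E.lam := gd (le_icl _)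
  rw [← Fintype.card_coe, ← Finset.card_univ]
  refine ramsey p ℓ ℓ' hℓ hℓ' hne hsz Finset.univ (fun w : T => P.ev ((EE w).a / E.a))
    (fun w _ => P.ev_ne (la P.ic G (EE w) (hc w)).2) fun w _ w' _ hww => ?_
  have hδ0 : (w : ℂ) - w' ≠ 0 := sub_ne_zero.mpr fun e => hww (Subtype.ext e)
  have mem : ∀ {A : Subring ℂ} (_ : IC A) (_ : Good A (ℓ * ℓ') E.lam) (v : T), (v : ℂ) ∈ A :=
    fun hA G' v => (end_Bz H E ⟨h, hh⟩ hn1 hA G' (hT v.2)).1.mem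
  obtain ⟨P₀, hP₀, e0, back⟩ := krull (ℓ * ℓ') (by omega) _ ha p P G.Bz_le
    {(w : ℂ) - w', (EE w).a / E.a, (EE w').a / E.a} (by
      intro z hz
      simp only [Finset.mem_insert, Finset.mem_singleton] at hz
      rcases hz with rfl | rfl | rfl
      · exact sub_mem (mem (ic_icl _) GI w) (mem (ic_icl _) GI w')
      · exact (la (ic_icl _) GI (EE w) (hc w)).2.mem
      · exact (la (ic_icl _) GI (EE w') (hc w')).2.mem)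
    ((w : ℂ) - w') (by simp) hδ0
    (by rw [P.ev_sub (mem P.ic G w) (mem P.ic G w'), hy _ w.2, hy _ w'.2, sub_self])
    (by
      intro Ω _ _ _ P' hP' hu
      have : CharP Ω p := charP_of_injective_algebraMap (algebraMap (ZMod p) Ω).injective p
      rw [P'.ev_sub (mem P'.ic (gd hP') w) (mem P'.ic (gd hP') w'), sub_ne_zero]
      exact fun e => hww (Subtype.ext
        (gen_inj H E ha hℓ hℓ' h2 h2' hne p hp hsz P' (gd hP') hu (hT w.2) (hT w'.2) e)))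
  have G₀ := gd hP₀
  have G₁ := (la P₀.ic G₀ (EE w) (hc w)).1
  have G₂ := (la P₀.ic G₀ (EE w') (hc w')).1
  rw [P₀.ev_sub (mem P₀.ic G₀ w) (mem P₀.ic G₀ w'), sub_eq_zero, hw w, hw w', P₀.ev_par G₁,
    P₀.ev_par G₂] at e0
  have he : P₀.ev (EE w).lam = P₀.ev (EE w').lam := by
    have a := P₀.ev_ne G₁.lam
    have b := P₀.ev_ne G₂.lam
    field_simp at e0
    linear_combination e0
  obtain ⟨t, ht, e⟩ := pair_complex H E ⟨h, hh⟩ hn1 P₀ G₀ (EE w) (EE w') (hc w) (hc w')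
    (fun e => hww (Subtype.ext (by rw [hw w, hw w', e]))) he
  refine ⟨t, ht, ?_⟩
  have s1 : (EE w).a / E.a ∈ Subring.closure ((Bz (ℓ * ℓ') (-2 / E.lam) : Set ℂ) ∪
      ({(w : ℂ) - w', (EE w).a / E.a, (EE w').a / E.a} : Finset ℂ)) :=
    Subring.subset_closure (Or.inr (by simp))
  have s2 : (EE w').a / E.a ∈ Subring.closure ((Bz (ℓ * ℓ') (-2 / E.lam) : Set ℂ) ∪
      ({(w : ℂ) - w', (EE w).a / E.a, (EE w').a / E.a} : Finset ℂ)) :=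
    Subring.subset_closure (Or.inr (by simp))
  have := back _ (sub_mem (mul_mem (pow_mem (natCast_mem _ _) 2) (pow_mem (add_mem s1 s2) 2))
    (mul_mem (pow_mem (intCast_mem _ _) 2) (mul_mem s1 s2))) e
  rw [ampar_ev P _ t (la P.ic G (EE w) (hc w)).2.mem (la P.ic G (EE w') (hc w')).2.mem] at this
  exact sub_eq_zero.mp this

end Pool.Agent.Lib.MP_4a1067_nt.Am
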