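import Mathlib
import Pool.Agent.Lib.MP_4a1067_nt.AmBranch
import Pool.Agent.Lib.MP_4a1067_nt.AmPar

/-! Non-squareness on the components of the correspondence. -/

namespace Pool.Agent.Lib.MP_4a1067_nt.Am

open Polynomial IntermediateField

variable {L : PeriodPair} {ω₁ ω₂ ω₃ : ℂ} {ℓ ℓ' : ℕ}

private lemma amnsq_gxy {κ A : Type*} [CommRing κ] [CommRing A] [Algebra κ A] (x y : A)
    (g : κ[X]) : aevalAeval x y (gxy g) = aeval x g * aeval y g := by
  rw [gxy, map_mul, aevalAeval_C]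
  congr 1
  induction g using Polynomial.induction_on' with
  | add a b ha hb => rw [Polynomial.map_add, map_add, map_add, ha, hb]
  | monomial n a =>
    rw [Polynomial.map_monomial, ← C_mul_X_pow_eq_monomial, map_mul, map_pow, aevalAeval_C,
      aevalAeval_Y, aeval_monomial, aeval_C]

theorem nsq (H : Half L ω₁ ω₂ ω₃) (E : Leg L ω₁ ω₂ ω₃) (ha : Transcendental ℤ (-2 / E.lam))
    (hℓ : ℓ.Prime) (hℓ' : ℓ'.Prime) (h2 : ℓ ≠ 2) (h2' : ℓ' ≠ 2) (hne : ℓ ≠ ℓ') (p : ℕ)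
    (hp : p.Prime) (hsz : 24 * (ℓ * ℓ') ^ 3 < p) {κ Ω : Type} [Field κ] [IsAlgClosed κ]
    [CharP κ p] [Field Ω] [Algebra κ Ω] (P : Pl ℂ Ω) (G : Good P.A (ℓ * ℓ') E.lam)
    (hu : Transcendental κ (P.ev (-2 / E.lam)))
    (halg : Algebra.IsAlgebraic κ⟮P.ev (-2 / E.lam)⟯ Ω) (w : Ω) (T : Finset ℂ)
    (hT : (T : Set ℂ) ⊆ End L ω₁ ω₂ ω₃ (ℓ * ℓ'))
    (hcj : ∀ t ∈ T, Cj κ (P.ev (-2 / E.lam)) w (P.ev t)) (g : κ[X]) (hg : g ≠ 0)
    (hdeg : 60 * g.natDegree < T.card) (r : κ) (r0 : r ≠ 0) (r2 : r ≠ -2)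
    (hodd : Odd (g.rootMultiplicity r)) (a c : κ[X][X])
    (hc : aevalAeval (P.ev (-2 / E.lam)) w c ≠ 0) :
    aevalAeval (P.ev (-2 / E.lam)) w (a ^ 2 - gxy g * c ^ 2) ≠ 0 := by
  classical
  intro h0
  obtain ⟨C₀, G₀, hb⟩ := branch H E ha ((hℓ.odd_of_ne_two h2).mul (hℓ'.odd_of_ne_two h2'))
    (Nat.one_lt_mul_iff.2 ⟨hℓ.pos, hℓ'.pos, Or.inl hℓ.one_lt⟩) P G hu halg r r0 r2
  have key : ∀ t ∈ T, C₀.ev t ∈ g.roots.toFinset := by
    intro t ht
    obtain ⟨η, h1, h2, h3⟩ := hb t (hT ht)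
    have e0 := (h3 _).1 ((hcj t ht _).1 h0)
    have ec : aevalAeval (PowerSeries.C r + PowerSeries.X) η c ≠ 0 := fun e =>
      hc ((hcj t ht _).2 ((h3 _).2 e))
    rw [map_sub, map_mul, map_pow, map_pow, amnsq_gxy, sub_eq_zero] at e0
    have o1 := order_aeval g hg (PowerSeries.C r + PowerSeries.X) (by simp)
    have o2 := order_aeval g hg η h2
    have ev := even_order ec o1 o2 e0
    simp only [map_add, PowerSeries.constantCoeff_C, PowerSeries.constantCoeff_X, add_zero,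
      h1] at ev
    rw [Multiset.mem_toFinset, mem_roots hg]
    by_contra hr
    rw [rootMultiplicity_eq_zero hr, add_zero] at ev
    exact Nat.not_even_iff_odd.2 hodd ev
  have h1 : T.card ≤ 60 * (T.image C₀.ev).card :=
    Finset.card_le_mul_card_image T 60 fun y _ =>
      par H E ha hℓ hℓ' h2 h2' hne p hp hsz C₀ G₀ _
        (fun t ht => hT (Finset.mem_filter.1 ht).1) y fun t ht => (Finset.mem_filter.1 ht).2
  have h3 : (T.image C₀.ev).card ≤ g.natDegree :=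
    (Finset.card_le_card (Finset.image_subset_iff.2 key)).trans
      ((Multiset.toFinset_card_le _).trans (card_roots' g))
  omega

end Pool.Agent.Lib.MP_4a1067_nt.Am
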