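import Mathlib
import Pool.Agent.Lib.MP_4a1067_nt.AmBasic

/-! Products of the bit polynomials have an odd root away from the cusps. -/

namespace Pool.Agent.Lib.MP_4a1067_nt.Am

open Polynomial

lemma amodd_ne {K : Type*} [Field K] (j : ℕ) : gg K j ≠ 0 :=
  neg_ne_zero.mpr (monic_add_cp (12 + j) 1 (by omega) le_rfl).ne_zero

lemma amodd_eval {R : Type*} [CommRing R] (j : ℕ) (a : R) :
    (gg R j).eval a = -(orb a (12 + j) + orb a 1) := by
  rw [gg, eval_neg, eval_add, eval_cp, eval_cp]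

lemma amodd_quad {K : Type*} [Field K] (b c : K) (T : Finset K)
    (hT : ∀ u ∈ T, u ^ 2 + b * u + c = 0) : T.card ≤ 2 := by
  have hd : (C 1 * X ^ 2 + C b * X + C c : K[X]).natDegree = 2 := natDegree_quadratic one_ne_zero
  have h0 : (C 1 * X ^ 2 + C b * X + C c : K[X]) ≠ 0 := fun h => by
    rw [h] at hd
    simp at hd
  rw [← hd]
  refine card_le_degree_of_subset_roots fun u hu => (mem_roots h0).mpr ?_
  simpa [IsRoot] using hT u hu

lemma prod_gg_ne_zero {K : Type*} [Field K] {k : ℕ} (S : Finset (Fin k)) :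
    ∏ j ∈ S, gg K j ≠ 0 := by
  exact Finset.prod_ne_zero_iff.mpr fun j _ => amodd_ne j

lemma natDegree_prod_gg {K : Type*} [Field K] {k : ℕ} (S : Finset (Fin k)) :
    (∏ j ∈ S, gg K j).natDegree ≤ 2 ^ (12 + k) := by
  refine (natDegree_prod_le _ _).trans ?_
  calc ∑ j ∈ S, (gg K j).natDegree ≤ ∑ j : Fin k, 2 ^ (12 + (j : ℕ)) := by
        refine (Finset.sum_le_sum fun j _ => ?_).trans
          (Finset.sum_le_sum_of_subset (Finset.subset_univ S))
        rw [gg, natDegree_neg]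
        exact (natDegree_add_cp_le _ 1 (by omega)).trans
          (Nat.pow_le_pow_right (by norm_num) (by omega))
    _ = 2 ^ 12 * ∑ j ∈ Finset.range k, 2 ^ j := by
        rw [Fin.sum_univ_eq_sum_range (fun j => 2 ^ (12 + j)) k, Finset.mul_sum]
        exact Finset.sum_congr rfl fun j _ => pow_add _ _ _
    _ ≤ 2 ^ (12 + k) := by
        rw [pow_add]
        exact Nat.mul_le_mul_left _ (Nat.geomSum_lt le_rfl fun _ h => Finset.mem_range.mp h).le

theorem odd_root {K : Type*} [Field K] [IsAlgClosed K] (p : ℕ) [CharP K p] (hp : p.Prime)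
    (hp2 : p ≠ 2) (k : ℕ) (hk : 2 ^ (12 + k) ≤ p) (S : Finset (Fin k)) (hS : S.Nonempty) :
    ∃ a : K, a ≠ 0 ∧ a ≠ -2 ∧ Odd ((∏ j ∈ S, gg K j).rootMultiplicity a) := by
  classical
  by_contra hno
  have hev : ∀ a : K, a ≠ 0 → a ≠ -2 → Even ((∏ j ∈ S, gg K j).rootMultiplicity a) :=
    fun a h0 h1 => Nat.not_odd_iff_even.mp fun h => hno ⟨a, h0, h1, h⟩
  have h2 : (2 : K) ≠ 0 := by
    intro h
    have : ((2 : ℕ) : K) = 0 := by exact_mod_cast h
    rw [CharP.cast_eq_zero_iff K p] at this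
    exact hp2 ((Nat.prime_dvd_prime_iff_eq hp Nat.prime_two).mp this)
  have h02 : (0 : K) ≠ -2 := fun h => h2 (neg_eq_zero.mp h.symm)
  obtain ⟨i0, hi0, hmax⟩ := Finset.exists_max_image S id hS
  have hm1 : ((2 ^ (12 + (i0 : ℕ) - 2) : ℕ) : K) ≠ 1 := by
    intro h
    have h3 : 1 < 2 ^ (12 + (i0 : ℕ) - 2) := Nat.one_lt_two_pow (by omega)
    have h4 : 2 ^ (12 + (i0 : ℕ) - 2) ≤ 2 ^ (12 + k) :=
      Nat.pow_le_pow_right (by norm_num) (by have := i0.2; omega)
    have h5 : ((2 ^ (12 + (i0 : ℕ) - 2) - 1 : ℕ) : K) = 0 := by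
      rw [Nat.cast_sub h3.le, h]; simp
    rw [CharP.cast_eq_zero_iff K p] at h5
    have := Nat.le_of_dvd (by omega) h5
    omega
  have hF0 := prod_gg_ne_zero (K := K) S
  have hFR := (Finset.mul_prod_erase S (fun i : Fin k => gg K i) hi0).symm
  generalize ∏ j ∈ S, gg K j = F at hev hF0 hFR
  have hA : ((X - C 0) ^ F.rootMultiplicity 0 : K[X]) ≠ 0 := pow_ne_zero _ (X_sub_C_ne_zero _)
  have hB : ((X - C (-2)) ^ F.rootMultiplicity (-2) : K[X]) ≠ 0 :=
    pow_ne_zero _ (X_sub_C_ne_zero _)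
  have hz : ∀ (a b : K) (n : ℕ), a ≠ b → ((X - C b) ^ n : K[X]).eval a ≠ 0 := fun a b n h => by
    rw [eval_pow, eval_sub, eval_X, eval_C]
    exact pow_ne_zero _ (sub_ne_zero.mpr h)
  refine top_contra h2 (12 + i0) (by omega) hm1 1 (Or.inl rfl)
    (-(∏ i ∈ S.erase i0, gg K i) * ((X - C 0) ^ F.rootMultiplicity 0 *
      (X - C (-2)) ^ F.rootMultiplicity (-2)))
    (mul_ne_zero (neg_ne_zero.mpr (prod_gg_ne_zero _)) (mul_ne_zero hA hB))
    (fun a hG h0 => ?_) fun a => ?_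
  · have h3 := (hG 2 le_rfl (by omega)).1
    have h4 : orb a 2 + orb a 1 = a * (a + 2) := by
      rw [orb_succ a 1, orb_one]
      ring
    rw [h4] at h3
    rw [eval_mul, eval_mul, eval_neg, eval_prod]
    refine mul_ne_zero (neg_ne_zero.mpr (Finset.prod_ne_zero_iff.mpr fun i hi => ?_))
      (mul_ne_zero (hz _ _ _ (left_ne_zero_of_mul h3)) (hz _ _ _ fun h => ?_))
    · have h5 : i ≤ i0 := hmax i (Finset.mem_of_mem_erase hi)
      have h6 : (i : ℕ) < i0 := lt_of_le_of_ne h5 fun h => (Finset.mem_erase.mp hi).1 (Fin.ext h)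
      rw [amodd_eval]
      exact neg_ne_zero.mpr
        (gen_lower hG (by omega) (Or.inl rfl) h0 (i := 12 + i) (by omega) (by omega)).1
    · exact right_ne_zero_of_mul h3 (by rw [h]; ring)
  · have e : (cp K (12 + i0) + cp K 1) * (-(∏ i ∈ S.erase i0, gg K i) *
        ((X - C 0) ^ F.rootMultiplicity 0 * (X - C (-2)) ^ F.rootMultiplicity (-2))) =
        F * ((X - C 0) ^ F.rootMultiplicity 0 * (X - C (-2)) ^ F.rootMultiplicity (-2)) := by
      rw [← mul_assoc, mul_neg, ← neg_mul]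
      exact congrArg (· * _) hFR.symm
    rw [e, rootMultiplicity_mul (mul_ne_zero hF0 (mul_ne_zero hA hB)),
      rootMultiplicity_mul (mul_ne_zero hA hB)]
    by_cases a0 : a = 0
    · subst a0
      rw [rootMultiplicity_X_sub_C_pow, rootMultiplicity_eq_zero (hz _ _ _ h02)]
      exact ⟨_, rfl⟩
    by_cases a2 : a = -2
    · subst a2
      rw [rootMultiplicity_X_sub_C_pow, rootMultiplicity_eq_zero (hz _ _ _ h02.symm), zero_add]
      exact ⟨_, rfl⟩
    rw [rootMultiplicity_eq_zero (hz _ _ _ a0), rootMultiplicity_eq_zero (hz _ _ _ a2)]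
    exact hev a a0 a2

/-- the bits in terms of the polynomials `gg` over an extension field -/
lemma gg_pow {p : ℕ} [Fact p.Prime] (hp2 : p ≠ 2) {K : Type*} [Field K] [Algebra (ZMod p) K]
    (j : ℕ) (a a' : ZMod p) (h : uu (12 + j) a * uu (12 + j) a' = 1) :
    (gxy (gg K j)).evalEval (algebraMap (ZMod p) K a) (algebraMap (ZMod p) K a') ^ (p / 2)
      = 1 := by
  have e : ∀ b : ZMod p, (gg K j).eval (algebraMap (ZMod p) K b) =
      algebraMap (ZMod p) K (-(orb b (12 + j) + orb b 1)) := fun b => by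
    rw [← amodd_eval, ← eval_map_apply]
    simp only [gg, Polynomial.map_neg, Polynomial.map_add, map_cp]
  have h1 := quadraticChar_eq_pow_of_char_ne_two' (F := ZMod p)
    (by rw [ZMod.ringChar_zmod_n]; exact hp2)
    (-(orb a (12 + j) + orb a 1) * -(orb a' (12 + j) + orb a' 1))
  rw [map_mul, ZMod.card] at h1
  unfold uu at h
  rw [h, Int.cast_one] at h1
  rw [gxy, evalEval_mul, evalEval_C, evalEval_map_C, e, e, ← map_mul, ← map_pow, ← h1, map_one]

/-- few parameters have a vanishing bit -/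
lemma card_uu_zero {p : ℕ} [Fact p.Prime] (k : ℕ) (P : Finset (ZMod p))
    (hP : ∀ a ∈ P, ∃ j < k, uu (12 + j) a = 0) : P.card ≤ 2 ^ (12 + k) := by
  refine le_trans (card_le_degree_of_subset_roots fun a ha => ?_)
    (natDegree_prod_gg (K := ZMod p) (k := k) Finset.univ)
  obtain ⟨j, hj, h⟩ := hP a ha
  refine (mem_roots (prod_gg_ne_zero _)).mpr ?_
  rw [IsRoot, eval_prod]
  refine Finset.prod_eq_zero (Finset.mem_univ (⟨j, hj⟩ : Fin k)) ?_
  rw [amodd_eval]
  exact quadraticChar_eq_zero_iff.mp h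

/-- at least half of the residues are split, along an arithmetic progression of step two -/
lemma card_spl (p q : ℕ) (hq : q.Prime) (hq2 : q ≠ 2) (hqp : ¬ q ∣ p) (s₀ : ℤ)
    [DecidablePred fun i : ℕ => Spl p q (s₀ + 2 * i)] :
    q ≤ 2 * ((Finset.range q).filter fun i : ℕ => Spl p q (s₀ + 2 * i)).card + 3 := by
  classical
  have : Fact q.Prime := ⟨hq⟩
  have h2 : (2 : ZMod q) ≠ 0 := by
    intro h
    have : ((2 : ℕ) : ZMod q) = 0 := by exact_mod_cast h
    rw [ZMod.natCast_eq_zero_iff] at this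
    exact hq2 ((Nat.prime_dvd_prime_iff_eq hq Nat.prime_two).mp this)
  let f : ZMod q → ℕ := fun u => (((u + p / u) / 2 - s₀) / 2).val
  have hf : ∀ u, ((s₀ + 2 * (f u : ℕ) : ℤ) : ZMod q) = (u + p / u) / 2 := fun u => by
    push_cast
    simp only [f, ZMod.natCast_val, ZMod.cast_id', id_eq]
    field_simp
    ring
  let U : Finset (ZMod q) := Finset.univ.filter fun u => u ≠ 0 ∧ u ^ 2 ≠ p
  have hU : U.card ≤ 2 * ((Finset.range q).filter fun i : ℕ => Spl p q (s₀ + 2 * i)).card := by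
    refine Finset.card_le_mul_card_image_of_maps_to (f := f) (fun u hu => ?_) 2 fun i _ => ?_
    · obtain ⟨u0, u1⟩ := (Finset.mem_filter.mp hu).2
      have key : (((s₀ + 2 * (f u : ℕ) : ℤ) ^ 2 - p : ℤ) : ZMod q) = ((u - p / u) / 2) ^ 2 := by
        rw [Int.cast_sub, Int.cast_pow, hf, Int.cast_natCast]
        field_simp
        ring
      refine Finset.mem_filter.mpr ⟨Finset.mem_range.mpr (ZMod.val_lt _),
        ⟨((u - p / u) / 2).val, ?_⟩, ?_⟩
      · rw [← ZMod.intCast_zmod_eq_zero_iff_dvd, Int.cast_sub, key]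
        simp
      · rw [← ZMod.intCast_zmod_eq_zero_iff_dvd, key]
        refine pow_ne_zero _ (div_ne_zero (sub_ne_zero.mpr fun h => u1 ?_) h2)
        rw [sq, ← eq_div_iff u0]
        exact h
    · refine amodd_quad (-(2 * ((s₀ + 2 * (i : ℕ) : ℤ) : ZMod q))) p _ fun u hu => ?_
      obtain ⟨hu, e⟩ := Finset.mem_filter.mp hu
      have u0 := (Finset.mem_filter.mp hu).2.1
      rw [← e, hf]
      field_simp
      ring
  have hV : (Finset.univ.filter fun u : ZMod q => ¬ (u ≠ 0 ∧ u ^ 2 ≠ p)).card ≤ 3 := by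
    have h3 := amodd_quad (0 : ZMod q) (-p) (Finset.univ.filter fun u : ZMod q => u ^ 2 = p)
      fun u hu => by rw [(Finset.mem_filter.mp hu).2]; ring
    refine (Finset.card_le_card (t := insert 0 (Finset.univ.filter fun u : ZMod q => u ^ 2 = p))
      fun u hu => ?_).trans ((Finset.card_insert_le _ _).trans (by omega))
    have h4 := (Finset.mem_filter.mp hu).2
    by_cases u0 : u = 0
    · exact Finset.mem_insert.mpr (Or.inl u0)
    · exact Finset.mem_insert_of_mem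
        (Finset.mem_filter.mpr ⟨Finset.mem_univ _, by_contra fun h => h4 ⟨u0, h⟩⟩)
  have h5 := Finset.card_filter_add_card_filter_not (s := (Finset.univ : Finset (ZMod q)))
    fun u => u ≠ 0 ∧ u ^ 2 ≠ p
  rw [Finset.card_univ, ZMod.card] at h5
  dsimp only [U] at hU
  omega

lemma spl_add (p q : ℕ) (s₀ : ℤ) (i : ℕ) :
    Spl p q (s₀ + 2 * ((i + q : ℕ) : ℤ)) ↔ Spl p q (s₀ + 2 * i) := by
  have hd : (q : ℤ) ∣ (s₀ + 2 * ((i + q : ℕ) : ℤ)) ^ 2 - p - ((s₀ + 2 * i) ^ 2 - p) :=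
    ⟨4 * (s₀ + 2 * i) + 4 * q, by push_cast; ring⟩
  unfold Spl
  rw [(dvd_iff_dvd_of_dvd_sub hd)]
  refine and_congr_left' (exists_congr fun r => dvd_iff_dvd_of_dvd_sub ?_)
  exact (dvd_neg.mpr hd).trans (dvd_of_eq (by ring))

end Pool.Agent.Lib.MP_4a1067_nt.Am
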