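import Mathlib
import Pool.Agent.Lib.MP_4a1067_nt.AmStepE
import Pool.Agent.Lib.MP_4a1067_nt.AmNsq
import Pool.Agent.Lib.MP_4a1067_nt.AmOdd

/-! Few linked pairs have equal bits. -/

namespace Pool.Agent.Lib.MP_4a1067_nt.Am

open Polynomial IntermediateField

private lemma amcurve_ne {R A : Type*} [CommRing R] [Nontrivial R] [CommRing A] [Algebra R A]
    {a : A} (ha : Transcendental R a) : a ≠ 0 ∧ a + 2 ≠ 0 := by
  refine ⟨fun h => ha (h ▸ isAlgebraic_zero), fun h => ha ?_⟩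
  have e : a = algebraMap R A (-2) := by
    rw [map_neg, map_ofNat]
    exact eq_neg_of_add_eq_zero_left h
  rw [e]
  exact isAlgebraic_algebraMap _

private lemma amcurve_alg (κ : Type*) [Field κ] :
    Algebra.IsAlgebraic κ⟮algebraMap (RatFunc κ) (AlgebraicClosure (RatFunc κ)) RatFunc.X⟯
      (AlgebraicClosure (RatFunc κ)) := by
  set u := algebraMap (RatFunc κ) (AlgebraicClosure (RatFunc κ)) RatFunc.X with hu
  have hm : ∀ g : RatFunc κ, algebraMap (RatFunc κ) (AlgebraicClosure (RatFunc κ)) g ∈ κ⟮u⟯ := by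
    intro g
    refine (mem_adjoin_simple_iff _ _).mpr ⟨g.num, g.denom, ?_⟩
    rw [hu, aeval_algebraMap_apply, aeval_algebraMap_apply, ← map_div₀]
    simp
  let φ : RatFunc κ →+* κ⟮u⟯ :=
    (algebraMap (RatFunc κ) (AlgebraicClosure (RatFunc κ))).codRestrict κ⟮u⟯ hm
  refine ⟨fun z => IsIntegral.isAlgebraic ?_⟩
  obtain ⟨q, hq, e⟩ := Algebra.IsIntegral.isIntegral (R := RatFunc κ) z
  refine ⟨q.map φ, hq.map _, ?_⟩
  rw [eval₂_map]
  exact e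

/-- the generic set-up in characteristic `p` -/
theorem exists_generic (p : ℕ) [Fact p.Prime] (n : ℕ) (hn : ¬ p ∣ 2 * n) :
    ∃ (L : PeriodPair) (ω₁ ω₂ ω₃ : ℂ) (_ : Half L ω₁ ω₂ ω₃) (E : Leg L ω₁ ω₂ ω₃)
      (P : Pl ℂ (AlgebraicClosure (RatFunc (AlgebraicClosure (ZMod p))))),
      Transcendental ℤ (-2 / E.lam) ∧ Good P.A n E.lam ∧
      Transcendental (AlgebraicClosure (ZMod p)) (P.ev (-2 / E.lam)) ∧
      Algebra.IsAlgebraic (AlgebraicClosure (ZMod p))⟮P.ev (-2 / E.lam)⟯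
        (AlgebraicClosure (RatFunc (AlgebraicClosure (ZMod p)))) := by
  set κ := AlgebraicClosure (ZMod p)
  set Ω := AlgebraicClosure (RatFunc κ)
  set u : Ω := algebraMap (RatFunc κ) Ω RatFunc.X with hu
  have ut : Transcendental κ u :=
    (transcendental_algebraMap_iff (algebraMap (RatFunc κ) Ω).injective).mpr
      RatFunc.transcendental_X
  have hΩ : CharP Ω p := charP_of_injective_algebraMap (algebraMap κ Ω).injective p
  obtain ⟨a, ha⟩ : ∃ a : ℂ, Transcendental ℤ a :=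
    ⟨algebraMap ℝ ℂ (liouvilleNumber 2), (transcendental_algebraMap_iff
      (algebraMap ℝ ℂ).injective).mpr (by simpa using transcendental_liouvilleNumber le_rfl)⟩
  obtain ⟨a0, a2⟩ := amcurve_ne ha
  obtain ⟨u0, u2⟩ := amcurve_ne ut
  have l0 : -2 / a ≠ 0 := div_ne_zero (by norm_num) a0
  have l1 : -2 / a ≠ 1 := fun h => a2 (by
    rw [div_eq_one_iff_eq a0] at h
    rw [← h]; norm_num)
  obtain ⟨L, ω₁, ω₂, ω₃, H, E, hE⟩ := surj _ l0 l1
  have ea : -2 / E.lam = a := by rw [hE]; field_simp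
  have n2 : ((2 * n : ℕ) : Ω) ≠ 0 := fun h => hn ((CharP.cast_eq_zero_iff Ω p _).mp h)
  have n0 : (n : ℂ) ≠ 0 := Nat.cast_ne_zero.mpr fun h => hn (by simp [h])
  obtain ⟨P, hP, hf⟩ := place (aeval a : ℤ[X] →ₐ[ℤ] ℂ).toRingHom
    (transcendental_iff_injective.mp ha) (aeval u : ℤ[X] →ₐ[ℤ] Ω).toRingHom
    (2 * (n : ℤ[X]) * X * (X + 2)) (by
      rw [Nat.cast_mul, Nat.cast_ofNat] at n2
      simp only [AlgHom.toRingHom_eq_coe, RingHom.coe_coe, map_mul, map_add, map_ofNat,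
        map_natCast, aeval_X]
      exact mul_ne_zero (mul_ne_zero n2 u0) u2)
  have hX : a ∈ P.A ∧ P.ev a = u := by simpa using hP X
  have hf' : Un P.A (2 * n * a * (a + 2)) := by
    simpa only [AlgHom.toRingHom_eq_coe, RingHom.coe_coe, map_mul, map_add, map_ofNat,
      map_natCast, aeval_X] using hf
  refine ⟨L, ω₁, ω₂, ω₃, H, E, P, ea ▸ ha, good_of_Bz_le two_ne_zero n0 E.lam0 E.lam1 ?_, ?_, ?_⟩
  · rw [ea]
    exact Bz_le hX.1 hf'.inv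
  · rw [ea, hX.2]
    exact ut
  · rw [ea, hX.2]
    exact amcurve_alg κ

/-- a linked pair lies on a component of the generic correspondence -/
theorem spec_point {L : PeriodPair} {ω₁ ω₂ ω₃ : ℂ} (H : Half L ω₁ ω₂ ω₃) (E : Leg L ω₁ ω₂ ω₃)
    (p : ℕ) [Fact p.Prime] {n : ℕ} (hn : Odd n) (hn1 : 1 < n) {Ω : Type} [Field Ω]
    [Algebra (AlgebraicClosure (ZMod p)) Ω] (P : Pl ℂ Ω) (G : Good P.A n E.lam)
    (hu : Transcendental (AlgebraicClosure (ZMod p)) (P.ev (-2 / E.lam))) (b b' : ZMod p)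
    (b0 : b ≠ 0) (b1 : b ≠ 1) (hl : Lnk p n b b') :
    ∃ w ∈ End L ω₁ ω₂ ω₃ n, ∀ q : (AlgebraicClosure (ZMod p))[X][X],
      aevalAeval (P.ev (-2 / E.lam)) (P.ev w) q = 0 →
        q.evalEval (algebraMap (ZMod p) _ (-2 / b)) (algebraMap (ZMod p) _ (-2 / b')) = 0 := by
  set κ := AlgebraicClosure (ZMod p)
  set u := P.ev (-2 / E.lam) with hu'
  obtain ⟨h, rfl⟩ := hn
  have hh : 1 ≤ h := by omega
  obtain ⟨c, s, I⟩ := hl
  rw [show (2 * h + 1) / 2 = h by omega] at I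
  have t0 : (2 : Ω) ≠ 0 := P.ev_two ▸ P.ev_ne G.two
  have n0 : ((2 * h + 1 : ℕ) : Ω) ≠ 0 := P.ev_natCast _ ▸ P.ev_ne G.n
  have t1 : (2 : κ) ≠ 0 := fun e => t0 (by rw [← map_ofNat (algebraMap κ Ω), e, map_zero])
  have n1 : ((2 * h + 1 : ℕ) : κ) ≠ 0 := fun e =>
    n0 (by rw [← map_natCast (algebraMap κ Ω), e, map_zero])
  have e2 : ∀ x : ZMod p, algebraMap (ZMod p) κ (-2 / x) = -2 / algebraMap (ZMod p) κ x :=
    fun x => by rw [map_div₀, map_neg, map_ofNat]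
  have c0 : algebraMap (ZMod p) κ b ≠ 0 := (_root_.map_ne_zero _).mpr b0
  have c1 : algebraMap (ZMod p) κ b ≠ 1 := fun e =>
    b1 ((algebraMap (ZMod p) κ).injective (e.trans (map_one _).symm))
  set β := algebraMap (ZMod p) κ b with hβ
  have d0 : -2 / β ≠ 0 := div_ne_zero (neg_ne_zero.mpr t1) c0
  have d2 : -2 / β + 2 ≠ 0 := by
    rw [show -2 / β + 2 = -2 / β * (1 - β) by rw [mul_sub, div_mul_cancel₀ _ c0]; ring]
    exact mul_ne_zero d0 (sub_ne_zero.mpr c1.symm)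
  obtain ⟨P₂, hP, hf⟩ := place (aeval u : κ[X] →ₐ[κ] Ω).toRingHom
    (transcendental_iff_injective.mp hu) (evalRingHom (-2 / β))
    (2 * ((2 * h + 1 : ℕ) : κ[X]) * X * (X + 2)) (by
      simp only [coe_evalRingHom, eval_mul, eval_ofNat, eval_natCast, eval_X, eval_add]
      exact mul_ne_zero (mul_ne_zero (mul_ne_zero t1 n1) d0) d2)
  have hX : u ∈ P₂.A ∧ P₂.ev u = -2 / β := by simpa using hP X
  have hC : ∀ c : κ, algebraMap κ Ω c ∈ P₂.A ∧ P₂.ev (algebraMap κ Ω c) = c := fun c => by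
    simpa using hP (C c)
  have hf' : Un P₂.A (2 * (2 * h + 1 : ℕ) * u * (u + 2)) := by
    simpa only [AlgHom.toRingHom_eq_coe, RingHom.coe_coe, map_mul, map_add, map_ofNat,
      map_natCast, aeval_X] using hf
  have l1 : P.ev E.lam ≠ 1 := fun e => P.ev_ne G.lam1 (by
    rw [P.ev_sub (one_mem _) G.lam.mem, P.ev_one, e, sub_self])
  have G₂ : Good P₂.A (2 * h + 1) (P.ev E.lam) :=
    good_of_Bz_le t0 n0 (P.ev_ne G.lam) l1 (by
      rw [← P.ev_par G]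
      exact Bz_le hX.1 hf'.inv)
  have G₃ : Good (P.comp P₂).A (2 * h + 1) E.lam := (P.good_res (hB := P₂.ic)).mpr ⟨G, G₂⟩
  have el : (P.comp P₂).ev E.lam = β := by
    have e := (P.comp P₂).ev_par G₃
    rw [P.ev_comp P₂ G₃.un_f.1.mem, ← hu', hX.2,
      div_eq_div_iff c0 ((P.comp P₂).ev_ne G₃.lam)] at e
    exact mul_left_cancel₀ (neg_ne_zero.mpr t1) e
  obtain ⟨L', Q, E', hc, em, -⟩ := out H E (P.comp P₂) (Pl.surj p _) G₃ hh (el ▸ I)
  have G₄ := (lat H E E' hc hh (P.comp P₂) dvd_rfl G₃).1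
  refine ⟨-2 / E'.lam, ⟨L', Q, E', hc, rfl⟩, fun q hq => ?_⟩
  have hw := G₄.un_f.1.mem
  have e := (P₂.ev_aevalAeval hC hX.1 ((P.mem_res (hB := P₂.ic)).mp hw).2 q).2
  rw [hq, P₂.ev_zero, hX.2, ← P.ev_comp P₂ hw, (P.comp P₂).ev_par G₄, em] at e
  rw [e2, e2]
  exact e.symm

theorem curve (p : ℕ) [Fact p.Prime] (ℓ ℓ' k ψ : ℕ) (hℓ : ℓ.Prime) (hℓ' : ℓ'.Prime) (hne : ℓ ≠ ℓ')
    (hk : 60 * 2 ^ (12 + k) < ℓ) (hk' : 60 * 2 ^ (12 + k) < ℓ') (hψ : (ℓ + 1) * (ℓ' + 1) ≤ ψ)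
    (hsz : 40 * (2 ^ k) ^ 2 * ψ ^ 4 ≤ p) (P : Finset (ZMod p))
    (hP : ∀ b ∈ P, b ≠ 0 ∧ b ≠ 1 ∧ ∃ b', Lnk p (ℓ * ℓ') b b' ∧
      ∀ j < k, uu (12 + j) (-2 / b) * uu (12 + j) (-2 / b') = 1) :
    P.card * 2 ^ k ≤ 48 * p := by
  classical
  set κ := AlgebraicClosure (ZMod p)
  have hp : p.Prime := Fact.out
  have k1 : 1 ≤ 2 ^ (12 + k) := Nat.one_le_two_pow
  have h2 : ℓ ≠ 2 := by omega
  have h2' : ℓ' ≠ 2 := by omega
  have hodd : Odd (ℓ * ℓ') := (hℓ.odd_of_ne_two h2).mul (hℓ'.odd_of_ne_two h2')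
  have hn : ℓ * ℓ' + ℓ + ℓ' + 1 ≤ ψ := by nlinarith
  have hn1 : 1 < ℓ * ℓ' := by nlinarith
  have hψp : 40 * ψ ^ 4 ≤ p := by
    have : 1 ≤ (2 ^ k) ^ 2 := Nat.one_le_pow _ _ (by positivity)
    nlinarith [Nat.zero_le (ψ ^ 4)]
  have hψ1 : 1 ≤ ψ := by omega
  have hψ3 : ψ ^ 3 ≤ ψ ^ 4 := Nat.pow_le_pow_right hψ1 (by norm_num)
  have hψ4 : ψ ≤ ψ ^ 4 := Nat.le_self_pow (by norm_num) ψ
  have hsz' : 24 * (ℓ * ℓ') ^ 3 < p := by
    have : (ℓ * ℓ') ^ 3 ≤ ψ ^ 3 := Nat.pow_le_pow_left (by omega) 3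
    omega
  have hp2 : p ≠ 2 := by omega
  have hdv : ¬ p ∣ 2 * (ℓ * ℓ') := fun h => by
    have := Nat.le_of_dvd (by omega) h
    omega
  obtain ⟨L, ω₁, ω₂, ω₃, H, E, P₀, ha, G, hu, halg⟩ := exists_generic p (ℓ * ℓ') hdv
  have hΩ : CharP (AlgebraicClosure (RatFunc κ)) p :=
    charP_of_injective_algebraMap (algebraMap κ _).injective p
  obtain ⟨R, hR4, hRE, hR1, hR2⟩ := gen_orb H E ha hℓ hℓ' h2 h2' hne p hp hsz' P₀ G hu
  set u := P₀.ev (-2 / E.lam) with hu'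
  set φ : ZMod p → κ := fun b => algebraMap (ZMod p) κ (-2 / b) with hφ
  have hfr : ∀ b, φ b ^ p = φ b := fun b => by rw [hφ, ← map_pow, ZMod.pow_card]
  have t0 : (2 : ZMod p) ≠ 0 := fun e => hp2 ((Nat.prime_dvd_prime_iff_eq hp Nat.prime_two).mp
    ((ZMod.natCast_eq_zero_iff 2 p).mp e))
  have hinj : Function.Injective φ := fun b c e => by
    have e1 := (algebraMap (ZMod p) κ).injective e
    rw [div_eq_mul_inv, div_eq_mul_inv] at e1
    exact inv_injective (mul_left_cancel₀ (neg_ne_zero.mpr t0) e1)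
  let pr : ℂ → ZMod p → Prop := fun r b => ∃ b', (∀ q : κ[X][X],
    aevalAeval u (P₀.ev r) q = 0 → q.evalEval (φ b) (φ b') = 0) ∧
      ∀ j < k, uu (12 + j) (-2 / b) * uu (12 + j) (-2 / b') = 1
  have key : ∀ r ∈ R, (P.filter (pr r)).card * 2 ^ k ≤ 12 * p := by
    intro r hr
    obtain ⟨q₁, a₁, b₁, c₁, -⟩ := rel_poly (κ := κ) H E ha hℓ hℓ' h2 h2' P₀ G (hRE hr)
    obtain ⟨q₂, a₂, b₂, c₂⟩ := rel_poly' (κ := κ) H E ha hℓ hℓ' h2 h2' P₀ G (hRE hr)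
    obtain ⟨F, f1, f2, f3, f4, f5⟩ := exists_curve u (P₀.ev r) hu ψ q₁ q₂ a₁ (b₁.trans hψ) c₁ a₂
      (fun i => (b₂ i).trans hψ) c₂
    obtain ⟨T, t1, t2, t3⟩ := hR2 r hr
    have hs := step (ι := Fin k) p f1 f2 f3 f4 (fun j => gxy (gg κ j))
      (fun S => by
        rw [← gxy_prod]
        exact Bd_gxy ((natDegree_prod_gg S).trans (by omega)))
      (fun S hS a c hd => by
        by_contra hc
        obtain ⟨ρ, r0, r2, ro⟩ := odd_root (K := κ) p hp hp2 k (by omega) S hS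
        have hdeg := natDegree_prod_gg (K := κ) S
        have hmin : 60 * 2 ^ (12 + k) < min ℓ ℓ' := lt_min hk hk'
        refine nsq H E ha hℓ hℓ' h2 h2' hne p hp hsz' P₀ G hu halg (P₀.ev r) T t1 t3 _
          (prod_gg_ne_zero S) (((Nat.mul_le_mul_left 60 hdeg).trans_lt hmin).trans_le t2) ρ r0 r2 ro a c (fun e => hc ((f5 c).mp e)) ?_
        rw [gxy_prod]
        exact (f5 _).mpr hd)
      (by omega) (by rwa [Fintype.card_fin]) ((P.filter (pr r)).image φ)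
      (fun x hx => by
        obtain ⟨b, hb, rfl⟩ := Finset.mem_image.mp hx
        obtain ⟨b', e1, e2⟩ := (Finset.mem_filter.mp hb).2
        exact ⟨hfr b, φ b', hfr b', e1 F ((f5 F).mpr dvd_rfl),
          fun i => gg_pow hp2 i _ _ (e2 i i.2)⟩)
    rwa [Fintype.card_fin, Finset.card_image_of_injective _ hinj] at hs
  have cover : P ⊆ R.biUnion fun r => P.filter (pr r) := by
    intro b hb
    obtain ⟨b0, b1, b', hl, hbits⟩ := hP b hb
    obtain ⟨w, hw, hq⟩ := spec_point H E p hodd hn1 P₀ G hu b b' b0 b1 hl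
    obtain ⟨r, hr, hc⟩ := hR1 w hw
    exact Finset.mem_biUnion.mpr ⟨r, hr, Finset.mem_filter.mpr
      ⟨hb, b', fun q e => hq q ((hc q).mp e), hbits⟩⟩
  calc P.card * 2 ^ k ≤ (∑ r ∈ R, (P.filter (pr r)).card) * 2 ^ k :=
        Nat.mul_le_mul_right _ ((Finset.card_le_card cover).trans Finset.card_biUnion_le)
    _ ≤ ∑ _r ∈ R, 12 * p := by
        rw [Finset.sum_mul]
        exact Finset.sum_le_sum key
    _ ≤ 48 * p := by
        rw [Finset.sum_const, smul_eq_mul]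
        nlinarith [Nat.zero_le p]

end Pool.Agent.Lib.MP_4a1067_nt.Am
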