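import Mathlib
import Pool.Agent.Lib.MP_4a1067_nt.AmBasic

/-! A second moment count of split triples. -/

namespace Pool.Agent.Lib.MP_4a1067_nt.Am

open Finset

lemma amcount_shift {P : ℕ → Prop} {q : ℕ} (hP : ∀ i, P (i + q) ↔ P i) (k i : ℕ) :
    P (k * q + i) ↔ P i := by
  induction k with
  | zero => simp
  | succ k ih => rw [← ih, ← hP (k * q + i)]; congr! 1; ring

lemma amcount_block {P : ℕ → Prop} [DecidablePred P] {q : ℕ} (hP : ∀ i, P (i + q) ↔ P i)
    (k : ℕ) : ((range (k * q)).filter P).card = k * ((range q).filter P).card := by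
  induction k with
  | zero => simp
  | succ k ih =>
    rw [card_filter] at ih
    rw [Nat.succ_mul, card_filter, sum_range_add, ih, Nat.succ_mul, card_filter]
    congr 1
    exact sum_congr rfl fun i _ => if_congr (amcount_shift hP k i) rfl rfl

lemma amcount_lower {P : ℕ → Prop} [DecidablePred P] {A T : ℕ} (hP : ∀ i, P (i + A) ↔ P i)
    (h1 : 50 ≤ A) (h2 : 50 * A ≤ T) (h3 : A ≤ 2 * ((range A).filter P).card + 3) :
    2303 * T ≤ 5000 * ((range T).filter P).card := by
  have a1 : ((range (T / A * A)).filter P).card ≤ ((range T).filter P).card :=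
    card_le_card (filter_subset_filter _ (range_subset_range.2 (Nat.div_mul_le_self T A)))
  rw [amcount_block hP] at a1
  have a2 : T < T / A * A + A := Nat.lt_div_mul_add (by omega)
  have a3 : T / A * (47 * A) ≤ T / A * (100 * ((range A).filter P).card) :=
    Nat.mul_le_mul_left _ (by omega)
  have a4 : T / A * (47 * A) = 47 * (T / A * A) := by ring
  have a5 : T / A * (100 * ((range A).filter P).card) =
    100 * (T / A * ((range A).filter P).card) := by ring
  omega

lemma amcount_crt {P Q : ℕ → Prop} [DecidablePred P] [DecidablePred Q] {a b : ℕ}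
    (hP : ∀ i, P (i + a) ↔ P i) (hQ : ∀ i, Q (i + b) ↔ Q i) (ha : 0 < a) (hb : 0 < b)
    (hab : a.Coprime b) :
    ((range (a * b)).filter fun i => P i ∧ Q i).card ≤
      ((range a).filter P).card * ((range b).filter Q).card := by
  rw [← card_product]
  refine card_le_card_of_injOn (fun i => (i % a, i % b)) (fun i hi => ?_) fun i hi j hj h => ?_
  · obtain ⟨_, p, q⟩ := mem_filter.1 (mem_coe.1 hi)
    refine mem_coe.2 (mem_product.2 ⟨mem_filter.2 ⟨mem_range.2 (Nat.mod_lt _ ha), ?_⟩,
      mem_filter.2 ⟨mem_range.2 (Nat.mod_lt _ hb), ?_⟩⟩)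
    · rw [← amcount_shift hP (i / a), Nat.div_add_mod']; exact p
    · rw [← amcount_shift hQ (i / b), Nat.div_add_mod']; exact q
  · obtain ⟨e1, e2⟩ := Prod.mk.inj h
    exact Nat.ModEq.eq_of_lt_of_lt ((Nat.modEq_and_modEq_iff_modEq_mul hab).1 ⟨e1, e2⟩)
      (mem_range.1 (mem_filter.1 (mem_coe.1 hi)).1) (mem_range.1 (mem_filter.1 (mem_coe.1 hj)).1)

lemma amcount_upper {P Q : ℕ → Prop} [DecidablePred P] [DecidablePred Q] {a b T : ℕ}
    (hP : ∀ i, P (i + a) ↔ P i) (hQ : ∀ i, Q (i + b) ↔ Q i) (ha : 0 < a) (hb : 0 < b)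
    (hab : a.Coprime b) (h1 : 2000 * ((range a).filter P).card ≤ 1003 * a)
    (h2 : 2000 * ((range b).filter Q).card ≤ 1003 * b) (h3 : 100 * (a * b) ≤ T) :
    10000 * ((range T).filter fun i => P i ∧ Q i).card ≤ 2541 * T := by
  have hm : 0 < a * b := Nat.mul_pos ha hb
  have a0 : T < T / (a * b) * (a * b) + a * b := Nat.lt_div_mul_add hm
  have a1 : ((range T).filter fun i => P i ∧ Q i).card ≤
      ((range ((T / (a * b) + 1) * (a * b))).filter fun i => P i ∧ Q i).card :=
    card_le_card (filter_subset_filter _ (range_subset_range.2 (by rw [Nat.succ_mul]; omega)))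
  rw [amcount_block (P := fun i => P i ∧ Q i) fun i => and_congr
    (by rw [add_comm, mul_comm]; exact amcount_shift hP b i)
    (by rw [add_comm]; exact amcount_shift hQ a i)] at a1
  have a2 := amcount_crt hP hQ ha hb hab
  have a3 := Nat.mul_le_mul h1 h2
  have a4 := Nat.div_mul_le_self T (a * b)
  generalize ((range a).filter P).card = x at *
  generalize ((range b).filter Q).card = y at *
  generalize ((range (a * b)).filter fun i => P i ∧ Q i).card = z at *
  generalize T / (a * b) = k at *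
  have a5 : 4000000 * z ≤ 1006009 * (a * b) := by
    have e1 : 2000 * x * (2000 * y) = 4000000 * (x * y) := by ring
    have e2 : 1003 * a * (1003 * b) = 1006009 * (a * b) := by ring
    omega
  have a6 := Nat.mul_le_mul_left (k + 1) a5
  have e3 : (k + 1) * (4000000 * z) = 4000000 * ((k + 1) * z) := by ring
  have e4 : (k + 1) * (1006009 * (a * b)) = 1006009 * (k * (a * b)) + 1006009 * (a * b) := by ring
  omega

theorem count (T L : ℕ) (𝒜 ℒ : Finset ℕ) (good : ℕ → ℕ → Prop) [∀ q i, Decidable (good q i)]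
    (hper : ∀ q i, good q (i + q) ↔ good q i)
    (hA : ∀ A ∈ 𝒜, 50 ≤ A ∧ 50 * A ≤ T ∧ A ≤ 2 * ((Finset.range A).filter (good A)).card + 3)
    (hL : ∀ ℓ ∈ ℒ, ℓ.Prime ∧ 1000 ≤ ℓ ∧ ℓ ≤ L ∧
      ℓ ≤ 2 * ((Finset.range ℓ).filter (good ℓ)).card + 3)
    (h100 : 100 ≤ ℒ.card) (hLT : 100 * L ^ 2 ≤ T) :
    T * 𝒜.card * ℒ.card ≤ 11 * ((Finset.range T ×ˢ 𝒜 ×ˢ ℒ).filter
      fun x => good x.2.1 x.1 ∧ good x.2.2 x.1).card := by
  set a : ℕ → ℕ := fun i => (𝒜.filter fun A => good A i).card with ha
  set g : ℕ → ℕ := fun i => (ℒ.filter fun l => good l i).card with hg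
  set b : ℕ → ℕ := fun i => (ℒ.filter fun l => ¬ good l i).card with hb
  have hN : ((range T ×ˢ 𝒜 ×ˢ ℒ).filter fun x => good x.2.1 x.1 ∧ good x.2.2 x.1).card =
      ∑ i ∈ range T, a i * g i := by
    rw [card_filter, sum_product]
    refine sum_congr rfl fun i _ => ?_
    rw [← card_filter, ha, hg, ← card_product, ← filter_product]
  have h1 : 𝒜.card * (2303 * T) ≤ 5000 * ∑ i ∈ range T, a i := by
    have : ∑ i ∈ range T, a i = ∑ A ∈ 𝒜, ((range T).filter (good A)).card := by
      simp only [ha, card_filter]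
      exact sum_comm
    rw [this, mul_sum, ← smul_eq_mul]
    exact card_nsmul_le_sum _ _ _ fun A h =>
      amcount_lower (hper A) (hA A h).1 (hA A h).2.1 (hA A h).2.2
  have hbad : ∀ l ∈ ℒ, 2000 * ((range l).filter fun i => ¬ good l i).card ≤ 1003 * l := by
    intro l h
    have := card_filter_add_card_filter_not (s := range l) (good l)
    rw [card_range] at this
    obtain ⟨_, b1, _, b2⟩ := hL l h
    omega
  have h2 : 10000 * ∑ i ∈ range T, b i ^ 2 ≤ ℒ.card * (10000 * T + ℒ.card * (2541 * T)) := by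
    have : ∑ i ∈ range T, b i ^ 2 = ∑ l ∈ ℒ, ∑ l' ∈ ℒ,
        ((range T).filter fun i => ¬ good l i ∧ ¬ good l' i).card := by
      simp only [hb, card_filter, sq, sum_mul_sum]
      rw [sum_comm]
      refine sum_congr rfl fun l _ => ?_
      rw [sum_comm]
      refine sum_congr rfl fun l' _ => sum_congr rfl fun i _ => ?_
      by_cases p : good l i <;> by_cases q : good l' i <;> simp [p, q]
    rw [this, mul_sum, ← smul_eq_mul]
    refine sum_le_card_nsmul _ _ _ fun l h => ?_
    rw [← add_sum_erase _ _ h, mul_add, mul_sum]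
    refine add_le_add (Nat.mul_le_mul_left _ ((card_filter_le _ _).trans (card_range T).le)) ?_
    refine (sum_le_card_nsmul _ _ (2541 * T) fun l' h' => ?_).trans ?_
    · obtain ⟨n1, h'⟩ := mem_erase.1 h'
      obtain ⟨p1, _, p2, _⟩ := hL l h
      obtain ⟨q1, _, q2, _⟩ := hL l' h'
      refine amcount_upper (fun i => not_congr (hper l i)) (fun i => not_congr (hper l' i))
        p1.pos q1.pos ((Nat.coprime_primes p1 q1).2 n1.symm) (hbad l h) (hbad l' h') ?_
      have := Nat.mul_le_mul p2 q2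
      rw [sq] at hLT
      omega
    · rw [smul_eq_mul]
      exact Nat.mul_le_mul_right _ (card_erase_le)
  have h3 : ℒ.card ^ 2 * ∑ i ∈ range T, a i ≤
      2 * ℒ.card * ∑ i ∈ range T, a i * g i + 𝒜.card * ∑ i ∈ range T, b i ^ 2 := by
    rw [mul_sum, mul_sum, mul_sum, ← sum_add_distrib]
    refine sum_le_sum fun i _ => ?_
    have e : g i + b i = ℒ.card := card_filter_add_card_filter_not _
    have e' : a i * b i ^ 2 ≤ 𝒜.card * b i ^ 2 := Nat.mul_le_mul_right _ (card_filter_le _ _)
    rw [← e]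
    nlinarith [Nat.zero_le (a i * g i ^ 2)]
  rw [hN]
  generalize ∑ i ∈ range T, a i * g i = N at *
  generalize ∑ i ∈ range T, a i = S at *
  generalize ∑ i ∈ range T, b i ^ 2 = B at *
  generalize 𝒜.card = α at *
  generalize ℒ.card = m at *
  have c1 := Nat.mul_le_mul_left (m ^ 2) h1
  have c2 := Nat.mul_le_mul_left α h2
  have c3 := Nat.mul_le_mul_left (α * m * T) h100
  refine Nat.le_of_mul_le_mul_left (c := m) ?_ (by omega)
  have e1 : m ^ 2 * (α * (2303 * T)) = 2303 * (m * (T * α * m)) := by ring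
  have e2 : m ^ 2 * (5000 * S) = 5000 * (m ^ 2 * S) := by ring
  have e3 : α * (10000 * B) = 10000 * (α * B) := by ring
  have e4 : α * (m * (10000 * T + m * (2541 * T))) =
    10000 * (α * m * T) + 2541 * (m * (T * α * m)) := by ring
  have e5 : α * m * T * m = m * (T * α * m) := by ring
  have e6 : 2 * m * N = 2 * (m * N) := by ring
  have e7 : m * (11 * N) = 11 * (m * N) := by ring
  omega

end Pool.Agent.Lib.MP_4a1067_nt.Am
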