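import Mathlib
import Pool.Agent.Lib.MP_4a1067_nt.AmBasic

/-! Choice of the parameters. -/

namespace Pool.Agent.Lib.MP_4a1067_nt.Am

/-- admissible parameters for the amplifier -/
structure Adm (p T L k : ℕ) (𝒜 ℒ : Finset ℕ) : Prop where
  T₁ : 16 * T ^ 2 < p
  T₂ : p ≤ 25 * T ^ 2
  hA : ∀ A ∈ 𝒜, A.Prime ∧ 50 ≤ A ∧ 50 * A ≤ T
  hL : ∀ ℓ ∈ ℒ, ℓ.Prime ∧ 60 * 2 ^ (12 + k) < ℓ ∧ ℓ ≤ L
  card : 100 ≤ ℒ.card
  LT : 100 * L ^ 2 ≤ T
  sz : 40 * (2 ^ k) ^ 2 * ((L + 1) ^ 2) ^ 4 ≤ p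

theorem amparams_cnt {m : ℕ} (hm : 200 ^ 4 ≤ m) :
    (m : ℝ) ≤ ((Finset.Ioc m (8 * m)).filter Nat.Prime).card * Real.log (8 * m : ℕ) ∧
      100 ≤ ((Finset.Ioc m (8 * m)).filter Nat.Prime).card := by
  have hm' : (200 : ℝ) ^ 4 ≤ m := by exact_mod_cast hm
  have h1 := Chebyshev.theta_ge (8 * m)
  have h2 := Chebyshev.theta_le_log4_mul_x (x := m) (by positivity)
  have h3 : Chebyshev.theta ((8 * m : ℕ) : ℝ) = Chebyshev.theta m +
      ∑ q ∈ (Finset.Ioc m (8 * m)).filter Nat.Prime, Real.log q := by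
    simp only [Chebyshev.theta, Nat.floor_natCast, Finset.sum_filter]
    rw [Finset.sum_Ioc_consecutive _ (Nat.zero_le m) (by omega)]
  have h4 : ∑ q ∈ (Finset.Ioc m (8 * m)).filter Nat.Prime, Real.log q ≤
      ((Finset.Ioc m (8 * m)).filter Nat.Prime).card * Real.log (8 * m : ℕ) := by
    rw [← nsmul_eq_mul]
    refine Finset.sum_le_card_nsmul _ _ _ fun q hq => ?_
    obtain ⟨hq1, hq2⟩ := Finset.mem_filter.1 hq
    exact Real.log_le_log (by exact_mod_cast hq2.pos) (by exact_mod_cast (Finset.mem_Ioc.1 hq1).2)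
  set y : ℝ := √(√(9 * m)) with hy
  have y0 : 0 ≤ y := Real.sqrt_nonneg _
  have y2 : y ^ 2 = √(9 * m) := Real.sq_sqrt (Real.sqrt_nonneg _)
  have y4 : y ^ 4 = 9 * m := by
    rw [show y ^ 4 = (y ^ 2) ^ 2 by ring, y2, Real.sq_sqrt (by positivity)]
  have y1 : 200 ≤ y := by
    refine le_of_not_gt fun h => ?_
    have := pow_lt_pow_left₀ h y0 (n := 4) (by norm_num)
    linarith
  have hl : Real.log (9 * m) ≤ 4 * y := by
    rw [← y4, Real.log_pow]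
    have := Real.log_le_self y0
    push_cast
    linarith
  have l1 : Real.log ((8 * m : ℕ) + 1) ≤ 4 * y :=
    (Real.log_le_log (by positivity) (by push_cast; linarith)).trans hl
  have l2 : Real.log (8 * m : ℕ) ≤ 4 * y :=
    (Real.log_le_log (by push_cast; linarith) (by push_cast; linarith)).trans hl
  have l0 : 0 < Real.log (8 * m : ℕ) := Real.log_pos (by push_cast; linarith)
  have s1 : √((8 * m : ℕ) : ℝ) ≤ y ^ 2 := by
    rw [y2]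
    exact Real.sqrt_le_sqrt (by push_cast; linarith)
  have s2 : √((8 * m : ℕ) : ℝ) * Real.log (8 * m : ℕ) ≤ y ^ 2 * (4 * y) :=
    mul_le_mul s1 l2 l0.le (by positivity)
  have y3 : 200 * y ^ 3 ≤ 9 * m := by
    rw [← y4]
    nlinarith [pow_nonneg y0 3]
  have y5 : 40000 * y ≤ y ^ 3 := by nlinarith [mul_nonneg y0 y0]
  have l4 : Real.log 4 = 2 * Real.log 2 := by
    rw [show (4 : ℝ) = 2 ^ 2 by norm_num, Real.log_pow]
    norm_num
  have l5 : (m : ℝ) * (1 / 2) ≤ m * Real.log 2 :=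
    mul_le_mul_of_nonneg_left (by linarith [Real.log_two_gt_d9]) (by positivity)
  have main : (m : ℝ) ≤
      ((Finset.Ioc m (8 * m)).filter Nat.Prime).card * Real.log (8 * m : ℕ) := by
    rw [l4] at h2
    have e : ((8 * m : ℕ) : ℝ) * Real.log 2 = 8 * (m * Real.log 2) := by
      push_cast
      ring
    rw [e] at h1
    nlinarith
  refine ⟨main, ?_⟩
  have h5 : 100 * Real.log (8 * m : ℕ) ≤
      ((Finset.Ioc m (8 * m)).filter Nat.Prime).card * Real.log (8 * m : ℕ) := by linarith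
  exact_mod_cast le_of_mul_le_mul_right h5 l0

theorem amparams_root {x y : ℝ} (hx : 0 ≤ x) (hy : 0 ≤ y) {n : ℕ} (hn : n ≠ 0) (h : x ≤ y ^ n) :
    x ^ ((n : ℝ)⁻¹) ≤ y := by
  have := Real.rpow_le_rpow hx h (z := (n : ℝ)⁻¹) (by positivity)
  rwa [Real.pow_rpow_inv_natCast hy hn] at this

theorem params : ∃ c : ℝ, 0 < c ∧ ∃ p₀ : ℕ, ∀ p : ℕ, p₀ ≤ p →
    ∃ (T L k : ℕ) (𝒜 ℒ : Finset ℕ), Adm p T L k 𝒜 ℒ ∧
      c * (p : ℝ) ^ (3 / 5 : ℝ) / Real.log p ≤ (T * ℒ.card : ℕ) ∧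
      c * (p : ℝ) ^ (3 / 5 : ℝ) / Real.log p ≤ (𝒜.card * 2 ^ k : ℕ) := by
  obtain ⟨p₀, hp₀⟩ : ∃ p₀, ∀ p, p₀ ≤ p → p ≠ 0 ∧ 314 ≤ Nat.log 2 p := by
    have : ∀ n p, 2 ^ n ≤ p → p ≠ 0 ∧ n ≤ Nat.log 2 p := fun n p hp =>
      ⟨((Nat.two_pow_pos n).trans_le hp).ne', Nat.le_log_of_pow_le (by norm_num) hp⟩
    exact ⟨_, this 314⟩
  refine ⟨1 / (4000 * 2 ^ 19), by positivity, p₀, fun p hp => ?_⟩
  obtain ⟨hp0, hlog⟩ := hp₀ p hp
  obtain ⟨k, hk⟩ : ∃ k, k = (Nat.log 2 p - 174) / 10 := ⟨_, rfl⟩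
  have k0 : 14 ≤ k := by omega
  have k1 : 2 ^ (174 + 10 * k) ≤ p :=
    (Nat.pow_le_pow_right (by norm_num) (by omega)).trans (Nat.pow_log_le_self 2 hp0)
  have k2 : p ≤ 2 ^ (190 + 10 * k) :=
    (Nat.lt_pow_succ_log_self (b := 2) (by norm_num) p).le.trans
      (Nat.pow_le_pow_right (by norm_num) (by omega))
  obtain ⟨K, hK⟩ : ∃ K, K = 2 ^ k := ⟨_, rfl⟩
  have K0 : 2 ^ 14 ≤ K := hK ▸ Nat.pow_le_pow_right (by norm_num) k0
  rw [pow_add, mul_comm 10 k, pow_mul, ← hK] at k1 k2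
  have K1 : 1 ≤ K := le_trans (by norm_num) K0
  have K2 : K ^ 4 ≤ K ^ 10 := Nat.pow_le_pow_right K1 (by norm_num)
  have K3 : K ≤ K ^ 10 := Nat.le_self_pow (by norm_num) K
  have K4 : 1 ≤ K ^ 2 := Nat.one_le_pow _ _ K1
  obtain ⟨T, hT⟩ : ∃ T, T = Nat.sqrt ((p - 1) / 16) := ⟨_, rfl⟩
  have T1 : T ^ 2 ≤ (p - 1) / 16 := hT ▸ Nat.sqrt_le' _
  have T2 : (p - 1) / 16 < (T + 1) ^ 2 := hT ▸ Nat.lt_succ_sqrt' _
  have T3 : p ≤ 16 * (T + 1) ^ 2 := by omega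
  have T4 : 4 ≤ T := by
    refine le_of_not_gt fun h => ?_
    have : (T + 1) ^ 2 ≤ 4 ^ 2 := Nat.pow_le_pow_left (by omega) 2
    omega
  have T5 : p ≤ 25 * T ^ 2 := by
    have h1 : (4 * (T + 1)) ^ 2 ≤ (5 * T) ^ 2 := Nat.pow_le_pow_left (by omega) 2
    rw [mul_pow, mul_pow] at h1
    omega
  have T6 : 2 ^ 49 * K ^ 2 ≤ T := by
    refine le_of_not_gt fun h => ?_
    have h1 : T ^ 2 ≤ (2 ^ 49 * K ^ 2) ^ 2 := Nat.pow_le_pow_left h.le 2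
    rw [mul_pow, ← pow_mul K] at h1
    norm_num at h1 k1
    omega
  have T7 : T ≤ p := by
    have := Nat.le_self_pow (n := 2) (by norm_num) T
    omega
  obtain ⟨M, hM⟩ : ∃ M, M = 60 * 2 ^ (12 + k) := ⟨_, rfl⟩
  have M1 : M = 245760 * K := by
    rw [hM, pow_add, ← hK]
    ring
  obtain ⟨m, hm⟩ : ∃ m, m = T / 400 := ⟨_, rfl⟩
  obtain ⟨a1, -⟩ := amparams_cnt (m := m) (by omega)
  obtain ⟨b1, b2⟩ := amparams_cnt (m := M) (by omega)
  have hp1 : (1 : ℝ) < p := by exact_mod_cast (by omega : 1 < p)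
  have l0 := Real.log_pos hp1
  have a2 : Real.log (8 * m : ℕ) ≤ Real.log p :=
    Real.log_le_log (by exact_mod_cast (by omega : 0 < 8 * m))
      (by exact_mod_cast (by omega : 8 * m ≤ p))
  have b3 : Real.log (8 * M : ℕ) ≤ Real.log p :=
    Real.log_le_log (by exact_mod_cast (by omega : 0 < 8 * M))
      (by exact_mod_cast (by omega : 8 * M ≤ p))
  have r1 : (p : ℝ) ^ (3 / 5 : ℝ) ≤ 5 * T * (2 ^ 19 * K) := by
    rw [show (3 / 5 : ℝ) = ((2 : ℕ) : ℝ)⁻¹ + ((10 : ℕ) : ℝ)⁻¹ by norm_num,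
      Real.rpow_add (by linarith)]
    refine mul_le_mul (amparams_root (by linarith) (by positivity) (by norm_num) ?_)
      (amparams_root (by linarith) (by positivity) (by norm_num) ?_) (by positivity)
      (by positivity)
    · have : (p : ℝ) ≤ 25 * T ^ 2 := by exact_mod_cast T5
      linarith [show (5 * T : ℝ) ^ 2 = 25 * T ^ 2 by ring]
    · rw [mul_pow, ← pow_mul]
      exact_mod_cast k2
  have r2 : 1 / (4000 * 2 ^ 19) * (p : ℝ) ^ (3 / 5 : ℝ) ≤ T * K / 800 := by linarith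
  refine ⟨T, 8 * M, k, (Finset.Ioc m (8 * m)).filter Nat.Prime,
    (Finset.Ioc M (8 * M)).filter Nat.Prime, ⟨by omega, T5, fun A hA => ?_, fun l hl => ?_, b2,
      ?_, ?_⟩, ?_, ?_⟩
  · obtain ⟨h1, h2⟩ := Finset.mem_filter.1 hA
    have h3 := Finset.mem_Ioc.1 h1
    exact ⟨h2, by omega, by omega⟩
  · obtain ⟨h1, h2⟩ := Finset.mem_filter.1 hl
    have h3 := Finset.mem_Ioc.1 h1
    exact ⟨h2, hM ▸ h3.1, h3.2⟩
  · rw [M1, ← mul_assoc, mul_pow]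
    omega
  · have h1 : ((8 * M + 1) ^ 2) ^ 4 ≤ ((2 ^ 21 * K) ^ 2) ^ 4 :=
      Nat.pow_le_pow_left (Nat.pow_le_pow_left (by omega) 2) 4
    rw [← hK]
    refine (Nat.mul_le_mul_left _ h1).trans (le_trans ?_ k1)
    rw [show 40 * K ^ 2 * ((2 ^ 21 * K) ^ 2) ^ 4 = 40 * 2 ^ 168 * K ^ 10 by ring]
    exact Nat.mul_le_mul_right _ (by norm_num)
  · rw [div_le_iff₀ l0]
    refine r2.trans ?_
    have h1 : (K : ℝ) ≤ M := by exact_mod_cast (by omega : K ≤ M)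
    have h2 := mul_le_mul_of_nonneg_left b3
      (Nat.cast_nonneg (α := ℝ) ((Finset.Ioc M (8 * M)).filter Nat.Prime).card)
    have h3 := mul_le_mul_of_nonneg_left (h1.trans (b1.trans h2)) (Nat.cast_nonneg (α := ℝ) T)
    have h4 : (0 : ℝ) ≤ T * K := by positivity
    push_cast
    linarith
  · rw [div_le_iff₀ l0, ← hK]
    refine r2.trans ?_
    have h1 : (T : ℝ) ≤ 800 * m := by exact_mod_cast (by omega : T ≤ 800 * m)
    have h2 := mul_le_mul_of_nonneg_left a2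
      (Nat.cast_nonneg (α := ℝ) ((Finset.Ioc m (8 * m)).filter Nat.Prime).card)
    have h3 := mul_le_mul_of_nonneg_right (a1.trans h2) (Nat.cast_nonneg (α := ℝ) K)
    have h4 := mul_le_mul_of_nonneg_right h1 (Nat.cast_nonneg (α := ℝ) K)
    push_cast
    linarith

end Pool.Agent.Lib.MP_4a1067_nt.Am
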