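import Mathlib
import Pool.Agent.Lib.MP_4a1067_nt.AmCurve
import Pool.Agent.Lib.MP_4a1067_nt.AmFam
import Pool.Agent.Lib.MP_4a1067_nt.AmCount
import Pool.Agent.Lib.MP_4a1067_nt.AmParams
import Pool.Agent.Lib.MP_4a1067_nt.AmInj

/-! The amplifier inequality. -/

namespace Pool.Agent.Lib.MP_4a1067_nt.Am

/-- Cauchy-Schwarz for the fibres of a map -/
lemma amamp_cs {α γ : Type*} [DecidableEq γ] (Ω : Finset α) (φ : α → γ) (S : Finset γ)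
    (h : ∀ x ∈ Ω, φ x ∈ S) :
    Ω.card ^ 2 ≤ S.card * ((Ω ×ˢ Ω).filter fun z => φ z.1 = φ z.2).card := by
  classical
  have h1 : Ω.card = ∑ c ∈ S, (Ω.filter fun x => φ x = c).card :=
    Finset.card_eq_sum_card_fiberwise (f := φ) fun x hx => h x hx
  have h2 : ((Ω ×ˢ Ω).filter fun z => φ z.1 = φ z.2).card
      = ∑ c ∈ S, (Ω.filter fun x => φ x = c).card ^ 2 := by
    rw [Finset.card_eq_sum_card_fiberwise (f := fun z : α × α => φ z.1) (t := S)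
      (fun z hz => h z.1 (Finset.mem_product.mp (Finset.mem_filter.mp hz).1).1)]
    refine Finset.sum_congr rfl fun c _ => ?_
    rw [sq, ← Finset.card_product]
    congr 1
    ext z
    simp only [Finset.mem_filter, Finset.mem_product]
    constructor
    · rintro ⟨⟨⟨a, b⟩, e⟩, f⟩
      exact ⟨⟨a, f⟩, b, e ▸ f⟩
    · rintro ⟨⟨a, e⟩, b, f⟩
      exact ⟨⟨⟨a, b⟩, e.trans f.symm⟩, e⟩
  rw [h2, h1]
  exact sq_sum_le_card_mul_sum_sq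

/-- the final numerical step -/
lemma amamp_num {T a l W I K : ℕ} (ha : 0 < a) (hl : 0 < l) (hT : 0 < T)
    (h1 : T * a * l ≤ 11 * W) (h2 : W ^ 2 * K ≤ a * I * (W * K + 1225 * (l ^ 2 * T ^ 2)))
    (hK : 0 < K) : min (T * l) (a * K) ≤ 300000 * I := by
  have hW : 0 < W := by
    have : 0 < T * a * l := by positivity
    omega
  rcases le_total (1225 * (l ^ 2 * T ^ 2)) (W * K) with h | h
  · refine (min_le_left _ _).trans ?_
    have h3 : W * (W * K) ≤ 2 * (a * I) * (W * K) := by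
      calc W * (W * K) = W ^ 2 * K := by ring
        _ ≤ a * I * (W * K + 1225 * (l ^ 2 * T ^ 2)) := h2
        _ ≤ a * I * (W * K + W * K) := Nat.mul_le_mul_left _ (Nat.add_le_add_left h _)
        _ = 2 * (a * I) * (W * K) := by ring
    have h4 : W ≤ 2 * (a * I) := Nat.le_of_mul_le_mul_right h3 (by positivity)
    have h5 : a * (T * l) ≤ a * (22 * I) := by
      calc a * (T * l) = T * a * l := by ring
        _ ≤ 11 * W := h1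
        _ ≤ 11 * (2 * (a * I)) := Nat.mul_le_mul_left _ h4
        _ = a * (22 * I) := by ring
    have := Nat.le_of_mul_le_mul_left h5 ha
    omega
  · refine (min_le_right _ _).trans ?_
    have h3 : (a * (l ^ 2 * T ^ 2)) * (a * K) ≤ (a * (l ^ 2 * T ^ 2)) * (296450 * I) := by
      calc (a * (l ^ 2 * T ^ 2)) * (a * K) = (T * a * l) ^ 2 * K := by ring
        _ ≤ (11 * W) ^ 2 * K := Nat.mul_le_mul_right _ (Nat.pow_le_pow_left h1 2)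
        _ = 121 * (W ^ 2 * K) := by ring
        _ ≤ 121 * (a * I * (W * K + 1225 * (l ^ 2 * T ^ 2))) := Nat.mul_le_mul_left _ h2
        _ ≤ 121 * (a * I * (1225 * (l ^ 2 * T ^ 2) + 1225 * (l ^ 2 * T ^ 2))) :=
          Nat.mul_le_mul_left _ (Nat.mul_le_mul_left _ (Nat.add_le_add_right h _))
        _ = (a * (l ^ 2 * T ^ 2)) * (296450 * I) := by ring
    have := Nat.le_of_mul_le_mul_left h3 (by positivity)
    omega

/-- small positive integers with the same square modulo `p` are equal -/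
lemma amamp_sq_inj (p : ℕ) [Fact p.Prime] (hp2 : p ≠ 2) {s t : ℤ} (hs : 0 < s) (ht : 0 < t)
    (hst : s + t < p) (h : ((2 * s : ℤ) : ZMod p) ^ 2 = ((2 * t : ℤ) : ZMod p) ^ 2) : s = t := by
  have hp : p.Prime := Fact.out
  have h2 : (2 : ZMod p) ≠ 0 := by
    intro h
    have : ((2 : ℕ) : ZMod p) = 0 := by exact_mod_cast h
    rw [ZMod.natCast_eq_zero_iff] at this
    exact hp2 ((Nat.prime_dvd_prime_iff_eq hp Nat.prime_two).mp this)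
  have h3 : (2 : ZMod p) * 2 * (((s + t : ℤ) : ZMod p) * ((s - t : ℤ) : ZMod p)) = 0 := by
    push_cast at h ⊢
    linear_combination h
  rcases mul_eq_zero.mp ((mul_eq_zero.mp h3).resolve_left (mul_ne_zero h2 h2)) with h4 | h4
  · rw [ZMod.intCast_zmod_eq_zero_iff_dvd] at h4
    have := Int.le_of_dvd (by omega) h4
    omega
  · rw [ZMod.intCast_zmod_eq_zero_iff_dvd] at h4
    have := Int.eq_zero_of_abs_lt_dvd h4 (abs_lt.mpr ⟨by omega, by omega⟩)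
    omega

/-- linked pairs with conjugate maps are few -/
lemma amamp_pairs (p : ℕ) [Fact p.Prime] (hp2 : p ≠ 2) (ℓ ℓ' k ψ : ℕ) (hℓ : ℓ.Prime)
    (hℓ' : ℓ'.Prime) (hne : ℓ ≠ ℓ') (hk : 60 * 2 ^ (12 + k) < ℓ) (hk' : 60 * 2 ^ (12 + k) < ℓ')
    (hψ : (ℓ + 1) * (ℓ' + 1) ≤ ψ) (hsz : 40 * (2 ^ k) ^ 2 * ψ ^ 4 ≤ p) (P : Finset (ZMod p))
    (hP : ∀ b ∈ P, b ≠ 0 ∧ b ≠ 1 ∧ ∃ b', Lnk p (ℓ * ℓ') b b' ∧
      ∃ σ : ZMod p ≃ ZMod p, ∀ x, σ (x ^ 2 + -2 / b) = σ x ^ 2 + -2 / b') :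
    P.card * 2 ^ k ≤ 49 * p := by
  classical
  have hp : p.Prime := Fact.out
  have h2 : (2 : ZMod p) ≠ 0 := by
    intro h
    have : ((2 : ℕ) : ZMod p) = 0 := by exact_mod_cast h
    rw [ZMod.natCast_eq_zero_iff] at this
    exact hp2 ((Nat.prime_dvd_prime_iff_eq hp Nat.prime_two).mp this)
  let bad : ZMod p → Prop := fun b => ∃ j < k, uu (12 + j) (-2 / b) = 0
  have e := Finset.card_filter_add_card_filter_not (s := P) bad
  have h1 : (P.filter bad).card ≤ 2 ^ (12 + k) := by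
    have inj : Set.InjOn (fun b : ZMod p => -2 / b) (P.filter bad : Finset (ZMod p)) := by
      intro b hb c hc hbc
      have b0 := (hP b (Finset.mem_filter.mp hb).1).1
      have c0 := (hP c (Finset.mem_filter.mp hc).1).1
      have hbc' : -2 / b = -2 / c := hbc
      rw [div_eq_div_iff b0 c0] at hbc'
      exact (mul_left_cancel₀ (neg_ne_zero.mpr h2) hbc').symm
    rw [← Finset.card_image_of_injOn inj]
    refine card_uu_zero k _ fun a ha => ?_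
    obtain ⟨b, hb, rfl⟩ := Finset.mem_image.mp ha
    exact (Finset.mem_filter.mp hb).2
  have h3 : (P.filter fun b => ¬ bad b).card * 2 ^ k ≤ 48 * p := by
    refine curve p ℓ ℓ' k ψ hℓ hℓ' hne hk hk' hψ hsz _ fun b hb => ?_
    obtain ⟨hb1, hb2⟩ := Finset.mem_filter.mp hb
    obtain ⟨b0, b1, b', hl, σ, hσ⟩ := hP b hb1
    refine ⟨b0, b1, b', hl, fun j hj => ?_⟩
    rw [← conj_uu h2 σ hσ]
    rcases uu_cases (12 + j) (-2 / b) with h | h | h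
    · exact absurd ⟨j, hj, h⟩ hb2
    · rw [h]; norm_num
    · rw [h]; norm_num
  have h4 : 2 ^ (12 + k) * 2 ^ k ≤ p := by
    refine le_trans ?_ hsz
    have a1 : 1 ≤ 2 ^ k := Nat.one_le_two_pow
    have a2 : 4096 ≤ ℓ := by
      rw [pow_add] at hk
      omega
    have a3 : 4096 ≤ ψ := by nlinarith
    have a4 : ψ ≤ ψ ^ 4 := Nat.le_self_pow (by norm_num) ψ
    calc 2 ^ (12 + k) * 2 ^ k = 1 * (2 ^ k) ^ 2 * 4096 := by ring
      _ ≤ 40 * (2 ^ k) ^ 2 * ψ ^ 4 :=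
        Nat.mul_le_mul (Nat.mul_le_mul_right _ (by norm_num)) (a3.trans a4)
  have h5 := Nat.mul_le_mul_right (2 ^ k) h1
  rw [← e, add_mul]
  omega

theorem amp (p : ℕ) [Fact p.Prime] {T L k : ℕ} {𝒜 ℒ : Finset ℕ} (h : Adm p T L k 𝒜 ℒ)
    {β : Type} [DecidableEq β] (cl : ZMod p → β)
    (hcl : ∀ a b, cl a = cl b → ∃ σ : ZMod p ≃ ZMod p, ∀ x, σ (x ^ 2 + a) = σ x ^ 2 + b) :
    min (T * ℒ.card) (𝒜.card * 2 ^ k) ≤ 300000 * (Finset.univ.image cl).card := by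
  classical
  have hp : p.Prime := Fact.out
  rcases Nat.eq_zero_or_pos 𝒜.card with ha | ha
  · rw [ha, zero_mul]; simp
  have hl : 0 < ℒ.card := lt_of_lt_of_le (by norm_num) h.card
  have hk1 : 1 ≤ 2 ^ k := Nat.one_le_two_pow
  have hbig : ∀ ℓ ∈ ℒ, 1000 ≤ ℓ := fun ℓ hℓ => by
    have := (h.hL ℓ hℓ).2.1
    rw [pow_add] at this
    omega
  have hL1 : 1000 ≤ L := by
    obtain ⟨ℓ, hℓ⟩ := Finset.card_pos.mp hl
    exact (hbig ℓ hℓ).trans (h.hL ℓ hℓ).2.2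
  have hLT : L ≤ T := by have := h.LT; nlinarith
  have hT : 1000 ≤ T := hL1.trans hLT
  have hTp : 4 * T < p := by have := h.T₁; nlinarith
  have hp2 : p ≠ 2 := by omega
  obtain ⟨s₀, hs1, hs2, hs4⟩ : ∃ s₀ : ℤ, 1 ≤ s₀ ∧ s₀ ≤ 2 ∧ (4 : ℤ) ∣ p + 1 - 2 * s₀ := by
    have := hp.eq_two_or_odd.resolve_left hp2
    by_cases h4 : p % 4 = 1
    · exact ⟨1, le_rfl, by norm_num, by omega⟩
    · exact ⟨2, by norm_num, le_rfl, by omega⟩
  have hfam : ∀ i : ℕ, ∃ b : ℕ → ℕ → ZMod p, i < T → ∀ A ℓ : ℕ, A.Prime → A ≠ 2 →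
      16 * A ^ 2 < 3 * p → Spl p A (s₀ + 2 * i) → ℓ.Prime → ℓ ≠ 2 → ℓ ≠ p →
      Spl p ℓ (s₀ + 2 * i) → b A ℓ ≠ 0 ∧ b A ℓ ≠ 1 ∧
        Hs (p / 2) (b A ℓ) ^ 2 = ((2 * (s₀ + 2 * i) : ℤ) : ZMod p) ^ 2 ∧
        (∀ A' : ℕ, A'.Prime → A' ≠ 2 → 16 * A' ^ 2 < 3 * p → Spl p A' (s₀ + 2 * i) →
          b A ℓ = b A' ℓ → A = A') ∧
        ∀ ℓ' : ℕ, ℓ'.Prime → ℓ' ≠ 2 → ℓ' ≠ p → Spl p ℓ' (s₀ + 2 * i) → ℓ ≠ ℓ' →
          Lnk p (ℓ * ℓ') (b A ℓ) (b A ℓ') := by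
    intro i
    by_cases hi : i < T
    · have hi' : (i : ℤ) + 1 ≤ T := by exact_mod_cast hi
      have hT1 : 16 * (T : ℤ) ^ 2 < p := by exact_mod_cast h.T₁
      obtain ⟨b, hb⟩ := cm_family p (s₀ + 2 * i) (by omega)
        (lt_of_le_of_lt (by nlinarith) hT1) (by omega)
      exact ⟨b, fun _ => hb⟩
    · exact ⟨fun _ _ => 0, fun h => absurd h hi⟩
  choose B hB using hfam
  have hAq : ∀ A ∈ 𝒜, A.Prime ∧ A ≠ 2 ∧ 16 * A ^ 2 < 3 * p ∧ ¬ A ∣ p := fun A hA => by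
    obtain ⟨a1, a2, a3⟩ := h.hA A hA
    have a4 := h.T₁
    refine ⟨a1, by omega, by nlinarith, fun hd => ?_⟩
    have := (Nat.prime_dvd_prime_iff_eq a1 hp).mp hd
    omega
  have hLq : ∀ ℓ ∈ ℒ, ℓ.Prime ∧ ℓ ≠ 2 ∧ ℓ ≠ p := fun ℓ hℓ => by
    obtain ⟨a1, a2, a3⟩ := h.hL ℓ hℓ
    have := hbig ℓ hℓ
    exact ⟨a1, by omega, by omega⟩
  have hcount := count T L 𝒜 ℒ (fun q i => Spl p q (s₀ + 2 * i)) (fun q i => spl_add p q s₀ i)
    (fun A hA => ⟨(h.hA A hA).2.1, (h.hA A hA).2.2,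
      card_spl p A (hAq A hA).1 (hAq A hA).2.1 (hAq A hA).2.2.2 s₀⟩)
    (fun ℓ hℓ => ⟨(hLq ℓ hℓ).1, hbig ℓ hℓ, (h.hL ℓ hℓ).2.2,
      card_spl p ℓ (hLq ℓ hℓ).1 (hLq ℓ hℓ).2.1
        (fun hd => (hLq ℓ hℓ).2.2 ((Nat.prime_dvd_prime_iff_eq (hLq ℓ hℓ).1 hp).mp hd)) s₀⟩)
    h.card h.LT
  set Ω := (Finset.range T ×ˢ 𝒜 ×ˢ ℒ).filter
    fun x => Spl p x.2.1 (s₀ + 2 * x.1) ∧ Spl p x.2.2 (s₀ + 2 * x.1) with hΩ
  have hmem : ∀ x ∈ Ω, x.1 < T ∧ x.2.1 ∈ 𝒜 ∧ x.2.2 ∈ ℒ ∧ Spl p x.2.1 (s₀ + 2 * x.1) ∧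
      Spl p x.2.2 (s₀ + 2 * x.1) := fun x hx => by
    obtain ⟨a1, a2⟩ := Finset.mem_filter.mp hx
    obtain ⟨a3, a4⟩ := Finset.mem_product.mp a1
    obtain ⟨a5, a6⟩ := Finset.mem_product.mp a4
    exact ⟨Finset.mem_range.mp a3, a5, a6, a2⟩
  have hpt := fun x (hx : x ∈ Ω) => hB x.1 (hmem x hx).1 x.2.1 x.2.2
    (hAq _ (hmem x hx).2.1).1 (hAq _ (hmem x hx).2.1).2.1 (hAq _ (hmem x hx).2.1).2.2.1
    (hmem x hx).2.2.2.1 (hLq _ (hmem x hx).2.2.1).1 (hLq _ (hmem x hx).2.2.1).2.1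
    (hLq _ (hmem x hx).2.2.1).2.2 (hmem x hx).2.2.2.2
  have hHs : ∀ x ∈ Ω, ∀ y ∈ Ω, Hs (p / 2) (B x.1 x.2.1 x.2.2) = Hs (p / 2) (B y.1 y.2.1 y.2.2) →
      x.1 = y.1 := fun x hx y hy e => by
    have a1 : (x.1 : ℤ) + 1 ≤ T := by exact_mod_cast (hmem x hx).1
    have a2 : (y.1 : ℤ) + 1 ≤ T := by exact_mod_cast (hmem y hy).1
    have a3 : 4 * (T : ℤ) < p := by exact_mod_cast hTp
    have := amamp_sq_inj p hp2 (s := s₀ + 2 * x.1) (t := s₀ + 2 * y.1) (by omega) (by omega)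
      (by omega) (by rw [← (hpt x hx).2.2.1, ← (hpt y hy).2.2.1, e])
    omega
  let φ : ℕ × ℕ × ℕ → ℕ × β := fun x => (x.2.1, cl (-2 / B x.1 x.2.1 x.2.2))
  have hcs := amamp_cs Ω φ (𝒜 ×ˢ Finset.univ.image cl) fun x hx =>
    Finset.mem_product.mpr ⟨(hmem x hx).2.1, Finset.mem_image_of_mem _ (Finset.mem_univ _)⟩
  rw [Finset.card_product] at hcs
  set Q := (Ω ×ˢ Ω).filter fun z => φ z.1 = φ z.2 with hQ
  have hQm : ∀ z ∈ Q, z.1 ∈ Ω ∧ z.2 ∈ Ω ∧ z.1.1 = z.2.1 ∧ z.1.2.1 = z.2.2.1 ∧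
      ∃ σ : ZMod p ≃ ZMod p, ∀ x, σ (x ^ 2 + -2 / B z.1.1 z.1.2.1 z.1.2.2)
        = σ x ^ 2 + -2 / B z.2.1 z.2.2.1 z.2.2.2 := fun z hz => by
    obtain ⟨a1, a2⟩ := Finset.mem_filter.mp hz
    obtain ⟨a3, a4⟩ := Finset.mem_product.mp a1
    obtain ⟨a5, a6⟩ := Prod.mk.inj a2
    obtain ⟨σ, hσ⟩ := hcl _ _ a6
    exact ⟨a3, a4, hHs _ a3 _ a4 (Hs_eq_of_conj p hp2 (hpt _ a3).1 (hpt _ a3).2.1 (hpt _ a4).1
      (hpt _ a4).2.1 σ hσ), a5, σ, hσ⟩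
  have e := Finset.card_filter_add_card_filter_not (s := Q) fun z => z.1.2.2 = z.2.2.2
  have hdiag : (Q.filter fun z => z.1.2.2 = z.2.2.2).card ≤ Ω.card := by
    refine Finset.card_le_card_of_injOn (fun z => z.1)
      (fun z hz => (hQm z (Finset.mem_filter.mp hz).1).1) fun z hz w hw hzw => ?_
    obtain ⟨a1, a2⟩ := Finset.mem_filter.mp hz
    obtain ⟨b1, b2⟩ := Finset.mem_filter.mp hw
    have e1 : z.1 = z.2 := Prod.ext (hQm z a1).2.2.1 (Prod.ext (hQm z a1).2.2.2.1 a2)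
    have e2 : w.1 = w.2 := Prod.ext (hQm w b1).2.2.1 (Prod.ext (hQm w b1).2.2.2.1 b2)
    have e3 : z.1 = w.1 := hzw
    exact Prod.ext e3 (by rw [← e1, ← e2, e3])
  have hoff : (Q.filter fun z => ¬ z.1.2.2 = z.2.2.2).card * 2 ^ k ≤ ℒ.card ^ 2 * (49 * p) := by
    rw [Finset.card_eq_sum_card_fiberwise (f := fun z : (ℕ × ℕ × ℕ) × ℕ × ℕ × ℕ =>
      (z.1.2.2, z.2.2.2)) (t := ℒ ×ˢ ℒ) (fun z hz => by
        have a1 := hQm z (Finset.mem_filter.mp hz).1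
        exact Finset.mem_product.mpr ⟨(hmem _ a1.1).2.2.1, (hmem _ a1.2.1).2.2.1⟩),
      Finset.sum_mul, sq, ← Finset.card_product, ← smul_eq_mul]
    refine Finset.sum_le_card_nsmul _ _ _ fun c hc => ?_
    obtain ⟨c1, c2⟩ := Finset.mem_product.mp hc
    by_cases hne : c.1 = c.2
    · rw [Finset.filter_eq_empty_iff.mpr, Finset.card_empty, zero_mul]
      · exact Nat.zero_le _
      · intro z hz ez
        apply (Finset.mem_filter.mp hz).2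
        rw [← ez] at hne
        exact hne
    set F := (Q.filter fun z => ¬ z.1.2.2 = z.2.2.2).filter fun z => (z.1.2.2, z.2.2.2) = c
      with hF
    have hFm : ∀ z ∈ F, z ∈ Q ∧ z.1.2.2 = c.1 ∧ z.2.2.2 = c.2 := fun z hz => by
      obtain ⟨a1, a2⟩ := Finset.mem_filter.mp hz
      exact ⟨(Finset.mem_filter.mp a1).1, by rw [← a2], by rw [← a2]⟩
    have inj : Set.InjOn (fun z : (ℕ × ℕ × ℕ) × ℕ × ℕ × ℕ => B z.1.1 z.1.2.1 z.1.2.2) F := by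
      intro z hz w hw hzw
      obtain ⟨a1, a2, a3⟩ := hFm z hz
      obtain ⟨b1, b2, b3⟩ := hFm w hw
      obtain ⟨z1, -, z3, z4, -⟩ := hQm z a1
      obtain ⟨w1, -, w3, w4, -⟩ := hQm w b1
      have e0 : B z.1.1 z.1.2.1 z.1.2.2 = B w.1.1 w.1.2.1 w.1.2.2 := hzw
      have e1 : z.1.1 = w.1.1 := hHs _ z1 _ w1 (by rw [e0])
      have e2 : z.1.2.1 = w.1.2.1 := by
        have q := hAq _ (hmem _ w1).2.1
        refine (hpt _ z1).2.2.2.1 _ q.1 q.2.1 q.2.2.1 (by rw [e1]; exact (hmem _ w1).2.2.2.1) ?_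
        rw [e0, e1, a2, b2]
      exact Prod.ext (Prod.ext e1 (Prod.ext e2 (a2.trans b2.symm)))
        (Prod.ext (by rw [← z3, ← w3, e1]) (Prod.ext (by rw [← z4, ← w4, e2]) (a3.trans b3.symm)))
    rw [← Finset.card_image_of_injOn inj]
    refine amamp_pairs p hp2 c.1 c.2 k ((L + 1) ^ 2) (hLq _ c1).1 (hLq _ c2).1 hne
      (h.hL _ c1).2.1 (h.hL _ c2).2.1 ?_ h.sz _ fun b hb => ?_
    · rw [sq]
      exact Nat.mul_le_mul (Nat.succ_le_succ (h.hL _ c1).2.2) (Nat.succ_le_succ (h.hL _ c2).2.2)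
    · obtain ⟨z, hz, rfl⟩ := Finset.mem_image.mp hb
      obtain ⟨a1, a2, a3⟩ := hFm z hz
      obtain ⟨z1, z2, z3, z4, σ, hσ⟩ := hQm z a1
      refine ⟨(hpt _ z1).1, (hpt _ z1).2.1, B z.2.1 z.2.2.1 z.2.2.2, ?_, σ, hσ⟩
      have q := hLq _ (hmem _ z2).2.2.1
      have := (hpt _ z1).2.2.2.2 z.2.2.2 q.1 q.2.1 q.2.2
        (by rw [z3]; exact (hmem _ z2).2.2.2.2) (by rw [a2, a3]; exact hne)
      rw [← a2, ← a3, ← z3, ← z4]
      exact this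
  refine amamp_num ha hl (by omega) hcount ?_ (by omega)
  refine (Nat.mul_le_mul_right _ hcs).trans ?_
  rw [mul_assoc]
  refine Nat.mul_le_mul_left _ ?_
  rw [← e, add_mul]
  refine Nat.add_le_add (Nat.mul_le_mul_right _ hdiag) (hoff.trans ?_)
  have := h.T₂
  calc ℒ.card ^ 2 * (49 * p) ≤ ℒ.card ^ 2 * (49 * (25 * T ^ 2)) :=
        Nat.mul_le_mul_left _ (Nat.mul_le_mul_left _ this)
    _ = 1225 * (ℒ.card ^ 2 * T ^ 2) := by ring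

end Pool.Agent.Lib.MP_4a1067_nt.Am
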