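import Mathlib
import Pool.Agent.Lib.MP_4a1067_nt.Count

namespace Pool.Agent.Lib.MP_4a1067_nt.ManyGraphs

open Pool.Agent.Lib.MP_4a1067_nt

/-- There is `c > 0` such that for every odd prime `p` the number of isomorphism classes of
functional graphs of the maps `x ↦ x ^ 2 + a` on `ZMod p` is at least `c * p ^ θ`, where
`θ = log (3 / 2 + √2) / log 16 = 0.3857...`. -/
theorem result : ∃ c : ℝ, 0 < c ∧ ∀ p : ℕ, p.Prime → p ≠ 2 →
    c * (p : ℝ) ^ (Real.log (3 / 2 + Real.sqrt 2) / Real.log 16) ≤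
      (Nat.card (Quot fun a b : ZMod p =>
        ∃ σ : ZMod p ≃ ZMod p, ∀ x : ZMod p, σ (x ^ 2 + a) = (σ x) ^ 2 + b) : ℝ) := by
  classical
  set γ : ℝ := 3 / 2 + Real.sqrt 2 with hγ
  set θ : ℝ := Real.log γ / Real.log 16 with hθ
  have hγ1 : 1 ≤ γ := by
    have := Real.sqrt_nonneg 2
    linarith
  have hγ0 : 0 < γ := by linarith
  have hl16 : 0 < Real.log 16 := Real.log_pos (by norm_num)
  have hθ0 : 0 ≤ θ := div_nonneg (Real.log_nonneg hγ1) hl16.le
  have h16 : (16 : ℝ) ^ θ = γ := by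
    rw [Real.rpow_def_of_pos (by norm_num), hθ, mul_div_cancel₀ _ hl16.ne', Real.exp_log hγ0]
  refine ⟨1 / (8 * γ ^ 13 * 6400 ^ θ), by positivity, ?_⟩
  intro p hp hp2
  have : Fact p.Prime := ⟨hp⟩
  set r : ZMod p → ZMod p → Prop := fun a b =>
    ∃ σ : ZMod p ≃ ZMod p, ∀ x : ZMod p, σ (x ^ 2 + a) = (σ x) ^ 2 + b with hr
  have hequiv : Equivalence r := by
    refine ⟨fun a => ⟨Equiv.refl _, fun x => rfl⟩, ?_, ?_⟩
    · rintro a b ⟨σ, hσ⟩
      refine ⟨σ.symm, fun x => σ.injective ?_⟩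
      rw [hσ]; simp
    · rintro a b c ⟨σ, hσ⟩ ⟨τ, hτ⟩
      exact ⟨σ.trans τ, fun x => by simp [hσ, hτ]⟩
  have hcard : Nat.card (Quot r) = (Finset.univ.image (Quot.mk r)).card := by
    rw [← Nat.card_eq_finsetCard]
    refine Nat.card_congr (Equiv.subtypeUnivEquiv ?_).symm
    intro q
    obtain ⟨a, rfl⟩ := Quot.exists_rep q
    exact Finset.mem_image_of_mem _ (Finset.mem_univ a)
  set J := Nat.log 16 (p / 6400) with hJ
  have hJ1 : p < 6400 * 16 ^ (J + 1) := by
    have := Nat.lt_pow_succ_log_self (b := 16) (by norm_num) (p / 6400)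
    rw [Nat.succ_eq_add_one, ← hJ] at this
    omega
  have hmain : γ ^ (J - 12) / 8 ≤ (Nat.card (Quot r) : ℝ) := by
    by_cases h12 : 12 ≤ J
    · rw [hcard]
      refine main_bound hp2 (Quot.mk r) (fun a b h => hequiv.eqvGen_iff.mp (Quot.eq.mp h)) _ ?_
      have h0 : p / 6400 ≠ 0 := by
        intro h0
        rw [h0] at hJ
        simp at hJ
        omega
      have := Nat.pow_log_le_self 16 h0
      rw [← hJ] at this
      rw [show 12 + (J - 12) = J by omega]
      omega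
    · rw [show J - 12 = 0 by omega, pow_zero, hcard]
      have : 1 ≤ (Finset.univ.image (Quot.mk r)).card :=
        Finset.card_pos.mpr ⟨_, Finset.mem_image_of_mem _ (Finset.mem_univ 0)⟩
      have h1 : (1 : ℝ) ≤ (Finset.univ.image (Quot.mk r)).card := by exact_mod_cast this
      linarith
  refine le_trans ?_ hmain
  have h1 : (p : ℝ) ^ θ ≤ 6400 ^ θ * γ ^ (J + 1) := by
    have h2 : (p : ℝ) ≤ 6400 * 16 ^ (J + 1) := by exact_mod_cast hJ1.le
    refine (Real.rpow_le_rpow (Nat.cast_nonneg _) h2 hθ0).trans (le_of_eq ?_)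
    rw [Real.mul_rpow (by norm_num) (by positivity), ← h16, ← Real.rpow_natCast,
      ← Real.rpow_natCast, ← Real.rpow_mul (by norm_num), ← Real.rpow_mul (by norm_num),
      mul_comm θ]
  have h3 : γ ^ (J + 1) ≤ γ ^ 13 * γ ^ (J - 12) := by
    rw [← pow_add]
    exact pow_le_pow_right₀ hγ1 (by omega)
  have h4 : (0 : ℝ) < 6400 ^ θ := by positivity
  rw [one_div, inv_mul_eq_div, div_le_div_iff₀ (by positivity) (by norm_num)]
  have h5 := mul_le_mul_of_nonneg_left h3 h4.le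
  nlinarith

end Pool.Agent.Lib.MP_4a1067_nt.ManyGraphs
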